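import Pool.Agent.CTE.Base
import Pool.Agent.CTO.A1
import Pool.Agent.CTO.A3

/-!
# CTE.A3: square roots in the selfadjoint part, and isomorphic torus algebras are conjugate (char 2)

* `star_sqrt`: `S = {s ∈ A | s* = s}` is a finite commutative ring without nilpotents of characteristic two, so
  `x ↦ x * x` is an injective (`x² = y²` gives `(x - y)² = 0`, so `x = y`, as `A` is reduced), hence surjective,
  map of `S` to itself. (`K` and `V` are finite: `End V` is finite. Adjoints are unique; the adjoint of `a b` is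
  `b* a* = a* b*` for `a, b ∈ A`.)
* `conj_of_SIso2`: read the header of `CTO/A4.lean`: with `φ : A ≃ A'`, cyclic vectors `v0`, `v0'`, `g0` and the unit
  `c = c* ∈ A` with `ψ'(a) = ψ(c a)` (`A4_g0`, `A4_exists_c`, `A4_carries` in `CTO/A4.lean` do not use the
  characteristic: import and use them if possible), take `s = s*` with `s * s = c` (`star_sqrt`), a unit;
  `g = g0 s⁻¹` is an isometry carrying `A` to `A'`.
-/

namespace Pool.Agent.CTE

open Module Pool.Agent.CTO

variable {K V : Type} [Field K] [Finite K] [AddCommGroup V] [Module K V] [FiniteDimensional K V]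

theorem star_sqrt (two : (2 : K) = 0) (σ : K →+* K) (ε : K) (f : V → V → K) (hf : IsHF σ ε f)
    (A : Subalgebra K (Module.End K V)) (hA : IsTor f A)
    (c : Module.End K V) (hc : c ∈ A) (hcs : IsAdj f c c) :
    ∃ s ∈ A, IsAdj f s s ∧ s * s = c := by
  haveI : Finite V := Module.finite_of_finite K
  haveI : Finite (Module.End K V) :=
    Finite.of_injective (fun g : Module.End K V => (g : V → V)) DFunLike.coe_injective
  have h2 : ∀ x : Module.End K V, x + x = 0 := by
    intro x
    have h3 : (2 : K) • x = x + x := by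
      rw [show (2 : K) = 1 + 1 by norm_num, add_smul, one_smul]
    rw [← h3, two, zero_smul]
  have hmul : ∀ a b : Module.End K V, a ∈ A → b ∈ A → IsAdj f a a → IsAdj f b b →
      IsAdj f (a * b) (a * b) := by
    intro a b ha hb haa hbb
    have := A3_adj_mul haa hbb
    rwa [hA.comm b hb a ha] at this
  let φ : {s : Module.End K V // s ∈ A ∧ IsAdj f s s} → {s : Module.End K V // s ∈ A ∧ IsAdj f s s} :=
    fun s => ⟨s.1 * s.1, A.mul_mem s.2.1 s.2.1, hmul _ _ s.2.1 s.2.1 s.2.2 s.2.2⟩
  have hinj : Function.Injective φ := by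
    intro x y hxy
    have e1 : x.1 * x.1 = y.1 * y.1 := congrArg Subtype.val hxy
    have e2 : (x.1 - y.1) * (x.1 - y.1) = 0 := by
      have e3 : (x.1 - y.1) * (x.1 - y.1) = x.1 * x.1 - x.1 * y.1 - y.1 * x.1 + y.1 * y.1 := by
        noncomm_ring
      rw [e3, hA.comm y.1 y.2.1 x.1 x.2.1, e1]
      have e4 := h2 (y.1 * y.1)
      have e5 := h2 (x.1 * y.1)
      calc y.1 * y.1 - x.1 * y.1 - x.1 * y.1 + y.1 * y.1
          = (y.1 * y.1 + y.1 * y.1) - (x.1 * y.1 + x.1 * y.1) := by abel
        _ = 0 := by rw [e4, e5, sub_zero]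
    have e6 := hA.red _ (A.sub_mem x.2.1 y.2.1) e2
    exact Subtype.ext (sub_eq_zero.1 e6)
  have hsurj : Function.Surjective φ := Finite.surjective_of_injective hinj
  obtain ⟨s, hs⟩ := hsurj ⟨c, hc, hcs⟩
  exact ⟨s.1, s.2.1, s.2.2, congrArg Subtype.val hs⟩

end Pool.Agent.CTE
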