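import Pool.Agent.CTE.A3
import Pool.Agent.CTO.A4

/-!
# CTE.A4: torus algebras which are isomorphic as algebras with involution are conjugate (char 2)

Read the header of `CTO/A4.lean`. With `φ : A ≃ A'`, cyclic vectors `v0`, `v0'`, `g0` and the unit `c = c* ∈ A` with
`ψ'(a) = ψ(c a)` (`A4_g0`, `A4_exists_c`, `A4_carries` in `CTO/A4.lean` do not use the characteristic: use them if
possible), take `s = s* ∈ A` with `s * s = c` (`star_sqrt`), a unit; `g = g0 s⁻¹` is an isometry carrying `A` to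
`A'`.
-/

namespace Pool.Agent.CTE

open Module Pool.Agent.CTO

variable {K V : Type} [Field K] [Finite K] [AddCommGroup V] [Module K V] [FiniteDimensional K V]

theorem conj_of_SIso2 (two : (2 : K) = 0) (σ : K →+* K) (ε : K) (f : V → V → K) (hf : IsHF σ ε f)
    (A A' : Subalgebra K (Module.End K V)) (hA : IsTor f A) (hA' : IsTor f A')
    (hS : SIso f A f A') : ∃ g ∈ Isom f, CarriesTo g A A' := by
  obtain ⟨φ, hφ⟩ := hS
  obtain ⟨g0, hg0⟩ := A4_g0 A A' hA.toIsTorGL hA'.toIsTorGL φ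
  obtain ⟨c, hcf, hcd⟩ := A4_exists_c hf g0
  have hcA : c ∈ A := by
    apply cent_eq A hA.toIsTorGL
    intro a ha
    obtain ⟨b, hb, hab⟩ := hA.star a ha
    have hab' := hφ ⟨a, ha⟩ ⟨b, hb⟩ hab
    apply LinearMap.ext
    intro v
    apply sub_eq_zero.1
    apply hf.nondeg
    intro w
    rw [A3_sub_left hf, Module.End.mul_apply, Module.End.mul_apply, ← hcf, hg0 ⟨a, ha⟩, hab',
      ← hg0 ⟨b, hb⟩, hcf, hab, sub_self]
  have hcs : IsAdj f c c := by
    intro v w
    rw [← hcf, A3_herm' hf, hcf, ← A3_herm' hf]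
  have hcu : IsUnit c := by
    rw [LinearMap.isUnit_iff_ker_eq_bot, LinearMap.ker_eq_bot']
    intro v hv
    have h1 : g0 v = 0 := by
      apply hf.nondeg
      intro w
      obtain ⟨u, rfl⟩ := g0.surjective w
      rw [hcf, hv, A3_zero_left hf]
    exact (LinearEquiv.map_eq_zero_iff g0).1 h1
  obtain ⟨a, ha, hadj, hac⟩ := star_sqrt two σ ε f hf A hA c hcA hcs
  have hau : IsUnit a := by
    have hcomm : Commute a a := Commute.refl a
    rw [← hac] at hcu
    exact (hcomm.isUnit_mul_iff.1 hcu).2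
  obtain ⟨h, hh, hha⟩ := exists_torGL A a ha hau
  have hhA : ((h⁻¹ : V ≃ₗ[K] V)).toLinearMap ∈ A := hh.2
  have hh1 : ∀ v : V, a ((h⁻¹ : V ≃ₗ[K] V) v) = v := by
    intro v
    rw [← hha]
    exact LinearEquiv.apply_symm_apply h v
  refine ⟨g0 * h⁻¹, ?_, ?_⟩
  · intro v w
    change f (g0 ((h⁻¹ : V ≃ₗ[K] V) v)) (g0 ((h⁻¹ : V ≃ₗ[K] V) w)) = f v w
    rw [hcf, ← hac, Module.End.mul_apply, hh1, hadj, hh1]
  · apply A4_carries A A' φ
    intro b v
    change g0 ((h⁻¹ : V ≃ₗ[K] V) ((b : Module.End K V) v)) =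
      (φ b : Module.End K V) (g0 ((h⁻¹ : V ≃ₗ[K] V) v))
    rw [← hg0]
    congr 1
    have h1 := hA.comm _ hhA b.1 b.2
    exact congrArg (fun g : Module.End K V => g v) h1

end Pool.Agent.CTE
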