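import Pool.Agent.CTE.Base
import Pool.Agent.CTO.Q1
import Pool.Agent.CTO.F3

/-!
# CTE.B1: the quadratic form of a torus algebra

`char K = 2`, `f` alternating nondegenerate (so `f w v = f v w`), `A` a torus algebra, `S = {s ∈ A | s* = s}`.
Adjoints are unique (nondegeneracy).
(1) `s ∈ S` implies `f (s v) v = 0`: let `d + d* = 1` in `A`; `s = s d + (s d)*` (commutativity), so
`f (s v) v = f (s d v) v + f ((s d)* v) v = f (s d v) v + f v (s d v) = 0`.
* `exists_adQ`: from `IsTor2.tr`. `adQ_unique`: if `d + d* = 1 = d1 + d1*` then `d - d1` is selfadjoint; (1).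
* `adQ_qf`: `Q (v + w) = Q v + Q w + f (d v) w + f (d w) v`, and `f (d w) v = f w (d* v) = f (d* v) w`, so the cross
  term is `f ((d + d*) v) w = f v w`.
* `adQ_carries`: `d ↦ g d g⁻¹`: if `f (g v) (g w) = μ f v w` then `g d g⁻¹ ∈ A'` has the adjoint `g d* g⁻¹ ∈ A'`, and
  `f (g d g⁻¹ v) v = μ f (d g⁻¹ v) (g⁻¹ v) = μ Q (g⁻¹ v)`.
* `adQ_mem_OQ`: by `adQ_carries` with `μ = 1` and uniqueness `Q (g⁻¹ v) = Q v`.
* `adQ_sim`: `t ∈ torGL A` with `f (t v) (t w) = μ f v w`: `Q (t v) = f (d t v) (t v) = f (t d v) (t v) = μ Q v`.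
* `adQ_sing`: `U` is stable under `A` and totally isotropic: `Q u = f (d u) u = 0`.
* `adQ_restr`, `restr_isTor2`: `p ∈ A` a selfadjoint idempotent, `W = range p`: the restrictions of `d`, `d*` to
  `W` are in `restr A W` and adjoint for `resF f W` (and `restr_isTor` of `CTO/Q1.lean`; `restr_isHF`).
* `pull_isTor2`, `adQ_pull`: transport of structure (`pull_isTor` of `CTO/P0.lean`).
* `det_one2`: an isometry of `f` has determinant one: with the invertible Gram matrix `J`, `gᵀ J g = J`, so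
  `det g ^ 2 = 1` and `(det g - 1)^2 = 0` in characteristic two.
* `mem_tor2`: so `tor (RingHom.id K) f A = torGL A ⊓ Isom f`.
-/

namespace Pool.Agent.CTE

open Module Pool.Agent.CTO

section

variable {K V : Type} [Field K] [AddCommGroup V] [Module K V] [FiniteDimensional K V]

theorem B1_symm {f : V → V → K} (hf : IsHF (RingHom.id K) 1 f) (v w : V) : f w v = f v w := by
  rw [hf.herm v w]
  simp

theorem B1_self (two : (2 : K) = 0) {f : V → V → K} (hf : IsHF (RingHom.id K) 1 f)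
    {d d' s : Module.End K V} (hd : IsAdj f d d') (hdd : d + d' = 1) (hs : IsAdj f s s)
    (hc : s * d = d * s) (v : V) : f (s v) v = 0 := by
  have h1 : s v = s (d v) + s (d' v) := by
    have : d v + d' v = v := LinearMap.congr_fun hdd v
    rw [← map_add, this]
  have h2 : f (s (d' v)) v = f (s (d v)) v := by
    have h3 := hs (d' v) v
    have h4 := q1_adj_symm hf hd v (s v)
    have h5 : s (d v) = d (s v) := LinearMap.congr_fun hc v
    rw [h3, h4, h5]
    exact B1_symm hf _ _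
  rw [h1, hf.add_left, h2, ← two_mul, two, zero_mul]

theorem exists_adQ (f : V → V → K) (A : Subalgebra K (Module.End K V)) (hA : IsTor2 f A) :
    ∃ Q, AdQ f A Q := by
  obtain ⟨d, hd, d', hd', had, hdd⟩ := hA.tr
  exact ⟨fun v => f (d v) v, d, hd, d', hd', had, hdd, fun v => rfl⟩

theorem adQ_unique (two : (2 : K) = 0) (f : V → V → K) (hf : IsHF (RingHom.id K) 1 f) (ha : Alt f)
    (A : Subalgebra K (Module.End K V)) (hA : IsTor2 f A) (Q Q' : V → K) (h : AdQ f A Q)
    (h' : AdQ f A Q') : Q = Q' := by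
  obtain ⟨d, hd, d', hd', had, hdd, hQ⟩ := h
  obtain ⟨e, he, e', he', hae, hee, hQ'⟩ := h'
  have hs : IsAdj f (d - e) (d - e) := by
    have h1 := q1_adj_sub hf had hae
    have h2 : d' - e' = d - e := by
      have h3 : d' = 1 - d := by rw [← hdd]; abel
      have h4 : e' = 1 - e := by rw [← hee]; abel
      have h5 : d' - e' = -(d - e) := by rw [h3, h4]; abel
      rw [h5]
      apply LinearMap.ext
      intro v
      have h6 : (2 : K) • (d - e) v = 0 := by rw [two, zero_smul]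
      rw [two_smul] at h6
      rw [LinearMap.neg_apply]
      exact neg_eq_of_add_eq_zero_left h6
    rwa [h2] at h1
  funext v
  have hc : (d - e) * d = d * (d - e) := by
    rw [sub_mul, mul_sub, hA.comm e he d hd]
  have h1 := B1_self two hf had hdd hs hc v
  rw [LinearMap.sub_apply, q1_sub_left hf, sub_eq_zero] at h1
  rw [hQ, hQ', h1]

theorem adQ_qf (two : (2 : K) = 0) (f : V → V → K) (hf : IsHF (RingHom.id K) 1 f) (ha : Alt f)
    (A : Subalgebra K (Module.End K V)) (Q : V → K) (h : AdQ f A Q) : IsQF f Q := by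
  obtain ⟨d, hd, d', hd', had, hdd, hQ⟩ := h
  constructor
  · intro a v
    rw [hQ, hQ, map_smul, hf.smul_left, q1_smul_right hf]
    ring
  · intro v w
    rw [hQ, hQ, hQ, map_add, hf.add_left, q1_add_right hf, q1_add_right hf]
    have h1 : f (d w) v = f (d' v) w := by
      rw [had w v]
      exact B1_symm hf _ _
    have h2 : f (d v) w + f (d' v) w = f v w := by
      rw [← hf.add_left]
      congr 1
      exact LinearMap.congr_fun hdd v
    rw [← h2, h1]
    ring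

theorem adQ_carries (two : (2 : K) = 0) (f : V → V → K) (hf : IsHF (RingHom.id K) 1 f)
    (A A' : Subalgebra K (Module.End K V)) (Q : V → K) (h : AdQ f A Q) (g : V ≃ₗ[K] V) (μ : K)
    (hμ : μ ≠ 0) (hg : ∀ v w, f (g v) (g w) = μ * f v w) (hc : CarriesTo g A A') :
    AdQ f A' (fun v => μ * Q (g⁻¹ v)) := by
  obtain ⟨d, hd, d', hd', had, hdd, hQ⟩ := h
  have hgi : ∀ v, g (g⁻¹ v) = v := fun v => LinearEquiv.apply_symm_apply g v
  have hval : ∀ (a : Module.End K V) v, P0_cj g a v = g (a (g⁻¹ v)) := fun a v => rfl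
  refine ⟨P0_cj g d, hc d hd, P0_cj g d', hc d' hd', ?_, ?_, ?_⟩
  · intro v w
    rw [hval, hval]
    have h1 := hg (d (g⁻¹ v)) (g⁻¹ w)
    have h2 := hg (g⁻¹ v) (d' (g⁻¹ w))
    rw [hgi] at h1 h2
    rw [h1, h2, had]
  · rw [← map_add, hdd, map_one]
  · intro v
    rw [hval]
    have h1 := hg (d (g⁻¹ v)) (g⁻¹ v)
    rw [hgi] at h1
    show μ * Q (g⁻¹ v) = _
    rw [h1, hQ]

theorem adQ_mem_OQ (two : (2 : K) = 0) (f : V → V → K) (hf : IsHF (RingHom.id K) 1 f) (ha : Alt f)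
    (A A' : Subalgebra K (Module.End K V)) (hA' : IsTor2 f A') (Q : V → K) (h : AdQ f A Q)
    (h' : AdQ f A' Q) (g : V ≃ₗ[K] V) (hg : g ∈ Isom f) (hc : CarriesTo g A A') : g ∈ OQ f Q := by
  have h1 := adQ_carries two f hf A A' Q h g 1 one_ne_zero (fun v w => by rw [one_mul]; exact hg v w) hc
  have h2 := adQ_unique two f hf ha A' hA' _ _ h1 h'
  refine ⟨hg, fun v => ?_⟩
  have h3 := congrFun h2 (g v)
  simp only [one_mul] at h3
  have h4 : g⁻¹ (g v) = v := LinearEquiv.symm_apply_apply g v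
  rw [h4] at h3
  exact h3.symm

theorem adQ_sim (f : V → V → K) (A : Subalgebra K (Module.End K V)) (hA : IsTorGL A) (Q : V → K)
    (h : AdQ f A Q) (t : V ≃ₗ[K] V) (ht : t ∈ torGL A) (μ : K)
    (hμ : ∀ v w, f (t v) (t w) = μ * f v w) (v : V) : Q (t v) = μ * Q v := by
  obtain ⟨d, hd, d', hd', had, hdd, hQ⟩ := h
  have h1 : d (t v) = t (d v) := LinearMap.congr_fun (hA.comm d hd _ ht.1) v
  rw [hQ, hQ, h1, hμ]

theorem adQ_sing (f : V → V → K) (A : Subalgebra K (Module.End K V)) (Q : V → K) (h : AdQ f A Q)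
    (U : Submodule K V) (hU : ∀ u ∈ U, ∀ v ∈ U, f u v = 0) (hs : ∀ a ∈ A, ∀ u ∈ U, a u ∈ U) :
    ∀ u ∈ U, Q u = 0 := by
  obtain ⟨d, hd, d', hd', had, hdd, hQ⟩ := h
  intro u hu
  rw [hQ]
  exact hU _ (hs d hd u hu) _ hu

theorem B1_res (f : V → V → K)
    (A : Subalgebra K (Module.End K V)) (hA : IsTorGL A) {d d' : Module.End K V} (hd : d ∈ A)
    (hd' : d' ∈ A) (had : IsAdj f d d') (hdd : d + d' = 1)
    (p : Module.End K V) (hpA : p ∈ A) :
    ∃ x ∈ restr A (LinearMap.range p), ∃ x' ∈ restr A (LinearMap.range p),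
      IsAdj (resF f (LinearMap.range p)) x x' ∧ x + x' = 1 ∧
      ∀ w : LinearMap.range p, ((x w : LinearMap.range p) : V) = d w := by
  obtain ⟨x, hx, hxd⟩ := q1_exists_restr (LinearMap.range p) hd (q1_stab hA hpA hd)
  obtain ⟨x', hx', hxd'⟩ := q1_exists_restr (LinearMap.range p) hd' (q1_stab hA hpA hd')
  refine ⟨x, hx, x', hx', ?_, ?_, hxd⟩
  · intro v w
    show f ((x v : LinearMap.range p) : V) w = f v ((x' w : LinearMap.range p) : V)
    rw [hxd, hxd']
    exact had _ _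
  · apply LinearMap.ext
    intro w
    apply Subtype.ext
    show ((x w : LinearMap.range p) : V) + ((x' w : LinearMap.range p) : V) = w
    rw [hxd, hxd']
    exact LinearMap.congr_fun hdd (w : V)

theorem restr_isTor2 [Finite K] (f : V → V → K) (hf : IsHF (RingHom.id K) 1 f)
    (A : Subalgebra K (Module.End K V)) (hA : IsTor2 f A) (p : Module.End K V) (hpA : p ∈ A)
    (hp : p * p = p) (hps : IsAdj f p p) :
    IsTor2 (resF f (LinearMap.range p)) (restr A (LinearMap.range p)) := by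
  refine { restr_isTor 1 f hf A hA.toIsTor p hpA hp hps with tr := ?_ }
  obtain ⟨d, hd, d', hd', had, hdd⟩ := hA.tr
  obtain ⟨x, hx, x', hx', h1, h2, -⟩ := B1_res f A hA.toIsTorGL hd hd' had hdd p hpA
  exact ⟨x, hx, x', hx', h1, h2⟩

theorem adQ_restr (f : V → V → K) (hf : IsHF (RingHom.id K) 1 f)
    (A : Subalgebra K (Module.End K V)) (hA : IsTorGL A) (Q : V → K) (h : AdQ f A Q)
    (p : Module.End K V) (hpA : p ∈ A) (hp : p * p = p) :
    AdQ (resF f (LinearMap.range p)) (restr A (LinearMap.range p)) (resQ Q (LinearMap.range p)) := by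
  obtain ⟨d, hd, d', hd', had, hdd, hQ⟩ := h
  obtain ⟨x, hx, x', hx', h1, h2, h3⟩ := B1_res f A hA hd hd' had hdd p hpA
  refine ⟨x, hx, x', hx', h1, h2, fun v => ?_⟩
  show Q (v : V) = f ((x v : LinearMap.range p) : V) v
  rw [h3, hQ]

theorem mode_restr (f : V → V → K) (hf : IsHF (RingHom.id K) 1 f)
    (A : Subalgebra K (Module.End K V)) (hA : IsTorGL A) (Q : V → K) (h : Mode f A Q)
    (p : Module.End K V) (hpA : p ∈ A) (hp : p * p = p) :
    Mode (resF f (LinearMap.range p)) (restr A (LinearMap.range p)) (resQ Q (LinearMap.range p)) := by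
  rcases h with h | h
  · exact Or.inl fun v => h v
  · exact Or.inr (adQ_restr f hf A hA Q h p hpA hp)

theorem B1_pull {W : Type} [AddCommGroup W] [Module K W] (f : V → V → K) (f' : W → W → K)
    (ψ : V ≃ₗ[K] W) (hψ : ∀ v w, f' (ψ v) (ψ w) = f v w) (B : Subalgebra K (Module.End K W))
    {d d' : Module.End K W} (hd : d ∈ B) (hd' : d' ∈ B) (had : IsAdj f' d d') (hdd : d + d' = 1) :
    ∃ x ∈ pull ψ B, ∃ x' ∈ pull ψ B, IsAdj f x x' ∧ x + x' = 1 ∧ ∀ v, ψ (x v) = d (ψ v) := by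
  have h1 : ∀ b : Module.End K W, P0_cj ψ ((P0_cj ψ).symm b) = b :=
    fun b => AlgEquiv.apply_symm_apply _ _
  refine ⟨(P0_cj ψ).symm d, ?_, (P0_cj ψ).symm d', ?_, ?_, ?_, ?_⟩
  · rw [P0_mem, h1]
    exact hd
  · rw [P0_mem, h1]
    exact hd'
  · rw [← P0_isAdj f f' ψ hψ, h1, h1]
    exact had
  · rw [← map_add, hdd, map_one]
  · intro v
    have := P0_cj_val ψ ((P0_cj ψ).symm d) v
    rw [h1] at this
    exact this.symm

theorem pull_isTor2 {W : Type} [AddCommGroup W] [Module K W] (f : V → V → K) (f' : W → W → K)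
    (ψ : V ≃ₗ[K] W) (hψ : ∀ v w, f' (ψ v) (ψ w) = f v w) (B : Subalgebra K (Module.End K W))
    (hB : IsTor2 f' B) : IsTor2 f (pull ψ B) := by
  refine { pull_isTor f f' ψ hψ B hB.toIsTor with tr := ?_ }
  obtain ⟨d, hd, d', hd', had, hdd⟩ := hB.tr
  obtain ⟨x, hx, x', hx', h1, h2, -⟩ := B1_pull f f' ψ hψ B hd hd' had hdd
  exact ⟨x, hx, x', hx', h1, h2⟩

theorem adQ_pull {W : Type} [AddCommGroup W] [Module K W] (f : V → V → K) (f' : W → W → K)
    (ψ : V ≃ₗ[K] W) (hψ : ∀ v w, f' (ψ v) (ψ w) = f v w) (B : Subalgebra K (Module.End K W))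
    (Q : W → K) (hB : AdQ f' B Q) : AdQ f (pull ψ B) (fun v => Q (ψ v)) := by
  obtain ⟨d, hd, d', hd', had, hdd, hQ⟩ := hB
  obtain ⟨x, hx, x', hx', h1, h2, h3⟩ := B1_pull f f' ψ hψ B hd hd' had hdd
  refine ⟨x, hx, x', hx', h1, h2, fun v => ?_⟩
  show Q (ψ v) = _
  rw [hQ, ← h3, hψ]

theorem det_one2 (two : (2 : K) = 0) (f : V → V → K) (hf : IsHF (RingHom.id K) 1 f)
    (g : V ≃ₗ[K] V) (hg : g ∈ Isom f) : LinearEquiv.det g = 1 := by
  have h1 := F3_det_sq 1 f hf g hg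
  rw [← LinearEquiv.coe_det] at h1
  apply Units.ext
  rw [Units.val_one]
  have h2 : (((LinearEquiv.det g : Kˣ) : K) - 1) * (((LinearEquiv.det g : Kˣ) : K) - 1) = 0 := by
    have h3 : (((LinearEquiv.det g : Kˣ) : K) - 1) * (((LinearEquiv.det g : Kˣ) : K) - 1) =
        (((LinearEquiv.det g : Kˣ) : K) * ((LinearEquiv.det g : Kˣ) : K)) + 1 -
          2 * ((LinearEquiv.det g : Kˣ) : K) := by ring
    rw [h3, h1, two, zero_mul, sub_zero, ← two]
    norm_num
  exact sub_eq_zero.1 (mul_self_eq_zero.1 h2)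

theorem mem_tor2 (two : (2 : K) = 0) (f : V → V → K) (hf : IsHF (RingHom.id K) 1 f)
    (A : Subalgebra K (Module.End K V)) (g : V ≃ₗ[K] V) :
    g ∈ tor (RingHom.id K) f A ↔ g ∈ torGL A ∧ g ∈ Isom f := by
  rw [mem_tor]
  constructor
  · rintro ⟨h1, h2, -⟩
    exact ⟨h1, h2⟩
  · rintro ⟨h1, h2⟩
    exact ⟨h1, h2, fun _ => det_one2 two f hf g h2⟩

end

end Pool.Agent.CTE
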