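import Pool.Agent.CTE.A3
import Pool.Agent.CTE.B1
import Pool.Agent.CTO.A8

/-!
# CTE.A8: an odd element in the normalizer of a torus algebra, characteristic two

`f` alternating, `A` a torus algebra (`IsTor2`), `Q` its quadratic form, `OddPos f A`, `V ≠ 0`. There is an isometry `n` of
`f` and `Q` carrying `A` to `A` such that the rank of `n - 1` is odd. (Compare `CTO/A8.lean`; its auxiliary lemmas, e.g.
`A8_data`, may be useful.)
Let `v0` be a cyclic vector, `S = {s ∈ A | s* = s}`, `e` a primitive idempotent of `S`, `B = e A`, `S0 = e S`, a field;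
`ψ(b) = f(b v0, v0)`, `ψ(b*) = ψ(b)`, `f(b v0, b' v0) = ψ(b'* b)`. With `d + d* = 1` and `δ = e d`: `δ + δ* = e`,
`B = S0 ⊕ S0 δ` (`b = (b δ* + b* δ) + (b + b*) δ`: check, using `δ* = e + δ`), and `b ↦ b + b*` maps `B` onto `S0`
(`s = s δ + (s δ)*`). `a = dim_K S0`, `dim_K B = 2 a = rank e`.
An element `n` which is an isometry of `f` and carries `A` to `A` automatically preserves `Q` (`adQ_mem_OQ`).
Case 1: `B` is not a field. Then `B` has an idempotent `e1 ≠ 0, e`, `e1 + e1*` is a selfadjoint idempotent or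
`e1 e1*` is; since `e` is primitive in `S`: `e1 e1* = 0`, `e1 + e1* = e` for a suitable primitive idempotent `e1` of
`A` below `e`; `rank e1 = rank e1* = a`, odd by `OddPos`. Let `n (b v0) = b* v0` for `b ∈ B`, identity on
`(1 - e) V`. It is an isometry: `ψ(b' b*) = ψ((b' b*)*) = ψ(b'* b)`; `n c n⁻¹ = c*` on `e V` for `c ∈ A`. The range of `n - 1` is
`{(b + b*) v0} = S0 v0`, of dimension `a`: odd.
Case 2: `B = L` is a field, of degree `2 a` over `K`; `*` is its automorphism of order two with fixed field `S0`.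
`ψ(b) = Tr_{L/K}(κ b)` for a unique `κ ∈ L`, `κ ≠ 0`, `κ* = κ` (trace form nondegenerate, `Tr(x*) = Tr(x)`). Let `λ ∈ S0`,
`λ² = κ`, and `Fr(b) = b ^ |K|`, a `K`-automorphism of `L` commuting with `*`. Let `n (b v0) = λ⁻¹ Fr(λ b) v0` for
`b ∈ L`, identity on `(1 - e) V`. It is an isometry: `ψ((λ⁻¹ Fr(λ b'))* λ⁻¹ Fr(λ b)) = Tr(κ λ⁻² Fr(λ² b'* b))
= Tr(Fr(κ b'* b)) = Tr(κ b'* b)`. `n c n⁻¹` is `Fr(c)` on `e V`. The kernel of `n - 1` on `e V` is
`{b v0 | Fr(λ b) = λ b} = λ⁻¹ K v0`, of dimension one (`x ^ |K| = x` iff `x ∈ K`), so the rank of `n - 1` is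
`2 a - 1`: odd.
(To avoid `κ`: any two nonzero functionals of `L` differ by a factor in `L`, so there is `c ∈ L`, `c = c*`, with
`ψ(Fr(b)) = ψ(c⁻¹ ... )`; but the trace is the simplest way.)
-/

namespace Pool.Agent.CTE

open Module Pool.Agent.CTO

section aux

variable {K V : Type} [Field K] [AddCommGroup V] [Module K V]

lemma A8_rank_lift {R : Type} [AddCommGroup R] [Module K R] (Φ : R ≃ₗ[K] V) (N : V ≃ₗ[K] V)
    (n : R ≃ₗ[K] R) (h : ∀ a, N (Φ a) = Φ (n a)) :
    finrank K (LinearMap.range (N.toLinearMap - LinearMap.id)) =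
      finrank K (LinearMap.range (n.toLinearMap - LinearMap.id)) := by
  have h1 : LinearMap.range (N.toLinearMap - LinearMap.id) =
      Submodule.map Φ.toLinearMap (LinearMap.range (n.toLinearMap - LinearMap.id)) := by
    ext v
    constructor
    · rintro ⟨u, rfl⟩
      obtain ⟨c, rfl⟩ := Φ.surjective u
      refine ⟨n c - c, ⟨c, rfl⟩, ?_⟩
      show Φ (n c - c) = N (Φ c) - Φ c
      rw [map_sub, h]
    · rintro ⟨_, ⟨u, rfl⟩, rfl⟩
      refine ⟨Φ u, ?_⟩
      show N (Φ u) - Φ u = Φ (n u - u)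
      rw [map_sub, h]
  rw [h1]
  exact (LinearEquiv.finrank_eq (Submodule.equivMapOfInjective _ Φ.injective _)).symm

lemma A8_rank_swap {R : Type} [CommRing R] [Algebra K R] (st : R ≃ₐ[K] R)
    (hst : ∀ x, st (st x) = x) (e : R) (hee : e * e = e)
    (hes : e * st e = 0) (hes1 : e + st e = 1) :
    finrank K (LinearMap.range (st.toLinearEquiv.toLinearMap - LinearMap.id)) =
      finrank K (LinearMap.range (LinearMap.mulLeft K e)) := by
  set U := LinearMap.range (LinearMap.mulLeft K e) with hU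
  have hu : ∀ u ∈ U, e * u = u := by
    rintro _ ⟨v, rfl⟩
    show e * (e * v) = e * v
    rw [← mul_assoc, hee]
  have hu' : ∀ u ∈ U, e * st u = 0 := by
    intro u hu1
    rw [← hu u hu1, map_mul, ← mul_assoc, hes, zero_mul]
  set φ : R →ₗ[K] R := st.toLinearEquiv.toLinearMap - LinearMap.id with hφ
  have hφa : ∀ x, φ x = st x - x := fun x => rfl
  have h1 : LinearMap.range φ = Submodule.map φ U := by
    ext v
    constructor
    · rintro ⟨x, rfl⟩
      refine ⟨e * (x - st x), ⟨x - st x, rfl⟩, ?_⟩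
      rw [hφa, hφa, map_mul, map_sub, hst]
      linear_combination (st x - x) * hes1
    · rintro ⟨u, -, rfl⟩
      exact ⟨u, rfl⟩
  have h2 : Submodule.map φ U = LinearMap.range (φ ∘ₗ U.subtype) := by
    rw [LinearMap.range_comp, Submodule.range_subtype]
  rw [h1, h2]
  refine LinearMap.finrank_range_of_inj ?_
  rw [← LinearMap.ker_eq_bot, LinearMap.ker_eq_bot']
  rintro ⟨u, hu1⟩ h0
  have h3 : st u - u = 0 := h0
  have h4 : e * (st u - u) = 0 := by rw [h3, mul_zero]
  rw [mul_sub, hu' u hu1, hu u hu1, zero_sub, neg_eq_zero] at h4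
  exact Subtype.ext h4

end aux

section frob

variable (K L : Type) [Field K] [Finite K] [Field L] [Algebra K L] [FiniteDimensional K L]

lemma A8_frob : ∃ F : L ≃ₐ[K] L, (∀ g : L ≃ₐ[K] L, g * F = F * g) ∧
    ∀ y, F y = y → ∃ c : K, algebraMap K L c = y := by
  classical
  have := Fintype.ofFinite K
  have : Finite L := Module.finite_of_finite K
  set F := FiniteField.frobeniusAlgEquivOfAlgebraic K L with hF
  have hbij := FiniteField.bijective_frobeniusAlgEquivOfAlgebraic_pow K L
  have hpow : ∀ g : L ≃ₐ[K] L, ∃ n : ℕ, F ^ n = g := by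
    intro g
    obtain ⟨n, hn⟩ := hbij.2 g
    exact ⟨n, hn⟩
  refine ⟨F, ?_, ?_⟩
  · intro g
    obtain ⟨n, rfl⟩ := hpow g
    rw [← pow_succ, ← pow_succ']
  · intro y hy
    have h1 := (IsGalois.mem_range_algebraMap_iff_fixed (F := K) (E := L) y).2 (by
      intro g
      obtain ⟨n, rfl⟩ := hpow g
      induction n with
      | zero => rfl
      | succ n ih =>
        rw [pow_succ, AlgEquiv.mul_apply, hy, ih])
    exact h1

end frob

variable {K V : Type} [Field K] [Finite K] [AddCommGroup V] [Module K V] [FiniteDimensional K V]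

lemma A8_field_case2 (two : (2 : K) = 0) {f : V → V → K} (hf : IsHF (RingHom.id K) 1 f)
    {A : Subalgebra K (Module.End K V)} (hA : IsTor f A) {L : Type} [Field L] [Algebra K L]
    (D : A8Data f A L) (hsk : ∃ δ : L, δ + D.st δ = 1) :
    ∃ n ∈ Isom f, CarriesTo n A A ∧ ¬ DickEven n := by
  have hfd : FiniteDimensional K L := D.finite_dim
  have : Finite L := Module.finite_of_finite K
  obtain ⟨δ, hδ⟩ := hsk
  have two' : (2 : L) = 0 := by
    have h := congrArg (algebraMap K L) two
    rwa [map_ofNat, map_zero] at h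
  have heven : Even (finrank K L) := by
    have h1 : orderOf D.st = 2 := by
      apply orderOf_eq_prime
      · ext x
        rw [pow_two]
        exact D.st_st x
      · intro h
        rw [h] at hδ
        have h3 : δ + δ = 1 := hδ
        rw [← two_mul, two', zero_mul] at h3
        exact zero_ne_one h3
    have h2 : orderOf D.st ∣ Nat.card (L ≃ₐ[K] L) := orderOf_dvd_natCard _
    rw [h1, IsGalois.card_aut_eq_finrank K L] at h2
    exact even_iff_two_dvd.2 h2
  obtain ⟨F, hF2, hF1⟩ := A8_frob K L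
  obtain ⟨κ, hκ⟩ : ∃ κ : L, ∀ x, D.ψ x = Algebra.trace K L (κ * x) := by
    refine ⟨((Algebra.traceForm K L).toDual (traceForm_nondegenerate K L)).symm D.ψ, fun x => ?_⟩
    have := LinearMap.BilinForm.apply_toDual_symm_apply (B := Algebra.traceForm K L)
      (hB := traceForm_nondegenerate K L) D.ψ x
    rw [← this]
    rfl
  have hκ0 : κ ≠ 0 := by
    intro h
    have : (1 : L) = 0 := by
      apply D.psi_ne hf
      intro y
      rw [hκ, h, zero_mul, map_zero]
    exact one_ne_zero this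
  have hκs : D.st κ = κ := by
    have h1 : ∀ x, Algebra.trace K L ((D.st κ - κ) * x) = 0 := by
      intro x
      rw [sub_mul, map_sub, ← hκ x, ← D.psi_st hf x, hκ, ← Algebra.trace_eq_of_algEquiv D.st (κ * D.st x),
        map_mul D.st, D.st_st, sub_self]
    have h2 := (traceForm_nondegenerate K L).1 (D.st κ - κ) (fun x => h1 x)
    exact sub_eq_zero.1 h2
  obtain ⟨a, ha, haa, hac⟩ := star_sqrt two (RingHom.id K) 1 f hf A hA (D.T κ) (D.T_mem κ) (by
      have := D.T_adj κ
      rwa [hκs] at this)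
  obtain ⟨μ, rfl⟩ := D.exists_T ha
  have hμs : D.st μ = μ := (D.T_inj (A8_adj_unique hf haa (D.T_adj μ))).symm
  rw [← D.T_mul] at hac
  have hμκ : μ * μ = κ := D.T_inj hac
  have hμ0 : μ ≠ 0 := by
    rintro rfl
    rw [mul_zero] at hμκ
    exact hκ0 hμκ.symm
  let m : L ≃ₗ[K] L :=
    { toFun := fun x => μ * x
      invFun := fun x => μ⁻¹ * x
      map_add' := fun x y => mul_add _ _ _
      map_smul' := fun c x => by
        rw [RingHom.id_apply, mul_smul_comm]
      left_inv := fun x => by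
        show μ⁻¹ * (μ * x) = x
        rw [inv_mul_cancel_left₀ hμ0]
      right_inv := fun x => by
        show μ * (μ⁻¹ * x) = x
        rw [mul_inv_cancel_left₀ hμ0] }
  let n : L ≃ₗ[K] L := (m.trans F.toLinearEquiv).trans m.symm
  have hn : ∀ x, n x = μ⁻¹ * F (μ * x) := fun x => rfl
  have hFst : ∀ x, D.st (F x) = F (D.st x) := by
    intro x
    have := DFunLike.congr_fun (hF2 D.st) x
    exact this
  obtain ⟨N, hN1, hN2, hN3, hN4⟩ := D.lift n (by
    intro a b
    have h1 : κ * (n a * D.st (n b)) = F (κ * (a * D.st b)) := by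
      rw [hn, hn, map_mul D.st, map_inv₀, hFst, map_mul D.st, hμs]
      nth_rewrite 1 [← hμκ]
      have h2 : μ * μ * (μ⁻¹ * F (μ * a) * (μ⁻¹ * F (μ * D.st b))) =
          F (μ * a) * F (μ * D.st b) := by
        field_simp
      rw [h2, ← map_mul F, ← hμκ]
      congr 1
      ring
    rw [hκ, hκ, h1, Algebra.trace_eq_of_algEquiv F]) (fun a => F a) (by
    intro a b
    rw [hn, hn, show μ * (a * b) = a * (μ * b) by ring, map_mul]
    ring)
  refine ⟨N, hN1, hN2, ?_⟩
  show ¬ Even _
  rw [A8_rank_lift D.Φ N n hN4]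
  set φ : L →ₗ[K] L := n.toLinearMap - LinearMap.id with hφ
  have hφa : ∀ x, φ x = μ⁻¹ * F (μ * x) - x := fun x => rfl
  have hker : finrank K (LinearMap.ker φ) = 1 := by
    have hmem : μ⁻¹ ∈ LinearMap.ker φ := by
      rw [LinearMap.mem_ker, hφa, mul_inv_cancel₀ hμ0, map_one, mul_one, sub_self]
    refine finrank_eq_one (⟨μ⁻¹, hmem⟩ : LinearMap.ker φ) ?_ ?_
    · intro h
      exact inv_ne_zero hμ0 (congrArg Subtype.val h)
    · rintro ⟨x, hx⟩
      rw [LinearMap.mem_ker, hφa, sub_eq_zero] at hx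
      obtain ⟨c, hc⟩ := hF1 (μ * x) (by
        have h5 : μ * (μ⁻¹ * F (μ * x)) = μ * x := by rw [hx]
        rwa [mul_inv_cancel_left₀ hμ0] at h5)
      refine ⟨c, Subtype.ext ?_⟩
      show c • μ⁻¹ = x
      rw [Algebra.smul_def, hc, mul_comm μ x, mul_assoc, mul_inv_cancel₀ hμ0, mul_one]
  have hrn := LinearMap.finrank_range_add_finrank_ker φ
  rw [hker] at hrn
  intro he
  rw [← hrn] at heven
  rw [Nat.even_add_one] at heven
  exact heven he

lemma A8_core2 [Nontrivial V] (two : (2 : K) = 0) {f : V → V → K}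
    (hf : IsHF (RingHom.id K) 1 f)
    {A : Subalgebra K (Module.End K V)} (hA : IsTor2 f A) (hF : A8Fld f A) (hodd : OddPos f A) :
    ∃ n ∈ Isom f, CarriesTo n A A ∧ ¬ DickEven n := by
  classical
  obtain ⟨R, iR, iA, ⟨D⟩⟩ := A8_data hf hA.toIsTor
  have hfd : FiniteDimensional K R := D.finite_dim
  obtain ⟨d, hd, d', hd', hdd, hd1⟩ := hA.tr
  obtain ⟨δ, rfl⟩ := D.exists_T hd
  have hδ : δ + D.st δ = 1 := by
    apply D.T_inj
    have h1 : d' = D.T (D.st δ) := A8_adj_unique hf hdd (D.T_adj δ)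
    rw [D.T_one, ← hd1, h1]
    ext v
    obtain ⟨c, rfl⟩ := D.Φ.surjective v
    rw [LinearMap.add_apply, D.T_apply, D.T_apply, D.T_apply, add_mul, map_add]
  by_cases hfield : ∀ x : R, x ≠ 0 → ∃ y, x * y = 1
  · have hnt : Nontrivial R := D.Φ.toEquiv.nontrivial
    have hR : IsField R := ⟨⟨0, 1, zero_ne_one⟩, mul_comm, fun {a} ha => hfield a ha⟩
    exact @A8_field_case2 K V _ _ _ _ _ two f hf A hA.toIsTor R hR.toField iA D ⟨δ, hδ⟩
  · push Not at hfield
    obtain ⟨x, hx0, hx⟩ := hfield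
    obtain ⟨m, hm1, hm2, hm3⟩ := A8_idem hA.toIsTorGL (D.T_mem x)
    rw [← D.T_pow] at hm1 hm2
    rw [← D.T_mul] at hm1 hm2
    have hm1' := D.T_inj hm1
    have hm2' := D.T_inj hm2
    set ε := x ^ m with hε
    have hε0 : ε ≠ 0 := by
      intro h
      rw [h, zero_mul] at hm2'
      exact hx0 hm2'.symm
    have hε1 : ε ≠ 1 := by
      intro h
      obtain ⟨k, rfl⟩ : ∃ k, m = k + 1 := ⟨m - 1, by omega⟩
      exact hx (x ^ k) (by rw [← pow_succ', ← hε, h])
    have hex : ∃ n : ℕ, ∃ e : R, e * e = e ∧ e * ε = e ∧ e ≠ 0 ∧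
        finrank K (LinearMap.range (D.T e)) = n := ⟨_, ε, hm1', hm1', hε0, rfl⟩
    obtain ⟨e, hee, heε, he0, hn⟩ := Nat.find_spec hex
    have hprim : ∀ a ∈ A, a * a = a → a * D.T e = a → a = 0 ∨ a = D.T e := by
      intro a ha haa hae
      obtain ⟨b, rfl⟩ := D.exists_T ha
      rw [or_iff_not_imp_left]
      intro hb0
      have hbb : b * b = b := D.T_inj (by rw [D.T_mul, haa])
      have hbe : b * e = b := D.T_inj (by rw [D.T_mul, hae])
      apply A8_eq_of_rank haa hae (by rw [← D.T_mul, mul_comm, hbe])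
      rw [hn]
      exact Nat.find_min' hex ⟨b, hbb, by rw [← hbe, mul_assoc, heε], by
        rintro rfl
        exact hb0 D.T_zero, rfl⟩
    have hesz : e * D.st e = 0 := by
      by_contra hne
      have hu : IsUnit (e * D.st e) := D.unit hF (by rw [map_mul, D.st_st, mul_comm]) hne
      have hu' : IsUnit e := isUnit_of_mul_isUnit_left hu
      have h1 := A8_unit_idem hee hu'
      rw [h1, one_mul] at heε
      exact hε1 heε
    have hes1 : e + D.st e = 1 := by
      have h2 : (e + D.st e) * (e + D.st e) = e + D.st e := by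
        have h3 : D.st e * D.st e = D.st e := by rw [← map_mul, hee]
        linear_combination hee + h3 + 2 * hesz
      apply A8_unit_idem h2
      apply D.unit hF
      · rw [map_add, D.st_st, add_comm]
      · intro h3
        apply he0
        have h4 : e * (e + D.st e) = 0 := by rw [h3, mul_zero]
        rw [mul_add, hee, hesz, add_zero] at h4
        exact h4
    have ho := hodd (D.T e) (D.T_mem e) (D.T (D.st e)) (D.T_mem _) (by rw [← D.T_mul, hee])
      (D.T_adj e) (by rw [← D.T_mul, hesz, D.T_zero]) (by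
        intro h
        apply he0
        apply D.T_inj
        rw [h, D.T_zero]) hprim
    rw [D.range_T] at ho
    obtain ⟨N, hN1, hN2, hN3, hN4⟩ := D.lift D.st.toLinearEquiv (by
      intro a b
      show D.ψ (D.st a * D.st (D.st b)) = D.ψ (a * D.st b)
      rw [← map_mul D.st, D.psi_st hf]) (fun a => D.st a) (fun a b => map_mul D.st a b)
    refine ⟨N, hN1, hN2, ?_⟩
    show ¬ Even _
    rw [A8_rank_lift D.Φ N D.st.toLinearEquiv hN4, A8_rank_swap D.st D.st_st e hee hesz hes1,
      Nat.not_even_iff_odd]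
    exact ho

theorem tor_dick [Nontrivial V] (two : (2 : K) = 0) (f : V → V → K)
    (hf : IsHF (RingHom.id K) 1 f) (ha : Alt f)
    (A : Subalgebra K (Module.End K V)) (hA : IsTor2 f A) (hodd : OddPos f A) (Q : V → K)
    (hQ : AdQ f A Q) : ∃ n ∈ OQ f Q, CarriesTo n A A ∧ ¬ DickEven n := by
  obtain ⟨e, he, hee, hes, hed, hmin⟩ := A8_min hf hA.toIsTor (d0 := 1) one_ne_zero
  have hnt : Nontrivial (LinearMap.range e) := by
    rw [Submodule.nontrivial_iff_ne_bot]
    intro h
    rw [LinearMap.range_eq_bot] at h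
    rw [h, zero_mul] at hed
    exact hed rfl
  obtain ⟨n, hn, hnc, hnd⟩ := A8_core2 two (A8_isHF hf hee hes)
    (restr_isTor2 f hf A hA e he hee hes) hmin
    (A8_oddPos hA.toIsTor he hee hes hodd)
  obtain ⟨N, hN1, hN2, hN3, hN4, hN5⟩ := A8_extend hf hA.toIsTor he hee hes n hn hnc
  refine ⟨N, adQ_mem_OQ two f hf ha A A hA Q hQ hQ N hN1 hN2, hN2, ?_⟩
  have h1 : LinearMap.range (N.toLinearMap - LinearMap.id) =
      Submodule.map (LinearMap.range e).subtype
        (LinearMap.range (n.toLinearMap - LinearMap.id)) := by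
    ext v
    constructor
    · rintro ⟨u, rfl⟩
      refine ⟨n (A8_pr e u) - A8_pr e u, ⟨A8_pr e u, rfl⟩, ?_⟩
      show ((n (A8_pr e u) : LinearMap.range e) : V) - (A8_pr e u : V) = N u - u
      rw [hN5, A8_pr_coe]
      abel
    · rintro ⟨_, ⟨u, rfl⟩, rfl⟩
      refine ⟨u, ?_⟩
      show N (u : V) - (u : V) = ((n u : LinearMap.range e) : V) - (u : V)
      rw [hN4]
  intro h
  apply hnd
  unfold DickEven at h ⊢
  rw [h1] at h
  rwa [← LinearEquiv.finrank_eq (Submodule.equivMapOfInjective _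
    (Submodule.injective_subtype (LinearMap.range e))
    (LinearMap.range (n.toLinearMap - LinearMap.id)))] at h

end Pool.Agent.CTE
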