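import Pool.Agent.CTE.B1

/-!
# CTE.F5: torus algebras of two dimensional quadratic spaces, characteristic two

`dim V ≤ 2`, `A`, `A'` torus algebras with the same quadratic form `Q`; then `A = A'`. `dim V ≤ 1`: `End V` is `K` or `0`. Let
`dim V = 2`; `Q v = f (d v) v = f (d' v) v` (`d ∈ A`, `d' ∈ A'`, `d + d* = 1`, `d' + d'* = 1`). `x = d - d'` is selfadjoint
(`x* = (1 - d) - (1 - d') = x`) and `f (x v) v = 0` for all `v`. The form `f (x v) w` is alternating, on a two dimensional
space, so it is a multiple `c f v w` of `f`, and `x = c` is a scalar (nondegeneracy). So `d ∈ A'`. `d` is not a scalar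
(`d = c` would have `d* = c`, `d + d* = 2 c = 0 ≠ 1`), so `1`, `d` span a two dimensional subspace of `A ∩ A'`, and
`dim A = dim A' = 2`: `A = A'`.
-/

namespace Pool.Agent.CTE

open Module Pool.Agent.CTO

theorem F5_scalar {K V : Type} [Field K] [AddCommGroup V] [Module K V] [FiniteDimensional K V]
    (two : (2 : K) = 0) (f : V → V → K) (hf : IsHF (RingHom.id K) 1 f) (ha : Alt f)
    (h2 : finrank K V = 2) (x : Module.End K V) (hx : ∀ v, f (x v) v = 0) :
    ∃ c : K, x = c • (1 : Module.End K V) := by
  have hsym : ∀ v w, f w v = f v w := by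
    intro v w
    have := hf.herm v w
    simpa using this
  have hadd : ∀ u v w, f u (v + w) = f u v + f u w := by
    intro u v w
    rw [hsym (v + w) u, hf.add_left, hsym v u, hsym w u]
  have hsm : ∀ (c : K) v w, f v (c • w) = c * f v w := by
    intro c v w
    rw [hsym (c • w) v, hf.smul_left, hsym w v]
  have hnt : Nontrivial V := Module.nontrivial_of_finrank_pos (R := K) (by omega)
  obtain ⟨v1, hv1⟩ := exists_ne (0 : V)
  obtain ⟨y, hy⟩ : ∃ y, f v1 y ≠ 0 := by
    by_contra hcon
    push Not at hcon
    exact hv1 (hf.nondeg v1 hcon)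
  obtain ⟨v2, hv2⟩ : ∃ v2, f v1 v2 = 1 := by
    refine ⟨(f v1 y)⁻¹ • y, ?_⟩
    rw [hsm, inv_mul_cancel₀ hy]
  have hv21 : f v2 v1 = 1 := by rw [hsym, hv2]
  have hli : LinearIndependent K ![v1, v2] := by
    rw [LinearIndependent.pair_iff]
    intro a b hab
    have e1 : f (a • v1 + b • v2) v2 = 0 := by
      rw [hab]
      have := hf.smul_left 0 (0 : V) v2
      rwa [zero_smul, zero_mul] at this
    have e2 : f (a • v1 + b • v2) v1 = 0 := by
      rw [hab]
      have := hf.smul_left 0 (0 : V) v1
      rwa [zero_smul, zero_mul] at this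
    rw [hf.add_left, hf.smul_left, hf.smul_left, hv2, ha v2, mul_one, mul_zero, add_zero] at e1
    rw [hf.add_left, hf.smul_left, hf.smul_left, hv21, ha v1, mul_one, mul_zero, zero_add] at e2
    exact ⟨e1, e2⟩
  let B := basisOfLinearIndependentOfCardEqFinrank hli (by simp [h2])
  have hB0 : B 0 = v1 := by simp [B]
  have hB1 : B 1 = v2 := by simp [B]
  -- a vector orthogonal to `v1` and `v2` is zero
  have hz : ∀ u, f u v1 = 0 → f u v2 = 0 → u = 0 := by
    intro u h1 h2
    apply hf.nondeg
    intro w
    rw [← B.sum_repr w, Fin.sum_univ_two, hB0, hB1, hadd, hsm, hsm, h1, h2]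
    ring
  have hg : f (x v2) v1 = f (x v1) v2 := by
    have h1 := hx (v1 + v2)
    rw [map_add, hf.add_left, hadd, hadd, hx, hx] at h1
    linear_combination h1 - f (x v1) v2 * two
  refine ⟨f (x v1) v2, ?_⟩
  have hsub : ∀ a b w, f (a - b) w = f a w - f b w := by
    intro a b w
    have h1 := hf.add_left (a - b) b w
    rw [sub_add_cancel] at h1
    rw [h1]
    ring
  apply B.ext
  intro i
  fin_cases i
  · show x (B 0) = (f (x v1) v2 • (1 : Module.End K V)) (B 0)
    rw [hB0, LinearMap.smul_apply, Module.End.one_apply, ← sub_eq_zero]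
    apply hz
    · rw [hsub, hf.smul_left, hx, ha v1]
      ring
    · rw [hsub, hf.smul_left, hv2]
      ring
  · show x (B 1) = (f (x v1) v2 • (1 : Module.End K V)) (B 1)
    rw [hB1, LinearMap.smul_apply, Module.End.one_apply, ← sub_eq_zero]
    apply hz
    · rw [hsub, hf.smul_left, hg, hv21]
      ring
    · rw [hsub, hf.smul_left, hx, ha v2]
      ring

theorem O_small2 (K V : Type) [Field K] [AddCommGroup V] [Module K V] [FiniteDimensional K V]
    (two : (2 : K) = 0) (f : V → V → K) (hf : IsHF (RingHom.id K) 1 f) (ha : Alt f)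
    (h : finrank K V ≤ 2) (A A' : Subalgebra K (Module.End K V)) (hA : IsTor2 f A)
    (hA' : IsTor2 f A') (Q : V → K) (hQ : AdQ f A Q) (hQ' : AdQ f A' Q) : A = A' := by
  have hsym : ∀ v w, f w v = f v w := by
    intro v w
    have := hf.herm v w
    simpa using this
  have hsub : ∀ a b w, f (a - b) w = f a w - f b w := by
    intro a b w
    have h1 := hf.add_left (a - b) b w
    rw [sub_add_cancel] at h1
    rw [h1]
    ring
  have hsm : ∀ (c : K) v w, f v (c • w) = c * f v w := by
    intro c v w
    rw [hsym (c • w) v, hf.smul_left, hsym w v]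
  have hr : finrank K (Subalgebra.toSubmodule A) = finrank K V := hA.rank
  have hr' : finrank K (Subalgebra.toSubmodule A') = finrank K V := hA'.rank
  apply Subalgebra.toSubmodule_injective
  by_cases h2 : finrank K V = 2
  · obtain ⟨d, hd, d', hd', hdd, hsum, hdQ⟩ := hQ
    obtain ⟨e, he, e', he', hee, hsume, heQ⟩ := hQ'
    obtain ⟨c, hc⟩ := F5_scalar two f hf ha h2 (d - e) (fun v => by
      rw [LinearMap.sub_apply, hsub, ← hdQ, ← heQ, sub_self])
    have hdA' : d ∈ A' := by
      have h3 : d = e + c • (1 : Module.End K V) := by rw [← hc]; abel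
      rw [h3]
      exact A'.add_mem he (A'.smul_mem A'.one_mem c)
    have hli : LinearIndependent K ![(1 : Module.End K V), d] := by
      rw [LinearIndependent.pair_iff]
      intro a b hab
      by_cases hb : b = 0
      · refine ⟨?_, hb⟩
        rw [hb, zero_smul, add_zero] at hab
        have hnt : Nontrivial V := Module.nontrivial_of_finrank_pos (R := K) (by omega)
        rcases smul_eq_zero.1 hab with h3 | h3
        · exact h3
        · exact absurd h3 one_ne_zero
      · exfalso
        have hds : d = (-(b⁻¹ * a)) • (1 : Module.End K V) := by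
          have h3 : b • d = -(a • (1 : Module.End K V)) := by
            rw [add_comm] at hab
            exact eq_neg_of_add_eq_zero_left hab
          calc d = b⁻¹ • (b • d) := by rw [smul_smul, inv_mul_cancel₀ hb, one_smul]
            _ = (-(b⁻¹ * a)) • (1 : Module.End K V) := by rw [h3, smul_neg, smul_smul, neg_smul]
        generalize (-(b⁻¹ * a)) = t at hds
        have hd's : d' = (1 - t) • (1 : Module.End K V) := by
          rw [sub_smul, one_smul, ← hds, ← hsum]
          abel
        have hnt : Nontrivial V := Module.nontrivial_of_finrank_pos (R := K) (by omega)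
        obtain ⟨v, hv⟩ := exists_ne (0 : V)
        obtain ⟨w, hw⟩ : ∃ w, f v w ≠ 0 := by
          by_contra hcon
          push Not at hcon
          exact hv (hf.nondeg v hcon)
        have h3 := hdd v w
        rw [hds, hd's, LinearMap.smul_apply, LinearMap.smul_apply, Module.End.one_apply,
          Module.End.one_apply, hf.smul_left, hsm] at h3
        have h4 : t = 1 - t := mul_right_cancel₀ hw h3
        apply one_ne_zero (α := K)
        linear_combination t * two - h4
    have hfr : finrank K (Submodule.span K (Set.range ![(1 : Module.End K V), d])) = 2 := by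
      rw [finrank_span_eq_card hli]
      simp
    have hle : Submodule.span K (Set.range ![(1 : Module.End K V), d]) ≤
        Subalgebra.toSubmodule A := by
      rw [Submodule.span_le]
      rintro _ ⟨i, rfl⟩
      fin_cases i
      · exact A.one_mem
      · exact hd
    have hle' : Submodule.span K (Set.range ![(1 : Module.End K V), d]) ≤
        Subalgebra.toSubmodule A' := by
      rw [Submodule.span_le]
      rintro _ ⟨i, rfl⟩
      fin_cases i
      · exact A'.one_mem
      · exact hdA'
    have e1 := Submodule.eq_of_le_of_finrank_eq hle (by rw [hfr, hr, h2])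
    have e2 := Submodule.eq_of_le_of_finrank_eq hle' (by rw [hfr, hr', h2])
    rw [← e1, ← e2]
  · have hE : finrank K (Module.End K V) = finrank K V := by
      rw [Module.finrank_linearMap]
      have h3 : finrank K V = 0 ∨ finrank K V = 1 := by omega
      rcases h3 with h3 | h3 <;> rw [h3]
    have e1 : Subalgebra.toSubmodule A = ⊤ :=
      Submodule.eq_top_of_finrank_eq (by rw [hr, hE])
    have e2 : Subalgebra.toSubmodule A' = ⊤ :=
      Submodule.eq_top_of_finrank_eq (by rw [hr', hE])
    rw [e1, e2]

end Pool.Agent.CTE
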