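import Pool.Agent.CTE.Base
import Pool.Agent.CTO.G1

/-!
# CTE.G1: the symplectic group is generated by transvections, characteristic two

The same proof as `sp_gen` in `CTO/G1.lean` (read its header), with `f v v = 0` by assumption and `f w v = f v w`.
The transvection `x ↦ x + c f(x,u) u` is in `EichSet (RingHom.id K) 1 f` (`w = 0`, `γ = c`: the condition
`σ γ + ε γ = - f w w` reads `c + c = 0`).
-/

namespace Pool.Agent.CTE

open Module Pool.Agent.CTO

variable {K V : Type} [Field K] [AddCommGroup V] [Module K V] [FiniteDimensional K V]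

omit [FiniteDimensional K V] in
/-- transvections -/
theorem G1_trans2 {f : V → V → K} (ha : Alt f) (hf : IsHF (RingHom.id K) (-1) f) (u : V) (c : K) :
    ∃ t ∈ EU (RingHom.id K) (-1) f, ∀ x, t x = x + (c * f x u) • u := by
  have hE : IsEich (RingHom.id K) (-1) f u 0 c := by
    refine ⟨ha u, G1_zero_left hf u, ?_⟩
    rw [G1_zero_left hf, RingHom.id_apply]
    ring
  obtain ⟨g, hg⟩ := exists_eich hf u 0 c hE
  refine ⟨g, Subgroup.subset_closure ⟨u, 0, c, hE, hg⟩, fun x => ?_⟩
  rw [hg x, smul_zero, add_zero, G1_zero_right hf, mul_zero, zero_smul, sub_zero]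

omit [FiniteDimensional K V] in
theorem G1_step_a2 {f : V → V → K} (ha : Alt f) (hf : IsHF (RingHom.id K) (-1) f)
    (g : V ≃ₗ[K] V) (hg : g ∈ Isom f) (v : V) (hv : f (g v) v ≠ 0) :
    ∃ t ∈ EU (RingHom.id K) (-1) f, G1_Fx g < G1_Fx (t * g) := by
  obtain ⟨t, ht, htx⟩ := G1_trans2 ha hf (v - g v) (f (g v) v)⁻¹
  refine ⟨t, ht, ?_⟩
  have h1 : f (g v) (v - g v) = f (g v) v := by
    rw [G1_sub_right hf, ha (g v), sub_zero]
  have htgv : t (g v) = v := by
    rw [htx, h1, inv_mul_cancel₀ hv, one_smul]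
    abel
  have hle : G1_Fx g ≤ G1_Fx (t * g) := by
    intro x hx
    rw [G1_mem_Fx] at hx ⊢
    rw [LinearEquiv.mul_apply, hx, htx]
    have h2 : f x (v - g v) = 0 := by
      rw [G1_sub_right hf]
      have h3 := hg x v
      rw [hx] at h3
      rw [h3, sub_self]
    rw [h2, mul_zero, zero_smul, add_zero]
  refine lt_of_le_of_ne hle fun heq => ?_
  have h3 : v ∈ G1_Fx (t * g) := by
    rw [G1_mem_Fx, LinearEquiv.mul_apply, htgv]
  rw [← heq, G1_mem_Fx] at h3
  rw [h3] at hv
  exact hv (ha v)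

omit [FiniteDimensional K V] in
theorem G1_step_b2 {f : V → V → K} (ha : Alt f) (hf : IsHF (RingHom.id K) (-1) f)
    (g : V ≃ₗ[K] V) (hg : g ∈ Isom f) (hall : ∀ v, f (g v) v = 0) (y : V) (hy : g y ≠ y) :
    ∃ t ∈ EU (RingHom.id K) (-1) f, G1_Fx g ≤ G1_Fx (t * g) ∧ ∃ v, f ((t * g) v) v ≠ 0 := by
  obtain ⟨t, ht, htx⟩ := G1_trans2 ha hf (g y - y) 1
  have hu : g y - y ≠ 0 := sub_ne_zero.2 hy
  refine ⟨t, ht, ?_, ?_⟩
  · intro x hx
    rw [G1_mem_Fx] at hx ⊢
    rw [LinearEquiv.mul_apply, hx, htx]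
    have h2 : f x (g y - y) = 0 := by
      rw [G1_sub_right hf]
      have h3 := hg x y
      rw [hx] at h3
      rw [h3, sub_self]
    rw [h2, mul_zero, zero_smul, add_zero]
  · obtain ⟨a, ha⟩ : ∃ a, f (g y - y) a ≠ 0 := by
      by_contra h
      push Not at h
      exact hu (hf.nondeg _ h)
    have hval : ∀ v, f ((t * g) v) v = f (g v) (g y - y) * f (g y - y) v := by
      intro v
      rw [LinearEquiv.mul_apply, htx, hf.add_left, hall v, hf.smul_left, one_mul, zero_add]
    have hkey : ∃ v, f (g v) (g y - y) ≠ 0 ∧ f (g y - y) v ≠ 0 := by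
      have hgb : g (g⁻¹ a) = a := LinearEquiv.apply_symm_apply g a
      have hb : f (g (g⁻¹ a)) (g y - y) ≠ 0 := by
        rw [hgb, G1_herm hf (g y - y) a]
        exact neg_ne_zero.2 ha
      by_cases h1 : f (g a) (g y - y) = 0
      · by_cases h2 : f (g y - y) (g⁻¹ a) = 0
        · refine ⟨a + g⁻¹ a, ?_, ?_⟩
          · rw [map_add, hf.add_left, h1, zero_add]
            exact hb
          · rw [G1_add_right hf, h2, add_zero]
            exact ha
        · exact ⟨g⁻¹ a, hb, h2⟩
      · exact ⟨a, h1, ha⟩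
    obtain ⟨v, h1, h2⟩ := hkey
    exact ⟨v, by rw [hval]; exact mul_ne_zero h1 h2⟩

theorem G1_sp_gen (f : V → V → K) (ha : Alt f) (hf : IsHF (RingHom.id K) (-1) f) :
    Isom f ≤ EU (RingHom.id K) (-1) f := by
  have hEI := EU_le hf
  have main : ∀ n : ℕ, ∀ g : V ≃ₗ[K] V, g ∈ Isom f →
      finrank K V ≤ n + finrank K (G1_Fx g) → g ∈ EU (RingHom.id K) (-1) f := by
    intro n
    induction n with
    | zero =>
      intro g _ hn
      have h1 : G1_Fx g = ⊤ := by
        apply Submodule.eq_top_of_finrank_eq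
        have := Submodule.finrank_le (G1_Fx g)
        omega
      have h2 : g = 1 := by
        ext x
        have h3 : x ∈ G1_Fx g := by rw [h1]; trivial
        exact h3
      rw [h2]
      exact one_mem _
    | succ n ih =>
      intro g hg hn
      -- one step of type (a)
      have stepA : ∀ g' : V ≃ₗ[K] V, g' ∈ Isom f → G1_Fx g ≤ G1_Fx g' →
          (∃ v, f (g' v) v ≠ 0) → g' ∈ EU (RingHom.id K) (-1) f := by
        rintro g' hg' hle ⟨v, hv⟩
        obtain ⟨t, ht, hlt⟩ := G1_step_a2 ha hf g' hg' v hv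
        have h1 : finrank K (G1_Fx g') < finrank K (G1_Fx (t * g')) :=
          Submodule.finrank_lt_finrank_of_lt hlt
        have h2 : finrank K (G1_Fx g) ≤ finrank K (G1_Fx g') := Submodule.finrank_mono hle
        have h3 : t * g' ∈ EU (RingHom.id K) (-1) f :=
          ih (t * g') (mul_mem (hEI ht) hg') (by omega)
        have h4 : t⁻¹ * (t * g') ∈ EU (RingHom.id K) (-1) f := mul_mem (inv_mem ht) h3
        rwa [inv_mul_cancel_left] at h4
      by_cases hall : ∀ v, f (g v) v = 0
      · by_cases hone : ∀ y, g y = y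
        · have h2 : g = 1 := by
            ext x
            exact hone x
          rw [h2]
          exact one_mem _
        · push Not at hone
          obtain ⟨y, hy⟩ := hone
          obtain ⟨t, ht, hle, hv⟩ := G1_step_b2 ha hf g hg hall y hy
          have h3 := stepA (t * g) (mul_mem (hEI ht) hg) hle hv
          have h4 : t⁻¹ * (t * g) ∈ EU (RingHom.id K) (-1) f := mul_mem (inv_mem ht) h3
          rwa [inv_mul_cancel_left] at h4
      · push Not at hall
        exact stepA g hg le_rfl hall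
  intro g hg
  exact main (finrank K V) g hg (by omega)

theorem sp_gen2 (two : (2 : K) = 0) (f : V → V → K) (hf : IsHF (RingHom.id K) 1 f) (ha : Alt f) :
    Isom f ≤ EU (RingHom.id K) 1 f := by
  have h1 : (1 : K) = -1 := by linear_combination two
  rw [h1] at hf ⊢
  exact G1_sp_gen f ha hf

end Pool.Agent.CTE
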