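import Pool.Agent.CTE.G2t
import Pool.Agent.CTO.G3

/-!
# CTE.G2: the special unitary group, characteristic two

`σ ≠ id`, `char K = 2` (so `ε = 1`), `K0 = {k | σ k = k}`, `K` finite.
* `su_gen2`: as `su_gen` of `CTO/G3.lean`: induction on the dimension. A vector `v` with `f v v ≠ 0` exists
  if `V ≠ 0` (if `f v v = 0` for all `v`, then `f v w + f w v = 0`, so `x + σ x = 0` for all `x ∈ K`, `σ = id`).
-/

namespace Pool.Agent.CTE

open Module Pool.Agent.CTO

/-- an anisotropic vector -/
theorem G2_aniso {K V : Type} [Field K] [AddCommGroup V] [Module K V] {σ : K →+* K} {ε : K}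
    {f : V → V → K} (two : (2 : K) = 0) (hf : IsHF σ ε f) (hσ : ∃ k, σ k ≠ k)
    (w : V) (hw : w ≠ 0) : ∃ v, f v v ≠ 0 := by
  by_contra hcon
  push Not at hcon
  have h1 : ∀ u v, f u v + f v u = 0 := by
    intro u v
    have := hcon (u + v)
    rw [hf.add_left, G3_add_right hf, G3_add_right hf, hcon, hcon] at this
    simpa using this
  obtain ⟨w', hw'⟩ : ∃ w', f w w' ≠ 0 := by
    by_contra h
    push Not at h
    exact hw (hf.nondeg w h)
  have h2 : ∀ x : K, x + ε * σ x = 0 := by
    intro x
    have h3 := h1 ((x * (f w w')⁻¹) • w) w'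
    rw [hf.herm ((x * (f w w')⁻¹) • w) w', hf.smul_left, mul_assoc, inv_mul_cancel₀ hw',
      mul_one] at h3
    exact h3
  obtain ⟨k, hk⟩ := hσ
  apply hk
  have h5 := h2 k
  rcases hf.eps with h | h
  · rw [h] at h5
    linear_combination h5 - k * two
  · rw [h] at h5
    linear_combination -h5

theorem su_gen2 (K V : Type) [Field K] [Finite K] [AddCommGroup V] [Module K V] [FiniteDimensional K V]
    (two : (2 : K) = 0) (σ : K →+* K) (hσ : ∃ k, σ k ≠ k) (ε : K) (f : V → V → K)
    (hf : IsHF σ ε f) (g : V ≃ₗ[K] V) (hg : g ∈ Isom f) (hd : LinearEquiv.det g = 1) :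
    g ∈ EU σ ε f := by
  obtain ⟨n, hn⟩ : ∃ n, finrank K V ≤ n := ⟨_, le_rfl⟩
  induction n generalizing V with
  | zero =>
    have h0 : finrank K V = 0 := by omega
    have : Subsingleton V := finrank_zero_iff.1 h0
    have hg1 : g = 1 := by
      ext x
      exact Subsingleton.elim _ _
    rw [hg1]; exact one_mem _
  | succ n ih =>
    by_cases h2 : 2 ≤ finrank K V
    · have hne : ∃ w : V, w ≠ 0 := by
        have : Nontrivial V := Module.nontrivial_of_finrank_pos (R := K) (by omega)
        exact exists_ne 0
      obtain ⟨w, hw⟩ := hne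
      obtain ⟨v, hv⟩ := G2_aniso two hf hσ w hw
      have hgv : f (g v) (g v) = f v v := hg v v
      obtain ⟨h, hh, hhv⟩ := trans_U2 two σ hσ ε f hf h2 (g v) v (by rw [hgv]; exact hv) hgv
      have hhI : h ∈ Isom f := EU_le hf hh
      have hd' : LinearEquiv.det (h * g) = 1 := by
        rw [map_mul, eich_det hf h hh, hd, one_mul]
      have hgI : h * g ∈ Isom f := mul_mem hhI hg
      have hfix : (h * g) v = v := by rw [LinearEquiv.mul_apply, hhv]
      obtain ⟨gW, hgW, hgWI⟩ := G3_restrict hf (h * g) hgI hfix
      have hgWd : LinearEquiv.det gW = 1 := by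
        rw [G3_det hf (h * g) hgI hfix gW hgW, hd']
      have hlt := G3_finrank hf hv
      have hmem := ih (G3W hf v) (resF f (G3W hf v)) (G3_HF hf hv) gW hgWI hgWd (by omega)
      have hext := G3_ext hf (v := v) (EichSet σ ε (resF f (G3W hf v))) (EU σ ε f) (by
        rintro x ⟨u, w', γ, hE, hx⟩
        have hE' : IsEich σ ε f (u : V) (w' : V) γ := hE
        obtain ⟨H, hH⟩ := exists_eich hf (u : V) (w' : V) γ hE'
        refine ⟨H, Subgroup.subset_closure ⟨u, w', γ, hE', hH⟩, ?_, ?_⟩
        · rw [hH, G3_symm0 hf u.2, G3_symm0 hf w'.2]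
          simp
        · intro y
          rw [hH, hx]
          rfl) gW hmem
      obtain ⟨H, hH, hHv, hHw⟩ := hext
      have heq : h * g = H := by
        ext x
        obtain ⟨a, y, rfl⟩ := G3_decomp hf hv x
        rw [map_add, map_add, map_smul, map_smul, hfix, hHv, hHw, hgW]
      have : g = h⁻¹ * H := by rw [← heq]; group
      rw [this]
      exact mul_mem (inv_mem hh) hH
    · -- dimension at most one
      rcases Nat.lt_or_ge (finrank K V) 1 with h0 | h0
      · have h0 : finrank K V = 0 := by omega
        have : Subsingleton V := finrank_zero_iff.1 h0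
        have hg1 : g = 1 := by
          ext x
          exact Subsingleton.elim _ _
        rw [hg1]; exact one_mem _
      · have h1 : finrank K V = 1 := by omega
        obtain ⟨c, hc⟩ : ∃ c : K, g.toLinearMap = c • LinearMap.id := by
          obtain ⟨v, hv0, hv⟩ := finrank_eq_one_iff'.1 h1
          obtain ⟨c, hc⟩ := hv (g v)
          refine ⟨c, ?_⟩
          ext x
          obtain ⟨a, ha⟩ := hv x
          simp only [LinearEquiv.coe_coe, LinearMap.smul_apply, LinearMap.id_apply]
          rw [← ha, map_smul, ← hc, smul_comm]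
        have hdet : LinearMap.det g.toLinearMap = 1 := by
          rw [← LinearEquiv.coe_det, hd]; rfl
        rw [hc, LinearMap.det_smul, LinearMap.det_id, h1, pow_one, mul_one] at hdet
        rw [hdet, one_smul] at hc
        have hg1 : g = 1 := by
          ext x
          have := LinearMap.congr_fun hc x
          exact this
        rw [hg1]; exact one_mem _

end Pool.Agent.CTE
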