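import Pool.Agent.CTE.G3
import Pool.Agent.CTO.Y1

/-!
# CTE.G5b: the Dickson invariant

`char K = 2`, `K` finite with more than `4` elements, `f` nondegenerate alternating, `Q` with polar form `f`.
* `refl_gen2`: `OQ f Q` is generated by reflections: induction on `dim V` over all spaces. `dim V = 0` trivial. Take `v` with
  `Q v ≠ 0` (exists if `V ≠ 0`: otherwise `f = 0`). Claim: after multiplying `g` with reflections `g v = v`:
  if `f(g v, v) ≠ 0` the reflection in `g v + v` maps `g v` to `v` (`Q(g v + v) = f(g v, v)`). If `f(g v, v) = 0` and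
  `g v ≠ v` choose `y` with `Q y ≠ 0`, `f(v,y) ≠ 0`, `f(g v, y) ≠ 0` (the product of these three functions is
  a nonzero polynomial function of degree `4`, `|K| > 4`), `z = r_y v`: `f(z, v) = f(v,y)²/Q y ≠ 0`,
  `f(z, g v) = f(v, g v) + f(v,y) f(y, g v)/Q y ≠ 0`, `Q z = Q v`: the reflection in `g v + z` maps `g v` to `z`, the one
  in `z + v` maps `z` to `v`.
  Then let `g v = v`, choose `w` with `f(v,w) = 1`; if `f(g w, w) = 0` use `y = v` (`Q v ≠ 0`, `f(w,v) = f(g w,v) = 1`,
  `f(v,v) = 0`), and proceed as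
  before with `z = r_y w`; all these reflections fix `v` (`f(g w + z, v) = 0`, `f(z + w, v) = 0`). So `g` fixes `v`,
  `w`, and preserves `P^⊥`, `P = K v + K w` nondegenerate; by induction `g` on `P^⊥` is a product of reflections in
  vectors of `P^⊥`, which extend to `V`.
-/

namespace Pool.Agent.CTE

open Module Pool.Agent.CTO

theorem G5b_choose {K V : Type} [Field K] [Finite K] [AddCommGroup V] [Module K V]
    (h4 : 4 < Nat.card K) (f : V → V → K)
    (hf : IsHF (RingHom.id K) 1 f) (Q : V → K) (hQ : IsQF f Q) (a b : V) (ha : a ≠ 0)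
    (hb : b ≠ 0) (y0 : V) (hy0 : Q y0 ≠ 0) : ∃ y, Q y ≠ 0 ∧ f a y ≠ 0 ∧ f b y ≠ 0 := by
  have hex : ∀ x : V, x ≠ 0 → ∃ y, f x y ≠ 0 := by
    intro x hx
    by_contra hcon
    push Not at hcon
    exact hx (hf.nondeg x hcon)
  obtain ⟨y1, hy1⟩ := hex a ha
  obtain ⟨y2, hy2⟩ := hex b hb
  obtain ⟨z, hz1, hz2⟩ : ∃ z, f a z ≠ 0 ∧ f b z ≠ 0 := by
    by_cases h1 : f b y1 = 0
    · by_cases h2 : f a y2 = 0
      · refine ⟨y1 + y2, ?_, ?_⟩
        · rw [Y1_add_right hf, h2, add_zero]
          exact hy1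
        · rw [Y1_add_right hf, h1, zero_add]
          exact hy2
      · exact ⟨y2, h2, hy2⟩
    · exact ⟨y1, hy1, h1⟩
  have hfin : Fintype K := Fintype.ofFinite K
  let p1 : Polynomial K := Polynomial.C (Q z) * Polynomial.X ^ 2 +
    Polynomial.C (f y0 z) * Polynomial.X + Polynomial.C (Q y0)
  let p2 : Polynomial K := Polynomial.C (f a z) * Polynomial.X + Polynomial.C (f a y0)
  let p3 : Polynomial K := Polynomial.C (f b z) * Polynomial.X + Polynomial.C (f b y0)
  have hp1 : p1 ≠ 0 := by
    intro h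
    have h1 : p1.eval 0 = 0 := by rw [h, Polynomial.eval_zero]
    apply hy0
    simpa [p1] using h1
  have hlin : ∀ c d : K, c ≠ 0 → Polynomial.C c * Polynomial.X + Polynomial.C d ≠ 0 := by
    intro c d hc h
    have h1 : (Polynomial.C c * Polynomial.X + Polynomial.C d).coeff 1 = 0 := by
      rw [h, Polynomial.coeff_zero]
    apply hc
    simpa [Polynomial.coeff_C] using h1
  have hp : p1 * (p2 * p3) ≠ 0 := mul_ne_zero hp1 (mul_ne_zero (hlin _ _ hz1) (hlin _ _ hz2))
  have hd1 : p1.natDegree ≤ 2 := Polynomial.natDegree_quadratic_le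
  have hd2 : p2.natDegree ≤ 1 := Polynomial.natDegree_linear_le
  have hd3 : p3.natDegree ≤ 1 := Polynomial.natDegree_linear_le
  have hd : (p1 * (p2 * p3)).natDegree ≤ 4 := by
    refine Polynomial.natDegree_mul_le.trans ?_
    have := Polynomial.natDegree_mul_le (p := p2) (q := p3)
    omega
  obtain ⟨t, ht⟩ : ∃ t : K, (p1 * (p2 * p3)).eval t ≠ 0 := by
    by_contra hcon
    push Not at hcon
    apply hp
    refine Polynomial.eq_zero_of_natDegree_lt_card_of_eval_eq_zero' _ Finset.univ
      (fun i _ => hcon i) ?_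
    rw [Finset.card_univ, ← Nat.card_eq_fintype_card]
    omega
  rw [Polynomial.eval_mul, Polynomial.eval_mul] at ht
  have ht1 := left_ne_zero_of_mul ht
  have ht2 := left_ne_zero_of_mul (right_ne_zero_of_mul ht)
  have ht3 := right_ne_zero_of_mul (right_ne_zero_of_mul ht)
  refine ⟨y0 + t • z, ?_, ?_, ?_⟩
  · intro h
    apply ht1
    rw [hQ.add, hQ.smul, Y1_smul_right hf] at h
    simp only [p1, Polynomial.eval_add, Polynomial.eval_mul, Polynomial.eval_C,
      Polynomial.eval_pow, Polynomial.eval_X]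
    linear_combination h
  · intro h
    apply ht2
    rw [Y1_add_right hf, Y1_smul_right hf] at h
    simp only [p2, Polynomial.eval_add, Polynomial.eval_mul, Polynomial.eval_C,
      Polynomial.eval_X]
    linear_combination h
  · intro h
    apply ht3
    rw [Y1_add_right hf, Y1_smul_right hf] at h
    simp only [p3, Polynomial.eval_add, Polynomial.eval_mul, Polynomial.eval_C,
      Polynomial.eval_X]
    linear_combination h

theorem G5b_sym {K V : Type} [Field K] [AddCommGroup V] [Module K V] {f : V → V → K}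
    (hf : IsHF (RingHom.id K) 1 f) (v w : V) : f w v = f v w := by
  rw [hf.herm v w, one_mul, RingHom.id_apply]

theorem G5b_move1 {K V : Type} [Field K] [AddCommGroup V] [Module K V]
    (two : (2 : K) = 0) (f : V → V → K)
    (hf : IsHF (RingHom.id K) 1 f) (ha : Alt f) (Q : V → K) (hQ : IsQF f Q) (a b : V)
    (hab : Q a = Q b) (h : f a b ≠ 0) :
    ∃ g ∈ Subgroup.closure {g : V ≃ₗ[K] V | ∃ u, IsReflQ f Q u g}, g b = a ∧
      ∀ p, f p a = f p b → g p = p := by
  have hQu : Q (a + b) = f a b := by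
    rw [hQ.add, hab]
    linear_combination (Q b) * two
  have h0 : Q (a + b) ≠ 0 := by rw [hQu]; exact h
  obtain ⟨g, hg⟩ := exists_reflQ two f hf ha Q hQ (a + b) h0
  refine ⟨g, Subgroup.subset_closure ⟨_, hg⟩, ?_, ?_⟩
  · rw [hg.2, hQu, Y1_add_right hf, ha b, add_zero, G5b_sym hf a b, div_self h, one_smul]
    have h4 : b + b = (0 : K) • b := by rw [← two, two_smul]
    rw [zero_smul] at h4
    rw [add_comm a b, ← add_assoc, h4, zero_add]
  · intro p hp
    have h1 : f p (a + b) = 0 := by
      rw [Y1_add_right hf, hp]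
      linear_combination (f p b) * two
    rw [hg.2, h1, zero_div, zero_smul, add_zero]

theorem G5b_move {K V : Type} [Field K] [AddCommGroup V] [Module K V]
    (two : (2 : K) = 0) (f : V → V → K)
    (hf : IsHF (RingHom.id K) 1 f) (ha : Alt f) (Q : V → K) (hQ : IsQF f Q) (a b y : V)
    (hab : Q a = Q b) (hy : Q y ≠ 0) (hay : f a y ≠ 0) (hby : f b y ≠ 0) :
    ∃ g ∈ Subgroup.closure {g : V ≃ₗ[K] V | ∃ u, IsReflQ f Q u g}, g b = a ∧
      ∀ p, f p a = f p b → f p y = 0 → g p = p := by
  by_cases h : f a b = 0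
  · have hQz : Q (a + (f a y / Q y) • y) = Q a := by
      rw [hQ.add, hQ.smul, Y1_smul_right hf]
      field_simp
      linear_combination (f a y ^ 2) * two
    have h1 : f (a + (f a y / Q y) • y) b ≠ 0 := by
      rw [hf.add_left, hf.smul_left, h, zero_add, G5b_sym hf b y]
      exact mul_ne_zero (div_ne_zero hay hy) hby
    have h2 : f a (a + (f a y / Q y) • y) ≠ 0 := by
      rw [Y1_add_right hf, Y1_smul_right hf, ha a, zero_add]
      exact mul_ne_zero (div_ne_zero hay hy) hay
    obtain ⟨g1, hg1, hg1b, hg1p⟩ := G5b_move1 two f hf ha Q hQ _ b (hQz.trans hab) h1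
    obtain ⟨g2, hg2, hg2b, hg2p⟩ := G5b_move1 two f hf ha Q hQ a _ hQz.symm h2
    refine ⟨g2 * g1, mul_mem hg2 hg1, ?_, ?_⟩
    · rw [LinearEquiv.mul_apply, hg1b, hg2b]
    · intro p hp hpy
      have h3 : f p (a + (f a y / Q y) • y) = f p a := by
        rw [Y1_add_right hf, Y1_smul_right hf, hpy, mul_zero, add_zero]
      rw [LinearEquiv.mul_apply, hg1p p (h3.trans hp), hg2p p h3.symm]
  · obtain ⟨g, hg, hgb, hgp⟩ := G5b_move1 two f hf ha Q hQ a b hab h
    exact ⟨g, hg, hgb, fun p hp _ => hgp p hp⟩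

theorem G5b_dec {K W : Type} [Field K] [AddCommGroup W] [Module K W] (two : (2 : K) = 0)
    {f : W → W → K} (hf : IsHF (RingHom.id K) 1 f) (ha : Alt f) (v w : W) (hvw : f v w = 1) :
    IsHF (RingHom.id K) 1 (resF f (Y1_P hf v w)) ∧
    ∃ e : (K × K × Y1_P hf v w) ≃ₗ[K] W, ∀ q, e q = q.1 • v + q.2.1 • w + (q.2.2 : W) := by
  have hwv : f w v = 1 := by rw [G5b_sym hf v w, hvw]
  have hvv := ha v
  have hww := ha w
  have hmem : ∀ z, z + f z w • v + f z v • w ∈ Y1_P hf v w := by
    intro z
    rw [Y1_mem_P]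
    constructor
    · rw [hf.add_left, hf.add_left, hf.smul_left, hf.smul_left, hvv, hwv]
      linear_combination (f z v) * two
    · rw [hf.add_left, hf.add_left, hf.smul_left, hf.smul_left, hvw, hww]
      linear_combination (f z w) * two
  have hP : ∀ x : Y1_P hf v w, f x v = 0 ∧ f x w = 0 := fun x => (Y1_mem_P hf v w x).1 x.2
  have hadd : ∀ x : W, x + x = 0 := fun x => by
    have h4 : x + x = (0 : K) • x := by rw [← two, two_smul]
    rw [h4, zero_smul]
  refine ⟨⟨hf.invol, hf.eps, fun _ _ _ => hf.add_left _ _ _, fun _ _ _ => hf.smul_left _ _ _,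
    fun _ _ => hf.herm _ _, fun x hx => ?_⟩, ?_⟩
  · apply Subtype.ext
    apply hf.nondeg
    intro z
    have h2 : f x (z + f z w • v + f z v • w) = 0 := hx ⟨_, hmem z⟩
    rw [Y1_add_right hf, Y1_add_right hf, Y1_smul_right hf,
      Y1_smul_right hf, (hP x).1, (hP x).2, mul_zero, mul_zero, add_zero, add_zero] at h2
    exact h2
  · let e : (K × K × Y1_P hf v w) ≃ₗ[K] W :=
      { toFun := fun q => q.1 • v + q.2.1 • w + (q.2.2 : W)
        map_add' := fun q q' => by
          simp only [Prod.fst_add, Prod.snd_add, Submodule.coe_add, add_smul]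
          abel
        map_smul' := fun a q => by
          simp only [Prod.smul_fst, Prod.smul_snd, Submodule.coe_smul, smul_eq_mul, mul_smul,
            smul_add, RingHom.id_apply]
        invFun := fun z => (f z w, f z v, ⟨_, hmem z⟩)
        left_inv := fun q => by
          obtain ⟨a, b, x⟩ := q
          have h1 : f (a • v + b • w + (x : W)) w = a := by
            rw [hf.add_left, hf.add_left, hf.smul_left, hf.smul_left, hvw, hww, (hP x).2]
            ring
          have h2 : f (a • v + b • w + (x : W)) v = b := by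
            rw [hf.add_left, hf.add_left, hf.smul_left, hf.smul_left, hvv, hwv, (hP x).1]
            ring
          refine Prod.ext h1 (Prod.ext h2 (Subtype.ext ?_))
          change (a • v + b • w + (x : W)) + f (a • v + b • w + (x : W)) w • v +
              f (a • v + b • w + (x : W)) v • w = x
          rw [h1, h2]
          have h3 : a • v + b • w + (x : W) + a • v + b • w =
              (a • v + a • v) + (b • w + b • w) + (x : W) := by abel
          rw [h3, hadd, hadd, zero_add, zero_add]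
        right_inv := fun z => by
          change f z w • v + f z v • w + (z + f z w • v + f z v • w) = z
          have h3 : f z w • v + f z v • w + (z + f z w • v + f z v • w) =
              (f z w • v + f z w • v) + (f z v • w + f z v • w) + z := by abel
          rw [h3, hadd, hadd, zero_add, zero_add] }
    exact ⟨e, fun q => rfl⟩

theorem G5b_main (K : Type) [Field K] [Finite K] (two : (2 : K) = 0) (h4 : 4 < Nat.card K)
    (n : ℕ) : ∀ (V : Type) [AddCommGroup V] [Module K V] [FiniteDimensional K V]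
    (f : V → V → K) (_ : IsHF (RingHom.id K) 1 f) (_ : Alt f) (Q : V → K) (_ : IsQF f Q)
    (_ : finrank K V = n), OQ f Q ≤ Subgroup.closure {g | ∃ u, IsReflQ f Q u g} := by
  induction n using Nat.strong_induction_on with
  | _ n ih =>
    intro V _ _ _ f hf ha Q hQ hn g hg
    by_cases hV : Subsingleton V
    · have h1 : g = 1 := by
        ext x
        exact Subsingleton.elim _ _
      rw [h1]
      exact one_mem _
    have hnt : Nontrivial V := not_subsingleton_iff_nontrivial.1 hV
    obtain ⟨v, hv⟩ : ∃ v, Q v ≠ 0 := by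
      by_contra hcon
      push Not at hcon
      obtain ⟨x, hx⟩ := exists_ne (0 : V)
      apply hx
      apply hf.nondeg
      intro w
      have h1 := hQ.add x w
      rw [hcon, hcon, hcon] at h1
      linear_combination (-1) * h1
    have hQ0 : Q 0 = 0 := by
      have h := hQ.smul 0 0
      rw [zero_smul, mul_zero, zero_mul] at h
      exact h
    have hv0 : v ≠ 0 := by
      rintro rfl
      exact hv hQ0
    have hle : Subgroup.closure {g | ∃ u, IsReflQ f Q u g} ≤ OQ f Q := by
      rw [Subgroup.closure_le]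
      rintro r ⟨u, hu⟩
      exact (reflQ_mem two f hf ha Q hQ u r hu).1
    -- step 1
    obtain ⟨h1, h1m, h1v⟩ : ∃ h ∈ Subgroup.closure {g | ∃ u, IsReflQ f Q u g}, h (g v) = v := by
      have hgv : g v ≠ 0 := by
        intro h
        exact hv0 (g.map_eq_zero_iff.1 h)
      obtain ⟨y, hy, hy1, hy2⟩ := G5b_choose h4 f hf Q hQ v (g v) hv0 hgv v hv
      obtain ⟨h, hh, hhv, -⟩ := G5b_move two f hf ha Q hQ v (g v) y (hg.2 v).symm hy hy1 hy2
      exact ⟨h, hh, hhv⟩
    -- step 2
    obtain ⟨w, hvw⟩ : ∃ w, f v w = 1 := by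
      have h2 : ∃ w, f v w ≠ 0 := by
        by_contra hcon
        push Not at hcon
        exact hv0 (hf.nondeg v hcon)
      obtain ⟨w, hw⟩ := h2
      refine ⟨(f v w)⁻¹ • w, ?_⟩
      rw [Y1_smul_right hf, inv_mul_cancel₀ hw]
    have hg1 : h1 * g ∈ OQ f Q := mul_mem (hle h1m) hg
    have hg1v : (h1 * g) v = v := h1v
    have hvw1 : f v ((h1 * g) w) = 1 := by
      conv_lhs => rw [← hg1v]
      rw [hg1.1, hvw]
    obtain ⟨h2, h2m, h2w, h2p⟩ := G5b_move two f hf ha Q hQ w ((h1 * g) w) v (hg1.2 w).symm hv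
      (by rw [G5b_sym hf v w, hvw]; exact one_ne_zero)
      (by rw [G5b_sym hf v _, hvw1]; exact one_ne_zero)
    have h2v : h2 v = v := h2p v (hvw.trans hvw1.symm) (ha v)
    -- step 3
    have hg2 : h2 * (h1 * g) ∈ OQ f Q := mul_mem (hle h2m) hg1
    have hg2v : (h2 * (h1 * g)) v = v := by
      rw [LinearEquiv.mul_apply, hg1v, h2v]
    have hg2w : (h2 * (h1 * g)) w = w := h2w
    suffices hs : h2 * (h1 * g) ∈ Subgroup.closure {g | ∃ u, IsReflQ f Q u g} by
      have h3 : g = h1⁻¹ * (h2⁻¹ * (h2 * (h1 * g))) := by group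
      rw [h3]
      exact mul_mem (inv_mem h1m) (mul_mem (inv_mem h2m) hs)
    generalize h2 * (h1 * g) = k at hg2 hg2v hg2w ⊢
    clear h1m h1v hg1 hg1v hvw1 h2m h2w h2p h2v h1 h2 hg g
    obtain ⟨hP, e, he⟩ := G5b_dec two hf ha v w hvw
    have haP : Alt (resF f (Y1_P hf v w)) := fun x => ha x
    have hQP : IsQF (resF f (Y1_P hf v w)) (resQ Q (Y1_P hf v w)) :=
      ⟨fun a x => hQ.smul a x, fun x y => hQ.add x y⟩
    have hdim : finrank K (Y1_P hf v w) + 2 = n := by
      have h1 := e.finrank_eq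
      rw [finrank_prod, finrank_prod, finrank_self, hn] at h1
      omega
    have hkP : ∀ x : Y1_P hf v w, k (x : V) ∈ Y1_P hf v w := by
      intro x
      have hx := (Y1_mem_P hf v w x).1 x.2
      rw [Y1_mem_P]
      have e1 := hg2.1 (x : V) v
      have e2 := hg2.1 (x : V) w
      rw [hg2v] at e1
      rw [hg2w] at e2
      exact ⟨e1.trans hx.1, e2.trans hx.2⟩
    have hkiv : k⁻¹ v = v := by
      have : k⁻¹ (k v) = v := k.symm_apply_apply v
      rwa [hg2v] at this
    have hkiw : k⁻¹ w = w := by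
      have : k⁻¹ (k w) = w := k.symm_apply_apply w
      rwa [hg2w] at this
    have hki : k⁻¹ ∈ OQ f Q := inv_mem hg2
    have hkiP : ∀ x : Y1_P hf v w, k⁻¹ (x : V) ∈ Y1_P hf v w := by
      intro x
      have hx := (Y1_mem_P hf v w x).1 x.2
      rw [Y1_mem_P]
      have e1 := hki.1 (x : V) v
      have e2 := hki.1 (x : V) w
      rw [hkiv] at e1
      rw [hkiw] at e2
      exact ⟨e1.trans hx.1, e2.trans hx.2⟩
    let k' : Y1_P hf v w ≃ₗ[K] Y1_P hf v w :=
      { toFun := fun x => ⟨k x, hkP x⟩
        map_add' := fun x y => Subtype.ext (by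
          change k ((x : V) + y) = k x + k y
          exact map_add k _ _)
        map_smul' := fun a x => Subtype.ext (by
          change k (a • (x : V)) = a • k x
          exact map_smul k _ _)
        invFun := fun x => ⟨k⁻¹ x, hkiP x⟩
        left_inv := fun x => Subtype.ext (k.symm_apply_apply x)
        right_inv := fun x => Subtype.ext (k.apply_symm_apply x) }
    have hk' : k' ∈ OQ (resF f (Y1_P hf v w)) (resQ Q (Y1_P hf v w)) :=
      ⟨fun x y => hg2.1 x y, fun x => hg2.2 x⟩
    have hind := ih _ (by omega) (Y1_P hf v w) _ hP haP _ hQP rfl hk'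
    let E : (Y1_P hf v w ≃ₗ[K] Y1_P hf v w) → (V ≃ₗ[K] V) := fun x =>
      (e.symm.trans (LinearEquiv.prodCongr (LinearEquiv.refl K K)
        (LinearEquiv.prodCongr (LinearEquiv.refl K K) x))).trans e
    have hE : ∀ x q, E x (e q) = e (q.1, q.2.1, x q.2.2) := by
      intro x q
      change e ((LinearEquiv.prodCongr (LinearEquiv.refl K K)
        (LinearEquiv.prodCongr (LinearEquiv.refl K K) x)) (e.symm (e q))) = _
      rw [LinearEquiv.symm_apply_apply]
      rfl
    let EM : (Y1_P hf v w ≃ₗ[K] Y1_P hf v w) →* (V ≃ₗ[K] V) :=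
      { toFun := E
        map_one' := by
          ext z
          obtain ⟨q, rfl⟩ := e.surjective z
          rw [hE]
          rfl
        map_mul' := fun x y => by
          ext z
          obtain ⟨q, rfl⟩ := e.surjective z
          rw [hE, LinearEquiv.mul_apply (E x), hE, hE]
          rfl }
    have hmap : Subgroup.map EM (Subgroup.closure {g | ∃ u, IsReflQ (resF f (Y1_P hf v w))
        (resQ Q (Y1_P hf v w)) u g}) ≤ Subgroup.closure {g | ∃ u, IsReflQ f Q u g} := by
      rw [MonoidHom.map_closure, Subgroup.closure_le]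
      rintro _ ⟨r, ⟨u, hu⟩, rfl⟩
      refine Subgroup.subset_closure ⟨u, hu.1, fun z => ?_⟩
      obtain ⟨q, rfl⟩ := e.surjective z
      change E r (e q) = _
      rw [hE, hu.2, he, he]
      have h5 : f (q.1 • v + q.2.1 • w + (q.2.2 : V)) (u : V) = f (q.2.2 : V) (u : V) := by
        have hu1 := (Y1_mem_P hf v w u).1 u.2
        rw [hf.add_left, hf.add_left, hf.smul_left, hf.smul_left, G5b_sym hf (u : V) v,
          G5b_sym hf (u : V) w, hu1.1, hu1.2]
        ring
      rw [h5]
      change q.1 • v + q.2.1 • w + ((q.2.2 : V) + (f (q.2.2 : V) u / Q u) • (u : V)) =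
        q.1 • v + q.2.1 • w + (q.2.2 : V) + (f (q.2.2 : V) u / Q u) • (u : V)
      rw [add_assoc (q.1 • v + q.2.1 • w)]
    have hfinal : EM k' = k := by
      ext z
      obtain ⟨q, rfl⟩ := e.surjective z
      change E k' (e q) = _
      rw [hE, he, he, map_add, map_add, map_smul, map_smul, hg2v, hg2w]
      rfl
    rw [← hfinal]
    exact hmap (Subgroup.mem_map_of_mem EM hind)

theorem refl_gen2 (K V : Type) [Field K] [Finite K] [AddCommGroup V] [Module K V]
    [FiniteDimensional K V] (two : (2 : K) = 0) (h4 : 4 < Nat.card K) (f : V → V → K)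
    (hf : IsHF (RingHom.id K) 1 f) (ha : Alt f) (Q : V → K) (hQ : IsQF f Q) :
    OQ f Q ≤ Subgroup.closure {g | ∃ u, IsReflQ f Q u g} :=
  G5b_main K two h4 _ V f hf ha Q hQ rfl

end Pool.Agent.CTE
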