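import Pool.Agent.CTE.G5a
import Pool.Agent.CTE.G5b

/-!
# CTE.G5: the Dickson invariant

`char K = 2`, `K` finite with more than `4` elements, `f` nondegenerate alternating, `Q` with polar form `f`.
* `dick_mul`: so `DickEven g` iff `g` is a product of an even number of reflections. `dick_one`. `EUQ_even`: the
  Siegel transformation `E(u,w)`: `range (E - 1)` is spanned by `w`, `u`: if `w ∈ K u` then `E = 1` and the rank is `0`;
  otherwise the rank is `2` (the functionals `f(·,u)` and `f(·,w)` are linearly independent).
-/

namespace Pool.Agent.CTE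

open Module Pool.Agent.CTO

theorem G5_aux {K V : Type} [Field K] [Finite K] [AddCommGroup V] [Module K V]
    [FiniteDimensional K V] (two : (2 : K) = 0) (f : V → V → K)
    (hf : IsHF (RingHom.id K) 1 f) (ha : Alt f) (Q : V → K) (hQ : IsQF f Q)
    (g : V ≃ₗ[K] V) (hg : g ∈ Subgroup.closure {g : V ≃ₗ[K] V | ∃ u, IsReflQ f Q u g}) :
    g ∈ OQ f Q ∧ ∀ h ∈ OQ f Q, (DickEven (g * h) ↔ (DickEven g ↔ DickEven h)) := by
  have h1 : DickEven (1 : V ≃ₗ[K] V) := dick_one
  induction hg using Subgroup.closure_induction with
  | mem r hr =>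
    obtain ⟨u, hr⟩ := hr
    refine ⟨(reflQ_mem two f hf ha Q hQ u r hr).1, fun h hh => ?_⟩
    have e1 := dick_refl two f hf ha Q hQ h hh u r hr
    have e2 := dick_refl two f hf ha Q hQ 1 (one_mem _) u r hr
    rw [mul_one] at e2
    tauto
  | one =>
    refine ⟨one_mem _, fun h hh => ?_⟩
    rw [one_mul]
    tauto
  | mul a b _ _ iha ihb =>
    refine ⟨mul_mem iha.1 ihb.1, fun h hh => ?_⟩
    have e1 := iha.2 (b * h) (mul_mem ihb.1 hh)
    have e2 := ihb.2 h hh
    have e3 := iha.2 b ihb.1
    rw [mul_assoc]
    tauto
  | inv a _ iha =>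
    refine ⟨inv_mem iha.1, fun h hh => ?_⟩
    have e1 := iha.2 (a⁻¹ * h) (mul_mem (inv_mem iha.1) hh)
    have e2 := iha.2 a⁻¹ (inv_mem iha.1)
    rw [mul_inv_cancel_left] at e1
    rw [mul_inv_cancel] at e2
    tauto

theorem dick_mul {K V : Type} [Field K] [Finite K] [AddCommGroup V] [Module K V]
    [FiniteDimensional K V] (two : (2 : K) = 0) (h4 : 4 < Nat.card K) (f : V → V → K)
    (hf : IsHF (RingHom.id K) 1 f) (ha : Alt f) (Q : V → K) (hQ : IsQF f Q)
    (g h : V ≃ₗ[K] V) (hg : g ∈ OQ f Q) (hh : h ∈ OQ f Q) :
    DickEven (g * h) ↔ (DickEven g ↔ DickEven h) :=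
  (G5_aux two f hf ha Q hQ g (refl_gen2 K V two h4 f hf ha Q hQ hg)).2 h hh

theorem G5_sieg_even {K V : Type} [Field K] [AddCommGroup V] [Module K V]
    [FiniteDimensional K V] (two : (2 : K) = 0) (f : V → V → K)
    (hf : IsHF (RingHom.id K) 1 f) (Q : V → K) (hQ : IsQF f Q)
    (g : V ≃ₗ[K] V) (u w : V) (hu : Q u = 0)
    (hg : ∀ x, g x = x + f x u • w + f x w • u + (Q w * f x u) • u) : DickEven g := by
  have hval : ∀ x, (g.toLinearMap - LinearMap.id : V →ₗ[K] V) x =
      f x u • w + (f x w + Q w * f x u) • u := by
    intro x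
    rw [LinearMap.sub_apply, LinearMap.id_apply]
    show g x - x = _
    rw [hg]
    module
  by_cases hli : LinearIndependent K ![u, w]
  · -- rank two
    have hsurj : ∀ a b : K, ∃ x, f x u = a ∧ f x w = b := by
      -- the map x ↦ (f x u, f x w) is onto
      let T : V →ₗ[K] (Fin 2 → K) :=
        { toFun := fun x => ![f x u, f x w]
          map_add' := by
            intro x y
            ext i
            fin_cases i <;> simp [hf.add_left]
          map_smul' := by
            intro c x
            ext i
            fin_cases i <;> simp [hf.smul_left] }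
      have hT : Function.Surjective T := by
        rw [← LinearMap.range_eq_top]
        by_contra hne
        obtain ⟨φ, hφ, hφ'⟩ := Submodule.exists_le_ker_of_lt_top _ (lt_top_iff_ne_top.2 hne)
        have hφx : ∀ x, φ (T x) = 0 := fun x => by
          have := hφ' (LinearMap.mem_range_self T x)
          exact this
        have hexp : ∀ v : Fin 2 → K, φ v = v 0 * φ ![1, 0] + v 1 * φ ![0, 1] := by
          intro v
          have : v = v 0 • ![1, 0] + v 1 • ![0, 1] := by
            ext i
            fin_cases i <;> simp
          conv_lhs => rw [this]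
          rw [map_add, map_smul, map_smul, smul_eq_mul, smul_eq_mul]
        have hz : φ ![1, 0] • u + φ ![0, 1] • w = 0 := by
          apply hf.nondeg
          intro y
          have h1 := hφx y
          rw [hexp] at h1
          have h2 : f y u * φ ![1, 0] + f y w * φ ![0, 1] = 0 := h1
          rw [hf.add_left, hf.smul_left, hf.smul_left, G3_symm hf y u, G3_symm hf y w]
          linear_combination h2
        have h3 := LinearIndependent.pair_iff.1 hli _ _ hz
        apply hφ
        apply LinearMap.ext
        intro v
        rw [hexp, h3.1, h3.2]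
        simp
      intro a b
      obtain ⟨x, hx⟩ := hT ![a, b]
      refine ⟨x, ?_, ?_⟩
      · have := congrFun hx 0
        exact this
      · have := congrFun hx 1
        exact this
    have hrange : LinearMap.range (g.toLinearMap - LinearMap.id) =
        Submodule.span K (Set.range ![u, w]) := by
      apply le_antisymm
      · rintro _ ⟨x, rfl⟩
        rw [hval]
        apply Submodule.add_mem
        · exact Submodule.smul_mem _ _ (Submodule.subset_span ⟨1, rfl⟩)
        · exact Submodule.smul_mem _ _ (Submodule.subset_span ⟨0, rfl⟩)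
      · rw [Submodule.span_le]
        rintro _ ⟨i, rfl⟩
        fin_cases i
        · obtain ⟨x, hx1, hx2⟩ := hsurj 0 1
          refine ⟨x, ?_⟩
          rw [hval, hx1, hx2]
          simp
        · obtain ⟨x, hx1, hx2⟩ := hsurj 1 (-Q w)
          refine ⟨x, ?_⟩
          rw [hval, hx1, hx2]
          simp
    unfold DickEven
    rw [hrange, finrank_span_eq_card hli]
    exact ⟨1, by simp⟩
  · -- g = 1
    have hzero : (g.toLinearMap - LinearMap.id : V →ₗ[K] V) = 0 := by
      apply LinearMap.ext
      intro x
      rw [hval, LinearMap.zero_apply]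
      rw [LinearIndependent.pair_iff] at hli
      push Not at hli
      obtain ⟨s, t, hst, hne⟩ := hli
      by_cases ht : t = 0
      · have hs : s ≠ 0 := fun h => hne h ht
        have hu0 : u = 0 := by
          rw [ht, zero_smul, add_zero] at hst
          exact (smul_eq_zero.1 hst).resolve_left hs
        have : f x u = 0 := by
          rw [hu0]
          have := G3_smul_right hf 0 x (0 : V)
          rw [zero_smul, zero_mul] at this
          exact this
        rw [this, hu0, zero_smul, smul_zero, add_zero]
      · have hw : w = (-(s / t)) • u := by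
          have h1 : t • w = -(s • u) := by
            rw [eq_neg_iff_add_eq_zero, add_comm]
            exact hst
          have h2 : w = t⁻¹ • (t • w) := by rw [smul_smul, inv_mul_cancel₀ ht, one_smul]
          rw [h2, h1]
          rw [smul_neg, smul_smul, neg_smul]
          congr 2
          field_simp
        have hQw : Q w = 0 := by rw [hw, hQ.smul, hu, mul_zero]
        rw [hQw, hw, G3_smul_right hf]
        have e1 : f x u • -(s / t) • u + (-(s / t) * f x u + 0 * f x u) • u
          = (2 : K) • ((-(s / t) * f x u) • u) := by module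
        rw [e1, two, zero_smul]
    unfold DickEven
    rw [hzero, LinearMap.range_zero, finrank_bot]
    exact ⟨0, rfl⟩

theorem EUQ_even {K V : Type} [Field K] [Finite K] [AddCommGroup V] [Module K V]
    [FiniteDimensional K V] (two : (2 : K) = 0) (h4 : 4 < Nat.card K) (f : V → V → K)
    (hf : IsHF (RingHom.id K) 1 f) (ha : Alt f) (Q : V → K) (hQ : IsQF f Q)
    (g : V ≃ₗ[K] V) (hg : g ∈ EUQ f Q) : DickEven g := by
  have hle := EUQ_le two f hf ha Q hQ
  unfold EUQ at hg hle
  induction hg using Subgroup.closure_induction with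
  | mem r hr =>
    obtain ⟨u, w, hu, hw, hr⟩ := hr
    exact G5_sieg_even two f hf Q hQ r u w hu hr
  | one => exact dick_one
  | mul a b hma hmb iha ihb =>
    exact (dick_mul two h4 f hf ha Q hQ a b (hle hma) (hle hmb)).2 (iff_of_true iha ihb)
  | inv a hma iha =>
    have h1 := dick_mul two h4 f hf ha Q hQ a a⁻¹ (hle hma) (inv_mem (hle hma))
    rw [mul_inv_cancel] at h1
    have h2 : DickEven (1 : V ≃ₗ[K] V) := dick_one
    tauto

end Pool.Agent.CTE
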