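import Pool.Agent.CTE.G4
import Pool.Agent.CTE.G5

/-!
# CTE.G6: the orthogonal group modulo `EUQ`, characteristic two

`dim V ≥ 3`, `|K| > 4`. Every `g ∈ OQ f Q` is a product of reflections (`refl_gen2`), an even number iff
`DickEven g` (`dick_refl`, `dick_one`), and the product of two reflections is in `EUQ` (`refl_prod`).
* `even_mem`: `g ∈ OQ f Q` and `DickEven g` imply `g ∈ EUQ f Q`.
* `OQ_gen`: if `N` is a group containing `EUQ` and an element `n ∈ OQ f Q` with `¬ DickEven n`, then `OQ f Q ≤ N`: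
  for `g ∈ OQ f Q` either `g` or `g * n⁻¹` is even (`dick_mul`; `DickEven n⁻¹ ↔ DickEven n`).
-/

namespace Pool.Agent.CTE

open Module Pool.Agent.CTO

variable {K V : Type} [Field K] [Finite K] [AddCommGroup V] [Module K V] [FiniteDimensional K V]

private lemma G6_key (two : (2 : K) = 0) (h4 : 4 < Nat.card K) (f : V → V → K)
    (hf : IsHF (RingHom.id K) 1 f) (ha : Alt f) (Q : V → K) (hQ : IsQF f Q)
    (hV : 3 ≤ finrank K V) (g : V ≃ₗ[K] V) (hg : g ∈ OQ f Q) :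
    g ∈ OQ f Q ∧ ((DickEven g ∧ g ∈ EUQ f Q) ∨
      (¬ DickEven g ∧ ∀ (u : V) (r : V ≃ₗ[K] V), IsReflQ f Q u r → r * g ∈ EUQ f Q)) := by
  have hgen := refl_gen2 K V two h4 f hf ha Q hQ hg
  have step : ∀ (y : V ≃ₗ[K] V) (r : V ≃ₗ[K] V) (u : V), IsReflQ f Q u r →
      (y ∈ OQ f Q ∧ ((DickEven y ∧ y ∈ EUQ f Q) ∨
      (¬ DickEven y ∧ ∀ (u : V) (r : V ≃ₗ[K] V), IsReflQ f Q u r → r * y ∈ EUQ f Q))) →
      (r * y ∈ OQ f Q ∧ ((DickEven (r * y) ∧ r * y ∈ EUQ f Q) ∨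
      (¬ DickEven (r * y) ∧ ∀ (u : V) (r' : V ≃ₗ[K] V), IsReflQ f Q u r' →
        r' * (r * y) ∈ EUQ f Q))) := by
    intro y r u hr hy
    obtain ⟨hyO, hy⟩ := hy
    have hrO := (reflQ_mem two f hf ha Q hQ u r hr).1
    have hd := dick_refl two f hf ha Q hQ y hyO u r hr
    refine ⟨mul_mem hrO hyO, ?_⟩
    rcases hy with ⟨h1, h2⟩ | ⟨h1, h2⟩
    · right
      refine ⟨fun h => hd.1 h h1, fun u' r' hr' => ?_⟩
      rw [← mul_assoc]
      exact mul_mem (refl_prod two f hf ha Q hQ hV u' u r' r hr' hr) h2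
    · left
      exact ⟨hd.2 h1, h2 u r hr⟩
  induction hgen using Subgroup.closure_induction_left with
  | one => exact ⟨one_mem _, Or.inl ⟨dick_one, one_mem _⟩⟩
  | mul_left x hx y hy ih =>
    obtain ⟨u, hu⟩ := hx
    have hxO := (reflQ_mem two f hf ha Q hQ u x hu).1
    have hyO : y ∈ OQ f Q := by
      have := mul_mem (inv_mem hxO) hg
      rwa [inv_mul_cancel_left] at this
    exact step y x u hu (ih hyO)
  | inv_mul_cancel x hx y hy ih =>
    obtain ⟨u, hu⟩ := hx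
    have hx2 := (reflQ_mem two f hf ha Q hQ u x hu).2
    have hxO := (reflQ_mem two f hf ha Q hQ u x hu).1
    have hxi : x⁻¹ = x := inv_eq_of_mul_eq_one_left hx2
    rw [hxi] at hg ⊢
    have hyO : y ∈ OQ f Q := by
      have := mul_mem (inv_mem hxO) hg
      rwa [inv_mul_cancel_left] at this
    exact step y x u hu (ih hyO)

theorem even_mem (two : (2 : K) = 0) (h4 : 4 < Nat.card K) (f : V → V → K)
    (hf : IsHF (RingHom.id K) 1 f) (ha : Alt f) (Q : V → K) (hQ : IsQF f Q)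
    (hV : 3 ≤ finrank K V) (g : V ≃ₗ[K] V) (hg : g ∈ OQ f Q) (hd : DickEven g) :
    g ∈ EUQ f Q := by
  rcases (G6_key two h4 f hf ha Q hQ hV g hg).2 with h | h
  · exact h.2
  · exact absurd hd h.1

theorem OQ_gen (two : (2 : K) = 0) (h4 : 4 < Nat.card K) (f : V → V → K)
    (hf : IsHF (RingHom.id K) 1 f) (ha : Alt f) (Q : V → K) (hQ : IsQF f Q)
    (hV : 3 ≤ finrank K V) (N : Subgroup (V ≃ₗ[K] V)) (h1 : EUQ f Q ≤ N)
    (h2 : ∃ n ∈ N, n ∈ OQ f Q ∧ ¬ DickEven n) : OQ f Q ≤ N := by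
  obtain ⟨n, hnN, hnO, hnd⟩ := h2
  intro g hg
  by_cases hd : DickEven g
  · exact h1 (even_mem two h4 f hf ha Q hQ hV g hg hd)
  · have hn' : ¬ DickEven n⁻¹ := by
      intro h
      have h3 := dick_mul two h4 f hf ha Q hQ n n⁻¹ hnO (inv_mem hnO)
      rw [mul_inv_cancel] at h3
      exact hnd ((h3.1 dick_one).2 h)
    have h4' : DickEven (g * n⁻¹) :=
      (dick_mul two h4 f hf ha Q hQ g n⁻¹ hg (inv_mem hnO)).2 ⟨fun h => absurd h hd, fun h => absurd h hn'⟩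
    have h5 : g * n⁻¹ ∈ N :=
      h1 (even_mem two h4 f hf ha Q hQ hV (g * n⁻¹) (mul_mem hg (inv_mem hnO)) h4')
    have h6 := mul_mem h5 hnN
    rwa [inv_mul_cancel_right] at h6

end Pool.Agent.CTE
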