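import Pool.Agent.CTE.C1
import Pool.Agent.CTO.I0
import Pool.Agent.CTO.I1

/-!
# CTE.I1: bounded index, unitary case, characteristic two

The same proof as `index_U` in `CTO/I1.lean`, with `card_U2_le` instead of `card_U_le`.
-/

namespace Pool.Agent.CTE

open Module Pool.Agent.CTO

theorem index_U2 (n : ℕ) : ∃ k q0 : ℕ, ∀ (K V : Type) [Field K] [Finite K] [AddCommGroup V]
    [Module K V] [FiniteDimensional K V] (σ : K →+* K) (ε : K) (f : V → V → K)
    (A A' : Subalgebra K (Module.End K V)) (g : V ≃ₗ[K] V),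
    finrank K V = n → q0 ≤ Nat.card {k : K // σ k = k} → (∃ k, σ k ≠ k) → (2 : K) = 0 → IsHF σ ε f →
    IsTor f A → IsTor f A' → g ∈ Isom f → CarriesTo g A A' →
    Algebra.adjoin K (EndSet (sq (tor σ f A) ⊔ sq (tor σ f A'))) = ⊤ →
    (sq (tor σ f A) ⊔ sq (tor σ f A')).relIndex (Isom f) ≤ k := by
  refine ⟨2 ^ n * ((4 * n) * n ^ 2) ^ (n ^ 2), 2 * n + 1, ?_⟩
  intro K V _ _ _ _ _ σ ε f A A' g hn hq hσ two hf hA hA' hgf hg had
  have hfin := I1_finite K V
  by_cases hn0 : n = 0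
  · have hss := I1_subsingleton K V (hn.trans hn0)
    have hss' : Subsingleton (Subgroup (V ≃ₗ[K] V)) := inferInstance
    rw [Subsingleton.elim (sq (tor σ f A) ⊔ sq (tor σ f A')) (Isom f), Subgroup.relIndex_self, hn0]
    norm_num
  have hconj := tor_conj σ f A A' hA.toIsTorGL hA'.toIsTorGL g hg hgf
  obtain ⟨w, ρ, hρ⟩ := exists_rho (F := AlgebraicClosure K) A hA.toIsTorGL
  obtain ⟨H, hH⟩ : ∃ H, H = sq (tor σ f A) ⊔ sq (tor σ f A') := ⟨_, rfl⟩
  have htor : ∀ B : Subalgebra K (Module.End K V), tor σ f B ≤ torGL B := fun B x hx => hx.1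
  have htor' : ∀ B : Subalgebra K (Module.End K V), tor σ f B ≤ Isom f := fun B x hx => hx.2.1
  have hmap : H.map (rhoU ρ) = HT (T0 w (tor σ f A)) (rhoU ρ g) := by
    rw [hH, ← hconj]
    exact map_HT A w ρ hρ.diag (tor σ f A) (htor A) g
  have hinj := rhoU_inj ρ hρ.inj
  have hspan : SpanTop (HT (T0 w (tor σ f A)) (rhoU ρ g)) := by
    rw [← hmap]
    exact span_of_adjoin ρ hρ.span H (by rw [hH]; exact had)
  have hfinH : Finite (HT (T0 w (tor σ f A)) (rhoU ρ g)) := by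
    rw [← hmap]
    exact Finite.of_equiv H (H.equivMapOfInjective (rhoU ρ) hinj).toEquiv
  have hcard : Nat.card (HT (T0 w (tor σ f A)) (rhoU ρ g)) = Nat.card H := by
    rw [← hmap]
    exact I1_card_map H (rhoU ρ) hinj
  obtain ⟨Q0, hQ0⟩ : ∃ Q0, Q0 = Nat.card {k : K // σ k = k} := ⟨_, rfl⟩
  rw [← hQ0] at hq
  obtain ⟨D, hD⟩ : ∃ D, D = (Q0 - 2 * n - 1) / (2 * n) := ⟨_, rfl⟩
  have hnpos : 0 < n := Nat.pos_of_ne_zero hn0
  have hD1' : 2 * n * D ≤ Q0 - 2 * n - 1 := by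
    rw [hD]
    exact Nat.mul_div_le _ _
  have hD3' : Q0 - 2 * n - 1 < 2 * n * (D + 1) := by
    rw [hD]
    exact Nat.lt_mul_div_succ _ (by omega)
  have hD1 : 2 * D * finrank K V + 2 * finrank K V < Nat.card {k : K // σ k = k} := by
    rw [hn, ← hQ0]
    have : 2 * D * n = 2 * n * D := by ring
    omega
  have hD2 : Q0 ≤ (4 * n) * (D + 1) := by
    have h1 : Q0 ≤ 2 * n * (D + 1) + 2 * n := by omega
    nlinarith
  have hne : Nonempty (Fin (finrank K V)) := ⟨⟨0, by omega⟩⟩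
  have hinf : Infinite (AlgebraicClosure K) := inferInstance
  have hdens : DensGL D (T0 w (tor σ f A)) := dens_torU σ hσ ε f hf A hA w hρ.bij D hD1
  have hle := card_GL D (T0 w (tor σ f A)) (rhoU ρ g) hdens hspan
  rw [hcard, Fintype.card_fin, hn] at hle
  have hHfin : Finite H := inferInstance
  have hHle : H ≤ Isom f := by
    rw [hH]
    exact sup_le ((I1_sq_le _).trans (htor' A)) ((I1_sq_le _).trans (htor' A'))
  rw [← hH]
  refine I1_arith Q0 (4 * n) D (n ^ 2) (Nat.card H) _ (2 ^ n)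
    (by positivity) hD2 hle ?_ Nat.card_pos
  have h1 : H.relIndex (Isom f) * Nat.card H = Nat.card (Isom f) := by
    have h2 := Subgroup.index_mul_card (H.subgroupOf (Isom f))
    rw [Nat.card_congr (Subgroup.subgroupOfEquivOfLe hHle).toEquiv] at h2
    exact h2
  rw [h1, hQ0]
  have := card_U2_le two σ hσ ε f hf
  rwa [hn] at this

end Pool.Agent.CTE
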