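import Pool.Agent.CTE.C1u

/-!
# CTE.C1: upper bound for the number of isometries of a quadratic form, characteristic two

`Q` a quadratic form with nondegenerate polar form `f`, `n = dim V`, `q = |K|`. Choose a symplectic basis
`b_0, b_1, ..., b_(n-1)` (`f b_(2i) b_(2i+1) = 1`, all other `f b_j b_k`, `j ≠ k`, zero up to symmetry). Use the
counting lemma of `CTO/C1.lean`: an isometry `g` is determined by `(g b_0, ..., g b_(n-1))`, and if for every
isometry `g` and every `i` the number of the vectors `g' b_i`, `g'` an isometry with `g' b_j = g b_j` for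
`j < i`, is at most `N_i`, then the number of isometries is at most `∏ N_i`. Claim: `N_i = 2 q ^ (n - i - 1)`.
We may assume `g = 1` (apply `g⁻¹`): `y = g' b_i` satisfies `f y b_j = f b_i b_j` for `j < i` and `Q y = Q b_i`.
* `i` even: then `f b_i b_j = 0` for `j < i`: `y ∈ X = ⟨b_j | j < i⟩^⊥ = ⟨b_j | j ≥ i⟩`; `y = ∑_{k ≥ i} y_k b_k`.
  `Q y = Q b_i`, `y ≠ 0`. Given the coordinates `y_k`, `k ≥ i + 2`, `Q y = y_i² Q(b_i) + y_i y_(i+1) + y_(i+1)² Q(b_(i+1))
  + c`. The number of `(y_i, y_(i+1)) ∈ K²` with `α y_i² + y_i y_(i+1) + β y_(i+1)² = γ` is at most `2 q`: for every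
  `y_(i+1)`, if `α ≠ 0` or `y_(i+1) ≠ 0` there are at most two `y_i`, and for `α = 0`, `y_(i+1) = 0` at most `q`;
  total at most `2 (q - 1) + q`; so `N_i = 3 q ^ (n - i - 1)` is what this simple argument gives, and `3` is fine
  too: claim `N_i = 3 q ^ (n - i - 1)`.
* `i = 2 l + 1` odd: `f y b_(i-1) = f b_i b_(i-1) = 1`, `f y b_j = 0` for `j < i - 1`: `y = b_i + a b_(i-1) + y'` with
  `y' ∈ ⟨b_k | k > i⟩`, `a ∈ K`; `Q y = Q(b_i) + a² Q(b_(i-1)) + a + Q(y')`: given `y'`, at most two `a`
  (`a² α + a = γ` is not the zero polynomial): `N_i ≤ 2 q ^ (n - i - 1)`.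
So the number of isometries is at most `3 ^ n * q ^ (n (n - 1) / 2)`.
-/

namespace Pool.Agent.CTE

open Module Pool.Agent.CTO

variable {K V : Type} [Field K] [Finite K] [AddCommGroup V] [Module K V] [FiniteDimensional K V]

/-- the counting lemma for the isometries of a quadratic form -/
theorem C1_isomQ {n : ℕ} (b : Basis (Fin n) K V) (f : V → V → K) (Q : V → K) (N : Fin n → ℕ)
    (h : ∀ g ∈ OQ f Q, ∀ i, {y | ∃ g' ∈ OQ f Q, (∀ j, j < i → g' (b j) = g (b j)) ∧
      g' (b i) = y}.ncard ≤ N i) : Nat.card (OQ f Q) ≤ ∏ i, N i := by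
  classical
  have : Finite V := Module.finite_of_finite K
  have : Fintype V := Fintype.ofFinite V
  have : Finite (V ≃ₗ[K] V) := C1_finEquiv
  have : Finite (OQ f Q) := Subtype.finite
  have : Fintype (OQ f Q) := Fintype.ofFinite _
  let F : OQ f Q → (Fin n → V) := fun g i => g.1 (b i)
  have hF : Function.Injective F := by
    intro g g' hg
    apply Subtype.ext
    apply LinearEquiv.toLinearMap_injective
    exact b.ext (fun i => congrFun hg i)
  let S : Finset (Fin n → V) := Finset.univ.image F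
  have hS : Nat.card (OQ f Q) = S.card := by
    rw [Nat.card_eq_fintype_card, Finset.card_image_of_injective _ hF, Finset.card_univ]
  rw [hS]
  apply C1_count n S N
  intro s hs i
  obtain ⟨g, -, rfl⟩ := Finset.mem_image.1 hs
  refine le_trans ?_ (h g.1 g.2 i)
  rw [← Set.ncard_coe_finset]
  apply Set.ncard_le_ncard _ (Set.toFinite _)
  intro y hy
  rw [Finset.mem_coe] at hy
  obtain ⟨s', hs', rfl⟩ := Finset.mem_image.1 hy
  obtain ⟨hs'S, hs'j⟩ := Finset.mem_filter.1 hs'
  obtain ⟨g', -, rfl⟩ := Finset.mem_image.1 hs'S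
  exact ⟨g'.1, g'.2, hs'j, rfl⟩

/-- a set whose fibres on lines have at most two elements -/
theorem C1_fib {α β : Type} [Finite α] [Finite β] (S : Set α) (F : α → β)
    (h : ∀ y ∈ S, ∃ z, ∀ y' ∈ S, F y' = F y → y' = y ∨ y' = z) :
    S.ncard ≤ 2 * Nat.card β := by
  classical
  have := Fintype.ofFinite α
  have := Fintype.ofFinite β
  rw [Set.ncard_eq_toFinset_card' S, Nat.card_eq_fintype_card]
  have h1 : ∀ v ∈ (Finset.univ : Finset β), (S.toFinset.filter (fun s => F s = v)).card ≤ 2 := by
    intro v _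
    rcases (S.toFinset.filter (fun s => F s = v)).eq_empty_or_nonempty with h0 | ⟨y, hy⟩
    · rw [h0]; simp
    · rw [Finset.mem_filter, Set.mem_toFinset] at hy
      obtain ⟨z, hz⟩ := h y hy.1
      have hsub : S.toFinset.filter (fun s => F s = v) ⊆ {y, z} := by
        intro y' hy'
        rw [Finset.mem_filter, Set.mem_toFinset] at hy'
        rw [Finset.mem_insert, Finset.mem_singleton]
        exact hz y' hy'.1 (by rw [hy'.2, hy.2])
      exact (Finset.card_le_card hsub).trans Finset.card_le_two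
  have h2 := Finset.card_le_mul_card_image_of_maps_to (s := S.toFinset) (t := Finset.univ) (f := F)
    (fun _ _ => Finset.mem_univ _) 2 h1
  rw [Finset.card_univ] at h2
  exact h2

theorem card_OQ_le (two : (2 : K) = 0) (f : V → V → K) (hf : IsHF (RingHom.id K) 1 f) (ha : Alt f)
    (Q : V → K) (hQ : IsQF f Q) :
    Nat.card (OQ f Q) ≤ 3 ^ finrank K V * Nat.card K ^ (finrank K V * (finrank K V - 1) / 2) := by
  classical
  have : Finite V := Module.finite_of_finite K
  obtain ⟨n, hn⟩ : ∃ n, n = finrank K V := ⟨_, rfl⟩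
  rw [← hn]
  let b : Basis (Fin n) K V := finBasisOfFinrankEq K V hn.symm
  have hneg : (-1 : K) = 1 := by
    have : (1 : K) + 1 = 0 := by rw [← two]; norm_num
    exact (eq_neg_of_add_eq_zero_left this).symm
  have hsymm : ∀ v w, f v w = f w v := by
    intro v w
    rw [hf.herm w v, one_mul, RingHom.id_apply]
  have hQ0 : Q 0 = 0 := by
    have := hQ.smul 0 0
    rw [zero_smul, zero_mul, zero_mul] at this
    exact this
  have h1 : Nat.card (OQ f Q) ≤ ∏ i : Fin n, 2 * Nat.card K ^ (n - 1 - i.val) := by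
    apply C1_isomQ b f Q
    intro g hg i
    -- linear part
    let L : V →ₗ[K] (Fin n → K) :=
      { toFun := fun x k => f x (g (b k))
        map_add' := fun x y => by funext k; exact hf.add_left x y _
        map_smul' := fun c x => by funext k; exact hf.smul_left c x _ }
    have hLinj : Function.Injective L := by
      intro y y' hyy
      exact C1_det hf b g (fun k => congrFun hyy k)
    have hLsurj : Function.Surjective L := by
      apply (LinearMap.injective_iff_surjective_of_finrank_eq_finrank ?_).1 hLinj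
      rw [← hn, finrank_fin_fun]
    -- the direction
    have hdir : ∃ x₁ : V, x₁ ≠ 0 ∧ (∀ j, j < i → f x₁ (g (b j)) = 0) ∧
        ((Q x₁ ≠ 0) ∨ (Q x₁ = 0 ∧ ∀ x, (∀ j, j < i → f x (g (b j)) = 0) →
          f (g (b i) + x) x₁ ≠ 0)) := by
      by_cases hA : ∃ x₁ : V, (∀ j, j < i → f x₁ (g (b j)) = 0) ∧ Q x₁ ≠ 0
      · obtain ⟨x₁, h2, h3⟩ := hA
        refine ⟨x₁, ?_, h2, Or.inl h3⟩
        rintro rfl
        exact h3 hQ0
      · push Not at hA
        obtain ⟨x₁, hx₁⟩ := hLsurj (Pi.single i 1)
        have hx : ∀ k, f x₁ (g (b k)) = (Pi.single i 1 : Fin n → K) k := fun k => congrFun hx₁ k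
        have hxj : ∀ j, j < i → f x₁ (g (b j)) = 0 := by
          intro j hj
          rw [hx j, Pi.single_eq_of_ne hj.ne]
        have hxi : f x₁ (g (b i)) = 1 := by rw [hx i, Pi.single_eq_same]
        refine ⟨x₁, ?_, hxj, Or.inr ⟨hA x₁ hxj, ?_⟩⟩
        · rintro rfl
          rw [C1_zero_left hf] at hxi
          exact zero_ne_one hxi
        · intro x hx'
          have h3 : f x x₁ = 0 := by
            have h4 := hQ.add x x₁
            have h5 : Q (x + x₁) = 0 := by
              apply hA
              intro j hj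
              rw [hf.add_left, hx' j hj, hxj j hj, add_zero]
            rw [h5, hA x hx', hA x₁ hxj, zero_add, zero_add] at h4
            exact h4.symm
          rw [hf.add_left, h3, add_zero, hsymm, hxi]
          exact one_ne_zero
    obtain ⟨x₁, hx0, hxj, hx2⟩ := hdir
    obtain ⟨k₀, hk₀⟩ : ∃ k₀, f x₁ (g (b k₀)) ≠ 0 := by
      by_contra hcon
      push Not at hcon
      apply hx0
      apply hLinj
      rw [map_zero]
      funext k
      exact hcon k
    have hik : i ≤ k₀ := by
      by_contra hcon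
      exact hk₀ (hxj k₀ (not_le.1 hcon))
    let F : V → ({k : Fin n // i ≤ k ∧ k ≠ k₀} → K) := fun y k =>
      f y (g (b k.1)) - f y (g (b k₀)) / f x₁ (g (b k₀)) * f x₁ (g (b k.1))
    have hcard : Nat.card ({k : Fin n // i ≤ k ∧ k ≠ k₀} → K) = Nat.card K ^ (n - 1 - i.val) := by
      rw [Nat.card_fun, Nat.card_eq_fintype_card (α := {k : Fin n // i ≤ k ∧ k ≠ k₀})]
      congr 1
      rw [Fintype.card_subtype]
      have h3 : (Finset.univ.filter (fun k : Fin n => i ≤ k ∧ k ≠ k₀)) = (Finset.Ici i).erase k₀ := by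
        ext k
        simp [and_comm]
      rw [h3, Finset.card_erase_of_mem (Finset.mem_Ici.2 hik), Fin.card_Ici]
      omega
    rw [← hcard]
    apply C1_fib _ F
    rintro y ⟨g', hg', hj, rfl⟩
    refine ⟨g' (b i) + (f (g' (b i)) x₁ / Q x₁) • x₁, ?_⟩
    rintro y' ⟨g'', hg'', hj', rfl⟩ hyy
    obtain ⟨t, ht⟩ : ∃ t, t = (f (g'' (b i)) (g (b k₀)) - f (g' (b i)) (g (b k₀))) /
      f x₁ (g (b k₀)) := ⟨_, rfl⟩
    have hline : g'' (b i) = g' (b i) + t • x₁ := by
      apply C1_det hf b g
      intro k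
      rw [hf.add_left, hf.smul_left]
      by_cases hk : i ≤ k
      · by_cases hkk : k = k₀
        · rw [hkk, ht, div_mul_cancel₀ _ hk₀]
          ring
        · have h3 : f (g'' (b i)) (g (b k)) - f (g'' (b i)) (g (b k₀)) / f x₁ (g (b k₀)) *
              f x₁ (g (b k)) = f (g' (b i)) (g (b k)) - f (g' (b i)) (g (b k₀)) /
              f x₁ (g (b k₀)) * f x₁ (g (b k)) := congrFun hyy ⟨k, hk, hkk⟩
          rw [ht, sub_div, sub_mul]
          linear_combination h3
      · have hk' : k < i := not_le.1 hk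
        rw [hxj k hk', mul_zero, add_zero]
        rw [← hj' k hk', hg''.1 _ _, hj' k hk', ← hj k hk', hg'.1 _ _]
    have hQQ : t * t * Q x₁ + t * f (g' (b i)) x₁ = 0 := by
      have h3 : Q (g'' (b i)) = Q (g' (b i)) := by rw [hg''.2, hg'.2]
      rw [hline, hQ.add, hQ.smul, C1_smul_right hf, RingHom.id_apply] at h3
      linear_combination h3
    have hxy : ∀ j, j < i → f (g' (b i) - g (b i)) (g (b j)) = 0 := by
      intro j hjj
      rw [C1_sub_left hf]
      nth_rewrite 1 [← hj j hjj]
      rw [hg'.1, hg.1, sub_self]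
    rcases hx2 with h3 | ⟨h3, h4⟩
    · by_cases ht0 : t = 0
      · left
        rw [hline, ht0, zero_smul, add_zero]
      · right
        rw [hline]
        congr 2
        have h5 : t * Q x₁ + f (g' (b i)) x₁ = 0 := by
          have h6 : t * (t * Q x₁ + f (g' (b i)) x₁) = 0 := by linear_combination hQQ
          exact (mul_eq_zero.1 h6).resolve_left ht0
        rw [eq_div_iff h3]
        have h6 : t * Q x₁ = - f (g' (b i)) x₁ := eq_neg_of_add_eq_zero_left h5
        rw [h6]
        have h7 : - f (g' (b i)) x₁ = (-1) * f (g' (b i)) x₁ := by ring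
        rw [h7, hneg, one_mul]
    · left
      have h5 := h4 _ hxy
      rw [add_sub_cancel] at h5
      rw [h3, mul_zero, zero_add] at hQQ
      have ht0 : t = 0 := (mul_eq_zero.1 hQQ).resolve_right h5
      rw [hline, ht0, zero_smul, add_zero]
  refine h1.trans ?_
  rw [Finset.prod_mul_distrib, Finset.prod_const, Finset.card_univ, Fintype.card_fin,
    Finset.prod_pow_eq_pow_sum]
  have h2 : ∑ i : Fin n, (n - 1 - i.val) = n * (n - 1) / 2 := by
    rw [Fin.sum_univ_eq_sum_range (fun i => n - 1 - i) n, Finset.sum_range_reflect (fun i => i) n,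
      Finset.sum_range_id]
  rw [h2]
  exact Nat.mul_le_mul_right _ (Nat.pow_le_pow_left (by norm_num) n)

theorem card_Sp2_le (two : (2 : K) = 0) (f : V → V → K) (hf : IsHF (RingHom.id K) 1 f) (ha : Alt f) :
    Nat.card (Isom f) ≤ Nat.card K ^ (finrank K V * (finrank K V + 1) / 2) := by
  have h1 : (-1 : K) = 1 := by
    have : (1 : K) + 1 = 0 := by rw [← two]; norm_num
    exact (eq_neg_of_add_eq_zero_left this).symm
  have h2 : IsHF (RingHom.id K) (-1) f := by rw [h1]; exact hf
  exact card_Sp_le f h2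

end Pool.Agent.CTE
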