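import Pool.Agent.CTE.M4

/-!
# CTE.M6: the root vectors in the row `none`

Notation of M4. Let `x ∈ HT` and `k` with `y_k := psiM x none (some k) ≠ 0`.
(1) For `Y = psiM x * Wt k (bar k) * psiM x⁻¹` (`Wt k (bar k) = E_kk + E_(bar k)(bar k) ∈ L`, `ht_h`; `Y ∈ L` by
`ht_conj`): `Y none (some j) = y_k * (x⁻¹ k j)² + y_(bar k) * (x⁻¹ (bar k) j)²
= y_k * x_(bar j)(bar k)² + y_(bar k) * x_(bar j) k²` (`iso_inv`). If this is `0` for all `j` then the columns
`bar k` and `k` of the matrix of the squares of the entries of `x` are linearly dependent with the nonzero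
coefficient `y_k`; taking square roots in the algebraically closed field (`y = s²`; sums of squares are
squares of sums in characteristic two) the columns `bar k` and `k` of `x` are linearly dependent:
contradiction (`x` is invertible). So `Rt j ∈ L` for some `j` (`pick'`).
(2) Let `i` be arbitrary. `HT` spans the matrices, so there is `x' ∈ HT` with `x' (bar i) (bar j) ≠ 0`, i.e.
`(x'⁻¹) j i ≠ 0`. `psiM x' * Rt j * psiM x'⁻¹` has the row `none` equal to
`psiM x' none none * (psiM x'⁻¹) (some j) · = ((x'⁻¹) j · )²`, so its entry `(none, some i)` is nonzero: `Rt i ∈ L`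
by `pick'`.
-/

namespace Pool.Agent.CTE

open Matrix Pool.Agent.CTO

section

variable {F Ω : Type} [Field F] [Fintype Ω] [DecidableEq Ω] {bar : Ω → Ω} {q : Ω → F} {D : ℕ}
  {H : Subgroup (Matrix Ω Ω F)ˣ} {g : (Matrix Ω Ω F)ˣ}

private lemma M6_single {m : Type} [Fintype m] [DecidableEq m] (P P' : Matrix m m F) (a b i j : m) :
    (P * single a b (1 : F) * P') i j = P i a * P' b j := by
  rw [Matrix.mul_apply, Finset.sum_eq_single b]
  · rw [Matrix.mul_apply, Finset.sum_eq_single a]
    · simp
    · intro c _ hc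
      rw [single_apply_of_row_ne (fun h => hc h.symm), mul_zero]
    · intro h
      exact absurd (Finset.mem_univ _) h
  · intro c _ hc
    have : (P * single a b (1 : F)) i c = 0 := by
      rw [Matrix.mul_apply]
      refine Finset.sum_eq_zero fun e _ => ?_
      rw [single_apply_of_col_ne _ _ (fun h => hc h.symm), mul_zero]
    rw [this, zero_mul]
  · intro h
    exact absurd (Finset.mem_univ _) h

private lemma M6_span (hs : SpanTop (HT (barT bar : Set (Ω → Fˣ)) g)) (i j : Ω) :
    ∃ x ∈ HT (barT bar : Set (Ω → Fˣ)) g, (x : Matrix Ω Ω F) i j ≠ 0 := by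
  by_contra hcon
  push Not at hcon
  let W : Submodule F (Matrix Ω Ω F) :=
    { carrier := {X | X i j = 0}
      add_mem' := by
        intro X Y hX hY
        show (X + Y) i j = 0
        rw [Matrix.add_apply, show X i j = 0 from hX, show Y i j = 0 from hY, add_zero]
      zero_mem' := rfl
      smul_mem' := by
        intro c X hX
        show (c • X) i j = 0
        rw [Matrix.smul_apply, show X i j = 0 from hX, smul_zero] }
  have h1 : Submodule.span F {x : Matrix Ω Ω F | ∃ h ∈ HT (barT bar : Set (Ω → Fˣ)) g,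
      x = (h : Matrix Ω Ω F)} ≤ W := by
    rw [Submodule.span_le]
    rintro _ ⟨h, hh, rfl⟩
    exact hcon h hh
  have hs' : Submodule.span F {x : Matrix Ω Ω F | ∃ h ∈ HT (barT bar : Set (Ω → Fˣ)) g,
      x = (h : Matrix Ω Ω F)} = ⊤ := hs
  rw [hs'] at h1
  have h2 : (single i j (1 : F) : Matrix Ω Ω F) ∈ W := h1 Submodule.mem_top
  have h3 : (single i j (1 : F) : Matrix Ω Ω F) i j = 0 := h2
  rw [single_apply_same] at h3
  exact one_ne_zero h3

private lemma M6_sq (h2 : (2 : F) = 0) (a b : F) : a * a + b * b = (a + b) * (a + b) := by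
  have : (a + b) * (a + b) = a * a + b * b + 2 * (a * b) := by ring
  rw [this, h2, zero_mul, add_zero]

theorem ql2 [IsAlgClosed F] (h : QSetup bar q D H g)
    (hx : ∃ x ∈ HT (barT bar : Set (Ω → Fˣ)) g, ∃ k, psiM bar q (x : Matrix Ω Ω F) none (some k) ≠ 0)
    (i : Ω) : (Rt i : Matrix (Option Ω) (Option Ω) F) ∈ LieM D (psiG bar q H) := by
  classical
  have hinv := h.qb.inv
  have htwo := h.qb.two
  -- step 1
  have step1 : ∃ j : Ω, (Rt j : Matrix (Option Ω) (Option Ω) F) ∈ LieM D (psiG bar q H) := by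
    obtain ⟨x, hxT, k, hk⟩ := hx
    have hiso := ht_iso h x hxT
    have hent := (iso_inv hinv x hiso).2
    have hY := ht_conj h x hxT _ (ht_h h k)
    by_contra hcon
    push Not at hcon
    have hz : ∀ j, psiM bar q (x : Matrix Ω Ω F) none (some k) *
        ((x : Matrix Ω Ω F) (bar j) (bar k) * (x : Matrix Ω Ω F) (bar j) (bar k)) +
        psiM bar q (x : Matrix Ω Ω F) none (some (bar k)) *
        ((x : Matrix Ω Ω F) (bar j) k * (x : Matrix Ω Ω F) (bar j) k) = 0 := by
      intro j
      by_contra hne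
      apply hcon j
      refine pick' h _ hY j ?_
      unfold Wt
      rw [mul_add, add_mul, Matrix.add_apply, M6_single, M6_single, hinv]
      show psiM bar q (x : Matrix Ω Ω F) none (some k) *
        (((x⁻¹ : (Matrix Ω Ω F)ˣ) : Matrix Ω Ω F) k j * ((x⁻¹ : (Matrix Ω Ω F)ˣ) : Matrix Ω Ω F) k j) +
        psiM bar q (x : Matrix Ω Ω F) none (some (bar k)) *
        (((x⁻¹ : (Matrix Ω Ω F)ˣ) : Matrix Ω Ω F) (bar k) j *
          ((x⁻¹ : (Matrix Ω Ω F)ˣ) : Matrix Ω Ω F) (bar k) j) ≠ 0
      rw [hent, hent, hinv]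
      exact hne
    obtain ⟨s, hs⟩ := IsAlgClosed.exists_pow_nat_eq (psiM bar q (x : Matrix Ω Ω F) none (some k))
      (n := 2) (by norm_num)
    obtain ⟨t, ht⟩ := IsAlgClosed.exists_pow_nat_eq
      (psiM bar q (x : Matrix Ω Ω F) none (some (bar k))) (n := 2) (by norm_num)
    rw [← hs] at hk
    have hlin : ∀ j, (x : Matrix Ω Ω F) j (bar k) * s + (x : Matrix Ω Ω F) j k * t = 0 := by
      intro j
      have h1 := hz (bar j)
      rw [hinv, ← hs, ← ht] at h1
      have h2 : ((x : Matrix Ω Ω F) j (bar k) * s + (x : Matrix Ω Ω F) j k * t) *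
          ((x : Matrix Ω Ω F) j (bar k) * s + (x : Matrix Ω Ω F) j k * t) = 0 := by
        rw [← M6_sq htwo]
        rw [← h1]
        ring
      exact mul_self_eq_zero.1 h2
    let v : Ω → F := fun ω => if ω = bar k then s else if ω = k then t else 0
    have hv : (x : Matrix Ω Ω F).mulVec v = 0 := by
      funext j
      show ∑ ω, (x : Matrix Ω Ω F) j ω * v ω = 0
      rw [← hlin j]
      have hkk : k ≠ bar k := fun h' => h.qb.nofix k h'.symm
      have : ∀ ω, (x : Matrix Ω Ω F) j ω * v ω =
          (if ω = bar k then (x : Matrix Ω Ω F) j (bar k) * s else 0) +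
          (if ω = k then (x : Matrix Ω Ω F) j k * t else 0) := by
        intro ω
        show (x : Matrix Ω Ω F) j ω * (if ω = bar k then s else if ω = k then t else 0) = _
        by_cases h1 : ω = bar k
        · subst h1
          rw [if_pos rfl, if_pos rfl, if_neg (fun h' => hkk h'.symm), add_zero]
        · by_cases h2 : ω = k
          · subst h2
            rw [if_neg h1, if_neg h1, if_pos rfl, if_pos rfl, zero_add]
          · rw [if_neg h1, if_neg h1, if_neg h2, if_neg h2, mul_zero, add_zero]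
      rw [Finset.sum_congr rfl fun ω _ => this ω, Finset.sum_add_distrib, Finset.sum_ite_eq',
        Finset.sum_ite_eq', if_pos (Finset.mem_univ _), if_pos (Finset.mem_univ _)]
    have hv0 : v = 0 := by
      have h1 : ((x⁻¹ : (Matrix Ω Ω F)ˣ) : Matrix Ω Ω F).mulVec ((x : Matrix Ω Ω F).mulVec v) = v := by
        rw [Matrix.mulVec_mulVec, ← Units.val_mul, inv_mul_cancel, Units.val_one, Matrix.one_mulVec]
      rw [← h1, hv, Matrix.mulVec_zero]
    have h3 : v (bar k) = s := if_pos rfl
    rw [hv0] at h3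
    apply hk
    rw [← h3]
    simp
  obtain ⟨j, hj⟩ := step1
  obtain ⟨x, hxT, hxe⟩ := M6_span h.span (bar i) (bar j)
  have hiso := ht_iso h x hxT
  have hent := (iso_inv hinv x hiso).2
  refine pick' h _ (ht_conj h x hxT _ hj) i ?_
  unfold Rt
  rw [M6_single]
  show (1 : F) * (((x⁻¹ : (Matrix Ω Ω F)ˣ) : Matrix Ω Ω F) j i *
    ((x⁻¹ : (Matrix Ω Ω F)ˣ) : Matrix Ω Ω F) j i) ≠ 0
  rw [hent, one_mul]
  exact mul_ne_zero hxe hxe

end

end Pool.Agent.CTE
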