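import Pool.Agent.CTE.M5
import Pool.Agent.CTE.M6
import Pool.Agent.CTO.M6

/-!
# CTE.M7: counting

`N = card Ω`. The matrices `Wt bar a b` for the pairs `{a, b}`, `a ≠ b` (choose a linear order of `Ω`, e.g. through
`Ω ≃ Fin N`, and take `a < b`) are linearly independent (the entry `(some a, some (bar b))` of `Wt a' b'`, `a' < b'`,
is nonzero only for `(a', b') = (a, b)`, since the places of `Wt a' b'` are `(a', bar b')` and `(b', bar a')`, and
`a < b`), there are `N (N - 1) / 2` of them, and together with the `Rt j` they are linearly independent.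
So `dim LieM D (psiG H) ≥ N (N - 1) / 2` by `ql1`, and `≥ N (N + 1) / 2` in the situation of `ql2`. `card_curves` for
the group `psiG H` (finite, `psi_finite`) and `psi_card` give the result (`card_curves` needs `0 < d`:
`N ≥ 2`, because `Ω` is nonempty and `bar` has no fixed points; in `card_q1`, `card_q2` `Ω` is assumed
nonempty). `IsAlgClosed F` gives `Infinite F`.
-/

namespace Pool.Agent.CTE

open Matrix Pool.Agent.CTO

section

variable {F Ω : Type} [Field F] [Fintype Ω] [DecidableEq Ω] {bar : Ω → Ω} {q : Ω → F} {D : ℕ}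
  {H : Subgroup (Matrix Ω Ω F)ˣ} {g : (Matrix Ω Ω F)ˣ}

omit [Fintype Ω] [DecidableEq Ω] in
theorem M7_count {κ Ω' : Type} [Fintype κ] [DecidableEq κ] [Fintype Ω'] [DecidableEq Ω']
    (L : Submodule F (Matrix Ω' Ω' F)) (v : κ → Matrix Ω' Ω' F) (hv : ∀ p, v p ∈ L)
    (r c : κ → Ω') (h : ∀ p p', v p' (r p) (c p) = if p' = p then 1 else 0) :
    Fintype.card κ ≤ Module.finrank F L := by
  have h1 : LinearIndependent F v := by
    rw [Fintype.linearIndependent_iff]
    intro a ha p
    have h2 := congrFun (congrFun ha (r p)) (c p)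
    rw [Matrix.sum_apply] at h2
    simp only [Matrix.smul_apply, h, smul_eq_mul, mul_ite, mul_one, mul_zero, Matrix.zero_apply] at h2
    rw [Finset.sum_ite_eq' Finset.univ p] at h2
    simpa using h2
  have h2 : LinearIndependent F (fun p => (⟨v p, hv p⟩ : L)) := by
    refine LinearIndependent.of_comp L.subtype ?_
    exact h1
  exact h2.fintype_card_le_finrank

/-- the index type of the pairs -/
abbrev M7_I (N : ℕ) : Type := (i : Fin N) × Fin (i : ℕ)

theorem M7_card (N : ℕ) : Fintype.card (M7_I N) = N * (N - 1) / 2 := by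
  rw [Fintype.card_sigma]
  simp only [Fintype.card_fin]
  rw [Fin.sum_univ_eq_sum_range (fun i => i) N, Finset.sum_range_id]

noncomputable def M7_a (p : M7_I (Fintype.card Ω)) : Ω :=
  (Fintype.equivFin Ω).symm ⟨(p.2 : ℕ), lt_trans p.2.2 p.1.2⟩

noncomputable def M7_b (p : M7_I (Fintype.card Ω)) : Ω := (Fintype.equivFin Ω).symm p.1

omit [DecidableEq Ω] in
theorem M7_lt (p : M7_I (Fintype.card Ω)) :
    (Fintype.equivFin Ω (M7_a p) : ℕ) < (Fintype.equivFin Ω (M7_b p) : ℕ) := by
  unfold M7_a M7_b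
  rw [Equiv.apply_symm_apply, Equiv.apply_symm_apply]
  exact p.2.2

omit [DecidableEq Ω] in
theorem M7_ne (p : M7_I (Fintype.card Ω)) : (M7_a p : Ω) ≠ M7_b p := by
  intro h
  have := M7_lt p
  rw [h] at this
  exact lt_irrefl _ this

omit [DecidableEq Ω] in
theorem M7_inj {p p' : M7_I (Fintype.card Ω)} (h1 : (M7_a p : Ω) = M7_a p')
    (h2 : (M7_b p : Ω) = M7_b p') : p = p' := by
  obtain ⟨i, j⟩ := p
  obtain ⟨i', j'⟩ := p'
  have e2 : i = i' := (Fintype.equivFin Ω).symm.injective h2
  subst e2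
  have e1 := (Fintype.equivFin Ω).symm.injective h1
  have e3 : (j : ℕ) = (j' : ℕ) := by
    have := congrArg (fun x : Fin (Fintype.card Ω) => (x : ℕ)) e1
    exact this
  have e4 : j = j' := Fin.ext e3
  rw [e4]

theorem M7_entry (hinv : ∀ i, bar (bar i) = i) (p p' : M7_I (Fintype.card Ω)) :
    (Wt bar (M7_a p') (M7_b p') : Matrix (Option Ω) (Option Ω) F) (some (M7_a p)) (some (bar (M7_b p))) =
      if p' = p then 1 else 0 := by
  have hb : ∀ x y : Ω, bar x = bar y → x = y := fun x y h => by rw [← hinv x, h, hinv]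
  unfold Wt
  rw [Matrix.add_apply, single_apply, single_apply]
  have h2 : ¬ (some (M7_b p' : Ω) = some (M7_a p) ∧ some (bar (M7_a p')) = some (bar (M7_b p))) := by
    rintro ⟨e1, e2⟩
    have e1' := Option.some.inj e1
    have e2' := hb _ _ (Option.some.inj e2)
    have l1 := M7_lt p
    have l2 := M7_lt p'
    rw [e1', e2'] at l2
    exact lt_asymm l1 l2
  rw [if_neg h2, add_zero]
  by_cases hp : p' = p
  · subst hp
    rw [if_pos ⟨rfl, rfl⟩, if_pos rfl]
  · rw [if_neg hp, if_neg]
    rintro ⟨e1, e2⟩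
    exact hp (M7_inj (Option.some.inj e1) (hb _ _ (Option.some.inj e2)))

omit [DecidableEq Ω] in
theorem M7_two [Nonempty Ω] (hq : QB bar q) : 2 ≤ Fintype.card Ω := by
  obtain ⟨a⟩ := ‹Nonempty Ω›
  have : 1 < Fintype.card Ω := Fintype.one_lt_card_iff.2 ⟨bar a, a, hq.nofix a⟩
  omega

theorem M7_pos {N : ℕ} (h : 2 ≤ N) : 0 < N * (N - 1) / 2 := by
  apply Nat.div_pos _ (by norm_num)
  obtain ⟨k, rfl⟩ := Nat.exists_eq_add_of_le h
  have : 2 + k - 1 = 1 + k := by omega
  rw [this]
  nlinarith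

theorem M7_sum (N : ℕ) : N * (N - 1) / 2 + N = N * (N + 1) / 2 := by
  rcases Nat.eq_zero_or_pos N with h | h
  · subst h
    rfl
  · obtain ⟨k, rfl⟩ : ∃ k, N = k + 1 := ⟨N - 1, by omega⟩
    have h1 : (k + 1) * (k + 1 + 1) = (k + 1) * (k + 1 - 1) + 2 * (k + 1) := by
      rw [Nat.add_sub_cancel]
      ring
    rw [h1]
    omega

theorem card_q1 [IsAlgClosed F] [Nonempty Ω] [Finite H] (h : QSetup bar q D H g) :
    (D / (Fintype.card Ω * (Fintype.card Ω - 1) / 2) + 1) ^ (Fintype.card Ω * (Fintype.card Ω - 1) / 2)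
      ≤ Nat.card H := by
  have := psi_finite h.qb H h.Hi
  have : Infinite F := IsAlgClosed.instInfinite
  refine le_trans (card_curves D _ (M7_pos (M7_two h.qb)) (psiG bar q H) ?_) (psi_card h.qb H h.Hi)
  rw [← M7_card]
  exact M7_count (LieM D (psiG bar q H)) (fun p => Wt bar (M7_a p) (M7_b p))
    (fun p => ql1 h _ _ (M7_ne p)) (fun p => some (M7_a p)) (fun p => some (bar (M7_b p)))
    (M7_entry h.qb.inv)

theorem card_q2 [IsAlgClosed F] [Nonempty Ω] [Finite H] (h : QSetup bar q D H g)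
    (hx : ∃ x ∈ HT (barT bar : Set (Ω → Fˣ)) g, ∃ k, psiM bar q (x : Matrix Ω Ω F) none (some k) ≠ 0) :
    (D / (Fintype.card Ω * (Fintype.card Ω + 1) / 2) + 1) ^ (Fintype.card Ω * (Fintype.card Ω + 1) / 2)
      ≤ Nat.card H := by
  have := psi_finite h.qb H h.Hi
  have : Infinite F := IsAlgClosed.instInfinite
  have hpos : 0 < Fintype.card Ω * (Fintype.card Ω + 1) / 2 := by
    rw [← M7_sum]
    have := M7_pos (M7_two h.qb)
    omega
  refine le_trans (card_curves D _ hpos (psiG bar q H) ?_) (psi_card h.qb H h.Hi)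
  have hc : Fintype.card (M7_I (Fintype.card Ω) ⊕ Ω) = Fintype.card Ω * (Fintype.card Ω + 1) / 2 := by
    rw [Fintype.card_sum, M7_card, M7_sum]
  rw [← hc]
  refine M7_count (LieM D (psiG bar q H))
    (Sum.elim (fun p => Wt bar (M7_a p) (M7_b p)) (fun j => Rt j)) ?_
    (Sum.elim (fun p => some (M7_a p)) (fun _ => none))
    (Sum.elim (fun p => some (bar (M7_b p))) (fun j => some j)) ?_
  · rintro (p | j)
    · exact ql1 h _ _ (M7_ne p)
    · exact ql2 h hx j
  · rintro (p | j) (p' | j')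
    · simp only [Sum.elim_inl, Sum.inl.injEq]
      exact M7_entry h.qb.inv p p'
    · simp only [Sum.elim_inl, Sum.elim_inr, reduceCtorEq, if_false]
      unfold Rt
      rw [single_apply, if_neg]
      rintro ⟨e1, -⟩
      exact absurd e1 (by simp)
    · simp only [Sum.elim_inl, Sum.elim_inr, reduceCtorEq, if_false]
      unfold Wt
      rw [Matrix.add_apply, single_apply, single_apply, if_neg, if_neg, add_zero]
      · rintro ⟨e1, -⟩
        exact absurd e1 (by simp)
      · rintro ⟨e1, -⟩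
        exact absurd e1 (by simp)
    · simp only [Sum.elim_inr, Sum.inr.injEq]
      unfold Rt
      rw [single_apply]
      by_cases hj : j' = j
      · subst hj
        rw [if_pos ⟨rfl, rfl⟩, if_pos rfl]
      · rw [if_neg hj, if_neg]
        rintro ⟨-, e2⟩
        exact hj (Option.some.inj e2)

end

end Pool.Agent.CTE
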