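import Pool.Agent.CTE.B2
import Pool.Agent.CTE.C1
import Pool.Agent.CTE.M7
import Pool.Agent.CTO.I0
import Pool.Agent.CTO.I2

/-!
# CTE.I2: bounded index, symplectic and orthogonal case, characteristic two

Compare `index_Sp`, `index_O` in `CTO/I2.lean` (read its header and proof).
-/

namespace Pool.Agent.CTE

open Module Pool.Agent.CTO

section core

variable {K V F : Type} [Field K] [Finite K] [AddCommGroup V] [Module K V] [FiniteDimensional K V]
  [Field F] [Algebra K F] [IsAlgClosed F]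

/-- The matrix picture of the two tori. -/
lemma I2_setup (two : (2 : K) = 0) (f : V → V → K) (hf : IsHF (RingHom.id K) 1 f) (ha : Alt f)
    (A A' : Subalgebra K (Module.End K V)) (g : V ≃ₗ[K] V) (Q : V → K) (hA : IsTor2 f A)
    (hA' : IsTor2 f A')
    (hgf : g ∈ Isom f) (hg : CarriesTo g A A') (hQ : AdQ f A Q)
    (had : Algebra.adjoin K
      (EndSet (sq (tor (RingHom.id K) f A) ⊔ sq (tor (RingHom.id K) f A'))) = ⊤)
    (D : ℕ) (hD1 : 1 ≤ D) (hD : 2 * (2 * D) * finrank K V + finrank K V < Nat.card K) :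
    ∃ (w : Fin (finrank K V) → (A →ₐ[K] F))
      (ρ : Module.End K V →ₐ[K] Matrix (Fin (finrank K V)) (Fin (finrank K V)) F)
      (bar : Fin (finrank K V) → Fin (finrank K V)) (d d' : A),
      IsRho A w ρ ∧ (∀ i, bar (bar i) = i) ∧ (∀ i, bar i ≠ i) ∧
      (∀ S T, IsAdj f S T → ρ T = starM bar (fun _ => 1) (ρ S)) ∧
      (∀ (i : Fin (finrank K V)) (a b : A), IsAdj f (a : Module.End K V) b → w (bar i) a = w i b) ∧
      (∀ z : Module.End K V, IsAdj f z z → (∀ k, ρ z k (bar k) = 0) → ∀ v, f (z v) v = 0) ∧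
      IsAdj f (d : Module.End K V) d' ∧ (d : Module.End K V) + d' = 1 ∧
      (∀ v, Q v = f ((d : Module.End K V) v) v) ∧
      QSetup bar (fun i => w i d) D
        ((sq (tor (RingHom.id K) f A) ⊔ sq (tor (RingHom.id K) f A')).map (rhoU ρ)) (rhoU ρ g) ∧
      Finite ((sq (tor (RingHom.id K) f A) ⊔ sq (tor (RingHom.id K) f A')).map (rhoU ρ)) ∧
      Nat.card ((sq (tor (RingHom.id K) f A) ⊔ sq (tor (RingHom.id K) f A')).map (rhoU ρ)) =
        Nat.card (sq (tor (RingHom.id K) f A) ⊔ sq (tor (RingHom.id K) f A') :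
          Subgroup (V ≃ₗ[K] V)) := by
  have hfin := I2_finite K V
  have hconj := tor_conj (RingHom.id K) f A A' hA.toIsTorGL hA'.toIsTorGL g hg hgf
  obtain ⟨w, ρ, bar, hρ, hinv, hfix, hstar, hbar, hz⟩ :=
    exists_rho_form2 (F := F) two f hf ha A hA
  obtain ⟨d, hd, d', hd', hadj, hsum, hQv⟩ := hQ
  refine ⟨w, ρ, bar, ⟨d, hd⟩, ⟨d', hd'⟩, hρ, hinv, hfix, hstar, hbar, hz, hadj, hsum, hQv, ?_⟩
  obtain ⟨H, hH⟩ : ∃ H, H = sq (tor (RingHom.id K) f A) ⊔ sq (tor (RingHom.id K) f A') := ⟨_, rfl⟩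
  rw [← hH] at had ⊢
  have htor : ∀ B : Subalgebra K (Module.End K V), tor (RingHom.id K) f B ≤ torGL B :=
    fun B x hx => hx.1
  have htor' : ∀ B : Subalgebra K (Module.End K V), tor (RingHom.id K) f B ≤ Isom f :=
    fun B x hx => hx.2.1
  have hHle : H ≤ Isom f := by
    rw [hH]
    exact sup_le ((I2_sq_le _).trans (htor' A)) ((I2_sq_le _).trans (htor' A'))
  have hmap : H.map (rhoU ρ) = HT (T0 w (tor (RingHom.id K) f A)) (rhoU ρ g) := by
    rw [hH, ← hconj]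
    exact map_HT A w ρ hρ.diag _ (htor A) g
  have hinj := rhoU_inj ρ hρ.inj
  have hspan : SpanTop (HT (T0 w (tor (RingHom.id K) f A)) (rhoU ρ g)) := by
    rw [← hmap]
    exact span_of_adjoin ρ hρ.span H had
  have hfinH : Finite (H.map (rhoU ρ)) :=
    Finite.of_equiv H (H.equivMapOfInjective (rhoU ρ) hinj).toEquiv
  have hcard : Nat.card (H.map (rhoU ρ)) = Nat.card H :=
    (Nat.card_congr (H.equivMapOfInjective (rhoU ρ) hinj).toEquiv).symm
  have hinf : Infinite F := IsAlgClosed.instInfinite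
  -- isometries
  have hiso : ∀ x ∈ Isom f,
      IsoM bar (fun _ => 1) ((rhoU ρ x : (Matrix _ _ F)ˣ) : Matrix _ _ F) := by
    intro x hx
    have h1 : starM bar (fun _ => 1) (ρ x.toLinearMap) = ρ (x⁻¹).toLinearMap :=
      (hstar _ _ (I2_adj hx)).symm
    rw [IsoM, rhoU_val, h1, ← map_mul, ← map_mul]
    constructor
    · change ρ (x * x⁻¹).toLinearMap = 1
      rw [mul_inv_cancel]
      exact map_one ρ
    · change ρ (x⁻¹ * x).toLinearMap = 1
      rw [inv_mul_cancel]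
      exact map_one ρ
  have hdens := dens_tor (F := F) 1 f hf A hA.toIsTor w hρ.bij bar hbar (2 * D) hD
  have hsub : T0 w (tor (RingHom.id K) f A) ⊆ barT bar := I2_sub_barT f A w bar hbar
  have htwo : (2 : F) = 0 := by
    have h1 : algebraMap K F 2 = 0 := by rw [two, map_zero]
    rwa [map_ofNat] at h1
  have hT1 := ZD_torus (2 * D) (H.map (rhoU ρ)) (T0 w (tor (RingHom.id K) f A)) (barT bar) 1 (by
    intro z hz
    rw [hmap, one_mul, inv_one, mul_one]
    exact Subgroup.subset_closure (Or.inl ⟨z, hz, rfl⟩)) hdens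
  have hT2 := ZD_torus (2 * D) (H.map (rhoU ρ)) (T0 w (tor (RingHom.id K) f A)) (barT bar)
    (rhoU ρ g) (by
    intro z hz
    rw [hmap]
    exact Subgroup.subset_closure (Or.inr ⟨z, hz, rfl⟩)) hdens
  have hle : HT (T0 w (tor (RingHom.id K) f A)) (rhoU ρ g) ≤ HT (barT bar) (rhoU ρ g) := by
    refine Subgroup.closure_mono ?_
    rintro x (⟨z, hz, rfl⟩ | ⟨z, hz, rfl⟩)
    · exact Or.inl ⟨z, hsub hz, rfl⟩
    · exact Or.inr ⟨z, hsub hz, rfl⟩
  have hq : ∀ k, w k ⟨d, hd⟩ + w (bar k) ⟨d, hd⟩ = 1 := by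
    intro k
    have h1 : w (bar k) ⟨d, hd⟩ = w k ⟨d', hd'⟩ := hbar k ⟨d, hd⟩ ⟨d', hd'⟩ hadj
    rw [h1, ← map_add]
    have h2 : (⟨d, hd⟩ : A) + ⟨d', hd'⟩ = 1 := Subtype.ext hsum
    rw [h2, map_one]
  refine ⟨?_, hfinH, hcard⟩
  exact
    { qb := ⟨htwo, hinv, hfix, hq⟩
      D1 := hD1
      gi := hiso g hgf
      Hi := by
        intro h hh
        obtain ⟨x, hx, rfl⟩ := Subgroup.mem_map.1 hh
        exact hiso x (hHle hx)
      T1 := by
        intro z hz
        have h1 := hT1 z hz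
        rw [one_mul, inv_one, mul_one] at h1
        exact h1
      T2 := hT2
      span := by
        rw [SpanTop, eq_top_iff, ← hspan]
        refine Submodule.span_mono ?_
        rintro x ⟨h, hh, rfl⟩
        exact ⟨h, hle hh, rfl⟩ }

omit [Finite K] [IsAlgClosed F] in
/-- The conjugate torus is contained in `HT (barT bar)`. -/
lemma I2_tor_HT (f : V → V → K) (A A' : Subalgebra K (Module.End K V)) (g : V ≃ₗ[K] V)
    (hA : IsTorGL A) (hA' : IsTorGL A') (hgf : g ∈ Isom f) (hg : CarriesTo g A A')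
    (w : Fin (finrank K V) → (A →ₐ[K] F))
    (ρ : Module.End K V →ₐ[K] Matrix (Fin (finrank K V)) (Fin (finrank K V)) F)
    (bar : Fin (finrank K V) → Fin (finrank K V)) (hρ : IsRho A w ρ) (hfix : ∀ i, bar i ≠ i)
    (hbar : ∀ (i : Fin (finrank K V)) (a b : A), IsAdj f (a : Module.End K V) b →
      w (bar i) a = w i b)
    (t : V ≃ₗ[K] V) (ht : t ∈ tor (RingHom.id K) f A') :
    rhoU ρ t ∈ HT (barT bar : Set (Fin (finrank K V) → Fˣ)) (rhoU ρ g) := by
  have hconj := tor_conj (RingHom.id K) f A A' hA hA' g hg hgf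
  rw [← hconj] at ht
  obtain ⟨t0, ht0, rfl⟩ := ht
  have ht0' : t0 ∈ tor (RingHom.id K) f A := ht0
  obtain ⟨h1, h2, -⟩ := mem_tor.1 ht0'
  obtain ⟨h3, h4⟩ := mem_torGL.1 h1
  let a : A := ⟨t0.toLinearMap, h3⟩
  let b : A := ⟨(t0⁻¹).toLinearMap, h4⟩
  have hab : a * b = 1 := by
    apply Subtype.ext
    change (t0 * t0⁻¹).toLinearMap = 1
    rw [mul_inv_cancel]
    rfl
  have hba : b * a = 1 := by
    apply Subtype.ext
    change (t0⁻¹ * t0).toLinearMap = 1
    rw [inv_mul_cancel]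
    rfl
  have hu1 : ∀ i, w i a * w i b = 1 := fun i => by rw [← map_mul, hab, map_one]
  have hu2 : ∀ i, w i b * w i a = 1 := fun i => by rw [← map_mul, hba, map_one]
  let z : Fin (finrank K V) → Fˣ := fun i => ⟨w i a, w i b, hu1 i, hu2 i⟩
  have hz : z ∈ barT bar := by
    intro i
    refine ⟨?_, fun h => absurd h (hfix i)⟩
    apply Units.ext
    have h5 : w (bar i) a = w i b := hbar i a b (I2_adj h2)
    change w i a * w (bar i) a = 1
    rw [h5]
    exact hu1 i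
  have hr : rhoU ρ t0 = dU z := by
    apply Units.ext
    rw [rhoU_val, dU_val]
    exact hρ.diag a
  refine Subgroup.subset_closure (Or.inr ⟨z, hz, ?_⟩)
  change rhoU ρ (g * t0 * g⁻¹) = _
  rw [map_mul, map_mul, map_inv, hr]

end core

lemma I2_Dq (n Q : ℕ) (hn : 0 < n) (hQ : 5 * n + 1 ≤ Q) :
    ∃ D : ℕ, 1 ≤ D ∧ 2 * (2 * D) * n + n < Q ∧ Q ≤ (8 * n) * (D + 1) := by
  obtain ⟨D, hD⟩ : ∃ D, D = (Q - n - 1) / (4 * n) := ⟨_, rfl⟩
  have h1 : 4 * n * D ≤ Q - n - 1 := by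
    rw [hD]
    exact Nat.mul_div_le _ _
  have h2 : Q - n - 1 < 4 * n * (D + 1) := by
    rw [hD]
    exact Nat.lt_mul_div_succ _ (by omega)
  refine ⟨D, ?_, ?_, ?_⟩
  · rw [hD]
    exact (Nat.le_div_iff_mul_le (by omega)).2 (by omega)
  · have h3 : 2 * (2 * D) * n = 4 * n * D := by ring
    omega
  · have h4 : Q ≤ 4 * n * (D + 1) + n := by omega
    nlinarith

lemma I2_leOQ {K V : Type} [Field K] [AddCommGroup V] [Module K V] [FiniteDimensional K V]
    (f : V → V → K) (A A' : Subalgebra K (Module.End K V)) (Q : V → K) (hA : IsTorGL A)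
    (hA' : IsTorGL A') (hQ : AdQ f A Q) (hQ' : AdQ f A' Q) :
    sq (tor (RingHom.id K) f A) ⊔ sq (tor (RingHom.id K) f A') ≤ OQ f Q := by
  have h : ∀ B : Subalgebra K (Module.End K V), IsTorGL B → AdQ f B Q →
      sq (tor (RingHom.id K) f B) ≤ OQ f Q := by
    intro B hB hQB
    refine (I2_sq_le _).trans ?_
    intro t ht
    obtain ⟨h1, h2, -⟩ := mem_tor.1 ht
    refine ⟨h2, fun v => ?_⟩
    have h3 := adQ_sim f B hB Q hQB t h1 1 (fun v w => by rw [one_mul]; exact h2 v w) v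
    rwa [one_mul] at h3
  exact sup_le (h A hA hQ) (h A' hA' hQ')

theorem index_OQ (n : ℕ) (hn : 2 ≤ n) : ∃ k q0 : ℕ, ∀ (K V : Type) [Field K] [Finite K]
    [AddCommGroup V] [Module K V] [FiniteDimensional K V] (f : V → V → K)
    (A A' : Subalgebra K (Module.End K V)) (g : V ≃ₗ[K] V) (Q : V → K),
    finrank K V = n → q0 ≤ Nat.card K → (2 : K) = 0 → IsHF (RingHom.id K) 1 f → Alt f → IsTor2 f A →
    IsTor2 f A' → g ∈ Isom f → CarriesTo g A A' → AdQ f A Q → AdQ f A' Q →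
    Algebra.adjoin K (EndSet (sq (tor (RingHom.id K) f A) ⊔ sq (tor (RingHom.id K) f A'))) = ⊤ →
    (sq (tor (RingHom.id K) f A) ⊔ sq (tor (RingHom.id K) f A')).relIndex (OQ f Q) ≤ k := by
  refine ⟨3 ^ n * ((8 * n) * (n * (n - 1) / 2)) ^ (n * (n - 1) / 2), 5 * n + 1, ?_⟩
  intro K V _ _ _ _ _ f A A' g Q hnV hq two hf ha hA hA' hgf hg hQ hQ' had
  have hfin := I2_finite K V
  obtain ⟨D, hD1, hD3, hD4⟩ := I2_Dq n (Nat.card K) (by omega) hq
  have hdpos : 0 < n * (n - 1) / 2 := by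
    refine Nat.div_pos ?_ two_pos
    calc 2 = 2 * 1 := rfl
      _ ≤ n * (n - 1) := Nat.mul_le_mul hn (by omega)
  obtain ⟨w, ρ, bar, d, d', hρ, hinv, hfix, hstar, hbar, hz, hadj, hsum, hQv, hset, hfinH, hcard⟩ :=
    I2_setup (F := AlgebraicClosure K) two f hf ha A A' g Q hA hA' hgf hg hQ had D hD1
      (by rw [hnV]; exact hD3)
  have hne : Nonempty (Fin (finrank K V)) := ⟨⟨0, by omega⟩⟩
  have hcore := card_q1 hset
  rw [hcard, Fintype.card_fin, hnV] at hcore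
  refine I2_arith (Nat.card K) (8 * n) D (n * (n - 1) / 2) _ _ (3 ^ n) hdpos hD4 hcore ?_
    Nat.card_pos
  rw [I2_relIndex _ _ (I2_leOQ f A A' Q hA.toIsTorGL hA'.toIsTorGL hQ hQ')]
  have := card_OQ_le two f hf ha Q (adQ_qf two f hf ha A Q hQ)
  rwa [hnV] at this

theorem index_Sp2 (n : ℕ) : ∃ k q0 : ℕ, ∀ (K V : Type) [Field K] [Finite K]
    [AddCommGroup V] [Module K V] [FiniteDimensional K V] (f : V → V → K)
    (A A' : Subalgebra K (Module.End K V)) (g : V ≃ₗ[K] V) (Q : V → K),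
    finrank K V = n → q0 ≤ Nat.card K → (2 : K) = 0 → IsHF (RingHom.id K) 1 f → Alt f → IsTor2 f A →
    IsTor2 f A' → g ∈ Isom f → CarriesTo g A A' → AdQ f A Q → ¬ AdQ f A' Q →
    Algebra.adjoin K (EndSet (sq (tor (RingHom.id K) f A) ⊔ sq (tor (RingHom.id K) f A'))) = ⊤ →
    (sq (tor (RingHom.id K) f A) ⊔ sq (tor (RingHom.id K) f A')).relIndex (Isom f) ≤ k := by
  obtain ⟨q1, hq1⟩ := adQ_of_inv n
  refine ⟨1 * ((8 * n) * (n * (n + 1) / 2)) ^ (n * (n + 1) / 2), max (5 * n + 1) q1, ?_⟩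
  intro K V _ _ _ _ _ f A A' g Q hnV hq two hf ha hA hA' hgf hg hQ hQ' had
  have hfin := I2_finite K V
  have hqa : 5 * n + 1 ≤ Nat.card K := (le_max_left _ _).trans hq
  have hqb : q1 ≤ Nat.card K := (le_max_right _ _).trans hq
  by_cases hn0 : n = 0
  · have hV : Subsingleton V := Module.finrank_zero_iff.1 (hnV.trans hn0)
    have hss : Subsingleton (V ≃ₗ[K] V) := ⟨fun a b => LinearEquiv.ext fun v => Subsingleton.elim _ _⟩
    have hss' : Subsingleton (Subgroup (V ≃ₗ[K] V)) := inferInstance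
    rw [Subsingleton.elim (sq (tor (RingHom.id K) f A) ⊔ sq (tor (RingHom.id K) f A')) (Isom f),
      Subgroup.relIndex_self, hn0]
    norm_num
  have hnpos : 0 < n := Nat.pos_of_ne_zero hn0
  obtain ⟨D, hD1, hD3, hD4⟩ := I2_Dq n (Nat.card K) hnpos hqa
  have hdpos : 0 < n * (n + 1) / 2 := by
    refine Nat.div_pos ?_ two_pos
    nlinarith
  obtain ⟨w, ρ, bar, d, d', hρ, hinv, hfix, hstar, hbar, hz, hadj, hsum, hQv, hset, hfinH, hcard⟩ :=
    I2_setup (F := AlgebraicClosure K) two f hf ha A A' g Q hA hA' hgf hg hQ had D hD1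
      (by rw [hnV]; exact hD3)
  have hne : Nonempty (Fin (finrank K V)) := ⟨⟨0, by omega⟩⟩
  have hx : ∃ x ∈ HT (barT bar : Set (Fin (finrank K V) → (AlgebraicClosure K)ˣ)) (rhoU ρ g),
      ∃ k, psiM bar (fun i => w i d) (x : Matrix _ _ (AlgebraicClosure K)) none (some k) ≠ 0 := by
    by_contra hcon
    push Not at hcon
    apply hQ'
    refine hq1 K V f A' Q hnV hqb two hf ha hA' (adQ_qf two f hf ha A Q hQ) ?_
    intro t ht v
    have h1 := I2_tor_HT f A A' g hA.toIsTorGL hA'.toIsTorGL hgf hg w ρ bar hρ hfix hbar t ht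
    have h2 := hcon _ h1
    rw [hQv, hQv]
    exact row_zero K V (AlgebraicClosure K) two f hf A w ρ bar hρ hinv hfix hstar hz d d' hadj hsum
      t ht.2.1 (fun k => h2 k) v
  have hcore := card_q2 hset hx
  rw [hcard, Fintype.card_fin, hnV] at hcore
  refine I2_arith (Nat.card K) (8 * n) D (n * (n + 1) / 2) _ _ 1 hdpos hD4 hcore ?_ Nat.card_pos
  rw [I2_relIndex _ _ (I2_le f A A'), one_mul]
  have := card_Sp2_le two f hf ha
  rwa [hnV] at this

end Pool.Agent.CTE
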