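import Pool.Agent.CTE.Base
import Pool.Agent.CTO.E0
import Pool.Agent.CTO.W0
import Pool.Agent.CTO.W1

/-!
# CTE.W1: subgroups of bounded index, characteristic two

* `eich_mem_of_index2`: the analogue of `eich_mem_of_index` (`CTO/W1.lean`: read its header, copy and adapt its
  proof). The characteristic is used there only for the vector `u'` with `f u u' = 1`, `f u' u' = 0`: take `y`
  with `f u y = 1` and `u' = y + ξ u`; `f u' u' = f y y + ξ f u y + σ(ξ) f y u = f y y + ξ + ε σ ξ`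
  (`f y u = ε σ(f u y) = ε`), and `ε = 1` (characteristic two). If `f` is alternating take `ξ = 0`. If `σ ≠ id`:
  `σ (f y y) = f y y`, and the map `ξ ↦ ξ + σ ξ` is surjective onto `{k | σ k = k}`: choose `θ` with
  `σ θ ≠ θ`, `c = θ + σ θ ≠ 0` is fixed by `σ`, and `ξ = θ c⁻¹ (f y y)` has `ξ + σ ξ = f y y` (signs are irrelevant).
  `s ^ (2 m) ≠ 1`, `r = s ^ m ≠ 1`, `r² ≠ 1` as there.
* `sieg_mem_of_index`: `H ≤ OQ f Q` of index `≤ k`. `C` from `exists_core` (with `G0 = OQ f Q`), `m = k !`. Let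
  `g = E(u, w) : x ↦ x + f(x,u) w + f(x,w) u + Q(w) f(x,u) u`, `Q u = 0`, `f w u = 0`, `u ≠ 0` (if `u = 0` then
  `g = 1`). Choose `u'` with `f u u' = 1`, `Q u' = 0`: `u' = y + Q(y) u` for `f u y = 1`
  (`Q(y + c u) = Q y + c f y u + c² Q u = Q y + c`). Replacing `w` by `w - f(w,u') u` does not change `g`
  (`E(u, w + c u) = E(u, w)`: `f(x, w + c u) u = f(x,w) u + c f(x,u) u`, and `f(x,u)(w + c u)`; the sum changes by
  `2 c f(x,u) u = 0`, and `Q(w + c u) = Q w + c f w u = Q w`). So let `w` be orthogonal to `u`, `u'`. For `s ≠ 0` let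
  `λ(s)` be the isometry `u ↦ s u`, `u' ↦ s⁻¹ u'`, identity on `⟨u, u'⟩^⊥`:
  `λ(s) x = x + (s - 1) f(x,u') u + (s⁻¹ - 1) f(x,u) u'`; it preserves `f` and `Q`, `λ(s) λ(t) = λ(s t)`. With
  `r = s ^ m`, `λ(r) = λ(s)^m ∈ C`, `λ(r) E(u,w) λ(r)⁻¹ = E(r u, w) = E(u, r w)`,
  `E(u, a) E(u, b) = E(u, a + b)` for `a`, `b` orthogonal to `u` (direct computation; `f(a,b)` cancels:
  the coefficient of `f(x,u) u` is `Q a + Q b + f a b = Q(a + b)`). So
  `λ E λ⁻¹ E⁻¹ = E(u, (r - 1) w) ∈ C`; if `r ≠ 1` every `E(u, w)` with `w ∈ ⟨u,u'⟩^⊥` is of this form. `s` with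
  `s ≠ 0`, `s ^ m ≠ 1` exists if `|K| > m + 1`.
-/

namespace Pool.Agent.CTE

open Module Pool.Agent.CTO

section W1

variable {K V : Type} [Field K] [AddCommGroup V] [Module K V] {σ : K →+* K} {ε : K}
  {f : V → V → K}

theorem W1_eps_one (hf : IsHF σ ε f) (two : (2 : K) = 0) : ε = 1 := by
  rcases hf.eps with h | h
  · exact h
  · rw [h]
    linear_combination -two

theorem W1_exists_y (hf : IsHF σ ε f) (u : V) (hu0 : u ≠ 0) : ∃ y, f u y = 1 := by
  have hex : ∃ y0, f u y0 ≠ 0 := by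
    by_contra hcon
    push Not at hcon
    exact hu0 (hf.nondeg u hcon)
  obtain ⟨y0, hy0⟩ := hex
  refine ⟨σ (f u y0)⁻¹ • y0, ?_⟩
  rw [W1_smul_right hf, hf.invol, inv_mul_cancel₀ hy0]

theorem W1_exists_u' (hf : IsHF σ ε f) (two : (2 : K) = 0) (h : (∃ k, σ k ≠ k) ∨ Alt f) (u : V)
    (hu : f u u = 0) (hu0 : u ≠ 0) : ∃ u', f u' u' = 0 ∧ f u u' = 1 := by
  obtain ⟨y, hy⟩ := W1_exists_y hf u hu0
  have he := W1_eps_one hf two
  subst he
  have hyu : f y u = 1 := by rw [hf.herm u y, hy, map_one, mul_one]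
  have hyy : σ (f y y) = f y y := by
    have h1 : f y y = 1 * σ (f y y) := hf.herm y y
    rw [one_mul] at h1
    exact h1.symm
  rcases h with ⟨θ, hθ⟩ | h
  · have hc : θ + σ θ ≠ 0 := by
      intro h0
      apply hθ
      linear_combination h0 - θ * two
    have hσc : σ (θ + σ θ) = θ + σ θ := by rw [map_add, hf.invol, add_comm]
    have hσi : σ (θ + σ θ)⁻¹ = (θ + σ θ)⁻¹ := by rw [map_inv₀, hσc]
    obtain ⟨t, ht⟩ : ∃ t, t = (θ + σ θ)⁻¹ := ⟨_, rfl⟩
    have ht1 : (θ + σ θ) * t = 1 := by rw [ht]; exact mul_inv_cancel₀ hc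
    have hσt : σ t = t := by rw [ht]; exact hσi
    refine ⟨y + (θ * t * f y y) • u, ?_, ?_⟩
    · simp only [hf.add_left, W1_add_right hf, hf.smul_left, W1_smul_right hf, map_mul, hyy, hσt,
        hy, hyu, hu]
      linear_combination (f y y) * ht1 + (f y y) * two
    · rw [W1_add_right hf, W1_smul_right hf, hu, hy]
      ring
  · exact ⟨y, h y, hy⟩

theorem W1_all2 (hf : IsHF σ ε f) (two : (2 : K) = 0) (h : (∃ k, σ k ≠ k) ∨ Alt f)
    (C : Subgroup (V ≃ₗ[K] V)) (hC : C ≤ Isom f)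
    (hn : ∀ x ∈ Isom f, ∀ c ∈ C, x * c * x⁻¹ ∈ C) (m : ℕ) (hp : ∀ x ∈ Isom f, x ^ m ∈ C)
    (s : K) (hs0 : s ≠ 0) (hs : σ s = s) (hsm : s ^ (2 * m) ≠ 1)
    (g : V ≃ₗ[K] V) (hg : g ∈ EichSet σ ε f) : g ∈ C := by
  obtain ⟨u, w, γ, ⟨hu, hw, hγ⟩, hgx⟩ := hg
  have hee := W1_eps_sq hf
  have hse := W1_sig_eps hf
  by_cases hu0 : u = 0
  · have : g = 1 := by
      ext x
      rw [hgx, hu0, W1_zero_right hf]
      simp
    rw [this]
    exact one_mem _
  · obtain ⟨u', hu', huu⟩ := W1_exists_u' hf two h u hu hu0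
    obtain ⟨l, hl, hlm⟩ := W1_exists_lam hf u u' hu hu' huu s hs0 hs m
    have hrr : s ^ m * s⁻¹ ^ m = 1 := by rw [← mul_pow, mul_inv_cancel₀ hs0, one_pow]
    have hr : σ (s ^ m) = s ^ m := by rw [map_pow, hs]
    have hr2 : (s ^ m) ^ 2 ≠ 1 := by
      rw [← pow_mul, mul_comm m 2]
      exact hsm
    have huw : f u w = 0 := by rw [hf.herm w u, hw, map_zero, mul_zero]
    set ξ : K := f w u' with hξ
    have hw1 : f (w - ξ • u) u = 0 := by
      rw [W1_sub_left hf, hf.smul_left, hw, hu]; ring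
    have hw1' : f (w - ξ • u) u' = 0 := by
      rw [W1_sub_left hf, hf.smul_left, huu, ← hξ]; ring
    have h1 := W1_perp hf C hC hn u u' hu hu' huu _ _ hrr hr hr2 (l ^ m) (hp l hl) hlm
      (w - ξ • u) (γ + ξ - ε * σ ξ) hw1 hw1' (by
        simp only [W1_sub_left hf, W1_sub_right hf, hf.smul_left, W1_smul_right hf, hu, hw, huw,
          map_add, map_sub, map_mul, hf.invol, hse]
        linear_combination hγ - σ ξ * hee)
    obtain ⟨g', hg', hgx'⟩ := h1
    have : g = g' := by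
      ext x
      rw [hgx, hgx', W1_map_apply]
      simp only [W1_sub_right hf, W1_smul_right hf]
      match_scalars <;> ring
    rw [this]
    exact hg'

/-- The commutator of `λ(r)` and `E(u,w,γ)`, as a map. -/
theorem W1_comm_map (hf : IsHF σ ε f) (u u' : V) (hu : f u u = 0)
    (huu : f u u' = 1) (r r' : K) (hr : σ r = r)
    (Λ : V ≃ₗ[K] V) (hΛI : ∀ x y, f (Λ x) (Λ y) = f x y) (hΛ : ∀ x, Λ x = W1_L hf u u' r r' x)
    (w : V) (γ : K) (hw : f w u = 0) (hwu' : f w u' = 0)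
    (g : V ≃ₗ[K] V) (hg' : ∀ x, g x = W1_map hf u w γ x) (x : V) :
    (Λ * (g * Λ⁻¹ * g⁻¹)) x =
      W1_map hf u ((r - 1) • w) (r ^ 2 * γ - γ - ε * f w w + ε * r * f w w) x := by
  have hΛu : Λ u = r • u := by
    rw [hΛ, W1_L_apply, huu, hu]
    module
  have hΛw : Λ w = w := by
    rw [hΛ, W1_L_apply, hw, hwu']
    simp
  have hinv : ∀ x z, f (Λ⁻¹ x) z = f x (Λ z) := by
    intro x z
    rw [← hΛI (Λ⁻¹ x) z]
    have h1 : Λ (Λ⁻¹ x) = x := LinearEquiv.apply_symm_apply Λ x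
    rw [h1]
  obtain ⟨z, rfl⟩ : ∃ z, g z = x := ⟨g⁻¹ x, LinearEquiv.apply_symm_apply g x⟩
  have e1 : (Λ * (g * Λ⁻¹ * g⁻¹)) (g z) = Λ (g (Λ⁻¹ z)) := by
    simp only [LinearEquiv.mul_apply]
    have h1 : g⁻¹ (g z) = z := LinearEquiv.symm_apply_apply g z
    rw [h1]
  have e2 : Λ (Λ⁻¹ z) = z := LinearEquiv.apply_symm_apply Λ z
  have hrw : f ((r - 1) • w) u = 0 := by rw [hf.smul_left, hw, mul_zero]
  rw [e1, hg', hg', W1_comp hf u ((r - 1) • w) w _ γ hu hrw hw, W1_map_apply, W1_map_apply]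
  simp only [map_add, map_sub, map_smul, hinv, e2, hΛu, hΛw, W1_smul_right hf, W1_add_right hf,
    hr, map_one]
  match_scalars <;> ring

end W1

section W1Q

variable {K V : Type} [Field K] [AddCommGroup V] [Module K V] {f : V → V → K} {Q : V → K}

theorem W1_sieg_OQ (hf : IsHF (RingHom.id K) 1 f) (two : (2 : K) = 0) (ha : Alt f)
    (hQ : IsQF f Q) (u w : V) (hu : Q u = 0) (hw : f w u = 0) (g : V ≃ₗ[K] V)
    (hg : ∀ x, g x = W1_map hf u w (Q w) x) : g ∈ OQ f Q := by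
  have hgI : g ∈ Isom f := by
    apply eich_isom hf g
    refine ⟨u, w, Q w, ⟨ha u, hw, ?_⟩, fun x => ?_⟩
    · rw [ha w, RingHom.id_apply]
      linear_combination (Q w) * two
    · rw [hg, W1_map_apply]
  refine ⟨hgI, fun x => ?_⟩
  have hx : g x = x + (f x u • w + (f x w + Q w * f x u) • u) := by
    rw [hg, W1_map_apply]
    have h1 : (1 * f x w : K) = - f x w := by linear_combination (f x w) * two
    rw [h1]
    module
  have hwx : f x w + f x w = 0 := by linear_combination (f x w) * two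
  rw [hx, hQ.add, hQ.add, hQ.smul, hQ.smul, W1_add_right hf, W1_smul_right hf, W1_smul_right hf,
    hf.smul_left, W1_smul_right hf, hu, hw]
  simp only [RingHom.id_apply]
  linear_combination (f x u * f x u * Q w + f x u * f x w) * two

theorem W1_lam_OQ (hf : IsHF (RingHom.id K) 1 f) (ha : Alt f) (hQ : IsQF f Q) (u u' : V)
    (hu : Q u = 0) (hu' : Q u' = 0) (huu : f u u' = 1) (s : K) (hs0 : s ≠ 0) (m : ℕ) :
    ∃ g ∈ OQ f Q, ∀ x, (g ^ m) x = W1_L hf u u' (s ^ m) (s⁻¹ ^ m) x := by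
  obtain ⟨g, hgI, hg⟩ := W1_exists_lam hf u u' (ha u) (ha u') huu s hs0 rfl 1
  simp only [pow_one] at hg
  refine ⟨g, ⟨hgI, fun x => ?_⟩, ?_⟩
  · rw [hg, W1_L_apply, add_assoc, hQ.add, hQ.add, hQ.smul, hQ.smul, W1_add_right hf,
      W1_smul_right hf, W1_smul_right hf, hf.smul_left, W1_smul_right hf, hu, hu', huu]
    simp only [RingHom.id_apply]
    have h1 : s * s⁻¹ = 1 := mul_inv_cancel₀ hs0
    linear_combination (f x u * f x u') * h1
  · induction m with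
    | zero =>
      intro x
      rw [pow_zero, pow_zero, pow_zero, W1_L_apply]
      simp
    | succ m ih =>
      intro x
      rw [pow_succ, LinearEquiv.mul_apply, ih, hg, W1_L_comp hf u u' (ha u) (ha u') huu,
        ← pow_succ, ← pow_succ]

theorem W1_sieg_all (hf : IsHF (RingHom.id K) 1 f) (two : (2 : K) = 0) (ha : Alt f)
    (hQ : IsQF f Q) (C : Subgroup (V ≃ₗ[K] V)) (hC : C ≤ OQ f Q)
    (hn : ∀ x ∈ OQ f Q, ∀ c ∈ C, x * c * x⁻¹ ∈ C) (m : ℕ) (hp : ∀ x ∈ OQ f Q, x ^ m ∈ C)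
    (s : K) (hs0 : s ≠ 0) (hsm : s ^ m ≠ 1)
    (g : V ≃ₗ[K] V) (hg : g ∈ SiegSet f Q) : g ∈ C := by
  obtain ⟨u, w, hu, hw, hgx⟩ := hg
  by_cases hu0 : u = 0
  · have : g = 1 := by
      ext x
      rw [hgx, hu0, W1_zero_right hf]
      simp
    rw [this]
    exact one_mem _
  · obtain ⟨y, hy⟩ := W1_exists_y hf u hu0
    have hyu : f y u = 1 := by rw [hf.herm u y, hy, map_one, mul_one]
    obtain ⟨u', hu', huu⟩ : ∃ u', Q u' = 0 ∧ f u u' = 1 := by
      refine ⟨y + Q y • u, ?_, ?_⟩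
      · rw [hQ.add, hQ.smul, W1_smul_right hf, hu, hyu]
        simp only [RingHom.id_apply]
        linear_combination (Q y) * two
      · rw [W1_add_right hf, W1_smul_right hf, ha u, hy]
        ring
    obtain ⟨l, hl, hlm⟩ := W1_lam_OQ hf ha hQ u u' hu hu' huu s hs0 m
    obtain ⟨r, hr⟩ : ∃ r, r = s ^ m := ⟨_, rfl⟩
    have hr1 : r - 1 ≠ 0 := by
      rw [hr]
      exact sub_ne_zero.2 hsm
    obtain ⟨ξ, hξ⟩ : ∃ ξ, ξ = f w u' := ⟨_, rfl⟩
    have hw1 : f (w - ξ • u) u = 0 := by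
      rw [W1_sub_left hf, hf.smul_left, hw, ha u]; ring
    have hw1' : f (w - ξ • u) u' = 0 := by
      rw [W1_sub_left hf, hf.smul_left, huu, ← hξ]; ring
    obtain ⟨t, ht⟩ : ∃ t, t = (r - 1)⁻¹ := ⟨_, rfl⟩
    have ht1 : (r - 1) * t = 1 := by rw [ht]; exact mul_inv_cancel₀ hr1
    have hw2 : f (t • (w - ξ • u)) u = 0 := by rw [hf.smul_left, hw1, mul_zero]
    have hw2' : f (t • (w - ξ • u)) u' = 0 := by rw [hf.smul_left, hw1', mul_zero]
    obtain ⟨g0, hg0⟩ := exists_eich hf u (t • (w - ξ • u)) (Q (t • (w - ξ • u)))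
      ⟨ha u, hw2, by
        rw [ha (t • (w - ξ • u)), RingHom.id_apply]
        linear_combination (Q (t • (w - ξ • u))) * two⟩
    have hg0' : ∀ x, g0 x = W1_map hf u (t • (w - ξ • u)) (Q (t • (w - ξ • u))) x := fun x => by
      rw [hg0, W1_map_apply]
    have hg0Q : g0 ∈ OQ f Q := W1_sieg_OQ hf two ha hQ u _ hu hw2 g0 hg0'
    have hΛC : l ^ m ∈ C := hp l hl
    have hΛI : ∀ x y, f ((l ^ m) x) ((l ^ m) y) = f x y := (hC hΛC).1
    have hmem : (l ^ m) * (g0 * (l ^ m)⁻¹ * g0⁻¹) ∈ C :=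
      mul_mem hΛC (hn g0 hg0Q _ (inv_mem hΛC))
    have hmap := W1_comm_map hf u u' (ha u) huu r (s⁻¹ ^ m) rfl (l ^ m) hΛI
      (by rw [hr]; exact hlm) (t • (w - ξ • u)) (Q (t • (w - ξ • u))) hw2 hw2' g0 hg0'
    have : g = (l ^ m) * (g0 * (l ^ m)⁻¹ * g0⁻¹) := by
      ext x
      rw [hmap, smul_smul, ht1, one_smul, hgx, W1_map_apply, ha (t • (w - ξ • u)), hQ.smul]
      have hQw : Q (w - ξ • u) = Q w := by
        have h1 : w - ξ • u = w + (-ξ) • u := by module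
        rw [h1, hQ.add, hQ.smul, W1_smul_right hf, hu, hw]
        ring
      rw [hQw, W1_sub_right hf, W1_smul_right hf]
      simp only [RingHom.id_apply]
      have h3 : (r ^ 2 * (t * t * Q w) - t * t * Q w - 1 * 0 + 1 * r * 0 : K) = Q w := by
        linear_combination (Q w) * ((r - 1) * t + 1) * ht1 + (Q w * t * t * (r - 1)) * two
      rw [h3]
      have h4 : f x w + f x w = 0 := by linear_combination (f x w) * two
      match_scalars
      · ring
      · ring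
      · linear_combination h4
    rw [this]
    exact hmem

end W1Q

theorem W1_exists_s' {K : Type} [Field K] [Finite K] (m : ℕ) (hm : 0 < m)
    (h : m + 2 ≤ Nat.card K) : ∃ s : K, s ≠ 0 ∧ s ^ m ≠ 1 := by
  classical
  by_contra hcon
  push Not at hcon
  have hsub : (Set.univ : Set K) ⊆
      (↑(insert (0 : K) (Polynomial.nthRoots m (1 : K)).toFinset) : Set K) := by
    intro k _
    rw [Finset.mem_coe, Finset.mem_insert]
    by_cases h0 : k = 0
    · exact Or.inl h0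
    · right
      rw [Multiset.mem_toFinset, Polynomial.mem_nthRoots hm]
      exact hcon k h0
  have h1 := Set.ncard_le_ncard hsub (Finset.finite_toSet _)
  rw [Set.ncard_coe_finset, Set.ncard_univ] at h1
  have h3 := Finset.card_insert_le (0 : K) (Polynomial.nthRoots m (1 : K)).toFinset
  have h4 := Multiset.toFinset_card_le (Polynomial.nthRoots m (1 : K))
  have h5 := Polynomial.card_nthRoots m (1 : K)
  omega

theorem eich_mem_of_index2 (k : ℕ) : ∃ q0 : ℕ, ∀ (K V : Type) [Field K] [Finite K] [AddCommGroup V]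
    [Module K V] [FiniteDimensional K V] (σ : K →+* K) (ε : K) (f : V → V → K)
    (H : Subgroup (V ≃ₗ[K] V)), q0 ≤ Nat.card {k : K // σ k = k} → (2 : K) = 0 → IsHF σ ε f →
    ((∃ k, σ k ≠ k) ∨ Alt f) →
    H ≤ Isom f → H.relIndex (Isom f) ≤ k → EU σ ε f ≤ H := by
  refine ⟨2 * k.factorial + 2, ?_⟩
  intro K V _ _ _ _ _ σ ε f H hq two hf hs1 hH hk
  have : Finite V := Module.finite_of_finite K
  have : Finite (V ≃ₗ[K] V) := DFunLike.finite _
  obtain ⟨C, hCH, hn, hp⟩ := exists_core H (Isom f) hH k hk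
  obtain ⟨s, hs0, hs, hsm⟩ := W1_exists_s σ k.factorial k.factorial_pos hq
  rw [EU, Subgroup.closure_le]
  intro g hg
  exact hCH (W1_all2 hf two hs1 C (hCH.trans hH) hn k.factorial hp s hs0 hs hsm g hg)

theorem sieg_mem_of_index (k : ℕ) : ∃ q0 : ℕ, ∀ (K V : Type) [Field K] [Finite K] [AddCommGroup V]
    [Module K V] [FiniteDimensional K V] (f : V → V → K) (Q : V → K)
    (H : Subgroup (V ≃ₗ[K] V)), q0 ≤ Nat.card K → (2 : K) = 0 → IsHF (RingHom.id K) 1 f → Alt f →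
    IsQF f Q → H ≤ OQ f Q → H.relIndex (OQ f Q) ≤ k → EUQ f Q ≤ H := by
  refine ⟨k.factorial + 2, ?_⟩
  intro K V _ _ _ _ _ f Q H hq two hf ha hQ hH hk
  have : Finite V := Module.finite_of_finite K
  have : Finite (V ≃ₗ[K] V) := DFunLike.finite _
  obtain ⟨C, hCH, hn, hp⟩ := exists_core H (OQ f Q) hH k hk
  obtain ⟨s, hs0, hsm⟩ := W1_exists_s' (K := K) k.factorial k.factorial_pos hq
  rw [EUQ, Subgroup.closure_le]
  intro g hg
  exact hCH (W1_sieg_all hf two ha hQ C (hCH.trans hH) hn k.factorial hp s hs0 hsm g hg)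

end Pool.Agent.CTE
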