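import Pool.Agent.CTE.A8
import Pool.Agent.CTE.B1
import Pool.Agent.CTE.F5
import Pool.Agent.CTE.G1
import Pool.Agent.CTE.G2
import Pool.Agent.CTE.G5
import Pool.Agent.CTE.G6
import Pool.Agent.CTE.I1
import Pool.Agent.CTE.I2
import Pool.Agent.CTE.W1
import Pool.Agent.CTO.A5
import Pool.Agent.CTO.AI

/-!
# CTE.AI: the absolutely irreducible case, characteristic two

Compare `aiU`, `aiSp`, `aiO` in `CTO/AI.lean` (complete proofs; `carries_mul`, `carries_inv`, `carries_torGL`, `NormA`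
there can be used). `H = sq T ⊔ sq T'`.
* `aiU2`: as `aiU`: `index_U2`, `eich_mem_of_index2` (`σ ≠ id`), `det_torU`, `det_isom_norm` (`CTO/A5.lean`, characteristic
  free), `su_gen2`.
* `ai2`: `σ = id`. `n = 0`: `h = 1` (`V` trivial). Let `Q` be the form of `A` (`exists_adQ`).
  (a) `Q` is not the form of `A'`: `index_Sp2`, `eich_mem_of_index2` (`Alt f`), `sp_gen2`: `g ∈ Isom f ≤ EU ≤ H`.
  (b) `Q` is the form of `A'`, `n ≤ 2`: `O_small2`: `A = A'`, `h = 1`.
  (c) `Q` is the form of `A'`, `n ≥ 3`: `index_OQ`, `sieg_mem_of_index`: `EUQ f Q ≤ H`. `g ∈ OQ f Q` (`adQ_mem_OQ`). If `DickEven g`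
  then `g ∈ EUQ` (`even_mem`), `h = g`. If `OddPos f A`: `tor_dick` gives `n ∈ OQ f Q` carrying `A` to `A`, not even; if `g` is not even
  then `g n⁻¹` is even (`dick_mul`), `h = g n⁻¹` (`n⁻¹` carries `A` to `A`, `carries_inv`). `4 < |K|` for `q0 ≥ 5`.
-/

namespace Pool.Agent.CTE

open Module Pool.Agent.CTO

theorem AI_one {K V : Type} [Field K] [AddCommGroup V] [Module K V]
    (A : Subalgebra K (Module.End K V)) : CarriesTo (1 : V ≃ₗ[K] V) A A := by
  intro a ha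
  have : (1 : V ≃ₗ[K] V).toLinearMap ∘ₗ a ∘ₗ (1 : V ≃ₗ[K] V).symm.toLinearMap = a := by
    ext v; rfl
  rw [this]; exact ha

theorem AI_sub {K V : Type} [Field K] [AddCommGroup V] [Module K V] [Subsingleton V]
    {A A' : Subalgebra K (Module.End K V)} {g : V ≃ₗ[K] V} (hg : CarriesTo g A A') :
    CarriesTo (1 : V ≃ₗ[K] V) A A' := by
  intro a ha
  have : (1 : V ≃ₗ[K] V).toLinearMap ∘ₗ a ∘ₗ (1 : V ≃ₗ[K] V).symm.toLinearMap
      = g.toLinearMap ∘ₗ a ∘ₗ g.symm.toLinearMap := by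
    ext v; exact Subsingleton.elim _ _
  rw [this]; exact hg a ha

theorem AI_le {K V : Type} [Field K] [AddCommGroup V] [Module K V] [FiniteDimensional K V]
    (σ : K →+* K) (f : V → V → K) (A A' : Subalgebra K (Module.End K V)) :
    sq (tor σ f A) ⊔ sq (tor σ f A') ≤ Isom f := by
  refine sup_le ?_ ?_ <;>
  · refine (Subgroup.closure_le _).mpr ?_
    rintro x ⟨t, ht, rfl⟩
    exact mul_mem ht.2.1 ht.2.1

theorem aiU2 (n : ℕ) : ∃ q0 : ℕ, ∀ (K V : Type) [Field K] [Finite K] [AddCommGroup V]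
    [Module K V] [FiniteDimensional K V] (σ : K →+* K) (ε : K) (f : V → V → K)
    (A A' : Subalgebra K (Module.End K V)) (g : V ≃ₗ[K] V),
    finrank K V = n → q0 ≤ Nat.card {k : K // σ k = k} → (∃ k, σ k ≠ k) → (2 : K) = 0 → IsHF σ ε f →
    IsTor f A → IsTor f A' → g ∈ Isom f → CarriesTo g A A' →
    Algebra.adjoin K (EndSet (sq (tor σ f A) ⊔ sq (tor σ f A'))) = ⊤ →
    ∃ h ∈ sq (tor σ f A) ⊔ sq (tor σ f A'), CarriesTo h A A' := by
  obtain ⟨k, q1, h1⟩ := index_U2 n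
  obtain ⟨q2, h2⟩ := eich_mem_of_index2 k
  refine ⟨max q1 q2, ?_⟩
  intro K V _ _ _ _ _ σ ε f A A' g hn hq hσ two hf hA hA' hgi hg hs
  have hi := h1 K V σ ε f A A' g hn (le_trans (le_max_left _ _) hq) hσ two hf hA hA' hgi hg hs
  have hE := h2 K V σ ε f _ (le_trans (le_max_right _ _) hq) two hf (Or.inl hσ) (AI_le σ f A A') hi
  rcases subsingleton_or_nontrivial V with hV | hV
  · exact ⟨1, one_mem _, AI_sub hg⟩
  · obtain ⟨t, ht, htd⟩ := det_torU σ hσ ε f hf A hA (LinearEquiv.det g) (det_isom_norm σ ε f hf g hgi)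
    refine ⟨g * t⁻¹, hE (su_gen2 K V two σ hσ ε f hf _ (mul_mem hgi (inv_mem ht.2.1))
      (by rw [map_mul, map_inv, htd, mul_inv_cancel])), ?_⟩
    exact carries_mul (carries_torGL (inv_mem ht.1)) hg

theorem ai2 (n : ℕ) : ∃ q0 : ℕ, ∀ (K V : Type) [Field K] [Finite K] [AddCommGroup V]
    [Module K V] [FiniteDimensional K V] (f : V → V → K)
    (A A' : Subalgebra K (Module.End K V)) (g : V ≃ₗ[K] V),
    finrank K V = n → q0 ≤ Nat.card K → (2 : K) = 0 → IsHF (RingHom.id K) 1 f → Alt f → IsTor2 f A →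
    IsTor2 f A' → g ∈ Isom f → CarriesTo g A A' →
    (∀ Q, AdQ f A Q → AdQ f A' Q → OddPos f A ∨ DickEven g) →
    Algebra.adjoin K (EndSet (sq (tor (RingHom.id K) f A) ⊔ sq (tor (RingHom.id K) f A'))) = ⊤ →
    ∃ h ∈ sq (tor (RingHom.id K) f A) ⊔ sq (tor (RingHom.id K) f A'), CarriesTo h A A' := by
  obtain ⟨k1, q1, h1⟩ := index_Sp2 n
  obtain ⟨q2, h2⟩ := eich_mem_of_index2 k1
  -- the orthogonal case, `n ≥ 3`
  obtain ⟨q3, q4, h3⟩ : ∃ q3 q4 : ℕ, 3 ≤ n → ∀ (K V : Type) [Field K] [Finite K] [AddCommGroup V]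
      [Module K V] [FiniteDimensional K V] (f : V → V → K)
      (A A' : Subalgebra K (Module.End K V)) (g : V ≃ₗ[K] V) (Q : V → K),
      finrank K V = n → q3 ≤ Nat.card K → q4 ≤ Nat.card K → (2 : K) = 0 →
      IsHF (RingHom.id K) 1 f → Alt f → IsTor2 f A →
      IsTor2 f A' → g ∈ Isom f → CarriesTo g A A' → AdQ f A Q → AdQ f A' Q →
      Algebra.adjoin K (EndSet (sq (tor (RingHom.id K) f A) ⊔ sq (tor (RingHom.id K) f A'))) = ⊤ →
      sq (tor (RingHom.id K) f A) ⊔ sq (tor (RingHom.id K) f A') ≤ OQ f Q →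
      EUQ f Q ≤ sq (tor (RingHom.id K) f A) ⊔ sq (tor (RingHom.id K) f A') := by
    by_cases hn3 : 3 ≤ n
    · obtain ⟨k3, q3, h3⟩ := index_OQ n (by omega)
      obtain ⟨q4, h4⟩ := sieg_mem_of_index k3
      refine ⟨q3, q4, fun _ => ?_⟩
      intro K V _ _ _ _ _ f A A' g Q hn hq3 hq4 two hf ha hA hA' hgi hg hQ hQ' hs hle
      have hi := h3 K V f A A' g Q hn hq3 two hf ha hA hA' hgi hg hQ hQ' hs
      exact h4 K V f Q _ hq4 two hf ha (adQ_qf two f hf ha A Q hQ) hle hi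
    · exact ⟨0, 0, fun h => absurd h hn3⟩
  refine ⟨max (max q1 q2) (max (max q3 q4) 5), ?_⟩
  intro K V _ _ _ _ _ f A A' g hn hq two hf ha hA hA' hgi hg hodd hs
  have hq1 : q1 ≤ Nat.card K := (((le_max_left _ _).trans (le_max_left _ _))).trans hq
  have hq2 : q2 ≤ Nat.card K := (((le_max_right _ _).trans (le_max_left _ _))).trans hq
  have hq3 : q3 ≤ Nat.card K :=
    (((le_max_left _ _).trans (le_max_left _ _)).trans (le_max_right _ _)).trans hq
  have hq4 : q4 ≤ Nat.card K :=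
    (((le_max_right _ _).trans (le_max_left _ _)).trans (le_max_right _ _)).trans hq
  have h5 : 4 < Nat.card K := ((le_max_right _ 5).trans (le_max_right _ _)).trans hq
  obtain ⟨Q, hQ⟩ := exists_adQ f A hA
  have hqf : IsQF f Q := adQ_qf two f hf ha A Q hQ
  by_cases hQ' : AdQ f A' Q
  · by_cases hn3 : 3 ≤ n
    · have htor : ∀ B : Subalgebra K (Module.End K V), IsTor2 f B → AdQ f B Q →
          sq (tor (RingHom.id K) f B) ≤ OQ f Q := by
        intro B hB hBQ
        refine (Subgroup.closure_le _).mpr ?_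
        rintro x ⟨t, ht, rfl⟩
        have h6 := (mem_tor2 two f hf B t).1 ht
        have h7 : t ∈ OQ f Q :=
          adQ_mem_OQ two f hf ha B B hB Q hBQ hBQ t h6.2 (carries_torGL h6.1)
        exact mul_mem h7 h7
      have hle : sq (tor (RingHom.id K) f A) ⊔ sq (tor (RingHom.id K) f A') ≤ OQ f Q :=
        sup_le (htor A hA hQ) (htor A' hA' hQ')
      have hE := h3 hn3 K V f A A' g Q hn hq3 hq4 two hf ha hA hA' hgi hg hQ hQ' hs hle
      have hgQ : g ∈ OQ f Q := adQ_mem_OQ two f hf ha A A' hA' Q hQ hQ' g hgi hg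
      have hV : 3 ≤ finrank K V := by rw [hn]; exact hn3
      by_cases hd : DickEven g
      · exact ⟨g, hE (even_mem two h5 f hf ha Q hqf hV g hgQ hd), hg⟩
      · have ho : OddPos f A := (hodd Q hQ hQ').resolve_right hd
        have : Nontrivial V := Module.nontrivial_of_finrank_pos (R := K) (by omega)
        obtain ⟨m, hm, hmc, hmd⟩ := tor_dick two f hf ha A hA ho Q hQ
        have hmi : m⁻¹ ∈ OQ f Q := inv_mem hm
        have hmid : ¬ DickEven m⁻¹ := by
          intro h6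
          have h7 := (dick_mul two h5 f hf ha Q hqf m m⁻¹ hm hmi).1
            (by rw [mul_inv_cancel]; exact dick_one)
          exact hmd (h7.2 h6)
        have hev : DickEven (g * m⁻¹) :=
          (dick_mul two h5 f hf ha Q hqf g m⁻¹ hgQ hmi).2 ⟨fun h6 => absurd h6 hd,
            fun h6 => absurd h6 hmid⟩
        exact ⟨g * m⁻¹, hE (even_mem two h5 f hf ha Q hqf hV _ (mul_mem hgQ hmi) hev),
          carries_mul (carries_inv hmc) hg⟩
    · have hAA : A = A' := O_small2 K V two f hf ha (by omega) A A' hA hA' Q hQ hQ'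
      exact ⟨1, one_mem _, hAA ▸ AI_one A⟩
  · have hi := h1 K V f A A' g Q hn hq1 two hf ha hA hA' hgi hg hQ hQ' hs
    have hcard : Nat.card {k : K // (RingHom.id K) k = k} = Nat.card K :=
      Nat.card_congr (Equiv.subtypeUnivEquiv fun x => rfl)
    have hE := h2 K V (RingHom.id K) 1 f _ (by rw [hcard]; exact hq2) two hf (Or.inr ha)
      (AI_le (RingHom.id K) f A A') hi
    exact ⟨g, hE (sp_gen2 two f hf ha hgi), hg⟩

end Pool.Agent.CTE
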