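import Pool.Agent.CTE.Psi
import Pool.Agent.CTO.M1

/-!
# CTE.M1: `psiM` is multiplicative on isometries

Write `b u v = ∑ k, u k * v (bar k)`, `q0 v = ∑ k, q k * v k * v (bar k)` (vectors `Ω → F`), `char F = 2`.
(i) `q0 (u + v) = q0 u + q0 v + b u v`: the cross terms are `∑ q k (u k v (bar k) + v k u (bar k))`; reindex the
second sum by `k ↦ bar k` and use `q k + q (bar k) = 1`.
(ii) `IsoM bar 1 x` (`x * starM x = 1`, `starM x i j = x (bar j) (bar i)`) says `b (x u) (x v) = b u v`
(`x.mulVec`): `b (x u) (x v) = ∑ ..` `= b u (starM x * x v)`.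
(iii) `δ u = q0 (x u) - q0 u` is additive by (i), (ii), and `δ (c u) = c² δ u`, so `δ u = ∑ k, u k ^ 2 * δ e_k`,
and `q0 e_k = 0` as `bar k ≠ k`. Hence `q0 (x u) = q0 u + ∑ k, u k ^ 2 * q0 (x e_k)`. With `u = y e_j` this is
the entry `(none, some j)` of `psiM (x * y) = psiM x * psiM y`. The entries `(some i, some j)`:
`(∑ k, x i k y k j)² = ∑ k, (x i k)² (y k j)²` in characteristic two (`sum_pow_char`/`CharTwo.sum_sq`-like).
* `psi_unit`: for a unit `x` with `IsoM bar 1 x` also `x⁻¹` is an isometry (`x⁻¹ = starM x`), and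
  `psiM x * psiM x⁻¹ = 1 = psiM x⁻¹ * psiM x`.
* `psi_dU`: `psiM (diagonal z)` for `z ∈ barT bar` is diagonal with entries `z i ^ 2` and `1`:
  in the row `none`: `q k * z_kj * z_(bar k) j = 0` as `bar k ≠ k`.
-/

namespace Pool.Agent.CTE

open Matrix Pool.Agent.CTO

variable {F Ω : Type} [Field F] [Fintype Ω] [DecidableEq Ω]

omit [DecidableEq Ω] in
theorem M1_two (h2 : (2 : F) = 0) (a : F) : a + a = 0 := by
  rw [← two_mul, h2, zero_mul]

/-- a sum over a symmetric matrix in characteristic two -/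
theorem M1_sym (N : Ω → Ω → F) (h : ∀ a b, N a b + N b a = 0) :
    ∑ a, ∑ b, N a b = ∑ a, N a a := by
  have h1 : ∀ a, ∑ b, N a b = N a a + ∑ b, if a = b then 0 else N a b := by
    intro a
    have h3 : N a a = ∑ b, if a = b then N a b else 0 := by
      rw [Finset.sum_ite_eq]; simp
    rw [h3, ← Finset.sum_add_distrib]
    apply Finset.sum_congr rfl
    intro b _
    split_ifs <;> simp
  simp only [h1]
  rw [Finset.sum_add_distrib]
  have h2 : ∑ a, ∑ b, (if a = b then 0 else N a b) = 0 := by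
    rw [← Fintype.sum_prod_type' (f := fun a b => if a = b then (0 : F) else N a b)]
    refine Finset.sum_involution (fun p _ => p.swap) ?_ ?_ ?_ ?_
    · rintro ⟨a, b⟩ _
      by_cases hab : a = b
      · simp [hab]
      · simp only [Prod.swap_prod_mk, if_neg hab, if_neg (Ne.symm hab)]
        exact h a b
    · rintro ⟨a, b⟩ _ hne he
      apply hne
      simp only [Prod.swap_prod_mk, Prod.mk.injEq] at he
      simp [he.2]
    · intro p _
      exact Finset.mem_univ _
    · intro p _
      exact Prod.swap_swap p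
  rw [h2, add_zero]

theorem M1_sq (h2 : (2 : F) = 0) (f : Ω → F) : (∑ k, f k) * (∑ k, f k) = ∑ k, f k * f k := by
  rw [Finset.sum_mul_sum]
  apply M1_sym
  intro a b
  rw [mul_comm (f b)]
  exact M1_two h2 _

/-- invariance of the form -/
theorem M1_B {bar : Ω → Ω} (hinv : ∀ i, bar (bar i) = i) {x : Matrix Ω Ω F}
    (hx : IsoM bar (fun _ => 1) x) (a b : Ω) :
    ∑ k, x k a * x (bar k) b = if a = bar b then 1 else 0 := by
  have h1 := congrFun (congrFun hx.2 (bar b)) a
  rw [Matrix.mul_apply, Matrix.one_apply] at h1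
  rw [if_congr (eq_comm (a := a)) rfl rfl, ← h1]
  apply Finset.sum_congr rfl
  intro k _
  simp only [starM, Matrix.of_apply, hinv]
  ring

/-- the form `q0` of an isometry -/
theorem M1_q {bar : Ω → Ω} {q : Ω → F} (hq : QB bar q) {x : Matrix Ω Ω F}
    (hx : IsoM bar (fun _ => 1) x) (u : Ω → F) :
    ∑ k, q k * (∑ a, x k a * u a) * (∑ b, x (bar k) b * u b) =
      ∑ k, q k * u k * u (bar k) + ∑ a, (∑ k, q k * x k a * x (bar k) a) * (u a * u a) := by
  let e : Ω ≃ Ω := ⟨bar, bar, hq.inv, hq.inv⟩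
  set M : Ω → Ω → F := fun a b => ∑ k, q k * x k a * x (bar k) b with hM
  have hMM : ∀ a b, M a b + M b a = if a = bar b then 1 else 0 := by
    intro a b
    have h1 : M b a = ∑ k, q (bar k) * x (bar k) b * x k a := by
      rw [hM]
      simp only
      rw [← Equiv.sum_comp e]
      apply Finset.sum_congr rfl
      intro k _
      simp only [e, Equiv.coe_fn_mk, hq.inv]
    rw [h1, ← M1_B hq.inv hx a b, hM]
    simp only
    rw [← Finset.sum_add_distrib]
    apply Finset.sum_congr rfl
    intro k _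
    have := hq.sum k
    linear_combination (x k a * x (bar k) b) * this
  have hL : ∑ k, q k * (∑ a, x k a * u a) * (∑ b, x (bar k) b * u b) =
      ∑ a, ∑ b, M a b * (u a * u b) := by
    have h1 : ∀ k, q k * (∑ a, x k a * u a) * (∑ b, x (bar k) b * u b) =
        ∑ a, ∑ b, q k * x k a * x (bar k) b * (u a * u b) := by
      intro k
      rw [mul_assoc, Finset.sum_mul_sum, Finset.mul_sum]
      apply Finset.sum_congr rfl
      intro a _
      rw [Finset.mul_sum]
      apply Finset.sum_congr rfl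
      intro b _
      ring
    simp only [h1]
    rw [Finset.sum_comm]
    apply Finset.sum_congr rfl
    intro a _
    rw [Finset.sum_comm]
    apply Finset.sum_congr rfl
    intro b _
    rw [hM]
    simp only
    rw [Finset.sum_mul]
  set N : Ω → Ω → F := fun a b => M a b * (u a * u b) - (if b = bar a then q a * u a * u b else 0)
    with hN
  have hR : ∑ a, ∑ b, M a b * (u a * u b) =
      ∑ k, q k * u k * u (bar k) + ∑ a, ∑ b, N a b := by
    rw [← Finset.sum_add_distrib]
    apply Finset.sum_congr rfl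
    intro a _
    rw [hN]
    simp only
    rw [Finset.sum_sub_distrib, Finset.sum_ite_eq']
    simp
  have hS : ∑ a, ∑ b, N a b = ∑ a, N a a := by
    apply M1_sym
    intro a b
    have h1 := hMM a b
    rw [hN]
    simp only
    by_cases hab : a = bar b
    · have hba : b = bar a := by rw [hab, hq.inv]
      rw [if_pos hab, if_pos hba]
      rw [if_pos hab] at h1
      have h3 := hq.sum b
      rw [← hab] at h3
      have h4 := M1_two hq.two (u a * u b)
      linear_combination (u a * u b) * h1 - (u a * u b) * h3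
    · have hba : ¬ b = bar a := by
        intro h
        apply hab
        rw [h, hq.inv]
      rw [if_neg hab, if_neg hba]
      rw [if_neg hab] at h1
      linear_combination (u a * u b) * h1
  rw [hL, hR, hS]
  congr 1
  apply Finset.sum_congr rfl
  intro a _
  rw [hN]
  simp only
  rw [if_neg (fun h => hq.nofix a h.symm), sub_zero]

theorem psi_one {bar : Ω → Ω} {q : Ω → F} (hq : QB bar q) : psiM bar q (1 : Matrix Ω Ω F) = 1 := by
  ext i j
  rcases i with _ | i <;> rcases j with _ | j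
  · simp [psiM]
  · simp only [psiM, Matrix.of_apply]
    rw [Matrix.one_apply_ne (by simp : (none : Option Ω) ≠ some j)]
    apply Finset.sum_eq_zero
    intro k _
    by_cases hk : k = j
    · subst hk
      rw [Matrix.one_apply_ne (hq.nofix k), mul_zero]
    · rw [Matrix.one_apply_ne hk, mul_zero, zero_mul]
  · simp [psiM]
  · simp only [psiM, Matrix.of_apply]
    by_cases hij : i = j
    · subst hij
      simp
    · rw [Matrix.one_apply_ne hij, Matrix.one_apply_ne (by simpa using hij), mul_zero]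

theorem psi_mul {bar : Ω → Ω} {q : Ω → F} (hq : QB bar q) (x y : Matrix Ω Ω F)
    (hx : IsoM bar (fun _ => 1) x) (hy : IsoM bar (fun _ => 1) y) :
    psiM bar q (x * y) = psiM bar q x * psiM bar q y := by
  ext i j
  rw [Matrix.mul_apply, Fintype.sum_option]
  rcases i with _ | i <;> rcases j with _ | j
  · simp [psiM]
  · simp only [psiM, Matrix.of_apply, Matrix.mul_apply, one_mul]
    exact M1_q hq hx (fun k => y k j)
  · simp [psiM]
  · simp only [psiM, Matrix.of_apply, Matrix.mul_apply, zero_mul, zero_add]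
    rw [M1_sq hq.two]
    apply Finset.sum_congr rfl
    intro k _
    ring

theorem iso_mul {bar : Ω → Ω} (hinv : ∀ i, bar (bar i) = i) (x y : Matrix Ω Ω F)
    (hx : IsoM bar (fun _ => 1) x) (hy : IsoM bar (fun _ => 1) y) :
    IsoM bar (fun _ => 1) (x * y) := by
  let e : Ω ≃ Ω := ⟨bar, bar, hinv, hinv⟩
  have h1 : starM bar (fun _ => (1 : F)) (x * y) =
      starM bar (fun _ => 1) y * starM bar (fun _ => 1) x := by
    ext i j
    simp only [starM, Matrix.of_apply, Matrix.mul_apply, one_mul]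
    rw [← Equiv.sum_comp e]
    apply Finset.sum_congr rfl
    intro k _
    simp only [e, Equiv.coe_fn_mk]
    ring
  constructor
  · rw [h1, mul_assoc, ← mul_assoc y, hy.1, one_mul, hx.1]
  · rw [h1, mul_assoc, ← mul_assoc _ x, hx.2, one_mul, hy.2]

theorem iso_inv {bar : Ω → Ω} (hinv : ∀ i, bar (bar i) = i) (x : (Matrix Ω Ω F)ˣ)
    (hx : IsoM bar (fun _ => 1) (x : Matrix Ω Ω F)) :
    IsoM bar (fun _ => 1) ((x⁻¹ : (Matrix Ω Ω F)ˣ) : Matrix Ω Ω F) ∧
      ∀ k j, ((x⁻¹ : (Matrix Ω Ω F)ˣ) : Matrix Ω Ω F) k j = (x : Matrix Ω Ω F) (bar j) (bar k) := by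
  have h1 : ((x⁻¹ : (Matrix Ω Ω F)ˣ) : Matrix Ω Ω F) = starM bar (fun _ => 1) (x : Matrix Ω Ω F) := by
    have h2 : ((x⁻¹ : (Matrix Ω Ω F)ˣ) : Matrix Ω Ω F) * ((x : Matrix Ω Ω F) *
        starM bar (fun _ => 1) (x : Matrix Ω Ω F)) = starM bar (fun _ => 1) (x : Matrix Ω Ω F) := by
      rw [← mul_assoc, Units.inv_mul, one_mul]
    rw [← h2, hx.1, mul_one]
  have h3 : ∀ k j, ((x⁻¹ : (Matrix Ω Ω F)ˣ) : Matrix Ω Ω F) k j = (x : Matrix Ω Ω F) (bar j) (bar k) := by
    intro k j
    rw [h1]
    simp [starM]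
  have h4 : starM bar (fun _ => 1) ((x⁻¹ : (Matrix Ω Ω F)ˣ) : Matrix Ω Ω F) = (x : Matrix Ω Ω F) := by
    ext i j
    simp only [starM, Matrix.of_apply, one_mul]
    rw [h3, hinv, hinv]
  refine ⟨⟨?_, ?_⟩, h3⟩
  · rw [h4, Units.inv_mul]
  · rw [h4, Units.mul_inv]

theorem psi_unit {bar : Ω → Ω} {q : Ω → F} (hq : QB bar q) (x : (Matrix Ω Ω F)ˣ)
    (hx : IsoM bar (fun _ => 1) (x : Matrix Ω Ω F)) :
    ∃ y : (Matrix (Option Ω) (Option Ω) F)ˣ,
      (y : Matrix (Option Ω) (Option Ω) F) = psiM bar q (x : Matrix Ω Ω F) ∧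
      ((y⁻¹ : (Matrix (Option Ω) (Option Ω) F)ˣ) : Matrix (Option Ω) (Option Ω) F)
        = psiM bar q ((x⁻¹ : (Matrix Ω Ω F)ˣ) : Matrix Ω Ω F) := by
  have hi := (iso_inv hq.inv x hx).1
  exact ⟨⟨psiM bar q (x : Matrix Ω Ω F), psiM bar q ((x⁻¹ : (Matrix Ω Ω F)ˣ) : Matrix Ω Ω F),
    by rw [← psi_mul hq _ _ hx hi, Units.mul_inv, psi_one hq],
    by rw [← psi_mul hq _ _ hi hx, Units.inv_mul, psi_one hq]⟩, rfl, rfl⟩

theorem psi_dU {bar : Ω → Ω} {q : Ω → F} (hq : QB bar q) (z : Ω → Fˣ) :
    psiM bar q ((dU z : (Matrix Ω Ω F)ˣ) : Matrix Ω Ω F)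
      = diagonal fun i => match i with
        | some i => (z i : F) * z i
        | none => 1 := by
  ext i j
  rw [dU_val]
  rcases i with _ | i <;> rcases j with _ | j
  · simp [psiM]
  · simp only [psiM, Matrix.of_apply]
    rw [Matrix.diagonal_apply_ne _ (by simp : (none : Option Ω) ≠ some j)]
    apply Finset.sum_eq_zero
    intro k _
    by_cases hk : k = j
    · subst hk
      rw [Matrix.diagonal_apply_ne _ (hq.nofix k), mul_zero]
    · rw [Matrix.diagonal_apply_ne _ hk, mul_zero, zero_mul]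
  · simp [psiM]
  · simp only [psiM, Matrix.of_apply]
    by_cases hij : i = j
    · subst hij
      simp
    · rw [Matrix.diagonal_apply_ne _ hij, Matrix.diagonal_apply_ne _ (by simpa using hij), mul_zero]

end Pool.Agent.CTE
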