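import Pool.Agent.CTE.B2g
import Pool.Agent.CTE.M1

/-!
# CTE.B2: generation and invariance for large fields, characteristic two

`F = AlgebraicClosure K`, `N = dim V`, `w`, `ρ`, `bar` from `exists_rho_form2`; `T0 w T` as in `CTO/I0.lean`, and
`dens_tor` (`CTO/R6.lean`; it does not use the characteristic): polynomials of degree `≤ D` vanishing on
`T0 w (tor ..)` vanish on `barT bar`, if `2 D N + N < |K|`.
* `exists_reg`: for `q ≥ 2 N² + N + 1` (`D = N`) there is `t ∈ tor f A` such that `t * t - 1` is invertible: the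
  polynomial `∏ i, (X i - 1)` of degree `N` does not vanish on `barT bar` (take `z i = c` for one `i` of each
  pair `{i, bar i}`, `z (bar i) = c⁻¹`, `c ≠ 1`), so it does not vanish on `T0 w T`: there is `t ∈ T` with
  `w i (t * t) ≠ 1` for all `i`; then `ρ (t * t - 1)` is an invertible diagonal matrix, so `t * t - 1` is
  injective (`ρ` is injective; or: `t * t - 1 ∈ A` is not a zero divisor; or `unit_iff` of `CTO/R1.lean`).
* `adQ_of_inv`: let `Q` be a quadratic form with polar form `f` and `Q (t v) = Q v` for all `t ∈ tor f A'`. Let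
  `Q'` be the form of `A'` (`exists_adQ`). `δ = Q - Q'` is additive, `δ (c v) = c² δ v`, and invariant under
  `t ∈ tor f A'` (`adQ_sim` with `μ = 1`). For `t` as in `exists_reg` (for `A'`) every `v` is `t t u - u`, so
  `δ v = δ (t t u) - δ u = 0`. So `Q = Q'`.
* `row_zero`: let `A`, `w`, `ρ`, `bar` be as in `exists_rho_form2`, `d ∈ A` with `d + d* = 1`, `Q v = f (d v) v`,
  `q k = w k d` (then `q k + q (bar k) = 1`). If `h` is an isometry of `f` and `psiM bar q (ρ h) none (some k) = 0`
  for all `k`, then `Q (h v) = Q v` for all `v`. Proof: let `z = h⁻¹ d h - d`; its adjoint is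
  `h⁻¹ d* h - d* = h⁻¹ (1 - d) h - (1 - d) = z` (characteristic two), so `z` is selfadjoint, and
  `(ρ z) (bar k) k = ∑ i, (ρ h⁻¹) (bar k) i * q i * (ρ h) i k - 0 = ∑ i, (ρ h) (bar i) k * q i * (ρ h) i k`
  (`ρ h⁻¹ = starM (ρ h)`, and `ρ d` is diagonal, `bar k ≠ k`), which is the entry `(none, some k)` of
  `psiM (ρ h)`, so `0`. By the last clause of `exists_rho_form2` `f (z v) v = 0`, i.e.
  `Q (h v) = f (d h v) (h v) = f (h⁻¹ d h v) v = f (d v) v`.
-/

namespace Pool.Agent.CTE

open Matrix Module Pool.Agent.CTO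

/-- an element with nonzero values is surjective on `V` -/
theorem B2_surj {K V F : Type} [Field K] [Finite K] [AddCommGroup V] [Module K V]
    [FiniteDimensional K V] [Field F] [Algebra K F] [IsAlgClosed F] {n : ℕ}
    (A : Subalgebra K (Module.End K V)) (hA : IsTorGL A) (w : Fin n → (A →ₐ[K] F))
    (hw : Function.Bijective w) (a : A) (h : ∀ i, w i a ≠ 0) (v : V) :
    ∃ u, (a : Module.End K V) u = v := by
  let _ : CommRing A := R6_comm A hA
  have : IsReduced A := R6_reduced A hA
  obtain ⟨x, hx⟩ := (unit_iff w hw a).2 h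
  refine ⟨(((x⁻¹ : Aˣ) : A) : Module.End K V) v, ?_⟩
  have h1 : (x : A) * ((x⁻¹ : Aˣ) : A) = 1 := x.mul_inv
  have h2 : ((x : A) : Module.End K V) * (((x⁻¹ : Aˣ) : A) : Module.End K V) = 1 :=
    congrArg Subtype.val h1
  rw [← hx, ← Module.End.mul_apply, h2, Module.End.one_apply]

/-- an element of `barT bar` without entries one -/
theorem B2_barT {m : ℕ} {F : Type} [Field F] (bar : Fin m → Fin m) (hinv : ∀ i, bar (bar i) = i)
    (hfix : ∀ i, bar i ≠ i) (c : Fˣ) (hc : c ≠ 1) :
    ∃ z ∈ (barT bar : Set (Fin m → Fˣ)), ∀ i, z i ≠ 1 := by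
  refine ⟨fun i => if i < bar i then c else c⁻¹, ?_, ?_⟩
  · intro i
    refine ⟨?_, fun h => absurd h (hfix i)⟩
    show (if i < bar i then c else c⁻¹) * (if bar i < bar (bar i) then c else c⁻¹) = 1
    rw [hinv]
    by_cases h : i < bar i
    · rw [if_pos h, if_neg (not_lt.2 h.le), mul_inv_cancel]
    · have h2 : bar i < i := lt_of_le_of_ne (not_lt.1 h) (hfix i)
      rw [if_neg h, if_pos h2, inv_mul_cancel]
  · intro i
    show (if i < bar i then c else c⁻¹) ≠ 1
    by_cases h : i < bar i
    · rw [if_pos h]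
      exact hc
    · rw [if_neg h]
      intro h2
      exact hc (inv_eq_one.1 h2)

theorem exists_reg (n : ℕ) : ∃ q0 : ℕ, ∀ (K V : Type) [Field K] [Finite K] [AddCommGroup V]
    [Module K V] [FiniteDimensional K V] (f : V → V → K) (A : Subalgebra K (Module.End K V)),
    finrank K V = n → q0 ≤ Nat.card K → (2 : K) = 0 → IsHF (RingHom.id K) 1 f → Alt f →
    IsTor2 f A → ∃ t ∈ tor (RingHom.id K) f A, ∀ v : V, ∃ u : V, t (t u) - u = v := by
  refine ⟨2 * n * n + n + 1, ?_⟩
  intro K V _ _ _ _ _ f A hn hq two hf ha hA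
  classical
  subst hn
  obtain ⟨w, ρ, bar, hρ, hinv, hfix, hadj, hbar, hz⟩ :=
    exists_rho_form2 (F := AlgebraicClosure K) two f hf ha A hA
  have hd := dens_tor 1 f hf A hA.toIsTor w hρ.bij bar hbar (finrank K V) (by omega)
  obtain ⟨c, hc⟩ : ∃ c : (AlgebraicClosure K)ˣ, c ≠ 1 := by
    have : Infinite (AlgebraicClosure K) := IsAlgClosed.instInfinite
    obtain ⟨x, hx⟩ := Infinite.exists_notMem_finset ({0, 1} : Finset (AlgebraicClosure K))
    simp only [Finset.mem_insert, Finset.mem_singleton, not_or] at hx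
    refine ⟨Units.mk0 x hx.1, ?_⟩
    intro h3
    exact hx.2 (congrArg Units.val h3)
  obtain ⟨z0, hz0, hz1⟩ := B2_barT bar hinv hfix c hc
  have hex : ∃ t : A, (∃ g ∈ tor (RingHom.id K) f A, g.toLinearMap = (t : Module.End K V)) ∧
      ∀ i, w i (t * t) ≠ 1 := by
    by_contra hno
    push Not at hno
    have h1 := hd (∏ i : Fin (finrank K V), (MvPolynomial.X i - MvPolynomial.C 1)) (by
      refine (MvPolynomial.totalDegree_finset_prod _ _).trans ?_
      refine (Finset.sum_le_card_nsmul _ _ 1 (fun i _ => ?_)).trans ?_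
      · refine (MvPolynomial.totalDegree_sub _ _).trans ?_
        rw [MvPolynomial.totalDegree_X, MvPolynomial.totalDegree_C]
        exact le_of_eq (max_eq_left (Nat.zero_le 1))
      · rw [Finset.card_univ, Fintype.card_fin, smul_eq_mul, mul_one]) (by
      rintro z ⟨t, hg, hzt⟩
      obtain ⟨i, hi⟩ := hno t hg
      rw [map_prod]
      refine Finset.prod_eq_zero (Finset.mem_univ i) ?_
      rw [map_sub, MvPolynomial.eval_X, MvPolynomial.eval_C, hzt, hi, sub_self]) z0 hz0
    rw [map_prod, Finset.prod_eq_zero_iff] at h1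
    obtain ⟨i, -, hi⟩ := h1
    rw [map_sub, MvPolynomial.eval_X, MvPolynomial.eval_C, sub_eq_zero] at hi
    exact hz1 i (Units.ext hi)
  obtain ⟨t, ⟨g, hg, hgt⟩, ht⟩ := hex
  refine ⟨g, hg, fun v => ?_⟩
  obtain ⟨u, hu⟩ := B2_surj A hA.toIsTorGL w hρ.bij (t * t - 1) (fun i => by
    rw [map_sub, map_one, sub_ne_zero]
    exact ht i) v
  refine ⟨u, ?_⟩
  rw [← hu]
  have hgt' : ∀ x, g x = (t : Module.End K V) x := fun x => LinearMap.congr_fun hgt x
  rw [hgt', hgt']
  rfl

theorem adQ_of_inv (n : ℕ) : ∃ q0 : ℕ, ∀ (K V : Type) [Field K] [Finite K] [AddCommGroup V]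
    [Module K V] [FiniteDimensional K V] (f : V → V → K) (A : Subalgebra K (Module.End K V))
    (Q : V → K),
    finrank K V = n → q0 ≤ Nat.card K → (2 : K) = 0 → IsHF (RingHom.id K) 1 f → Alt f →
    IsTor2 f A → IsQF f Q → (∀ t ∈ tor (RingHom.id K) f A, ∀ v, Q (t v) = Q v) → AdQ f A Q := by
  obtain ⟨q0, hq0⟩ := exists_reg n
  refine ⟨q0, ?_⟩
  intro K V _ _ _ _ _ f A Q hn hq two hf ha hA hQ hinv
  obtain ⟨t, ht, hreg⟩ := hq0 K V f A hn hq two hf ha hA
  obtain ⟨Q', hQ'⟩ := exists_adQ f A hA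
  have hQF := adQ_qf two f hf ha A Q' hQ'
  have h1 : ∀ v, Q' (t v) = Q' v := by
    intro v
    have h2 := adQ_sim f A hA.toIsTorGL Q' hQ' t ht.1 1 (fun v w => by
      rw [one_mul]
      exact ht.2.1 v w) v
    rwa [one_mul] at h2
  have h3 : Q = Q' := by
    funext v
    obtain ⟨u, rfl⟩ := hreg v
    have h4 := hQ.add (t (t u) - u) u
    have h5 := hQF.add (t (t u) - u) u
    rw [sub_add_cancel] at h4 h5
    rw [hinv t ht, hinv t ht] at h4
    rw [h1, h1] at h5
    linear_combination h5 - h4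
  rw [h3]
  exact hQ'

theorem row_zero (K V F : Type) [Field K] [Finite K] [AddCommGroup V] [Module K V]
    [FiniteDimensional K V] [Field F] [Algebra K F] [IsAlgClosed F] (two : (2 : K) = 0)
    (f : V → V → K) (hf : IsHF (RingHom.id K) 1 f)
    (A : Subalgebra K (Module.End K V)) (w : Fin (finrank K V) → (A →ₐ[K] F))
    (ρ : Module.End K V →ₐ[K] Matrix (Fin (finrank K V)) (Fin (finrank K V)) F)
    (bar : Fin (finrank K V) → Fin (finrank K V)) (hw : IsRho A w ρ) (hinv : ∀ i, bar (bar i) = i)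
    (hfix : ∀ i, bar i ≠ i)
    (hadj : ∀ S T, IsAdj f S T → ρ T = starM bar (fun _ => 1) (ρ S))
    (hz : ∀ z : Module.End K V, IsAdj f z z → (∀ k, ρ z k (bar k) = 0) → ∀ v, f (z v) v = 0)
    (d d' : A) (hd : IsAdj f (d : Module.End K V) d') (hdd : (d : Module.End K V) + d' = 1)
    (h : V ≃ₗ[K] V) (hh : h ∈ Isom f)
    (h0 : ∀ k, psiM bar (fun i => w i d) (ρ h.toLinearMap) none (some k) = 0) (v : V) :
    f ((d : Module.End K V) (h v)) (h v) = f ((d : Module.End K V) v) v := by
  have hsymm : ∀ v w, f v w = f w v := by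
    intro v w
    have := hf.herm v w
    rw [RingHom.id_apply, one_mul] at this
    exact this.symm
  have hneg : ∀ x : K, -x = x := by
    intro x
    linear_combination (-x) * two
  have hsub : ∀ x y u, f (x - y) u = f x u - f y u := by
    intro x y u
    have h1 := hf.add_left (x - y) y u
    rw [sub_add_cancel] at h1
    rw [h1]
    ring
  have hsub' : ∀ u x y, f u (x - y) = f u x - f u y := by
    intro u x y
    rw [hsymm, hsub, hsymm x, hsymm y]
  let hi : Module.End K V := h.symm.toLinearMap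
  let hl : Module.End K V := h.toLinearMap
  have hil : ∀ x, hi (h x) = x := fun x => h.symm_apply_apply x
  have hli : ∀ x, h (hi x) = x := fun x => h.apply_symm_apply x
  have hadj1 : IsAdj f hl hi := by
    intro x y
    have h1 := hh x (hi y)
    rw [hli] at h1
    exact h1
  have hρi := hadj hl hi hadj1
  set z : Module.End K V := hi * (d : Module.End K V) * hl - d with hzdef
  have hzv : ∀ x, z x = hi ((d : Module.End K V) (h x)) - (d : Module.End K V) x := fun x => rfl
  have hd' : ∀ x, (d' : Module.End K V) x = x - (d : Module.End K V) x := by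
    intro x
    have h1 : (d' : Module.End K V) = 1 - d := by
      rw [← hdd]
      abel
    rw [h1]
    rfl
  have hadjz : IsAdj f z z := by
    intro x y
    rw [hzv, hzv, hsub, hsub']
    have h1 : f (hi ((d : Module.End K V) (h x))) y = f x (hi ((d' : Module.End K V) (h y))) := by
      have h2 := hh (hi ((d : Module.End K V) (h x))) y
      rw [hli] at h2
      rw [← h2, hd (h x) (h y)]
      have h3 := hh x (hi ((d' : Module.End K V) (h y)))
      rw [hli] at h3
      exact h3
    rw [h1, hd x y, hd', hd', map_sub, hil, hsub', hsub']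
    linear_combination (f x ((d : Module.End K V) y) - f x (hi ((d : Module.End K V) (h y)))) * two
  have hcol : ∀ k, ρ z k (bar k) = 0 := by
    intro k
    have h1 : ρ z = ρ hi * ρ (d : Module.End K V) * ρ hl - ρ (d : Module.End K V) := by
      rw [hzdef, map_sub, map_mul, map_mul]
    rw [h1, hρi, hw.diag, Matrix.sub_apply, Matrix.diagonal_apply_ne _ (Ne.symm (hfix k)), sub_zero,
      Matrix.mul_apply]
    rw [← h0 (bar k)]
    show _ = ∑ i, w i d * ρ h.toLinearMap i (bar k) * ρ h.toLinearMap (bar i) (bar k)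
    refine Finset.sum_congr rfl (fun i _ => ?_)
    rw [Matrix.mul_diagonal]
    show 1 * 1 * ρ hl (bar i) (bar k) * w i d * ρ hl i (bar k) = _
    show 1 * 1 * ρ hl (bar i) (bar k) * w i d * ρ hl i (bar k) =
      w i d * ρ hl i (bar k) * ρ hl (bar i) (bar k)
    ring
  have hfin := hz z hadjz hcol v
  rw [hzv, hsub, sub_eq_zero] at hfin
  rw [← hfin]
  have h2 := hh (hi ((d : Module.End K V) (h v))) v
  rw [hli] at h2
  exact h2

end Pool.Agent.CTE
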