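import Pool.Agent.CTO.Mat0

/-!
# Psi: matrix level, characteristic two, definitions

`F` is an algebraically closed field of characteristic two, `bar` an involution of `Ω` without fixed points,
`b u v = ∑ k, u k * v (bar k)` the alternating form, `q0 v = ∑ k, q k * v k * v (bar k)` with
`q k + q (bar k) = 1` the quadratic form with polar form `b`, invariant under the torus `barT bar`.
For an isometry `x` of `b`, `psiM bar q x` is the matrix of the image of `x` under the isogeny from the
symplectic group to the orthogonal group in dimension `|Ω| + 1` (followed by the Frobenius map): its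
entries are the squares `x i j ^ 2`, and `q0 (x e_j)` in the row `none`.
-/

namespace Pool.Agent.CTE

open Matrix Pool.Agent.CTO

section

variable {F Ω : Type} [Field F] [Fintype Ω] [DecidableEq Ω]

/-- The matrix of the image of `x` in dimension `|Ω| + 1`. -/
def psiM (bar : Ω → Ω) (q : Ω → F) (x : Matrix Ω Ω F) : Matrix (Option Ω) (Option Ω) F :=
  of fun i j => match i, j with
    | some i, some j => x i j * x i j
    | none, some j => ∑ k, q k * x k j * x (bar k) j
    | none, none => 1
    | some _, none => 0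

/-- The image of the group `H`. -/
def psiG (bar : Ω → Ω) (q : Ω → F) (H : Subgroup (Matrix Ω Ω F)ˣ) :
    Subgroup (Matrix (Option Ω) (Option Ω) F)ˣ :=
  Subgroup.closure {y | ∃ h ∈ H, (y : Matrix (Option Ω) (Option Ω) F) = psiM bar q (h : Matrix Ω Ω F)}

/-- Characteristic two, `bar` an involution without fixed points, `q k + q (bar k) = 1`. -/
structure QB (bar : Ω → Ω) (q : Ω → F) : Prop where
  two : (2 : F) = 0
  inv : ∀ i, bar (bar i) = i
  nofix : ∀ i, bar i ≠ i
  sum : ∀ k, q k + q (bar k) = 1

/-- `H` is a group of isometries, and the torus `barT bar` and its conjugate by the isometry `g` lie in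
`ZD (2 * D) H`. -/
structure QSetup (bar : Ω → Ω) (q : Ω → F) (D : ℕ) (H : Subgroup (Matrix Ω Ω F)ˣ)
    (g : (Matrix Ω Ω F)ˣ) : Prop where
  qb : QB bar q
  D1 : 1 ≤ D
  gi : IsoM bar (fun _ => 1) (g : Matrix Ω Ω F)
  Hi : ∀ h ∈ H, IsoM bar (fun _ => 1) (h : Matrix Ω Ω F)
  T1 : ∀ z ∈ barT bar, ((dU z : (Matrix Ω Ω F)ˣ) : Matrix Ω Ω F) ∈ ZD (2 * D) H
  T2 : ∀ z ∈ barT bar, ((g * dU z * g⁻¹ : (Matrix Ω Ω F)ˣ) : Matrix Ω Ω F) ∈ ZD (2 * D) H
  span : SpanTop (HT (barT bar : Set (Ω → Fˣ)) g)

/-- The root vectors of the roots `n a + n b`. -/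
def Wt (bar : Ω → Ω) (a b : Ω) : Matrix (Option Ω) (Option Ω) F :=
  single (some a) (some (bar b)) 1 + single (some b) (some (bar a)) 1

/-- The root vectors in the row `none`. -/
def Rt (j : Ω) : Matrix (Option Ω) (Option Ω) F := single none (some j) 1

end

end Pool.Agent.CTE
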