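import Pool.Agent.CTE.Base
import Pool.Agent.CTE.Psi
import Pool.Agent.CTO.R5

/-!
# CTE.R5: diagonalization of a torus and of the form, characteristic two

The analogue of `CTO/R5.lean` (read its header and copy its construction). `n = dim V = card (Fin n)`. As there
one gets `w`, `ρ₀`, `bar` and a matrix `J'` with `(ρ₀ x)ᵀ J' = J' (ρ₀ x*)`, `J'_ij = 0` unless `i = bar j`,
`c_j = J'_(bar j) j ≠ 0`, `c_(bar j) = c_j` (`f` symmetric, `ε = 1`).
* `bar i ≠ i`: let `d + d* = 1` (`IsTor2.tr`): `w i d + w (bar i) d = 1`, so `bar i = i` would give `2 (w i d) = 0 = 1`.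
* Rescale by a diagonal matrix: `λ_j = 1`, `λ_(bar j) = c_j⁻¹` for `j < bar j`; then all `c_j` are `1`. So
  `ρ (x*) i j = (ρ x) (bar j) (bar i)`: `ρ T = starM bar (fun _ => 1) (ρ S)` for `IsAdj f S T`.
* the last statement: let `z` be selfadjoint, and `(ρ z) k (bar k) = 0` for all `k`. Then `f (z v) v = 0` for all
  `v`. Proof: the `F`-bilinear extension. The construction gives an injective `K`-linear map `θ : V → F^n`
  (`θ v = Λ⁻¹ P [v]`, `[v]` the coordinates in the basis `b_j v0`) with `θ (x v) = (ρ x) θ v` and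
  `f v v' = ∑ i, (θ v) i * (θ v') (bar i)`. Then
  `f (z v) v = ∑ i k, (ρ z) i k (θ v) k (θ v) (bar i)`; the terms with `k = bar i` are zero by assumption, and
  the terms `(i, k)` and `(bar k, bar i)` (different places, since `k ≠ bar i`) cancel as
  `(ρ z) i k = (ρ z) (bar k) (bar i)` (`z` selfadjoint) and the characteristic is two.
-/

namespace Pool.Agent.CTE

open Matrix Module Pool.Agent.CTO

section

variable {K V F : Type} [Field K] [Finite K] [AddCommGroup V] [Module K V] [FiniteDimensional K V]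
  [Field F] [Algebra K F] [IsAlgClosed F]

/-- a symmetric matrix with zero diagonal in characteristic two -/
theorem R5_alt {F : Type} [Field F] {n : ℕ} (two : (2 : F) = 0) (M : Matrix (Fin n) (Fin n) F)
    (hs : ∀ i j, M i j = M j i) (h0 : ∀ i, M i i = 0) (x : Fin n → F) : x ⬝ᵥ (M *ᵥ x) = 0 := by
  have e : x ⬝ᵥ (M *ᵥ x) = ∑ p : Fin n × Fin n, x p.1 * M p.1 p.2 * x p.2 := by
    rw [Fintype.sum_prod_type]
    unfold dotProduct Matrix.mulVec dotProduct
    refine Finset.sum_congr rfl fun i _ => ?_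
    rw [Finset.mul_sum]
    refine Finset.sum_congr rfl fun j _ => ?_
    ring
  rw [e]
  refine Finset.sum_involution (fun p _ => (p.2, p.1)) ?_ ?_ ?_ ?_
  · intro p _
    show x p.1 * M p.1 p.2 * x p.2 + x p.2 * M p.2 p.1 * x p.1 = 0
    rw [hs p.2 p.1]
    linear_combination (x p.1 * M p.1 p.2 * x p.2) * two
  · intro p _ hp heq
    apply hp
    have h1 : p.2 = p.1 := congrArg Prod.fst heq
    show x p.1 * M p.1 p.2 * x p.2 = 0
    rw [h1, h0, mul_zero, zero_mul]
  · intro p _
    exact Finset.mem_univ _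
  · intro p _
    rfl

omit [Finite K] [FiniteDimensional K V] [IsAlgClosed F] in
/-- the form in coordinates -/
theorem R5_form {ε : K} {f : V → V → K} (hf : IsHF (RingHom.id K) ε f) {n : ℕ}
    (bv : Basis (Fin n) K V) (u u' : V) :
    algebraMap K F (f u u') = (fun i => algebraMap K F (bv.repr u i)) ⬝ᵥ
      (((of fun i j => f (bv i) (bv j) : Matrix (Fin n) (Fin n) K).map (algebraMap K F)) *ᵥ
        (fun i => algebraMap K F (bv.repr u' i))) := by
  have h1 : ∀ u w : V, f u w = R5B hf u w := fun u w => rfl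
  have h2 : ∀ x y : V, f x y = ∑ i, bv.repr x i * f (bv i) y := by
    intro x y
    conv_lhs => rw [← bv.sum_repr x]
    rw [h1, map_sum, LinearMap.sum_apply]
    refine Finset.sum_congr rfl fun i _ => ?_
    rw [map_smul, LinearMap.smul_apply, smul_eq_mul, ← h1]
  have h3 : ∀ x y : V, f x y = ∑ j, f x (bv j) * bv.repr y j := by
    intro x y
    conv_lhs => rw [← bv.sum_repr y]
    rw [h1, map_sum]
    refine Finset.sum_congr rfl fun j _ => ?_
    rw [map_smul, smul_eq_mul, ← h1, mul_comm]
  rw [h2 u u', map_sum]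
  unfold dotProduct Matrix.mulVec dotProduct
  refine Finset.sum_congr rfl fun i _ => ?_
  rw [map_mul, h3 (bv i) u', map_sum]
  congr 1
  refine Finset.sum_congr rfl fun j _ => ?_
  rw [map_mul]
  rfl

theorem exists_rho_form2 (two : (2 : K) = 0) (f : V → V → K) (hf : IsHF (RingHom.id K) 1 f)
    (ha : Alt f) (A : Subalgebra K (Module.End K V)) (hA : IsTor2 f A) :
    ∃ (w : Fin (finrank K V) → (A →ₐ[K] F))
      (ρ : Module.End K V →ₐ[K] Matrix (Fin (finrank K V)) (Fin (finrank K V)) F)
      (bar : Fin (finrank K V) → Fin (finrank K V)),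
      IsRho A w ρ ∧ (∀ i, bar (bar i) = i) ∧ (∀ i, bar i ≠ i) ∧
      (∀ S T, IsAdj f S T → ρ T = starM bar (fun _ => 1) (ρ S)) ∧
      (∀ (i : Fin (finrank K V)) (a b : A), IsAdj f (a : Module.End K V) b → w (bar i) a = w i b) ∧
      (∀ z : Module.End K V, IsAdj f z z → (∀ k, ρ z k (bar k) = 0) → ∀ v, f (z v) v = 0) := by
  have twoF : (2 : F) = 0 := by
    rw [← map_ofNat (algebraMap K F) 2, two, map_zero]
  classical
  obtain ⟨w, v0, bv, P, hw, hv0, hv1, hd⟩ := R4data (F := F) A hA.toIsTor.toIsTorGL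
  set Q : Matrix (Fin (finrank K V)) (Fin (finrank K V)) F := (↑P⁻¹ : Matrix (Fin (finrank K V)) (Fin (finrank K V)) F) with hQ
  have hPQ : (P : Matrix _ _ F) * Q = 1 := P.mul_inv
  have hQP : Q * (P : Matrix _ _ F) = 1 := P.inv_mul
  set J : Matrix (Fin (finrank K V)) (Fin (finrank K V)) K := of fun i j => f (bv i) (bv j) with hJ
  set J' : Matrix (Fin (finrank K V)) (Fin (finrank K V)) F :=
    Qᵀ * J.map (algebraMap K F) * Q with hJ'
  have hJu : IsUnit J' := by
    have h1 : IsUnit Q := P⁻¹.isUnit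
    have h2 : IsUnit (J.map (algebraMap K F)) := by
      have := (R5_gram_unit hf bv).map (RingHom.mapMatrix (algebraMap K F))
      exact this
    have h3 : IsUnit Qᵀ := by
      rw [Matrix.isUnit_transpose]
      exact h1
    exact (h3.mul h2).mul h1
  have hJt : ∀ i j, J' j i = J' i j := by
    have h1 : Jᵀ = J := by
      ext i j
      have h2 := hf.herm (bv i) (bv j)
      simp only [RingHom.id_apply, one_mul] at h2
      rw [Matrix.transpose_apply, hJ, of_apply, of_apply]
      exact h2
    have h3 : J'ᵀ = J' := by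
      have h4 : (J.map (algebraMap K F))ᵀ = J.map (algebraMap K F) := by
        rw [← Matrix.transpose_map, h1]
      rw [hJ', Matrix.transpose_mul, Matrix.transpose_mul, Matrix.transpose_transpose, h4,
        ← Matrix.mul_assoc]
    intro i j
    exact congrFun (congrFun h3 i) j
  have hadj : ∀ S T, IsAdj f S T → (R4rho bv P S)ᵀ * J' = J' * R4rho bv P T := by
    intro S T hST
    have h1 := R5_gram hf bv hST
    have h2 : ((LinearMap.toMatrixAlgEquiv bv S).map (algebraMap K F))ᵀ * J.map (algebraMap K F) =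
        J.map (algebraMap K F) * (LinearMap.toMatrixAlgEquiv bv T).map (algebraMap K F) := by
      rw [← Matrix.transpose_map, ← Matrix.map_mul, ← Matrix.map_mul, h1]
    rw [R4rho_apply, R4rho_apply, Matrix.transpose_mul, Matrix.transpose_mul, hJ', ← hQ]
    have h3 : (P : Matrix _ _ F)ᵀ * Qᵀ = 1 := by
      rw [← Matrix.transpose_mul, hQP, Matrix.transpose_one]
    calc Qᵀ * (((LinearMap.toMatrixAlgEquiv bv S).map (algebraMap K F))ᵀ * (P : Matrix _ _ F)ᵀ) *
          (Qᵀ * J.map (algebraMap K F) * Q)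
        = Qᵀ * ((LinearMap.toMatrixAlgEquiv bv S).map (algebraMap K F))ᵀ *
          ((P : Matrix _ _ F)ᵀ * Qᵀ) * (J.map (algebraMap K F) * Q) := by
          simp only [Matrix.mul_assoc]
      _ = Qᵀ * (((LinearMap.toMatrixAlgEquiv bv S).map (algebraMap K F))ᵀ *
          J.map (algebraMap K F)) * Q := by
          rw [h3, Matrix.mul_one]
          simp only [Matrix.mul_assoc]
      _ = Qᵀ * (J.map (algebraMap K F) * (LinearMap.toMatrixAlgEquiv bv T).map (algebraMap K F)) *
          Q := by rw [h2]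
      _ = Qᵀ * J.map (algebraMap K F) * (Q * (P : Matrix _ _ F)) *
          ((LinearMap.toMatrixAlgEquiv bv T).map (algebraMap K F) * Q) := by
          rw [hQP, Matrix.mul_one]
          simp only [Matrix.mul_assoc]
      _ = Qᵀ * J.map (algebraMap K F) * Q *
          ((P : Matrix _ _ F) * (LinearMap.toMatrixAlgEquiv bv T).map (algebraMap K F) * Q) := by
          simp only [Matrix.mul_assoc]
  have hwJ : ∀ (a b : A), IsAdj f (a : Module.End K V) b → ∀ i j,
      w i a * J' i j = J' i j * w j b := by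
    intro a b hab i j
    have h1 := hadj _ _ hab
    rw [hd, hd, Matrix.diagonal_transpose] at h1
    have h2 := congrFun (congrFun h1 i) j
    rw [Matrix.diagonal_mul, Matrix.mul_diagonal] at h2
    exact h2
  have hcol : ∀ j, ∃ i, J' i j ≠ 0 := by
    intro j
    by_contra hcon
    push Not at hcon
    obtain ⟨U, hU⟩ := hJu
    have h1 : (↑U⁻¹ : Matrix (Fin (finrank K V)) (Fin (finrank K V)) F) * J' = 1 := by
      rw [← hU]
      exact U.inv_mul
    have h2 := congrFun (congrFun h1 j) j
    rw [Matrix.mul_apply, Matrix.one_apply_eq] at h2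
    have h3 : ∑ k, (↑U⁻¹ : Matrix (Fin (finrank K V)) (Fin (finrank K V)) F) j k * J' k j = 0 :=
      Finset.sum_eq_zero fun k _ => by rw [hcon k, mul_zero]
    rw [h3] at h2
    exact zero_ne_one h2
  choose bar hbar using hcol
  have huniq : ∀ i j, J' i j ≠ 0 → i = bar j := by
    intro i j hij
    apply hw.1
    ext a
    obtain ⟨b, hb, hab⟩ := hA.star a a.2
    have h1 := hwJ a ⟨b, hb⟩ hab i j
    have h2 := hwJ a ⟨b, hb⟩ hab (bar j) j
    rw [mul_comm] at h1 h2
    have h3 := mul_left_cancel₀ hij h1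
    have h4 := mul_left_cancel₀ (hbar j) h2
    rw [h3, h4]
  have hzero : ∀ i j, i ≠ bar j → J' i j = 0 := fun i j h => by
    by_contra hne
    exact h (huniq i j hne)
  have hinv : ∀ j, bar (bar j) = j := by
    intro j
    have h1 : J' j (bar j) ≠ 0 := by
      rw [hJt (bar j) j]
      exact hbar j
    exact (huniq _ _ h1).symm
  set c : Fin (finrank K V) → F := fun j => J' (bar j) j with hc
  have hc0 : ∀ j, c j ≠ 0 := hbar
  have hcbar : ∀ j, c (bar j) = c j := by
    intro j
    change J' (bar (bar j)) (bar j) = _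
    rw [hinv, hJt (bar j) j]
  have hnofix : ∀ j, bar j ≠ j := by
    intro j hj
    obtain ⟨d, hdA, d', hdA', hdd, hsum⟩ := hA.tr
    have h1 := hwJ ⟨d, hdA⟩ ⟨d', hdA'⟩ hdd (bar j) j
    rw [hj, mul_comm] at h1
    have h2 := mul_left_cancel₀ (by have := hbar j; rw [hj] at this; exact this) h1
    have h3 : w j ⟨d, hdA⟩ + w j ⟨d', hdA'⟩ = 1 := by
      rw [← map_add]
      have : (⟨d, hdA⟩ + ⟨d', hdA'⟩ : A) = 1 := Subtype.ext hsum
      rw [this, map_one]
    rw [← h2, ← two_mul, twoF, zero_mul] at h3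
    exact zero_ne_one h3
  have hlam : ∃ lam : Fin (finrank K V) → F, (∀ j, lam j ≠ 0) ∧
      ∀ j, lam (bar j) * lam j * c j = 1 := by
    refine ⟨fun j => if j < bar j then 1 else (c (bar j))⁻¹, ?_, ?_⟩
    · intro j
      dsimp only
      split_ifs
      · exact one_ne_zero
      · exact inv_ne_zero (hc0 _)
    · intro j
      dsimp only
      rw [hinv]
      by_cases h2 : j < bar j
      · rw [if_pos h2, if_neg (not_lt.mpr h2.le), mul_one, inv_mul_cancel₀ (hc0 j)]
      · have h3 : bar j < j := lt_of_le_of_ne (not_lt.mp h2) (hnofix j)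
        rw [if_neg h2, if_pos h3, one_mul, hcbar j, inv_mul_cancel₀ (hc0 j)]
  obtain ⟨lam, hlam0, hlam1⟩ := hlam
  let L : (Matrix (Fin (finrank K V)) (Fin (finrank K V)) F)ˣ :=
    dU (fun i => Units.mk0 (lam i) (hlam0 i))
  have hL : (L : Matrix _ _ F) = diagonal lam := rfl
  have hLi : (↑L⁻¹ : Matrix (Fin (finrank K V)) (Fin (finrank K V)) F) =
      diagonal fun i => (lam i)⁻¹ := by
    ext i j
    change (diagonal fun i => (((Units.mk0 (lam i) (hlam0 i))⁻¹ : Fˣ) : F)) i j = _
    simp
  have hrho : ∀ x i j, R4rho bv (L⁻¹ * P) x i j = (lam i)⁻¹ * R4rho bv P x i j * lam j := by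
    intro x i j
    rw [R5rho_mul, inv_inv, hLi, hL, Matrix.mul_diagonal, Matrix.diagonal_mul]
  refine ⟨w, R4rho bv (L⁻¹ * P), bar, ⟨hw, R4rho_inj bv _, ?_, R4rho_span bv _⟩,
    hinv, hnofix, ?_, ?_, ?_⟩
  · intro a
    ext i j
    rw [hrho, hd]
    simp only [Matrix.diagonal_apply]
    split_ifs with hij
    · subst hij
      rw [mul_comm, ← mul_assoc, mul_inv_cancel₀ (hlam0 i), one_mul]
    · rw [mul_zero, zero_mul]
  · intro S T hST
    ext i j
    have h1 := congrFun (congrFun (hadj S T hST) (bar i)) j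
    rw [Matrix.mul_apply, Matrix.mul_apply] at h1
    simp only [Matrix.transpose_apply] at h1
    rw [Finset.sum_eq_single (bar j), Finset.sum_eq_single i] at h1
    · change R4rho bv (L⁻¹ * P) T i j = 1 * 1 * R4rho bv (L⁻¹ * P) S (bar j) (bar i)
      rw [hrho, hrho]
      change R4rho bv P S (bar j) (bar i) * c j = c i * R4rho bv P T i j at h1
      have l1 := hlam0 i
      have l2 := hlam0 j
      have l3 := hlam0 (bar i)
      have l4 := hlam0 (bar j)
      have c1 := hc0 i
      have c2 := hc0 j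
      have e2 : R4rho bv P S (bar j) (bar i) = c i * R4rho bv P T i j * (c j)⁻¹ := by
        rw [← h1, mul_assoc, mul_inv_cancel₀ c2, mul_one]
      have e3 : lam (bar i) * c i = (lam i)⁻¹ := by
        have := hlam1 i
        field_simp
        linear_combination this
      have e4 : (lam (bar j))⁻¹ * (c j)⁻¹ = lam j := by
        have := hlam1 j
        field_simp
        linear_combination -this
      rw [e2, ← e3, ← e4]
      ring
    · intro k _ hk
      rw [hzero _ _ (fun h => hk ?_), zero_mul]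
      have := congrArg bar h
      rw [hinv, hinv] at this
      exact this.symm
    · intro h
      exact absurd (Finset.mem_univ _) h
    · intro k _ hk
      rw [hzero _ _ hk, mul_zero]
    · intro h
      exact absurd (Finset.mem_univ _) h
  · intro i a b hab
    have h1 := hwJ a b hab (bar i) i
    rw [mul_comm] at h1
    exact mul_left_cancel₀ (hbar i) h1
  · intro z hz hz0 v
    -- coordinates
    obtain ⟨φ, hφ⟩ : ∃ φ : V → Fin (finrank K V) → F,
      ∀ u, φ u = (P : Matrix _ _ F) *ᵥ (fun i => algebraMap K F (bv.repr u i)) := ⟨_, fun _ => rfl⟩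
    have hQφ : ∀ x : V, (fun i => algebraMap K F (bv.repr x i)) = Q *ᵥ φ x := by
      intro x
      rw [hφ, Matrix.mulVec_mulVec, hQP, Matrix.one_mulVec]
    have hform : ∀ u u' : V, algebraMap K F (f u u') = φ u ⬝ᵥ (J' *ᵥ φ u') := by
      intro u u'
      rw [R5_form hf bv u u', hQφ u, hQφ u', hJ']
      have e1 : (J.map (algebraMap K F)) *ᵥ (Q *ᵥ φ u') = (J.map (algebraMap K F) * Q) *ᵥ φ u' :=
        Matrix.mulVec_mulVec _ _ _
      have e2 : ∀ y, (Q *ᵥ φ u) ⬝ᵥ y = φ u ⬝ᵥ (Qᵀ *ᵥ y) := by
        intro y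
        rw [Matrix.dotProduct_mulVec, Matrix.vecMul_transpose]
      rw [e2, e1, Matrix.mulVec_mulVec, Matrix.mul_assoc]
    have hact : φ (z v) = R4rho bv P z *ᵥ φ v := by
      have e1 : (fun i => algebraMap K F (bv.repr (z v) i)) =
          ((LinearMap.toMatrixAlgEquiv bv z).map (algebraMap K F)) *ᵥ
            (fun i => algebraMap K F (bv.repr v i)) := by
        funext i
        have h3 : bv.repr (z v) i = ∑ j, LinearMap.toMatrixAlgEquiv bv z i j * bv.repr v j := by
          conv_lhs => rw [← bv.sum_repr v]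
          rw [map_sum, map_sum, Finsupp.finsetSum_apply]
          refine Finset.sum_congr rfl fun j _ => ?_
          rw [map_smul, map_smul, Finsupp.smul_apply, smul_eq_mul, LinearMap.toMatrixAlgEquiv_apply,
            mul_comm]
        rw [h3, map_sum]
        unfold Matrix.mulVec dotProduct
        refine Finset.sum_congr rfl fun j _ => ?_
        rw [map_mul]
        rfl
      rw [hφ (z v), e1, hQφ v, R4rho_apply, Matrix.mulVec_mulVec, Matrix.mulVec_mulVec]
    have hsym := hadj z z hz
    obtain ⟨M, hM⟩ : ∃ M, M = (R4rho bv P z)ᵀ * J' := ⟨_, rfl⟩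
    have hJs : J'ᵀ = J' := by
      ext i j
      exact hJt i j
    have hMs : ∀ i j, M i j = M j i := by
      have : Mᵀ = M := by
        rw [hM, Matrix.transpose_mul, Matrix.transpose_transpose, hJs, hsym]
      intro i j
      exact (congrFun (congrFun this j) i)
    have hM0 : ∀ j, M j j = 0 := by
      intro j
      rw [hM, Matrix.mul_apply, Finset.sum_eq_single (bar j)]
      · have h1 := hz0 (bar j)
        rw [hinv, hrho] at h1
        have h2 : R4rho bv P z (bar j) j = 0 := by
          rcases mul_eq_zero.1 h1 with h3 | h3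
          · rcases mul_eq_zero.1 h3 with h4 | h4
            · exact absurd h4 (inv_ne_zero (hlam0 _))
            · exact h4
          · exact absurd h3 (hlam0 _)
        rw [Matrix.transpose_apply, h2, zero_mul]
      · intro k _ hk
        rw [hzero _ _ hk, mul_zero]
      · intro h
        exact absurd (Finset.mem_univ _) h
    apply (algebraMap K F).injective
    rw [map_zero, hform, hact]
    have e3 : (R4rho bv P z *ᵥ φ v) ⬝ᵥ (J' *ᵥ φ v) = φ v ⬝ᵥ (M *ᵥ φ v) := by
      have e4 : M *ᵥ φ v = (R4rho bv P z)ᵀ *ᵥ (J' *ᵥ φ v) := by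
        rw [hM, Matrix.mulVec_mulVec]
      rw [e4, Matrix.dotProduct_mulVec (φ v), Matrix.vecMul_transpose]
    rw [e3]
    exact R5_alt twoF M hMs hM0 (φ v)

end

end Pool.Agent.CTE
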