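import Pool.Agent.CTE.B1
import Pool.Agent.CTE.R5
import Pool.Agent.CTO.R6
import Pool.Agent.CTO.I0
import Pool.Agent.CTO.A2

/-!
# CTE.B2g: generation and invariance for large fields, characteristic two

`F = AlgebraicClosure K`, `N = dim V`, `w`, `ρ`, `bar` from `exists_rho_form2`; `T0 w T` as in `CTO/I0.lean`, and
`dens_tor` (`CTO/R6.lean`; it does not use the characteristic): polynomials of degree `≤ D` vanishing on
`T0 w (tor ..)` vanish on `barT bar`, if `2 D N + N < |K|`.
* `gen_tor2`: the squares of the torus generate the algebra: same proof as `gen_tor` in `CTO/A2.lean` (copy it,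
  with `bar i ≠ i` for all `i`).
-/

namespace Pool.Agent.CTE

open Matrix Module Pool.Agent.CTO

theorem gen_tor2 (n : ℕ) : ∃ q0 : ℕ, ∀ (K V : Type) [Field K] [Finite K] [AddCommGroup V]
    [Module K V] [FiniteDimensional K V] (f : V → V → K) (A : Subalgebra K (Module.End K V)),
    finrank K V = n → q0 ≤ Nat.card K → (2 : K) = 0 → IsHF (RingHom.id K) 1 f → Alt f →
    IsTor2 f A → A ≤ Algebra.adjoin K (EndSet (sq (tor (RingHom.id K) f A))) := by
  refine ⟨3 * n + 1, ?_⟩
  intro K V _ _ _ _ _ f A hn hq two hf ha hA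
  classical
  subst hn
  obtain ⟨w, ρ, bar, hρ, hinv, hnf, -, hbar, -⟩ :=
    exists_rho_form2 (F := AlgebraicClosure K) two f hf ha A hA
  have hle : tor (RingHom.id K) f A ≤ torGL A := fun g hg => hg.1
  refine A2_core (F := AlgebraicClosure K) A _ (A2_sq A _ hle) (finrank K V) hA.rank w ?_
  intro i j hij
  have hd := dens_tor 1 f hf A hA.toIsTor w hρ.bij bar hbar 1 (by omega)
  have h1 := hd (MvPolynomial.X i - MvPolynomial.X j) (by
    refine (MvPolynomial.totalDegree_sub _ _).trans ?_
    rw [MvPolynomial.totalDegree_X, MvPolynomial.totalDegree_X, max_self]) (by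
    rintro z ⟨t, ⟨g, hg, hgt⟩, hz⟩
    rw [map_sub, MvPolynomial.eval_X, MvPolynomial.eval_X, hz, hz, sub_eq_zero]
    have h2 := hij _ (A2_mem hg)
    have h3 : (⟨g.toLinearMap * g.toLinearMap, A2_sq A _ hle (A2_mem hg)⟩ : A) = t * t := by
      apply Subtype.ext
      change g.toLinearMap * g.toLinearMap = (t : Module.End K V) * t
      rw [hgt]
    rw [h3] at h2
    exact h2)
  have h2 : ∀ z ∈ (barT bar : Set (Fin (finrank K V) → (AlgebraicClosure K)ˣ)),
      (z i : AlgebraicClosure K) = z j := by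
    intro z hz
    have h3 := h1 z hz
    rw [map_sub, MvPolynomial.eval_X, MvPolynomial.eval_X, sub_eq_zero] at h3
    exact h3
  obtain ⟨u, hu⟩ : ∃ u : (AlgebraicClosure K)ˣ, u * u ≠ 1 := by
    have : Infinite (AlgebraicClosure K) := IsAlgClosed.instInfinite
    obtain ⟨x, hx⟩ := Infinite.exists_notMem_finset ({0, 1, -1} : Finset (AlgebraicClosure K))
    simp only [Finset.mem_insert, Finset.mem_singleton, not_or] at hx
    refine ⟨Units.mk0 x hx.1, ?_⟩
    intro h3
    have h4 : x * x = 1 := congrArg Units.val h3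
    rcases mul_self_eq_one_iff.1 h4 with h5 | h5
    · exact hx.2.1 h5
    · exact hx.2.2 h5
  by_contra hne
  exact A2_barT bar hinv u hu i j (hnf i) hne h2

end Pool.Agent.CTE
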