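import Pool.Agent.CTO.Pron

/-!
# MP_0dcdae_al, types B, C, D in characteristic two: basic definitions

`K` is a field of characteristic two, `f` a nondegenerate alternating form on `V` (`IsHF (RingHom.id K) 1 f`,
`Alt f`); for the unitary groups `f` is a nondegenerate hermitian form (`IsHF σ ε f`, `σ ≠ id`).

A maximal torus of the symplectic group is described by its algebra: `IsTor2 f A` says that `IsTor f A`
and that there is `d ∈ A` with `d + d* = 1`. (In characteristic two the condition on the skew element in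
`IsTor` is void: `d = 1`.) A torus algebra has a unique invariant quadratic form with polar form `f`,
`Q v = f (d v) v` (`AdQ f A Q`). To treat the symplectic and the orthogonal groups together we use a
function `Q : V → K` which is either zero (symplectic case) or the quadratic form of `A` (`Mode f A Q`).
-/

namespace Pool.Agent.CTE

open Module Pool.Agent.CTO

section defs

variable {K V : Type} [Field K] [AddCommGroup V] [Module K V]

/-- `f` is alternating. -/
def Alt (f : V → V → K) : Prop := ∀ v, f v v = 0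

/-- The algebra of a maximal torus, characteristic two: there is `d ∈ A` with `d + d* = 1`. -/
structure IsTor2 (f : V → V → K) (A : Subalgebra K (Module.End K V)) : Prop extends IsTor f A where
  tr : ∃ d ∈ A, ∃ d' ∈ A, IsAdj f d d' ∧ d + d' = 1

/-- `Q` is a quadratic form with polar form `f`. -/
structure IsQF (f : V → V → K) (Q : V → K) : Prop where
  smul : ∀ (a : K) (v : V), Q (a • v) = a * a * Q v
  add : ∀ v w, Q (v + w) = Q v + Q w + f v w

/-- `Q` is the quadratic form of the torus algebra `A`. -/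
def AdQ (f : V → V → K) (A : Subalgebra K (Module.End K V)) (Q : V → K) : Prop :=
  ∃ d ∈ A, ∃ d' ∈ A, IsAdj f d d' ∧ d + d' = 1 ∧ ∀ v, Q v = f (d v) v

/-- Symplectic mode: `Q = 0`; orthogonal mode: `Q` is the quadratic form of `A`. -/
def Mode (f : V → V → K) (A : Subalgebra K (Module.End K V)) (Q : V → K) : Prop :=
  (∀ v, Q v = 0) ∨ AdQ f A Q

/-- The isometries of `f` and `Q`. -/
def OQ (f : V → V → K) (Q : V → K) : Subgroup (V ≃ₗ[K] V) where
  carrier := {g | g ∈ Isom f ∧ ∀ v, Q (g v) = Q v}
  mul_mem' := by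
    rintro a b ⟨ha, ha'⟩ ⟨hb, hb'⟩
    refine ⟨mul_mem ha hb, fun v => ?_⟩
    rw [LinearEquiv.mul_apply, ha', hb']
  one_mem' := ⟨one_mem _, fun v => rfl⟩
  inv_mem' := by
    rintro a ⟨ha, ha'⟩
    refine ⟨inv_mem ha, fun v => ?_⟩
    have h1 : a (a⁻¹ v) = v := LinearEquiv.apply_symm_apply a v
    rw [← ha' (a⁻¹ v), h1]

lemma mem_OQ {f : V → V → K} {Q : V → K} {g : V ≃ₗ[K] V} :
    g ∈ OQ f Q ↔ g ∈ Isom f ∧ ∀ v, Q (g v) = Q v := Iff.rfl

/-- The similitudes of `f` and `Q`. -/
def SimQ (f : V → V → K) (Q : V → K) : Subgroup (V ≃ₗ[K] V) where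
  carrier := {g | ∃ μ : Kˣ, (∀ v w, f (g v) (g w) = (μ : K) * f v w) ∧ ∀ v, Q (g v) = (μ : K) * Q v}
  mul_mem' := by
    rintro a b ⟨μ, h1, h2⟩ ⟨ν, h3, h4⟩
    refine ⟨μ * ν, fun v w => ?_, fun v => ?_⟩
    · simp only [LinearEquiv.mul_apply]
      rw [h1, h3, Units.val_mul, mul_assoc]
    · simp only [LinearEquiv.mul_apply]
      rw [h2, h4, Units.val_mul, mul_assoc]
  one_mem' := ⟨1, fun v w => by simp, fun v => by simp⟩
  inv_mem' := by
    rintro a ⟨μ, h1, h2⟩
    have h0 : ∀ u, a (a⁻¹ u) = u := fun u => LinearEquiv.apply_symm_apply a u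
    refine ⟨μ⁻¹, fun v w => ?_, fun v => ?_⟩
    · have h3 := h1 (a⁻¹ v) (a⁻¹ w)
      rw [h0, h0] at h3
      rw [h3, ← mul_assoc, Units.inv_mul, one_mul]
    · have h3 := h2 (a⁻¹ v)
      rw [h0] at h3
      rw [h3, ← mul_assoc, Units.inv_mul, one_mul]

/-- The subspaces `W`, `W'` with the forms induced by `f` and `Q` are isometric. -/
def IsoSpQ (f : V → V → K) (Q : V → K) (W W' : Submodule K V) : Prop :=
  ∃ φ : W ≃ₗ[K] W', (∀ v w : W, f (φ v) (φ w) = f v w) ∧ ∀ v : W, Q (φ v) = Q v

/-- The function `Q` on the subspace `W`. -/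
def resQ (Q : V → K) (W : Submodule K V) : W → K := fun v => Q v

/-- The selfadjoint idempotents of `A` with isometric images have isomorphic algebras with
involution. -/
def CritQ (f : V → V → K) (Q : V → K) (A : Subalgebra K (Module.End K V)) : Prop :=
  ∀ e ∈ A, ∀ e' ∈ A, e * e = e → IsAdj f e e → e' * e' = e' → IsAdj f e' e' →
    IsoSpQ f Q (LinearMap.range e) (LinearMap.range e') →
    SIso (resF f (LinearMap.range e)) (restr A (LinearMap.range e))
      (resF f (LinearMap.range e')) (restr A (LinearMap.range e'))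

/-- The Siegel transformations `x ↦ x + f(x,u) w + f(x,w) u + Q(w) f(x,u) u`, `u` singular, `w` orthogonal
to `u`. -/
def SiegSet (f : V → V → K) (Q : V → K) : Set (V ≃ₗ[K] V) :=
  {g | ∃ u w : V, Q u = 0 ∧ f w u = 0 ∧
    ∀ x, g x = x + f x u • w + f x w • u + (Q w * f x u) • u}

/-- The group generated by the Siegel transformations. -/
def EUQ (f : V → V → K) (Q : V → K) : Subgroup (V ≃ₗ[K] V) := Subgroup.closure (SiegSet f Q)

/-- `g` is the reflection (orthogonal transvection) in the nonsingular vector `u`. -/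
def IsReflQ (f : V → V → K) (Q : V → K) (u : V) (g : V ≃ₗ[K] V) : Prop :=
  Q u ≠ 0 ∧ ∀ x, g x = x + (f x u / Q u) • u

/-- The Dickson invariant of `g` is zero: the rank of `g - 1` is even. -/
def DickEven (g : V ≃ₗ[K] V) : Prop :=
  Even (finrank K (LinearMap.range (g.toLinearMap - LinearMap.id)))

end defs

end Pool.Agent.CTE
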