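import Pool.Agent.CTE.Base
import Pool.Agent.CTO.C1

/-!
# CTE.C1u: upper bound for the order of the unitary groups, characteristic two

Let `θ + σ θ = 1`. Units `u ≠ 1` of norm one: `u ↦ (θ u + σ θ) / (u + 1)` is an injection into the fixed
field. `x ↦ (x + σ x, θ x + σ (θ x))` is an injection of `K` into the square of the fixed field.
-/

namespace Pool.Agent.CTE

open Module Pool.Agent.CTO

variable {K V : Type} [Field K] [Finite K] [AddCommGroup V] [Module K V] [FiniteDimensional K V]

theorem card_U2_le (two : (2 : K) = 0) (σ : K →+* K) (hσ : ∃ k, σ k ≠ k) (ε : K) (f : V → V → K)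
    (hf : IsHF σ ε f) :
    Nat.card (Isom f) ≤ 2 ^ finrank K V * Nat.card {k : K // σ k = k} ^ (finrank K V ^ 2) := by
  classical
  set Q0 := Nat.card {k : K // σ k = k} with hQ0
  have hQ0pos : 1 ≤ Q0 := by
    have : Nonempty {k : K // σ k = k} := ⟨⟨1, map_one σ⟩⟩
    exact Nat.card_pos
  have hfix : {k : K | σ k = k}.ncard = Q0 := rfl
  -- an element of trace one
  obtain ⟨θ, hθ⟩ : ∃ θ : K, θ + σ θ = 1 := by
    obtain ⟨k, hk⟩ := hσ
    have hs : k + σ k ≠ 0 := by
      intro h
      apply hk
      linear_combination h - k * two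
    have hσs : σ (k + σ k) = k + σ k := by rw [map_add, hf.invol, add_comm]
    refine ⟨k / (k + σ k), ?_⟩
    rw [map_div₀, hσs, ← add_div, div_self hs]
  have hσθ : σ (σ θ) = θ := hf.invol θ
  -- units of norm one
  have hunit : {u : K | u * σ u = 1}.ncard ≤ 2 * Q0 := by
    have hsub : {u : K | u * σ u = 1} ⊆ {1} ∪ {u : K | u * σ u = 1 ∧ u ≠ 1} := by
      intro u hu
      by_cases h : u = 1
      · exact Or.inl h
      · exact Or.inr ⟨hu, h⟩
    have hne : ∀ u : K, u ≠ 1 → u + 1 ≠ 0 := by
      intro u hu h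
      apply hu
      linear_combination h - two
    have h1 : {u : K | u * σ u = 1 ∧ u ≠ 1}.ncard ≤ Q0 := by
      rw [← hfix]
      apply Set.ncard_le_ncard_of_injOn (fun u => (θ * u + σ θ) / (u + 1))
      · rintro u ⟨hu, hu1⟩
        show σ ((θ * u + σ θ) / (u + 1)) = (θ * u + σ θ) / (u + 1)
        have hu0 : u ≠ 0 := by
          intro h0
          rw [h0, zero_mul] at hu
          exact zero_ne_one hu
        have hσu : σ u = u⁻¹ := eq_inv_of_mul_eq_one_right hu
        have hu1' : u + 1 ≠ 0 := hne u hu1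
        have hu2 : 1 + u ≠ 0 := by rw [add_comm]; exact hu1'
        rw [map_div₀, map_add, map_add, map_mul, map_one, hσu, hσθ]
        field_simp
        ring
      · rintro u ⟨hu, hu1⟩ u' ⟨hu', hu1'⟩ huu
        have a1 : u + 1 ≠ 0 := hne u hu1
        have a2 : u' + 1 ≠ 0 := hne u' hu1'
        have h3 : (θ * u + σ θ) / (u + 1) = (θ * u' + σ θ) / (u' + 1) := huu
        rw [div_eq_div_iff a1 a2] at h3
        have h4 : (θ + σ θ) * (u - u') = 0 := by linear_combination h3 + (σ θ * (u - u')) * two
        rw [hθ, one_mul] at h4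
        exact sub_eq_zero.1 h4
    have h2 := (Set.ncard_le_ncard hsub (Set.toFinite _)).trans (Set.ncard_union_le _ _)
    rw [Set.ncard_singleton] at h2
    omega
  have hM : ∀ t₀ : K, {t : K | t * σ t = t₀ * σ t₀}.ncard ≤ 2 * Q0 := by
    intro t₀
    by_cases h0 : t₀ = 0
    · have hsub : {t : K | t * σ t = t₀ * σ t₀} ⊆ {0} := by
        intro t ht
        have ht' : t * σ t = t₀ * σ t₀ := ht
        rw [h0, zero_mul] at ht'
        rcases mul_eq_zero.1 ht' with h | h
        · exact h
        · exact (map_eq_zero σ).1 h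
      refine (Set.ncard_le_ncard hsub (Set.finite_singleton 0)).trans ?_
      rw [Set.ncard_singleton]
      omega
    · refine le_trans ?_ hunit
      apply Set.ncard_le_ncard_of_injOn (fun t => t / t₀)
      · intro t ht
        have ht' : t * σ t = t₀ * σ t₀ := ht
        show t / t₀ * σ (t / t₀) = 1
        have hσ0 : σ t₀ ≠ 0 := (map_ne_zero σ).2 h0
        rw [map_div₀, div_mul_div_comm, ht', div_self (mul_ne_zero h0 hσ0)]
      · intro t _ t' _ htt
        exact (div_left_inj' h0).1 htt
  have hQ : Nat.card K ≤ Q0 ^ 2 := by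
    have h1 : Nat.card K ≤ Nat.card ({k : K // σ k = k} × {k : K // σ k = k}) := by
      apply Nat.card_le_card_of_injective (fun x => (⟨x + σ x, by
        rw [map_add, hf.invol, add_comm]⟩, ⟨θ * x + σ (θ * x), by
        rw [map_add, hf.invol, add_comm]⟩))
      intro x y hxy
      have e1 : x + σ x = y + σ y := congrArg Subtype.val (congrArg Prod.fst hxy)
      have e2 : θ * x + σ (θ * x) = θ * y + σ (θ * y) :=
        congrArg Subtype.val (congrArg Prod.snd hxy)
      rw [map_mul, map_mul] at e2
      have h4 : (θ + σ θ) * (x - y) = 0 := by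
        linear_combination e2 - σ θ * e1 + (σ θ * (x - y)) * two
      rw [hθ, one_mul] at h4
      exact sub_eq_zero.1 h4
    rw [Nat.card_prod, ← hQ0] at h1
    rw [pow_two]
    exact h1
  have H : ∀ t : K, (∀ a, a * t + ε * σ (a * t) = 0) → t = 0 := by
    intro t ht
    by_contra ht0
    have hall : ∀ x : K, x + ε * σ x = 0 := by
      intro x
      have := ht (x / t)
      rw [div_mul_cancel₀ _ ht0] at this
      exact this
    have h1 := hall 1
    rw [map_one, mul_one] at h1
    obtain ⟨k, hk⟩ := hσ
    apply hk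
    have h2 := hall k
    have hε : ε = -1 := by linear_combination h1
    rw [hε] at h2
    linear_combination -h2
  refine (C1_bound hf H (2 * Q0) hM).trans ?_
  rw [mul_pow, mul_assoc]
  apply Nat.mul_le_mul_left
  calc Q0 ^ finrank K V * Nat.card K ^ (finrank K V * (finrank K V - 1) / 2)
      ≤ Q0 ^ finrank K V * (Q0 ^ 2) ^ (finrank K V * (finrank K V - 1) / 2) :=
        Nat.mul_le_mul_left _ (Nat.pow_le_pow_left hQ _)
    _ = Q0 ^ (finrank K V ^ 2) := by
        rw [← pow_mul, ← pow_add]
        congr 1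
        have h3 : 2 * (finrank K V * (finrank K V - 1) / 2) = finrank K V * (finrank K V - 1) :=
          Nat.mul_div_cancel' (Nat.even_mul_pred_self _).two_dvd
        rw [h3]
        rcases Nat.eq_zero_or_pos (finrank K V) with h0 | h0
        · rw [h0]; norm_num
        · obtain ⟨m, hm⟩ : ∃ m, finrank K V = m + 1 := ⟨finrank K V - 1, by omega⟩
          rw [hm, Nat.add_sub_cancel]
          ring

end Pool.Agent.CTE
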