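import Pool.Agent.CTE.Base
import Pool.Agent.CTO.Data

/-!
# MP_0dcdae_al: quadratic forms on the algebra of a torus
-/

namespace Pool.Agent.CTO

open Module Pool.Agent.CTE

variable {K : Type} [Field K]

/-- `Q` is invariant under the torus: `Q (a v) = Q v` for all `a` with `a* a = 1`. -/
def TorData.IsInvariant (D : TorData K) (Q : D.A → K) : Prop :=
  ∀ a : D.A, D.star a * a = 1 → ∀ v, Q (a * v) = Q v

/-- `g` is an isometry of `f` and `Q`. -/
def TorData.IsQIsom (D : TorData K) (f : D.A → D.A → K) (Q : D.A → K) (g : D.G) : Prop :=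
  D.IsIsom f g ∧ ∀ v, Q (D.act g v) = Q v

theorem TorData.isQIsom_mul {D : TorData K} {f : D.A → D.A → K} {Q : D.A → K} {a b : D.G}
    (ha : D.IsQIsom f Q a) (hb : D.IsQIsom f Q b) : D.IsQIsom f Q (a * b) :=
  (OQ (V := D.A) f Q).mul_mem' ha hb

theorem TorData.isQIsom_one {D : TorData K} {f : D.A → D.A → K} {Q : D.A → K} :
    D.IsQIsom f Q 1 := (OQ (V := D.A) f Q).one_mem'

theorem TorData.isQIsom_inv {D : TorData K} {f : D.A → D.A → K} {Q : D.A → K} {a : D.G}
    (ha : D.IsQIsom f Q a) : D.IsQIsom f Q a⁻¹ := (OQ (V := D.A) f Q).inv_mem' ha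

/-- The orthogonal group of the quadratic form `Q` with polar form `f`. -/
def TorData.oq (D : TorData K) (f : D.A → D.A → K) (Q : D.A → K) : Subgroup D.G where
  carrier := {g | D.IsQIsom f Q g}
  mul_mem' := TorData.isQIsom_mul
  one_mem' := TorData.isQIsom_one
  inv_mem' := TorData.isQIsom_inv

/-- The commutator subgroup of the orthogonal group. -/
def TorData.omega (D : TorData K) (f : D.A → D.A → K) (Q : D.A → K) : Subgroup D.G :=
  ⁅D.oq f Q, D.oq f Q⁆

/-- The elements of `Γ` are multiples of elements of `Ω` by scalars. -/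
def TorData.InScalarTimes (D : TorData K) (Γ Ω : Subgroup D.G) : Prop :=
  ∀ g ∈ Γ, ∃ c : K, ∃ h ∈ Ω, ∀ v, D.act g v = c • D.act h v

end Pool.Agent.CTO
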