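import Pool.Agent.CTE.B1
import Pool.Agent.CTO.F3

/-!
# CTE.F3: torus algebras over the endomorphism field, characteristic two

`IsExt ε f σ fE` (`CTO/F2.lean`), `ε = 1`, `A` a torus algebra for `f` containing `E`. Compare `CTO/F3.lean`.
* `ext_alt`: if `σ = id` then `fE` is alternating: `Tr(e fE v v) = f (e v) v` for all `e ∈ E` (`IsExt.tr` and
  `fE (e v) v = e fE v v`). The multiplication by `e` is selfadjoint (`σ = id`) and in `A`, so `f (e v) v = 0` ((1) in the
  header of CTE.B1: `e = e d + (e d)*`). The trace form is nondegenerate, so `fE v v = 0`.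
* `lift_isTor2`: `lift_isTor` of `CTO/F3.lean` and the same `d`, `d*` (all elements of `A` are `E`-linear; `IsExt.adj`).
* `lift_tor_map2`: `tor σ fE (liftAlg A)` maps onto `tor (RingHom.id K) f A`: in characteristic two the condition on
  the determinant in `tor` is void if the involution is the identity (`mem_tor2` over `K`, and over `E` if `σ = id`;
  if `σ ≠ id` it is void by definition); `lift_torGL_map`, `lift_isom`.
* `lift_adQ`: `σ = id`, `Q` is the form of `A` and of `A'` (both contain `E`), `QE` the form of `liftAlg A` for `fE`; then `QE` is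
  the form of `liftAlg A'`. Let `QE'` be the form of `liftAlg A'` (`exists_adQ`), `QE v = fE (d v) v`, `QE' v = fE (d' v) v`.
  For `c ∈ E` let `c = s²` (`E` is finite of characteristic two): `Tr(c QE v) = Tr(fE (c d v) v) = f (s² d v) v =
  f (d s v) (s v) = Q (s v)` (multiplication by `s` is selfadjoint and commutes with `d`; `Q w = f (d w) w` by
  `adQ_unique`), and in the same way `Tr(c QE' v) = Q (s v)`. So `QE = QE'`.
* `lift_oddpos` is `lift_oddpos` of `CTO/F3.lean` (characteristic free).
-/

namespace Pool.Agent.CTE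

open Module Pool.Agent.CTO

theorem F3_self {K V : Type} [Field K] [AddCommGroup V] [Module K V] (two : (2 : K) = 0)
    (f : V → V → K) (hf : IsHF (RingHom.id K) 1 f)
    (A : Subalgebra K (Module.End K V)) (hA : IsTor2 f A) (s : Module.End K V) (hs : s ∈ A)
    (hss : IsAdj f s s) (v : V) : f (s v) v = 0 := by
  have hsym : ∀ v w, f w v = f v w := by
    intro v w
    have := hf.herm v w
    simpa using this
  obtain ⟨d, hd, d', hd', hdd, hsum⟩ := hA.tr
  have h1 : s v = d (s v) + d' (s v) := by
    have h2 := LinearMap.congr_fun hsum (s v)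
    rw [LinearMap.add_apply, Module.End.one_apply] at h2
    exact h2.symm
  have h2 : f (d' (s v)) v = f (d (s v)) v := by
    have e1 : f (d' (s v)) v = f v (d' (s v)) := hsym _ _
    have e2 : f v (d' (s v)) = f (d v) (s v) := (hdd v (s v)).symm
    have e3 : f (d v) (s v) = f (s (d v)) v := (hss (d v) v).symm
    have e4 : s (d v) = d (s v) := LinearMap.congr_fun (hA.comm s hs d hd) v
    rw [e1, e2, e3, e4]
  calc f (s v) v = f (d (s v) + d' (s v)) v := by rw [← h1]
    _ = f (d (s v)) v + f (d' (s v)) v := hf.add_left _ _ _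
    _ = 0 := by rw [h2]; linear_combination f (d (s v)) v * two

theorem F3_uniq {K E : Type} [Field K] [Finite K] [Field E] [Finite E] [Algebra K E]
    (x y : E) (h : ∀ e, Algebra.trace K E (e * x) = Algebra.trace K E (e * y)) : x = y := by
  have hN := traceForm_nondegenerate K E
  apply ((Algebra.traceForm K E).toDual hN).injective
  ext e
  rw [LinearMap.BilinForm.toDual_def, LinearMap.BilinForm.toDual_def, Algebra.traceForm_apply,
    Algebra.traceForm_apply, mul_comm x e, mul_comm y e]
  exact h e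

theorem F3_sqrt {E : Type} [Field E] [Finite E] (two : (2 : E) = 0) (c : E) :
    ∃ s : E, s * s = c := by
  have hi : Function.Injective (fun x : E => x * x) := by
    intro x y hxy
    have hxy' : x * x = y * y := hxy
    have h1 : (x - y) * (x - y) = 0 := by
      linear_combination hxy' - (x * y - y * y) * two
    exact sub_eq_zero.1 (mul_self_eq_zero.1 h1)
  exact Finite.surjective_of_injective hi c

section

variable {K E V : Type} [Field K] [Finite K] [Field E] [Finite E] [Algebra K E] [AddCommGroup V]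
  [Module K V] [Module E V] [IsScalarTower K E V] [FiniteDimensional K V] [FiniteDimensional E V]

theorem F3_scalar_adj (f : V → V → K) (fE : V → V → E) (hx : IsExt 1 f (RingHom.id E) fE) (e : E) :
    IsAdj f (Algebra.lsmul K K V e) (Algebra.lsmul K K V e) := by
  have h1 : (algebraMap E (Module.End E V) e).restrictScalars K = Algebra.lsmul K K V e := by
    ext v
    simp [Module.algebraMap_end_apply]
  rw [← h1, hx.adj]
  intro v w
  rw [Module.algebraMap_end_apply, Module.algebraMap_end_apply, hx.hf.smul_left,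
    F3_smul_right hx.hf, RingHom.id_apply]

theorem ext_alt (two : (2 : K) = 0) (f : V → V → K) (hf : IsHF (RingHom.id K) 1 f) (ha : Alt f)
    (fE : V → V → E) (hx : IsExt 1 f (RingHom.id E) fE)
    (A : Subalgebra K (Module.End K V)) (hA : IsTor2 f A) (hE : ∀ e : E, Algebra.lsmul K K V e ∈ A) :
    Alt fE := by
  intro v
  apply F3_uniq (K := K)
  intro e
  rw [mul_zero, map_zero, ← hx.hf.smul_left, ← hx.tr]
  exact F3_self two f hf A hA _ (hE e) (F3_scalar_adj f fE hx e) v

theorem lift_isTor2 (f : V → V → K) (σ : E →+* E) (fE : V → V → E) (hx : IsExt 1 f σ fE)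
    (A : Subalgebra K (Module.End K V)) (hA : IsTor2 f A) (hE : ∀ e : E, Algebra.lsmul K K V e ∈ A) :
    IsTor2 fE (liftAlg A hE) := by
  have h1 := lift_isTor 1 f σ fE hx A hA.toIsTor hE
  obtain ⟨d, hd, d', hd', hdd, hsum⟩ := hA.tr
  obtain ⟨a, rfl⟩ := F3_lift A hA.comm hE d hd
  obtain ⟨a', rfl⟩ := F3_lift A hA.comm hE d' hd'
  refine ⟨h1, a, hd, a', hd', (hx.adj a a').1 hdd, ?_⟩
  ext v
  exact LinearMap.congr_fun hsum v

theorem lift_tor_map2 (two : (2 : K) = 0) (f : V → V → K)
    (hf : IsHF (RingHom.id K) 1 f) (σ : E →+* E) (fE : V → V → E) (hx : IsExt 1 f σ fE)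
    (A : Subalgebra K (Module.End K V)) (hA : IsTor2 f A) (hE : ∀ e : E, Algebra.lsmul K K V e ∈ A) :
    (tor σ fE (liftAlg A hE)).map resH = tor (RingHom.id K) f A := by
  have hmap := lift_torGL_map A hA.toIsTorGL hE
  ext t
  rw [mem_tor2 two f hf A t]
  constructor
  · rintro ⟨g, ⟨hg1, hg2, hg3⟩, rfl⟩
    refine ⟨?_, (lift_isom 1 f σ fE hx g).2 hg2⟩
    rw [← hmap]
    exact Subgroup.mem_map_of_mem _ hg1
  · rintro ⟨ht1, ht2⟩
    rw [← hmap] at ht1
    obtain ⟨g, hg1, rfl⟩ := ht1
    have hg2 : g ∈ Isom fE := (lift_isom 1 f σ fE hx g).1 ht2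
    refine ⟨g, ⟨hg1, hg2, fun hσ => ?_⟩, rfl⟩
    have hσ' : σ = RingHom.id E := RingHom.ext hσ
    have hfE : IsHF (RingHom.id E) 1 fE := by
      have h1 := hx.hf
      rwa [hσ', map_one] at h1
    have two' : (2 : E) = 0 := by
      have h1 : algebraMap K E 2 = algebraMap K E 0 := by rw [two]
      rwa [map_ofNat, map_zero] at h1
    exact det_one2 two' fE hfE g hg2

theorem lift_adQ (two : (2 : K) = 0) (f : V → V → K) (hf : IsHF (RingHom.id K) 1 f) (ha : Alt f)
    (fE : V → V → E) (hx : IsExt 1 f (RingHom.id E) fE)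
    (A A' : Subalgebra K (Module.End K V)) (hA : IsTor2 f A) (hA' : IsTor2 f A')
    (hE : ∀ e : E, Algebra.lsmul K K V e ∈ A) (hE' : ∀ e : E, Algebra.lsmul K K V e ∈ A')
    (Q : V → K) (hQ : AdQ f A Q) (hQ' : AdQ f A' Q) (QE : V → E) (hQE : AdQ fE (liftAlg A hE) QE) :
    AdQ fE (liftAlg A' hE') QE := by
  have two' : (2 : E) = 0 := by
    have h1 : algebraMap K E 2 = algebraMap K E 0 := by rw [two]
    rwa [map_ofNat, map_zero] at h1
  -- the trace of the form of a lifted algebra
  have key : ∀ (B : Subalgebra K (Module.End K V)) (hB : IsTor2 f B)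
      (hEB : ∀ e : E, Algebra.lsmul K K V e ∈ B) (hQB : AdQ f B Q) (QB : V → E)
      (hQBE : AdQ fE (liftAlg B hEB) QB) (s : E) (v : V),
      Algebra.trace K E (s * s * QB v) = Q (s • v) := by
    intro B hB hEB hQB QB hQBE s v
    obtain ⟨d, hd, d', hd', hdd, hsum, hQd⟩ := hQBE
    have hK : AdQ f B (fun v => f (d v) v) := by
      refine ⟨d.restrictScalars K, hd, d'.restrictScalars K, hd', (hx.adj d d').2 hdd, ?_,
        fun v => rfl⟩
      ext v
      exact LinearMap.congr_fun hsum v
    have h1 := adQ_unique two f hf ha B hB Q _ hQB hK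
    rw [h1]
    show Algebra.trace K E (s * s * QB v) = f (d (s • v)) (s • v)
    rw [hx.tr, map_smul, hx.hf.smul_left, F3_smul_right hx.hf, RingHom.id_apply, hQd, mul_assoc]
  have hAE' : IsTor2 fE (liftAlg A' hE') := lift_isTor2 f (RingHom.id E) fE hx A' hA' hE'
  obtain ⟨QE', hQE'⟩ := exists_adQ fE (liftAlg A' hE') hAE'
  have heq : QE = QE' := by
    funext v
    apply F3_uniq (K := K)
    intro c
    obtain ⟨s, rfl⟩ := F3_sqrt two' c
    rw [key A hA hE hQ QE hQE s v, key A' hA' hE' hQ' QE' hQE' s v]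
  rw [heq]
  exact hQE'

end

end Pool.Agent.CTE
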