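import Pool.Agent.CTE.Base
import Pool.Agent.CTO.G2

/-!
# CTE.G2t: the special unitary group, characteristic two

`σ ≠ id`, `char K = 2` (so `ε = 1`), `K0 = {k | σ k = k}`, `K` finite.
* `trans_U2`: `EU` is transitive on the vectors `v` with `f v v = α`, for `α ≠ 0`, if `dim V ≥ 2`. We adapt the unitary part
  of `CTO/G2.lean`: `1/2` is replaced by an element `θ` with `θ + σ θ = 1`. The norm is surjective onto `K0` because every
  element of `K0` is a square of an element of `K0`.
  Step A: every `v` with `f v v = α` is moved to `x e + y e'`, `x σ y + y σ x = α`, for a hyperbolic pair `e`, `e'`.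
  Step B: two such vectors with the same `x`, or with the same `y`, are connected by one Eichler transformation
  (`G2_step`). If `Δ = σ y y' - σ y' y ≠ 0` there is `x''` such that `(x'', y)` and `(x'', y')` are both solutions; in
  general we pass through `(x'', t y)` with `σ t ≠ t`.
-/

namespace Pool.Agent.CTE

open Module Pool.Agent.CTO

section aux

variable {K V : Type} [Field K] [AddCommGroup V] [Module K V]

/-- an element of trace one -/
lemma G2t_tr (two : (2 : K) = 0) (σ : K →+* K) (hσ : ∃ k, σ k ≠ k) (hσ2 : ∀ x, σ (σ x) = x) :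
    ∃ θ, θ + σ θ = 1 := by
  obtain ⟨t, ht⟩ := hσ
  have hs : t + σ t ≠ 0 := by
    intro h
    apply ht
    linear_combination h - t * two
  refine ⟨t / (t + σ t), ?_⟩
  rw [map_div₀, map_add, hσ2, add_comm (σ t) t, ← add_div, div_self hs]

lemma G2t_norm [Finite K] (two : (2 : K) = 0) (σ : K →+* K)
    (k : K) (hk : σ k = k) : ∃ y, y * σ y = k := by
  have hK := Fintype.ofFinite K
  have hchar : ringChar K = 2 := by
    have h2 : ringChar K ∣ 2 := by
      have h1 : CharP K (ringChar K) := ringChar.charP K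
      rw [← CharP.cast_eq_zero_iff K (ringChar K) 2]
      exact_mod_cast two
    have h3 : ringChar K ≠ 1 := by
      intro h
      have := ringChar.Nat.cast_ringChar (R := K)
      rw [h] at this
      simp at this
    rcases (Nat.dvd_prime Nat.prime_two).1 h2 with h | h
    · exact absurd h h3
    · exact h
  obtain ⟨c, hc⟩ := FiniteField.isSquare_of_char_two hchar k
  refine ⟨c, ?_⟩
  have h1 : σ c * σ c = c * c := by rw [← map_mul, ← hc, hk]
  have h2 : (σ c - c) * (σ c - c) = 0 := by
    linear_combination h1 + (c * c - σ c * c) * two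
  have h3 : σ c = c := sub_eq_zero.1 (mul_self_eq_zero.1 h2)
  rw [h3, hc]

/-- extension of an isotropic vector to a hyperbolic pair -/
lemma G2t_ext {σ : K →+* K} {f : V → V → K} (hf : IsHF σ 1 f) (two : (2 : K) = 0) (θ : K)
    (hθ : θ + σ θ = 1) (e : V) (he : f e e = 0) (hne : e ≠ 0) : ∃ e', G2_HP f e e' := by
  obtain ⟨y, hy⟩ : ∃ y, f e y ≠ 0 := by
    by_contra hcon
    push Not at hcon
    exact hne (hf.nondeg e hcon)
  obtain ⟨z, hy1⟩ : ∃ z, f e z = 1 :=
    ⟨σ (f e y)⁻¹ • y, by rw [G2_smul_right hf, hf.invol, inv_mul_cancel₀ hy]⟩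
  have hze : f z e = 1 := by rw [hf.herm e z, hy1, map_one, mul_one]
  have hzz : σ (f z z) = f z z := by rw [G2_sig hf, one_mul]
  refine ⟨z + (θ * f z z) • e, ?_, ?_, ?_⟩
  · exact he
  · rw [hf.add_left, G2_add_right hf, G2_add_right hf, hf.smul_left, hf.smul_left,
      G2_smul_right hf, G2_smul_right hf, he, hy1, hze, map_mul, hzz]
    linear_combination (f z z) * hθ + (f z z) * two
  · rw [G2_add_right hf, G2_smul_right hf, he, hy1]
    ring

/-- Step A: every vector is moved to the hyperbolic plane -/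
lemma G2t_stepA {σ : K →+* K} {f : V → V → K} (hf : IsHF σ 1 f) (two : (2 : K) = 0) (θ : K)
    (hθ : θ + σ θ = 1) {e e' : V} (hp : G2_HP f e e') (v : V) (hv : f v v ≠ 0) :
    ∃ x y : K, x * σ y + y * σ x = f v v ∧ G2_R σ 1 f v (x • e + y • e') := by
  have p' : f e' e = 1 := hp.pair' hf
  have hvv : σ (f v v) = f v v := by rw [G2_sig hf, one_mul]
  have hnorm : ∀ x y : K, f (x • e + y • e') (x • e + y • e') = x * σ y + y * σ x := by
    intro x y
    rw [hf.add_left, G2_add_right hf, G2_add_right hf, hf.smul_left, hf.smul_left, hf.smul_left,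
      hf.smul_left, G2_smul_right hf, G2_smul_right hf, G2_smul_right hf, G2_smul_right hf,
      hp.ee, hp.ee', hp.pair, p']
    ring
  -- case 1
  have case1 : ∀ z : V, f z z = f v v → f z e' ≠ 0 →
      ∃ x y : K, x * σ y + y * σ x = f v v ∧ G2_R σ 1 f z (x • e + y • e') := by
    intro z hz hze
    have hsx : σ (f z e') ≠ 0 := fun h => hze ((map_eq_zero σ).1 h)
    have hxy : f z e' * σ (θ * f v v / σ (f z e')) + θ * f v v / σ (f z e') * σ (f z e') =
        f v v := by
      rw [map_div₀, map_mul, hf.invol, hvv, div_mul_cancel₀ _ hsx, mul_div_cancel₀ _ hze]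
      linear_combination (f v v) * hθ
    refine ⟨f z e', θ * f v v / σ (f z e'), hxy, ?_⟩
    apply G2_step hf e' _ _ hp.ee' hze
    · rw [hf.add_left, hf.smul_left, hf.smul_left, hp.pair, hp.ee']
      ring
    · rw [hnorm, hxy, hz]
  by_cases h1 : f v e' = 0
  · by_cases h2 : f v e = 0
    · -- case 3
      have hv0 : v ≠ 0 := by
        rintro rfl
        exact hv (G2_zero_left hf 0)
      obtain ⟨y, hy⟩ : ∃ y, f v y ≠ 0 := by
        by_contra hcon
        push Not at hcon
        exact hv0 (hf.nondeg v hcon)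
      obtain ⟨w', hwe, hvw⟩ : ∃ w', f w' e = 0 ∧ f v w' ≠ 0 := by
        refine ⟨y - (f y e) • e', ?_, ?_⟩
        · rw [G2_sub_left hf, hf.smul_left, p', mul_one, sub_self]
        · rw [G2_sub_right hf, G2_smul_right hf, h1, mul_zero, sub_zero]
          exact hy
      have hww : σ (f w' w') = f w' w' := by rw [G2_sig hf, one_mul]
      have hE : IsEich σ 1 f e w' (θ * f w' w') := by
        refine ⟨hp.ee, hwe, ?_⟩
        rw [map_mul, hww]
        linear_combination (f w' w') * hθ + (f w' w') * two
      obtain ⟨g, hg⟩ := exists_eich hf e w' _ hE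
      have hgm : g ∈ EU σ 1 f := Subgroup.subset_closure ⟨e, w', _, hE, hg⟩
      have hgv : g v = v - f v w' • e := by
        rw [hg, h2, zero_smul, add_zero, mul_zero, zero_smul, add_zero, one_mul]
      have hev : f e v = 0 := G2_symm0 hf h2
      have hQg : f (g v) (g v) = f v v := by
        rw [hgv, G2_sub_left hf, G2_sub_right hf, G2_sub_right hf, hf.smul_left, hf.smul_left,
          G2_smul_right hf, G2_smul_right hf, h2, hev, hp.ee]
        ring
      have hne : f (g v) e' ≠ 0 := by
        rw [hgv, G2_sub_left hf, hf.smul_left, hp.pair, h1, mul_one, zero_sub]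
        exact neg_ne_zero.2 hvw
      obtain ⟨x, y', hxy, hR⟩ := case1 (g v) hQg hne
      exact ⟨x, y', hxy, G2_R_trans ⟨g, hgm, rfl⟩ hR⟩
    · -- case 2
      have hsx : σ (f v e) ≠ 0 := fun h => h2 ((map_eq_zero σ).1 h)
      have hxy : θ * f v v / σ (f v e) * σ (f v e) + f v e * σ (θ * f v v / σ (f v e)) =
          f v v := by
        rw [map_div₀, map_mul, hf.invol, hvv, div_mul_cancel₀ _ hsx, mul_div_cancel₀ _ h2]
        linear_combination (f v v) * hθ
      refine ⟨θ * f v v / σ (f v e), f v e, hxy, ?_⟩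
      apply G2_step hf e _ _ hp.ee h2
      · rw [hf.add_left, hf.smul_left, hf.smul_left, hp.ee, p']
        ring
      · rw [hnorm, hxy]
  · exact case1 v rfl h1

end aux

theorem trans_U2 {K V : Type} [Field K] [Finite K] [AddCommGroup V] [Module K V]
    [FiniteDimensional K V] (two : (2 : K) = 0) (σ : K →+* K) (hσ : ∃ k, σ k ≠ k) (ε : K)
    (f : V → V → K) (hf : IsHF σ ε f) (hV : 2 ≤ finrank K V) (v w : V) (hv : f v v ≠ 0)
    (hvw : f v v = f w w) : ∃ g ∈ EU σ ε f, g v = w := by
  obtain rfl : ε = 1 := by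
    rcases hf.eps with h | h
    · exact h
    · rw [h]; linear_combination (-1 : K) * two
  obtain ⟨θ, hθ⟩ := G2t_tr two σ hσ hf.invol
  -- an isotropic vector
  obtain ⟨e, he, hne⟩ : ∃ e, f e e = 0 ∧ e ≠ 0 := by
    obtain ⟨z, hz, hzv⟩ := G2_ker1 hf hV v
    by_cases h1 : f z z = 0
    · exact ⟨z, h1, hz⟩
    obtain ⟨y, hy⟩ := G2t_norm two σ (-(f z z) / f v v) (by
      rw [map_div₀, map_neg, G2_sig hf, G2_sig hf, one_mul, one_mul])
    refine ⟨y • v + z, ?_, ?_⟩
    · simp only [hf.add_left, G2_add_right hf, hf.smul_left, G2_smul_right hf, hzv,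
        G2_symm0 hf hzv]
      rw [eq_div_iff hv] at hy
      linear_combination hy
    · intro h
      have h3 : f (y • v + z) z = 0 := by rw [h, G2_zero_left hf]
      rw [hf.add_left, hf.smul_left, G2_symm0 hf hzv] at h3
      apply h1
      linear_combination h3
  obtain ⟨e', hp⟩ := G2t_ext hf two θ hθ e he hne
  have hp' : f e' e = 1 := hp.pair' hf
  obtain ⟨x, y, hxy, hR⟩ := G2t_stepA hf two θ hθ hp v hv
  obtain ⟨x', y', hxy', hR'⟩ := G2t_stepA hf two θ hθ hp w (by rw [← hvw]; exact hv)
  rw [← hvw] at hxy'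
  refine G2_R_trans hR (G2_R_trans ?_ (G2_R_symm hR'))
  have hσα : σ (f v v) = f v v := by rw [G2_sig hf, one_mul]
  set α := f v v with hα
  -- the norm of `x e + y e'`
  have hN : ∀ x y : K, f (x • e + y • e') (x • e + y • e') = x * σ y + y * σ x := by
    intro x y
    simp only [hf.add_left, G2_add_right hf, hf.smul_left, G2_smul_right hf, hp.ee, hp.ee',
      hp.pair, hp']
    ring
  -- connected through a fixed first coordinate
  have B1 : ∀ x y y' : K, x * σ y + y * σ x = α → x * σ y' + y' * σ x = α →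
      G2_R σ 1 f (x • e + y • e') (x • e + y' • e') := by
    intro x y y' h1 h2
    have hx0 : x ≠ 0 := by
      rintro rfl
      rw [map_zero] at h1
      apply hv
      rw [← h1]; ring
    apply G2_step hf e' _ _ hp.ee'
    · simp only [hf.add_left, hf.smul_left, hp.pair, hp.ee']
      simpa using hx0
    · simp only [hf.add_left, hf.smul_left, hp.pair, hp.ee']
      ring
    · rw [hN, hN, h1, h2]
  have B2 : ∀ x x' y : K, x * σ y + y * σ x = α → x' * σ y + y * σ x' = α →
      G2_R σ 1 f (x • e + y • e') (x' • e + y • e') := by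
    intro x x' y h1 h2
    have hy0 : y ≠ 0 := by
      rintro rfl
      rw [map_zero] at h1
      apply hv
      rw [← h1]; ring
    apply G2_step hf e _ _ hp.ee
    · simp only [hf.add_left, hf.smul_left, hp.ee, hp']
      simpa using hy0
    · simp only [hf.add_left, hf.smul_left, hp.ee, hp']
      ring
    · rw [hN, hN, h1, h2]
  have B3 : ∀ x y x' y' : K, x * σ y + y * σ x = α → x' * σ y' + y' * σ x' = α →
      σ y * y' - σ y' * y ≠ 0 → G2_R σ 1 f (x • e + y • e') (x' • e + y' • e') := by
    intro x y x' y' h1 h2 hΔ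
    have hσΔ : σ (σ y * y' - σ y' * y) = -(σ y * y' - σ y' * y) := by
      rw [map_sub, map_mul, map_mul, hf.invol, hf.invol]; ring
    set Δ := σ y * y' - σ y' * y with hΔd
    set x'' := α * (y' - y) / Δ with hx''
    have hσx : σ x'' = - (α * (σ y' - σ y) / Δ) := by
      rw [hx'', map_div₀, map_mul, map_sub, hσΔ, div_neg, hσα]
    have k1 : x'' * σ y + y * σ x'' = α := by
      rw [hσx, hx'']
      field_simp
      rw [hΔd]
      ring
    have k2 : x'' * σ y' + y' * σ x'' = α := by
      rw [hσx, hx'']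
      field_simp
      rw [hΔd]
      ring
    exact G2_R_trans (B2 x x'' y h1 k1) (G2_R_trans (B1 x'' y y' k1 k2) (B2 x'' x' y' k2 h2))
  have B4 : ∀ x y x' y' : K, x * σ y + y * σ x = α → x' * σ y' + y' * σ x' = α →
      G2_R σ 1 f (x • e + y • e') (x' • e + y' • e') := by
    intro x y x' y' h1 h2
    by_cases hΔ : σ y * y' - σ y' * y = 0
    · obtain ⟨t, ht⟩ := hσ
      have hy0 : y ≠ 0 := by
        rintro rfl
        rw [map_zero] at h1
        apply hv
        rw [← h1]; ring
      have hy0' : y' ≠ 0 := by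
        rintro rfl
        rw [map_zero] at h2
        apply hv
        rw [← h2]; ring
      have hsy : σ y ≠ 0 := fun h => hy0 ((map_eq_zero σ).1 h)
      have hsy' : σ y' ≠ 0 := fun h => hy0' ((map_eq_zero σ).1 h)
      have ht' : t - σ t ≠ 0 := sub_ne_zero.2 (Ne.symm ht)
      have hst : t ≠ 0 := by
        rintro rfl
        exact ht (map_zero σ)
      have hst' : σ t ≠ 0 := fun h => hst ((map_eq_zero σ).1 h)
      have hty : t * y ≠ 0 := mul_ne_zero hst hy0
      have hsty : σ (t * y) ≠ 0 := fun h => hty ((map_eq_zero σ).1 h)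
      have k3 : θ * α / σ (t * y) * σ (t * y) + (t * y) * σ (θ * α / σ (t * y)) = α := by
        rw [div_mul_cancel₀ _ hsty, map_div₀, map_mul σ θ α, hf.invol, hσα,
          mul_div_cancel₀ _ hty]
        linear_combination α * hθ
      have c1 : σ y * (t * y) - σ (t * y) * y ≠ 0 := by
        rw [map_mul]
        have : σ y * (t * y) - σ t * σ y * y = (t - σ t) * (σ y * y) := by ring
        rw [this]
        exact mul_ne_zero ht' (mul_ne_zero hsy hy0)
      have c2 : σ (t * y) * y' - σ y' * (t * y) ≠ 0 := by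
        rw [map_mul]
        have : σ t * σ y * y' - σ y' * (t * y) = (σ t - t) * (σ y' * y) := by
          linear_combination (σ t) * hΔ
        rw [this]
        exact mul_ne_zero (sub_ne_zero.2 ht) (mul_ne_zero hsy' hy0)
      exact G2_R_trans (B3 x y _ (t * y) h1 k3 c1) (B3 _ (t * y) x' y' k3 h2 c2)
    · exact B3 x y x' y' h1 h2 hΔ
  exact B4 _ _ _ _ hxy hxy'

end Pool.Agent.CTE
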