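import Pool.Agent.CTE.Base

/-!
# CTE.G3: Siegel transformations and reflections, characteristic two

`f` nondegenerate alternating (`f w v = f v w`), `Q` a quadratic form with polar form `f`, `char K = 2`. Everything is
direct computation.
* `E(u,w) x = x + f(x,u) w + f(x,w) u + Q(w) f(x,u) u`, `Q u = 0`, `f w u = 0`. `E(u,w) E(u,w') = E(u, w + w')`,
  `E(u,0) = 1`, so `E(u,w)` is an involution, bijective. It preserves `Q`:
  `Q(x + a w + b u)`, `a = f(x,u)`, `b = f(x,w) + Q(w) a`: `= Q x + a² Q w + a f(x,w) + b f(x,u) = Q x + a² Q w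
  + a f(x,w) + a f(x,w) + a² Q w = Q x` (`f(w,u) = 0`, `Q u = 0`). It preserves `f` (polar form of `Q`).
* `g E(u,w) g⁻¹ = E(g u, g w)` for `g ∈ OQ f Q`.
* the reflection `r_u x = x + (f(x,u)/Q(u)) u` is an involution, `Q(r_u x) = Q x + (f(x,u)/Q u)² Q u + (f(x,u)/Q u) f(x,u)
  = Q x`; `g r_u g⁻¹ = r_(g u)`; `r_(c u) = r_u`.
-/

namespace Pool.Agent.CTE

open Module Pool.Agent.CTO

variable {K V : Type} [Field K] [AddCommGroup V] [Module K V]

theorem G3_add_self (two : (2 : K) = 0) (a : K) : a + a = 0 := by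
  rw [← two_mul, two, zero_mul]

theorem G3_add_selfV (two : (2 : K) = 0) (v : V) : v + v = 0 := by
  rw [← two_smul K v, two, zero_smul]

theorem G3_symm {f : V → V → K} (hf : IsHF (RingHom.id K) 1 f) (v w : V) : f w v = f v w := by
  rw [hf.herm v w, one_mul, RingHom.id_apply]

theorem G3_add_right {f : V → V → K} (hf : IsHF (RingHom.id K) 1 f) (u v w : V) :
    f u (v + w) = f u v + f u w := by
  rw [G3_symm hf (v + w) u, hf.add_left, G3_symm hf u v, G3_symm hf u w]

theorem G3_smul_right {f : V → V → K} (hf : IsHF (RingHom.id K) 1 f) (a : K) (v w : V) :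
    f v (a • w) = a * f v w := by
  rw [G3_symm hf (a • w) v, hf.smul_left, G3_symm hf v w]

theorem G3_isom_of_Q {f : V → V → K} {Q : V → K} (hQ : IsQF f Q) {g : V ≃ₗ[K] V}
    (h : ∀ v, Q (g v) = Q v) : g ∈ OQ f Q := by
  refine ⟨fun v w => ?_, h⟩
  have h1 := hQ.add (g v) (g w)
  rw [← map_add, h, h, h, hQ.add v w] at h1
  linear_combination -h1

theorem exists_sieg (two : (2 : K) = 0) (f : V → V → K) (hf : IsHF (RingHom.id K) 1 f) (ha : Alt f)
    (Q : V → K) (hQ : IsQF f Q) (u w : V) (hu : Q u = 0) (hw : f w u = 0) :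
    ∃ g : V ≃ₗ[K] V, ∀ x, g x = x + f x u • w + f x w • u + (Q w * f x u) • u := by
  let T : Module.End K V :=
    { toFun := fun x => x + f x u • w + f x w • u + (Q w * f x u) • u
      map_add' := by
        intro x y
        simp only [hf.add_left]
        module
      map_smul' := by
        intro c x
        simp only [hf.smul_left, RingHom.id_apply]
        module }
  have hT : ∀ x, T x = x + f x u • w + f x w • u + (Q w * f x u) • u := fun x => rfl
  have huu : f u u = 0 := ha u
  have hww : f w w = 0 := ha w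
  have huw : f u w = 0 := by rw [G3_symm hf w u]; exact hw
  have h1 : ∀ x, f (T x) u = f x u := by
    intro x
    rw [hT, hf.add_left, hf.add_left, hf.add_left, hf.smul_left, hf.smul_left, hf.smul_left, hw, huu]
    ring
  have h2 : ∀ x, f (T x) w = f x w := by
    intro x
    rw [hT, hf.add_left, hf.add_left, hf.add_left, hf.smul_left, hf.smul_left, hf.smul_left, hww,
      huw]
    ring
  have hinv : Function.Involutive T := by
    intro x
    rw [hT (T x), h1, h2, hT x]
    have e1 := G3_add_selfV two (f x u • w)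
    have e2 := G3_add_selfV two (f x w • u)
    have e3 := G3_add_selfV two ((Q w * f x u) • u)
    calc x + f x u • w + f x w • u + (Q w * f x u) • u + f x u • w + f x w • u
          + (Q w * f x u) • u
        = x + (f x u • w + f x u • w) + (f x w • u + f x w • u)
          + ((Q w * f x u) • u + (Q w * f x u) • u) := by abel
      _ = x := by rw [e1, e2, e3]; simp
  exact ⟨LinearEquiv.ofInvolutive T hinv, fun x => hT x⟩

theorem EUQ_le (two : (2 : K) = 0) (f : V → V → K) (hf : IsHF (RingHom.id K) 1 f) (ha : Alt f)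
    (Q : V → K) (hQ : IsQF f Q) : EUQ f Q ≤ OQ f Q := by
  unfold EUQ
  rw [Subgroup.closure_le]
  rintro g ⟨u, w, hu, hw, hg⟩
  apply G3_isom_of_Q hQ
  intro x
  have huu : f u u = 0 := ha u
  rw [hg, hQ.add, hQ.add, hQ.add, hQ.smul, hQ.smul, hQ.smul, hu]
  simp only [hf.add_left, hf.smul_left, G3_smul_right hf, hw, huu]
  linear_combination (f x u * f x w + Q w * f x u * f x u) * two

theorem EUQ_conj (two : (2 : K) = 0) (f : V → V → K) (hf : IsHF (RingHom.id K) 1 f) (ha : Alt f)
    (Q : V → K) (hQ : IsQF f Q) (g : V ≃ₗ[K] V) (hg : g ∈ OQ f Q) (x : V ≃ₗ[K] V)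
    (hx : x ∈ EUQ f Q) : g * x * g⁻¹ ∈ EUQ f Q := by
  unfold EUQ at hx ⊢
  induction hx using Subgroup.closure_induction with
  | mem x hx =>
    obtain ⟨u, w, hu, hw, hx⟩ := hx
    apply Subgroup.subset_closure
    refine ⟨g u, g w, ?_, ?_, ?_⟩
    · rw [hg.2]; exact hu
    · rw [hg.1]; exact hw
    · intro y
      have hy : g (g⁻¹ y) = y := LinearEquiv.apply_symm_apply g y
      have e1 : f (g⁻¹ y) u = f y (g u) := by rw [← hg.1 (g⁻¹ y) u, hy]
      have e2 : f (g⁻¹ y) w = f y (g w) := by rw [← hg.1 (g⁻¹ y) w, hy]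
      rw [LinearEquiv.mul_apply, LinearEquiv.mul_apply, hx, map_add, map_add, map_add, map_smul,
        map_smul, map_smul, hy, e1, e2, hg.2]
  | one => rw [mul_one, mul_inv_cancel]; exact one_mem _
  | mul x y _ _ hx hy =>
    have := mul_mem hx hy
    rwa [show g * x * g⁻¹ * (g * y * g⁻¹) = g * (x * y) * g⁻¹ by group] at this
  | inv x _ hx =>
    have := inv_mem hx
    rwa [show (g * x * g⁻¹)⁻¹ = g * x⁻¹ * g⁻¹ by group] at this

theorem exists_reflQ (two : (2 : K) = 0) (f : V → V → K) (hf : IsHF (RingHom.id K) 1 f) (ha : Alt f)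
    (Q : V → K) (hQ : IsQF f Q) (u : V) (hu : Q u ≠ 0) :
    ∃ g : V ≃ₗ[K] V, IsReflQ f Q u g := by
  let T : Module.End K V :=
    { toFun := fun x => x + (f x u / Q u) • u
      map_add' := by
        intro x y
        simp only [hf.add_left, add_div]
        module
      map_smul' := by
        intro c x
        simp only [hf.smul_left, RingHom.id_apply, mul_div_assoc]
        module }
  have hT : ∀ x, T x = x + (f x u / Q u) • u := fun x => rfl
  have huu : f u u = 0 := ha u
  have h1 : ∀ x, f (T x) u = f x u := by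
    intro x
    rw [hT, hf.add_left, hf.smul_left, huu]
    ring
  have hinv : Function.Involutive T := by
    intro x
    rw [hT (T x), h1, hT x, add_assoc, G3_add_selfV two, add_zero]
  exact ⟨LinearEquiv.ofInvolutive T hinv, hu, fun x => hT x⟩

theorem reflQ_mem (two : (2 : K) = 0) (f : V → V → K) (hf : IsHF (RingHom.id K) 1 f) (ha : Alt f)
    (Q : V → K) (hQ : IsQF f Q) (u : V) (r : V ≃ₗ[K] V) (hr : IsReflQ f Q u r) :
    r ∈ OQ f Q ∧ r * r = 1 := by
  obtain ⟨hu, hr⟩ := hr
  have huu : f u u = 0 := ha u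
  constructor
  · apply G3_isom_of_Q hQ
    intro x
    rw [hr, hQ.add, hQ.smul, G3_smul_right hf]
    have h1 : f x u / Q u * Q u = f x u := div_mul_cancel₀ _ hu
    linear_combination (f x u / Q u) * h1 + (f x u / Q u * f x u) * two
  · apply LinearEquiv.ext
    intro x
    rw [LinearEquiv.mul_apply, hr (r x), hr x, hf.add_left, hf.smul_left, huu, mul_zero, add_zero,
      add_assoc, G3_add_selfV two, add_zero]
    rfl

theorem reflQ_conj (two : (2 : K) = 0) (f : V → V → K) (hf : IsHF (RingHom.id K) 1 f) (ha : Alt f)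
    (Q : V → K) (hQ : IsQF f Q) (u : V) (r g : V ≃ₗ[K] V) (hr : IsReflQ f Q u r)
    (hg : g ∈ OQ f Q) : IsReflQ f Q (g u) (g * r * g⁻¹) := by
  obtain ⟨hu, hr⟩ := hr
  refine ⟨by rw [hg.2]; exact hu, ?_⟩
  intro y
  have hy : g (g⁻¹ y) = y := LinearEquiv.apply_symm_apply g y
  have e1 : f (g⁻¹ y) u = f y (g u) := by rw [← hg.1 (g⁻¹ y) u, hy]
  rw [LinearEquiv.mul_apply, LinearEquiv.mul_apply, hr, map_add, map_smul, hy, e1, hg.2]

theorem reflQ_smul (f : V → V → K) (hf : IsHF (RingHom.id K) 1 f) (Q : V → K) (hQ : IsQF f Q)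
    (u : V) (r : V ≃ₗ[K] V) (hr : IsReflQ f Q u r) (c : K) (hc : c ≠ 0) :
    IsReflQ f Q (c • u) r := by
  obtain ⟨hu, hr⟩ := hr
  refine ⟨by rw [hQ.smul]; exact mul_ne_zero (mul_ne_zero hc hc) hu, ?_⟩
  intro y
  rw [hr, hQ.smul, G3_smul_right hf, smul_smul]
  congr 2
  field_simp

end Pool.Agent.CTE
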