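import Pool.Agent.CTE.G3
import Pool.Agent.CTO.G2

/-!
# CTE.G4: `EUQ` is transitive on the nonsingular vectors with a given value of `Q`

`K` finite of characteristic two (so every element is a square), `dim V ≥ 3` (then `≥ 4`, being even).
* `exists_sing`: there is `e ≠ 0` with `Q e = 0`: let `v ≠ 0`; if `Q v ≠ 0` take `z ∈ v^⊥` not in `K v` (`dim v^⊥ ≥ 2`), and
  `e = z + c v` with `c² = Q z / Q v` (`Q(z + c v) = Q z + c² Q v + c f z v`).
* hyperbolic pair: `e'` with `f e e' = 1`, `Q e' = 0` (`e' = y + Q(y) e` for `f e y = 1`).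
* `G4_step`: if `Q u = 0`, `f v u = f w u ≠ 0` and `Q v = Q w` then one Siegel transformation maps `v` to `w`.
* `trans_Q`: by `G4_step` every `v` with `Q v = α ≠ 0` is moved to `x e + (α/x) e'`; and `x e + y e'` is moved by `G4_step`
  (`u = e`) to `x1 e + y e' + z w0`, `w0 ∈ ⟨e, e'⟩^⊥`, `Q w0 ≠ 0`, `z² Q w0 = α - x1 y`, then (`u = e'`) to
  `x1 e + (α/x1) e'`.
* `refl_prod`: `r_u r_v ∈ EUQ`: scale `v` (`reflQ_smul`, `Q(c v) = c² Q v`) such that `Q u = Q v`; `e v = u` with `e ∈ EUQ`;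
  `r_u = e r_v e⁻¹`, `r_u r_v = e (r_v e⁻¹ r_v⁻¹) ∈ EUQ` (`EUQ_conj`).
-/

namespace Pool.Agent.CTE

open Module Pool.Agent.CTO

section step

variable {K V : Type} [Field K] [AddCommGroup V] [Module K V]

lemma G4_add_self (two : (2 : K) = 0) (a : K) : a + a = 0 := by
  rw [← two_mul, two, zero_mul]

lemma G4_symm (f : V → V → K) (hf : IsHF (RingHom.id K) 1 f) (v w : V) : f w v = f v w := by
  rw [hf.herm v w, one_mul, RingHom.id_apply]

lemma G4_smul_right (f : V → V → K) (hf : IsHF (RingHom.id K) 1 f) (a : K) (v w : V) :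
    f v (a • w) = a * f v w := by
  rw [G2_smul_right hf, RingHom.id_apply]

lemma G4_Q_zero (f : V → V → K) (Q : V → K) (hQ : IsQF f Q) : Q 0 = 0 := by
  have h := hQ.smul 0 0
  rw [smul_zero] at h
  rw [h]; ring

/-- one Siegel transformation -/
lemma G4_step (two : (2 : K) = 0) (f : V → V → K) (hf : IsHF (RingHom.id K) 1 f) (ha : Alt f)
    (Q : V → K) (hQ : IsQF f Q) (u v w : V) (hu : Q u = 0) (h0 : f v u ≠ 0)
    (h1 : f v u = f w u) (h2 : Q v = Q w) : ∃ g ∈ EUQ f Q, g v = w := by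
  set a := f v u with haa
  have hneg : (-1 : K) = 1 := by linear_combination (-1 : K) * two
  have hw0 : f (a⁻¹ • (w + v)) u = 0 := by
    rw [hf.smul_left, hf.add_left, ← h1, ← haa, G4_add_self two, mul_zero]
  obtain ⟨g, hg⟩ := exists_sieg two f hf ha Q hQ u (a⁻¹ • (w + v)) hu hw0
  refine ⟨g, Subgroup.subset_closure ⟨u, _, hu, hw0, hg⟩, ?_⟩
  rw [hg, ← haa, smul_smul, mul_inv_cancel₀ h0, one_smul]
  have e1 : f v (a⁻¹ • (w + v)) = a⁻¹ * f v w := by
    rw [G4_smul_right f hf, G2_add_right hf, ha v, add_zero]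
  have e2 : Q (a⁻¹ • (w + v)) = a⁻¹ * a⁻¹ * f v w := by
    rw [hQ.smul, hQ.add, h2, G4_add_self two, zero_add, G4_symm f hf v w]
  have e3 : a⁻¹ * f v w + a⁻¹ * a⁻¹ * f v w * a = 0 := by
    have : a⁻¹ * a⁻¹ * f v w * a = a⁻¹ * f v w := by
      field_simp
    rw [this, G4_add_self two]
  rw [e1, e2, add_assoc, ← add_smul, e3, zero_smul, add_zero]
  have e4 : v + v = 0 := by
    rw [← two_smul K v, two, zero_smul]
  rw [add_comm w v, ← add_assoc, e4, zero_add]

/-- reachability -/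
def G4_R (f : V → V → K) (Q : V → K) (v w : V) : Prop := ∃ g ∈ EUQ f Q, g v = w

lemma G4_R_trans {f : V → V → K} {Q : V → K} {v w z : V} (h : G4_R f Q v w) (h' : G4_R f Q w z) :
    G4_R f Q v z := by
  obtain ⟨g, hg, rfl⟩ := h
  obtain ⟨g', hg', rfl⟩ := h'
  exact ⟨g' * g, mul_mem hg' hg, rfl⟩

lemma G4_R_symm {f : V → V → K} {Q : V → K} {v w : V} (h : G4_R f Q v w) : G4_R f Q w v := by
  obtain ⟨g, hg, rfl⟩ := h
  exact ⟨g⁻¹, inv_mem hg, LinearEquiv.symm_apply_apply g v⟩

lemma G4_sq [Finite K] (two : (2 : K) = 0) (a : K) : ∃ c : K, c * c = a := by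
  have hK := Fintype.ofFinite K
  have hchar : ringChar K = 2 := by
    have h1 : CharP K (ringChar K) := ringChar.charP K
    have h2 : ringChar K ∣ 2 := by
      rw [← CharP.cast_eq_zero_iff K (ringChar K) 2]
      exact_mod_cast two
    have h3 : ringChar K ≠ 1 := by
      intro h
      have := ringChar.Nat.cast_ringChar (R := K)
      rw [h] at this
      simp at this
    rcases (Nat.dvd_prime Nat.prime_two).1 h2 with h | h
    · exact absurd h h3
    · exact h
  obtain ⟨c, hc⟩ := FiniteField.isSquare_of_char_two hchar a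
  exact ⟨c, hc.symm⟩

end step

variable {K V : Type} [Field K] [Finite K] [AddCommGroup V] [Module K V] [FiniteDimensional K V]

theorem exists_hyp (two : (2 : K) = 0) (f : V → V → K) (hf : IsHF (RingHom.id K) 1 f) (ha : Alt f)
    (Q : V → K) (hQ : IsQF f Q) (hV : 3 ≤ finrank K V) :
    ∃ e e' : V, Q e = 0 ∧ Q e' = 0 ∧ f e e' = 1 := by
  -- a singular vector
  obtain ⟨e, hne, he⟩ : ∃ e : V, e ≠ 0 ∧ Q e = 0 := by
    obtain ⟨v, hv0, -⟩ := G2_ker1 hf (by omega) (0 : V)
    by_cases hQv : Q v = 0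
    · exact ⟨v, hv0, hQv⟩
    obtain ⟨y, hy⟩ : ∃ y, f v y ≠ 0 := by
      by_contra hcon
      push Not at hcon
      exact hv0 (hf.nondeg v hcon)
    obtain ⟨z, hz, hzv, hzy⟩ := G2_ker2 hf hV v y
    obtain ⟨c, hc⟩ := G4_sq two (Q z / Q v)
    refine ⟨z + c • v, ?_, ?_⟩
    · intro h
      have h3 : f (z + c • v) y = 0 := by rw [h, G2_zero_left hf]
      rw [hf.add_left, hf.smul_left, hzy, zero_add] at h3
      rcases mul_eq_zero.1 h3 with h4 | h4
      · rw [h4, zero_smul, add_zero] at h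
        exact hz h
      · exact hy h4
    · rw [hQ.add, hQ.smul, G4_smul_right f hf, hzv, mul_zero, add_zero, hc,
        div_mul_cancel₀ _ hQv, G4_add_self two]
  obtain ⟨y, hy⟩ : ∃ y, f e y ≠ 0 := by
    by_contra hcon
    push Not at hcon
    exact hne (hf.nondeg e hcon)
  obtain ⟨y1, h1⟩ : ∃ y1, f e y1 = 1 :=
    ⟨(f e y)⁻¹ • y, by rw [G4_smul_right f hf, inv_mul_cancel₀ hy]⟩
  refine ⟨e, y1 + Q y1 • e, he, ?_, ?_⟩
  · rw [hQ.add, hQ.smul, he, mul_zero, add_zero, G4_smul_right f hf, G4_symm f hf e y1, h1,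
      mul_one, G4_add_self two]
  · rw [G2_add_right hf, G4_smul_right f hf, ha e, mul_zero, add_zero, h1]

omit [Finite K] in
/-- a nonsingular vector orthogonal to the hyperbolic plane -/
lemma G4_w0 (f : V → V → K) (hf : IsHF (RingHom.id K) 1 f) (ha : Alt f)
    (Q : V → K) (hQ : IsQF f Q) (hV : 3 ≤ finrank K V) (e e' : V) (hee' : f e e' = 1) :
    ∃ w : V, f w e = 0 ∧ f w e' = 0 ∧ Q w ≠ 0 := by
  by_contra hcon
  push Not at hcon
  obtain ⟨z, hz, hze, hze'⟩ := G2_ker2 hf hV e e'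
  apply hz
  apply hf.nondeg
  intro x
  have hp' : f e' e = 1 := by rw [G4_symm f hf e e', hee']
  have hy : ∃ y, f y e = 0 ∧ f y e' = 0 ∧ f z y = f z x := by
    refine ⟨x - (f x e') • e - (f x e) • e', ?_, ?_, ?_⟩
    · simp only [G2_sub_left hf, hf.smul_left, ha e, hp']
      ring
    · simp only [G2_sub_left hf, hf.smul_left, ha e', hee']
      ring
    · simp only [G2_sub_right hf, G4_smul_right f hf, hze, hze']
      ring
  obtain ⟨y, hye, hye', hzy⟩ := hy
  have h1 := hcon z hze hze'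
  have h2 := hcon y hye hye'
  have h3 := hcon (z + y) (by rw [hf.add_left, hze, hye, add_zero])
    (by rw [hf.add_left, hze', hye', add_zero])
  rw [hQ.add, h1, h2] at h3
  rw [← hzy]
  linear_combination h3

omit [Finite K] [FiniteDimensional K V] in
/-- every nonsingular vector is moved to the hyperbolic plane -/
lemma G4_stepA (two : (2 : K) = 0) (f : V → V → K) (hf : IsHF (RingHom.id K) 1 f) (ha : Alt f)
    (Q : V → K) (hQ : IsQF f Q) (e e' : V) (he : Q e = 0) (he' : Q e' = 0) (hee' : f e e' = 1)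
    (v : V) (hv : Q v ≠ 0) : ∃ x y : K, x * y = Q v ∧ G4_R f Q v (x • e + y • e') := by
  have hp' : f e' e = 1 := by rw [G4_symm f hf e e', hee']
  have hQxy : ∀ x y : K, Q (x • e + y • e') = x * y := by
    intro x y
    rw [hQ.add, hQ.smul, hQ.smul, he, he', hf.smul_left, G4_smul_right f hf, hee']
    ring
  have case1 : ∀ z : V, Q z = Q v → f z e' ≠ 0 →
      ∃ x y : K, x * y = Q v ∧ G4_R f Q z (x • e + y • e') := by
    intro z hz hze
    have hxy : f z e' * (Q v / f z e') = Q v := by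
      rw [mul_div_cancel₀ _ hze]
    refine ⟨f z e', Q v / f z e', hxy, ?_⟩
    apply G4_step two f hf ha Q hQ e' _ _ he' hze
    · rw [hf.add_left, hf.smul_left, hf.smul_left, hee', ha e']
      ring
    · rw [hQxy, hxy, hz]
  by_cases h1 : f v e' = 0
  · by_cases h2 : f v e = 0
    · -- orthogonal to the plane
      have hv0 : v ≠ 0 := by
        rintro rfl
        exact hv (G4_Q_zero f Q hQ)
      obtain ⟨y, hy⟩ : ∃ y, f v y ≠ 0 := by
        by_contra hcon
        push Not at hcon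
        exact hv0 (hf.nondeg v hcon)
      set w' := y + (f y e) • e' with hw'
      have hwe : f w' e = 0 := by
        rw [hw', hf.add_left, hf.smul_left, hp', mul_one, G4_add_self two]
      have hvw : f v w' = f v y := by
        rw [hw', G2_add_right hf, G4_smul_right f hf, h1, mul_zero, add_zero]
      obtain ⟨g, hg⟩ := exists_sieg two f hf ha Q hQ e w' he hwe
      have hgm : g ∈ EUQ f Q := Subgroup.subset_closure ⟨e, w', he, hwe, hg⟩
      have hgv : g v = v + f v w' • e := by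
        rw [hg, h2, zero_smul, mul_zero, zero_smul, add_zero, add_zero]
      have hQg : Q (g v) = Q v := (EUQ_le two f hf ha Q hQ hgm).2 v
      have hne : f (g v) e' ≠ 0 := by
        rw [hgv, hf.add_left, hf.smul_left, hee', h1, hvw, mul_one, zero_add]
        exact hy
      obtain ⟨x, y', hxy, hR⟩ := case1 (g v) hQg hne
      exact ⟨x, y', hxy, G4_R_trans ⟨g, hgm, rfl⟩ hR⟩
    · have hxy : Q v / f v e * f v e = Q v := div_mul_cancel₀ _ h2
      refine ⟨Q v / f v e, f v e, hxy, ?_⟩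
      apply G4_step two f hf ha Q hQ e _ _ he h2
      · rw [hf.add_left, hf.smul_left, hf.smul_left, hp', ha e]
        ring
      · rw [hQxy, hxy]
  · exact case1 v rfl h1

theorem trans_Q (two : (2 : K) = 0) (f : V → V → K) (hf : IsHF (RingHom.id K) 1 f) (ha : Alt f)
    (Q : V → K) (hQ : IsQF f Q) (hV : 3 ≤ finrank K V) (v w : V) (hv : Q v ≠ 0) (hvw : Q v = Q w) :
    ∃ g ∈ EUQ f Q, g v = w := by
  obtain ⟨e, e', he, he', hee'⟩ := exists_hyp two f hf ha Q hQ hV
  have hp' : f e' e = 1 := by rw [G4_symm f hf e e', hee']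
  obtain ⟨w₀, hwe, hwe', hww⟩ := G4_w0 f hf ha Q hQ hV e e' hee'
  have hew : f e w₀ = 0 := by rw [G4_symm f hf w₀ e, hwe]
  have hew' : f e' w₀ = 0 := by rw [G4_symm f hf w₀ e', hwe']
  obtain ⟨x, y, hxy, hR⟩ := G4_stepA two f hf ha Q hQ e e' he he' hee' v hv
  obtain ⟨x', y', hxy', hR'⟩ := G4_stepA two f hf ha Q hQ e e' he he' hee' w (by rw [← hvw]; exact hv)
  rw [← hvw] at hxy'
  refine G4_R_trans hR (G4_R_trans ?_ (G4_R_symm hR'))
  have hx : x ≠ 0 := by
    rintro rfl
    rw [zero_mul] at hxy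
    exact hv hxy.symm
  have hy : y ≠ 0 := by
    rintro rfl
    rw [mul_zero] at hxy
    exact hv hxy.symm
  have hx' : x' ≠ 0 := by
    rintro rfl
    rw [zero_mul] at hxy'
    exact hv hxy'.symm
  obtain ⟨z, hz⟩ := G4_sq two ((x * y - x' * y) / Q w₀)
  have hQ3 : ∀ a b c : K, Q (a • e + b • e' + c • w₀) = a * b + c * c * Q w₀ := by
    intro a b c
    rw [hQ.add, hQ.add, hQ.smul, hQ.smul, hQ.smul, he, he', hf.smul_left, G4_smul_right f hf,
      hee', hf.add_left, hf.smul_left, hf.smul_left, G4_smul_right f hf, G4_smul_right f hf,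
      hew, hew']
    ring
  have hQ2 : ∀ a b : K, Q (a • e + b • e') = a * b := by
    intro a b
    rw [hQ.add, hQ.smul, hQ.smul, he, he', hf.smul_left, G4_smul_right f hf, hee']
    ring
  have hzz : z * z * Q w₀ = x * y - x' * y := by
    rw [hz, div_mul_cancel₀ _ hww]
  have s1 : G4_R f Q (x • e + y • e') (x' • e + y • e' + z • w₀) := by
    apply G4_step two f hf ha Q hQ e _ _ he
    · rw [hf.add_left, hf.smul_left, hf.smul_left, hp', ha e]
      simpa using hy
    · simp only [hf.add_left, hf.smul_left, hp', ha e, hwe]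
      ring
    · rw [hQ2, hQ3, hzz]
      ring
  have s2 : G4_R f Q (x' • e + y • e' + z • w₀) (x' • e + y' • e') := by
    apply G4_step two f hf ha Q hQ e' _ _ he'
    · simp only [hf.add_left, hf.smul_left, hee', ha e', hwe']
      simpa using hx'
    · simp only [hf.add_left, hf.smul_left, hee', ha e', hwe']
      ring
    · rw [hQ2, hQ3, hzz, hxy', hxy]
      ring
  exact G4_R_trans s1 s2

theorem refl_prod (two : (2 : K) = 0) (f : V → V → K) (hf : IsHF (RingHom.id K) 1 f) (ha : Alt f)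
    (Q : V → K) (hQ : IsQF f Q) (hV : 3 ≤ finrank K V) (u v : V) (r r' : V ≃ₗ[K] V)
    (hr : IsReflQ f Q u r) (hr' : IsReflQ f Q v r') : r * r' ∈ EUQ f Q := by
  obtain ⟨c, hc⟩ := G4_sq two (Q u / Q v)
  have hQu := hr.1
  have hQv := hr'.1
  have hc0 : c ≠ 0 := by
    rintro rfl
    rw [zero_mul] at hc
    exact (div_ne_zero hQu hQv) hc.symm
  have hr'' := reflQ_smul f hf Q hQ v r' hr' c hc0
  have hQc : Q (c • v) = Q u := by
    rw [hQ.smul, hc, div_mul_cancel₀ _ hQv]
  obtain ⟨g, hg, hgv⟩ := trans_Q two f hf ha Q hQ hV (c • v) u hr''.1 hQc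
  have hgO := EUQ_le two f hf ha Q hQ hg
  have h1 := reflQ_conj two f hf ha Q hQ (c • v) r' g hr'' hgO
  rw [hgv] at h1
  have h2 : r = g * r' * g⁻¹ := by
    apply LinearEquiv.ext
    intro x
    rw [hr.2, h1.2]
  obtain ⟨h3, h4⟩ := reflQ_mem two f hf ha Q hQ v r' hr'
  have h5 := EUQ_conj two f hf ha Q hQ r' h3 g⁻¹ (inv_mem hg)
  have h6 : r'⁻¹ = r' := inv_eq_of_mul_eq_one_left h4
  rw [h6] at h5
  rw [h2]
  have h7 : g * r' * g⁻¹ * r' = g * (r' * g⁻¹ * r') := by
    simp only [mul_assoc]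
  rw [h7]
  exact mul_mem hg h5

end Pool.Agent.CTE
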