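import Pool.Agent.CTE.G3
import Pool.Agent.CTO.Y1

/-!
# CTE.G5a: the Dickson invariant

`char K = 2`, `K` finite with more than `4` elements, `f` nondegenerate alternating, `Q` with polar form `f`.
* `dick_refl`: for `g ∈ OQ f Q` and a reflection `r = r_u` the rank of `r g - 1` is the rank of `g - 1` plus or minus
  one; so `DickEven (r * g) ↔ ¬ DickEven g`. Let `W = range (g - 1)`.
  (a) `u ∈ W`, say `u = x - g x` (`= g x - x`). For `v ∈ V`, `w = v - g v ∈ W`:
  `v - r g v = w + (f(g v,u)/Q u) u` and `f(g v, u) = f(g v, x) - f(g v, g x) = f(g v, x) - f(v, x) = f(w, x)` (signs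
  are irrelevant), so `v - r g v = ℓ(w)` with `ℓ(w) = w + (f(w,x)/Q u) u`, a linear map `W → W`. `f(u,x) = f(g x,x)`
  and `Q u = Q(x + g x) = 2 Q x + f(x, g x) = f(x, g x)`, so `ℓ(u) = u + u = 0`, and `ker ℓ = K u` (`ℓ w = 0` implies
  `w ∈ K u`). So `rank (r g - 1) = dim W - 1`.
  (b) `u ∉ W`: `W = (Fix g)^⊥` (`W ⊆ (Fix g)^⊥` and dimensions), so there is `v` with `g v = v`, `f(v,u) ≠ 0`. Put
  `g' = r g`; `v - g' v = (f(v,u)/Q u) u`, so `u ∈ range (g' - 1)`, and by (a) for `g'` (`r g' = g`, as `r r = 1`)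
  `rank (g - 1) = rank (g' - 1) - 1`.
* `dick_one`: the rank of `0` is `0`.
-/

namespace Pool.Agent.CTE

open Module Pool.Agent.CTO

theorem G5a_zero {K V : Type} [Field K] [AddCommGroup V] [Module K V] {f : V → V → K} {Q : V → K}
    (hQ : IsQF f Q) : Q 0 = 0 := by
  have h := hQ.smul 0 0
  rw [zero_smul, mul_zero, zero_mul] at h
  exact h

theorem G5a_a {K V : Type} [Field K] [AddCommGroup V] [Module K V] [FiniteDimensional K V]
    (two : (2 : K) = 0) (f : V → V → K) (hf : IsHF (RingHom.id K) 1 f) (Q : V → K)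
    (hQ : IsQF f Q) (g : V ≃ₗ[K] V) (hg : g ∈ OQ f Q) (u : V) (r : V ≃ₗ[K] V)
    (hr : IsReflQ f Q u r) (hu : u ∈ LinearMap.range (g.toLinearMap - LinearMap.id)) :
    finrank K (LinearMap.range ((r * g).toLinearMap - LinearMap.id)) + 1
      = finrank K (LinearMap.range (g.toLinearMap - LinearMap.id)) := by
  obtain ⟨x, hx⟩ := hu
  have hx' : g x - x = u := hx
  have hneg : ∀ k : K, -k = k := fun k => by linear_combination (-k) * two
  have hu0 : u ≠ 0 := by
    rintro rfl
    exact hr.1 (G5a_zero hQ)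
  set W := LinearMap.range (g.toLinearMap - LinearMap.id) with hW
  let ℓ : V →ₗ[K] V := LinearMap.id + (((Q u)⁻¹ • (Y1_BL hf).flip x).smulRight u)
  have hℓ : ∀ w, ℓ w = w + ((Q u)⁻¹ * f w x) • u := fun w => rfl
  have hcomp : (r * g).toLinearMap - LinearMap.id = ℓ ∘ₗ (g.toLinearMap - LinearMap.id) := by
    ext v
    change r (g v) - v = ℓ (g v - v)
    rw [hr.2 (g v), hℓ]
    have h1 : f (g v) u = f (g v - v) x := by
      rw [← hx', sub_eq_add_neg, Y1_add_right hf, sub_eq_add_neg, hf.add_left,
        ← neg_one_smul K x, Y1_smul_right hf, ← neg_one_smul K v, hf.smul_left, hg.1]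
      linear_combination (f v x - f (g v) x) * two
    rw [h1, div_eq_mul_inv, mul_comm (f (g v - v) x)]
    abel
  have hQu : Q u = f u x := by
    have h1 : f u x = f (g x) x := by
      rw [← hx', sub_eq_add_neg, hf.add_left, ← neg_one_smul K x, hf.smul_left]
      have h2 : f x x = 0 := by
        have h3 := hQ.add x x
        have h4 : x + x = (0 : K) • x := by
          rw [← two, two_smul]
        rw [h4, hQ.smul] at h3
        linear_combination (-1) * h3 - (Q x) * two
      rw [h2]
      ring
    have h3 : u = g x + x := by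
      rw [← hx', sub_eq_add_neg]
      congr 1
      rw [← neg_one_smul K x, hneg 1, one_smul]
    rw [h1, h3, hQ.add, hg.2]
    linear_combination (Q x) * two
  have hℓu : ℓ u = 0 := by
    rw [hℓ, ← hQu, inv_mul_cancel₀ hr.1, one_smul]
    have h4 : u + u = (0 : K) • u := by
      rw [← two, two_smul]
    rw [h4, zero_smul]
  have hrange : LinearMap.range ((r * g).toLinearMap - LinearMap.id) =
      LinearMap.range (ℓ.domRestrict W) := by
    rw [hcomp, LinearMap.range_comp, LinearMap.range_domRestrict]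
  have huW : u ∈ W := ⟨x, hx⟩
  have hker : LinearMap.ker (ℓ.domRestrict W) = Submodule.span K {(⟨u, huW⟩ : W)} := by
    apply le_antisymm
    · intro w hw
      have hw' : ℓ (w : V) = 0 := hw
      rw [hℓ] at hw'
      rw [Submodule.mem_span_singleton]
      refine ⟨-((Q u)⁻¹ * f (w : V) x), ?_⟩
      apply Subtype.ext
      change (-((Q u)⁻¹ * f (w : V) x)) • u = (w : V)
      rw [neg_smul]
      exact (eq_neg_of_add_eq_zero_left hw').symm
    · rw [Submodule.span_singleton_le_iff_mem]
      exact hℓu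
  have hfin := LinearMap.finrank_range_add_finrank_ker (ℓ.domRestrict W)
  rw [hker, finrank_span_singleton (by
    intro h
    exact hu0 (congrArg Subtype.val h)), ← hrange] at hfin
  exact hfin

theorem G5a_rep {K V : Type} [Field K] [AddCommGroup V] [Module K V] [FiniteDimensional K V]
    (f : V → V → K) (hf : IsHF (RingHom.id K) 1 f) (φ : V →ₗ[K] K) :
    ∃ y, ∀ v, f y v = φ v := by
  have hinj : Function.Injective (Y1_BL hf) := by
    rw [← LinearMap.ker_eq_bot]
    rw [LinearMap.ker_eq_bot']
    intro m hm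
    apply hf.nondeg
    intro w
    exact LinearMap.congr_fun hm w
  have hs : Function.Surjective (Y1_BL hf) := by
    rw [← LinearMap.injective_iff_surjective_of_finrank_eq_finrank]
    · exact hinj
    · exact (Subspace.dual_finrank_eq (K := K) (V := V)).symm
  obtain ⟨y, hy⟩ := hs φ
  exact ⟨y, fun v => LinearMap.congr_fun hy v⟩

theorem dick_refl {K V : Type} [Field K] [AddCommGroup V] [Module K V] [FiniteDimensional K V]
    (two : (2 : K) = 0) (f : V → V → K) (hf : IsHF (RingHom.id K) 1 f) (ha : Alt f) (Q : V → K)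
    (hQ : IsQF f Q) (g : V ≃ₗ[K] V) (hg : g ∈ OQ f Q) (u : V) (r : V ≃ₗ[K] V)
    (hr : IsReflQ f Q u r) : DickEven (r * g) ↔ ¬ DickEven g := by
  obtain ⟨hrO, hrr⟩ := reflQ_mem two f hf ha Q hQ u r hr
  by_cases hu : u ∈ LinearMap.range (g.toLinearMap - LinearMap.id)
  · have h1 := G5a_a two f hf Q hQ g hg u r hr hu
    unfold DickEven
    rw [← h1, Nat.even_add_one, not_not]
  · obtain ⟨φ, hφ1, hφ2⟩ := Submodule.exists_le_ker_of_notMem hu
    obtain ⟨y, hy⟩ := G5a_rep f hf φ
    have hgy : g y = y := by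
      have h0 : ∀ v, f (g y - y) (g v) = 0 := by
        intro v
        have h1 : φ (g v - v) = 0 := hφ2 ⟨v, rfl⟩
        rw [map_sub, ← hy, ← hy] at h1
        rw [sub_eq_add_neg, hf.add_left, ← neg_one_smul K y, hf.smul_left, hg.1]
        linear_combination (-1) * h1
      have h2 : g y - y = 0 := by
        apply hf.nondeg
        intro w
        have h3 := h0 (g.symm w)
        rwa [LinearEquiv.apply_symm_apply] at h3
      exact sub_eq_zero.1 h2
    have hyu : f y u ≠ 0 := by rw [hy]; exact hφ1
    have hu' : u ∈ LinearMap.range ((r * g).toLinearMap - LinearMap.id) := by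
      refine ⟨(Q u / f y u) • y, ?_⟩
      rw [map_smul]
      have h1 : ((r * g).toLinearMap - (LinearMap.id : V →ₗ[K] V)) y = (f y u / Q u) • u := by
        change r (g y) - y = _
        rw [hgy, hr.2, add_sub_cancel_left]
      rw [h1, smul_smul]
      have h2 : Q u / f y u * (f y u / Q u) = 1 := by
        have := hr.1
        field_simp
      rw [h2, one_smul]
    have h1 := G5a_a two f hf Q hQ (r * g) (mul_mem hrO hg) u r hr hu'
    rw [← mul_assoc, hrr, one_mul] at h1
    unfold DickEven
    rw [← h1, Nat.even_add_one]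

theorem dick_one {K V : Type} [Field K] [AddCommGroup V] [Module K V] [FiniteDimensional K V] :
    DickEven (1 : V ≃ₗ[K] V) := by
  unfold DickEven
  have h : (1 : V ≃ₗ[K] V).toLinearMap - LinearMap.id = 0 := by
    ext v
    change v - v = 0
    exact sub_self v
  rw [h, LinearMap.range_zero, finrank_bot]
  exact Even.zero

end Pool.Agent.CTE
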