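import Pool.Agent.CTE.M1

/-!
# CTE.M2: polynomials, `ZD` and `psiM`

* `psi_poly`: substitute for the variable `(i, j)` of `p` the polynomial giving the entry `(i, j)` of `psiM x`
  (`X (i,j) ^ 2`, `∑ k, C (q k) * X (k,j) * X (bar k, j)`, `1`, `0`), of degree at most two
  (`MvPolynomial.bind₁`/`aeval`, `totalDegree` of a substitution: by induction on `p` or monomials; the
  `totalDegree` of `bind₁ f p` is at most `2 * totalDegree p` if all `f i` have degree `≤ 2`).
* `psi_ZD`: if `p` has degree `≤ D` and vanishes on `psiG H` then `p'` vanishes on `H` and has degree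
  `≤ 2 D`; so it vanishes at `x ∈ ZD (2 D) H`. (For `h ∈ H`, `psiM h` is the value of the unit `y` of
  `psi_unit`, which is in `psiG H`.)
* `psi_finite`, `psi_card`: if all the elements of `H` are isometries the set `{y | ∃ h ∈ H, y = psiM h}` is
  a subgroup (`psi_mul`, `psi_unit`), so it is all of `psiG H`, and `H → psiG H` is surjective.
-/

namespace Pool.Agent.CTE

open Matrix Pool.Agent.CTO

variable {F Ω : Type} [Field F] [Fintype Ω] [DecidableEq Ω]

theorem M2_totalDegree {σ τ : Type} (f : σ → MvPolynomial τ F) (hf : ∀ i, (f i).totalDegree ≤ 2)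
    (p : MvPolynomial σ F) : (MvPolynomial.bind₁ f p).totalDegree ≤ 2 * p.totalDegree := by
  classical
  rw [MvPolynomial.bind₁, MvPolynomial.aeval_def, MvPolynomial.eval₂_eq]
  refine MvPolynomial.totalDegree_finsetSum_le ?_
  intro d hd
  refine (MvPolynomial.totalDegree_mul _ _).trans ?_
  have h1 : (algebraMap F (MvPolynomial τ F) (MvPolynomial.coeff d p)).totalDegree = 0 :=
    MvPolynomial.totalDegree_C _
  rw [h1, zero_add]
  refine (MvPolynomial.totalDegree_finsetProd _ _).trans ?_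
  refine le_trans (Finset.sum_le_sum (g := fun i => 2 * d i) ?_) ?_
  · intro i _
    refine (MvPolynomial.totalDegree_pow _ _).trans ?_
    calc d i * (f i).totalDegree ≤ d i * 2 := Nat.mul_le_mul_left _ (hf i)
      _ = 2 * d i := mul_comm _ _
  · rw [← Finset.mul_sum]
    exact Nat.mul_le_mul_left _ (MvPolynomial.le_totalDegree hd)

/-- the polynomials of the entries of `psiM` -/
noncomputable def M2_L (bar : Ω → Ω) (q : Ω → F) : Option Ω × Option Ω → MvPolynomial (Ω × Ω) F :=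
  fun ij => match ij.1, ij.2 with
    | some i, some j => MvPolynomial.X (i, j) * MvPolynomial.X (i, j)
    | none, some j => ∑ k, MvPolynomial.C (q k) * (MvPolynomial.X (k, j) * MvPolynomial.X (bar k, j))
    | none, none => 1
    | some _, none => 0

omit [DecidableEq Ω] in
theorem M2_L_deg (bar : Ω → Ω) (q : Ω → F) (ij : Option Ω × Option Ω) :
    (M2_L bar q ij).totalDegree ≤ 2 := by
  obtain ⟨i, j⟩ := ij
  have hX : ∀ a b : Ω × Ω, (MvPolynomial.X a * MvPolynomial.X b : MvPolynomial (Ω × Ω) F).totalDegree ≤ 2 := by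
    intro a b
    refine (MvPolynomial.totalDegree_mul _ _).trans ?_
    rw [MvPolynomial.totalDegree_X, MvPolynomial.totalDegree_X]
  rcases i with _ | i <;> rcases j with _ | j
  · simp [M2_L]
  · simp only [M2_L]
    refine MvPolynomial.totalDegree_finsetSum_le ?_
    intro k _
    refine (MvPolynomial.totalDegree_mul _ _).trans ?_
    rw [MvPolynomial.totalDegree_C, zero_add]
    exact hX _ _
  · simp [M2_L]
  · simp only [M2_L]
    exact hX _ _

theorem M2_ev (x : Matrix Ω Ω F) (p : MvPolynomial (Ω × Ω) F) :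
    ev x p = MvPolynomial.aeval (fun ij : Ω × Ω => x ij.1 ij.2) p := by
  unfold ev
  rw [← MvPolynomial.coe_aeval_eq_eval]
  rfl

theorem psi_poly (bar : Ω → Ω) (q : Ω → F) (p : MvPolynomial (Option Ω × Option Ω) F) :
    ∃ p' : MvPolynomial (Ω × Ω) F, p'.totalDegree ≤ 2 * p.totalDegree ∧
      ∀ x : Matrix Ω Ω F, ev x p' = ev (psiM bar q x) p := by
  refine ⟨MvPolynomial.bind₁ (M2_L bar q) p, M2_totalDegree _ (M2_L_deg bar q) p, ?_⟩
  intro x
  rw [M2_ev, M2_ev, MvPolynomial.aeval_bind₁]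
  congr 2
  funext ij
  obtain ⟨i, j⟩ := ij
  rcases i with _ | i <;> rcases j with _ | j
  · simp [M2_L, psiM]
  · simp only [M2_L, psiM, Matrix.of_apply, map_sum, map_mul, MvPolynomial.aeval_C,
      MvPolynomial.aeval_X, Algebra.algebraMap_self, RingHom.id_apply]
    apply Finset.sum_congr rfl
    intro k _
    ring
  · simp [M2_L, psiM]
  · simp [M2_L, psiM]

theorem psi_ZD {bar : Ω → Ω} {q : Ω → F} (hq : QB bar q) (D : ℕ) (H : Subgroup (Matrix Ω Ω F)ˣ)
    (hH : ∀ h ∈ H, IsoM bar (fun _ => 1) (h : Matrix Ω Ω F)) (x : Matrix Ω Ω F)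
    (hx : x ∈ ZD (2 * D) H) : psiM bar q x ∈ ZD D (psiG bar q H) := by
  intro p hp hG
  obtain ⟨p', h1, h2⟩ := psi_poly bar q p
  rw [← h2]
  apply hx p' (h1.trans (Nat.mul_le_mul_left _ hp))
  intro h hh
  rw [h2]
  obtain ⟨y, hy, -⟩ := psi_unit hq h (hH h hh)
  rw [← hy]
  exact hG y (Subgroup.subset_closure ⟨h, hh, hy⟩)

theorem psi_mem {bar : Ω → Ω} {q : Ω → F} (hq : QB bar q) (H : Subgroup (Matrix Ω Ω F)ˣ)
    (hH : ∀ h ∈ H, IsoM bar (fun _ => 1) (h : Matrix Ω Ω F))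
    (y : (Matrix (Option Ω) (Option Ω) F)ˣ) (hy : y ∈ psiG bar q H) :
    ∃ h ∈ H, (y : Matrix (Option Ω) (Option Ω) F) = psiM bar q (h : Matrix Ω Ω F) := by
  unfold psiG at hy
  induction hy using Subgroup.closure_induction with
  | mem y hy => exact hy
  | one => exact ⟨1, H.one_mem, by rw [Units.val_one, Units.val_one, psi_one hq]⟩
  | mul a b _ _ ha hb =>
    obtain ⟨h, hh, e1⟩ := ha
    obtain ⟨h', hh', e2⟩ := hb
    refine ⟨h * h', H.mul_mem hh hh', ?_⟩
    rw [Units.val_mul, Units.val_mul, psi_mul hq _ _ (hH h hh) (hH h' hh'), e1, e2]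
  | inv a _ ha =>
    obtain ⟨h, hh, e1⟩ := ha
    obtain ⟨y', e2, e3⟩ := psi_unit hq h (hH h hh)
    have : a = y' := Units.ext (by rw [e1, e2])
    exact ⟨h⁻¹, H.inv_mem hh, by rw [this, e3]⟩

theorem M2_map {bar : Ω → Ω} {q : Ω → F} (hq : QB bar q) (H : Subgroup (Matrix Ω Ω F)ˣ)
    (hH : ∀ h ∈ H, IsoM bar (fun _ => 1) (h : Matrix Ω Ω F)) :
    ∃ f : H → psiG bar q H, Function.Surjective f := by
  have h1 : ∀ h : H, ∃ y : psiG bar q H,
      ((y : (Matrix (Option Ω) (Option Ω) F)ˣ) : Matrix (Option Ω) (Option Ω) F) =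
        psiM bar q ((h : (Matrix Ω Ω F)ˣ) : Matrix Ω Ω F) := by
    intro h
    obtain ⟨y, hy, -⟩ := psi_unit hq h.1 (hH h.1 h.2)
    exact ⟨⟨y, Subgroup.subset_closure ⟨h.1, h.2, hy⟩⟩, hy⟩
  choose f hf using h1
  refine ⟨f, ?_⟩
  rintro ⟨y, hy⟩
  obtain ⟨h, hh, e⟩ := psi_mem hq H hH y hy
  refine ⟨⟨h, hh⟩, ?_⟩
  apply Subtype.ext
  apply Units.ext
  rw [hf]
  exact e.symm

theorem psi_finite {bar : Ω → Ω} {q : Ω → F} (hq : QB bar q) (H : Subgroup (Matrix Ω Ω F)ˣ)
    [Finite H] (hH : ∀ h ∈ H, IsoM bar (fun _ => 1) (h : Matrix Ω Ω F)) :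
    Finite (psiG bar q H) := by
  obtain ⟨f, hf⟩ := M2_map hq H hH
  exact Finite.of_surjective f hf

theorem psi_card {bar : Ω → Ω} {q : Ω → F} (hq : QB bar q) (H : Subgroup (Matrix Ω Ω F)ˣ)
    [Finite H] (hH : ∀ h ∈ H, IsoM bar (fun _ => 1) (h : Matrix Ω Ω F)) :
    Nat.card (psiG bar q H) ≤ Nat.card H := by
  obtain ⟨f, hf⟩ := M2_map hq H hH
  exact Nat.card_le_card_of_surjective f hf

end Pool.Agent.CTE
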