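import Pool.Agent.CTE.Psi

/-!
# CTE.M3: isolation of weights

* `isolate`: `L` is stable under conjugation by the `dU (t ^ n i)`, `t` a unit. Conjugation multiplies the
  entry `(i, j)` by `t ^ (n i - n j)`. So `∑_w t ^ w • X_w ∈ L` for all `t ≠ 0`, where `X_w` is the part of `X` at
  the places with `n i - n j = w` (finitely many `w`). Let `φ` be a linear functional vanishing on `L` (if
  `X_w ∉ L` there is `φ` with `φ X_w ≠ 0`: `Submodule.exists_le_ker_of_notMem`-like); `∑_w φ(X_w) t ^ w = 0` for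
  all `t ≠ 0`, a Laurent polynomial with infinitely many zeros (`F` infinite; multiply by `t ^ M`), so
  `φ(X_w) = 0` for all `w`.
* `exists_weight`: enumerate the pairs `{k, bar k}` (choose a linear order or an injection `e : Ω → ℕ`, let `r k =
  min (e k) (e (bar k))`), `n k = 5 ^ (r k + 1)` if `e k < e (bar k)` and `- 5 ^ (r k + 1)` otherwise. Properties:
  `n (bar k) = - n k`; `n k ≠ 0`; `n a + n b = n c` never holds (divide by the smallest power of `5`: a sum
  of three terms `± 5 ^ i` is never `0`: mod the second smallest power; `±1 ±1 ±1 ≠ 0 mod 5`, etc.); and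
  `n a + n b = n c + n d ≠ 0` implies `{a, b} = {c, d}` (uniqueness of the representation with digits in
  `{-2..2}` in base `5`: if the exponents of `a`, `b` are different the digits are `±1, ±1`; if `a = b` the
  digit is `±2`; `b = bar a` gives `0`).
  (Alternatively choose `n k = ± N ^ (r k + 1)` for a large `N`, or prove the existence of `n` by a different
  argument, e.g. finitely many linear forms over `ℤ` are nonzero at some integer point.)
-/

namespace Pool.Agent.CTE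

open Matrix Pool.Agent.CTO

variable {F Ω : Type} [Field F] [Fintype Ω] [DecidableEq Ω]

omit [Fintype Ω] [DecidableEq Ω] [Field F] in
theorem M3_bound [Finite Ω] (n : Ω → ℤ) : ∃ M : ℕ, ∀ i, |n i| ≤ M := by
  classical
  have := Fintype.ofFinite Ω
  refine ⟨∑ i, (n i).natAbs, fun i => ?_⟩
  have h1 : (n i).natAbs ≤ ∑ i, (n i).natAbs :=
    Finset.single_le_sum (f := fun i => (n i).natAbs) (fun _ _ => Nat.zero_le _) (Finset.mem_univ i)
  have h2 : |n i| = ((n i).natAbs : ℤ) := (Int.natCast_natAbs (n i)).symm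
  rw [h2]
  exact_mod_cast h1

theorem isolate [Infinite F] (L : Submodule F (Matrix Ω Ω F)) (n : Ω → ℤ)
    (hL : ∀ (t : Fˣ), ∀ X ∈ L, ((dU (fun i => t ^ n i) : (Matrix Ω Ω F)ˣ) : Matrix Ω Ω F) * X *
      (((dU (fun i => t ^ n i))⁻¹ : (Matrix Ω Ω F)ˣ) : Matrix Ω Ω F) ∈ L)
    (X : Matrix Ω Ω F) (hX : X ∈ L) (w : ℤ) :
    (of fun i j => if n i - n j = w then X i j else 0) ∈ L := by
  classical
  obtain ⟨W, hW⟩ : ∃ W : ℤ → Matrix Ω Ω F, W = fun w => of fun i j => if n i - n j = w then X i j else 0 :=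
    ⟨_, rfl⟩
  have hWw : (of fun i j => if n i - n j = w then X i j else 0) = W w := by rw [hW]
  rw [hWw]
  have hWij : ∀ w i j, W w i j = if n i - n j = w then X i j else 0 := by
    intro w i j
    rw [hW]
    rfl
  obtain ⟨M, hM⟩ := M3_bound n
  have key : ∀ t : Fˣ, ∑ k ∈ Finset.range (4 * M + 1), ((t : F) ^ k) • W ((k : ℤ) - 2 * M) ∈ L := by
    intro t
    have h1 := hL t X hX
    have h2 : ∑ k ∈ Finset.range (4 * M + 1), ((t : F) ^ k) • W ((k : ℤ) - 2 * M) = ((t : F) ^ (2 * M)) •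
        (((dU (fun i => t ^ n i) : (Matrix Ω Ω F)ˣ) : Matrix Ω Ω F) * X *
      (((dU (fun i => t ^ n i))⁻¹ : (Matrix Ω Ω F)ˣ) : Matrix Ω Ω F)) := by
      ext i j
      have e1 : ((((dU (fun i => t ^ n i))⁻¹ : (Matrix Ω Ω F)ˣ) : Matrix Ω Ω F)) =
          diagonal fun i => (((t ^ n i)⁻¹ : Fˣ) : F) := rfl
      rw [e1, dU_val, Matrix.smul_apply, Matrix.mul_diagonal, Matrix.diagonal_mul, Matrix.sum_apply]
      obtain ⟨a1, a2⟩ := abs_le.1 (hM i)
      obtain ⟨b1, b2⟩ := abs_le.1 (hM j)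
      obtain ⟨k0, hk0⟩ : ∃ k0 : ℕ, (k0 : ℤ) = n i - n j + 2 * M := ⟨(n i - n j + 2 * M).toNat, by omega⟩
      have hk1 : k0 ∈ Finset.range (4 * M + 1) := by
        rw [Finset.mem_range]
        omega
      rw [Finset.sum_eq_single_of_mem k0 hk1]
      · rw [Matrix.smul_apply, hWij, if_pos (by omega), smul_eq_mul, smul_eq_mul]
        have e2 : (t : F) ^ k0 = (t : F) ^ (2 * M) * ((t ^ n i : Fˣ) : F) * (((t ^ n j)⁻¹ : Fˣ) : F) := by
          have e3 : t ^ (k0 : ℤ) = t ^ ((2 * M : ℕ) : ℤ) * t ^ n i * (t ^ n j)⁻¹ := by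
            rw [← _root_.zpow_neg, ← _root_.zpow_add, ← _root_.zpow_add]
            congr 1
            push_cast
            omega
          rw [zpow_natCast, zpow_natCast] at e3
          have e4 := congrArg (fun u : Fˣ => (u : F)) e3
          simpa using e4
        rw [e2]
        ring
      · intro k _ hk
        rw [Matrix.smul_apply, hWij, if_neg (by omega), smul_zero]
    rw [h2]
    exact L.smul_mem _ h1
  by_cases hw : |w| ≤ 2 * M
  · obtain ⟨w1, w2⟩ := abs_le.1 hw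
    rw [← Subspace.dualAnnihilator_dualCoannihilator_eq (W := L), Submodule.mem_dualCoannihilator]
    intro φ hφ
    rw [Submodule.mem_dualAnnihilator] at hφ
    obtain ⟨P, hP⟩ : ∃ P : Polynomial F, P = ∑ k ∈ Finset.range (4 * M + 1),
        Polynomial.C (φ (W ((k : ℤ) - 2 * M))) * Polynomial.X ^ k := ⟨_, rfl⟩
    have hP0 : P = 0 := by
      refine Polynomial.eq_zero_of_infinite_isRoot P ?_
      refine Set.Infinite.mono ?_ (Set.finite_singleton (0 : F)).infinite_compl
      intro x hx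
      have hx0 : x ≠ 0 := by simpa using hx
      have h1 := hφ _ (key (Units.mk0 x hx0))
      rw [map_sum] at h1
      show P.eval x = 0
      rw [hP, Polynomial.eval_finsetSum, ← h1]
      refine Finset.sum_congr rfl fun k _ => ?_
      rw [map_smul, Polynomial.eval_mul, Polynomial.eval_C, Polynomial.eval_pow, Polynomial.eval_X, smul_eq_mul,
        Units.val_mk0, mul_comm]
    obtain ⟨k0, hk0⟩ : ∃ k0 : ℕ, (k0 : ℤ) = w + 2 * M := ⟨(w + 2 * M).toNat, by omega⟩
    have h3 : P.coeff k0 = φ (W w) := by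
      rw [hP, Polynomial.finsetSum_coeff, Finset.sum_eq_single_of_mem k0 (by rw [Finset.mem_range]; omega)]
      · rw [Polynomial.coeff_C_mul_X_pow, if_pos rfl]
        congr 2
        omega
      · intro k _ hk
        rw [Polynomial.coeff_C_mul_X_pow, if_neg (Ne.symm hk)]
    rw [← h3, hP0, Polynomial.coeff_zero]
  · have h0 : W w = 0 := by
      ext i j
      rw [hWij, if_neg, Matrix.zero_apply]
      intro h
      apply hw
      obtain ⟨a1, a2⟩ := abs_le.1 (hM i)
      obtain ⟨b1, b2⟩ := abs_le.1 (hM j)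
      rw [abs_le]
      omega
    rw [h0]
    exact L.zero_mem

theorem M3_half {A B : ℤ} (hA : A ≠ 0) (h : |B| = |A| ∨ 5 * |B| ≤ |A|) (h0 : A + B ≠ 0) :
    4 * |A| ≤ 5 * |A + B| ∧ |A + B| ≤ 2 * |A| ∧ (0 < A ↔ 0 < A + B) := by
  rcases abs_cases A with ⟨e1, e2⟩ | ⟨e1, e2⟩ <;> rcases abs_cases B with ⟨e3, e4⟩ | ⟨e3, e4⟩ <;>
    rcases abs_cases (A + B) with ⟨e5, e6⟩ | ⟨e5, e6⟩ <;> rw [e1, e3] at h <;> rw [e1, e5] <;>
    refine ⟨?_, ?_, ?_⟩ <;> omega

theorem M3_key {A B C D : ℤ} (hA : A ≠ 0) (hC : C ≠ 0) (h1 : |B| = |A| ∨ 5 * |B| ≤ |A|)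
    (h2 : |D| = |C| ∨ 5 * |D| ≤ |C|) (h3 : |A| = |C| ∨ 5 * |A| ≤ |C| ∨ 5 * |C| ≤ |A|)
    (h : A + B = C + D) (h0 : A + B ≠ 0) : A = C := by
  obtain ⟨p1, p2, p3⟩ := M3_half hA h1 h0
  obtain ⟨q1, q2, q3⟩ := M3_half hC h2 (h ▸ h0)
  rw [← h] at q1 q2 q3
  have a0 : 0 < |A| := abs_pos.2 hA
  have c0 : 0 < |C| := abs_pos.2 hC
  have e : |A| = |C| := by omega
  rcases abs_cases A with ⟨e1, e2⟩ | ⟨e1, e2⟩ <;> rcases abs_cases C with ⟨e3, e4⟩ | ⟨e3, e4⟩ <;> omega

theorem M3_pow (x y : ℕ) : (5 : ℤ) ^ x = 5 ^ y ∨ 5 * (5 : ℤ) ^ x ≤ 5 ^ y ∨ 5 * (5 : ℤ) ^ y ≤ 5 ^ x := by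
  rcases lt_trichotomy x y with h | h | h
  · right; left
    rw [← pow_succ']
    exact pow_le_pow_right₀ (by norm_num) h
  · left; rw [h]
  · right; right
    rw [← pow_succ']
    exact pow_le_pow_right₀ (by norm_num) h

omit [Fintype Ω] in
theorem exists_weight [Finite Ω] (bar : Ω → Ω) (hinv : ∀ i, bar (bar i) = i)
    (hfix : ∀ i, bar i ≠ i) :
    ∃ n : Ω → ℤ, (∀ k, n (bar k) = - n k) ∧ (∀ k, n k ≠ 0) ∧ (∀ a b c, n a + n b ≠ n c) ∧
      (∀ a b c d, n a + n b = n c + n d → n a + n b ≠ 0 → (a = c ∧ b = d) ∨ (a = d ∧ b = c)) := by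
  classical
  obtain ⟨e, he⟩ : ∃ e : Ω → ℕ, Function.Injective e :=
    ⟨fun x => (Finite.equivFin Ω x : ℕ), fun x y h => (Finite.equivFin Ω).injective (Fin.ext h)⟩
  have hne : ∀ k, e (bar k) ≠ e k := fun k h => hfix k (he h)
  obtain ⟨n, hn⟩ : ∃ n : Ω → ℤ, n = fun k => if e k < e (bar k) then (5 : ℤ) ^ e k else - 5 ^ e (bar k) :=
    ⟨_, rfl⟩
  have hp : ∀ m : ℕ, (0 : ℤ) < 5 ^ m := fun m => by positivity
  have hpos : ∀ k, e k < e (bar k) → n k = 5 ^ e k := fun k h => by rw [hn]; exact if_pos h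
  have hneg : ∀ k, ¬ e k < e (bar k) → n k = - 5 ^ e (bar k) := fun k h => by rw [hn]; exact if_neg h
  have hbar : ∀ k, n (bar k) = - n k := by
    intro k
    have h1 := hne k
    by_cases h : e k < e (bar k)
    · rw [hneg (bar k) (by rw [hinv]; omega), hpos k h, hinv]
    · rw [hpos (bar k) (by rw [hinv]; omega), hneg k h, neg_neg]
  have habs : ∀ k, ∃ m : ℕ, |n k| = 5 ^ m := by
    intro k
    by_cases h : e k < e (bar k)
    · exact ⟨e k, by rw [hpos k h, abs_of_pos (hp _)]⟩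
    · exact ⟨e (bar k), by rw [hneg k h, abs_neg, abs_of_pos (hp _)]⟩
  have hodd : ∀ k, n k % 2 = 1 := by
    intro k
    have h5 : ∀ m : ℕ, (5 : ℤ) ^ m % 2 = 1 := fun m => Int.odd_iff.1 (Odd.pow (by decide))
    by_cases h : e k < e (bar k)
    · rw [hpos k h, h5]
    · rw [hneg k h]
      have := h5 (e (bar k))
      omega
  have hn0 : ∀ k, n k ≠ 0 := fun k h => by
    have := hodd k
    rw [h] at this
    norm_num at this
  have hinj : ∀ a b, n a = n b → a = b := by
    intro a b h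
    by_cases ha : e a < e (bar a)
    · by_cases hb : e b < e (bar b)
      · rw [hpos a ha, hpos b hb] at h
        exact he (pow_right_injective₀ (by norm_num) (by norm_num) h)
      · rw [hpos a ha, hneg b hb] at h
        have h1 := hp (e a)
        have h2 := hp (e (bar b))
        omega
    · by_cases hb : e b < e (bar b)
      · rw [hneg a ha, hpos b hb] at h
        have h1 := hp (e (bar a))
        have h2 := hp (e b)
        omega
      · rw [hneg a ha, hneg b hb, neg_inj] at h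
        have h1 := he (pow_right_injective₀ (by norm_num) (by norm_num) h)
        rw [← hinv a, h1, hinv]
  have hcmp : ∀ a b, |n a| = |n b| ∨ 5 * |n a| ≤ |n b| ∨ 5 * |n b| ≤ |n a| := by
    intro a b
    obtain ⟨x, hx⟩ := habs a
    obtain ⟨y, hy⟩ := habs b
    rw [hx, hy]
    exact M3_pow x y
  refine ⟨n, hbar, hn0, ?_, ?_⟩
  · intro a b c h
    have h1 := hodd a
    have h2 := hodd b
    have h3 := hodd c
    omega
  · intro a b c d h h0
    -- the case where the first term is the largest in both sums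
    have main : ∀ a b c d : Ω, n a + n b = n c + n d → n a + n b ≠ 0 →
        (|n b| = |n a| ∨ 5 * |n b| ≤ |n a|) → (|n d| = |n c| ∨ 5 * |n d| ≤ |n c|) → a = c ∧ b = d := by
      intro a b c d h h0 h1 h2
      have h3 := M3_key (hn0 a) (hn0 c) h1 h2 (hcmp a c) h h0
      exact ⟨hinj _ _ h3, hinj _ _ (by omega)⟩
    have hab : (|n b| = |n a| ∨ 5 * |n b| ≤ |n a|) ∨ (|n a| = |n b| ∨ 5 * |n a| ≤ |n b|) := by
      rcases hcmp a b with h | h | h
      · exact Or.inl (Or.inl h.symm)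
      · exact Or.inr (Or.inr h)
      · exact Or.inl (Or.inr h)
    have hcd : (|n d| = |n c| ∨ 5 * |n d| ≤ |n c|) ∨ (|n c| = |n d| ∨ 5 * |n c| ≤ |n d|) := by
      rcases hcmp c d with h | h | h
      · exact Or.inl (Or.inl h.symm)
      · exact Or.inr (Or.inr h)
      · exact Or.inl (Or.inr h)
    rcases hab with h1 | h1 <;> rcases hcd with h2 | h2
    · exact Or.inl (main a b c d h h0 h1 h2)
    · exact Or.inr (main a b d c (by omega) h0 h1 h2)
    · obtain ⟨x, y⟩ := main b a c d (by omega) (by omega) h1 h2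
      exact Or.inr ⟨y, x⟩
    · obtain ⟨x, y⟩ := main b a d c (by omega) (by omega) h1 h2
      exact Or.inl ⟨y, x⟩

end Pool.Agent.CTE
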