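import Pool.Agent.CTE.M2
import Pool.Agent.CTE.M3
import Pool.Agent.CTO.M4
import Pool.Agent.CTO.M5

/-!
# CTE.M4: first facts about the Lie algebra `LieM D (psiG H)`

`h : QSetup bar q D H g`; `L = LieM D (psiG bar q H)`; `HT = HT (barT bar) g` is the group generated by the
`dU z` and the `g * dU z * g⁻¹`, `z ∈ barT bar`.
* `ht_iso`, `ht_ZD`: the elements of `HT` are isometries and lie in `ZD (2 D) H` (closure induction: `T1`, `T2`,
  `ZD_mul`, `ZD_inv`, `ZD_of_mem`; `dU z` is an isometry: `z i * z (bar i) = 1`; the inverse of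
  `g * dU z * g⁻¹` is `g * dU z⁻¹ * g⁻¹`).
* `ht_conj`: for `x ∈ HT` and the unit `y` with `y = psiM x`, `y⁻¹ = psiM x⁻¹` (`psi_unit`): `y ∈ ZD D (psiG H)` by
  `psi_ZD`, so `L` is stable under conjugation by `y` (`LieM_conj`).
* `torus_conj`: for `m : Ω → ℤ` with `m (bar k) = - m k` and `m' (some k) = m k`, `m' none = 0`, `L` is stable
  under conjugation by `dU (t ^ m' i)`: `t = s ^ 2` (`F` algebraically closed), and `dU (t ^ m') = psiM (dU (s ^ m))`
  by `psi_dU`, with `dU (s ^ m) ∈ HT`.
* `ht_h`: `Wt bar a (bar a) = E_aa + E_(bar a)(bar a) ∈ L`: `LieM_torus` with the unit matrix and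
  `n = ` `1` at `some a`, `-1` at `some (bar a)`, `0` elsewhere: `dU (t ^ n) ∈ ZD D (psiG H)` as above; and `-1 = 1`
  in `F`.
* `col_none`: every polynomial of degree `≤ 1 ≤ D` vanishing on `psiG H` vanishes on `ZD D (psiG H)`; the entries
  `(some i, none)` of the elements of `psiG H` are `0`, and the entry `(none, none)` is `1`. So the
  tangent vectors `X` (`Y' - Q' 1`) have `X (some i) none = 0` and `X none none = 0`: for all but finitely
  many `t`, `Y(t) (some i) none = 0`, `Y(t) none none = Q(t)`, so these are identities of polynomials. Span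
  induction.
* `pick`: let `n` be the weight of `exists_weight`, extended by `n none = 0`; let `X ∈ L`, `i ≠ t`. If
  `X (some i) (some (bar t)) = X (some t) (some (bar i)) ≠ 0` then `Wt bar i t ∈ L`: if `t = bar i` this is `ht_h`
  (`Wt bar i (bar i)`); otherwise isolate the weight `n i + n t ≠ 0`: the only places `(a, b)` with
  `n a - n b = n i + n t` are `(some i, some (bar t))` and `(some t, some (bar i))`.
* `pick'`: if `X ∈ L` and `X none (some j) ≠ 0` then `Rt j ∈ L`: isolate the weight `- n j`: the places are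
  `(none, some j)` and `(some (bar j), none)`, where `X` is zero by `col_none`.
-/

namespace Pool.Agent.CTE

open Matrix Pool.Agent.CTO

section

variable {F Ω : Type} [Field F] [Fintype Ω] [DecidableEq Ω] {bar : Ω → Ω} {q : Ω → F} {D : ℕ}
  {H : Subgroup (Matrix Ω Ω F)ˣ} {g : (Matrix Ω Ω F)ˣ}

lemma M4_iso_one {bar : Ω → Ω} (hinv : ∀ i, bar (bar i) = i) :
    IsoM bar (fun _ => 1) (1 : Matrix Ω Ω F) := by
  have h1 : starM bar (fun _ => 1) (1 : Matrix Ω Ω F) = 1 := by
    ext i j
    simp only [starM, of_apply, one_mul]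
    by_cases hij : i = j
    · rw [hij, one_apply_eq, one_apply_eq]
    · rw [one_apply_ne hij, one_apply_ne]
      intro e
      exact hij (by rw [← hinv i, ← e, hinv])
  unfold IsoM
  rw [h1, one_mul]
  exact ⟨rfl, rfl⟩

lemma M4_iso_dU {bar : Ω → Ω} (hinv : ∀ i, bar (bar i) = i) (z : Ω → Fˣ) (hz : z ∈ barT bar) :
    IsoM bar (fun _ => 1) ((dU z : (Matrix Ω Ω F)ˣ) : Matrix Ω Ω F) := by
  have h1 : starM bar (fun _ => 1) ((dU z : (Matrix Ω Ω F)ˣ) : Matrix Ω Ω F) =
      diagonal fun i => (z (bar i) : F) := by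
    ext i j
    simp only [starM, of_apply, one_mul, dU_val]
    by_cases hij : i = j
    · rw [hij, diagonal_apply_eq, diagonal_apply_eq]
    · rw [diagonal_apply_ne _ hij, diagonal_apply_ne]
      intro e
      exact hij (by rw [← hinv i, ← e, hinv])
  have h2 : ∀ i, (z i : F) * z (bar i) = 1 := by
    intro i
    rw [← Units.val_mul, (hz i).1, Units.val_one]
  unfold IsoM
  rw [h1, dU_val, diagonal_mul_diagonal, diagonal_mul_diagonal]
  constructor
  · rw [← diagonal_one]
    congr 1
    funext i
    exact h2 i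
  · rw [← diagonal_one]
    congr 1
    funext i
    rw [mul_comm]
    exact h2 i

theorem ht_iso (h : QSetup bar q D H g) (x : (Matrix Ω Ω F)ˣ)
    (hx : x ∈ HT (barT bar : Set (Ω → Fˣ)) g) : IsoM bar (fun _ => 1) (x : Matrix Ω Ω F) := by
  have hinv := h.qb.inv
  unfold HT at hx
  induction hx using Subgroup.closure_induction with
  | mem y hy =>
    rcases hy with ⟨z, hz, rfl⟩ | ⟨z, hz, rfl⟩
    · exact M4_iso_dU hinv z hz
    · rw [Units.val_mul, Units.val_mul]
      exact iso_mul hinv _ _ (iso_mul hinv _ _ h.gi (M4_iso_dU hinv z hz)) (iso_inv hinv g h.gi).1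
  | one => exact M4_iso_one hinv
  | mul y z _ _ hy hz =>
    rw [Units.val_mul]
    exact iso_mul hinv _ _ hy hz
  | inv y _ hy => exact (iso_inv hinv y hy).1

theorem ht_ZD (h : QSetup bar q D H g) (x : (Matrix Ω Ω F)ˣ)
    (hx : x ∈ HT (barT bar : Set (Ω → Fˣ)) g) : (x : Matrix Ω Ω F) ∈ ZD (2 * D) H := by
  unfold HT at hx
  induction hx using Subgroup.closure_induction with
  | mem y hy =>
    rcases hy with ⟨z, hz, rfl⟩ | ⟨z, hz, rfl⟩
    · exact h.T1 z hz
    · exact h.T2 z hz
  | one => exact ZD_of_mem _ H (one_mem H)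
  | mul y z _ _ hy hz =>
    rw [Units.val_mul]
    exact ZD_mul _ H hy hz
  | inv y _ hy => exact ZD_inv _ H y hy

theorem ht_conj (h : QSetup bar q D H g) (x : (Matrix Ω Ω F)ˣ)
    (hx : x ∈ HT (barT bar : Set (Ω → Fˣ)) g) (X : Matrix (Option Ω) (Option Ω) F)
    (hX : X ∈ LieM D (psiG bar q H)) :
    psiM bar q (x : Matrix Ω Ω F) * X * psiM bar q ((x⁻¹ : (Matrix Ω Ω F)ˣ) : Matrix Ω Ω F)
      ∈ LieM D (psiG bar q H) := by
  obtain ⟨y, hy1, hy2⟩ := psi_unit h.qb x (ht_iso h x hx)
  rw [← hy1, ← hy2]
  refine LieM_conj D (psiG bar q H) y ?_ hX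
  rw [hy1]
  exact psi_ZD h.qb D H h.Hi _ (ht_ZD h x hx)

lemma M4_torus [IsAlgClosed F] (h : QSetup bar q D H g) (m : Ω → ℤ)
    (hm : ∀ k, m (bar k) = - m k) (t : Fˣ) :
    ((dU (fun i : Option Ω => t ^ (Option.elim i 0 m)) : (Matrix (Option Ω) (Option Ω) F)ˣ) :
        Matrix (Option Ω) (Option Ω) F) ∈ ZD D (psiG bar q H) := by
  obtain ⟨s, hs⟩ := IsAlgClosed.exists_pow_nat_eq (t : F) (n := 2) (by norm_num)
  have hs0 : s ≠ 0 := by
    rintro rfl
    apply t.ne_zero
    rw [← hs]
    norm_num
  obtain ⟨u, hu⟩ : ∃ u : Fˣ, (u : F) = s := ⟨Units.mk0 s hs0, rfl⟩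
  have hut : u * u = t := by
    apply Units.ext
    rw [Units.val_mul, hu, ← hs, sq]
  have hz : (fun i => u ^ m i) ∈ barT bar := by
    intro i
    refine ⟨?_, fun e => absurd e (h.qb.nofix i)⟩
    show u ^ m i * u ^ m (bar i) = 1
    rw [hm, ← _root_.zpow_add, add_neg_cancel, zpow_zero]
  have h1 := psi_ZD h.qb D H h.Hi _ (h.T1 _ hz)
  rw [psi_dU h.qb] at h1
  rw [dU_val]
  convert h1 using 2
  funext i
  cases i with
  | none =>
    show ((t ^ (0 : ℤ) : Fˣ) : F) = 1
    rw [zpow_zero, Units.val_one]
  | some k =>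
    show ((t ^ m k : Fˣ) : F) = ((u ^ m k : Fˣ) : F) * ((u ^ m k : Fˣ) : F)
    rw [← Units.val_mul, ← mul_zpow, hut]

theorem torus_conj [IsAlgClosed F] (h : QSetup bar q D H g) (m : Ω → ℤ)
    (hm : ∀ k, m (bar k) = - m k) (t : Fˣ) (X : Matrix (Option Ω) (Option Ω) F)
    (hX : X ∈ LieM D (psiG bar q H)) :
    ((dU (fun i : Option Ω => t ^ (Option.elim i 0 m)) : (Matrix (Option Ω) (Option Ω) F)ˣ) :
        Matrix (Option Ω) (Option Ω) F) * X *
      (((dU (fun i : Option Ω => t ^ (Option.elim i 0 m)))⁻¹ : (Matrix (Option Ω) (Option Ω) F)ˣ) :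
        Matrix (Option Ω) (Option Ω) F) ∈ LieM D (psiG bar q H) :=
  LieM_conj D (psiG bar q H) _ (M4_torus h m hm t) hX

theorem ht_h [IsAlgClosed F] (h : QSetup bar q D H g) (a : Ω) :
    (Wt bar a (bar a) : Matrix (Option Ω) (Option Ω) F) ∈ LieM D (psiG bar q H) := by
  obtain ⟨m, hmdef⟩ : ∃ m : Ω → ℤ, m = fun k => (if k = a then 1 else 0) - (if k = bar a then 1 else 0) :=
    ⟨_, rfl⟩
  have hm : ∀ k, m (bar k) = - m k := by
    intro k
    have h1 : (bar k = a) ↔ (k = bar a) :=
      ⟨fun e => by rw [← e, h.qb.inv], fun e => by rw [e, h.qb.inv]⟩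
    have h2 : (bar k = bar a) ↔ (k = a) :=
      ⟨fun e => by rw [← h.qb.inv k, e, h.qb.inv], fun e => by rw [e]⟩
    simp only [hmdef, h1, h2]
    ring
  have h1 := LieM_torus D (psiG bar q H) (1 : (Matrix (Option Ω) (Option Ω) F)ˣ)
    (fun i => Option.elim i 0 m) (by
      intro t
      rw [one_mul, inv_one, mul_one]
      exact M4_torus h m hm t)
  rw [inv_one, Units.val_one, one_mul, mul_one] at h1
  have h2 : (Wt bar a (bar a) : Matrix (Option Ω) (Option Ω) F) =
      diagonal (fun ω => ((Option.elim ω 0 m : ℤ) : F)) := by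
    have hneg : (-1 : F) = 1 := by
      have := h.qb.two
      linear_combination (-1 : F) * this
    have hba : bar a ≠ a := h.qb.nofix a
    unfold Wt
    rw [h.qb.inv]
    ext i j
    rw [Matrix.add_apply, Matrix.single_apply, Matrix.single_apply, diagonal_apply]
    cases i with
    | none =>
      rw [if_neg (by rintro ⟨e, _⟩; cases e), if_neg (by rintro ⟨e, _⟩; cases e)]
      simp
    | some i =>
      by_cases hij : some i = j
      · subst hij
        rw [if_pos rfl]
        simp only [Option.some.injEq, and_self, Option.elim_some, hmdef]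
        by_cases h1 : a = i
        · subst h1
          rw [if_pos rfl, if_neg hba, if_pos rfl, if_neg (Ne.symm hba)]
          simp
        · by_cases h2 : bar a = i
          · subst h2
            rw [if_neg h1, if_pos rfl, if_neg (Ne.symm h1), if_pos rfl]
            push_cast
            rw [zero_add, hneg]
          · rw [if_neg h1, if_neg h2, if_neg (Ne.symm h1), if_neg (Ne.symm h2)]
            simp
      · rw [if_neg hij, if_neg, if_neg, add_zero]
        · rintro ⟨e1, e2⟩
          exact hij (e1.symm.trans e2)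
        · rintro ⟨e1, e2⟩
          exact hij (e1.symm.trans e2)
  rw [h2]
  exact h1

lemma M4_ZD_none (h : QSetup bar q D H g) (y : Matrix (Option Ω) (Option Ω) F)
    (hy : y ∈ ZD D (psiG bar q H)) : (∀ i, y (some i) none = 0) ∧ y none none = 1 := by
  have hD := h.D1
  constructor
  · intro i
    have h1 := hy (MvPolynomial.X (some i, none)) ((MvPolynomial.totalDegree_X _).le.trans hD) (by
      intro z hz
      obtain ⟨x, _, hx⟩ := psi_mem h.qb H h.Hi z hz
      unfold ev
      rw [MvPolynomial.eval_X, hx]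
      rfl)
    unfold ev at h1
    rw [MvPolynomial.eval_X] at h1
    exact h1
  · have h1 := hy (MvPolynomial.X (none, none) - MvPolynomial.C 1)
      ((MvPolynomial.totalDegree_sub_C_le _ _).trans ((MvPolynomial.totalDegree_X _).le.trans hD)) (by
      intro z hz
      obtain ⟨x, _, hx⟩ := psi_mem h.qb H h.Hi z hz
      unfold ev
      rw [map_sub, MvPolynomial.eval_X, MvPolynomial.eval_C, hx]
      show (1 : F) - 1 = 0
      ring)
    unfold ev at h1
    rw [map_sub, MvPolynomial.eval_X, MvPolynomial.eval_C] at h1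
    exact sub_eq_zero.1 h1

lemma M4_poly [Infinite F] (P Q : Polynomial F) (S : Set F) (hS : S.Finite) (hQ : Q.eval 0 = 1)
    (hP : ∀ t : F, t ∉ S → Q.eval t ≠ 0 → P.eval t = 0) : P = 0 := by
  have hQ0 : Q ≠ 0 := by
    rintro rfl
    rw [Polynomial.eval_zero] at hQ
    exact zero_ne_one hQ
  have hfin : (S ∪ {t : F | Q.eval t = 0}).Finite := hS.union (Polynomial.finite_setOfPred_isRoot hQ0)
  apply Polynomial.eq_zero_of_infinite_isRoot
  refine (hfin.infinite_compl).mono ?_
  intro t ht
  exact hP t (fun e => ht (Or.inl e)) (fun e => ht (Or.inr e))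

theorem col_none [Infinite F] (h : QSetup bar q D H g) (X : Matrix (Option Ω) (Option Ω) F)
    (hX : X ∈ LieM D (psiG bar q H)) : (∀ i, X (some i) none = 0) ∧ X none none = 0 := by
  unfold LieM at hX
  induction hX using Submodule.span_induction with
  | mem y hy =>
    obtain ⟨Y, Q, S, hS, h0, hQ, hZ, rfl⟩ := hy
    constructor
    · intro i
      have h1 : Y (some i) none = 0 := by
        refine M4_poly _ Q S hS hQ fun t ht hQt => ?_
        have h2 := (M4_ZD_none h _ (hZ t ht hQt)).1 i
        rw [Matrix.smul_apply, Matrix.map_apply, smul_eq_mul] at h2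
        exact (mul_eq_zero.1 h2).resolve_left (inv_ne_zero hQt)
      rw [Matrix.sub_apply, Matrix.map_apply, h1, Matrix.smul_apply,
        one_apply_ne (by simp)]
      simp
    · have h1 : Y none none - Q = 0 := by
        refine M4_poly _ Q S hS hQ fun t ht hQt => ?_
        have h2 := (M4_ZD_none h _ (hZ t ht hQt)).2
        rw [Matrix.smul_apply, Matrix.map_apply, smul_eq_mul, inv_mul_eq_one₀ hQt] at h2
        rw [Polynomial.eval_sub, h2, sub_self]
      rw [Matrix.sub_apply, Matrix.map_apply, sub_eq_zero.1 h1, Matrix.smul_apply, one_apply_eq]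
      simp
  | zero => exact ⟨fun i => rfl, rfl⟩
  | add y z _ _ hy hz =>
    refine ⟨fun i => ?_, ?_⟩
    · rw [Matrix.add_apply, hy.1, hz.1, add_zero]
    · rw [Matrix.add_apply, hy.2, hz.2, add_zero]
  | smul c y _ hy =>
    refine ⟨fun i => ?_, ?_⟩
    · rw [Matrix.smul_apply, hy.1, smul_zero]
    · rw [Matrix.smul_apply, hy.2, smul_zero]

omit [Fintype Ω] [DecidableEq Ω] in
lemma M4_ninj {n : Ω → ℤ} (h2 : ∀ k, n k ≠ 0)
    (h4 : ∀ a b c d, n a + n b = n c + n d → n a + n b ≠ 0 → (a = c ∧ b = d) ∨ (a = d ∧ b = c))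
    (a b : Ω) (hab : n a = n b) : a = b := by
  rcases h4 a a a b (by rw [hab]) (by have := h2 a; omega) with h | h
  · exact h.2
  · exact h.1

theorem pick [IsAlgClosed F] (h : QSetup bar q D H g) (X : Matrix (Option Ω) (Option Ω) F)
    (hX : X ∈ LieM D (psiG bar q H)) (i t : Ω) (hit : i ≠ t)
    (hs : X (some i) (some (bar t)) = X (some t) (some (bar i)))
    (hne : X (some i) (some (bar t)) ≠ 0) :
    (Wt bar i t : Matrix (Option Ω) (Option Ω) F) ∈ LieM D (psiG bar q H) := by
  have hinf : Infinite F := IsAlgClosed.instInfinite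
  obtain ⟨n, hn1, hn2, hn3, hn4⟩ := exists_weight bar h.qb.inv h.qb.nofix
  by_cases hti : t = bar i
  · rw [hti]
    exact ht_h h i
  have hw : n i + n t ≠ 0 := by
    intro e
    apply hti
    refine M4_ninj hn2 hn4 t (bar i) ?_
    rw [hn1]
    omega
  have h1 := isolate (LieM D (psiG bar q H)) (fun k : Option Ω => Option.elim k 0 n)
    (fun t X hX => torus_conj h n hn1 t X hX) X hX (n i + n t)
  have h2 : (of fun a b : Option Ω => if Option.elim a 0 n - Option.elim b 0 n = n i + n t then X a b else 0) =
      X (some i) (some (bar t)) • (Wt bar i t : Matrix (Option Ω) (Option Ω) F) := by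
    ext a b
    rw [of_apply, Matrix.smul_apply, Wt, Matrix.add_apply, Matrix.single_apply, Matrix.single_apply,
      smul_eq_mul]
    cases a with
    | none =>
      rw [if_neg, if_neg (by rintro ⟨e, _⟩; cases e), if_neg (by rintro ⟨e, _⟩; cases e)]
      · ring
      · intro e
        cases b with
        | none =>
          simp only [Option.elim_none, sub_self] at e
          exact hw e.symm
        | some b =>
          simp only [Option.elim_none, Option.elim_some] at e
          refine hn3 i t (bar b) ?_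
          rw [hn1]
          omega
    | some a =>
      cases b with
      | none =>
        rw [if_neg, if_neg (by rintro ⟨_, e⟩; cases e), if_neg (by rintro ⟨_, e⟩; cases e)]
        · ring
        · intro e
          simp only [Option.elim_none, Option.elim_some, sub_zero] at e
          exact hn3 i t a e.symm
      | some b =>
        simp only [Option.elim_some, Option.some.injEq]
        by_cases e : n a - n b = n i + n t
        · rw [if_pos e]
          have e1 : n i + n t = n a + n (bar b) := by
            rw [hn1]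
            omega
          rcases hn4 i t a (bar b) e1 hw with ⟨ea, eb⟩ | ⟨ea, eb⟩
          · subst ea
            have eb' : bar t = b := by rw [eb, h.qb.inv]
            subst eb'
            rw [if_pos ⟨rfl, rfl⟩, if_neg (by rintro ⟨e3, _⟩; exact hit e3.symm)]
            ring
          · subst eb
            have eb' : bar i = b := by rw [ea, h.qb.inv]
            subst eb'
            rw [if_neg (by rintro ⟨e3, _⟩; exact hit e3), if_pos ⟨rfl, rfl⟩, ← hs]
            ring
        · rw [if_neg e, if_neg, if_neg]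
          · ring
          · rintro ⟨rfl, rfl⟩
            apply e
            rw [hn1]
            omega
          · rintro ⟨rfl, rfl⟩
            apply e
            rw [hn1]
            omega
  rw [h2] at h1
  have h3 := Submodule.smul_mem _ (X (some i) (some (bar t)))⁻¹ h1
  rwa [smul_smul, inv_mul_cancel₀ hne, one_smul] at h3

theorem pick' [IsAlgClosed F] (h : QSetup bar q D H g) (X : Matrix (Option Ω) (Option Ω) F)
    (hX : X ∈ LieM D (psiG bar q H)) (j : Ω) (hne : X none (some j) ≠ 0) :
    (Rt j : Matrix (Option Ω) (Option Ω) F) ∈ LieM D (psiG bar q H) := by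
  have hinf : Infinite F := IsAlgClosed.instInfinite
  obtain ⟨n, hn1, hn2, hn3, hn4⟩ := exists_weight bar h.qb.inv h.qb.nofix
  have h1 := isolate (LieM D (psiG bar q H)) (fun k : Option Ω => Option.elim k 0 n)
    (fun t X hX => torus_conj h n hn1 t X hX) X hX (- n j)
  have h2 : (of fun a b : Option Ω => if Option.elim a 0 n - Option.elim b 0 n = - n j then X a b else 0) =
      X none (some j) • (Rt j : Matrix (Option Ω) (Option Ω) F) := by
    ext a b
    rw [of_apply, Matrix.smul_apply, Rt, Matrix.single_apply, smul_eq_mul]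
    cases a with
    | none =>
      cases b with
      | none =>
        rw [if_neg, if_neg (by rintro ⟨_, e⟩; cases e), mul_zero]
        intro e
        simp only [Option.elim_none, sub_self] at e
        have := hn2 j
        omega
      | some b =>
        simp only [Option.elim_none, Option.elim_some, Option.some.injEq, true_and]
        by_cases e : j = b
        · subst e
          rw [if_pos (by omega), if_pos rfl, mul_one]
        · rw [if_neg, if_neg e, mul_zero]
          intro e'
          exact e (M4_ninj hn2 hn4 j b (by omega))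
    | some a =>
      rw [if_neg (c := none = some a ∧ _) (by rintro ⟨e, _⟩; cases e), mul_zero]
      cases b with
      | none =>
        rw [(col_none h X hX).1 a]
        simp
      | some b =>
        rw [if_neg]
        intro e
        simp only [Option.elim_some] at e
        refine hn3 a (bar b) (bar j) ?_
        rw [hn1, hn1]
        omega
  rw [h2] at h1
  have h3 := Submodule.smul_mem _ (X none (some j))⁻¹ h1
  rwa [smul_smul, inv_mul_cancel₀ hne, one_smul] at h3

end

end Pool.Agent.CTE
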