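import Pool.Agent.CTE.M4
import Pool.Agent.CTO.M11

/-!
# CTE.M5: `LieM D (psiG H)` contains all the root vectors `Wt a b`, `a ≠ b`

This is the argument of `CTO/M11.lean` (read its header; many auxiliary lemmas there can be copied, with
`ε = 1`, `s = 1`). Symbols of M4, `HT = HT (barT bar) g`. For `a ≠ b` say `a ~ b` if `Wt bar a b ∈ L`; it is
symmetric (`Wt bar a b = Wt bar b a`), and `a ~ bar a` (`ht_h`).
(e) For `x ∈ HT` and `a ≠ b` let `Y = psiM x * Wt a b * psiM x⁻¹`. With `(x⁻¹) k j = x (bar j) (bar k)`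
(`iso_inv`): `Y (some i) (some (bar t)) = x_ia² x_tb² + x_ib² x_ta² = (x_ia x_tb + x_ib x_ta)²`, symmetric in
`i`, `t`. So (`pick`): if `a ~ b`, `i ≠ t` and `x_ia x_tb + x_ib x_ta ≠ 0` for some `x ∈ HT`, then `i ~ t`.
(*) if `i ≠ t`, not `i ~ t`, `a ~ b`, then `x_ia x_tb = x_ib x_ta` for all `x ∈ HT` (characteristic two).
(f) `HT` is the group `HC g' n` of M4 of CTO (lemma `M11_HT`/`M11_mem_HC` of `CTO/M11.lean` can be imported: they
do not use the characteristic), so `generic` applies: finitely many polynomials in the entries of `x`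
and `x⁻¹`, each nonzero at some point of `HT`, are simultaneously nonzero at some point of `HT`. Every entry
is nonzero somewhere on `HT` (the span of `HT` is everything). So there is `x ∈ HT` with all entries nonzero.
Let `R` be the equivalence relation generated by `~`. By (*), for `i ≠ t` not related by `~`,
`x i c / x t c` is constant on the classes of `R`.
(g) `R i t`, `i ≠ t` imply `i ~ t`: if not, `x i i * x t t = x i t * x t i` for every `x ∈ HT` with all entries
nonzero; but the polynomial `x i i * x t t - x i t * x t i` is nonzero at `x = 1`, so there is `x ∈ HT` with all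
entries and this polynomial nonzero: contradiction.
(h) there is only one class: let `C` be the class of `a0` (any element); it contains `b0 = bar a0 ≠ a0`. If
there is `j` outside `C`, then for `i ∈ C`, `t ∉ C`: `x i a0 / x t a0 = x i b0 / x t b0`, and comparing all
`i ∈ C` with `j` and all `t ∉ C` with `a0` the columns `a0`, `b0` of `x` are proportional: contradiction.
So `a ~ b` for all `a ≠ b`.
-/

namespace Pool.Agent.CTE

open Matrix Pool.Agent.CTO

section

variable {F Ω : Type} [Field F] [Fintype Ω] [DecidableEq Ω] {bar : Ω → Ω} {q : Ω → F} {D : ℕ}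
  {H : Subgroup (Matrix Ω Ω F)ˣ} {g : (Matrix Ω Ω F)ˣ}

lemma M5_HC (h : QSetup bar q D H g) :
    HC (M11_g g) (M11_n bar) ≤ HT (barT bar : Set (Ω → Fˣ)) g := by
  unfold HC
  rw [Subgroup.closure_le]
  rintro x ⟨i, t, rfl⟩
  by_cases hi : i.1 = true
  · have : M11_g g i = g := if_pos hi
    rw [this]
    exact Subgroup.subset_closure (Or.inr ⟨_, M11_barT h.qb.inv i t, rfl⟩)
  · have : M11_g g i = 1 := if_neg hi
    rw [this, one_mul, inv_one, mul_one]
    exact Subgroup.subset_closure (Or.inl ⟨_, M11_barT h.qb.inv i t, rfl⟩)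

lemma M5_entry (h : QSetup bar q D H g) (i k : Ω) :
    ∃ x ∈ HC (M11_g g) (M11_n bar), (x : Matrix Ω Ω F) i k ≠ 0 := by
  by_contra hcon
  push Not at hcon
  have hle : Submodule.span F {x : Matrix Ω Ω F | ∃ h ∈ HT (barT bar : Set (Ω → Fˣ)) g,
      x = (h : Matrix Ω Ω F)} ≤ LinearMap.ker (Matrix.entryLinearMap F F i k) := by
    rw [Submodule.span_le]
    rintro x ⟨y, hy, rfl⟩
    show Matrix.entryLinearMap F F i k (y : Matrix Ω Ω F) = 0
    exact hcon y (M11_HT h.qb.inv g hy)
  have hs := h.span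
  unfold SpanTop at hs
  rw [hs] at hle
  have h1 : Matrix.single i k (1 : F) ∈ LinearMap.ker (Matrix.entryLinearMap F F i k) :=
    hle Submodule.mem_top
  have h2 : Matrix.entryLinearMap F F i k (Matrix.single i k (1 : F)) = 0 := h1
  have h3 : Matrix.entryLinearMap F F i k (Matrix.single i k (1 : F)) = 1 := by
    show Matrix.single i k (1 : F) i k = 1
    exact Matrix.single_apply_same ..
  rw [h3] at h2
  exact one_ne_zero h2

omit [Fintype Ω] in
lemma M5_symm (a b : Ω) :
    (Wt bar b a : Matrix (Option Ω) (Option Ω) F) = Wt bar a b := by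
  unfold Wt
  rw [add_comm]

omit [Fintype Ω] in
lemma M5_self (h2 : (2 : F) = 0) (a : Ω) :
    (Wt bar a a : Matrix (Option Ω) (Option Ω) F) = 0 := by
  unfold Wt
  rw [← two_smul F, h2, zero_smul]

lemma M5_conj_entry (h : QSetup bar q D H g) (x : (Matrix Ω Ω F)ˣ)
    (hx : IsoM bar (fun _ => 1) (x : Matrix Ω Ω F)) (a b i t : Ω) :
    (psiM bar q (x : Matrix Ω Ω F) * Wt bar a b *
        psiM bar q ((x⁻¹ : (Matrix Ω Ω F)ˣ) : Matrix Ω Ω F) : Matrix (Option Ω) (Option Ω) F)
        (some i) (some (bar t)) =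
      ((x : Matrix Ω Ω F) i a * (x : Matrix Ω Ω F) t b +
        (x : Matrix Ω Ω F) i b * (x : Matrix Ω Ω F) t a) ^ 2 := by
  have key : ∀ (A B : Matrix (Option Ω) (Option Ω) F) (c d e e' : Option Ω),
      (A * Matrix.single c d (1 : F) * B) e e' = A e c * B d e' := by
    intro A B c d e e'
    rw [mul_apply, Finset.sum_eq_single d]
    · rw [mul_apply, Finset.sum_eq_single c]
      · rw [Matrix.single_apply_same, mul_one]
      · intro k _ hk
        rw [Matrix.single_apply, if_neg (by rintro ⟨h1, _⟩; exact hk h1.symm), mul_zero]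
      · intro h
        exact absurd (Finset.mem_univ _) h
    · intro k _ hk
      rw [mul_apply, Finset.sum_eq_zero, zero_mul]
      intro l _
      rw [Matrix.single_apply, if_neg (by rintro ⟨_, h1⟩; exact hk h1.symm), mul_zero]
    · intro h
      exact absurd (Finset.mem_univ _) h
  have hinv := (iso_inv h.qb.inv x hx).2
  unfold Wt
  rw [mul_add, add_mul, Matrix.add_apply, key, key]
  show (x : Matrix Ω Ω F) i a * (x : Matrix Ω Ω F) i a *
      (((x⁻¹ : (Matrix Ω Ω F)ˣ) : Matrix Ω Ω F) (bar b) (bar t) *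
        ((x⁻¹ : (Matrix Ω Ω F)ˣ) : Matrix Ω Ω F) (bar b) (bar t)) +
    (x : Matrix Ω Ω F) i b * (x : Matrix Ω Ω F) i b *
      (((x⁻¹ : (Matrix Ω Ω F)ˣ) : Matrix Ω Ω F) (bar a) (bar t) *
        ((x⁻¹ : (Matrix Ω Ω F)ˣ) : Matrix Ω Ω F) (bar a) (bar t)) = _
  rw [hinv, hinv, h.qb.inv, h.qb.inv, h.qb.inv]
  have h2 := h.qb.two
  linear_combination (-((x : Matrix Ω Ω F) i a * (x : Matrix Ω Ω F) t b *
    ((x : Matrix Ω Ω F) i b * (x : Matrix Ω Ω F) t a))) * h2

/-- the key relation -/
lemma M5_key [IsAlgClosed F] (h : QSetup bar q D H g) {i t a b : Ω}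
    (hn : (Wt bar i t : Matrix (Option Ω) (Option Ω) F) ∉ LieM D (psiG bar q H))
    (hab : (Wt bar a b : Matrix (Option Ω) (Option Ω) F) ∈ LieM D (psiG bar q H))
    (x : (Matrix Ω Ω F)ˣ) (hx : x ∈ HC (M11_g g) (M11_n bar)) :
    (x : Matrix Ω Ω F) i a * (x : Matrix Ω Ω F) t b =
      (x : Matrix Ω Ω F) i b * (x : Matrix Ω Ω F) t a := by
  by_contra hne
  apply hn
  by_cases hit : i = t
  · rw [hit, M5_self h.qb.two]
    exact Submodule.zero_mem _
  have hxT := M5_HC h hx
  have hiso := ht_iso h x hxT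
  have hL := ht_conj h x hxT _ hab
  refine pick h _ hL i t hit ?_ ?_
  · rw [M5_conj_entry h x hiso, M5_conj_entry h x hiso]
    ring
  · rw [M5_conj_entry h x hiso]
    refine pow_ne_zero _ fun e => hne ?_
    have h2 := h.qb.two
    linear_combination e - ((x : Matrix Ω Ω F) i b * (x : Matrix Ω Ω F) t a) * h2

lemma M5_generic [Infinite F] (h : QSetup bar q D H g) (i t : Ω) (hit : i ≠ t) :
    ∃ x ∈ HC (M11_g g) (M11_n bar), (∀ k l, (x : Matrix Ω Ω F) k l ≠ 0) ∧
      (x : Matrix Ω Ω F) i i * (x : Matrix Ω Ω F) t t ≠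
        (x : Matrix Ω Ω F) i t * (x : Matrix Ω Ω F) t i := by
  obtain ⟨x, hx, hP⟩ := generic (J := Option (Ω × Ω)) (M11_g g) (M11_n bar)
    (fun j => match j with
      | some kl => MvPolynomial.X (Sum.inl kl)
      | none => MvPolynomial.X (Sum.inl (i, i)) * MvPolynomial.X (Sum.inl (t, t)) -
          MvPolynomial.X (Sum.inl (i, t)) * MvPolynomial.X (Sum.inl (t, i))) (by
      intro j
      cases j with
      | none =>
        refine ⟨1, one_mem _, ?_⟩
        simp only [evU, map_sub, map_mul, MvPolynomial.eval_X, Sum.elim_inl, Units.val_one,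
          one_apply_eq]
        rw [one_apply_ne hit, one_apply_ne (Ne.symm hit)]
        simp
      | some kl =>
        obtain ⟨x, hx, hne⟩ := M5_entry h kl.1 kl.2
        refine ⟨x, hx, ?_⟩
        simp only [evU, MvPolynomial.eval_X, Sum.elim_inl]
        exact hne)
  refine ⟨x, hx, ?_, ?_⟩
  · intro k l
    have := hP (some (k, l))
    simp only [evU, MvPolynomial.eval_X, Sum.elim_inl] at this
    exact this
  · have := hP none
    simp only [evU, map_sub, map_mul, MvPolynomial.eval_X, Sum.elim_inl] at this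
    exact sub_ne_zero.1 this

/-- Constancy of the quotients on the classes. -/
lemma M5_const [IsAlgClosed F] (h : QSetup bar q D H g) {i t : Ω}
    (hn : (Wt bar i t : Matrix (Option Ω) (Option Ω) F) ∉ LieM D (psiG bar q H))
    (x : (Matrix Ω Ω F)ˣ) (hx : x ∈ HC (M11_g g) (M11_n bar))
    (hx0 : ∀ k l, (x : Matrix Ω Ω F) k l ≠ 0) {a b : Ω}
    (hab : Relation.ReflTransGen (fun a b => (Wt bar a b : Matrix (Option Ω) (Option Ω) F) ∈
      LieM D (psiG bar q H)) a b) :
    (x : Matrix Ω Ω F) i a / (x : Matrix Ω Ω F) t a =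
      (x : Matrix Ω Ω F) i b / (x : Matrix Ω Ω F) t b := by
  induction hab with
  | refl => rfl
  | tail _ hbc ih =>
    rw [ih, div_eq_div_iff (hx0 _ _) (hx0 _ _)]
    exact M5_key h hn hbc x hx

theorem ql1 [IsAlgClosed F] (h : QSetup bar q D H g) (a b : Ω) (hab : a ≠ b) :
    (Wt bar a b : Matrix (Option Ω) (Option Ω) F) ∈ LieM D (psiG bar q H) := by
  have hinf : Infinite F := IsAlgClosed.instInfinite
  have hsymm : ∀ a b, (Wt bar a b : Matrix (Option Ω) (Option Ω) F) ∈ LieM D (psiG bar q H) →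
      (Wt bar b a : Matrix (Option Ω) (Option Ω) F) ∈ LieM D (psiG bar q H) := by
    intro a b hab
    rw [M5_symm]
    exact hab
  have hRsymm : ∀ a b, Relation.ReflTransGen (fun a b =>
        (Wt bar a b : Matrix (Option Ω) (Option Ω) F) ∈ LieM D (psiG bar q H)) a b →
      Relation.ReflTransGen (fun a b =>
        (Wt bar a b : Matrix (Option Ω) (Option Ω) F) ∈ LieM D (psiG bar q H)) b a := by
    intro a b hab
    induction hab with
    | refl => exact Relation.ReflTransGen.refl
    | tail _ hbc ih => exact Relation.ReflTransGen.head (hsymm _ _ hbc) ih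
  -- (g)
  have hR : ∀ i t, Relation.ReflTransGen (fun a b =>
        (Wt bar a b : Matrix (Option Ω) (Option Ω) F) ∈ LieM D (psiG bar q H)) i t →
      (Wt bar i t : Matrix (Option Ω) (Option Ω) F) ∈ LieM D (psiG bar q H) := by
    intro i t hRit
    by_cases hit : i = t
    · rw [← hit, M5_self h.qb.two]
      exact Submodule.zero_mem _
    by_contra hn
    obtain ⟨x, hx, hx0, hne⟩ := M5_generic h i t hit
    have := M5_const h hn x hx hx0 hRit
    rw [div_eq_div_iff (hx0 _ _) (hx0 _ _)] at this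
    exact hne this
  have ha0 : bar a ≠ a := h.qb.nofix a
  have hclass : ∀ j, Relation.ReflTransGen (fun a b =>
      (Wt bar a b : Matrix (Option Ω) (Option Ω) F) ∈ LieM D (psiG bar q H)) a j := by
    by_contra hcon
    push Not at hcon
    obtain ⟨j, hj⟩ := hcon
    obtain ⟨x, hx, hx0, -⟩ := M5_generic h a (bar a) (Ne.symm ha0)
    have hb0 : Relation.ReflTransGen (fun a b =>
        (Wt bar a b : Matrix (Option Ω) (Option Ω) F) ∈ LieM D (psiG bar q H)) a (bar a) :=
      Relation.ReflTransGen.single (ht_h h a)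
    have hcmp : ∀ i t, Relation.ReflTransGen (fun a b =>
          (Wt bar a b : Matrix (Option Ω) (Option Ω) F) ∈ LieM D (psiG bar q H)) a i →
        ¬ Relation.ReflTransGen (fun a b =>
          (Wt bar a b : Matrix (Option Ω) (Option Ω) F) ∈ LieM D (psiG bar q H)) a t →
        (x : Matrix Ω Ω F) i (bar a) / (x : Matrix Ω Ω F) i a =
          (x : Matrix Ω Ω F) t (bar a) / (x : Matrix Ω Ω F) t a := by
      intro i t hi ht
      have hn : (Wt bar i t : Matrix (Option Ω) (Option Ω) F) ∉ LieM D (psiG bar q H) :=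
        fun hh => ht (hi.tail hh)
      have := M5_const h hn x hx hx0 hb0
      rw [div_eq_div_iff (hx0 _ _) (hx0 _ _)] at this ⊢
      rw [mul_comm _ ((x : Matrix Ω Ω F) t a), mul_comm ((x : Matrix Ω Ω F) t (bar a)),
        mul_comm ((x : Matrix Ω Ω F) t a)]
      exact this.symm
    have hmu : ∀ i, (x : Matrix Ω Ω F) i (bar a) =
        (x : Matrix Ω Ω F) a (bar a) / (x : Matrix Ω Ω F) a a * (x : Matrix Ω Ω F) i a := by
      intro i
      have hi : (x : Matrix Ω Ω F) i (bar a) / (x : Matrix Ω Ω F) i a =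
          (x : Matrix Ω Ω F) a (bar a) / (x : Matrix Ω Ω F) a a := by
        by_cases hi : Relation.ReflTransGen (fun a b =>
            (Wt bar a b : Matrix (Option Ω) (Option Ω) F) ∈ LieM D (psiG bar q H)) a i
        · rw [hcmp i j hi hj, hcmp a j Relation.ReflTransGen.refl hj]
        · rw [← hcmp a i Relation.ReflTransGen.refl hi]
      rw [← hi, div_mul_cancel₀ _ (hx0 _ _)]
    have h1 : (((x⁻¹ : (Matrix Ω Ω F)ˣ) : Matrix Ω Ω F) * (x : Matrix Ω Ω F)) (bar a) (bar a) = 1 := by
      rw [Units.inv_mul, one_apply_eq]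
    have h2 : (((x⁻¹ : (Matrix Ω Ω F)ˣ) : Matrix Ω Ω F) * (x : Matrix Ω Ω F)) (bar a) a = 0 := by
      rw [Units.inv_mul, one_apply_ne ha0]
    have h3 : (((x⁻¹ : (Matrix Ω Ω F)ˣ) : Matrix Ω Ω F) * (x : Matrix Ω Ω F)) (bar a) (bar a) =
        (x : Matrix Ω Ω F) a (bar a) / (x : Matrix Ω Ω F) a a *
        (((x⁻¹ : (Matrix Ω Ω F)ˣ) : Matrix Ω Ω F) * (x : Matrix Ω Ω F)) (bar a) a := by
      rw [mul_apply, mul_apply, Finset.mul_sum]
      refine Finset.sum_congr rfl fun i _ => ?_
      rw [hmu i]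
      ring
    rw [h1, h2, mul_zero] at h3
    exact one_ne_zero h3
  exact hR a b (hclass b)

end

end Pool.Agent.CTE
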