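import Pool.Agent.CTE.A4
import Pool.Agent.CTE.B1
import Pool.Agent.CTO.Q1

/-!
# CTE.Q1: the criterion and restriction to a nondegenerate stable subspace, characteristic two

Compare `crit_restr`, `siso_of_crit` in `CTO/Q1.lean` (read its header, copy the proofs). The only change: the isometries
also preserve `Q`.
* `critQ_restr`: as `crit_restr`, with `IsoSpQ` instead of `IsoSp`.
* `siso_of_critQ`: `conj_of_SIso2` gives an isometry `g` of `f` carrying `A` to `A'`. `g ∈ OQ f Q`: if `Q` is zero this is
  trivial; otherwise `Q` is the form of `A` and of `A'`: `adQ_mem_OQ`. Then continue as in `siso_of_crit`: with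
  `p'' = g⁻¹ p' g ∈ A`, `range p'' ≅ range p' ≅ range p` for `f` and `Q`.
-/

namespace Pool.Agent.CTE

open Module Pool.Agent.CTO

section

variable {K V : Type} [Field K] [Finite K] [AddCommGroup V] [Module K V] [FiniteDimensional K V]

omit [Finite K] [FiniteDimensional K V] in
private theorem Q1_compare (f : V → V → K) (_hf : IsHF (RingHom.id K) 1 f)
    (A : Subalgebra K (Module.End K V)) (hA : IsTor f A) (p : Module.End K V)
    (hpA : p ∈ A) (hp : p * p = p) (x : Module.End K (LinearMap.range p)) (a : Module.End K V)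
    (h : (LinearMap.range x).map (LinearMap.range p).subtype = LinearMap.range a) :
    ∃ ι : LinearMap.range x ≃ₗ[K] LinearMap.range a,
      (∀ u : LinearMap.range x, ((ι u : LinearMap.range a) : V) = ((u : LinearMap.range p) : V)) ∧
      (∀ u v : LinearMap.range x, f (ι u) (ι v) = resF f (LinearMap.range p) u v) ∧
      SIso (resF (resF f (LinearMap.range p)) (LinearMap.range x))
        (restr (restr A (LinearMap.range p)) (LinearMap.range x))
        (resF f (LinearMap.range a)) (restr A (LinearMap.range a)) ∧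
      SIso (resF f (LinearMap.range a)) (restr A (LinearMap.range a))
        (resF (resF f (LinearMap.range p)) (LinearMap.range x))
        (restr (restr A (LinearMap.range p)) (LinearMap.range x)) := by
  obtain ⟨ι, hι⟩ := q1_ex_iota (LinearMap.range p) (LinearMap.range x) (LinearMap.range a) h
  have h1 := q1_restr_restr hA.toIsTorGL hpA (LinearMap.range x) (LinearMap.range a) ι hι
  have h2 := pull_siso (resF (resF f (LinearMap.range p)) (LinearMap.range x))
    (resF f (LinearMap.range a)) ι (fun v w => by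
      simp only [resF]
      rw [hι, hι]) (restr A (LinearMap.range a))
  rw [← h1] at h2
  refine ⟨ι, hι, fun u v => ?_, h2.1, h2.2⟩
  simp only [resF]
  rw [hι, hι]

theorem critQ_restr (f : V → V → K) (hf : IsHF (RingHom.id K) 1 f)
    (A : Subalgebra K (Module.End K V)) (hA : IsTor f A) (Q : V → K) (hc : CritQ f Q A)
    (p : Module.End K V) (hpA : p ∈ A) (hp : p * p = p) (hps : IsAdj f p p) :
    CritQ (resF f (LinearMap.range p)) (resQ Q (LinearMap.range p)) (restr A (LinearMap.range p)) := by
  intro x hx x' hx' hxx hxs hxx' hxs' hI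
  obtain ⟨a, ha, hap, hpa, hxa, hra⟩ := q1_idem hA.toIsTorGL hpA hp x hx
  obtain ⟨a', ha', hap', hpa', hxa', hra'⟩ := q1_idem hA.toIsTorGL hpA hp x' hx'
  obtain ⟨ι, hιv, hι, hs1, hs2⟩ := Q1_compare f hf A hA p hpA hp x a hra
  obtain ⟨ι', hιv', hι', hs1', hs2'⟩ := Q1_compare f hf A hA p hpA hp x' a' hra'
  have hidem : ∀ (y : Module.End K (LinearMap.range p)) (b : Module.End K V),
      b * p = b → (∀ w : LinearMap.range p, ((y w : LinearMap.range p) : V) = b w) →
      y * y = y → b * b = b := by
    intro y b hb hyb hyy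
    apply q1_eq_of_range (p := p) (by rw [mul_assoc, hb]) hb
    intro w
    rw [Module.End.mul_apply, ← hyb, ← hyb]
    exact congrArg Subtype.val (LinearMap.congr_fun hyy w)
  have haa := hidem x a hap hxa hxx
  have haa' := hidem x' a' hap' hxa' hxx'
  have has := q1_adj_of hps hap hpa hap hpa hxa hxa hxs
  have has' := q1_adj_of hps hap' hpa' hap' hpa' hxa' hxa' hxs'
  obtain ⟨φ, hφ, hφQ⟩ := hI
  have hI' : IsoSpQ f Q (LinearMap.range a) (LinearMap.range a') := by
    refine ⟨ι.symm.trans (φ.trans ι'), fun v w => ?_, fun v => ?_⟩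
    swap
    · have e1 := hφQ (ι.symm v)
      change Q ((φ (ι.symm v) : LinearMap.range x') : V) = Q ((ι.symm v : LinearMap.range x) : V) at e1
      rw [LinearEquiv.trans_apply, LinearEquiv.trans_apply, hιv', e1, ← hιv, LinearEquiv.apply_symm_apply]
    rw [LinearEquiv.trans_apply, LinearEquiv.trans_apply, LinearEquiv.trans_apply,
      LinearEquiv.trans_apply, hι', hφ, ← hι, LinearEquiv.apply_symm_apply,
      LinearEquiv.apply_symm_apply]
  have hS := hc a ha a' ha' haa has haa' has' hI'
  exact siso_trans _ _ _ _ _ _ hs1 (siso_trans _ _ _ _ _ _ hS hs2')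

theorem siso_of_critQ (two : (2 : K) = 0) (f : V → V → K) (hf : IsHF (RingHom.id K) 1 f) (ha : Alt f)
    (A A' : Subalgebra K (Module.End K V)) (hA : IsTor2 f A) (hA' : IsTor2 f A')
    (hS : SIso f A f A') (Q : V → K) (hm : Mode f A Q) (hm' : Mode f A' Q) (hc : CritQ f Q A)
    (p p' : Module.End K V) (hpA : p ∈ A) (hpA' : p' ∈ A')
    (hp : p * p = p) (hps : IsAdj f p p) (hp' : p' * p' = p') (hps' : IsAdj f p' p')
    (hI : IsoSpQ f Q (LinearMap.range p) (LinearMap.range p')) :
    SIso (resF f (LinearMap.range p)) (restr A (LinearMap.range p))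
      (resF f (LinearMap.range p')) (restr A' (LinearMap.range p')) := by
  obtain ⟨g, hg, hgA⟩ := conj_of_SIso2 two (RingHom.id K) 1 f hf A A' hA.toIsTor hA'.toIsTor hS
  have hgQ : ∀ v, Q (g v) = Q v := by
    rcases hm with h0 | h0
    · intro v
      rw [h0, h0]
    · rcases hm' with h1 | h1
      · intro v
        rw [h1, h1]
      · exact (adQ_mem_OQ two f hf ha A A' hA' Q h0 h1 g hg hgA).2
  -- `g⁻¹ A' g ≤ A`
  have hback : ∀ b ∈ A', g.symm.toLinearMap ∘ₗ b ∘ₗ g.toLinearMap ∈ A := by
    intro b hb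
    apply cent_eq A hA.toIsTor.toIsTorGL
    intro a ha
    have h1 := hA'.comm b hb _ (hgA a ha)
    apply LinearMap.ext
    intro v
    have h2 := LinearMap.congr_fun h1 (g v)
    simp only [Module.End.mul_apply, LinearMap.comp_apply, LinearEquiv.coe_coe,
      LinearEquiv.symm_apply_apply] at h2 ⊢
    rw [h2, LinearEquiv.symm_apply_apply]
  set q : Module.End K V := g.symm.toLinearMap ∘ₗ p' ∘ₗ g.toLinearMap with hq
  have hqv : ∀ v, q v = g.symm (p' (g v)) := fun v => rfl
  have hqA : q ∈ A := hback p' hpA'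
  have hqq : q * q = q := by
    apply LinearMap.ext
    intro v
    rw [Module.End.mul_apply, hqv, hqv, LinearEquiv.apply_symm_apply]
    exact congrArg _ (LinearMap.congr_fun hp' (g v))
  have hgs : ∀ v w, f (g.symm v) w = f v (g w) := by
    intro v w
    rw [← hg (g.symm v) w, LinearEquiv.apply_symm_apply]
  have hqs : IsAdj f q q := by
    intro v w
    rw [hqv, hgs, hps', hqv, ← hg v, LinearEquiv.apply_symm_apply]
  have hmap : (LinearMap.range q).map (g : V →ₗ[K] V) = LinearMap.range p' := by
    ext v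
    simp only [Submodule.mem_map, LinearMap.mem_range]
    constructor
    · rintro ⟨_, ⟨w, rfl⟩, rfl⟩
      exact ⟨g w, by rw [hqv, LinearEquiv.coe_coe, LinearEquiv.apply_symm_apply]⟩
    · rintro ⟨w, rfl⟩
      refine ⟨_, ⟨g.symm w, rfl⟩, ?_⟩
      rw [hqv, LinearEquiv.coe_coe, LinearEquiv.apply_symm_apply, LinearEquiv.apply_symm_apply]
  obtain ⟨ψ, hψ⟩ : ∃ ψ : LinearMap.range q ≃ₗ[K] LinearMap.range p',
      ∀ v : LinearMap.range q, ((ψ v : LinearMap.range p') : V) = g v := by
    rw [← hmap]
    exact ⟨g.submoduleMap (LinearMap.range q), fun v => rfl⟩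
  have hψf : ∀ v w : LinearMap.range q, f (ψ v) (ψ w) = f v w := by
    intro v w
    rw [hψ, hψ, hg]
  have hψs : ∀ v : LinearMap.range p', ((ψ.symm v : LinearMap.range q) : V) = g.symm v := by
    intro v
    apply g.injective
    rw [← hψ, LinearEquiv.apply_symm_apply, LinearEquiv.apply_symm_apply]
  have hpull : restr A (LinearMap.range q) = pull ψ (restr A' (LinearMap.range p')) := by
    ext x
    rw [mem_pull, q1_mem_restr, q1_mem_restr]
    constructor
    · rintro ⟨a, ha, hx⟩
      refine ⟨_, hgA a ha, fun u => ?_⟩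
      rw [LinearMap.comp_apply, LinearMap.comp_apply]
      show ((ψ (x (ψ.symm u)) : LinearMap.range p') : V) = g (a (g.symm u))
      rw [hψ, hx, hψs]
    · rintro ⟨b, hb, hx⟩
      refine ⟨_, hback b hb, fun u => ?_⟩
      have h := hx (ψ u)
      rw [LinearMap.comp_apply, LinearMap.comp_apply] at h
      change ((ψ (x (ψ.symm (ψ u))) : LinearMap.range p') : V) = _ at h
      rw [LinearEquiv.symm_apply_apply, hψ, hψ] at h
      show ((x u : LinearMap.range q) : V) = g.symm (b (g u))
      rw [← h, LinearEquiv.symm_apply_apply]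
  have hs := pull_siso (resF f (LinearMap.range q)) (resF f (LinearMap.range p')) ψ
    (fun v w => hψf v w) (restr A' (LinearMap.range p'))
  rw [← hpull] at hs
  obtain ⟨φ, hφ, hφQ⟩ := hI
  have hI' : IsoSpQ f Q (LinearMap.range p) (LinearMap.range q) := by
    refine ⟨φ.trans ψ.symm, fun v w => ?_, fun v => ?_⟩
    swap
    · rw [LinearEquiv.trans_apply, ← hgQ, ← hψ, LinearEquiv.apply_symm_apply, hφQ]
    rw [LinearEquiv.trans_apply, LinearEquiv.trans_apply, ← hψf, LinearEquiv.apply_symm_apply,
      LinearEquiv.apply_symm_apply, hφ]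
  exact siso_trans _ _ _ _ _ _ (hc p hpA q hqA hp hps hqq hqs hI') hs.1

end

end Pool.Agent.CTE
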