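import Pool.Agent.CTE.Q1
import Pool.Agent.CTO.Q3

/-!
# CTE.Q3: totally isotropic stable subspaces, characteristic two

Compare `CTO/Q2.lean`, `CTO/Q3.lean`.
* `ex_lift_iso_sup2`: the proof of `ex_lift_iso_sup` in `CTO/Q2.lean` does not use its hypothesis `two`; copy it.
* `hyp_isoQ`: as `hyp_iso` in `CTO/Q3.lean`; the isometry `φ = φ1 ⊕ φ2` also preserves `Q`: if `Q` is zero trivial;
  otherwise `Q` is the form of `A1` and of `A2`, and `range e_i`, `range s_i` are totally isotropic and stable under `A_i`, so `Q`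
  is zero on them (`adQ_sing`), and `Q (u + v) = f u v` for `u ∈ range e_i`, `v ∈ range s_i` (`adQ_qf`).
* `iso_U2`: as `iso_U`, with `siso_of_critQ`, `hyp_isoQ`, `sym_iso`.
* `critGL_U2`: as `critGL_U`, with `CritQ`, `hyp_isoQ` (`A1 = A2 = A`), `sym_iso`.
* `psi_Q`: the map `ψ` of `exists_psi_F` preserves `Q`: `Q (v - e' v) = Q v + Q (e' v) + f v (e' v) = Q v` because `e' v ∈ U` is
  singular and `v ∈ U^⊥` (`isoIdem_p`); if `Q` is zero trivial.
-/

namespace Pool.Agent.CTE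

open Module Pool.Agent.CTO

section

variable {K V : Type} [Field K] [Finite K] [AddCommGroup V] [Module K V] [FiniteDimensional K V]

omit [Finite K] in
theorem Q3_hyp (f : V → V → K) (hf : IsHF (RingHom.id K) 1 f)
    (A1 A2 : Subalgebra K (Module.End K V)) (hA1 : IsTor f A1) (hA2 : IsTor f A2)
    (e1 s1 e2 s2 : Module.End K V) (h1 : IsoIdem f A1 e1 s1) (h2 : IsoIdem f A2 e2 s2)
    (hd : finrank K (LinearMap.range e1) = finrank K (LinearMap.range e2)) :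
    ∃ φ : LinearMap.range (e1 + s1) ≃ₗ[K] LinearMap.range (e2 + s2),
      (∀ v w : LinearMap.range (e1 + s1), f (φ v) (φ w) = f v w) ∧
      ∀ v : LinearMap.range (e1 + s1), f (φ v) (s2 (φ v)) = f v (s1 v) := by
  obtain ⟨ss1, es1, pp1, ps1, pA1, se1⟩ := q3_rel hf hA1 h1
  obtain ⟨ss2, es2, pp2, ps2, pA2, se2⟩ := q3_rel hf hA2 h2
  obtain φ : LinearMap.range e1 ≃ₗ[K] LinearMap.range e2 := LinearEquiv.ofFinrankEq _ _ hd
  let Φ : Module.End K V := (LinearMap.range e2).subtype ∘ₗ φ.toLinearMap ∘ₗ e1.rangeRestrict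
  let Ψ : Module.End K V := (LinearMap.range e1).subtype ∘ₗ φ.symm.toLinearMap ∘ₗ e2.rangeRestrict
  have hΦ : ∀ v, Φ v = φ ⟨e1 v, v, rfl⟩ := fun v => rfl
  have hΨ : ∀ v, Ψ v = φ.symm ⟨e2 v, v, rfl⟩ := fun v => rfl
  have hΨΦ : Ψ * Φ = e1 := by
    apply LinearMap.ext
    intro v
    rw [Module.End.mul_apply, hΨ]
    have : (⟨e2 (Φ v), Φ v, rfl⟩ : LinearMap.range e2) = φ ⟨e1 v, v, rfl⟩ := by
      apply Subtype.ext
      show e2 (Φ v) = _
      rw [hΦ, q1_fix h2.idem _ (φ ⟨e1 v, v, rfl⟩).2]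
    rw [this, LinearEquiv.symm_apply_apply]
  have hΦΨ : Φ * Ψ = e2 := by
    apply LinearMap.ext
    intro v
    rw [Module.End.mul_apply, hΦ]
    have : (⟨e1 (Ψ v), Ψ v, rfl⟩ : LinearMap.range e1) = φ.symm ⟨e2 v, v, rfl⟩ := by
      apply Subtype.ext
      show e1 (Ψ v) = _
      rw [hΨ, q1_fix h1.idem _ (φ.symm ⟨e2 v, v, rfl⟩).2]
    rw [this, LinearEquiv.apply_symm_apply]
  have heΦ : e2 * Φ = Φ := by
    apply LinearMap.ext
    intro v
    rw [Module.End.mul_apply, hΦ, q1_fix h2.idem _ (φ ⟨e1 v, v, rfl⟩).2]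
  have heΨ : e1 * Ψ = Ψ := by
    apply LinearMap.ext
    intro v
    rw [Module.End.mul_apply, hΨ, q1_fix h1.idem _ (φ.symm ⟨e2 v, v, rfl⟩).2]
  obtain ⟨Φ', hΦ'⟩ := q3_exists_adj hf Φ
  obtain ⟨Ψ', hΨ'⟩ := q3_exists_adj hf Ψ
  have a1 : Φ' * Ψ' = s1 := by
    have := q1_adj_mul hΨ' hΦ'
    rw [hΨΦ] at this
    exact q1_adj_unique hf this h1.adj
  have a2 : Ψ' * Φ' = s2 := by
    have := q1_adj_mul hΦ' hΨ'
    rw [hΦΨ] at this
    exact q1_adj_unique hf this h2.adj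
  have a3 : Φ' * s2 = Φ' := by
    have := q1_adj_mul h2.adj hΦ'
    rw [heΦ] at this
    exact q1_adj_unique hf this hΦ'
  have a4 : Ψ' * s1 = Ψ' := by
    have := q1_adj_mul h1.adj hΨ'
    rw [heΨ] at this
    exact q1_adj_unique hf this hΨ'
  -- `s1 Φ' = Φ'`, `s2 Ψ' = Ψ'`
  have b1 : Φ * e1 = Φ := by
    apply LinearMap.ext
    intro v
    rw [Module.End.mul_apply, hΦ, hΦ]
    congr 2
    apply Subtype.ext
    exact LinearMap.congr_fun h1.idem v
  have b2 : Ψ * e2 = Ψ := by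
    apply LinearMap.ext
    intro v
    rw [Module.End.mul_apply, hΨ, hΨ]
    congr 2
    apply Subtype.ext
    exact LinearMap.congr_fun h2.idem v
  have b3 : s1 * Φ' = Φ' := by
    have := q1_adj_mul hΦ' h1.adj
    rw [b1] at this
    exact q1_adj_unique hf this hΦ'
  have b4 : s2 * Ψ' = Ψ' := by
    have := q1_adj_mul hΨ' h2.adj
    rw [b2] at this
    exact q1_adj_unique hf this hΨ'
  have c1 : (Ψ + Φ') * (Φ + Ψ') = e1 + s1 := by
    have h3 : Ψ * Ψ' = 0 := by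
      rw [← b2, ← b4, mul_assoc, ← mul_assoc e2, es2, zero_mul, mul_zero]
    have h4 : Φ' * Φ = 0 := by
      rw [← a3, ← heΦ, mul_assoc, ← mul_assoc s2, h2.orth, zero_mul, mul_zero]
    rw [add_mul, mul_add, mul_add, hΨΦ, a1, h3, h4, add_zero, zero_add]
  have c2 : (Φ + Ψ') * (Ψ + Φ') = e2 + s2 := by
    have h3 : Φ * Φ' = 0 := by
      rw [← b1, ← b3, mul_assoc, ← mul_assoc e1, es1, zero_mul, mul_zero]
    have h4 : Ψ' * Ψ = 0 := by
      rw [← a4, ← heΨ, mul_assoc, ← mul_assoc s1, h1.orth, zero_mul, mul_zero]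
    rw [add_mul, mul_add, mul_add, hΦΨ, a2, h3, h4, add_zero, zero_add]
  have c3 : (e2 + s2) * (Φ + Ψ') = Φ + Ψ' := by
    have h3 : s2 * Φ = 0 := by rw [← heΦ, ← mul_assoc, h2.orth, zero_mul]
    have h4 : e2 * Ψ' = 0 := by rw [← b4, ← mul_assoc, es2, zero_mul]
    rw [add_mul, mul_add, mul_add, heΦ, b4, h3, h4, add_zero, zero_add]
  have c4 : (e1 + s1) * (Ψ + Φ') = Ψ + Φ' := by
    have h3 : s1 * Ψ = 0 := by rw [← heΨ, ← mul_assoc, h1.orth, zero_mul]
    have h4 : e1 * Φ' = 0 := by rw [← b3, ← mul_assoc, es1, zero_mul]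
    rw [add_mul, mul_add, mul_add, heΨ, b3, h3, h4, add_zero, zero_add]
  -- the adjoint of `Φ + Ψ'` is `Φ' + Ψ`
  have hadj : IsAdj f (Φ + Ψ') (Ψ + Φ') := by
    have := q1_adj_add hf hΦ' (q1_adj_symm hf hΨ')
    rw [add_comm Φ' Ψ] at this
    exact this
  have m1 : ∀ v ∈ LinearMap.range (e1 + s1), (Φ + Ψ') v ∈ LinearMap.range (e2 + s2) := by
    intro v _
    exact ⟨(Φ + Ψ') v, LinearMap.congr_fun c3 v⟩
  have m2 : ∀ v ∈ LinearMap.range (e2 + s2), (Ψ + Φ') v ∈ LinearMap.range (e1 + s1) := by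
    intro v _
    exact ⟨(Ψ + Φ') v, LinearMap.congr_fun c4 v⟩
  refine ⟨LinearEquiv.ofLinearMap ((Φ + Ψ').restrict m1) ((Ψ + Φ').restrict m2) ?_ ?_, ?_, ?_⟩
  · apply LinearMap.ext
    intro v
    apply Subtype.ext
    show (Φ + Ψ') ((Ψ + Φ') v) = v
    have h3 := LinearMap.congr_fun c2 v
    rw [Module.End.mul_apply] at h3
    rw [h3, q1_fix pp2 _ v.2]
  · apply LinearMap.ext
    intro v
    apply Subtype.ext
    show (Ψ + Φ') ((Φ + Ψ') v) = v
    have h3 := LinearMap.congr_fun c1 v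
    rw [Module.End.mul_apply] at h3
    rw [h3, q1_fix pp1 _ v.2]
  · intro v w
    show f ((Φ + Ψ') v) ((Φ + Ψ') w) = f v w
    rw [hadj]
    have h3 := LinearMap.congr_fun c1 w
    rw [Module.End.mul_apply] at h3
    rw [h3, q1_fix pp1 _ w.2]
  · intro v
    show f ((Φ + Ψ') v) (s2 ((Φ + Ψ') v)) = f v (s1 v)
    have h3 : s2 ((Φ + Ψ') v) = Ψ' v := by
      have h4 : s2 * (Φ + Ψ') = Ψ' := by
        have h5 : s2 * Φ = 0 := by rw [← heΦ, ← mul_assoc, h2.orth, zero_mul]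
        rw [mul_add, h5, b4, zero_add]
      exact LinearMap.congr_fun h4 (v : V)
    rw [h3]
    have h6 : (Ψ + Φ') * Ψ' = s1 := by
      have h7 : Ψ * Ψ' = 0 := by
        rw [← b2, ← b4, mul_assoc, ← mul_assoc e2, es2, zero_mul, mul_zero]
      rw [add_mul, h7, a1, zero_add]
    rw [hadj]
    have h8 : (Ψ + Φ') (Ψ' v) = s1 v := LinearMap.congr_fun h6 (v : V)
    rw [h8]


omit [Finite K] in
theorem Q3_sing (two : (2 : K) = 0) (f : V → V → K) (hf : IsHF (RingHom.id K) 1 f) (ha : Alt f)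
    (A : Subalgebra K (Module.End K V)) (hA : IsTor f A) (Q : V → K) (hQ : AdQ f A Q)
    (e s : Module.End K V) (h : IsoIdem f A e s) :
    (∀ v ∈ LinearMap.range e, Q v = 0) ∧ (∀ v ∈ LinearMap.range s, Q v = 0) := by
  obtain ⟨ss, es, pp, ps, pA, se⟩ := q3_rel hf hA h
  constructor
  · apply adQ_sing f A Q hQ
    · rintro _ ⟨u, rfl⟩ _ ⟨v, rfl⟩
      rw [h.adj, ← Module.End.mul_apply, h.orth]
      exact q1_zero_right hf u
    · intro a ha' u hu
      exact q1_stab hA.toIsTorGL h.he ha' u hu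
  · apply adQ_sing f A Q hQ
    · rintro _ ⟨u, rfl⟩ _ ⟨v, rfl⟩
      rw [se, ← Module.End.mul_apply, es]
      exact q1_zero_right hf u
    · intro a ha' u hu
      exact q1_stab hA.toIsTorGL h.hs ha' u hu

omit [Finite K] in
theorem Q3_val (two : (2 : K) = 0) (f : V → V → K) (hf : IsHF (RingHom.id K) 1 f) (ha : Alt f)
    (A : Subalgebra K (Module.End K V)) (hA : IsTor f A) (Q : V → K) (hQ : AdQ f A Q)
    (e s : Module.End K V) (h : IsoIdem f A e s) (v : V) (hv : v ∈ LinearMap.range (e + s)) :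
    Q v = f v (s v) := by
  obtain ⟨ss, es, pp, ps, pA, se⟩ := q3_rel hf hA h
  obtain ⟨hs1, hs2⟩ := Q3_sing two f hf ha A hA Q hQ e s h
  have hqf := adQ_qf two f hf ha A Q hQ
  have h1 : e v + s v = v := q1_fix pp v hv
  have h2 : Q (e v + s v) = f (e v) (s v) := by
    rw [hqf.add, hs1 _ ⟨v, rfl⟩, hs2 _ ⟨v, rfl⟩]; ring
  rw [h1] at h2
  rw [h2, h.adj, ← Module.End.mul_apply, ss]

theorem ex_lift_iso_sup2 (f : V → V → K)
    (hf : IsHF (RingHom.id K) 1 f)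
    (A A' : Subalgebra K (Module.End K V)) (hA : IsTor f A) (hA' : IsTor f A')
    (e s e' s' : Module.End K V) (h : IsoIdem f A e s) (h' : IsoIdem f A' e' s')
    (U : Submodule K V) (hU : LinearMap.range e = U) (hU' : LinearMap.range e' = U) (x : U ≃ₗ[K] U)
    (hx : x ∈ sq (torGL (restr A U)) ⊔ sq (torGL (restr A' U))) :
    ∃ y ∈ sq (tor (RingHom.id K) f A) ⊔ sq (tor (RingHom.id K) f A'), ∀ w : U, y w = x w := by
  obtain ⟨y, hy, hr⟩ := q2_lift (torGL (restr A U)) (torGL (restr A' U))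
    (tor (RingHom.id K) f A) (tor (RingHom.id K) f A') (q2_R1 U)
    (fun t ht => q2_lift_iso 1 f hf A hA e s h U hU t ht)
    (fun t ht => q2_lift_iso 1 f hf A' hA' e' s' h' U hU' t ht) x hx
  exact ⟨y, hy, hr⟩

theorem hyp_isoQ (two : (2 : K) = 0) (f : V → V → K) (hf : IsHF (RingHom.id K) 1 f) (ha : Alt f)
    (A1 A2 : Subalgebra K (Module.End K V)) (hA1 : IsTor2 f A1) (hA2 : IsTor2 f A2)
    (Q : V → K) (hm1 : Mode f A1 Q) (hm2 : Mode f A2 Q)
    (e1 s1 e2 s2 : Module.End K V) (h1 : IsoIdem f A1 e1 s1) (h2 : IsoIdem f A2 e2 s2)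
    (hd : finrank K (LinearMap.range e1) = finrank K (LinearMap.range e2)) :
    IsoSpQ f Q (LinearMap.range (e1 + s1)) (LinearMap.range (e2 + s2)) := by
  obtain ⟨φ, hφ1, hφ2⟩ := Q3_hyp f hf A1 A2 hA1.toIsTor hA2.toIsTor e1 s1 e2 s2 h1 h2 hd
  refine ⟨φ, hφ1, ?_⟩
  intro v
  rcases hm1 with hm1 | hm1
  · rw [hm1, hm1]
  rcases hm2 with hm2 | hm2
  · rw [hm2, hm2]
  rw [Q3_val two f hf ha A1 hA1.toIsTor Q hm1 e1 s1 h1 v v.2,
    Q3_val two f hf ha A2 hA2.toIsTor Q hm2 e2 s2 h2 (φ v) (φ v).2, hφ2]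

theorem iso_U2 (two : (2 : K) = 0) (f : V → V → K) (hf : IsHF (RingHom.id K) 1 f) (ha : Alt f)
    (A A' : Subalgebra K (Module.End K V)) (hA : IsTor2 f A) (hA' : IsTor2 f A')
    (hS : SIso f A f A') (Q : V → K) (hm : Mode f A Q) (hm' : Mode f A' Q) (hc : CritQ f Q A)
    (e s e' s' : Module.End K V) (h : IsoIdem f A e s) (h' : IsoIdem f A' e' s')
    (hd : finrank K (LinearMap.range e) = finrank K (LinearMap.range e')) :
    Nonempty (restr A (LinearMap.range e) ≃ₐ[K] restr A' (LinearMap.range e')) := by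
  obtain ⟨ss1, es1, pp1, ps1, pA1, se1⟩ := q3_rel hf hA.toIsTor h
  obtain ⟨ss2, es2, pp2, ps2, pA2, se2⟩ := q3_rel hf hA'.toIsTor h'
  exact sym_iso 1 f hf A A' hA.toIsTor hA'.toIsTor e s e' s' h h'
    (siso_of_critQ two f hf ha A A' hA hA' hS Q hm hm' hc (e + s) (e' + s') pA1 pA2 pp1 ps1 pp2 ps2
      (hyp_isoQ two f hf ha A A' hA hA' Q hm hm' e s e' s' h h' hd))

theorem critGL_U2 (two : (2 : K) = 0) (f : V → V → K) (hf : IsHF (RingHom.id K) 1 f) (ha : Alt f)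
    (A : Subalgebra K (Module.End K V)) (hA : IsTor2 f A) (Q : V → K) (hm : Mode f A Q)
    (hc : CritQ f Q A)
    (e s : Module.End K V) (h : IsoIdem f A e s) : CritGL (restr A (LinearMap.range e)) := by
  obtain ⟨ss1, es1, pp1, ps1, pA1, se1⟩ := q3_rel hf hA.toIsTor h
  intro x hx x' hx' hxx hxx' hd
  have main : ∀ (y : Module.End K (LinearMap.range e)), y ∈ restr A (LinearMap.range e) →
      y * y = y → ∃ a b : Module.End K V, IsoIdem f A a b ∧
        (LinearMap.range y).map (LinearMap.range e).subtype = LinearMap.range a := by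
    intro y hy hyy
    obtain ⟨a, haA, hap, hpa, hya, hra⟩ := q1_idem hA.toIsTor.toIsTorGL h.he h.idem y hy
    obtain ⟨b, hb, hab⟩ := hA.toIsTor.star a haA
    have haa : a * a = a := by
      apply q1_eq_of_range (p := e) (by rw [mul_assoc, hap]) hap
      intro w
      rw [Module.End.mul_apply, ← hya, ← hya]
      exact congrArg Subtype.val (LinearMap.congr_fun hyy w)
    have hbs : b * s = b := by
      have h3 := q1_adj_mul h.adj hab
      rw [hpa] at h3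
      exact q1_adj_unique hf h3 hab
    refine ⟨a, b, ⟨haA, hb, haa, hab, ?_⟩, hra⟩
    rw [← hbs, ← hpa, mul_assoc, ← mul_assoc s, h.orth, zero_mul, mul_zero]
  obtain ⟨a, b, hab, hra⟩ := main x hx hxx
  obtain ⟨a', b', hab', hra'⟩ := main x' hx' hxx'
  obtain ⟨ι, hι⟩ := q1_ex_iota (LinearMap.range e) (LinearMap.range x) (LinearMap.range a) hra
  obtain ⟨ι', hι'⟩ := q1_ex_iota (LinearMap.range e) (LinearMap.range x') (LinearMap.range a') hra'
  have hd' : finrank K (LinearMap.range a) = finrank K (LinearMap.range a') := by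
    rw [← ι.finrank_eq, ← ι'.finrank_eq, hd]
  have hI := hyp_isoQ two f hf ha A A hA hA Q hm hm a b a' b' hab hab' hd'
  obtain ⟨-, -, p1, p2, p3, -⟩ := q3_rel hf hA.toIsTor hab
  obtain ⟨-, -, p1', p2', p3', -⟩ := q3_rel hf hA.toIsTor hab'
  have hS := hc (a + b) p3 (a' + b') p3' p1 p2 p1' p2' hI
  obtain ⟨ψ⟩ := sym_iso 1 f hf A A hA.toIsTor hA.toIsTor a b a' b' hab hab' hS
  rw [q1_restr_restr hA.toIsTor.toIsTorGL h.he (LinearMap.range x) (LinearMap.range a) ι hι,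
    q1_restr_restr hA.toIsTor.toIsTorGL h.he (LinearMap.range x') (LinearMap.range a') ι' hι']
  obtain ⟨α⟩ := pull_iso ι (restr A (LinearMap.range a))
  obtain ⟨α'⟩ := pull_iso ι' (restr A (LinearMap.range a'))
  exact ⟨(α.trans ψ).trans α'.symm⟩

theorem psi_Q (two : (2 : K) = 0) (f : V → V → K) (hf : IsHF (RingHom.id K) 1 f) (ha : Alt f)
    (A A' : Subalgebra K (Module.End K V)) (hA : IsTor2 f A) (hA' : IsTor2 f A')
    (Q : V → K) (hm : Mode f A Q)
    (e s e' s' : Module.End K V) (h : IsoIdem f A e s) (h' : IsoIdem f A' e' s')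
    (hr : LinearMap.range e = LinearMap.range e')
    (v : V) (hv : v ∈ LinearMap.range (1 - e - s)) : Q (v - e' v) = Q v := by
  rcases hm with hm | hm
  · rw [hm, hm]
  obtain ⟨hs1, -⟩ := Q3_sing two f hf ha A hA.toIsTor Q hm e s h
  have hqf := adQ_qf two f hf ha A Q hm
  have hmem : e' v ∈ LinearMap.range e := by rw [hr]; exact ⟨v, rfl⟩
  obtain ⟨p1, p2, p3, p4, p5, p6⟩ := isoIdem_p 1 f hf A hA.toIsTor e s h
  have h0 : s v = 0 := by
    obtain ⟨u, rfl⟩ := hv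
    rw [← Module.End.mul_apply]
    have : s * (1 - e - s) = s - s * e - s * s := by noncomm_ring
    rw [this, h.orth, p4, sub_zero, sub_self]; rfl
  have h1 : f v (e' v) = 0 := (p6 v).1 h0 _ hmem
  have h2 : v - e' v = v + (-1 : K) • e' v := by rw [neg_one_smul, sub_eq_add_neg]
  rw [h2, hqf.add, hqf.smul, hs1 _ hmem, q1_smul_right hf, h1]
  ring

end

end Pool.Agent.CTE
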