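import Pool.Agent.CTE.AI
import Pool.Agent.CTE.A4
import Pool.Agent.CTE.B2
import Pool.Agent.CTE.F3
import Pool.Agent.CTO.F1
import Pool.Agent.CTO.F4
import Pool.Agent.CTO.T2

/-!
# CTE.T2: the irreducible case, characteristic two

Compare `irrF` in `CTO/T2.lean` (read its header and copy its proof). `H = sq T ⊔ sq T'` irreducible on `V`, `dim V = N ≥ 1`.
`gen_tor2`; `exists_field` gives `E`; the adjoint of `e ∈ E` is in `E`: `exists_ext` (with `ε = 1`) gives `σ`, `fE`;
`lift_isTor2`, `siso_lift`, `conj_of_SIso2` over `E` (an isometry `gE` of `fE`), `lift_tor_map2`, `sq_sup_map`, `adjoin_lift`.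
* `σ ≠ id`: `aiU2` (the fixed field of `σ` contains the image of `K`).
* `σ = id`: `Alt fE` (`ext_alt`), `ai2` for all `m ≤ N`, with `OddPos fE (liftAlg A)` (`lift_oddpos`).
`carries_of_lift`.
`irrF2'` is the same with an arbitrary hypothesis instead of `OddPos f A`, used for the single positive cycle: it is
assumed that for every field `E` etc. as above with `σ = id` and every isometry `gE` of `fE` carrying `liftAlg A` to
`liftAlg A'` the hypothesis of `ai2` holds; `irrF2` follows from it. State the proof for `irrF2'` and deduce `irrF2`.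
-/

namespace Pool.Agent.CTE

open Module Pool.Agent.CTO

theorem irrF2' (N : ℕ) : ∃ q0 : ℕ, ∀ (K V : Type) [Field K] [Finite K] [AddCommGroup V]
    [Module K V] [FiniteDimensional K V] (f : V → V → K)
    (A A' : Subalgebra K (Module.End K V)),
    finrank K V = N → q0 ≤ Nat.card K → (2 : K) = 0 → IsHF (RingHom.id K) 1 f → Alt f → IsTor2 f A →
    IsTor2 f A' → SIso f A f A' →
    (∀ (E : Type) [Field E] [Finite E] [Algebra K E] [Module E V] [IsScalarTower K E V]
      [FiniteDimensional E V]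
      (fE : V → V → E) (hE : ∀ e : E, Algebra.lsmul K K V e ∈ A)
      (hE' : ∀ e : E, Algebra.lsmul K K V e ∈ A') (gE : V ≃ₗ[E] V) (QE : V → E),
      IsExt 1 f (RingHom.id E) fE → IsHF (RingHom.id E) 1 fE → Alt fE → gE ∈ Isom fE →
      CarriesTo gE (liftAlg A hE) (liftAlg A' hE') →
      AdQ fE (liftAlg A hE) QE → AdQ fE (liftAlg A' hE') QE →
      OddPos fE (liftAlg A hE) ∨ DickEven gE) →
    (∀ W : Submodule K V, (∀ h ∈ sq (tor (RingHom.id K) f A) ⊔ sq (tor (RingHom.id K) f A'),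
      ∀ v ∈ W, h v ∈ W) → W = ⊥ ∨ W = ⊤) →
    ∃ h ∈ sq (tor (RingHom.id K) f A) ⊔ sq (tor (RingHom.id K) f A'), CarriesTo h A A' := by
  classical
  obtain ⟨qG, hG⟩ := gen_tor2 N
  choose qS hS using ai2
  choose qU hU using aiU2
  have hle : ∀ m, m ≤ N → qS m + qU m ≤
      ∑ m ∈ Finset.range (N + 1), (qS m + qU m) := by
    intro m hm
    exact Finset.single_le_sum (f := fun m => qS m + qU m) (fun _ _ => Nat.zero_le _)
      (Finset.mem_range.2 (by omega))
  refine ⟨qG + ∑ m ∈ Finset.range (N + 1), (qS m + qU m), ?_⟩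
  intro K V _ _ _ _ _ f A A' hN hq two hf ha hA hA' hS1 hyp irr
  rcases subsingleton_or_nontrivial V with hV | hV
  · refine ⟨1, one_mem _, fun a _ => ?_⟩
    have : (1 : V ≃ₗ[K] V).toLinearMap ∘ₗ a ∘ₗ (1 : V ≃ₗ[K] V).symm.toLinearMap = 0 := by
      ext v
      exact Subsingleton.elim _ _
    rw [this]
    exact A'.zero_mem
  set T := tor (RingHom.id K) f A with hT
  set T' := tor (RingHom.id K) f A' with hT'
  have hqG : qG ≤ Nat.card K := by omega
  have hmono : ∀ S S' : Subgroup (V ≃ₗ[K] V), S ≤ S' →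
      Algebra.adjoin K (EndSet S) ≤ Algebra.adjoin K (EndSet S') := by
    intro S S' h
    apply Algebra.adjoin_mono
    rintro x ⟨y, hy, rfl⟩
    exact ⟨y, h hy, rfl⟩
  have hAB : A ≤ Algebra.adjoin K (EndSet (sq T ⊔ sq T')) :=
    (hG K V f A hN hqG two hf ha hA).trans (hmono _ _ le_sup_left)
  have hAB' : A' ≤ Algebra.adjoin K (EndSet (sq T ⊔ sq T')) :=
    (hG K V f A' hN hqG two hf ha hA').trans (hmono _ _ le_sup_right)
  have hiso : sq T ⊔ sq T' ≤ Isom f := by
    refine sup_le ?_ ?_ <;>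
    · refine (Subgroup.closure_le _).mpr ?_
      rintro x ⟨t, ht, rfl⟩
      exact mul_mem ht.2.1 ht.2.1
  obtain ⟨E, iE1, iE2, iE3, iE4, iE5, hE, hE', hcom, hcen, hadj⟩ :=
    exists_field K V A A' hA.toIsTorGL hA'.toIsTorGL _ hAB hAB' irr
  have hst : ∀ e : E, ∃ e' : E, IsAdj f (Algebra.lsmul K K V e) (Algebra.lsmul K K V e') := by
    intro e
    obtain ⟨b, -, hb⟩ := hA.star _ (hE e)
    obtain ⟨e', he'⟩ := hcen b (fun h hh v => by
      refine T2_nd hf fun u => ?_
      have hinv : ∀ u w, f u (h w) = f (h⁻¹ u) w := by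
        intro u w
        have h1 := hiso hh (h⁻¹ u) w
        have h2 : h (h⁻¹ u) = u := LinearEquiv.apply_symm_apply h u
        rw [h2] at h1
        exact h1
      have hb' : ∀ v w, f (e • v) w = f v (b w) := hb
      rw [← hb', hinv, hinv, ← hb', hcom _ (inv_mem hh)])
    rw [he'] at hb
    exact ⟨e', hb⟩
  obtain ⟨σ, fE, hx⟩ := exists_ext 1 f hf hst
  have hfd : FiniteDimensional E V := Module.Finite.of_restrictScalars_finite K E V
  have twoE : (2 : E) = 0 := by
    have h := congrArg (algebraMap K E) two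
    rw [map_ofNat, map_zero] at h
    exact h
  have hTE := lift_isTor2 f σ fE hx A hA hE
  have hTE' := lift_isTor2 f σ fE hx A' hA' hE'
  have hSE := siso_lift 1 f hf σ fE hx A A' hA.toIsTor hA'.toIsTor hE hE' hS1
  obtain ⟨g, hg, hgc⟩ := conj_of_SIso2 twoE σ _ fE hx.hf _ _ hTE.toIsTor hTE'.toIsTor hSE
  have hmap : (sq (tor σ fE (liftAlg A hE)) ⊔ sq (tor σ fE (liftAlg A' hE'))).map
      (resH : (V ≃ₗ[E] V) →* (V ≃ₗ[K] V)) = sq T ⊔ sq T' := by
    rw [sq_sup_map, lift_tor_map2 two f hf σ fE hx A hA hE,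
      lift_tor_map2 two f hf σ fE hx A' hA' hE']
  have hadjE : Algebra.adjoin E (EndSet (sq (tor σ fE (liftAlg A hE)) ⊔
      sq (tor σ fE (liftAlg A' hE')))) = ⊤ := by
    refine adjoin_lift (K := K) _ fun x hx' => ?_
    rw [hmap]
    exact hadj x hx'
  have key : ∃ h ∈ sq (tor σ fE (liftAlg A hE)) ⊔ sq (tor σ fE (liftAlg A' hE')),
      CarriesTo h (liftAlg A hE) (liftAlg A' hE') := by
    have hm : finrank E V ≤ N :=
      (finrank_lift_le (K := K) (E := E) (V := V)).trans hN.le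
    have hb := hle _ hm
    have hKE : Nat.card K ≤ Nat.card E := card_le_lift
    by_cases hσ : ∃ k, σ k ≠ k
    · have hcard : Nat.card K ≤ Nat.card {k : E // σ k = k} := by
        refine Nat.card_le_card_of_injective
          (fun k : K => (⟨algebraMap K E k, hx.fix k⟩ : {k : E // σ k = k})) ?_
        intro a b hab
        exact (algebraMap K E).injective (congrArg Subtype.val hab)
      exact hU _ E V σ _ fE _ _ g rfl (by omega) hσ twoE hx.hf hTE.toIsTor hTE'.toIsTor hg hgc hadjE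
    · push Not at hσ
      obtain rfl : σ = RingHom.id E := RingHom.ext hσ
      have hf1 : IsHF (RingHom.id E) 1 fE := by
        have := hx.hf
        rwa [map_one] at this
      have halt : Alt fE := ext_alt two f hf ha fE hx A hA hE
      exact hS _ E V fE _ _ g rfl (by omega) twoE hf1 halt hTE hTE' hg hgc
        (fun QE hQ hQ' => hyp E fE hE hE' g QE hx hf1 halt hg hgc hQ hQ') hadjE
  obtain ⟨h, hh, hhc⟩ := key
  refine ⟨resH h, ?_, carries_of_lift A A' hA.toIsTorGL hE hE' h hhc⟩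
  rw [← hmap]
  exact Subgroup.mem_map_of_mem _ hh

theorem irrF2 (N : ℕ) : ∃ q0 : ℕ, ∀ (K V : Type) [Field K] [Finite K] [AddCommGroup V]
    [Module K V] [FiniteDimensional K V] (f : V → V → K)
    (A A' : Subalgebra K (Module.End K V)),
    finrank K V = N → q0 ≤ Nat.card K → (2 : K) = 0 → IsHF (RingHom.id K) 1 f → Alt f → IsTor2 f A →
    IsTor2 f A' → SIso f A f A' → OddPos f A →
    (∀ W : Submodule K V, (∀ h ∈ sq (tor (RingHom.id K) f A) ⊔ sq (tor (RingHom.id K) f A'),
      ∀ v ∈ W, h v ∈ W) → W = ⊥ ∨ W = ⊤) →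
    ∃ h ∈ sq (tor (RingHom.id K) f A) ⊔ sq (tor (RingHom.id K) f A'), CarriesTo h A A' := by
  obtain ⟨q0, h⟩ := irrF2' N
  refine ⟨q0, ?_⟩
  intro K V _ _ _ _ _ f A A' hN hq two hf ha hA hA' hS1 hodd irr
  rcases subsingleton_or_nontrivial V with hV | hV
  · refine ⟨1, one_mem _, fun a _ => ?_⟩
    have : (1 : V ≃ₗ[K] V).toLinearMap ∘ₗ a ∘ₗ (1 : V ≃ₗ[K] V).symm.toLinearMap = 0 := by
      ext v
      exact Subsingleton.elim _ _
    rw [this]
    exact A'.zero_mem
  refine h K V f A A' hN hq two hf ha hA hA' hS1 ?_ irr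
  intro E _ _ _ _ _ _ fE hE hE' gE QE hx _ _ _ _ _ _
  exact Or.inl (lift_oddpos 1 f _ fE hx A hA.toIsTor hE hodd)

end Pool.Agent.CTE
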