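import Pool.Agent.CTE.T2
import Pool.Agent.CTE.Q1
import Pool.Agent.CTO.T4

/-!
# CTE.T4: reduction, nondegenerate stable subspace, characteristic two

Compare `redN` in `CTO/T4.lean` (read its header and copy its proof): `restr_isTor2`, `mode_restr`, `critQ_restr`, `oddpos_restr`
(of `CTO/Q1.lean`), `siso_of_critQ` (with `p' = p`, `IsoSpQ` by the identity), `ex_lift_sup_F`. `Alt (resF f W)` is clear.
-/

namespace Pool.Agent.CTE

open Module Pool.Agent.CTO

/-- The theorem with a form, characteristic two, in dimension `m`, for fields with at least `q0`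
elements. -/
def CoreF2At (q0 m : ℕ) : Prop := ∀ (K V : Type) [Field K] [Finite K] [AddCommGroup V]
    [Module K V] [FiniteDimensional K V] (f : V → V → K)
    (A A' : Subalgebra K (Module.End K V)) (Q : V → K),
    finrank K V = m → q0 ≤ Nat.card K → (2 : K) = 0 → IsHF (RingHom.id K) 1 f → Alt f → IsTor2 f A →
    IsTor2 f A' → SIso f A f A' → Mode f A Q → Mode f A' Q → CritQ f Q A → OddPos f A →
    ∃ h ∈ sq (tor (RingHom.id K) f A) ⊔ sq (tor (RingHom.id K) f A'), CarriesTo h A A'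

theorem T4_half2 (N q0 : ℕ) (IH : ∀ m < N, CoreF2At q0 m) (K V : Type) [Field K] [Finite K]
    [AddCommGroup V] [Module K V] [FiniteDimensional K V] (f : V → V → K)
    (A A' : Subalgebra K (Module.End K V)) (Q : V → K) (hN : finrank K V = N) (hq : q0 ≤ Nat.card K)
    (two : (2 : K) = 0) (hf : IsHF (RingHom.id K) 1 f) (ha0 : Alt f) (hA : IsTor2 f A)
    (hA' : IsTor2 f A')
    (hS : SIso f A f A') (hm : Mode f A Q) (hm' : Mode f A' Q) (hc : CritQ f Q A) (ho : OddPos f A)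
    (p : Module.End K V) (hpA : p ∈ A) (hpA' : p ∈ A') (hp : p * p = p) (hps : IsAdj f p p)
    (h1 : p ≠ 1) :
    ∃ y ∈ sq (tor (RingHom.id K) f A) ⊔ sq (tor (RingHom.id K) f A'),
      (∀ v, p v = 0 → y v = v) ∧ (∀ v, p v = v → p (y v) = y v) ∧
      (∀ v, p v = v → p (y.symm v) = y.symm v) ∧
      ∀ a ∈ A, ∃ b ∈ A', ∀ v, p v = v → y (a (y.symm v)) = b v := by
  have hmem : ∀ v, p v = v → v ∈ LinearMap.range p := fun v hv => ⟨v, hv⟩
  have hmem' : ∀ v ∈ LinearMap.range p, p v = v := by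
    rintro _ ⟨u, rfl⟩
    rw [← Module.End.mul_apply, hp]
  have hlt := T4_lt p hp h1
  rw [hN] at hlt
  obtain ⟨x, hx, hxc⟩ := IH _ hlt K (LinearMap.range p) (resF f (LinearMap.range p))
    (restr A (LinearMap.range p)) (restr A' (LinearMap.range p)) (resQ Q (LinearMap.range p)) rfl hq
    two (restr_isHF 1 f hf p hp hps) (fun v => ha0 v) (restr_isTor2 f hf A hA p hpA hp hps)
    (restr_isTor2 f hf A' hA' p hpA' hp hps)
    (siso_of_critQ two f hf ha0 A A' hA hA' hS Q hm hm' hc p p hpA hpA' hp hps hp hps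
      ⟨LinearEquiv.refl K _, fun _ _ => rfl, fun _ => rfl⟩)
    (mode_restr f hf A hA.toIsTorGL Q hm p hpA hp) (mode_restr f hf A' hA'.toIsTorGL Q hm' p hpA' hp)
    (critQ_restr f hf A hA.toIsTor Q hc p hpA hp hps)
    (oddpos_restr 1 f hf A hA.toIsTor ho p hpA hp hps)
  obtain ⟨y, hy, hyx, hyk⟩ := ex_lift_sup_F 1 f hf A A' hA.toIsTor hA'.toIsTor p hpA hpA' hp hps x hx
  have hsymm : ∀ (v : V) (hv : p v = v), y.symm v = x.symm ⟨v, hmem v hv⟩ := by
    intro v hv
    rw [LinearEquiv.symm_apply_eq, hyx, LinearEquiv.apply_symm_apply]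
  refine ⟨y, hy, hyk, ?_, ?_, ?_⟩
  · intro v hv
    have h2 := hyx ⟨v, hmem v hv⟩
    have h3 : y v = x ⟨v, hmem v hv⟩ := h2
    rw [h3]
    exact hmem' _ (x ⟨v, hmem v hv⟩).2
  · intro v hv
    rw [hsymm v hv]
    exact hmem' _ (x.symm ⟨v, hmem v hv⟩).2
  · intro a ha
    have hpres : ∀ v ∈ LinearMap.range p, a v ∈ LinearMap.range p := by
      rintro _ ⟨u, rfl⟩
      refine ⟨a u, ?_⟩
      rw [← Module.End.mul_apply, ← Module.End.mul_apply, hA.comm p hpA a ha]
    have hmemr : a.restrict hpres ∈ restr A (LinearMap.range p) := ⟨a, ha, fun w => rfl⟩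
    obtain ⟨b, hb, hbw⟩ := hxc _ hmemr
    refine ⟨b, hb, ?_⟩
    intro v hv
    have h2 := hbw ⟨v, hmem v hv⟩
    have h3 : b v = (x ((a.restrict hpres) (x.symm ⟨v, hmem v hv⟩)) : V) := h2.symm
    rw [h3, ← hyx, hsymm v hv]
    rfl

theorem redN2 (N q0 : ℕ) (IH : ∀ m < N, CoreF2At q0 m) (K V : Type) [Field K] [Finite K]
    [AddCommGroup V] [Module K V] [FiniteDimensional K V] (f : V → V → K)
    (A A' : Subalgebra K (Module.End K V)) (Q : V → K) (hN : finrank K V = N) (hq : q0 ≤ Nat.card K)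
    (two : (2 : K) = 0) (hf : IsHF (RingHom.id K) 1 f) (ha : Alt f) (hA : IsTor2 f A)
    (hA' : IsTor2 f A')
    (hS : SIso f A f A') (hm : Mode f A Q) (hm' : Mode f A' Q) (hc : CritQ f Q A) (ho : OddPos f A)
    (p : Module.End K V) (hpA : p ∈ A) (hpA' : p ∈ A') (hp : p * p = p) (hps : IsAdj f p p)
    (h0 : p ≠ 0) (h1 : p ≠ 1) :
    ∃ h ∈ sq (tor (RingHom.id K) f A) ⊔ sq (tor (RingHom.id K) f A'), CarriesTo h A A' := by
  obtain ⟨y, hy, hyk, hyp, hys, hya⟩ := T4_half2 N q0 IH K V f A A' Q hN hq two hf ha hA hA' hS hm hm' hc ho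
    p hpA hpA' hp hps h1
  have hqA : (1 - p) ∈ A := A.sub_mem A.one_mem hpA
  have hqA' : (1 - p) ∈ A' := A'.sub_mem A'.one_mem hpA'
  have hq2 : (1 - p) * (1 - p) = 1 - p := by
    rw [mul_sub, sub_mul, sub_mul, hp]
    simp
  have hq1 : (1 - p) ≠ 1 := by
    intro h
    apply h0
    have h2 : p = 1 - (1 - p) := by abel
    rw [h2, h, sub_self]
  obtain ⟨z, hz, hzk, hzp, hzs, hza⟩ := T4_half2 N q0 IH K V f A A' Q hN hq two hf ha hA hA' hS hm hm' hc ho
    (1 - p) hqA hqA' hq2 (T4_adj_compl hf p hps) hq1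
  -- membership in the kernel of `p`
  have hk : ∀ v, (1 - p) v = v ↔ p v = 0 := by
    intro v
    rw [LinearMap.sub_apply, Module.End.one_apply]
    constructor
    · intro h
      have h2 := sub_eq_self.1 h
      exact h2
    · intro h
      rw [h, sub_zero]
  have hk' : ∀ v, (1 - p) v = 0 ↔ p v = v := by
    intro v
    rw [LinearMap.sub_apply, Module.End.one_apply, sub_eq_zero]
    exact ⟨fun h => h.symm, fun h => h.symm⟩
  have hpp : ∀ v, p (p v) = p v := by
    intro v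
    rw [← Module.End.mul_apply, hp]
  refine ⟨y * z, mul_mem hy hz, ?_⟩
  intro a ha
  obtain ⟨b, hb, hbv⟩ := hya a ha
  obtain ⟨c, hc', hcv⟩ := hza a ha
  have hcomm : ∀ v, p (a v) = a (p v) := by
    intro v
    rw [← Module.End.mul_apply, ← Module.End.mul_apply, hA.comm p hpA a ha]
  have e1 : ∀ v, p v = v → (y * z) (a ((y * z).symm v)) = b v := by
    intro v hv
    have h2 : (y * z).symm v = y.symm v := by
      rw [LinearEquiv.symm_apply_eq, LinearEquiv.mul_apply, hzk _ ((hk' _).2 (hys v hv)),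
        LinearEquiv.apply_symm_apply]
    rw [h2, LinearEquiv.mul_apply, hzk _ ((hk' _).2 _), hbv v hv]
    rw [hcomm, hys v hv]
  have e2 : ∀ v, p v = 0 → (y * z) (a ((y * z).symm v)) = c v := by
    intro v hv
    have h3 : p (z.symm v) = 0 := (hk _).1 (hzs v ((hk v).2 hv))
    have h2 : (y * z).symm v = z.symm v := by
      rw [LinearEquiv.symm_apply_eq, LinearEquiv.mul_apply, LinearEquiv.apply_symm_apply,
        hyk v hv]
    have h4 : p (a (z.symm v)) = 0 := by rw [hcomm, h3, map_zero]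
    have h5 : p (z (a (z.symm v))) = 0 := (hk _).1 (hzp _ ((hk _).2 h4))
    rw [h2, LinearEquiv.mul_apply, hyk _ h5, hcv v ((hk v).2 hv)]
  have heq : (y * z).toLinearMap ∘ₗ a ∘ₗ (y * z).symm.toLinearMap = b * p + c * (1 - p) := by
    ext v
    have h2 : v = p v + (1 - p) v := by
      rw [LinearMap.sub_apply, Module.End.one_apply]
      abel
    have h3 := e1 (p v) (hpp v)
    have h4 : p ((1 - p) v) = 0 := by
      rw [LinearMap.sub_apply, Module.End.one_apply, map_sub, hpp, sub_self]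
    have h5 := e2 ((1 - p) v) h4
    rw [LinearMap.add_apply, Module.End.mul_apply, Module.End.mul_apply, ← h3, ← h5]
    conv_lhs => rw [h2]
    simp only [LinearMap.comp_apply, LinearEquiv.coe_coe, map_add]
  rw [heq]
  exact A'.add_mem (A'.mul_mem hb hpA') (A'.mul_mem hc' hqA')

end Pool.Agent.CTE
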