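import Pool.Agent.CTE.T4
import Pool.Agent.CTE.Q3
import Pool.Agent.CTO.T3
import Pool.Agent.CTO.V1

/-!
# CTE.T5: reduction, totally isotropic stable subspace, characteristic two

Compare `redI'` in `CTO/V1.lean` and the header of `CTO/T5.lean` (copy the proof of `redI'`; auxiliary lemmas of that file
which do not mention `two`, `Crit` may be imported). Replace `siso_of_crit`, `iso_U`, `critGL_U`, `ex_lift_iso_sup` by
`siso_of_critQ`, `iso_U2`, `critGL_U2`, `ex_lift_iso_sup2`; the isometry `ψ : range p ≃ range p1` preserves `Q` (`psi_Q`), so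
`IsoSpQ`. `A1 = pull h1 A'` with `h1 ∈ sq T ⊔ sq T'`: `IsTor2` by `pull_isTor2`, `Mode f A1 Q`: if `Q` is zero trivial; otherwise
`adQ_pull` and `Q (h1 v) = Q v` (`h1 ∈ OQ f Q` as `T`, `T' ≤ OQ f Q` by `adQ_sim` with `μ = 1` and `mem_tor2`).
`C = restr A (range p)`, `C' = pull ψ (restr A1 (range p1))`: `Mode` by `mode_restr` and `adQ_pull`, `psi_Q`.
`compareF` (`CTO/P3.lean`) is characteristic free.
-/

namespace Pool.Agent.CTE

open Module Pool.Agent.CTO

section

variable {K V : Type} [Field K] [Finite K] [AddCommGroup V] [Module K V] [FiniteDimensional K V]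

omit [Finite K] in
theorem T5_tor_le (two : (2 : K) = 0) {f : V → V → K} (hf : IsHF (RingHom.id K) 1 f)
    {A : Subalgebra K (Module.End K V)} (hA : IsTorGL A) {Q : V → K} (hm : Mode f A Q) :
    tor (RingHom.id K) f A ≤ OQ f Q := by
  intro t ht
  have h1 := (mem_tor2 two f hf A t).1 ht
  refine ⟨h1.2, fun v => ?_⟩
  rcases hm with h | h
  · rw [h, h]
  · have h2 := adQ_sim f A hA Q h t h1.1 1 (fun v w => by
      rw [one_mul]
      exact h1.2 v w) v
    rw [h2, one_mul]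

omit [Finite K] in
theorem T5_Q (two : (2 : K) = 0) {f : V → V → K} (hf : IsHF (RingHom.id K) 1 f)
    {A A' : Subalgebra K (Module.End K V)} (hA : IsTorGL A) (hA' : IsTorGL A') {Q : V → K}
    (hm : Mode f A Q) (hm' : Mode f A' Q) {h : V ≃ₗ[K] V}
    (hh : h ∈ sq (tor (RingHom.id K) f A) ⊔ sq (tor (RingHom.id K) f A')) :
    ∀ v, Q (h v) = Q v := by
  have h1 : sq (tor (RingHom.id K) f A) ⊔ sq (tor (RingHom.id K) f A') ≤ OQ f Q :=
    sup_le ((P3_sq_le _).trans (T5_tor_le two hf hA hm)) ((P3_sq_le _).trans (T5_tor_le two hf hA' hm'))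
  exact (h1 hh).2

theorem T5_mid2 (N q0 : ℕ) (IH : ∀ m < N, CoreF2At q0 m) (f : V → V → K)
    (A A1 : Subalgebra K (Module.End K V)) (Q : V → K) (hN : finrank K V = N) (hq : q0 ≤ Nat.card K)
    (two : (2 : K) = 0) (hf : IsHF (RingHom.id K) 1 f) (ha : Alt f) (hA : IsTor2 f A)
    (hA1 : IsTor2 f A1)
    (hg : A ≤ Algebra.adjoin K (EndSet (sq (tor (RingHom.id K) f A))))
    (hS : SIso f A f A1) (hm : Mode f A Q) (hm1 : Mode f A1 Q) (hc : CritQ f Q A)
    (ho : ∀ p ∈ A, p * p = p → IsAdj f p p → p ≠ 1 →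
      OddPos (resF f (LinearMap.range p)) (restr A (LinearMap.range p)))
    (U : Submodule K V) (hU : U ≠ ⊥) (hiso : ∀ u ∈ U, ∀ v ∈ U, f u v = 0)
    (sA : ∀ a ∈ A, ∀ v ∈ U, a v ∈ U) (sA1 : ∀ a ∈ A1, ∀ v ∈ U, a v ∈ U)
    (r1 : ∀ a ∈ A, ∃ b ∈ A1, ∀ u ∈ U, b u = a u) :
    ∃ h ∈ sq (tor (RingHom.id K) f A) ⊔ sq (tor (RingHom.id K) f A1), CarriesTo h A A1 := by
  obtain ⟨e, s, hi, hr⟩ := V1_idem hf hA.toIsTor hiso sA
  obtain ⟨e1, s1, hi1, hr1⟩ := V1_idem hf hA1.toIsTor hiso sA1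
  obtain ⟨hp, hpp, hps, hss, hes0, hker⟩ := isoIdem_p 1 f hf A hA.toIsTor e s hi
  obtain ⟨hp1, hpp1, hps1, hss1, hes01, hker1⟩ := isoIdem_p 1 f hf A1 hA1.toIsTor e1 s1 hi1
  have hrr : LinearMap.range e = LinearMap.range e1 := hr.trans hr1.symm
  obtain ⟨ψ, hψ, hψi⟩ := exists_psi_F 1 f hf A A1 hA.toIsTor hA1.toIsTor e s e1 s1 hi hi1 hrr
  have hT1 := restr_isTor2 f hf A hA (1 - e - s) hp hpp hps
  have hT2 := restr_isTor2 f hf A1 hA1 (1 - e1 - s1) hp1 hpp1 hps1
  have hT3 : IsTor2 (resF f (LinearMap.range (1 - e - s)))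
      (pull ψ (restr A1 (LinearMap.range (1 - e1 - s1)))) :=
    pull_isTor2 (resF f (LinearMap.range (1 - e - s))) (resF f (LinearMap.range (1 - e1 - s1))) ψ
      hψi _ hT2
  have hψQ : ∀ v : LinearMap.range (1 - e - s), Q (ψ v) = Q v := by
    intro v
    rw [hψ v]
    exact psi_Q two f hf ha A A1 hA hA1 Q hm e s e1 s1 hi hi1 hrr v v.2
  have hM1 := mode_restr f hf A hA.toIsTorGL Q hm (1 - e - s) hp hpp
  have hM2 := mode_restr f hf A1 hA1.toIsTorGL Q hm1 (1 - e1 - s1) hp1 hpp1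
  have hM3 : Mode (resF f (LinearMap.range (1 - e - s)))
      (pull ψ (restr A1 (LinearMap.range (1 - e1 - s1)))) (resQ Q (LinearMap.range (1 - e - s))) := by
    have e0 : (fun v : LinearMap.range (1 - e - s) =>
        resQ Q (LinearMap.range (1 - e1 - s1)) (ψ v)) = resQ Q (LinearMap.range (1 - e - s)) := by
      funext v
      exact hψQ v
    rcases hM2 with h | h
    · left
      intro v
      rw [← e0]
      exact h (ψ v)
    · right
      rw [← e0]
      exact adQ_pull (resF f (LinearMap.range (1 - e - s))) (resF f (LinearMap.range (1 - e1 - s1)))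
        ψ hψi _ _ h
  have hS2 := siso_of_critQ two f hf ha A A1 hA hA1 hS Q hm hm1 hc (1 - e - s) (1 - e1 - s1) hp hp1
    hpp hps hpp1 hps1 ⟨ψ, hψi, hψQ⟩
  have hS3 := siso_trans _ _ _ _ _ _ hS2 (pull_siso (resF f (LinearMap.range (1 - e - s)))
    (resF f (LinearMap.range (1 - e1 - s1))) ψ hψi (restr A1 (LinearMap.range (1 - e1 - s1)))).2
  have eU : ∀ u ∈ U, e u = u := by
    intro u hu
    rw [← hr] at hu
    obtain ⟨w, rfl⟩ := hu
    exact LinearMap.congr_fun hi.idem w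
  have eR : ∀ v, e v ∈ U := fun v => by rw [← hr]; exact ⟨v, rfl⟩
  have eR1 : ∀ v, e1 v ∈ U := fun v => by rw [← hr1]; exact ⟨v, rfl⟩
  have sU : ∀ u ∈ U, s u = 0 := by
    intro u hu
    rw [← eU u hu]
    exact LinearMap.congr_fun hi.orth u
  have hdim : finrank K (LinearMap.range (1 - e - s)) < N := by
    rw [← hN]
    apply Submodule.finrank_lt
    intro htop
    apply hU
    rw [Submodule.eq_bot_iff]
    intro u hu
    have h1 : u ∈ LinearMap.range (1 - e - s) := by rw [htop]; trivial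
    obtain ⟨w, hw⟩ := h1
    have h2 : (1 - e - s) u = u := by
      rw [← hw]
      exact LinearMap.congr_fun hpp w
    have h3 : (1 - e - s) u = u - e u - s u := rfl
    rw [← h2, h3, eU u hu, sU u hu]
    simp
  have hne : (1 - e - s) ≠ 1 := by
    intro h1
    apply hU
    rw [Submodule.eq_bot_iff]
    intro u hu
    have h2 : (1 - e - s) u = u := by
      rw [h1]
      rfl
    have h3 : (1 - e - s) u = u - e u - s u := rfl
    rw [← h2, h3, eU u hu, sU u hu]
    simp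
  obtain ⟨x2, hx2, hx2c⟩ := IH _ hdim K (LinearMap.range (1 - e - s))
    (resF f (LinearMap.range (1 - e - s))) (restr A (LinearMap.range (1 - e - s)))
    (pull ψ (restr A1 (LinearMap.range (1 - e1 - s1)))) (resQ Q (LinearMap.range (1 - e - s)))
    rfl hq two
    (restr_isHF 1 f hf (1 - e - s) hpp hps) (fun v => ha v) hT1 hT3 hS3 hM1 hM3
    (critQ_restr f hf A hA.toIsTor Q hc (1 - e - s) hp hpp hps)
    (ho (1 - e - s) hp hpp hps hne)
  obtain ⟨h2, hh2, h2U, h2p⟩ := ex_lift_mid 1 f hf A A1 hA.toIsTor hA1.toIsTor e s e1 s1 hi hi1 hrr ψ hψ x2 hx2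
  have I2 : ∀ v w, f (h2 v) (h2 w) = f v w := V1_isom hh2
  have e2 : ∀ v, h2 (h2.symm v) = v := fun v => h2.apply_symm_apply v
  have e3 : ∀ v, h2.symm (h2 v) = v := fun v => h2.symm_apply_apply v
  have h2s : ∀ u ∈ U, h2.symm u = u := by
    intro u hu
    have h3 := h2U u (by rw [hr]; exact hu)
    have h4 := e3 u
    rw [h3] at h4
    exact h4
  have hA2 : IsTor2 f (pull h2 A1) := pull_isTor2 f f h2 I2 A1 hA1
  have sA2 : ∀ a ∈ pull h2 A1, ∀ u ∈ U, a u ∈ U := by
    intro a ha u hu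
    have h3 := sA1 _ ha u hu
    have h4 : (h2.toLinearMap ∘ₗ a ∘ₗ h2.symm.toLinearMap) u = h2 (a (h2.symm u)) := rfl
    rw [h4, h2s u hu] at h3
    have h5 := h2s _ h3
    rw [e3] at h5
    rw [h5]
    exact h3
  obtain ⟨e4, s4, hi4, hr4⟩ := V1_idem hf hA2.toIsTor hiso sA2
  obtain ⟨hp4, hpp4, hps4, hss4, hes04, hker4⟩ := isoIdem_p 1 f hf (pull h2 A1) hA2.toIsTor e4 s4 hi4
  let U1 : Submodule K V := LinearMap.ker s
  have hU1 : ∀ v, v ∈ U1 ↔ ∀ u ∈ U, f v u = 0 := by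
    intro v
    rw [← hr]
    exact hker v
  have hUU : U ≤ U1 := by
    intro u hu
    rw [hU1]
    intro w hw
    exact hiso u hu w hw
  have r1' : ∀ a ∈ A, ∃ b ∈ pull h2 A1, ∀ u ∈ U, b u = a u := by
    intro a ha
    obtain ⟨b, hb, hab⟩ := r1 a ha
    refine ⟨h2.symm.toLinearMap ∘ₗ b ∘ₗ h2.toLinearMap, ?_, ?_⟩
    · rw [mem_pull]
      have h3 : h2.toLinearMap ∘ₗ (h2.symm.toLinearMap ∘ₗ b ∘ₗ h2.toLinearMap) ∘ₗ
          h2.symm.toLinearMap = b := by
        ext v
        show h2 (h2.symm (b (h2 (h2.symm v)))) = b v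
        rw [e2, e2]
      rw [h3]
      exact hb
    · intro u hu
      show h2.symm (b (h2 u)) = a u
      rw [h2U u (by rw [hr]; exact hu), hab u hu, h2s _ (sA a ha u hu)]
  have r2' : ∀ a ∈ A, ∃ b ∈ pull h2 A1, ∀ v ∈ U1, b v - a v ∈ U := by
    intro a ha
    have hap : ∀ v ∈ LinearMap.range (1 - e - s), a v ∈ LinearMap.range (1 - e - s) := by
      rintro _ ⟨w, rfl⟩
      refine ⟨a w, ?_⟩
      have h3 := hA.comm a ha _ hp
      exact (LinearMap.congr_fun h3 w).symm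
    have hcC : (a.restrict hap) ∈ restr A (LinearMap.range (1 - e - s)) :=
      ⟨a, ha, fun w => rfl⟩
    have h3 := hx2c _ hcC
    rw [mem_pull] at h3
    obtain ⟨b, hb, hbw⟩ := h3
    refine ⟨h2.symm.toLinearMap ∘ₗ b ∘ₗ h2.toLinearMap, ?_, ?_⟩
    · rw [mem_pull]
      have h3 : h2.toLinearMap ∘ₗ (h2.symm.toLinearMap ∘ₗ b ∘ₗ h2.toLinearMap) ∘ₗ
          h2.symm.toLinearMap = b := by
        ext v
        show h2 (h2.symm (b (h2 (h2.symm v)))) = b v
        rw [e2, e2]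
      rw [h3]
      exact hb
    · have main : ∀ v : LinearMap.range (1 - e - s), h2.symm (b (h2 (v : V))) - a v ∈ U := by
        intro v
        have t1 : h2 (v : V) - (x2 v : V) ∈ U := by rw [← hr]; exact h2p v
        have t2 := hbw (ψ (x2 v))
        have t3 : (ψ.toLinearMap ∘ₗ (x2.toLinearMap ∘ₗ (a.restrict hap) ∘ₗ
            x2.symm.toLinearMap) ∘ₗ ψ.symm.toLinearMap) (ψ (x2 v)) =
            ψ (x2 (a.restrict hap v)) := by
          show ψ (x2 ((a.restrict hap) (x2.symm (ψ.symm (ψ (x2 v)))))) = _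
          rw [ψ.symm_apply_apply, x2.symm_apply_apply]
        rw [t3, hψ, hψ] at t2
        have t4 : h2 ((a.restrict hap v : LinearMap.range (1 - e - s)) : V) -
            (x2 (a.restrict hap v) : V) ∈ U := by rw [← hr]; exact h2p _
        have t5 : ((a.restrict hap v : LinearMap.range (1 - e - s)) : V) = a v := rfl
        rw [t5] at t4
        -- `b (h2 v) - h2 (a v) ∈ U`
        have t6 : b (h2 (v : V)) - h2 (a v) ∈ U := by
          have u1 : b (h2 (v : V) - (x2 v : V)) ∈ U := sA1 b hb _ t1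
          have u2 : b (e1 (x2 v : V)) ∈ U := sA1 b hb _ (eR1 _)
          have u3 : e1 ((x2 (a.restrict hap v) : LinearMap.range (1 - e - s)) : V) ∈ U := eR1 _
          have e5 : b (h2 (v : V)) - h2 (a v) = b (h2 (v : V) - (x2 v : V)) + b (e1 (x2 v : V)) -
              (e1 ((x2 (a.restrict hap v) : LinearMap.range (1 - e - s)) : V)) -
              (h2 (a v) - ((x2 (a.restrict hap v) : LinearMap.range (1 - e - s)) : V)) := by
            rw [map_sub] at t2
            rw [map_sub]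
            have e6 : ((x2 (a.restrict hap v) : LinearMap.range (1 - e - s)) : V) -
              e1 ((x2 (a.restrict hap v) : LinearMap.range (1 - e - s)) : V) =
              b (x2 v : V) - b (e1 (x2 v : V)) := t2
            have e7 : b (x2 v : V) = ((x2 (a.restrict hap v) : LinearMap.range (1 - e - s)) : V) -
              e1 ((x2 (a.restrict hap v) : LinearMap.range (1 - e - s)) : V) +
              b (e1 (x2 v : V)) := by
              rw [e6]
              abel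
            rw [e7]
            abel
          rw [e5]
          exact U.sub_mem (U.sub_mem (U.add_mem u1 u2) u3) t4
        have t7 := h2s _ t6
        have t8 : h2.symm (b (h2 (v : V)) - h2 (a v)) = h2.symm (b (h2 (v : V))) - a v := by
          rw [map_sub, e3]
        rw [← t8, t7]
        exact t6
      intro v hv
      have hsv : s v = 0 := hv
      have hv2 : v = e v + (1 - e - s) v := by
        show v = e v + (v - e v - s v)
        rw [hsv]
        abel
      have m1 := main ⟨(1 - e - s) v, ⟨v, rfl⟩⟩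
      have m1' : h2.symm (b (h2 ((1 - e - s) v))) - a ((1 - e - s) v) ∈ U := m1
      have m2 : h2.symm (b (h2 (e v))) - a (e v) ∈ U := by
        have k1 : h2 (e v) = e v := h2U _ ⟨v, rfl⟩
        rw [k1, h2s _ (sA1 b hb _ (eR v))]
        exact U.sub_mem (sA1 b hb _ (eR v)) (sA a ha _ (eR v))
      show h2.symm (b (h2 v)) - a v ∈ U
      have k2 : h2.symm (b (h2 v)) - a v = (h2.symm (b (h2 (e v))) - a (e v)) +
          (h2.symm (b (h2 ((1 - e - s) v))) - a ((1 - e - s) v)) := by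
        conv_lhs => rw [hv2]
        rw [map_add, map_add, map_add, map_add]
        abel
      rw [k2]
      exact U.add_mem m2 m1'
  have hN1 := V1_half hf hA.toIsTor hA2.toIsTor hi4 hr4 hU1 hUU hker4 hp4 hss4 sA sA2 r1' r2'
  have hN2 := V1_rev hA.toIsTorGL hA2.toIsTorGL hN1
  obtain ⟨x, hx, hxc⟩ := compareF 1 f hf A (pull h2 A1) hA.toIsTor hA2.toIsTor hg U U1 hUU hU1 sA sA2 hN1 hN2
  exact step_F f A A1 h2 x hh2 hx hxc

end

theorem redI2 (N q0 : ℕ) (IH : ∀ m < N, CoreF2At q0 m) (hGL : ∀ m ≤ N, CoreGLAt q0 m)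
    (K V : Type) [Field K] [Finite K]
    [AddCommGroup V] [Module K V] [FiniteDimensional K V] (f : V → V → K)
    (A A' : Subalgebra K (Module.End K V)) (Q : V → K) (hN : finrank K V = N) (hq : q0 ≤ Nat.card K)
    (two : (2 : K) = 0) (hf : IsHF (RingHom.id K) 1 f) (ha : Alt f) (hA : IsTor2 f A)
    (hA' : IsTor2 f A')
    (hg : A ≤ Algebra.adjoin K (EndSet (sq (tor (RingHom.id K) f A))))
    (hS : SIso f A f A') (hm : Mode f A Q) (hm' : Mode f A' Q) (hc : CritQ f Q A)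
    (ho : ∀ p ∈ A, p * p = p → IsAdj f p p → p ≠ 1 →
      OddPos (resF f (LinearMap.range p)) (restr A (LinearMap.range p)))
    (U : Submodule K V) (hU : U ≠ ⊥) (hiso : ∀ u ∈ U, ∀ v ∈ U, f u v = 0)
    (s1 : ∀ a ∈ A, ∀ v ∈ U, a v ∈ U) (s2 : ∀ a ∈ A', ∀ v ∈ U, a v ∈ U) :
    ∃ h ∈ sq (tor (RingHom.id K) f A) ⊔ sq (tor (RingHom.id K) f A'), CarriesTo h A A' := by
  obtain ⟨e, s, hi, hr⟩ := V1_idem hf hA.toIsTor hiso s1
  obtain ⟨e', s', hi', hr'⟩ := V1_idem hf hA'.toIsTor hiso s2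
  have hB : IsTorGL (restr A U) := by
    have := restr_isTorGL A hA.toIsTorGL e hi.he hi.idem
    rw [hr] at this
    exact this
  have hB' : IsTorGL (restr A' U) := by
    have := restr_isTorGL A' hA'.toIsTorGL e' hi'.he hi'.idem
    rw [hr'] at this
    exact this
  have hiU : Nonempty (restr A U ≃ₐ[K] restr A' U) := by
    have := iso_U2 two f hf ha A A' hA hA' hS Q hm hm' hc e s e' s' hi hi' (by rw [hr, hr'])
    rw [hr, hr'] at this
    exact this
  have hcU : CritGL (restr A U) := by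
    have := critGL_U2 two f hf ha A hA Q hm hc e s hi
    rw [hr] at this
    exact this
  obtain ⟨x, hx, hxc⟩ := hGL (finrank K U) (by rw [← hN]; exact Submodule.finrank_le U) K U
    (restr A U) (restr A' U) rfl hq hB hB' hiU hcU
  obtain ⟨h1, hh1, hh1x⟩ := ex_lift_iso_sup2 f hf A A' hA.toIsTor hA'.toIsTor e s e' s' hi hi' U hr hr' x hx
  have I1 : ∀ v w, f (h1 v) (h1 w) = f v w := V1_isom hh1
  have e2 : ∀ v, h1 (h1.symm v) = v := fun v => h1.apply_symm_apply v
  have e3 : ∀ v, h1.symm (h1 v) = v := fun v => h1.symm_apply_apply v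
  have h1U : ∀ u ∈ U, h1 u ∈ U := by
    intro u hu
    have h3 : h1 u = (x ⟨u, hu⟩ : V) := hh1x ⟨u, hu⟩
    rw [h3]
    exact (x ⟨u, hu⟩).2
  have h1s : ∀ u ∈ U, h1.symm u ∈ U := by
    intro u hu
    have h3 : h1 (x.symm ⟨u, hu⟩ : V) = u := by
      rw [hh1x, x.apply_symm_apply]
    have h4 : h1.symm u = (x.symm ⟨u, hu⟩ : V) := by
      rw [← e3 (x.symm ⟨u, hu⟩ : V), h3]
    rw [h4]
    exact (x.symm ⟨u, hu⟩).2
  have hA1 : IsTor2 f (pull h1 A') := pull_isTor2 f f h1 I1 A' hA'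
  have hm1 : Mode f (pull h1 A') Q := by
    have hQ : ∀ v, Q (h1 v) = Q v := T5_Q two hf hA.toIsTorGL hA'.toIsTorGL hm hm' hh1
    have e0 : (fun v => Q (h1 v)) = Q := funext hQ
    rcases hm' with h | h
    · exact Or.inl h
    · right
      have h5 := adQ_pull f f h1 I1 A' Q h
      rw [e0] at h5
      exact h5
  have hS1 : SIso f A f (pull h1 A') :=
    siso_trans f f f A A' (pull h1 A') hS (pull_siso f f h1 I1 A').2
  have sA1 : ∀ a ∈ pull h1 A', ∀ u ∈ U, a u ∈ U := by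
    intro a ha u hu
    have h3 := s2 _ ha (h1 u) (h1U u hu)
    have h4 : (h1.toLinearMap ∘ₗ a ∘ₗ h1.symm.toLinearMap) (h1 u) = h1 (a (h1.symm (h1 u))) := rfl
    rw [h4, e3] at h3
    have h5 := h1s _ h3
    rw [e3] at h5
    exact h5
  have r1 : ∀ a ∈ A, ∃ b ∈ pull h1 A', ∀ u ∈ U, b u = a u := by
    intro a ha
    have h3 : (a.restrict (s1 a ha)) ∈ restr A U := ⟨a, ha, fun w => rfl⟩
    obtain ⟨a', ha', haw⟩ := hxc _ h3
    refine ⟨h1.symm.toLinearMap ∘ₗ a' ∘ₗ h1.toLinearMap, ?_, ?_⟩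
    · rw [mem_pull]
      have h3 : h1.toLinearMap ∘ₗ (h1.symm.toLinearMap ∘ₗ a' ∘ₗ h1.toLinearMap) ∘ₗ
          h1.symm.toLinearMap = a' := by
        ext v
        show h1 (h1.symm (a' (h1 (h1.symm v)))) = a' v
        rw [e2, e2]
      rw [h3]
      exact ha'
    · intro u hu
      show h1.symm (a' (h1 u)) = a u
      have h4 : h1 u = (x ⟨u, hu⟩ : V) := hh1x ⟨u, hu⟩
      have h5 := haw (x ⟨u, hu⟩)
      have h6 : (x.toLinearMap ∘ₗ (a.restrict (s1 a ha)) ∘ₗ x.symm.toLinearMap) (x ⟨u, hu⟩) =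
          x (a.restrict (s1 a ha) ⟨u, hu⟩) := by
        show x ((a.restrict (s1 a ha)) (x.symm (x ⟨u, hu⟩))) = _
        rw [x.symm_apply_apply]
      rw [h6] at h5
      rw [h4, ← h5, ← hh1x, e3]
      rfl
  obtain ⟨y, hy, hyc⟩ := T5_mid2 N q0 IH f A (pull h1 A') Q hN hq two hf ha hA hA1 hg hS1 hm hm1 hc ho U hU
    hiso s1 sA1 r1
  exact step_F f A A' h1 y hh1 hy hyc

end Pool.Agent.CTE
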