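import Pool.Agent.CTE.T5
import Pool.Agent.CTO.T6

/-!
# CTE.T6: the core theorem, characteristic two

Compare `coreF` in `CTO/T6.lean` (read its header and copy its proof): `gen_tor2`, `irrF2`, `coreGL`, `redN2`, `redI2`
(`oddpos_restr` of `CTO/Q1.lean` gives its hypothesis `ho`), `nondeg_proj`.
-/

namespace Pool.Agent.CTE

open Module Pool.Agent.CTO

theorem T6_F_mono2 {q q' m : ℕ} (h : q ≤ q') (hF : CoreF2At q m) : CoreF2At q' m := by
  intro K V _ _ _ _ _ f A A' Q h1 h2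
  exact hF K V f A A' Q h1 (h.trans h2)

theorem T6_step2 (N q0 : ℕ) (IH : ∀ m < N, CoreF2At q0 m) (hGL : ∀ m ≤ N, CoreGLAt q0 m)
    (hgen : ∀ (K V : Type) [Field K] [Finite K] [AddCommGroup V]
      [Module K V] [FiniteDimensional K V] (f : V → V → K)
      (A : Subalgebra K (Module.End K V)),
      finrank K V = N → q0 ≤ Nat.card K → (2 : K) = 0 → IsHF (RingHom.id K) 1 f → Alt f →
      IsTor2 f A → A ≤ Algebra.adjoin K (EndSet (sq (tor (RingHom.id K) f A))))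
    (hirr : ∀ (K V : Type) [Field K] [Finite K] [AddCommGroup V]
      [Module K V] [FiniteDimensional K V] (f : V → V → K)
      (A A' : Subalgebra K (Module.End K V)),
      finrank K V = N → q0 ≤ Nat.card K → (2 : K) = 0 → IsHF (RingHom.id K) 1 f → Alt f →
      IsTor2 f A → IsTor2 f A' → SIso f A f A' → OddPos f A →
      (∀ W : Submodule K V, (∀ h ∈ sq (tor (RingHom.id K) f A) ⊔ sq (tor (RingHom.id K) f A'),
        ∀ v ∈ W, h v ∈ W) → W = ⊥ ∨ W = ⊤) →
      ∃ h ∈ sq (tor (RingHom.id K) f A) ⊔ sq (tor (RingHom.id K) f A'), CarriesTo h A A') :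
    CoreF2At q0 N := by
  intro K V _ _ _ _ _ f A A' Q hN hq two hf ha hA hA' hS hm hm' hc ho
  by_cases hI : ∀ W : Submodule K V,
      (∀ h ∈ sq (tor (RingHom.id K) f A) ⊔ sq (tor (RingHom.id K) f A'),
        ∀ v ∈ W, h v ∈ W) → W = ⊥ ∨ W = ⊤
  · exact hirr K V f A A' hN hq two hf ha hA hA' hS ho hI
  push Not at hI
  obtain ⟨W, hW, hW0, hW1⟩ := hI
  have hg := hgen K V f A hN hq two hf ha hA
  have hg' := hgen K V f A' hN hq two hf ha hA'
  have sA : ∀ a ∈ A, ∀ v ∈ W, a v ∈ W := fun a ha =>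
    T6_stab _ W hW a (T6_mono _ _ le_sup_left (hg ha))
  have sA' : ∀ a ∈ A', ∀ v ∈ W, a v ∈ W := fun a ha =>
    T6_stab _ W hW a (T6_mono _ _ le_sup_right (hg' ha))
  have hperp : ∀ B : Subalgebra K (Module.End K V), IsTor f B →
      (∀ a ∈ B, ∀ v ∈ W, a v ∈ W) →
      ∀ a ∈ B, ∀ v ∈ W ⊓ perp (RingHom.id K) 1 f hf W,
        a v ∈ W ⊓ perp (RingHom.id K) 1 f hf W := by
    intro B hB sB a ha v hv
    rw [Submodule.mem_inf] at hv ⊢
    refine ⟨sB a ha v hv.1, ?_⟩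
    obtain ⟨b, hb, hab⟩ := hB.star a ha
    intro u hu
    rw [hab v u]
    exact hv.2 (b u) (sB b hb u hu)
  by_cases hU : W ⊓ perp (RingHom.id K) 1 f hf W = ⊥
  · obtain ⟨p, hp, hps, hr, hpA⟩ := nondeg_proj 1 f hf W (by
      intro v hv h
      have h1 : v ∈ W ⊓ perp (RingHom.id K) 1 f hf W := Submodule.mem_inf.2 ⟨hv, h⟩
      rw [hU] at h1
      exact (Submodule.mem_bot K).1 h1)
    refine redN2 N q0 IH K V f A A' Q hN hq two hf ha hA hA' hS hm hm' hc ho p
      (hpA A hA.toIsTor sA) (hpA A' hA'.toIsTor sA') hp hps ?_ ?_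
    · rintro rfl
      apply hW0
      rw [← hr, LinearMap.range_zero]
    · rintro rfl
      apply hW1
      rw [← hr]
      exact LinearMap.range_id
  · refine redI2 N q0 IH hGL K V f A A' Q hN hq two hf ha hA hA' hg hS hm hm' hc
      (fun p hpA hp hps _ => oddpos_restr 1 f hf A hA.toIsTor ho p hpA hp hps)
      (W ⊓ perp (RingHom.id K) 1 f hf W) hU ?_ (hperp A hA.toIsTor sA) (hperp A' hA'.toIsTor sA')
    intro u hu v hv
    exact hu.2 v hv.1

theorem T6_lt2 (N : ℕ) : ∃ q0 : ℕ, ∀ m < N, CoreF2At q0 m := by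
  induction N with
  | zero => exact ⟨0, fun m hm => absurd hm (Nat.not_lt_zero m)⟩
  | succ N ih =>
    obtain ⟨q1, h1⟩ := ih
    choose qg hqg using coreGL
    obtain ⟨q3, h3⟩ := gen_tor2 N
    obtain ⟨q4, h4⟩ := irrF2 N
    set q2 : ℕ := (Finset.range (N + 1)).sup qg with hq2
    have h2 : ∀ m ≤ N, CoreGLAt q2 m := fun m hm =>
      T6_GL_mono (Finset.le_sup (f := qg) (Finset.mem_range.2 (Nat.lt_succ_of_le hm))) (hqg m)
    set q0 : ℕ := max (max q1 q2) (max q3 q4) with hq0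
    have e1 : q1 ≤ q0 := (le_max_left _ _).trans (le_max_left _ _)
    have e2 : q2 ≤ q0 := (le_max_right _ _).trans (le_max_left _ _)
    have e3 : q3 ≤ q0 := (le_max_left _ _).trans (le_max_right _ _)
    have e4 : q4 ≤ q0 := (le_max_right _ _).trans (le_max_right _ _)
    refine ⟨q0, fun m hm => ?_⟩
    rcases Nat.lt_succ_iff_lt_or_eq.1 hm with h | rfl
    · exact T6_F_mono2 e1 (h1 m h)
    · refine T6_step2 m q0 (fun k hk => T6_F_mono2 e1 (h1 k hk))
        (fun k hk => T6_GL_mono e2 (h2 k hk)) ?_ ?_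
      · intro K V _ _ _ _ _ f A hN hq
        exact h3 K V f A hN (e3.trans hq)
      · intro K V _ _ _ _ _ f A A' hN hq
        exact h4 K V f A A' hN (e4.trans hq)

theorem coreF2 (N : ℕ) : ∃ q0 : ℕ, ∀ m ≤ N, CoreF2At q0 m := by
  obtain ⟨q0, h⟩ := T6_lt2 (N + 1)
  exact ⟨q0, fun m hm => h m (Nat.lt_succ_of_le hm)⟩

end Pool.Agent.CTE
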