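import Pool.Agent.CTE.Y0
import Pool.Agent.CTO.Z5
import Pool.Agent.CTO.V2

/-!
# CTE.Z5: isometries normalizing `A` are even on a positive cycle of even length, characteristic two

`e` a primitive idempotent of `A` with adjoint `s`, `s e = 0`, `m = rank e` even, `U = range e`, `S = range s`,
`M = range (e + s) = U ⊕ S`; `U`, `S` are totally isotropic and in duality by `f` (`Z5_facts`, `Z5_basis` of `CTO/Z5.lean`),
`dim S = m`. Let `y` be an isometry of `f` with `y A y⁻¹ = A`, `y M = M`. By `Z5_swap` (no assumption on the characteristic)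
`y` preserves `U` and `S` or exchanges them.
Case 1: `y` preserves `U`, `S`; `b = y|U`, `c = y|S`, `f (b u) (c v) = f u v`. For `u ∈ U`: `b u = u` iff `f (b u - u) (c v) = 0` for all
`v ∈ S` iff `f u (v - c v) = 0` for all `v`, i.e. `u` is orthogonal to `range (c - 1)`; so `dim ker (b - 1) = m - rank (c - 1)`,
`rank (b - 1) = rank (c - 1)`, and `rank (yM - 1) = rank (b - 1) + rank (c - 1)` is even.
Case 2: `b = y|U : U → S`, `c = y|S : S → U`. `ker (yM - 1) = {u + v | b u = v, c v = u}` is isomorphic to `ker (c b - 1)` on `U`, so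
`rank (yM - 1) = 2 m - dim ker (c b - 1) = m + rank (c b - 1)`. Let `β u u' = f (b u) u'` on `U`; it is bilinear, and
`β u u' = 0` for all `u` implies `u' = 0` (`b : U → S` is onto). `β u ((c b) u' - u') = f (b u) (c (b u')) - f (b u) u'
= f u (b u') - f (b u) u'`, and for `u' = u` this is `0` (`f` is symmetric). So `rank (c b - 1)` is even by `alt_rank`, and
`m` is even.
-/

namespace Pool.Agent.CTE

open Module Pool.Agent.CTO

variable {K V : Type} [Field K] [Finite K] [AddCommGroup V] [Module K V] [FiniteDimensional K V]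

omit [Finite K] [FiniteDimensional K V] in
theorem Z5_drange (e s : Module.End K V) (y : V ≃ₗ[K] V)
    (yM : LinearMap.range (e + s) ≃ₗ[K] LinearMap.range (e + s))
    (hyM : ∀ v : LinearMap.range (e + s), (yM v : V) = y (v : V)) :
    (LinearMap.range (yM.toLinearMap - LinearMap.id)).map (LinearMap.range (e + s)).subtype
      = LinearMap.range ((y.toLinearMap - LinearMap.id) ∘ₗ (e + s)) := by
  ext x
  constructor
  · rintro ⟨_, ⟨m, rfl⟩, rfl⟩
    obtain ⟨z, hz⟩ := m.2
    refine ⟨z, ?_⟩
    show y ((e + s) z) - (e + s) z = ((yM m - m : LinearMap.range (e + s)) : V)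
    rw [hz, Submodule.coe_sub, hyM]
  · rintro ⟨z, rfl⟩
    refine ⟨yM ⟨(e + s) z, z, rfl⟩ - ⟨(e + s) z, z, rfl⟩, ⟨_, rfl⟩, ?_⟩
    show ((yM ⟨(e + s) z, z, rfl⟩ - ⟨(e + s) z, z, rfl⟩ : LinearMap.range (e + s)) : V) = y ((e + s) z) - (e + s) z
    rw [Submodule.coe_sub, hyM]

omit [Finite K] in
theorem Z5_drank {f : V → V → K} (hf : IsHF (RingHom.id K) 1 f) (e s : Module.End K V)
    (hadj : IsAdj f e s) (y : V ≃ₗ[K] V) (hy : y ∈ Isom f) (hys : ∀ x, y (s x) = s (y x)) :
    finrank K (LinearMap.range ((y.toLinearMap - LinearMap.id) ∘ₗ e))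
      = finrank K (LinearMap.range ((y.toLinearMap - LinearMap.id) ∘ₗ s)) := by
  have hyi : ∀ v w, f (y v) w = f v (y.symm w) := by
    intro v w
    have := hy v (y.symm w)
    rwa [LinearEquiv.apply_symm_apply] at this
  have h1 : IsAdj f ((y.toLinearMap - LinearMap.id) ∘ₗ e)
      (s ∘ₗ (y.symm.toLinearMap - LinearMap.id)) := by
    intro v w
    show f (y (e v) - e v) w = f v (s (y.symm w - w))
    rw [Z5_sub_left hf, hyi, hadj, hadj, map_sub, Z5_sub_right hf]
  have h2 := V2_rank hf h1
  rw [← h2]
  have h3 : s ∘ₗ (y.symm.toLinearMap - LinearMap.id)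
      = (-y.symm.toLinearMap) ∘ₗ ((y.toLinearMap - LinearMap.id) ∘ₗ s) := by
    ext x
    show s (y.symm x - x) = - y.symm (y (s x) - s x)
    have h4 : s (y.symm x) = y.symm (s x) := by
      apply y.injective
      rw [LinearEquiv.apply_symm_apply, hys, LinearEquiv.apply_symm_apply]
    rw [map_sub, map_sub, LinearEquiv.symm_apply_apply, h4]
    abel
  rw [h3]
  have h5 : LinearMap.range ((-y.symm.toLinearMap) ∘ₗ ((y.toLinearMap - LinearMap.id) ∘ₗ s))
      = (LinearMap.range ((y.toLinearMap - LinearMap.id) ∘ₗ s)).map y.symm.toLinearMap := by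
    ext x
    constructor
    · rintro ⟨z, rfl⟩
      refine ⟨y (s (-z)) - s (-z), ⟨-z, rfl⟩, ?_⟩
      show y.symm (y (s (-z)) - s (-z)) = - y.symm (y (s z) - s z)
      rw [← map_neg]
      congr 1
      rw [map_neg, map_neg]
      abel
    · rintro ⟨_, ⟨z, rfl⟩, rfl⟩
      refine ⟨-z, ?_⟩
      show - y.symm (y (s (-z)) - s (-z)) = y.symm (y (s z) - s z)
      rw [← map_neg]
      congr 1
      rw [map_neg, map_neg]
      abel
  rw [h5]
  exact LinearEquiv.finrank_map_eq y.symm _

theorem dick_norm (two : (2 : K) = 0) (f : V → V → K) (hf : IsHF (RingHom.id K) 1 f)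
    (A : Subalgebra K (Module.End K V)) (hA : IsTor f A) (e s : Module.End K V)
    (h : IsoIdem f A e s) (hp : IsPrim A e) (heven : Even (finrank K (LinearMap.range e)))
    (y : V ≃ₗ[K] V) (hy : y ∈ Isom f) (hyA : CarriesTo y A A)
    (yM : LinearMap.range (e + s) ≃ₗ[K] LinearMap.range (e + s))
    (hyM : ∀ v : LinearMap.range (e + s), (yM v : V) = y (v : V)) : DickEven yM := by
  obtain ⟨hadj, hss, hes⟩ := Z5_facts hf A hA e s h
  obtain ⟨-, b, -, -, -⟩ := Z5_basis hf A hA e s h
  have hee : ∀ x, e (e x) = e x := fun x => by rw [← Module.End.mul_apply, h.idem]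
  have hss' : ∀ x, s (s x) = s x := fun x => by rw [← Module.End.mul_apply, hss]
  have hes' : ∀ x, e (s x) = 0 := fun x => by rw [← Module.End.mul_apply, hes]; rfl
  have hse' : ∀ x, s (e x) = 0 := fun x => by rw [← Module.End.mul_apply, h.orth]; rfl
  have hfix : ∀ x : LinearMap.range (e + s), e (x : V) + s (x : V) = x := by
    rintro ⟨_, ⟨z, rfl⟩⟩
    show e (e z + s z) + s (e z + s z) = e z + s z
    rw [map_add, map_add, hee, hes', hse', hss']
    abel
  have hconj : ∀ a c : Module.End K V, Z5_cj y a = c → ∀ x, y (a x) = c (y x) := by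
    intro a c hac x
    rw [← hac, Z5_cj_apply, LinearEquiv.symm_apply_apply]
  unfold DickEven
  rcases Z5_swap hf A hA e s h hp y hyA yM hyM with ⟨h1, h2⟩ | ⟨h1, h2⟩
  · have hye := hconj _ _ h1
    have hys := hconj _ _ h2
    have h3 : finrank K (LinearMap.range (yM.toLinearMap - LinearMap.id))
        = finrank K (LinearMap.range ((y.toLinearMap - LinearMap.id) ∘ₗ (e + s))) := by
      rw [← Z5_drange e s y yM hyM]
      exact (LinearMap.finrank_range_of_inj (f := (LinearMap.range (e + s)).subtype.domRestrict
        (LinearMap.range (yM.toLinearMap - LinearMap.id)))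
        (by
          intro a b hab
          exact Subtype.ext (Subtype.ext hab))).symm.trans (by
            rw [LinearMap.range_domRestrict])
    have h4 : LinearMap.range ((y.toLinearMap - LinearMap.id) ∘ₗ (e + s))
        = LinearMap.range ((y.toLinearMap - LinearMap.id) ∘ₗ e)
          ⊔ LinearMap.range ((y.toLinearMap - LinearMap.id) ∘ₗ s) := by
      apply le_antisymm
      · rintro _ ⟨z, rfl⟩
        refine Submodule.mem_sup.2 ⟨_, ⟨z, rfl⟩, _, ⟨z, rfl⟩, ?_⟩
        show (y (e z) - e z) + (y (s z) - s z) = y (e z + s z) - (e z + s z)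
        rw [map_add]; abel
      · apply sup_le
        · rintro _ ⟨z, rfl⟩
          refine ⟨e z, ?_⟩
          show y (e (e z) + s (e z)) - (e (e z) + s (e z)) = y (e z) - e z
          rw [hee, hse', add_zero]
        · rintro _ ⟨z, rfl⟩
          refine ⟨s z, ?_⟩
          show y (e (s z) + s (s z)) - (e (s z) + s (s z)) = y (s z) - s z
          rw [hes', hss', zero_add]
    have h5 : LinearMap.range ((y.toLinearMap - LinearMap.id) ∘ₗ e)
          ⊓ LinearMap.range ((y.toLinearMap - LinearMap.id) ∘ₗ s) = ⊥ := by
      rw [eq_bot_iff]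
      rintro x ⟨⟨z, hz⟩, ⟨z', hz'⟩⟩
      have h6 : y (e z) - e z = x := hz
      have h7 : y (s z') - s z' = x := hz'
      have h8 : e x = x := by rw [← h6, map_sub, ← hye, hee]
      have h9 : e x = 0 := by rw [← h7, map_sub, ← hye, hes', map_zero, sub_zero]
      rw [Submodule.mem_bot, ← h8, h9]
    have h6 := Submodule.finrank_sup_add_finrank_inf_eq
      (LinearMap.range ((y.toLinearMap - LinearMap.id) ∘ₗ e))
      (LinearMap.range ((y.toLinearMap - LinearMap.id) ∘ₗ s))
    rw [h5, finrank_bot, add_zero, Z5_drank hf e s h.adj y hy hys] at h6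
    rw [h3, h4, h6]
    exact ⟨_, rfl⟩
  · have hye := hconj _ _ h1
    have hys := hconj _ _ h2
    have hU : ∀ x : LinearMap.range e, e (x : V) = x := by
      rintro ⟨x, z, rfl⟩; exact hee z
    -- the map `T = y² - 1` on `range e`
    let T : LinearMap.range e →ₗ[K] LinearMap.range e :=
      { toFun := fun u => ⟨y (y (u : V)) - (u : V), ⟨y (y (u : V)) - (u : V), by
          rw [map_sub, ← hys, ← hye, hU]⟩⟩
        map_add' := fun a b => by
          apply Subtype.ext
          simp only [Submodule.coe_add, map_add]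
          abel
        map_smul' := fun c a => by
          apply Subtype.ext
          simp only [Submodule.coe_smul, map_smul, RingHom.id_apply, smul_sub] }
    have hT : ∀ u, ((T u : LinearMap.range e) : V) = y (y (u : V)) - (u : V) := fun _ => rfl
    let β : LinearMap.range e →ₗ[K] LinearMap.range e →ₗ[K] K :=
      LinearMap.mk₂ K (fun u u' => f (y (u : V)) (u' : V))
        (fun a b c => by rw [Submodule.coe_add, map_add, hf.add_left])
        (fun c a b => by rw [Submodule.coe_smul, map_smul, hf.smul_left, smul_eq_mul])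
        (fun a b c => by rw [Submodule.coe_add, Z5_add_right hf])
        (fun c a b => by rw [Submodule.coe_smul, Z5_smul_right hf, smul_eq_mul])
    have hβ : ∀ u u', β u u' = f (y (u : V)) (u' : V) := fun _ _ => rfl
    have hev : Even (finrank K (LinearMap.range T)) := by
      apply alt_rank K (LinearMap.range e) two β
      · intro v hv
        apply Subtype.ext
        apply Z5_ext hf
        intro x
        rw [Submodule.coe_zero, Z5_zero_left hf]
        have h3 : f (v : V) x = f (v : V) (s x) := by
          conv_lhs => rw [← hU v]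
          rw [h.adj]
        rw [h3]
        have h4 : s x = y (e (y.symm x)) := by rw [hye, LinearEquiv.apply_symm_apply]
        have h5 := hv ⟨e (y.symm x), _, rfl⟩
        rw [hβ] at h5
        rw [h4, Z5_symm hf, h5]
      · intro u
        rw [hβ, hT, Z5_sub_right hf, hy, Z5_symm hf, sub_self]
    let ψ : LinearMap.ker (yM.toLinearMap - LinearMap.id) →ₗ[K] LinearMap.range e :=
      (e.rangeRestrict ∘ₗ (LinearMap.range (e + s)).subtype) ∘ₗ
        (LinearMap.ker (yM.toLinearMap - LinearMap.id)).subtype
    have hψ : ∀ m, ((ψ m : LinearMap.range e) : V) = e ((m : LinearMap.range (e + s)) : V) :=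
      fun _ => rfl
    have hker : ∀ m : LinearMap.range (e + s), m ∈ LinearMap.ker (yM.toLinearMap - LinearMap.id)
        ↔ y (m : V) = m := by
      intro m
      rw [LinearMap.mem_ker]
      constructor
      · intro h3
        have h4 := congrArg (fun t : LinearMap.range (e + s) => (t : V)) h3
        have h5 : ((yM m - m : LinearMap.range (e + s)) : V) = 0 := h4
        rw [Submodule.coe_sub, hyM] at h5
        exact sub_eq_zero.1 h5
      · intro h3
        apply Subtype.ext
        show ((yM m - m : LinearMap.range (e + s)) : V) = 0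
        rw [Submodule.coe_sub, hyM, h3, sub_self]
    have hinj : Function.Injective ψ := by
      rw [injective_iff_map_eq_zero]
      intro m hm
      have h3 : e ((m : LinearMap.range (e + s)) : V) = 0 := by rw [← hψ, hm]; rfl
      have h4 : y ((m : LinearMap.range (e + s)) : V) = ((m : LinearMap.range (e + s)) : V) :=
        (hker _).1 m.2
      have h5 : s ((m : LinearMap.range (e + s)) : V) = 0 := by
        rw [← h4, ← hye, h3, map_zero]
      apply Subtype.ext
      apply Subtype.ext
      rw [← hfix, h3, h5, add_zero]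
      rfl
    have hrg : LinearMap.range ψ = LinearMap.ker T := by
      ext u
      constructor
      · rintro ⟨m, rfl⟩
        have h4 : y ((m : LinearMap.range (e + s)) : V) = ((m : LinearMap.range (e + s)) : V) :=
          (hker _).1 m.2
        rw [LinearMap.mem_ker]
        apply Subtype.ext
        rw [hT, hψ, hye, hys, h4, h4, sub_self]
        rfl
      · intro hu
        have h3 : y (y (u : V)) = u := by
          rw [LinearMap.mem_ker] at hu
          have h4 := congrArg (fun t : LinearMap.range e => (t : V)) hu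
          exact sub_eq_zero.1 h4
        have h5 : y (u : V) = s (y (u : V)) := by
          conv_lhs => rw [← hU u]
          rw [hye]
        have hm : (u : V) + y (u : V) = (e + s) ((u : V) + y (u : V)) := by
          have h6 : e (y (u : V)) = 0 := by rw [h5, hes']
          have h7 : s (u : V) = 0 := by rw [← hU u, hse']
          show _ = e _ + s _
          rw [map_add, map_add, hU, h7, h6, ← h5, add_zero, zero_add]
        let m : LinearMap.range (e + s) := ⟨(u : V) + y (u : V), ⟨(u : V) + y (u : V), hm.symm⟩⟩
        have hmk : m ∈ LinearMap.ker (yM.toLinearMap - LinearMap.id) := by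
          rw [hker]
          show y ((u : V) + y (u : V)) = (u : V) + y (u : V)
          rw [map_add, h3, add_comm]
        refine ⟨⟨m, hmk⟩, ?_⟩
        apply Subtype.ext
        rw [hψ]
        show e ((u : V) + y (u : V)) = u
        rw [map_add, hU, h5, hes', add_zero]
    have hk1 : finrank K (LinearMap.ker (yM.toLinearMap - LinearMap.id))
        = finrank K (LinearMap.ker T) := by
      rw [← hrg, LinearMap.finrank_range_of_inj hinj]
    have hk2 := LinearMap.finrank_range_add_finrank_ker T
    have hk3 := LinearMap.finrank_range_add_finrank_ker (yM.toLinearMap - LinearMap.id)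
    have hk4 : finrank K (LinearMap.range (e + s))
        = finrank K (LinearMap.range e) + finrank K (LinearMap.range e) := by
      rw [Module.finrank_eq_card_basis b, Fintype.card_sum, Fintype.card_fin]
    obtain ⟨k, hk⟩ := heven
    obtain ⟨l, hl⟩ := hev
    rw [Nat.even_iff]
    omega

end Pool.Agent.CTE
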