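import Pool.Agent.CTE.T2
import Pool.Agent.CTE.Z5
import Pool.Agent.CTE.G5
import Pool.Agent.CTE.B1
import Pool.Agent.CTO.V2

/-!
# CTE.V2: the irreducible case for a single positive cycle of length `m ≡ 2 mod 4`, characteristic two

Compare `irrSingle` in `CTO/V2.lean` (read its header). `IsoIdem f A e s`, `e` primitive, `e + s = 1`, `m = rank e`, `m % 4 = 2`, `Q` is the
form of `A` and of `A'`, `g ∈ OQ f Q` is even and carries `A` to `A'`, `H = sq T ⊔ sq T'` irreducible. Apply `irrF2' N` (and `q0 ≥ 5`);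
`SIso f A f A'` by `a ↦ g a g⁻¹`. Let `E`, `fE`, `gE`, `QE` be as in the hypothesis of `irrF2'`; one has to show
`OddPos fE (liftAlg A)` or `DickEven gE`. Let `r = [E : K]`, `mE = m / r` the `E`-dimension of `range e` (`e` is `E`-linear, `E ⊆ A`).
(a) `mE` odd: `OddPos` by `V2_oddpos` of `CTO/V2.lean` (no assumption on the characteristic).
(b) `mE` even: then `r` is odd, as `r * mE = m ≡ 2 mod 4`. `y0 = resH gE` is an isometry of `f` (`lift_isom` or `IsExt.tr`) carrying `A` to
`A'` (the elements of `liftAlg A` are those of `A`), so `y0 ∈ OQ f Q` (`adQ_mem_OQ`), and `y = g⁻¹ y0 ∈ OQ f Q` carries `A` to `A`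
(`carries_inv`, `carries_mul` of `CTO/AI.lean`). By `dick_norm` (`e + s = 1`, so `range (e + s) = ⊤`; `m` even) `y` is even
(transport the rank from `⊤` to `V`). By `dick_mul` `y0 = g y` is even: `rank_K (y0 - 1) = r * rank_E (gE - 1)` is even
(`V2_finrank_range`-like), and `r` is odd, so `rank_E (gE - 1)` is even.
-/

namespace Pool.Agent.CTE

open Module Pool.Agent.CTO

/-- The Dickson invariant of an automorphism of `⊤`. -/
theorem V2_dickTop {K V : Type} [Field K] [AddCommGroup V] [Module K V]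
    (W : Submodule K V) (hW : W = ⊤) (y : V ≃ₗ[K] V) :
    ∃ yM : W ≃ₗ[K] W, (∀ v : W, (yM v : V) = y (v : V)) ∧ (DickEven yM ↔ DickEven y) := by
  subst hW
  let τ : (⊤ : Submodule K V) ≃ₗ[K] V := Submodule.topEquiv
  refine ⟨(τ.trans y).trans τ.symm, fun v => rfl, ?_⟩
  have h1 : finrank K (LinearMap.range
      (((τ.trans y).trans τ.symm).toLinearMap - LinearMap.id)) =
      finrank K (LinearMap.range (y.toLinearMap - LinearMap.id)) := by
    have h2 : (((τ.trans y).trans τ.symm).toLinearMap - LinearMap.id :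
        (⊤ : Submodule K V) →ₗ[K] (⊤ : Submodule K V)) =
        τ.symm.toLinearMap ∘ₗ ((y.toLinearMap - LinearMap.id) ∘ₗ τ.toLinearMap) := by
      refine LinearMap.ext fun v => ?_
      simp [LinearMap.sub_apply]
    rw [h2, LinearMap.range_comp, LinearMap.range_comp_of_range_eq_top _ τ.range]
    exact LinearEquiv.finrank_eq
      (Submodule.equivMapOfInjective τ.symm.toLinearMap τ.symm.injective _).symm
  unfold DickEven
  rw [h1]

theorem irrSingle2 (N : ℕ) : ∃ q0 : ℕ, ∀ (K V : Type) [Field K] [Finite K] [AddCommGroup V]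
    [Module K V] [FiniteDimensional K V] (f : V → V → K)
    (A A' : Subalgebra K (Module.End K V)) (e s : Module.End K V) (g : V ≃ₗ[K] V) (Q : V → K),
    finrank K V = N → q0 ≤ Nat.card K → (2 : K) = 0 → IsHF (RingHom.id K) 1 f → Alt f → IsTor2 f A →
    IsTor2 f A' → IsoIdem f A e s → IsPrim A e → e + s = 1 →
    finrank K (LinearMap.range e) % 4 = 2 →
    AdQ f A Q → AdQ f A' Q → CarriesTo g A A' → g ∈ OQ f Q → DickEven g →
    (∀ W : Submodule K V, (∀ h ∈ sq (tor (RingHom.id K) f A) ⊔ sq (tor (RingHom.id K) f A'),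
      ∀ v ∈ W, h v ∈ W) → W = ⊥ ∨ W = ⊤) →
    ∃ h ∈ sq (tor (RingHom.id K) f A) ⊔ sq (tor (RingHom.id K) f A'), CarriesTo h A A' := by
  classical
  obtain ⟨q1, hq1⟩ := irrF2' N
  refine ⟨max q1 5, ?_⟩
  intro K V _ _ _ _ _ f A A' e s g₀ Q hN hq two hf ha hA hA' hI hp hes hm4 hQ hQ' hgc₀ hgQ hgE irr
  have hqa : q1 ≤ Nat.card K := (le_max_left _ _).trans hq
  have hqb : 4 < Nat.card K := lt_of_lt_of_le (by norm_num) ((le_max_right q1 5).trans hq)
  have hgI : g₀ ∈ Isom f := hgQ.1
  obtain ⟨hS1, hginv⟩ := V2_siso hA.toIsTorGL hA'.toIsTorGL (μ := 1) hgc₀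
    (fun v w => by rw [one_mul]; exact hgI v w)
  have hV : Nontrivial V := by
    by_contra hcon
    rw [not_nontrivial_iff_subsingleton] at hcon
    have h1 : finrank K (LinearMap.range e) = 0 := Module.finrank_zero_of_subsingleton
    omega
  have hQF : IsQF f Q := adQ_qf two f hf ha A Q hQ
  refine hq1 K V f A A' hN hqa two hf ha hA hA' hS1 ?_ irr
  intro E _ _ _ _ _ _ fE hE hE' gE QE hx hfE haE hgEI hgEc hQE hQE'
  obtain ⟨eE, heE⟩ := V2_lift A hA.comm hE e hI.he
  rcases Nat.even_or_odd (finrank E (LinearMap.range eE)) with hev | hod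
  · right
    have hKEf : Module.Finite K E := Module.Finite.of_finite
    have hrk := V2_finrank_range (K := K) eE
    rw [heE] at hrk
    -- `[E : K]` is odd
    have hrodd : Odd (finrank K E) := by
      by_contra hcon
      rw [Nat.not_odd_iff_even] at hcon
      obtain ⟨c, hc⟩ := hcon
      obtain ⟨c', hc'⟩ := hev
      have h4 : finrank K (LinearMap.range e) = 4 * (c * c') := by
        rw [hrk, hc, hc']
        ring
      omega
    have hmev : Even (finrank K (LinearMap.range e)) := by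
      rw [hrk]
      exact hev.mul_left _
    have hgK : (resH gE : V ≃ₗ[K] V) ∈ Isom f := by
      rw [lift_isom 1 f (RingHom.id E) fE hx gE]
      exact hgEI
    have hgKc : CarriesTo (resH gE : V ≃ₗ[K] V) A A' :=
      carries_of_lift A A' hA.toIsTorGL hE hE' gE hgEc
    have hgKQ : (resH gE : V ≃ₗ[K] V) ∈ OQ f Q :=
      adQ_mem_OQ two f hf ha A A' hA' Q hQ hQ' _ hgK hgKc
    have hyQ : g₀⁻¹ * resH gE ∈ OQ f Q := mul_mem (inv_mem hgQ) hgKQ
    have hyc : CarriesTo (g₀⁻¹ * resH gE) A A := carries_mul hgKc hginv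
    obtain ⟨yM, hyM, hyMd⟩ := V2_dickTop (LinearMap.range (e + s))
      (by rw [hes, Module.End.one_eq_id, LinearMap.range_id]) (g₀⁻¹ * resH gE)
    have h9 := dick_norm two f hf A hA.toIsTor e s hI hp hmev (g₀⁻¹ * resH gE) hyQ.1 hyc yM hyM
    rw [hyMd] at h9
    have h10 := (dick_mul two hqb f hf ha Q hQF g₀ (g₀⁻¹ * resH gE) hgQ hyQ).2
      ⟨fun _ => h9, fun _ => hgE⟩
    rw [mul_inv_cancel_left] at h10
    have h11 : finrank K (LinearMap.range ((resH gE : V ≃ₗ[K] V).toLinearMap - LinearMap.id)) =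
        finrank K E * finrank E (LinearMap.range (gE.toLinearMap - LinearMap.id)) := by
      rw [← V2_finrank_range (K := K) (gE.toLinearMap - LinearMap.id)]
      rfl
    unfold DickEven at h10 ⊢
    rw [h11, Nat.even_mul] at h10
    rcases h10 with h12 | h12
    · exact absurd h12 (Nat.not_even_iff_odd.2 hrodd)
    · exact h12
  · left
    exact V2_oddpos f hf _ fE hx A hA.toIsTor hE e s hI hp hes eE heE hod

end Pool.Agent.CTE
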