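import Pool.Agent.CTE.T6
import Pool.Agent.CTO.Pron
import Pool.Agent.CTO.Z1

/-!
# CTE.Z1: the positive direction, characteristic two

Compare `pron_pos` in `CTO/Z1.lean` (copy its proof; `Z1_conjSub`, `Z1_carries`, `Z1_adj`, `Z1_sq_le` can be used).
By `isPronormal_subgroupOf_iff` let `g ∈ Γ`, a similitude of `f` and `Q` with multiplier `μ`, `A' = pull g.symm A`.
`IsTor2 f A'`: `pull_isTor2` with the form `μ f` on the source (`IsTor2 (μ f) A` because `IsAdj (μ f) = IsAdj f`,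
`Z1_adj`). `SIso f A f A'` as there. `Mode f A' Q`: if `Q = 0` trivial; if `AdQ f A Q`, then `adQ_carries` (`Z1_carries`)
gives `AdQ f A' (fun v => μ * Q (g⁻¹ v))`, and `μ * Q (g⁻¹ v) = Q (g (g⁻¹ v)) = Q v`. Then `coreF2` gives `x`, and the rest
is the same (`mem_tor` for `σ = id`: the determinant condition is transported as there).
-/

namespace Pool.Agent.CTE

open Module Pool.Agent.CTO

theorem pron_pos2 (N : ℕ) : ∃ q0 : ℕ, ∀ (K V : Type) [Field K] [Finite K] [AddCommGroup V]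
    [Module K V] [FiniteDimensional K V] (f : V → V → K) (A : Subalgebra K (Module.End K V))
    (Q : V → K) (Γ : Subgroup (V ≃ₗ[K] V)), finrank K V = N → q0 ≤ Nat.card K → (2 : K) = 0 →
    IsHF (RingHom.id K) 1 f → Alt f → IsTor2 f A → Mode f A Q → CritQ f Q A → OddPos f A →
    Γ ≤ SimQ f Q → sq (tor (RingHom.id K) f A) ≤ Γ → IsPronormal ((torGL A).subgroupOf Γ) := by
  obtain ⟨q0, hcore⟩ := coreF2 N
  refine ⟨q0, ?_⟩
  intro K V _ _ _ _ _ f A Q Γ hN hq two hf ha hA hm hc ho hΓ hsq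
  rw [isPronormal_subgroupOf_iff]
  intro g hg
  obtain ⟨μ, hμ, hμQ⟩ := hΓ hg
  set A' := pull g.symm A with hA'
  have hTA : IsTor2 (fun v w => (μ : K) * f v w) A := by
    refine ⟨⟨hA.toIsTorGL, ?_, ?_⟩, ?_⟩
    · intro a ha
      obtain ⟨b, hb, hab⟩ := hA.star a ha
      exact ⟨b, hb, (Z1_adj f μ a b).2 hab⟩
    · obtain ⟨d, hd, h1, h2⟩ := hA.skew
      exact ⟨d, hd, (Z1_adj f μ d (-d)).2 h1, h2⟩
    · obtain ⟨d, hd, d', hd', h1, h2⟩ := hA.tr
      exact ⟨d, hd, d', hd', (Z1_adj f μ d d').2 h1, h2⟩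
  have hψ : ∀ v w, (fun v w => (μ : K) * f v w) (g.symm v) (g.symm w) = f v w := by
    intro v w
    change (μ : K) * f (g.symm v) (g.symm w) = f v w
    rw [← hμ, LinearEquiv.apply_symm_apply, LinearEquiv.apply_symm_apply]
  have hTA' : IsTor2 f A' := pull_isTor2 f _ g.symm hψ A hTA
  have hS : SIso f A f A' := by
    obtain ⟨φ, hφ⟩ := (pull_siso f (fun v w => (μ : K) * f v w) g.symm hψ A).2
    exact ⟨φ, fun a b hab => hφ a b ((Z1_adj f μ _ _).2 hab)⟩
  have hm' : Mode f A' Q := by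
    rcases hm with h0 | h0
    · exact Or.inl h0
    · right
      have h1 := adQ_carries two f hf A A' Q h0 g μ μ.ne_zero hμ (Z1_carries g A)
      have h2 : (fun v => (μ : K) * Q (g⁻¹ v)) = Q := by
        funext v
        rw [← hμQ]
        congr 1
        exact LinearEquiv.apply_symm_apply g v
      rwa [h2] at h1
  obtain ⟨x, hx, hxc⟩ := hcore N le_rfl K V f A A' Q hN hq two hf ha hA hTA' hS hm hm' hc ho
  have hle1 : sq (tor (RingHom.id K) f A) ≤ Γ ⊓ torGL A :=
    le_inf hsq (Z1_sq_le _ _ fun t ht => ht.1)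
  have hle2 : sq (tor (RingHom.id K) f A') ≤ conjSub g (Γ ⊓ torGL A) := by
    rw [Pool.Agent.CTO.sq, Subgroup.closure_le]
    rintro y ⟨t, ht, rfl⟩
    have ht' := mem_tor.1 ht
    have hs : g⁻¹ * t * g ∈ tor (RingHom.id K) f A := by
      rw [mem_tor]
      refine ⟨?_, ?_, ?_⟩
      · apply mem_torGL_of
        have h1 := ht'.1.1
        rw [hA', mem_pull] at h1
        have h2 : (g⁻¹ * t * g).toLinearMap =
            g.symm.toLinearMap ∘ₗ t.toLinearMap ∘ₗ g.symm.symm.toLinearMap := by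
          ext v
          rfl
        rw [h2]
        exact h1
      · rw [mem_Isom]
        intro v w
        apply mul_left_cancel₀ μ.ne_zero
        rw [← hμ]
        have h3 : ∀ u, g ((g⁻¹ * t * g) u) = t (g u) := by
          intro u
          change g (g.symm (t (g u))) = t (g u)
          exact LinearEquiv.apply_symm_apply g _
        rw [h3, h3, ht'.2.1 (g v) (g w), hμ]
      · intro hid
        rw [map_mul, map_mul, map_inv, ht'.2.2 hid]
        group
    change t * t ∈ conjSub g (Γ ⊓ torGL A)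
    rw [mem_conjSub]
    have h4 : g⁻¹ * (t * t) * g = (g⁻¹ * t * g) * (g⁻¹ * t * g) := by group
    rw [h4]
    exact hle1 (Subgroup.subset_closure ⟨_, hs, rfl⟩)
  have hxm : x ∈ (Γ ⊓ torGL A) ⊔ conjSub g (Γ ⊓ torGL A) := (sup_le_sup hle1 hle2) hx
  have hxΓ : x ∈ Γ := by
    have h1 : (Γ ⊓ torGL A) ⊔ conjSub g (Γ ⊓ torGL A) ≤ Γ := by
      refine sup_le inf_le_left ?_
      rw [Z1_conjSub Γ (torGL A) g hg]
      exact inf_le_left
    exact h1 hxm
  refine ⟨x, hxm, ?_⟩
  rw [Z1_conjSub Γ (torGL A) x hxΓ, Z1_conjSub Γ (torGL A) g hg]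
  have e1 : conjSub x (torGL A) = torGL A' :=
    torGL_conj A A' hA.toIsTorGL hTA'.toIsTorGL x hxc
  have e2 : conjSub g (torGL A) = torGL A' :=
    torGL_conj A A' hA.toIsTorGL hTA'.toIsTorGL g (Z1_carries g A)
  rw [e1, e2]

end Pool.Agent.CTE
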