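import Pool.Agent.CTE.T6
import Pool.Agent.CTE.V2
import Pool.Agent.CTE.Z1
import Pool.Agent.CTO.V3

/-!
# CTE.V3: a single positive cycle of length `m ≡ 2 mod 4` is pronormal, characteristic two

Compare `V3_step`, `pron_single` in `CTO/V3.lean` (copy their proofs; `V3_selfadj`, `V3_siso_refl`, `V3_rank_le`, `V3_stab`, `V3_mono`,
`V3_GL_mono` etc. can be used).
* `step2`: the reducible case: `W ≠ ⊥, ⊤` is stable under `A`, `A'`, so it is the range of `e` or `s`, totally isotropic, and `redI2`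
  applies (`Mode` by `AdQ`; `CritQ f Q A`: the selfadjoint idempotents of `A` are `0` and `1` (`V3_selfadj`), an isometry
  `range 0 ≃ range 1` is impossible for dimension reasons; `OddPos` for `p = 0` is void).
* `pron_single2`: let `g ∈ Γ`, `g v = c • h v` with `h ∈ OQ f Q`, `DickEven h`. `A' = pull g.symm A = g A g⁻¹ = h A h⁻¹`. As in `pron_single`
  it is enough to find `x ∈ sq (tor f A) ⊔ sq (tor f A')` carrying `A` to `A'`: `h` is an isometry carrying `A` to `A'`, and `AdQ f A' Q`
  by `adQ_carries` (`μ = 1`). Irreducible: `irrSingle2` with `h`; reducible: `step2`.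
-/

namespace Pool.Agent.CTE

open Module Pool.Agent.CTO

theorem step2 (q0 N : ℕ) (IH : ∀ m < N, CoreF2At q0 m) (hGL : ∀ m ≤ N, CoreGLAt q0 m)
    (K V : Type) [Field K] [Finite K] [AddCommGroup V] [Module K V] [FiniteDimensional K V]
    (f : V → V → K) (A A' : Subalgebra K (Module.End K V)) (Q : V → K) (e s : Module.End K V)
    (hN : finrank K V = N) (hq : q0 ≤ Nat.card K) (two : (2 : K) = 0)
    (hf : IsHF (RingHom.id K) 1 f) (ha : Alt f) (hA : IsTor2 f A) (hA' : IsTor2 f A')
    (hg : A ≤ Algebra.adjoin K (EndSet (sq (tor (RingHom.id K) f A))))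
    (hg' : A' ≤ Algebra.adjoin K (EndSet (sq (tor (RingHom.id K) f A'))))
    (hQ : AdQ f A Q) (hQ' : AdQ f A' Q) (h : IsoIdem f A e s)
    (hp : IsPrim A e) (hes : e + s = 1) (hS : SIso f A f A')
    (W : Submodule K V) (hW : ∀ h ∈ sq (tor (RingHom.id K) f A) ⊔ sq (tor (RingHom.id K) f A'),
      ∀ v ∈ W, h v ∈ W) (hW0 : W ≠ ⊥) (hW1 : W ≠ ⊤) :
    ∃ h ∈ sq (tor (RingHom.id K) f A) ⊔ sq (tor (RingHom.id K) f A'), CarriesTo h A A' := by
  have hc := hA.comm
  have sA : ∀ a ∈ A, ∀ v ∈ W, a v ∈ W := fun a ha =>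
    V3_stab _ W hW a (V3_mono _ _ le_sup_left (hg ha))
  have sA' : ∀ a ∈ A', ∀ v ∈ W, a v ∈ W := fun a ha =>
    V3_stab _ W hW a (V3_mono _ _ le_sup_right (hg' ha))
  have hself := V3_selfadj f hf A hA.toIsTor e s h hp hes
  have hCrit : CritQ f Q A := by
    intro p hpA p' hpA' hpp hps hpp' hps' hI
    have hnt : Nontrivial V := by
      by_contra hn
      rw [not_nontrivial_iff_subsingleton] at hn
      exact hp.2.2.1 (by ext v; exact Subsingleton.elim _ _)
    have key : (IsoSpQ f Q (LinearMap.range (0 : Module.End K V))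
          (LinearMap.range (1 : Module.End K V)) → False) ∧
        (IsoSpQ f Q (LinearMap.range (1 : Module.End K V))
          (LinearMap.range (0 : Module.End K V)) → False) := by
      have r0 : finrank K (LinearMap.range (0 : Module.End K V)) = 0 := by
        rw [LinearMap.range_zero]
        exact finrank_bot K V
      have r1 : finrank K (LinearMap.range (1 : Module.End K V)) = finrank K V := by
        have : LinearMap.range (1 : Module.End K V) = ⊤ := LinearMap.range_id
        rw [this]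
        exact finrank_top K V
      have hpos : 0 < finrank K V := Module.finrank_pos
      refine ⟨?_, ?_⟩
      · rintro ⟨φ, -⟩
        have := φ.finrank_eq
        omega
      · rintro ⟨φ, -⟩
        have := φ.finrank_eq
        omega
    rcases hself p hpA hpp hps with h0 | h0 <;>
    rcases hself p' hpA' hpp' hps' with h1 | h1
    · exact V3_siso_refl f p p' A (h0.trans h1.symm)
    · subst h0
      subst h1
      exact absurd hI key.1
    · subst h0
      subst h1
      exact absurd hI key.2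
    · exact V3_siso_refl f p p' A (h0.trans h1.symm)
  have hOdd : ∀ p ∈ A, p * p = p → IsAdj f p p → p ≠ 1 →
      OddPos (resF f (LinearMap.range p)) (restr A (LinearMap.range p)) := by
    intro p hpA hpp hps hp1
    have h0 : p = 0 := (hself p hpA hpp hps).resolve_right hp1
    subst h0
    intro a _ b _ _ _ _ hne _
    exfalso
    apply hne
    ext v
    obtain ⟨u, hu⟩ : (a v : V) ∈ LinearMap.range (0 : Module.End K V) := (a v).2
    rw [← hu]
    rfl
  obtain ⟨e0, he0, he0i, he0r⟩ := stable_eq A hA.toIsTorGL W sA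
  have h1 : (e0 * e) * (e0 * e) = e0 * e := by
    calc (e0 * e) * (e0 * e) = e0 * (e * e0) * e := by noncomm_ring
      _ = e0 * (e0 * e) * e := by rw [hc e h.he e0 he0]
      _ = (e0 * e0) * (e * e) := by noncomm_ring
      _ = e0 * e := by rw [he0i, h.idem]
  have h2 : (e0 * e) * e = e0 * e := by rw [mul_assoc, h.idem]
  rcases hp.2.2.2 (e0 * e) (A.mul_mem he0 h.he) h1 h2 with h3 | h3
  · have hWs : ∀ v ∈ W, s v = v := by
      intro v hv
      rw [← he0r] at hv
      have e1 := V3_idem he0i hv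
      have e2 : e (e0 v) = 0 := by
        have := LinearMap.congr_fun ((hc e h.he e0 he0).trans h3) v
        exact this
      have e3 := LinearMap.congr_fun hes v
      rw [LinearMap.add_apply, Module.End.one_apply] at e3
      rw [e1] at e2
      rw [e2, zero_add] at e3
      exact e3
    have hadj' : ∀ v w, f (s v) w = f v (e w) := by
      intro v w
      rw [V3_symm hf w (s v), ← h.adj w v, V3_symm hf v (e w)]
    refine redI2 N q0 IH hGL K V f A A' Q hN hq two hf ha hA hA' hg hS (Or.inr hQ) (Or.inr hQ')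
      hCrit hOdd W hW0 ?_ sA sA'
    intro u hu v hv
    rw [← hWs u hu, hadj' u v]
    have e3 := LinearMap.congr_fun hes v
    rw [LinearMap.add_apply, Module.End.one_apply, hWs v hv] at e3
    have e4 : e v = 0 := by simpa using e3
    rw [e4, V3_symm hf 0 u, V3_zero_left hf]
  · have hperp : ∀ B : Subalgebra K (Module.End K V), IsTor f B →
        (∀ a ∈ B, ∀ v ∈ W, a v ∈ W) →
        ∀ a ∈ B, ∀ v ∈ perp (RingHom.id K) 1 f hf W, a v ∈ perp (RingHom.id K) 1 f hf W := by
      intro B hB sB a ha v hv u hu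
      obtain ⟨b, hb, hab⟩ := hB.star a ha
      rw [hab v u]
      exact hv (b u) (sB b hb u hu)
    have heW : ∀ v, e v ∈ W := by
      intro v
      rw [← he0r]
      exact ⟨e v, LinearMap.congr_fun h3 v⟩
    have hpe : ∀ v ∈ perp (RingHom.id K) 1 f hf W, e v = v := by
      intro v hv
      have hs0 : s v = 0 := by
        apply hf.nondeg
        intro w
        rw [V3_symm hf w (s v), ← h.adj w v, V3_symm hf v (e w)]
        exact hv (e w) (heW w)
      have e3 := LinearMap.congr_fun hes v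
      rw [LinearMap.add_apply, Module.End.one_apply, hs0, add_zero] at e3
      exact e3
    refine redI2 N q0 IH hGL K V f A A' Q hN hq two hf ha hA hA' hg hS (Or.inr hQ) (Or.inr hQ')
      hCrit hOdd (perp (RingHom.id K) 1 f hf W) ?_ ?_ (hperp A hA.toIsTor sA)
      (hperp A' hA'.toIsTor sA')
    · intro hbot
      apply hW1
      obtain ⟨b, hb, hab⟩ := hA.star e0 he0
      have hb1 : ∀ v, v - b v = 0 := by
        intro v
        have hm : v - b v ∈ perp (RingHom.id K) 1 f hf W := by
          intro u hu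
          rw [← he0r] at hu
          rw [V3_sub_left hf, V3_symm hf u (b v), ← hab u v, V3_idem he0i hu, V3_symm hf v u,
            sub_self]
        rw [hbot, Submodule.mem_bot] at hm
        exact hm
      have he1 : e0 = 1 := by
        have h4 : b - 1 = 0 := by
          ext v
          have := hb1 v
          rw [LinearMap.sub_apply, Module.End.one_apply, LinearMap.zero_apply]
          rw [← neg_eq_zero, neg_sub]
          exact this
        have h5 : e0 - 1 = 0 := by
          refine V3_adj_zero hf (b - 1) (e0 - 1) ?_ h4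
          intro v w
          rw [LinearMap.sub_apply, LinearMap.sub_apply, V3_sub_left hf, V3_sub_right hf,
            V3_symm hf w (b v), ← hab w v, V3_symm hf v (e0 w), Module.End.one_apply,
            Module.End.one_apply]
        exact sub_eq_zero.1 h5
      rw [← he0r, he1]
      exact LinearMap.range_id
    · intro u hu v hv
      rw [← hpe u hu, h.adj u v]
      have e3 := LinearMap.congr_fun hes v
      rw [LinearMap.add_apply, Module.End.one_apply, hpe v hv] at e3
      have e4 : s v = 0 := by simpa using e3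
      rw [e4, V3_symm hf 0 u, V3_zero_left hf]

theorem V3_F2_mono {q q' m : ℕ} (h : q ≤ q') (hF : CoreF2At q m) : CoreF2At q' m := by
  intro K V _ _ _ _ _ f A A' Q h1 h2
  exact hF K V f A A' Q h1 (h.trans h2)

theorem pron_single2 (N : ℕ) : ∃ q0 : ℕ, ∀ (K V : Type) [Field K] [Finite K] [AddCommGroup V]
    [Module K V] [FiniteDimensional K V] (f : V → V → K) (A : Subalgebra K (Module.End K V))
    (e s : Module.End K V) (Q : V → K) (Γ : Subgroup (V ≃ₗ[K] V)),
    finrank K V = N → q0 ≤ Nat.card K → (2 : K) = 0 →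
    IsHF (RingHom.id K) 1 f → Alt f → IsTor2 f A → AdQ f A Q → IsoIdem f A e s → IsPrim A e →
    e + s = 1 → finrank K (LinearMap.range e) % 4 = 2 →
    (∀ g ∈ Γ, ∃ (c : Kˣ) (h : V ≃ₗ[K] V), h ∈ OQ f Q ∧ DickEven h ∧ ∀ v, g v = (c : K) • h v) →
    sq (tor (RingHom.id K) f A) ≤ Γ → IsPronormal ((torGL A).subgroupOf Γ) := by
  obtain ⟨q1, hcoreF⟩ := coreF2 N
  choose qg hqg using coreGL
  obtain ⟨q3, h3⟩ := gen_tor2 N
  obtain ⟨q4, h4⟩ := irrSingle2 N
  set q2 : ℕ := (Finset.range (N + 1)).sup qg with hq2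
  have h2 : ∀ m ≤ N, CoreGLAt q2 m := fun m hm =>
    V3_GL_mono (Finset.le_sup (f := qg) (Finset.mem_range.2 (Nat.lt_succ_of_le hm))) (hqg m)
  set q0 : ℕ := max (max q1 q2) (max q3 q4) with hq0
  have e1 : q1 ≤ q0 := (le_max_left _ _).trans (le_max_left _ _)
  have e2 : q2 ≤ q0 := (le_max_right _ _).trans (le_max_left _ _)
  have e3 : q3 ≤ q0 := (le_max_left _ _).trans (le_max_right _ _)
  have e4 : q4 ≤ q0 := (le_max_right _ _).trans (le_max_right _ _)
  refine ⟨q0, ?_⟩
  intro K V _ _ _ _ _ f A e s Q Γ hN hq two hf ha hA hQ hes hp hsum hmod hΓ hsq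
  rw [isPronormal_subgroupOf_iff]
  intro g hg
  obtain ⟨c, h, hh, hdick, hgv⟩ := hΓ g hg
  have hhI : ∀ v w, f (h v) (h w) = f v w := hh.1
  have hginv : ∀ v, g⁻¹ ((c : K) • v) = h⁻¹ v := by
    intro v
    have h5 : h (h⁻¹ v) = v := LinearEquiv.apply_symm_apply h v
    have h6 : g⁻¹ (g (h⁻¹ v)) = h⁻¹ v := LinearEquiv.symm_apply_apply g _
    rw [hgv, h5] at h6
    exact h6
  have hconj : ∀ (a : Module.End K V) (v : V), g (a (g⁻¹ v)) = h (a (h⁻¹ v)) := by
    intro a v
    have h5 : (c : K) • g⁻¹ v = h⁻¹ v := by rw [← map_smul]; exact hginv v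
    rw [hgv, ← map_smul, ← map_smul, h5]
  have hconj' : ∀ t : V ≃ₗ[K] V, g⁻¹ * t * g = h⁻¹ * t * h := by
    intro t
    ext v
    change g⁻¹ (t (g v)) = h⁻¹ (t (h v))
    rw [hgv, map_smul, hginv]
  set A' := pull h.symm A with hA'
  have hψ : ∀ v w, f (h.symm v) (h.symm w) = f v w := by
    intro v w
    rw [← hhI, LinearEquiv.apply_symm_apply, LinearEquiv.apply_symm_apply]
  have hTA' : IsTor2 f A' := pull_isTor2 f f h.symm hψ A hA
  have hS : SIso f A f A' := (pull_siso f f h.symm hψ A).2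
  have hcarh : CarriesTo h A A' := V3_carries h A
  have hcarg : CarriesTo g A A' := by
    intro a haA
    have h5 : g.toLinearMap ∘ₗ a ∘ₗ g.symm.toLinearMap = h.toLinearMap ∘ₗ a ∘ₗ h.symm.toLinearMap := by
      ext v
      exact hconj a v
    rw [h5]
    exact hcarh a haA
  have hQ' : AdQ f A' Q := by
    have h5 := adQ_carries two f hf A A' Q hQ h 1 one_ne_zero
      (fun v w => by rw [hhI, one_mul]) hcarh
    have h6 : (fun v => 1 * Q (h⁻¹ v)) = Q := by
      funext v
      rw [one_mul]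
      exact (inv_mem hh).2 v
    rwa [h6] at h5
  obtain ⟨x, hx, hxc⟩ : ∃ h ∈ sq (tor (RingHom.id K) f A) ⊔ sq (tor (RingHom.id K) f A'),
      CarriesTo h A A' := by
    by_cases hI : ∀ W : Submodule K V,
        (∀ h ∈ sq (tor (RingHom.id K) f A) ⊔ sq (tor (RingHom.id K) f A'),
          ∀ v ∈ W, h v ∈ W) → W = ⊥ ∨ W = ⊤
    · exact h4 K V f A A' e s h Q hN (e4.trans hq) two hf ha hA hTA' hes hp hsum hmod hQ hQ' hcarh
        hh hdick hI
    · push Not at hI
      obtain ⟨W, hW, hW0, hW1⟩ := hI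
      exact step2 q0 N (fun m hm => V3_F2_mono e1 (hcoreF m hm.le))
        (fun m hm => V3_GL_mono e2 (h2 m hm)) K V f A A' Q e s hN hq two hf ha hA hTA'
        (h3 K V f A hN (e3.trans hq) two hf ha hA) (h3 K V f A' hN (e3.trans hq) two hf ha hTA')
        hQ hQ' hes hp hsum hS W hW hW0 hW1
  have hle1 : sq (tor (RingHom.id K) f A) ≤ Γ ⊓ torGL A :=
    le_inf hsq (V3_sq_le _ _ fun t ht => ht.1)
  have hle2 : sq (tor (RingHom.id K) f A') ≤ conjSub g (Γ ⊓ torGL A) := by
    rw [Pool.Agent.CTO.sq, Subgroup.closure_le]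
    rintro y ⟨t, ht, rfl⟩
    have ht' := (mem_tor2 two f hf A' t).1 ht
    have hs : g⁻¹ * t * g ∈ tor (RingHom.id K) f A := by
      rw [hconj', mem_tor2 two f hf]
      refine ⟨?_, mul_mem (mul_mem (inv_mem hh.1) ht'.2) hh.1⟩
      apply mem_torGL_of
      have h1 := ht'.1.1
      rw [hA', mem_pull] at h1
      have h2 : (h⁻¹ * t * h).toLinearMap =
          h.symm.toLinearMap ∘ₗ t.toLinearMap ∘ₗ h.symm.symm.toLinearMap := by
        ext v
        rfl
      rw [h2]
      exact h1
    change t * t ∈ conjSub g (Γ ⊓ torGL A)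
    rw [mem_conjSub]
    have h4 : g⁻¹ * (t * t) * g = (g⁻¹ * t * g) * (g⁻¹ * t * g) := by group
    rw [h4]
    exact hle1 (Subgroup.subset_closure ⟨_, hs, rfl⟩)
  have hxm : x ∈ (Γ ⊓ torGL A) ⊔ conjSub g (Γ ⊓ torGL A) := (sup_le_sup hle1 hle2) hx
  have hxΓ : x ∈ Γ := by
    have h1 : (Γ ⊓ torGL A) ⊔ conjSub g (Γ ⊓ torGL A) ≤ Γ := by
      refine sup_le inf_le_left ?_
      rw [V3_conjSub Γ (torGL A) g hg]
      exact inf_le_left
    exact h1 hxm
  refine ⟨x, hxm, ?_⟩
  rw [V3_conjSub Γ (torGL A) x hxΓ, V3_conjSub Γ (torGL A) g hg]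
  have e1 : conjSub x (torGL A) = torGL A' :=
    torGL_conj A A' hA.toIsTorGL hTA'.toIsTorGL x hxc
  have e2 : conjSub g (torGL A) = torGL A' :=
    torGL_conj A A' hA.toIsTorGL hTA'.toIsTorGL g hcarg
  rw [e1, e2]

end Pool.Agent.CTE
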