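import Pool.Agent.CTE.F3
import Pool.Agent.CTE.G6
import Pool.Agent.CTE.Z5
import Pool.Agent.CTO.V4

/-!
# CTE.V4m: a single positive cycle of length divisible by four is not pronormal, characteristic two

Compare `V4_main`, `pron_neg3` in `CTO/V4.lean` (read the header and the proofs; many auxiliary lemmas, e.g. `V4_sigma`, `V4_lift`,
`V4_liftE`, `V4_finrank_range`, `V4_carries`, `V4_idem`, do not use the characteristic).
* `neg3_main`: `E` is a field of degree two over `K` with `E ⊆ A` and all its elements selfadjoint. `exists_ext` (`ε = 1`) gives `fE`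
  with `σ = id` (`V4_sigma`); `Alt fE` (`ext_alt`), `AE = liftAlg A` is `IsTor2` (`lift_isTor2`); `e`, `s` define `eE`, `sE` with
  `IsoIdem fE AE eE sE`, `IsPrim AE eE`, `eE + sE = 1`, `rank_E eE = m / 2` even. Let `QE` be the form of `AE` (`exists_adQ`),
  `QE v = fE (d v) v`; `Q v = f (d v) v = Tr (QE v)` (`adQ_unique`; the `d` of `AE` is an element of `A`). Choose `u` with `QE u ≠ 0`
  (`fE ≠ 0`), `rE` the reflection of `(V, fE, QE)` in `u` (`exists_reflQ` over `E`), `g = resH rE`: an isometry of `f` and `Q`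
  (`Q = Tr ∘ QE`), and `rank_K (g - 1) = 2 rank_E (rE - 1)` is even, `dim_K V = 2 m ≥ 8`, so `g ∈ EUQ f Q ≤ Γ` (`even_mem`).
  Let `T = Γ ⊓ torGL A`, `x ∈ T ⊔ g T g⁻¹` with `x T x⁻¹ = g T g⁻¹`. Let `P` be the set of all `y : V ≃ₗ[K] V` such that there are
  `ν : Kˣ` and `z : V ≃ₗ[E] V`, `z ∈ OQ fE QE`, `DickEven z` (over `E`), with `y v = ν • z v` for all `v`: a subgroup (`dick_mul`,
  `dick_one` over `E`; `4 < |K| ≤ |E|`). `T ≤ P`: `t ∈ T` has a multiplier `μ = ν²` for `f`, `z = ν⁻¹ t` is an isometry of `f`, commutes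
  with `E ⊆ A`, so it is `E`-linear and an isometry of `fE` (`IsExt.tr`, trace form nondegenerate, or `lift_isom`), it is in
  `torGL AE`, so it preserves `QE` (`adQ_sim`), carries `AE` to `AE`, and is even by `dick_norm` over `E` (`eE + sE = 1`, so
  `range (eE + sE) = ⊤`). `g T g⁻¹ ≤ P`: conjugation by `rE ∈ OQ fE QE` (`dick_mul`). So `x = ν z`. `y = z⁻¹ rE` carries `AE` to `AE`, since
  `x⁻¹ g` carries `A` to `A` (as in `V4_main` or `pron_neg2`, using `hgen`), it is an isometry of `fE`, so it is even by `dick_norm`,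
  and `rE = z y` is even: contradiction to `dick_refl` (`DickEven (rE * 1) ↔ ¬ DickEven 1`).
-/

namespace Pool.Agent.CTE

open Module Pool.Agent.CTO

/-- `dick_norm` on the whole space -/
theorem V4m_even {L W : Type} [Field L] [Finite L] [AddCommGroup W] [Module L W]
    [FiniteDimensional L W] (two : (2 : L) = 0) (g : W → W → L) (hg : IsHF (RingHom.id L) 1 g)
    (B : Subalgebra L (Module.End L W)) (hB : IsTor g B) (e s : Module.End L W)
    (h : IsoIdem g B e s) (hp : IsPrim B e) (heven : Even (finrank L (LinearMap.range e)))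
    (hes : e + s = 1) (y : W ≃ₗ[L] W) (hy : y ∈ Isom g) (hyB : CarriesTo y B B) :
    DickEven y := by
  have hR : LinearMap.range (e + s) = ⊤ := by
    rw [hes]
    exact LinearMap.range_id
  let ψ : LinearMap.range (e + s) ≃ₗ[L] W := LinearEquiv.ofTop _ hR
  have hψ : ∀ w, ((ψ.symm w : LinearMap.range (e + s)) : W) = w := fun w => rfl
  have hψ' : ∀ w : LinearMap.range (e + s), ψ w = (w : W) := fun w => rfl
  have h1 := dick_norm two g hg B hB e s h hp heven y hy hyB ((ψ.trans y).trans ψ.symm) (by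
    intro v
    rw [LinearEquiv.trans_apply, LinearEquiv.trans_apply, hψ, hψ'])
  unfold DickEven at h1 ⊢
  have h2 : (LinearMap.range (((ψ.trans y).trans ψ.symm).toLinearMap - LinearMap.id)).map
      ψ.toLinearMap = LinearMap.range (y.toLinearMap - LinearMap.id) := by
    ext x
    constructor
    · rintro ⟨_, ⟨m, rfl⟩, rfl⟩
      refine ⟨ψ m, ?_⟩
      show y (ψ m) - ψ m = ψ (ψ.symm (y (ψ m)) - m)
      rw [map_sub, LinearEquiv.apply_symm_apply]
    · rintro ⟨z, rfl⟩
      refine ⟨ψ.symm (y (ψ (ψ.symm z))) - ψ.symm z, ⟨ψ.symm z, rfl⟩, ?_⟩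
      show ψ (ψ.symm (y (ψ (ψ.symm z))) - ψ.symm z) = y z - z
      rw [map_sub, LinearEquiv.apply_symm_apply, LinearEquiv.apply_symm_apply]
  rw [← h2, LinearEquiv.finrank_map_eq ψ]
  exact h1

theorem V4m_smul {K E V : Type} [Field K] [Field E] [Algebra K E] [AddCommGroup V]
    [Module K V] [Module E V] [IsScalarTower K E V] (z : V ≃ₗ[E] V) (k : K) (v : V) :
    z (k • v) = k • z v := LinearMap.map_smul_of_tower z.toLinearMap k v

/-- scalars times even isometries -/
def V4m_P {K E V : Type} [Field K] [Field E] [Algebra K E] [AddCommGroup V]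
    [Module K V] [Module E V] [IsScalarTower K E V] (O : Subgroup (V ≃ₗ[E] V)) :
    Subgroup (V ≃ₗ[K] V) where
  carrier := {y | ∃ (ν : K) (z : V ≃ₗ[E] V), ν ≠ 0 ∧ z ∈ O ∧ ∀ v, y v = ν • z v}
  mul_mem' := by
    rintro a b ⟨ν, z, h0, hz, h⟩ ⟨ν', z', h0', hz', h'⟩
    refine ⟨ν * ν', z * z', mul_ne_zero h0 h0', O.mul_mem hz hz', fun v => ?_⟩
    rw [LinearEquiv.mul_apply, LinearEquiv.mul_apply, h, h', V4m_smul, mul_smul]
  one_mem' := ⟨1, 1, one_ne_zero, O.one_mem, fun v => by simp⟩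
  inv_mem' := by
    rintro a ⟨ν, z, h0, hz, h⟩
    refine ⟨ν⁻¹, z⁻¹, inv_ne_zero h0, O.inv_mem hz, fun v => ?_⟩
    have h1 : ∀ u, a (a⁻¹ u) = u := fun u => LinearEquiv.apply_symm_apply a u
    have h2 : ∀ u, z (z⁻¹ u) = u := fun u => LinearEquiv.apply_symm_apply z u
    apply a.injective
    rw [h1, h, V4m_smul, h2, smul_smul, mul_inv_cancel₀ h0, one_smul]

/-- the even elements -/
def V4m_O {E V : Type} [Field E] [Finite E] [AddCommGroup V] [Module E V] [FiniteDimensional E V]
    (two : (2 : E) = 0) (h4 : 4 < Nat.card E) (f : V → V → E)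
    (hf : IsHF (RingHom.id E) 1 f) (ha : Alt f) (Q : V → E) (hQ : IsQF f Q) :
    Subgroup (V ≃ₗ[E] V) where
  carrier := {z | z ∈ OQ f Q ∧ DickEven z}
  mul_mem' := by
    rintro a b ⟨h1, h2⟩ ⟨h3, h4'⟩
    refine ⟨mul_mem h1 h3, (dick_mul two h4 f hf ha Q hQ a b h1 h3).2 ⟨fun _ => h4', fun _ => h2⟩⟩
  one_mem' := ⟨one_mem _, dick_one⟩
  inv_mem' := by
    rintro a ⟨h1, h2⟩
    refine ⟨inv_mem h1, ?_⟩
    have h3 := dick_mul two h4 f hf ha Q hQ a a⁻¹ h1 (inv_mem h1)
    rw [mul_inv_cancel] at h3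
    exact (h3.1 dick_one).1 h2

theorem neg3_main (K E V : Type) [Field K] [Finite K] [Field E] [Finite E] [Algebra K E]
    [AddCommGroup V] [Module K V] [Module E V] [IsScalarTower K E V] [FiniteDimensional K V]
    (two : (2 : K) = 0) (h4K : 4 < Nat.card K) (hE2 : finrank K E = 2)
    (f : V → V → K) (hf : IsHF (RingHom.id K) 1 f) (ha : Alt f)
    (A : Subalgebra K (Module.End K V)) (hA : IsTor2 f A) (Q : V → K) (hQ : AdQ f A Q)
    (Γ : Subgroup (V ≃ₗ[K] V)) (hΓ : Γ ≤ SimQ f Q)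
    (hEU : EUQ f Q ≤ Γ)
    (hgen : A ≤ Algebra.adjoin K (EndSet (Γ ⊓ torGL A)))
    (e s : Module.End K V) (h : IsoIdem f A e s) (hp : IsPrim A e) (hes : e + s = 1)
    (h4 : 4 ∣ finrank K (LinearMap.range e))
    (hE : ∀ x : E, Algebra.lsmul K K V x ∈ A)
    (hself : ∀ x : E, IsAdj f (Algebra.lsmul K K V x) (Algebra.lsmul K K V x)) :
    ¬ IsPronormal ((torGL A).subgroupOf Γ) := by
  have hne : e ≠ 0 := hp.2.2.1
  have hnt : Nontrivial V := by
    by_contra hc
    rw [not_nontrivial_iff_subsingleton] at hc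
    exact hne (LinearMap.ext fun v => Subsingleton.elim _ _)
  have hfin : FiniteDimensional E V := Module.Finite.of_restrictScalars_finite K E V
  have twoE : (2 : E) = 0 := by
    have := congrArg (algebraMap K E) two
    rwa [map_ofNat, map_zero] at this
  have h4E : 4 < Nat.card E :=
    lt_of_lt_of_le h4K (Nat.card_le_card_of_injective (algebraMap K E) (algebraMap K E).injective)
  obtain ⟨σ, fE, hx⟩ := exists_ext (E := E) 1 f hf (fun x => ⟨x, hself x⟩)
  have hσ := V4_sigma hx hself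
  subst hσ
  have hfE : IsHF (RingHom.id E) 1 fE := by
    have := hx.hf
    rwa [map_one] at this
  have haE : Alt fE := ext_alt two f hf ha fE hx A hA hE
  have hAE : IsTor2 fE (liftAlg A hE) := lift_isTor2 f (RingHom.id E) fE hx A hA hE
  have hrs : Function.Injective (LinearMap.restrictScalars K : (V →ₗ[E] V) → (V →ₗ[K] V)) :=
    LinearMap.restrictScalars_injective K
  obtain ⟨eE, heE⟩ := V4_lift A hA.comm hE e h.he
  obtain ⟨sE, hsE⟩ := V4_lift A hA.comm hE s h.hs
  have hI : IsoIdem fE (liftAlg A hE) eE sE := by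
    refine ⟨?_, ?_, ?_, ?_, ?_⟩
    · show eE.restrictScalars K ∈ A
      rw [heE]; exact h.he
    · show sE.restrictScalars K ∈ A
      rw [hsE]; exact h.hs
    · apply hrs
      have : (eE * eE).restrictScalars K = eE.restrictScalars K * eE.restrictScalars K := rfl
      rw [this, heE]; exact h.idem
    · refine (hx.adj eE sE).1 ?_
      rw [heE, hsE]; exact h.adj
    · apply hrs
      have : (sE * eE).restrictScalars K = sE.restrictScalars K * eE.restrictScalars K := rfl
      rw [this, hsE, heE]; exact h.orth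
  have hP : IsPrim (liftAlg A hE) eE := by
    refine ⟨hI.he, hI.idem, ?_, ?_⟩
    · rintro rfl
      exact hne heE.symm
    · intro a ha ha2 hae
      have h1 : (a.restrictScalars K) * (a.restrictScalars K) = a.restrictScalars K :=
        congrArg (LinearMap.restrictScalars K) ha2
      have h2 : (a.restrictScalars K) * e = a.restrictScalars K := by
        rw [← heE]
        exact congrArg (LinearMap.restrictScalars K) hae
      rcases hp.2.2.2 _ ha h1 h2 with h3 | h3
      · left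
        apply hrs
        rw [h3]
        rfl
      · right
        apply hrs
        rw [h3, heE]
  have hesE : eE + sE = 1 := by
    apply hrs
    have : (eE + sE).restrictScalars K = eE.restrictScalars K + sE.restrictScalars K := rfl
    rw [this, heE, hsE, hes]
    rfl
  have hrk : finrank K (LinearMap.range e) = 2 * finrank E (LinearMap.range eE) := by
    rw [← heE, V4_finrank_range, hE2]
  have heven : Even (finrank E (LinearMap.range eE)) := by
    rw [hrk] at h4
    rw [even_iff_two_dvd]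
    obtain ⟨k, hk⟩ := h4
    exact ⟨k, by omega⟩
  have hprop : ∀ (y : V ≃ₗ[E] V), y ∈ Isom fE →
      CarriesTo y (liftAlg A hE) (liftAlg A hE) → DickEven y :=
    fun y hy hyA => V4m_even twoE fE hfE _ hAE.toIsTor eE sE hI hP heven hesE y hy hyA
  -- the dimension
  have hrpos : 0 < finrank K (LinearMap.range e) := by
    rw [Module.finrank_pos_iff]
    by_contra hc
    rw [not_nontrivial_iff_subsingleton] at hc
    apply hne
    ext v
    have h1 : (⟨e v, LinearMap.mem_range_self e v⟩ : LinearMap.range e) = 0 := Subsingleton.elim _ _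
    exact congrArg Subtype.val h1
  have hV : 3 ≤ finrank K V := by
    have h1 : finrank K (LinearMap.range e) ≤ finrank K V := Submodule.finrank_le _
    obtain ⟨k, hk⟩ := h4
    omega
  -- the quadratic form over `E`
  obtain ⟨QE, hQE⟩ := exists_adQ fE (liftAlg A hE) hAE
  have hQEq : IsQF fE QE := adQ_qf twoE fE hfE haE (liftAlg A hE) QE hQE
  have hQq : IsQF f Q := adQ_qf two f hf ha A Q hQ
  have hQtr : ∀ v, Q v = Algebra.trace K E (QE v) := by
    obtain ⟨d, hd, d', hd', hdd, hd1, hdQ⟩ := hQE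
    have h1 : AdQ f A (fun v => f (d v) v) := by
      refine ⟨d.restrictScalars K, hd, d'.restrictScalars K, hd', (hx.adj d d').2 hdd, ?_, fun v => rfl⟩
      have : (d + d').restrictScalars K = d.restrictScalars K + d'.restrictScalars K := rfl
      rw [← this, hd1]
      rfl
    have h2 := adQ_unique two f hf ha A hA Q _ hQ h1
    intro v
    rw [h2, hdQ, ← hx.tr]
  -- the reflection
  have hu : ∃ u, QE u ≠ 0 := by
    by_contra hc
    push Not at hc
    obtain ⟨v, hv⟩ := exists_ne (0 : V)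
    apply hv
    apply hfE.nondeg
    intro w
    have h1 := hQEq.add v w
    rw [hc, hc, hc, zero_add, zero_add] at h1
    exact h1.symm
  obtain ⟨u, hu⟩ := hu
  obtain ⟨r, hr⟩ := exists_reflQ twoE fE hfE haE QE hQEq u hu
  obtain ⟨hrO, -⟩ := reflQ_mem twoE fE hfE haE QE hQEq u r hr
  have hrodd : ¬ DickEven r := by
    have h1 := dick_refl twoE fE hfE haE QE hQEq 1 (one_mem _) u r hr
    rw [mul_one] at h1
    intro h2
    exact (h1.1 h2) dick_one
  set g : V ≃ₗ[K] V := resH r with hg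
  have hgO : g ∈ OQ f Q := by
    refine ⟨(lift_isom 1 f (RingHom.id E) fE hx r).2 hrO.1, fun v => ?_⟩
    rw [hQtr, hQtr]
    exact congrArg _ (hrO.2 v)
  have hgD : DickEven g := by
    unfold DickEven
    have h1 : g.toLinearMap - LinearMap.id
        = ((r.toLinearMap - LinearMap.id : Module.End E V)).restrictScalars K := rfl
    rw [h1, V4_finrank_range, hE2]
    exact ⟨finrank E (LinearMap.range (r.toLinearMap - LinearMap.id : Module.End E V)), by ring⟩
  have hgΓ : g ∈ Γ := hEU (even_mem two h4K f hf ha Q hQq hV g hgO hgD)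
  intro hpr
  rw [isPronormal_subgroupOf_iff] at hpr
  obtain ⟨x, hxm, hxe⟩ := hpr g hgΓ
  set O := V4m_O twoE h4E fE hfE haE QE hQEq with hO
  -- `T ≤ P`
  have hTP : Γ ⊓ torGL A ≤ V4m_P (K := K) O := by
    rintro t ⟨htΓ, htA⟩
    obtain ⟨μ, hμ, -⟩ := hΓ htΓ
    have hsq : ∃ ν : K, ν * ν = μ := by
      have hinj : Function.Injective (fun a : K => a * a) := by
        intro a b hab
        have h1 : a * a = b * b := hab
        have h2 : (a + b) * (a + b) = 0 := by
          linear_combination h1 + (a * b + b * b) * two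
        have h3 : a + b = 0 := mul_self_eq_zero.1 h2
        linear_combination h3 - b * two
      exact Finite.surjective_of_injective hinj μ
    obtain ⟨ν, hν⟩ := hsq
    have hν0 : ν ≠ 0 := by
      rintro rfl
      rw [mul_zero] at hν
      exact μ.ne_zero hν.symm
    obtain ⟨tE, htE⟩ := V4_liftE A hA.comm hE t htA.1
    have hc : algebraMap K E ν⁻¹ ≠ 0 := (map_ne_zero _).2 (inv_ne_zero hν0)
    let z : V ≃ₗ[E] V := tE.trans (LinearEquiv.smulOfNeZero E V (algebraMap K E ν⁻¹) hc)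
    have hz : ∀ v, z v = ν⁻¹ • t v := by
      intro v
      have h1 : z v = algebraMap K E ν⁻¹ • tE v := rfl
      have h2 : tE v = t v := by rw [← htE]; rfl
      rw [h1, algebraMap_smul, h2]
    have hzi : ∀ v, z⁻¹ v = ν • t⁻¹ v := by
      intro v
      have h1 : ∀ u, z (z⁻¹ u) = u := fun u => LinearEquiv.apply_symm_apply z u
      have h2 : ∀ u, t (t⁻¹ u) = u := fun u => LinearEquiv.apply_symm_apply t u
      apply z.injective
      rw [h1, hz, map_smul, h2, smul_smul, inv_mul_cancel₀ hν0, one_smul]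
    have hzt : z ∈ torGL (liftAlg A hE) := by
      constructor
      · show z.toLinearMap.restrictScalars K ∈ A
        have h1 : z.toLinearMap.restrictScalars K = ν⁻¹ • t.toLinearMap := by
          ext v; exact hz v
        rw [h1]
        exact A.smul_mem htA.1 _
      · show (z⁻¹).toLinearMap.restrictScalars K ∈ A
        have h1 : (z⁻¹).toLinearMap.restrictScalars K = ν • (t⁻¹).toLinearMap := by
          ext v; exact hzi v
        rw [h1]
        exact A.smul_mem htA.2 _
    have hziso : z ∈ Isom fE := by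
      rw [← lift_isom 1 f (RingHom.id E) fE hx z]
      intro v w
      show f (z v) (z w) = f v w
      rw [hz, hz, hf.smul_left, V4_smul_right hf, hμ, ← hν]
      field_simp
    refine ⟨ν, z, hν0, ⟨⟨hziso, fun v => ?_⟩, ?_⟩, fun v => ?_⟩
    · have h1 := adQ_sim fE (liftAlg A hE) hAE.toIsTorGL QE hQE z hzt 1
        (fun v w => by rw [one_mul]; exact hziso v w) v
      rw [h1, one_mul]
    · apply hprop z hziso
      intro a ha
      exact (liftAlg A hE).mul_mem hzt.1 ((liftAlg A hE).mul_mem ha hzt.2)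
    · rw [hz, smul_smul, mul_inv_cancel₀ hν0, one_smul]
  have hdm := dick_mul twoE h4E fE hfE haE QE hQEq
  have hgP : ∀ y ∈ V4m_P (K := K) O, g * y * g⁻¹ ∈ V4m_P (K := K) O := by
    rintro y ⟨ν, z, hν0, ⟨hzO, hzD⟩, hyz⟩
    have hri : r⁻¹ ∈ OQ fE QE := inv_mem hrO
    refine ⟨ν, r * z * r⁻¹, hν0, ⟨mul_mem (mul_mem hrO hzO) hri, ?_⟩, fun v => ?_⟩
    · rw [hdm _ _ (mul_mem hrO hzO) hri, hdm _ _ hrO hzO]
      have h3 := hdm r r⁻¹ hrO hri
      rw [mul_inv_cancel] at h3
      have h4 := h3.1 dick_one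
      tauto
    · show g (y (g⁻¹ v)) = ν • r (z (r⁻¹ v))
      have h1 : g⁻¹ v = r⁻¹ v := rfl
      rw [hyz, h1]
      show r (ν • z (r⁻¹ v)) = _
      rw [V4m_smul]
  have hxP : x ∈ V4m_P (K := K) O := by
    refine (sup_le hTP ?_) hxm
    intro y hy
    rw [mem_conjSub] at hy
    have := hgP _ (hTP hy)
    have e1 : g * (g⁻¹ * y * g) * g⁻¹ = y := by group
    rwa [e1] at this
  obtain ⟨ν, z, hν0, ⟨hzO, hzD⟩, hxz⟩ := hxP
  -- `x⁻¹ g` normalizes `A`
  have hz : ∀ t ∈ Γ ⊓ torGL A, (x⁻¹ * g) * t * (x⁻¹ * g)⁻¹ ∈ Γ ⊓ torGL A := by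
    intro t ht
    have h1 : g * t * g⁻¹ ∈ conjSub g (Γ ⊓ torGL A) := by
      rw [mem_conjSub]
      have e1 : g⁻¹ * (g * t * g⁻¹) * g = t := by group
      rw [e1]; exact ht
    rw [← hxe, mem_conjSub] at h1
    have e2 : (x⁻¹ * g) * t * (x⁻¹ * g)⁻¹ = x⁻¹ * (g * t * g⁻¹) * x := by group
    rw [e2]; exact h1
  have hzA : ∀ a ∈ A, (x⁻¹ * g).toLinearMap ∘ₗ a ∘ₗ (x⁻¹ * g).symm.toLinearMap ∈ A :=
    fun a ha => V4_carries (T := Γ ⊓ torGL A)
      (fun t ht => ht.2.1) (x⁻¹ * g) hz a (hgen ha)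
  have hcar : CarriesTo (z⁻¹ * r) (liftAlg A hE) (liftAlg A hE) := by
    intro a ha
    show ((z⁻¹ * r).toLinearMap ∘ₗ a ∘ₗ (z⁻¹ * r).symm.toLinearMap).restrictScalars K ∈ A
    have h2 : ((z⁻¹ * r).toLinearMap ∘ₗ a ∘ₗ (z⁻¹ * r).symm.toLinearMap).restrictScalars K =
        (x⁻¹ * g).toLinearMap ∘ₗ (a.restrictScalars K) ∘ₗ (x⁻¹ * g).symm.toLinearMap := by
      ext v
      show z⁻¹ (r (a (r⁻¹ (z v)))) = x⁻¹ (r (a (r⁻¹ (x v))))
      have h3 : ∀ u, x (x⁻¹ u) = u := fun u => LinearEquiv.apply_symm_apply x u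
      have h4 : ∀ u, z (z⁻¹ u) = u := fun u => LinearEquiv.apply_symm_apply z u
      apply x.injective
      rw [h3, hxz, h4, hxz, V4m_smul, LinearMap.map_smul_of_tower, V4m_smul]
    rw [h2]
    exact hzA _ ha
  have hzi : z⁻¹ ∈ OQ fE QE := inv_mem hzO
  have hyO : z⁻¹ * r ∈ OQ fE QE := mul_mem hzi hrO
  have hyD : DickEven (z⁻¹ * r) := hprop _ hyO.1 hcar
  have hfin1 := hdm z (z⁻¹ * r) hzO hyO
  have e1 : z * (z⁻¹ * r) = r := by group
  rw [e1] at hfin1
  exact hrodd (hfin1.2 ⟨fun _ => hyD, fun _ => hzD⟩)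

end Pool.Agent.CTE
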