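import Pool.Agent.CTE.V4a
import Pool.Agent.CTE.V4m

/-!
# CTE.V4: a single positive cycle of length divisible by four is not pronormal, characteristic two

Compare `V4_main`, `pron_neg3` in `CTO/V4.lean` (read the header and the proofs; many auxiliary lemmas, e.g. `V4_sigma`, `V4_lift`,
`V4_liftE`, `V4_finrank_range`, `V4_carries`, `V4_idem`, do not use the characteristic).
* `pron_neg3'`: `c` from `exists_nonAS`, `t` from `root2` (`2 ∣ 4 ∣ rank e`), `E = QuadraticAlgebra K c 1` (`ω² = c + ω`), a field because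
  `r ^ 2 ≠ c + 1 * r`; `E` acts on `V` by `x ↦ x.re + x.im t` (`QuadraticAlgebra.lift ⟨t, _⟩`, `t t = c + t` in characteristic two), exactly
  as in `pron_neg3`.
-/

namespace Pool.Agent.CTE

open Module Pool.Agent.CTO

theorem pron_neg3' (K V : Type) [Field K] [Finite K] [AddCommGroup V] [Module K V]
    [FiniteDimensional K V] (two : (2 : K) = 0) (h4K : 4 < Nat.card K)
    (f : V → V → K) (hf : IsHF (RingHom.id K) 1 f) (ha : Alt f)
    (A : Subalgebra K (Module.End K V)) (hA : IsTor2 f A) (Q : V → K) (hQ : AdQ f A Q)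
    (Γ : Subgroup (V ≃ₗ[K] V)) (hΓ : Γ ≤ SimQ f Q)
    (hEU : EUQ f Q ≤ Γ)
    (hgen : A ≤ Algebra.adjoin K (EndSet (Γ ⊓ torGL A)))
    (e s : Module.End K V) (h : IsoIdem f A e s) (hp : IsPrim A e) (hes : e + s = 1)
    (h4 : 4 ∣ finrank K (LinearMap.range e)) :
    ¬ IsPronormal ((torGL A).subgroupOf Γ) := by
  obtain ⟨c, hc⟩ := exists_nonAS K two
  obtain ⟨t, htA, hts, htt⟩ := root2 two f hf A hA.toIsTor e s h hp hes
    ((by norm_num : 2 ∣ 4).trans h4) c hc
  have htt' : t * t = c • (1 : Module.End K V) + t := by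
    have h1 : t + t = 0 := by rw [← two_smul K t, two, zero_smul]
    calc t * t = (t * t + t) - (t + t) + t := by abel
      _ = c • (1 : Module.End K V) + t := by rw [htt, h1, sub_zero]
  have hfact : Fact (∀ r : K, r ^ 2 ≠ c + 1 * r) := ⟨by
    intro r hr
    apply hc r
    linear_combination hr + r * two⟩
  let φ : QuadraticAlgebra K c 1 →ₐ[K] Module.End K V :=
    QuadraticAlgebra.lift ⟨t, by rw [htt', one_smul]⟩
  have hφ : ∀ (x : QuadraticAlgebra K c 1) (v : V), φ x v = x.re • v + x.im • t v := by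
    intro x v
    rfl
  let _ : Module (QuadraticAlgebra K c 1) V := Module.compHom V φ.toRingHom
  have hsm : ∀ (x : QuadraticAlgebra K c 1) (v : V), x • v = φ x v := fun x v => rfl
  have : IsScalarTower K (QuadraticAlgebra K c 1) V := ⟨by
    intro k x v
    rw [hsm, hsm, map_smul, LinearMap.smul_apply]⟩
  have : Finite (QuadraticAlgebra K c 1) := Module.finite_of_finite K
  have hls : ∀ (x : QuadraticAlgebra K c 1) (v : V),
      Algebra.lsmul K K V x v = x.re • v + x.im • t v := fun x v => hφ x v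
  refine neg3_main K (QuadraticAlgebra K c 1) V two h4K (QuadraticAlgebra.finrank_eq_two c 1)
    f hf ha A hA Q hQ Γ hΓ hEU hgen e s h hp hes h4 ?_ ?_
  · intro x
    have h1 : Algebra.lsmul K K V x = x.re • (1 : Module.End K V) + x.im • t := by
      ext v
      rw [hls]
      rfl
    rw [h1]
    exact A.add_mem (A.smul_mem A.one_mem _) (A.smul_mem htA _)
  · intro x v w
    rw [hls, hls, hf.add_left, V4_add_right hf, hf.smul_left, hf.smul_left, V4_smul_right hf,
      V4_smul_right hf, hts v w]

end Pool.Agent.CTE
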