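import Pool.Agent.CTE.Base
import Pool.Agent.CTO.V4

/-!
# CTE.V4a: a quadratic subfield, characteristic two

Compare `V4_root` in `CTO/V4.lean` (copy its proof). `e A = {a ∈ A | a e = a}` is a field of degree `m = rank e` over `K` (`V4_isField`), and
`m` is even, so it contains the quadratic extension of `K`, in which `X² + X + c` has a root (`c` is not of the form `x² + x`; or: the
polynomial `X² + X + c` has a root in every finite extension of even degree). Let `θ ∈ e A` be a root: `θ θ + θ = c e` (characteristic
two), `θ* ∈ s A`, `t = θ + θ*` is selfadjoint, `θ θ* = 0` (`e s = 0`), `t t + t = c (e + s) = c`.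
-/

namespace Pool.Agent.CTE

open Module Pool.Agent.CTO

theorem root2 {K V : Type} [Field K] [Finite K] [AddCommGroup V] [Module K V]
    [FiniteDimensional K V] (two : (2 : K) = 0) (f : V → V → K) (hf : IsHF (RingHom.id K) 1 f)
    (A : Subalgebra K (Module.End K V)) (hA : IsTor f A) (e s : Module.End K V)
    (h : IsoIdem f A e s) (hp : IsPrim A e) (hes : e + s = 1)
    (h2 : 2 ∣ finrank K (LinearMap.range e)) (c : K) (hc : ∀ x : K, x * x + x ≠ c) :
    ∃ t ∈ A, IsAdj f t t ∧ t * t + t = c • (1 : Module.End K V) := by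
  have hF := V4_isField hA.toIsTorGL hp
  have hfin : Finite (Module.End K (LinearMap.range e)) := Module.finite_of_finite K
  have hfinB : Finite (restr A (LinearMap.range e)) := Subtype.finite
  have hfact : Fact (∀ r : K, r ^ 2 ≠ c + 1 * r) := ⟨by
    intro r hr
    apply hc r
    linear_combination hr + r * two⟩
  have hd : finrank K (QuadraticAlgebra K c 1) ∣ finrank K (restr A (LinearMap.range e)) := by
    rw [QuadraticAlgebra.finrank_eq_two, dim_eq A hA.toIsTorGL e h.he h.idem]
    exact h2
  obtain ⟨b, hb⟩ : ∃ b : restr A (LinearMap.range e), b * b = algebraMap K _ c + b := by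
    have h3 := @FiniteField.nonempty_algHom_of_finrank_dvd K (QuadraticAlgebra K c 1)
      (restr A (LinearMap.range e)) _ _ _ hF.toField _ hfinB hd
    obtain ⟨φ⟩ := h3
    refine ⟨φ QuadraticAlgebra.omega, ?_⟩
    have h4 : (QuadraticAlgebra.omega : QuadraticAlgebra K c 1) * QuadraticAlgebra.omega =
        algebraMap K _ c + QuadraticAlgebra.omega := by
      ext <;> simp
    have h5 := map_mul φ QuadraticAlgebra.omega QuadraticAlgebra.omega
    rw [h4, map_add, AlgHom.commutes] at h5
    exact h5.symm
  obtain ⟨b, a, ha, hab⟩ := b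
  have hb' : ∀ w : LinearMap.range e, a (a (w : V)) = c • (w : V) + a (w : V) := by
    intro w
    have h3 := congrArg Subtype.val hb
    have h4 := LinearMap.congr_fun h3 w
    have h5 := congrArg (fun x : LinearMap.range e => (x : V)) h4
    have h6 : ((b (b w) : LinearMap.range e) : V) = c • (w : V) + ((b w : LinearMap.range e) : V) :=
      h5
    rw [hab, hab] at h6
    exact h6
  set t0 := a * e with ht0
  have ht0A : t0 ∈ A := A.mul_mem ha h.he
  have ht00 : t0 * t0 = c • e + t0 := by
    ext v
    show a (e (a (e v))) = c • e v + a (e v)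
    have h3 : e (a (e v)) = a (e (e v)) := LinearMap.congr_fun (hA.comm e h.he a ha) (e v)
    have h4 : e (e v) = e v := LinearMap.congr_fun h.idem v
    rw [h3, h4]
    exact hb' ⟨e v, LinearMap.mem_range_self e v⟩
  obtain ⟨t1, ht1A, ht1⟩ := hA.star t0 ht0A
  have ht1' : IsAdj f t1 t0 := by
    intro v w
    rw [V4_symm hf w (t1 v), ← ht1 w v, V4_symm hf v (t0 w)]
  have huniq : ∀ x y : Module.End K V, (∀ v w, f v (x w) = f v (y w)) → x = y := by
    intro x y hxy
    ext w
    have h3 : x w - y w = 0 := by
      refine hf.nondeg _ fun v => ?_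
      rw [V4_symm hf v (x w - y w), V4_sub_right hf, hxy, sub_self]
    exact sub_eq_zero.1 h3
  have ht11 : t1 * t1 = c • s + t1 := by
    apply huniq
    intro v w
    show f v (t1 (t1 w)) = f v (c • s w + t1 w)
    rw [← ht1, ← ht1, V4_add_right hf, V4_smul_right hf, ← h.adj, ← ht1, ← hf.smul_left,
      ← hf.add_left]
    have h3 : t0 (t0 v) = c • e v + t0 v := LinearMap.congr_fun ht00 v
    rw [h3]
  have ht1s : s * t1 = t1 := by
    apply huniq
    intro v w
    show f v (s (t1 w)) = f v (t1 w)
    rw [← h.adj, ← ht1, ← ht1]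
    have h3 : t0 (e v) = t0 v := by
      show a (e (e v)) = a (e v)
      have h4 : e (e v) = e v := LinearMap.congr_fun h.idem v
      rw [h4]
    rw [h3]
  have hes0 : e * s = 0 := by rw [hA.comm e h.he s h.hs]; exact h.orth
  have h01 : t0 * t1 = 0 := by
    rw [← ht1s, ht0, mul_assoc, ← mul_assoc e s t1, hes0, zero_mul, mul_zero]
  have h10 : t1 * t0 = 0 := by rw [hA.comm t1 ht1A t0 ht0A, h01]
  refine ⟨t0 + t1, A.add_mem ht0A ht1A, ?_, ?_⟩
  · intro v w
    show f (t0 v + t1 v) w = f v (t0 w + t1 w)
    rw [hf.add_left, V4_add_right hf, ht1, ht1']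
    ring
  · have h5 : ∀ x : Module.End K V, x + x = 0 := by
      intro x
      rw [← two_smul K x, two, zero_smul]
    rw [add_mul, mul_add, mul_add, ht00, h01, h10, ht11, add_zero, zero_add]
    have h6 : c • e + t0 + (c • s + t1) + (t0 + t1) = c • (e + s) + ((t0 + t0) + (t1 + t1)) := by
      rw [smul_add]
      abel
    rw [h6, h5, h5, add_zero, add_zero, hes]

theorem exists_nonAS (K : Type) [Field K] [Finite K] (two : (2 : K) = 0) :
    ∃ c : K, ∀ x : K, x * x + x ≠ c := by
  by_contra hcon
  push Not at hcon
  have hs : Function.Surjective (fun x : K => x * x + x) := hcon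
  have hi : Function.Injective (fun x : K => x * x + x) := Finite.injective_iff_surjective.2 hs
  have h01 : (0 : K) = 1 := by
    apply hi
    show (0 : K) * 0 + 0 = 1 * 1 + 1
    linear_combination -two
  exact zero_ne_one h01

end Pool.Agent.CTE
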