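import Pool.Agent.CTE.Base
import Pool.Agent.CTO.Y1

/-!
# CTE.Y0: alternating forms

* `hyp_basis` (any characteristic; here `ε = 1` and characteristic two): by induction on the dimension a space with a
  nondegenerate alternating form has even dimension, and two such spaces of the same dimension are isometric.
  Read `Y1_dec`, `Y1_hyp`, `Y1_alt`, `iso_alt` in `CTO/Y1.lean`: the hypothesis `two` is only used there to
  get `f v v = 0`; here this is the assumption `Alt f`, and `f w v = f v w`. `V ≠ 0`: choose `e ≠ 0` and `e'` with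
  `f e e' = 1`; `P = K e + K e'` is nondegenerate, `V = P ⊕ P^⊥`, induction.
* `alt_rank`: `β : U × U → K` bilinear, `β u v = 0` for all `u` implies `v = 0`; `T : U → U` linear with `β u (T u) = 0` for all
  `u`. Then the rank of `T` is even. Proof: `γ u v = β u (T v)` is alternating bilinear, `ker T` is its (right, hence
  left: `γ u v = - γ v u`) radical. Let `C` be a complement of `ker T`; `γ` restricted to `C` is nondegenerate
  (`v ∈ C`, `γ u v = 0` for all `u ∈ C`, and `γ u v = - γ v u = 0` for `u ∈ ker T`; so `γ u v = 0` for all `u`, `T v = 0`,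
  `v = 0`), so `dim C = rank T` is even by `alt_even` (in characteristic two `γ u v = γ v u`, so `γ` on `C` satisfies
  `IsHF (RingHom.id K) 1`).
-/

namespace Pool.Agent.CTE

open Module Pool.Agent.CTO

theorem Y0_hyp {K W : Type} [Field K] [AddCommGroup W] [Module K W]
    {f : W → W → K} (hf : IsHF (RingHom.id K) (-1) f) (ha : Alt f) [Nontrivial W] :
    ∃ v w, f v w = 1 ∧ f v v = 0 ∧ f w w = 0 := by
  obtain ⟨v, hv⟩ := exists_ne (0 : W)
  have h1 : ∃ w, f v w ≠ 0 := by
    by_contra hcon
    push Not at hcon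
    exact hv (hf.nondeg v hcon)
  obtain ⟨w, hw⟩ := h1
  refine ⟨v, (f v w)⁻¹ • w, ?_, ha _, ha _⟩
  rw [Y1_smul_right hf, inv_mul_cancel₀ hw]

theorem Y0_even (K : Type) [Field K] (n : ℕ) :
    ∀ (W : Type) [AddCommGroup W] [Module K W] [FiniteDimensional K W]
    (f : W → W → K) (_ : IsHF (RingHom.id K) (-1) f) (_ : Alt f) (_ : finrank K W = n),
    Even n := by
  induction n using Nat.strong_induction_on with
  | _ n ih =>
    intro W _ _ _ f hf ha hn
    rcases Nat.eq_zero_or_pos n with rfl | hpos
    · exact Even.zero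
    · have hnt : Nontrivial W := Module.nontrivial_of_finrank_pos (R := K) (by omega)
      obtain ⟨v, w, hvw, hvv, hww⟩ := Y0_hyp hf ha
      obtain ⟨hP, e, he⟩ := Y1_dec hf v w hvw hvv hww
      have hd : finrank K (Y1_P hf v w) + 2 = n := by
        have h1 := e.finrank_eq
        rw [finrank_prod, finrank_prod, finrank_self, hn] at h1
        omega
      have h2 := ih (n - 2) (by omega) _ _ hP (fun x => ha _) (by omega)
      obtain ⟨r, hr⟩ := h2
      exact ⟨r + 1, by omega⟩

theorem Y0_alt (K : Type) [Field K] (n : ℕ) :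
    ∀ (W W' : Type) [AddCommGroup W] [Module K W] [FiniteDimensional K W] [AddCommGroup W']
    [Module K W'] [FiniteDimensional K W']
    (f : W → W → K) (f' : W' → W' → K) (_ : IsHF (RingHom.id K) (-1) f) (_ : Alt f)
    (_ : IsHF (RingHom.id K) (-1) f') (_ : Alt f') (_ : finrank K W = n) (_ : finrank K W' = n),
    ∃ φ : W ≃ₗ[K] W', ∀ v w, f' (φ v) (φ w) = f v w := by
  induction n using Nat.strong_induction_on with
  | _ n ih =>
    intro W W' _ _ _ _ _ _ f f' hf ha hf' ha' hn hn'
    rcases Nat.eq_zero_or_pos n with rfl | hpos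
    · exact Y1_iso hf hf' (finBasisOfFinrankEq K W hn) (finBasisOfFinrankEq K W' hn')
        (fun i => Fin.elim0 i)
    · have hnt : Nontrivial W := Module.nontrivial_of_finrank_pos (R := K) (by omega)
      have hnt' : Nontrivial W' := Module.nontrivial_of_finrank_pos (R := K) (by omega)
      obtain ⟨v, w, hvw, hvv, hww⟩ := Y0_hyp hf ha
      obtain ⟨v', w', hvw', hvv', hww'⟩ := Y0_hyp hf' ha'
      obtain ⟨hP, e, he⟩ := Y1_dec hf v w hvw hvv hww
      obtain ⟨hP', e', he'⟩ := Y1_dec hf' v' w' hvw' hvv' hww'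
      have hd : finrank K (Y1_P hf v w) + 2 = n := by
        have h1 := e.finrank_eq
        rw [finrank_prod, finrank_prod, finrank_self, hn] at h1
        omega
      have hd' : finrank K (Y1_P hf' v' w') + 2 = n := by
        have h1 := e'.finrank_eq
        rw [finrank_prod, finrank_prod, finrank_self, hn'] at h1
        omega
      obtain ⟨φ, hφ⟩ := ih (n - 2) (by omega) _ _ _ _ hP (fun x => ha _) hP' (fun x => ha' _)
        (by omega) (by omega)
      let ψ : (K × K × Y1_P hf v w) ≃ₗ[K] (K × K × Y1_P hf' v' w') :=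
        LinearEquiv.prodCongr (LinearEquiv.refl K K)
          (LinearEquiv.prodCongr (LinearEquiv.refl K K) φ)
      refine ⟨(e.symm.trans ψ).trans e', fun x y => ?_⟩
      change f' (e' (ψ (e.symm x))) (e' (ψ (e.symm y))) = f x y
      have hx : f x y = f (e (e.symm x)) (e (e.symm y)) := by
        rw [LinearEquiv.apply_symm_apply, LinearEquiv.apply_symm_apply]
      rw [hx, he, he']
      have h3 : f' (φ (e.symm x).2.2) (φ (e.symm y).2.2) = f (e.symm x).2.2 (e.symm y).2.2 :=
        hφ _ _
      rw [← h3]
      rfl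

theorem Y0_one {K W : Type} [Field K] [AddCommGroup W] [Module K W] (two : (2 : K) = 0)
    {f : W → W → K} (hf : IsHF (RingHom.id K) 1 f) : IsHF (RingHom.id K) (-1) f := by
  have h1 : (-1 : K) = 1 := by linear_combination -two
  rw [h1]
  exact hf

theorem alt_even (K W : Type) [Field K] [AddCommGroup W] [Module K W] [FiniteDimensional K W]
    (two : (2 : K) = 0) (f : W → W → K) (hf : IsHF (RingHom.id K) 1 f) (ha : Alt f) :
    Even (finrank K W) :=
  Y0_even K _ W f (Y0_one two hf) ha rfl

theorem iso_alt2 (K W W' : Type) [Field K] [AddCommGroup W] [Module K W] [FiniteDimensional K W]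
    [AddCommGroup W'] [Module K W'] [FiniteDimensional K W'] (two : (2 : K) = 0)
    (f : W → W → K) (f' : W' → W' → K) (hf : IsHF (RingHom.id K) 1 f) (ha : Alt f)
    (hf' : IsHF (RingHom.id K) 1 f') (ha' : Alt f') (h : finrank K W = finrank K W') :
    ∃ φ : W ≃ₗ[K] W', ∀ v w, f' (φ v) (φ w) = f v w :=
  Y0_alt K _ W W' f f' (Y0_one two hf) ha (Y0_one two hf') ha' rfl h.symm

theorem alt_rank (K U : Type) [Field K] [AddCommGroup U] [Module K U] [FiniteDimensional K U]
    (two : (2 : K) = 0) (β : U →ₗ[K] U →ₗ[K] K) (hβ : ∀ v, (∀ u, β u v = 0) → v = 0)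
    (T : U →ₗ[K] U) (hT : ∀ u, β u (T u) = 0) : Even (finrank K (LinearMap.range T)) := by
  have hsym : ∀ u v, β u (T v) = β v (T u) := by
    intro u v
    have h1 := hT (u + v)
    rw [map_add, map_add, LinearMap.add_apply, map_add, map_add, hT, hT] at h1
    linear_combination h1 - (β v (T u)) * two
  obtain ⟨C, hC⟩ := Submodule.exists_isCompl (LinearMap.ker T)
  have hdim : finrank K C = finrank K (LinearMap.range T) := by
    have h1 := Submodule.finrank_add_eq_of_isCompl hC
    have h2 := LinearMap.finrank_range_add_finrank_ker T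
    omega
  rw [← hdim]
  apply alt_even K C two (fun u v => β (u : U) (T (v : U)))
  · refine ⟨fun x => rfl, Or.inl rfl, fun u v w => ?_, fun a v w => ?_, fun v w => ?_,
      fun v hv => ?_⟩
    · change β ((u : U) + (v : U)) (T (w : U)) = _
      rw [map_add, LinearMap.add_apply]
    · change β (a • (v : U)) (T (w : U)) = _
      rw [map_smul, LinearMap.smul_apply, smul_eq_mul]
    · rw [one_mul]
      exact hsym _ _
    · have h1 : ∀ u : U, β u (T (v : U)) = 0 := by
        intro u
        have h2 : u ∈ LinearMap.ker T ⊔ C := by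
          rw [hC.sup_eq_top]
          exact Submodule.mem_top
        obtain ⟨k, hk, c, hc, rfl⟩ := Submodule.mem_sup.1 h2
        rw [hsym, map_add, LinearMap.mem_ker.1 hk, zero_add]
        exact hv ⟨c, hc⟩
      have h3 : T (v : U) = 0 := hβ _ h1
      have h4 : (v : U) ∈ LinearMap.ker T ⊓ C := ⟨LinearMap.mem_ker.2 h3, v.2⟩
      rw [hC.inf_eq_bot] at h4
      exact Subtype.ext ((Submodule.mem_bot K).1 h4)
  · intro v
    exact hT _

end Pool.Agent.CTE
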