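import Pool.Agent.CTE.Base

/-!
# CTE.Y1: counting zeros of orthogonal sums

`K` finite of characteristic two with `q` elements (so `x ↦ x * x` is a bijection of `K`). For a function `Q : W → K` with
`Q (a v) = a² Q v` on a finite `K`-space let `nz Q` be the number of the zeros. For `a ≠ 0` the number of `v` with
`Q v = a` does not depend on `a` (`v ↦ c v` with `c² = a / a'`), so it is `(|W| - nz Q) / (q - 1)`, i.e.
`(q - 1) #{Q = a} = |W| - nz Q`.
* `nz_sum`: let `QU u = Q w + Q' w'` for `u ↔ (w, w')`. In characteristic two `QU u = 0` iff `Q w = Q' w'`, so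
  `nz QU = ∑_a #{Q = a} #{Q' = a} = nz Q nz Q' + ∑_{a ≠ 0} ..`, and
  `(q - 1) nz QU = (q - 1) nz Q nz Q' + (|W| - nz Q) (|W'| - nz Q')`. The claimed identity in `ℤ` follows:
  `(q - 1) (q nz QU - |W| |W'|) = (q nz Q - |W|) (q nz Q' - |W'|)`.
-/

namespace Pool.Agent.CTE

open Module Pool.Agent.CTO

/-- The number of zeros. -/
noncomputable def nz {K W : Type} [Field K] (Q : W → K) : ℕ := Nat.card {v : W // Q v = 0}

/-- in a finite field of characteristic two every element is a square -/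
theorem Y1_sqrt {K : Type} [Field K] [Finite K] (two : (2 : K) = 0) (a : K) : ∃ c : K, c * c = a := by
  have hinj : Function.Injective (fun c : K => c * c) := by
    intro x y hxy
    have h1 : x * x = y * y := hxy
    have h2 : (x - y) * (x - y) = 0 := by
      linear_combination h1 - (y * (x - y)) * two
    exact sub_eq_zero.1 (mul_self_eq_zero.1 h2)
  exact (Finite.injective_iff_surjective.1 hinj) a

theorem Y1_const {K W : Type} [Field K] [Finite K] (two : (2 : K) = 0) [AddCommGroup W]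
    [Module K W] (Q : W → K) (hQ : ∀ (a : K) (v : W), Q (a • v) = a * a * Q v) (a : K) (ha : a ≠ 0) :
    Nat.card {v : W // Q v = a} = Nat.card {v : W // Q v = 1} := by
  obtain ⟨c, hc⟩ := Y1_sqrt two a
  have hc0 : c ≠ 0 := by
    rintro rfl
    apply ha
    rw [← hc, mul_zero]
  refine Nat.card_congr ⟨fun v => ⟨c⁻¹ • v.1, ?_⟩, fun v => ⟨c • v.1, ?_⟩, ?_, ?_⟩
  · rw [hQ, v.2, ← hc]
    field_simp
  · rw [hQ, v.2, hc, mul_one]
  · intro v
    apply Subtype.ext
    show c • c⁻¹ • v.1 = v.1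
    rw [smul_smul, mul_inv_cancel₀ hc0, one_smul]
  · intro v
    apply Subtype.ext
    show c⁻¹ • c • v.1 = v.1
    rw [smul_smul, inv_mul_cancel₀ hc0, one_smul]

theorem Y1_sum {K : Type} [Field K] [Fintype K] [DecidableEq K] (g : K → ℕ) (n : ℕ)
    (h : ∀ a, a ≠ 0 → g a = n) : ((∑ a, g a : ℕ) : ℤ) = g 0 + ((Nat.card K : ℤ) - 1) * n := by
  rw [← Finset.add_sum_erase Finset.univ g (Finset.mem_univ 0)]
  have h1 : ∑ a ∈ Finset.univ.erase (0 : K), g a = ∑ a ∈ Finset.univ.erase (0 : K), n :=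
    Finset.sum_congr rfl fun a ha => h a (Finset.ne_of_mem_erase ha)
  rw [h1, Finset.sum_const, Finset.card_erase_of_mem (Finset.mem_univ _), Finset.card_univ,
    Nat.card_eq_fintype_card]
  have h2 : 1 ≤ Fintype.card K := Fintype.card_pos
  rw [smul_eq_mul]
  push_cast [Nat.cast_sub h2]
  ring

theorem nz_sum (K W W' U : Type) [Field K] [Finite K] (two : (2 : K) = 0) [AddCommGroup W]
    [Module K W] [Finite W] [AddCommGroup W'] [Module K W'] [Finite W'] (θ : U ≃ W × W')
    (Q : W → K) (Q' : W' → K) (QU : U → K) (hQ : ∀ (a : K) (v : W), Q (a • v) = a * a * Q v)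
    (hQ' : ∀ (a : K) (v : W'), Q' (a • v) = a * a * Q' v)
    (hU : ∀ u, QU u = Q (θ u).1 + Q' (θ u).2) :
    ((Nat.card K : ℤ) - 1) * ((Nat.card K : ℤ) * nz QU - (Nat.card W : ℤ) * Nat.card W')
      = ((Nat.card K : ℤ) * nz Q - Nat.card W) * ((Nat.card K : ℤ) * nz Q' - Nat.card W') := by
  classical
  have : Fintype K := Fintype.ofFinite K
  have hW : Nat.card W = ∑ a, Nat.card {v : W // Q v = a} := by
    rw [← Nat.card_sigma]
    exact Nat.card_congr (Equiv.sigmaFiberEquiv Q).symm
  have hW' : Nat.card W' = ∑ a, Nat.card {v : W' // Q' v = a} := by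
    rw [← Nat.card_sigma]
    exact Nat.card_congr (Equiv.sigmaFiberEquiv Q').symm
  have hneg : ∀ x : K, -x = x := by
    intro x
    linear_combination (-x) * two
  have hUU : nz QU = ∑ a, Nat.card {v : W // Q v = a} * Nat.card {v : W' // Q' v = a} := by
    have h1 : ∀ a, Nat.card {v : W // Q v = a} * Nat.card {v : W' // Q' v = a} =
        Nat.card ({v : W // Q v = a} × {v : W' // Q' v = a}) := fun a => (Nat.card_prod _ _).symm
    simp only [h1]
    rw [← Nat.card_sigma]
    have e1 : {u : U // QU u = 0} ≃ {p : W × W' // Q' p.2 = Q p.1} := by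
      refine θ.subtypeEquiv ?_
      intro u
      rw [hU]
      constructor
      · intro h
        rw [← hneg (Q (θ u).1)]
        linear_combination h
      · intro h
        rw [h]
        linear_combination (Q (θ u).1) * two
    refine Nat.card_congr (e1.trans ⟨fun u => ⟨Q u.1.1, ⟨u.1.1, rfl⟩, ⟨u.1.2, u.2⟩⟩,
      fun x => ⟨(x.2.1.1, x.2.2.1), x.2.2.2.trans x.2.1.2.symm⟩, ?_, ?_⟩)
    · intro u
      rfl
    · rintro ⟨a, ⟨w, rfl⟩, ⟨w', hw'⟩⟩
      rfl
  set n := Nat.card {v : W // Q v = 1} with hn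
  set n' := Nat.card {v : W' // Q' v = 1} with hn'
  have s1 := Y1_sum (fun a => Nat.card {v : W // Q v = a}) n (fun a ha => Y1_const two Q hQ a ha)
  have s2 := Y1_sum (fun a => Nat.card {v : W' // Q' v = a}) n' (fun a ha => Y1_const two Q' hQ' a ha)
  have s3 := Y1_sum (fun a => Nat.card {v : W // Q v = a} * Nat.card {v : W' // Q' v = a}) (n * n')
    (fun a ha => by rw [Y1_const two Q hQ a ha, Y1_const two Q' hQ' a ha])
  rw [← hW] at s1
  rw [← hW'] at s2
  rw [← hUU] at s3
  have z1 : Nat.card {v : W // Q v = 0} = nz Q := rfl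
  have z2 : Nat.card {v : W' // Q' v = 0} = nz Q' := rfl
  simp only [z1, z2] at s1 s2 s3
  rw [s1, s2, s3]
  push_cast
  ring

theorem nz_congr {K W W' : Type} [Field K] (θ : W ≃ W') (Q : W → K) (Q' : W' → K)
    (h : ∀ v, Q' (θ v) = Q v) : nz Q = nz Q' := by
  refine Nat.card_congr (θ.subtypeEquiv ?_)
  intro v
  rw [h]

end Pool.Agent.CTE
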