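import Pool.Agent.CTE.G4
import Pool.Agent.CTE.Y0
import Pool.Agent.CTE.Y1

/-!
# CTE.Y2: quadratic forms over finite fields of characteristic two

`K` finite, `q = |K|`, `Q` a quadratic form with nondegenerate polar form `f` on `W`, `n = dim W` (even, `alt_even`).
* hyperbolic decomposition, `n ≥ 3`: by `exists_hyp` there are `e`, `e'` with `Q e = Q e' = 0`, `f e e' = 1`. `P = K e + K e'`,
  `W = P ⊕ W1`, `W1 = P^⊥` (compare `Y1_dec`, `Y1_perp_hf` in `CTO/Y1.lean`; `w ↦ w - f(w,e') e - f(w,e) e'` is the projection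
  to `W1`), `Q(x e + y e' + w) = x y + Q w`, and `f`, `Q` restricted to `W1` satisfy the same hypotheses. The number of
  zeros of `x y` is `2 q - 1`, so by `nz_sum` `(q - 1)(q nz Q - q^n) = (q nz Q1 - q^(n-2)) (2 q² - q - q²)`, i.e.
  `q nz Q - q^n = q (q nz Q1 - q^(n-2))`.
* `n = 2`: choose `e` with `Q e ≠ 0` (exists because `f ≠ 0`), scale it to `Q e = 1`, and `e'` with `f e e' = 1`; `δ = Q e'`;
  `Q(x e + y e') = x² + x y + δ y²`. Replacing `e'` by `e' + c e` changes `δ` to `δ + c + c²`. `℘ = {c + c²}` is a subgroup of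
  index two of `(K,+)` (kernel of `c ↦ c + c²` is `{0, 1}`). If `δ ∈ ℘` we may assume `δ = 0`, and `nz Q = 2 q - 1`; if
  `δ ∉ ℘` then `nz Q = 1` (`y ≠ 0` and `x² + x y + δ y² = 0` would give `δ = (x/y)² + x/y`).
* `nz_sq`: induction: `n = 0`: `q - 1`; `n = 2`: `q - q² = -(q - 1) q` or `2 q² - q - q² = (q - 1) q`; `n ≥ 3`: the recursion.
* `iso_quad2`: induction: `n = 0` trivial; `n = 2`: both `δ`, `δ'` in `℘` (then take `δ = δ' = 0`) or both not in `℘`
  (`2 q - 1 ≠ 1`), then `δ - δ' ∈ ℘` because the index is two; `n ≥ 3`: `nz Q1 = nz Q1'` by the recursion, induction, and the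
  map `x e + y e' + w ↦ x e'' + y e''' + φ w`.
-/

namespace Pool.Agent.CTE

open Module Pool.Agent.CTO

theorem Y2_sym {K V : Type} [Field K] [AddCommGroup V] [Module K V] {f : V → V → K}
    (hf : IsHF (RingHom.id K) 1 f) (v w : V) : f w v = f v w := by
  rw [hf.herm v w, one_mul, RingHom.id_apply]

theorem Y2_dec {K W : Type} [Field K] [AddCommGroup W] [Module K W] (two : (2 : K) = 0)
    {f : W → W → K} (hf : IsHF (RingHom.id K) 1 f) (ha : Alt f) (v w : W) (hvw : f v w = 1) :
    IsHF (RingHom.id K) 1 (resF f (Y1_P hf v w)) ∧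
    ∃ e : (K × K × Y1_P hf v w) ≃ₗ[K] W, ∀ q, e q = q.1 • v + q.2.1 • w + (q.2.2 : W) := by
  have hwv : f w v = 1 := by rw [Y2_sym hf v w, hvw]
  have hvv := ha v
  have hww := ha w
  have hmem : ∀ z, z + f z w • v + f z v • w ∈ Y1_P hf v w := by
    intro z
    rw [Y1_mem_P]
    constructor
    · rw [hf.add_left, hf.add_left, hf.smul_left, hf.smul_left, hvv, hwv]
      linear_combination (f z v) * two
    · rw [hf.add_left, hf.add_left, hf.smul_left, hf.smul_left, hvw, hww]
      linear_combination (f z w) * two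
  have hP : ∀ x : Y1_P hf v w, f x v = 0 ∧ f x w = 0 := fun x => (Y1_mem_P hf v w x).1 x.2
  have hadd : ∀ x : W, x + x = 0 := fun x => by
    have h4 : x + x = (0 : K) • x := by rw [← two, two_smul]
    rw [h4, zero_smul]
  refine ⟨⟨hf.invol, hf.eps, fun _ _ _ => hf.add_left _ _ _, fun _ _ _ => hf.smul_left _ _ _,
    fun _ _ => hf.herm _ _, fun x hx => ?_⟩, ?_⟩
  · apply Subtype.ext
    apply hf.nondeg
    intro z
    have h2 : f x (z + f z w • v + f z v • w) = 0 := hx ⟨_, hmem z⟩
    rw [Y1_add_right hf, Y1_add_right hf, Y1_smul_right hf,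
      Y1_smul_right hf, (hP x).1, (hP x).2, mul_zero, mul_zero, add_zero, add_zero] at h2
    exact h2
  · let e : (K × K × Y1_P hf v w) ≃ₗ[K] W :=
      { toFun := fun q => q.1 • v + q.2.1 • w + (q.2.2 : W)
        map_add' := fun q q' => by
          simp only [Prod.fst_add, Prod.snd_add, Submodule.coe_add, add_smul]
          abel
        map_smul' := fun a q => by
          simp only [Prod.smul_fst, Prod.smul_snd, Submodule.coe_smul, smul_eq_mul, mul_smul,
            smul_add, RingHom.id_apply]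
        invFun := fun z => (f z w, f z v, ⟨_, hmem z⟩)
        left_inv := fun q => by
          obtain ⟨a, b, x⟩ := q
          have h1 : f (a • v + b • w + (x : W)) w = a := by
            rw [hf.add_left, hf.add_left, hf.smul_left, hf.smul_left, hvw, hww, (hP x).2]
            ring
          have h2 : f (a • v + b • w + (x : W)) v = b := by
            rw [hf.add_left, hf.add_left, hf.smul_left, hf.smul_left, hvv, hwv, (hP x).1]
            ring
          refine Prod.ext h1 (Prod.ext h2 (Subtype.ext ?_))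
          change (a • v + b • w + (x : W)) + f (a • v + b • w + (x : W)) w • v +
              f (a • v + b • w + (x : W)) v • w = x
          rw [h1, h2]
          have h3 : a • v + b • w + (x : W) + a • v + b • w =
              (a • v + a • v) + (b • w + b • w) + (x : W) := by abel
          rw [h3, hadd, hadd, zero_add, zero_add]
        right_inv := fun z => by
          change f z w • v + f z v • w + (z + f z w • v + f z v • w) = z
          have h3 : f z w • v + f z v • w + (z + f z w • v + f z v • w) =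
              (f z w • v + f z w • v) + (f z v • w + f z v • w) + z := by abel
          rw [h3, hadd, hadd, zero_add, zero_add] }
    exact ⟨e, fun q => rfl⟩

theorem Y2_Qe {K W : Type} [Field K] [AddCommGroup W] [Module K W]
    {f : W → W → K} (hf : IsHF (RingHom.id K) 1 f) {Q : W → K} (hQ : IsQF f Q) (v w : W)
    (hvw : f v w = 1) (x y : K) (z : Y1_P hf v w) :
    Q (x • v + y • w + (z : W)) = x * x * Q v + x * y + y * y * Q w + Q z := by
  have hz := (Y1_mem_P hf v w z).1 z.2
  rw [hQ.add, hQ.add, hQ.smul, hQ.smul, hf.smul_left, Y1_smul_right hf, hf.add_left, hf.smul_left,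
    hf.smul_left, Y2_sym hf (z : W) v, Y2_sym hf (z : W) w, hz.1, hz.2, hvw]
  ring

theorem Y2_zero {K V : Type} [Field K] [AddCommGroup V] [Module K V] {f : V → V → K} {Q : V → K}
    (hQ : IsQF f Q) : Q 0 = 0 := by
  have h := hQ.smul 0 0
  rw [zero_smul, mul_zero, zero_mul] at h
  exact h

theorem Y2_res {K W : Type} [Field K] [AddCommGroup W] [Module K W] {f : W → W → K} {Q : W → K}
    (hQ : IsQF f Q) (P : Submodule K W) : IsQF (resF f P) (resQ Q P) :=
  ⟨fun a x => hQ.smul a x, fun x y => hQ.add x y⟩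

theorem Y2_xy (K : Type) [Field K] [Finite K] :
    (nz (fun p : K × K => p.1 * p.2) : ℤ) = 2 * Nat.card K - 1 := by
  have h1 : nz (fun p : K × K => p.1 * p.2) = Nat.card (K ⊕ {y : K // y ≠ 0}) := by
    refine Nat.card_congr ?_
    classical
    refine
      { toFun := fun p => if h : p.1.2 = 0 then Sum.inl p.1.1 else Sum.inr ⟨p.1.2, h⟩
        invFun := fun s => Sum.elim (fun x => ⟨(x, 0), mul_zero x⟩)
          (fun y => ⟨(0, y.1), zero_mul y.1⟩) s
        left_inv := ?_
        right_inv := ?_ }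
    · rintro ⟨⟨x, y⟩, hxy⟩
      by_cases h : y = 0
      · subst h
        simp
      · have hx : x = 0 := (mul_eq_zero.1 hxy).resolve_right h
        subst hx
        simp [h]
    · rintro (x | ⟨y, hy⟩)
      · simp
      · simp [hy]
  have h2 : Nat.card {y : K // y ≠ 0} + 1 = Nat.card K := by
    classical
    have := Fintype.ofFinite K
    rw [Nat.card_eq_fintype_card, Nat.card_eq_fintype_card, Fintype.card_subtype_compl,
      Fintype.card_subtype_eq]
    have := Fintype.card_pos (α := K)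
    omega
  rw [h1, Nat.card_sum]
  push_cast
  have h3 : (Nat.card {y : K // y ≠ 0} : ℤ) + 1 = Nat.card K := by exact_mod_cast h2
  linarith

theorem Y2_dim {K W : Type} [Field K] [AddCommGroup W] [Module K W]
    [FiniteDimensional K W] {P : Submodule K W} (e : (K × K × P) ≃ₗ[K] W) :
    finrank K P + 2 = finrank K W := by
  have h1 := e.finrank_eq
  rw [finrank_prod, finrank_prod, finrank_self] at h1
  omega

/-- the recursion -/
theorem Y2_rec {K W : Type} [Field K] [Finite K] [AddCommGroup W] [Module K W]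
    [FiniteDimensional K W] (two : (2 : K) = 0) {f : W → W → K} (hf : IsHF (RingHom.id K) 1 f)
    (ha : Alt f) {Q : W → K} (hQ : IsQF f Q) (v w : W) (hv : Q v = 0) (hw : Q w = 0)
    (hvw : f v w = 1) :
    (Nat.card K : ℤ) * nz Q - (Nat.card K : ℤ) ^ finrank K W =
      Nat.card K * ((Nat.card K : ℤ) * nz (resQ Q (Y1_P hf v w)) -
        (Nat.card K : ℤ) ^ finrank K (Y1_P hf v w)) := by
  obtain ⟨hP, e, he⟩ := Y2_dec two hf ha v w hvw
  have hfW : Finite W := Module.finite_of_finite K
  have hdim := Y2_dim e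
  have hsum := nz_sum K (K × K) (Y1_P hf v w) W two
    (e.symm.toEquiv.trans (Equiv.prodAssoc K K (Y1_P hf v w)).symm)
    (fun p => p.1 * p.2) (resQ Q (Y1_P hf v w)) Q
    (fun a p => by
      change (a * p.1) * (a * p.2) = a * a * (p.1 * p.2)
      ring)
    (fun a p => hQ.smul a p)
    (fun u => by
      obtain ⟨q, rfl⟩ := e.surjective u
      have h1 : (e.symm.toEquiv.trans (Equiv.prodAssoc K K (Y1_P hf v w)).symm) (e q) =
          ((q.1, q.2.1), q.2.2) := by
        change (Equiv.prodAssoc K K (Y1_P hf v w)).symm (e.symm (e q)) = _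
        rw [LinearEquiv.symm_apply_apply]
        rfl
      rw [h1, he, Y2_Qe hf hQ v w hvw, hv, hw]
      change _ = q.1 * q.2.1 + Q q.2.2
      ring)
  rw [Y2_xy, Nat.card_prod, Module.natCard_eq_pow_finrank (K := K) (V := Y1_P hf v w)] at hsum
  push_cast at hsum
  have hq : (1 : ℤ) < Nat.card K := by exact_mod_cast (Finite.one_lt_card (α := K))
  have hq1 : (Nat.card K : ℤ) - 1 ≠ 0 := by linarith
  apply mul_left_cancel₀ hq1
  rw [← hdim, pow_add]
  linear_combination hsum

theorem Y2_aniso {K W : Type} [Field K] [AddCommGroup W] [Module K W]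
    {f : W → W → K} {Q : W → K} (hQ : IsQF f Q) : nz Q = 1 ↔ ∀ x, Q x = 0 → x = 0 := by
  rw [nz, Nat.card_eq_one_iff_unique]
  constructor
  · rintro ⟨h, -⟩ x hx
    exact congrArg Subtype.val (h.elim ⟨x, hx⟩ ⟨0, Y2_zero hQ⟩)
  · intro h
    refine ⟨⟨?_⟩, ⟨⟨0, Y2_zero hQ⟩⟩⟩
    rintro ⟨x, hx⟩ ⟨y, hy⟩
    exact Subtype.ext ((h x hx).trans (h y hy).symm)

theorem Y2_hyp {K W : Type} [Field K] [AddCommGroup W] [Module K W] (two : (2 : K) = 0)
    {f : W → W → K} (hf : IsHF (RingHom.id K) 1 f)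
    {Q : W → K} (hQ : IsQF f Q) (h : nz Q ≠ 1) : ∃ v w, Q v = 0 ∧ Q w = 0 ∧ f v w = 1 := by
  rw [ne_eq, Y2_aniso hQ] at h
  push Not at h
  obtain ⟨v, hv, hv0⟩ := h
  obtain ⟨w, hw⟩ : ∃ w, f v w ≠ 0 := by
    by_contra hcon
    push Not at hcon
    exact hv0 (hf.nondeg v hcon)
  have hvv : f v v = 0 := by
    have h3 := hQ.add v v
    have h4 : v + v = (0 : K) • v := by rw [← two, two_smul]
    rw [h4, hQ.smul, hv] at h3
    linear_combination (-1) * h3
  have h1 : f v ((f v w)⁻¹ • w) = 1 := by rw [Y1_smul_right hf, inv_mul_cancel₀ hw]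
  refine ⟨v, (f v w)⁻¹ • w + Q ((f v w)⁻¹ • w) • v, hv, ?_, ?_⟩
  · rw [hQ.add, hQ.smul _ v, hv, Y1_smul_right hf, Y2_sym hf v, h1]
    linear_combination Q ((f v w)⁻¹ • w) * two
  · rw [Y1_add_right hf, h1, Y1_smul_right hf, hvv]
    ring

theorem Y2_nz1 {K W : Type} [Field K] [Finite K] [AddCommGroup W] [Module K W]
    [FiniteDimensional K W] (two : (2 : K) = 0) {f : W → W → K} (hf : IsHF (RingHom.id K) 1 f)
    (ha : Alt f) {Q : W → K} (hQ : IsQF f Q) (h : nz Q = 1) :
    finrank K W = 0 ∨ finrank K W = 2 := by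
  have h1 := alt_even K W two f hf ha
  have h2 : finrank K W < 3 := by
    by_contra hcon
    obtain ⟨e, e', he, -, hee⟩ := exists_hyp two f hf ha Q hQ (by omega)
    have h3 := (Y2_aniso hQ).1 h e he
    have h4 := hf.smul_left 0 0 e'
    rw [zero_smul, zero_mul, ← h3, hee] at h4
    exact one_ne_zero h4
  obtain ⟨k, hk⟩ := h1
  omega

theorem Y2_main1 (K : Type) [Field K] [Finite K] (two : (2 : K) = 0) (n : ℕ) :
    ∀ (W : Type) [AddCommGroup W] [Module K W] [FiniteDimensional K W]
    (f : W → W → K) (_ : IsHF (RingHom.id K) 1 f)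
    (_ : Alt f) (Q : W → K) (_ : IsQF f Q) (_ : finrank K W = n),
    ((Nat.card K : ℤ) * nz Q - (Nat.card K : ℤ) ^ finrank K W) ^ 2
      = ((Nat.card K : ℤ) - 1) ^ 2 * (Nat.card K : ℤ) ^ finrank K W := by
  induction n using Nat.strong_induction_on with
  | _ n ih =>
    intro W _ _ _ f hf ha Q hQ hn
    by_cases h : nz Q = 1
    · rw [h]
      rcases Y2_nz1 two hf ha hQ h with h0 | h0
      · rw [h0]
        push_cast
        ring
      · rw [h0]
        push_cast
        ring
    · obtain ⟨v, w, hv, hw, hvw⟩ := Y2_hyp two hf hQ h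
      obtain ⟨hP, e, he⟩ := Y2_dec two hf ha v w hvw
      have hdim := Y2_dim e
      have haP : Alt (resF f (Y1_P hf v w)) := fun x => ha x
      have h1 := ih (finrank K (Y1_P hf v w)) (by omega) _ _ hP haP _ (Y2_res hQ _) rfl
      have h2 := Y2_rec two hf ha hQ v w hv hw hvw
      rw [h2, mul_pow, h1, ← hdim, pow_add]
      ring

/-- gluing -/
theorem Y2_glue {K W W' : Type} [Field K] [AddCommGroup W] [Module K W]
    [AddCommGroup W'] [Module K W'] (two : (2 : K) = 0)
    {f : W → W → K} {f' : W' → W' → K} (hf : IsHF (RingHom.id K) 1 f)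
    (ha : Alt f) (hf' : IsHF (RingHom.id K) 1 f') (ha' : Alt f') {Q : W → K} {Q' : W' → K}
    (hQ : IsQF f Q) (hQ' : IsQF f' Q') (v w : W) (v' w' : W') (hvw : f v w = 1)
    (hvw' : f' v' w' = 1) (hv : Q' v' = Q v) (hw : Q' w' = Q w)
    (φ : Y1_P hf v w ≃ₗ[K] Y1_P hf' v' w') (hφ : ∀ x, Q' (φ x) = Q x) :
    ∃ φ : W ≃ₗ[K] W', ∀ v, Q' (φ v) = Q v := by
  obtain ⟨hP, e, he⟩ := Y2_dec two hf ha v w hvw
  obtain ⟨hP', e', he'⟩ := Y2_dec two hf' ha' v' w' hvw'
  refine ⟨(e.symm.trans (LinearEquiv.prodCongr (LinearEquiv.refl K K)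
    (LinearEquiv.prodCongr (LinearEquiv.refl K K) φ))).trans e', fun x => ?_⟩
  obtain ⟨q, rfl⟩ := e.surjective x
  change Q' (e' ((LinearEquiv.prodCongr (LinearEquiv.refl K K)
    (LinearEquiv.prodCongr (LinearEquiv.refl K K) φ)) (e.symm (e q)))) = _
  rw [LinearEquiv.symm_apply_apply]
  change Q' (e' (q.1, q.2.1, φ q.2.2)) = _
  rw [he, he']
  rw [Y2_Qe hf hQ v w hvw, Y2_Qe hf' hQ' v' w' hvw', hv, hw, hφ]

theorem Y2_index (K : Type) [Field K] [Finite K] (two : (2 : K) = 0) (a b : K)
    (ha : ∀ c, c * c + c ≠ a) (hb : ∀ c, c * c + c ≠ b) : ∃ c, c * c + c = a + b := by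
  let φ : K →+ K :=
    { toFun := fun c => c * c + c
      map_zero' := by ring
      map_add' := fun x y => by linear_combination (x * y) * two }
  have hker : Nat.card φ.ker = 2 := by
    rw [Nat.card_eq_two_iff]
    have h1 : (1 : K) ∈ φ.ker := by
      change (1 : K) * 1 + 1 = 0
      linear_combination two
    refine ⟨0, ⟨1, h1⟩, ?_, ?_⟩
    · intro h
      exact zero_ne_one (congrArg Subtype.val h)
    · rw [Set.eq_univ_iff_forall]
      rintro ⟨c, hc⟩
      have hc' : c * c + c = 0 := hc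
      have h2 : c * (c + 1) = 0 := by linear_combination hc'
      rcases mul_eq_zero.1 h2 with h | h
      · left
        exact Subtype.ext h
      · right
        apply Subtype.ext
        change c = 1
        linear_combination h - two
  have h1 := AddSubgroup.card_mul_index φ.ker
  rw [AddSubgroup.index_ker, hker] at h1
  have h2 := AddSubgroup.card_mul_index φ.range
  have h3 : φ.range.index = 2 := by
    have h4 : 0 < Nat.card φ.range := Nat.card_pos
    have h5 : Nat.card φ.range * φ.range.index = Nat.card φ.range * 2 := by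
      rw [h2, ← h1]
      ring
    exact Nat.eq_of_mul_eq_mul_left h4 h5
  have h4 := (AddSubgroup.add_mem_iff_of_index_two h3 (a := a) (b := b)).2 (by
    constructor
    · rintro ⟨c, hc⟩
      exact absurd hc (ha c)
    · rintro ⟨c, hc⟩
      exact absurd hc (hb c))
  exact h4

theorem Y2_plane {K W : Type} [Field K] [Finite K] [AddCommGroup W] [Module K W]
    (two : (2 : K) = 0) {f : W → W → K} (hf : IsHF (RingHom.id K) 1 f)
    {Q : W → K} (hQ : IsQF f Q) (h : nz Q = 1) [Nontrivial W] :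
    ∃ v w, Q v = 1 ∧ f v w = 1 ∧ ∀ c, c * c + c ≠ Q w := by
  have han := (Y2_aniso hQ).1 h
  obtain ⟨x, hx⟩ := exists_ne (0 : W)
  have hx1 : Q x ≠ 0 := fun h => hx (han x h)
  have hring : ringChar K = 2 := by
    have hd : ringChar K ∣ 2 := by
      rw [← ringChar.spec]
      exact_mod_cast two
    rcases (Nat.dvd_prime Nat.prime_two).1 hd with h | h
    · exfalso
      have h1 := ringChar.Nat.cast_ringChar (R := K)
      rw [h] at h1
      exact one_ne_zero (by exact_mod_cast h1)
    · exact h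
  obtain ⟨s, hs⟩ := FiniteField.isSquare_of_char_two hring (Q x)
  have hs0 : s ≠ 0 := by
    rintro rfl
    apply hx1
    rw [hs, zero_mul]
  have hv : Q (s⁻¹ • x) = 1 := by
    rw [hQ.smul, hs]
    field_simp
  have hv0 : s⁻¹ • x ≠ 0 := smul_ne_zero (inv_ne_zero hs0) hx
  generalize s⁻¹ • x = v at hv hv0
  obtain ⟨w, hw⟩ : ∃ w, f v w ≠ 0 := by
    by_contra hcon
    push Not at hcon
    exact hv0 (hf.nondeg v hcon)
  have h1 : f v ((f v w)⁻¹ • w) = 1 := by rw [Y1_smul_right hf, inv_mul_cancel₀ hw]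
  have hvv : f v v = 0 := by
    have h3 := hQ.add v v
    have h4 : v + v = (0 : K) • v := by rw [← two, two_smul]
    rw [h4, hQ.smul] at h3
    linear_combination (-1) * h3 - (Q v) * two
  generalize (f v w)⁻¹ • w = w' at h1
  refine ⟨v, w', hv, h1, fun c hc => ?_⟩
  have h2 : Q (w' + c • v) = 0 := by
    rw [hQ.add, hQ.smul, hv, Y1_smul_right hf, Y2_sym hf v, h1]
    linear_combination (Q w') * two + hc
  have h3 := han _ h2
  have h4 : f v (w' + c • v) = 1 := by
    rw [Y1_add_right hf, Y1_smul_right hf, hvv, h1]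
    ring
  have h5 : f v (0 : W) = 0 := by
    have := Y1_smul_right hf 0 v 0
    rw [zero_smul, zero_mul] at this
    exact this
  rw [h3, h5] at h4
  exact zero_ne_one h4

theorem Y2_triv {K W W' : Type} [Field K] [AddCommGroup W] [Module K W]
    [FiniteDimensional K W] [AddCommGroup W'] [Module K W'] [FiniteDimensional K W']
    {f : W → W → K} {f' : W' → W' → K} {Q : W → K} {Q' : W' → K}
    (hQ : IsQF f Q) (hQ' : IsQF f' Q') (h : finrank K W = 0) (h' : finrank K W' = 0) :
    ∃ φ : W ≃ₗ[K] W', ∀ v, Q' (φ v) = Q v := by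
  have h1 : Subsingleton W := Module.finrank_zero_iff.1 h
  refine ⟨LinearEquiv.ofFinrankEq W W' (h.trans h'.symm), fun v => ?_⟩
  rw [Subsingleton.elim v 0, map_zero, Y2_zero hQ, Y2_zero hQ']

theorem Y2_main2 (K : Type) [Field K] [Finite K] (two : (2 : K) = 0) (n : ℕ) :
    ∀ (W W' : Type) [AddCommGroup W] [Module K W]
    [FiniteDimensional K W] [AddCommGroup W'] [Module K W'] [FiniteDimensional K W']
    (f : W → W → K) (f' : W' → W' → K) (_ : IsHF (RingHom.id K) 1 f)
    (_ : Alt f) (_ : IsHF (RingHom.id K) 1 f') (_ : Alt f') (Q : W → K) (Q' : W' → K)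
    (_ : IsQF f Q) (_ : IsQF f' Q') (_ : finrank K W = n) (_ : finrank K W' = n)
    (_ : nz Q = nz Q'), ∃ φ : W ≃ₗ[K] W', ∀ v, Q' (φ v) = Q v := by
  induction n using Nat.strong_induction_on with
  | _ n ih =>
    intro W W' _ _ _ _ _ _ f f' hf ha hf' ha' Q Q' hQ hQ' hn hn' hnz
    by_cases h : nz Q = 1
    · have h' : nz Q' = 1 := hnz.symm.trans h
      rcases Y2_nz1 two hf ha hQ h with h0 | h0
      · exact Y2_triv hQ hQ' h0 (hn'.trans (hn.symm.trans h0))
      · have hnt : Nontrivial W := Module.nontrivial_of_finrank_pos (R := K) (by omega)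
        have hnt' : Nontrivial W' := Module.nontrivial_of_finrank_pos (R := K) (by omega)
        obtain ⟨v, w, hv, hvw, hw⟩ := Y2_plane two hf hQ h
        obtain ⟨v', w', hv', hvw', hw'⟩ := Y2_plane two hf' hQ' h'
        obtain ⟨c, hc⟩ := Y2_index K two _ _ hw hw'
        have hvw2 : f v (w + c • v) = 1 := by
          rw [Y1_add_right hf, Y1_smul_right hf, ha v, hvw]
          ring
        have hw2 : Q' w' = Q (w + c • v) := by
          rw [hQ.add, hQ.smul, hv, Y1_smul_right hf, Y2_sym hf v, hvw]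
          linear_combination (-1) * hc - (Q w) * two
        obtain ⟨hP, e, he⟩ := Y2_dec two hf ha v (w + c • v) hvw2
        obtain ⟨hP', e', he'⟩ := Y2_dec two hf' ha' v' w' hvw'
        have hdim := Y2_dim e
        have hdim' := Y2_dim e'
        obtain ⟨φ, hφ⟩ := Y2_triv (Y2_res hQ (Y1_P hf v (w + c • v)))
          (Y2_res hQ' (Y1_P hf' v' w')) (by omega) (by omega)
        exact Y2_glue two hf ha hf' ha' hQ hQ' v (w + c • v) v' w' hvw2 hvw' (hv'.trans hv.symm)
          hw2 φ hφ
    · have h' : nz Q' ≠ 1 := fun h1 => h (hnz.trans h1)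
      obtain ⟨v, w, hv, hw, hvw⟩ := Y2_hyp two hf hQ h
      obtain ⟨v', w', hv', hw', hvw'⟩ := Y2_hyp two hf' hQ' h'
      obtain ⟨hP, e, he⟩ := Y2_dec two hf ha v w hvw
      obtain ⟨hP', e', he'⟩ := Y2_dec two hf' ha' v' w' hvw'
      have hdim := Y2_dim e
      have hdim' := Y2_dim e'
      have h2 := Y2_rec two hf ha hQ v w hv hw hvw
      have h3 := Y2_rec two hf' ha' hQ' v' w' hv' hw' hvw'
      have hdd : finrank K (Y1_P hf v w) = finrank K (Y1_P hf' v' w') := by omega
      rw [hnz, hn, ← hn', h3, hdd] at h2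
      have hq : (1 : ℤ) < Nat.card K := by exact_mod_cast (Finite.one_lt_card (α := K))
      have hq0 : (Nat.card K : ℤ) ≠ 0 := by linarith
      have h4 := mul_left_cancel₀ hq0 h2
      have h5 : (Nat.card K : ℤ) * nz (resQ Q (Y1_P hf v w)) =
          Nat.card K * nz (resQ Q' (Y1_P hf' v' w')) := by linarith
      have h6 : nz (resQ Q (Y1_P hf v w)) = nz (resQ Q' (Y1_P hf' v' w')) := by
        exact_mod_cast mul_left_cancel₀ hq0 h5
      obtain ⟨φ, hφ⟩ := ih (finrank K (Y1_P hf v w)) (by omega) _ _ _ _ hP (fun x => ha x) hP'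
        (fun x => ha' x) _ _ (Y2_res hQ _) (Y2_res hQ' _) rfl hdd.symm h6
      exact Y2_glue two hf ha hf' ha' hQ hQ' v w v' w' hvw hvw' (hv'.trans hv.symm)
        (hw'.trans hw.symm) φ hφ

theorem nz_sq (K W : Type) [Field K] [Finite K] [AddCommGroup W] [Module K W]
    [FiniteDimensional K W] (two : (2 : K) = 0) (f : W → W → K) (hf : IsHF (RingHom.id K) 1 f)
    (ha : Alt f) (Q : W → K) (hQ : IsQF f Q) :
    ((Nat.card K : ℤ) * nz Q - (Nat.card K : ℤ) ^ finrank K W) ^ 2
      = ((Nat.card K : ℤ) - 1) ^ 2 * (Nat.card K : ℤ) ^ finrank K W :=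
  Y2_main1 K two _ W f hf ha Q hQ rfl

theorem iso_quad2 (K W W' : Type) [Field K] [Finite K] [AddCommGroup W] [Module K W]
    [FiniteDimensional K W] [AddCommGroup W'] [Module K W'] [FiniteDimensional K W']
    (two : (2 : K) = 0) (f : W → W → K) (f' : W' → W' → K) (hf : IsHF (RingHom.id K) 1 f)
    (ha : Alt f) (hf' : IsHF (RingHom.id K) 1 f') (ha' : Alt f') (Q : W → K) (Q' : W' → K)
    (hQ : IsQF f Q) (hQ' : IsQF f' Q') (h : finrank K W = finrank K W') (hn : nz Q = nz Q') :
    ∃ φ : W ≃ₗ[K] W', (∀ v w, f' (φ v) (φ w) = f v w) ∧ ∀ v, Q' (φ v) = Q v := by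
  obtain ⟨φ, hφ⟩ := Y2_main2 K two _ W W' f f' hf ha hf' ha' Q Q' hQ hQ' rfl h.symm hn
  refine ⟨φ, fun v w => ?_, hφ⟩
  have h1 := hQ.add v w
  have h2 := hQ'.add (φ v) (φ w)
  rw [← map_add, hφ, hφ, hφ] at h2
  linear_combination h1 - h2

end Pool.Agent.CTE
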