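import Pool.Agent.CTE.X4b
import Pool.Agent.CTE.Y2

/-!
# CTE.X4: the criterion in the orthogonal case, characteristic two

Compare `critBD_iff` in `CTO/X4.lean` (copy the structure; `hpar` there; `ζ` is empty by `empty2`). Selfadjoint idempotents of `algA` are
the `mSZ S ∅` (`selfadj_idem`, `mSZ_spec`). `IsoSpQ f Q (range (mSZ S ∅)) (range (mSZ S' ∅))` iff `∑_S lenA = ∑_S' lenA` and the numbers
of negative `k` in `S`, `S'` have the same parity: `→` the isometry gives equal dimensions (`rank_mSZ`) and equal numbers of zeros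
(`nz_congr`), so `(-1)^..` agree by `zeros_S` (`q - 1 ≠ 0`, `q ≠ 0`); `←` by `zeros_S` the numbers of zeros agree, and `iso_quad2`
applies to `resF f W`, `resQ Q W` (`X3_res` or `X4_res`, `adQ_qf`). Then `siso_iff` (`ε = 1`).
-/

namespace Pool.Agent.CTE

open Module Pool.Agent.CTO

variable {K : Type} [Field K] [Finite K] {ι κ : Type} {ζ : Type} [Fintype ι] [Fintype κ]
  [Fintype ζ] {P : ι → Type} {L : κ → Type} [∀ i, Field (P i)] [∀ i, Algebra K (P i)]
  [∀ j, Field (L j)] [∀ j, Algebra K (L j)] [∀ i, FiniteDimensional K (P i)]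
  [∀ j, FiniteDimensional K (L j)]

lemma X4_hpar : ∀ a b : ℕ, (-1 : ℤ) ^ a = (-1) ^ b ↔ (Even a ↔ Even b) := by
  intro a b
  rcases Nat.even_or_odd a with ha | ha <;> rcases Nat.even_or_odd b with hb | hb
  · rw [ha.neg_one_pow, hb.neg_one_pow]
    exact ⟨fun _ => ⟨fun _ => hb, fun _ => ha⟩, fun _ => rfl⟩
  · rw [ha.neg_one_pow, hb.neg_one_pow]
    exact ⟨fun h => by norm_num at h, fun h => absurd (h.1 ha) (Nat.not_even_iff_odd.2 hb)⟩
  · rw [ha.neg_one_pow, hb.neg_one_pow]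
    exact ⟨fun h => by norm_num at h, fun h => absurd (h.2 hb) (Nat.not_even_iff_odd.2 ha)⟩
  · rw [ha.neg_one_pow, hb.neg_one_pow]
    exact ⟨fun _ => ⟨fun h => absurd h (Nat.not_even_iff_odd.2 ha),
      fun h => absurd h (Nat.not_even_iff_odd.2 hb)⟩, fun _ => rfl⟩

theorem critD2_iff (two : (2 : K) = 0) (f : TorAlg K ζ P L → TorAlg K ζ P L → K)
    (hf : IsHF (RingHom.id K) 1 f) (ha : Alt f) (τ : ∀ j, L j ≃ₐ[K] L j)
    (hτ : ∀ j x, τ j (τ j x) = x) (hτ' : ∀ j, ∃ x, τ j x ≠ x) (had : Adapted τ f)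
    (Q : TorAlg K ζ P L → K) (hQ : AdQ f (algA K ζ P L) Q) :
    CritQ f Q (algA K ζ P L) ↔ DistinctBD K P L := by
  have hempty : IsEmpty ζ := empty2 f hf ha τ had
  have hZ0 : ∀ Z : Finset ζ, Z = ∅ := fun Z => Finset.eq_empty_of_isEmpty Z
  have hqf : IsQF f Q := adQ_qf two f hf ha _ Q hQ
  have hq0 : (Nat.card K : ℤ) ≠ 0 := by
    have h1 : Nat.card K ≠ 0 := Nat.card_pos.ne'
    exact_mod_cast h1
  have hq1 : (Nat.card K : ℤ) - 1 ≠ 0 := by
    have h1 : 1 < Nat.card K := Finite.one_lt_card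
    have h2 : (1 : ℤ) < (Nat.card K : ℤ) := by exact_mod_cast h1
    exact ne_of_gt (sub_pos.2 h2)
  have hres : ∀ S : Finset (ι ⊕ κ),
      IsHF (RingHom.id K) 1 (resF f (LinearMap.range (mSZ K P L S (∅ : Finset ζ)))) := by
    intro S
    obtain ⟨-, hee, hea⟩ := mSZ_spec 1 f hf τ had S (∅ : Finset ζ)
    exact X4_res hf hee hea
  have hresQ : ∀ W : Submodule K (TorAlg K ζ P L), IsQF (resF f W) (resQ Q W) := fun W =>
    ⟨fun c v => hqf.smul c v, fun v w => hqf.add v w⟩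
  have hiso : ∀ S S' : Finset (ι ⊕ κ),
      IsoSpQ f Q (LinearMap.range (mSZ K P L S (∅ : Finset ζ)))
        (LinearMap.range (mSZ K P L S' (∅ : Finset ζ))) ↔
        (∑ k ∈ S, lenA K P L k = ∑ k ∈ S', lenA K P L k ∧
          (Even (Multiset.card (S.val.filter fun k => k.isRight)) ↔
            Even (Multiset.card (S'.val.filter fun k => k.isRight)))) := by
    intro S S'
    have hz := zeros_S two f hf ha τ hτ hτ' had Q hQ S
    have hz' := zeros_S two f hf ha τ hτ hτ' had Q hQ S'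
    constructor
    · rintro ⟨φ, hφ, hφ'⟩
      have h1 := φ.finrank_eq
      rw [rank_mSZ τ hτ hτ', rank_mSZ τ hτ hτ'] at h1
      have hsum : ∑ k ∈ S, lenA K P L k = ∑ k ∈ S', lenA K P L k := by omega
      refine ⟨hsum, ?_⟩
      have h2 : nz (resQ Q (LinearMap.range (mSZ K P L S (∅ : Finset ζ)))) =
          nz (resQ Q (LinearMap.range (mSZ K P L S' (∅ : Finset ζ)))) :=
        nz_congr φ.toEquiv _ _ hφ'
      rw [h2, hz', hsum] at hz
      have h3 := add_left_cancel hz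
      have h4 := mul_right_cancel₀ hq1 (mul_right_cancel₀ (pow_ne_zero _ hq0) h3)
      exact ((X4_hpar _ _).1 h4).symm
    · rintro ⟨hsum, hev⟩
      have h2 : nz (resQ Q (LinearMap.range (mSZ K P L S (∅ : Finset ζ)))) =
          nz (resQ Q (LinearMap.range (mSZ K P L S' (∅ : Finset ζ)))) := by
        rw [hsum, (X4_hpar _ _).2 hev, ← hz'] at hz
        have h3 := mul_left_cancel₀ hq0 hz
        exact_mod_cast h3
      have h1 : finrank K (LinearMap.range (mSZ K P L S (∅ : Finset ζ))) =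
          finrank K (LinearMap.range (mSZ K P L S' (∅ : Finset ζ))) := by
        rw [rank_mSZ τ hτ hτ', rank_mSZ τ hτ hτ', hsum]
      exact iso_quad2 K _ _ two _ _ (hres S) (fun v => ha v) (hres S') (fun v => ha v)
        (resQ Q (LinearMap.range (mSZ K P L S (∅ : Finset ζ))))
        (resQ Q (LinearMap.range (mSZ K P L S' (∅ : Finset ζ)))) (hresQ _) (hresQ _) h1 h2
  constructor
  · intro hcrit S S' hsum hev
    obtain ⟨m1, h1, h1'⟩ := mSZ_spec 1 f hf τ had S (∅ : Finset ζ)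
    obtain ⟨m2, h2, h2'⟩ := mSZ_spec 1 f hf τ had S' (∅ : Finset ζ)
    have h3 := (hiso S S').2 ⟨hsum, hev⟩
    have h4 := hcrit _ m1 _ m2 h1 h1' h2 h2' h3
    exact ((siso_iff 1 f hf τ hτ hτ' had S S' ∅ ∅).1 h4).2
  · intro hBD e he e' he' hee hea hee' hea' hI
    obtain ⟨S, Z, rfl⟩ := selfadj_idem 1 f hf τ had e he hee hea
    obtain ⟨S', Z', rfl⟩ := selfadj_idem 1 f hf τ had e' he' hee' hea'
    rw [siso_iff 1 f hf τ hτ hτ' had]
    obtain rfl := hZ0 Z
    obtain rfl := hZ0 Z'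
    obtain ⟨h1, h2⟩ := (hiso S S').1 hI
    exact ⟨rfl, hBD S S' h1 h2⟩

end Pool.Agent.CTE
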