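import Pool.Agent.CTE.G6

/-!
# CTE.Z2: `EUQ` is the commutator subgroup

`dim V ≥ 3`, `|K| > 4`.
* `EUQ_le_comm`: for a Siegel transformation `E(u, w)`, `u ≠ 0` (if `u = 0` it is `1`), let `u'` with `f u u' = 1`, `Q u' = 0`,
  and as in the header of CTE.W1 we may assume `w ∈ ⟨u, u'⟩^⊥`. With `λ(s) x = x + (s - 1) f(x,u') u + (s⁻¹ - 1) f(x,u) u'` in
  `OQ f Q` (`s ≠ 0, 1`): `λ(s) E(u, w1) λ(s)⁻¹ E(u, w1)⁻¹ = E(u, (s - 1) w1)`; take `w1 = (s - 1)⁻¹ w`. (Another proof: `E(u,w)` is even,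
  so by `even_mem`-like arguments a product of pairs of reflections `r_a r_b`, and with `Q a = Q b` (scaling) `r_b = g r_a g⁻¹`,
  `g ∈ OQ` by `trans_Q`, so `r_a r_b = r_a g r_a⁻¹ g⁻¹` is a commutator: `EUQ ≤ OQ`, `refl_gen2`, `EUQ_even`.)
* `comm_even`: the commutator of two elements of `OQ` is even (`dick_mul`), closure induction.
-/

namespace Pool.Agent.CTE

open Module Pool.Agent.CTO

variable {K V : Type} [Field K] [Finite K] [AddCommGroup V] [Module K V] [FiniteDimensional K V]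

theorem Z2_symm {f : V → V → K} (hf : IsHF (RingHom.id K) 1 f) (v w : V) : f w v = f v w := by
  rw [hf.herm v w, one_mul]
  rfl

theorem Z2_add_right {f : V → V → K} (hf : IsHF (RingHom.id K) 1 f) (u v w : V) :
    f u (v + w) = f u v + f u w := by
  rw [Z2_symm hf (v + w) u, hf.add_left, Z2_symm hf u v, Z2_symm hf u w]

theorem Z2_smul_right {f : V → V → K} (hf : IsHF (RingHom.id K) 1 f) (k : K) (v w : V) :
    f v (k • w) = k * f v w := by
  rw [Z2_symm hf (k • w) v, hf.smul_left, Z2_symm hf v w]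

theorem Z2_zero_right {f : V → V → K} (hf : IsHF (RingHom.id K) 1 f) (v : V) :
    f v 0 = 0 := by
  have := Z2_smul_right hf 0 v 0
  rw [zero_smul, zero_mul] at this
  exact this

theorem Z2_nz (two : (2 : K) = 0) (h4 : 4 < Nat.card K) : ∃ s : K, s ≠ 0 ∧ s + 1 ≠ 0 := by
  by_contra hcon
  push Not at hcon
  have h1 : (Set.univ : Set K) ⊆ {0, 1} := by
    intro s _
    by_cases hs : s = 0
    · left; exact hs
    · right
      have h2 := hcon s hs
      change s = 1
      linear_combination h2 - two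
  have h2 : (Set.univ : Set K).ncard ≤ 2 := by
    calc (Set.univ : Set K).ncard ≤ ({0, 1} : Set K).ncard := Set.ncard_le_ncard h1 (by simp)
      _ ≤ 2 := by
        rw [Set.ncard_pair zero_ne_one]
  rw [Set.ncard_univ] at h2
  omega

open scoped commutatorElement in
theorem Z2_sieg (two : (2 : K) = 0) (h4 : 4 < Nat.card K) (f : V → V → K)
    (hf : IsHF (RingHom.id K) 1 f) (ha : Alt f) (Q : V → K) (hQ : IsQF f Q) (g : V ≃ₗ[K] V)
    (hg : g ∈ SiegSet f Q) : g ∈ ⁅OQ f Q, OQ f Q⁆ := by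
  obtain ⟨u, w0, hu, hwu0, hg0⟩ := hg
  by_cases hu0 : u = 0
  · have : g = 1 := by
      apply LinearEquiv.ext
      intro x
      rw [hg0, hu0, Z2_zero_right hf]
      simp
    rw [this]
    exact one_mem _
  -- the vector u'
  obtain ⟨y, hy⟩ : ∃ y, f u y = 1 := by
    have h1 : ∃ w, f u w ≠ 0 := by
      by_contra hcon
      push Not at hcon
      exact hu0 (hf.nondeg u hcon)
    obtain ⟨w, hw⟩ := h1
    refine ⟨(f u w)⁻¹ • w, ?_⟩
    rw [Z2_smul_right hf, inv_mul_cancel₀ hw]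
  obtain ⟨u', hu'⟩ : ∃ u', u' = y + Q y • u := ⟨_, rfl⟩
  have huu' : f u u' = 1 := by
    rw [hu', Z2_add_right hf, Z2_smul_right hf, ha u, hy, mul_zero, add_zero]
  have hQu' : Q u' = 0 := by
    rw [hu', hQ.add, hQ.smul, hu, Z2_smul_right hf, Z2_symm hf u y, hy]
    linear_combination (Q y) * two
  -- the vector w
  obtain ⟨w, hw⟩ : ∃ w, w = w0 + f w0 u' • u := ⟨_, rfl⟩
  have hwu : f w u = 0 := by
    rw [hw, hf.add_left, hf.smul_left, ha u, hwu0, mul_zero, add_zero]
  have hwu' : f w u' = 0 := by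
    rw [hw, hf.add_left, hf.smul_left, huu']
    linear_combination (f w0 u') * two
  have hQw : Q w = Q w0 := by
    rw [hw, hQ.add, hQ.smul, hu, Z2_smul_right hf, hwu0]
    ring
  have hg1 : ∀ x, g x = x + f x u • w + f x w • u + (Q w * f x u) • u := by
    intro x
    rw [hg0, hQw, hw, Z2_add_right hf, Z2_smul_right hf]
    match_scalars
    · ring
    · ring
    · linear_combination (-(f w0 u' * f x u)) * two
  obtain ⟨s, hs0, hs1⟩ := Z2_nz two h4
  -- the torus element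
  obtain ⟨t1, ht1⟩ : ∃ t1, t1 = u + u' := ⟨_, rfl⟩
  obtain ⟨t2, ht2⟩ : ∃ t2, t2 = u + s • u' := ⟨_, rfl⟩
  have hQ1 : Q t1 = 1 := by
    rw [ht1, hQ.add, hu, hQu', huu', zero_add, zero_add]
  have hQ2 : Q t2 = s := by
    rw [ht2, hQ.add, hu, hQ.smul, hQu', Z2_smul_right hf, huu']
    ring
  obtain ⟨r1, hr1⟩ := exists_reflQ two f hf ha Q hQ t1 (by rw [hQ1]; exact one_ne_zero)
  obtain ⟨r2, hr2⟩ := exists_reflQ two f hf ha Q hQ t2 (by rw [hQ2]; exact hs0)
  have hm1 := (reflQ_mem two f hf ha Q hQ t1 r1 hr1).1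
  have hm2 := (reflQ_mem two f hf ha Q hQ t2 r2 hr2).1
  obtain ⟨l, hl⟩ : ∃ l, l = r1 * r2 := ⟨_, rfl⟩
  have hlm : l ∈ OQ f Q := by
    rw [hl]
    exact mul_mem hm1 hm2
  have hu'u : f u' u = 1 := by rw [Z2_symm hf u u', huu']
  have hlu : l u = s • u := by
    have h1 : r2 u = s • u' := by
      rw [hr2.2, hQ2, ht2, Z2_add_right hf, Z2_smul_right hf, ha u, huu']
      match_scalars
      · field_simp
        linear_combination s * two
      · field_simp
        ring
    rw [hl, LinearEquiv.mul_apply, h1, map_smul, hr1.2, hQ1, ht1, Z2_add_right hf, ha u', hu'u]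
    match_scalars
    · linear_combination s * two
    · ring
  have hlw : ∀ z, f z u = 0 → f z u' = 0 → l z = z := by
    intro z h1 h2
    rw [hl, LinearEquiv.mul_apply, hr2.2, ht2, Z2_add_right hf, Z2_smul_right hf, h1, h2, mul_zero,
      add_zero, zero_div, zero_smul, add_zero, hr1.2, ht1, Z2_add_right hf, h1, h2,
      add_zero, zero_div, zero_smul, add_zero]
  -- the vector w1
  obtain ⟨w1, hw1⟩ : ∃ w1, w1 = (s + 1)⁻¹ • w := ⟨_, rfl⟩
  have hw1' : w = (s + 1) • w1 := by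
    rw [hw1, smul_smul, mul_inv_cancel₀ hs1, one_smul]
  have hw1u : f w1 u = 0 := by rw [hw1, hf.smul_left, hwu, mul_zero]
  have hw1u' : f w1 u' = 0 := by rw [hw1, hf.smul_left, hwu', mul_zero]
  obtain ⟨E, hE⟩ := exists_sieg two f hf ha Q hQ u w1 hu hw1u
  have hEm : E ∈ OQ f Q := EUQ_le two f hf ha Q hQ
    (Subgroup.subset_closure ⟨u, w1, hu, hw1u, hE⟩)
  have hkey : l * E = g * (E * l) := by
    apply LinearEquiv.ext
    intro x
    rw [LinearEquiv.mul_apply, LinearEquiv.mul_apply, LinearEquiv.mul_apply]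
    obtain ⟨z, hz⟩ : ∃ z, z = l x := ⟨_, rfl⟩
    have h1 : f x u = s * f z u := by
      have h2 := hlm.1 x u
      rw [hlu, Z2_smul_right hf, ← hz] at h2
      exact h2.symm
    have h2 : f x w1 = f z w1 := by
      have h3 := hlm.1 x w1
      rw [hlw w1 hw1u hw1u', ← hz] at h3
      exact h3.symm
    have h3 : l (E x) = z + (s * f z u) • w1 + (f z w1 * s) • u + (Q w1 * (s * f z u) * s) • u := by
      rw [hE, map_add, map_add, map_add, map_smul, map_smul, map_smul, hlu, hlw w1 hw1u hw1u',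
        ← hz, h1, h2, smul_smul, smul_smul]
    have h4 : f (E z) u = f z u := by
      rw [hE, hf.add_left, hf.add_left, hf.add_left, hf.smul_left, hf.smul_left, hf.smul_left,
        ha u, hw1u]
      ring
    have h5 : f (E z) w1 = f z w1 := by
      rw [hE, hf.add_left, hf.add_left, hf.add_left, hf.smul_left, hf.smul_left, hf.smul_left,
        ha w1, Z2_symm hf w1 u, hw1u]
      ring
    rw [h3, ← hz, hg1, h4, hw1', Z2_smul_right hf, h5, hQ.smul, hE z]
    match_scalars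
    · ring
    · linear_combination (-(f z u)) * two
    · linear_combination (-(f z w1) - Q w1 * f z u - s * (Q w1 * f z u)) * two
  have hfin : g = ⁅l, E⁆ := by
    rw [commutatorElement_def, hkey]
    group
  rw [hfin]
  exact Subgroup.commutator_mem_commutator hlm hEm

theorem EUQ_le_comm (two : (2 : K) = 0) (h4 : 4 < Nat.card K) (f : V → V → K)
    (hf : IsHF (RingHom.id K) 1 f) (ha : Alt f) (Q : V → K) (hQ : IsQF f Q)
    (hV : 3 ≤ finrank K V) : EUQ f Q ≤ ⁅OQ f Q, OQ f Q⁆ := by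
  rw [EUQ, Subgroup.closure_le]
  intro g hg
  exact Z2_sieg two h4 f hf ha Q hQ g hg

theorem Z2_one : DickEven (1 : V ≃ₗ[K] V) := by
  unfold DickEven
  have h1 : (1 : V ≃ₗ[K] V).toLinearMap - LinearMap.id = 0 := by
    rw [sub_eq_zero]
    rfl
  rw [h1, LinearMap.range_zero, finrank_bot]
  exact Even.zero

theorem comm_even (two : (2 : K) = 0) (h4 : 4 < Nat.card K) (f : V → V → K)
    (hf : IsHF (RingHom.id K) 1 f) (ha : Alt f) (Q : V → K) (hQ : IsQF f Q)
    (g : V ≃ₗ[K] V) (hg : g ∈ ⁅OQ f Q, OQ f Q⁆) : g ∈ OQ f Q ∧ DickEven g := by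
  have hinv : ∀ a ∈ OQ f Q, (DickEven a⁻¹ ↔ DickEven a) := by
    intro a h
    have h1 := dick_mul two h4 f hf ha Q hQ a a⁻¹ h (inv_mem h)
    rw [mul_inv_cancel] at h1
    have h2 := h1.1 Z2_one
    tauto
  rw [Subgroup.commutator_def] at hg
  induction hg using Subgroup.closure_induction with
  | mem x hx =>
    obtain ⟨a, haa, b, hb, rfl⟩ := hx
    have hab : a * b ∈ OQ f Q := mul_mem haa hb
    have habi : a * b * a⁻¹ ∈ OQ f Q := mul_mem hab (inv_mem haa)
    rw [commutatorElement_def]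
    refine ⟨mul_mem habi (inv_mem hb), ?_⟩
    rw [dick_mul two h4 f hf ha Q hQ _ _ habi (inv_mem hb),
      dick_mul two h4 f hf ha Q hQ _ _ hab (inv_mem haa),
      dick_mul two h4 f hf ha Q hQ _ _ haa hb, hinv a haa, hinv b hb]
    tauto
  | one => exact ⟨one_mem _, Z2_one⟩
  | mul x y _ _ hx hy =>
    refine ⟨mul_mem hx.1 hy.1, ?_⟩
    rw [dick_mul two h4 f hf ha Q hQ _ _ hx.1 hy.1]
    exact ⟨fun _ => hy.2, fun _ => hx.2⟩
  | inv x _ hx => exact ⟨inv_mem hx.1, (hinv x hx.1).2 hx.2⟩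

end Pool.Agent.CTE
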