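import Pool.Agent.CTE.G6
import Pool.Agent.CTE.Y2
import Pool.Agent.CTO.Z3

/-!
# CTE.Z3: Witt's theorem for nondegenerate subspaces, characteristic two

`W` a subspace on which `f` is nondegenerate. Compare `witt_ext`, `witt_EU` in `CTO/Z3.lean`; `Z3_resHF`, `Z3_compl`,
`Z3_perp_nd`, `Z3_nd'`, `Z3_glue` can be used (with `ε = 1`).
* `witt_ext2`: `IsoSp f W W'`: the orthogonal spaces have the same dimension, `iso_alt2` gives an isometry of them; glue.
* `wittQ`: `IsoSpQ f Q W W'`: let `R = W^⊥`, `R' = W'^⊥`. By `nz_sum` for `V = W ⊕ R` and for `V = W' ⊕ R'`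
  (`Q (w + r) = Q w + Q r`; `|W| = q ^ dim W` etc.) `(q nz(Q|W) - q^a)(q nz(Q|R) - q^b) = (q nz(Q|W') - q^a)(q nz(Q|R') - q^b)`,
  `nz(Q|W) = nz(Q|W')` (`nz_congr`), and `q nz(Q|W) - q^a ≠ 0` by `nz_sq` (`q ≥ 2`). So `nz(Q|R) = nz(Q|R')`, and `iso_quad2` gives
  an isometry of `R` and `R'` for `f` and `Q`; glue: `Q (φ w + ψ r) = Q w + Q r`.
* `wittEUQ`: let `g` be as in `wittQ`. If it is not even: one of `W'`, `W'^⊥` is nonzero and `f` is nondegenerate on it, so it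
  contains `u` with `Q u ≠ 0`; the reflection `r_u` maps `W'` to itself; `r_u g` is even (`dick_refl`). `even_mem`.
-/

namespace Pool.Agent.CTE

open Module Pool.Agent.CTO

variable {K V : Type} [Field K] [Finite K] [AddCommGroup V] [Module K V] [FiniteDimensional K V]

omit [Finite K] in
theorem Z3_glueQ {f : V → V → K} (hf : IsHF (RingHom.id K) 1 f) {Q : V → K} (hQ : IsQF f Q)
    (W W' : Submodule K V)
    (hW : ∀ v ∈ W, (∀ w ∈ W, f v w = 0) → v = 0) (hW' : ∀ v ∈ W', (∀ w ∈ W', f v w = 0) → v = 0)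
    (φ : W ≃ₗ[K] W') (hφ : ∀ v w : W, f (φ v) (φ w) = f v w) (hφQ : ∀ v : W, Q (φ v) = Q v)
    (ψ : perp (RingHom.id K) 1 f hf W ≃ₗ[K] perp (RingHom.id K) 1 f hf W')
    (hψ : ∀ v w, f (ψ v) (ψ w) = f v w) (hψQ : ∀ v, Q (ψ v) = Q v) :
    ∃ g ∈ OQ f Q, ∀ w : W, g w = φ w := by
  let e := Submodule.prodEquivOfIsCompl W (perp (RingHom.id K) 1 f hf W) (Z3_compl hf W hW)
  let e' := Submodule.prodEquivOfIsCompl W' (perp (RingHom.id K) 1 f hf W') (Z3_compl hf W' hW')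
  have he : ∀ x, e x = (x.1 : V) + x.2 := fun x => rfl
  have he' : ∀ x, e' x = (x.1 : V) + x.2 := fun x => rfl
  let g : V ≃ₗ[K] V := (e.symm.trans (LinearEquiv.prodCongr φ ψ)).trans e'
  have hg : ∀ x, g (e x) = (φ x.1 : V) + ψ x.2 := by
    intro x
    show e' ((LinearEquiv.prodCongr φ ψ) (e.symm (e x))) = _
    rw [e.symm_apply_apply, he']
    rfl
  refine ⟨g, ⟨?_, ?_⟩, ?_⟩
  · intro v w
    obtain ⟨x, rfl⟩ := e.surjective v
    obtain ⟨y, rfl⟩ := e.surjective w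
    rw [hg, hg, he, he, Z3_orth hf (φ x.1).2 (ψ x.2).2 (φ y.1).2 (ψ y.2).2,
      Z3_orth hf x.1.2 x.2.2 y.1.2 y.2.2, hφ, hψ]
  · intro v
    obtain ⟨x, rfl⟩ := e.surjective v
    rw [hg, he, hQ.add, hQ.add, Z3_symm0 hf ((ψ x.2).2 _ (φ x.1).2),
      Z3_symm0 hf (x.2.2 _ x.1.2), hφQ, hψQ]
  · intro w
    have h1 := hg (w, 0)
    rw [he] at h1
    simpa using h1

omit [Finite K] [FiniteDimensional K V] in
theorem Z3_map {W W' : Submodule K V} (φ : W ≃ₗ[K] W') (g : V ≃ₗ[K] V) (hg : ∀ w : W, g w = φ w) :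
    W.map g.toLinearMap = W' := by
  ext v
  constructor
  · rintro ⟨w, hw, rfl⟩
    show g w ∈ W'
    rw [hg ⟨w, hw⟩]
    exact (φ _).2
  · intro hv
    refine ⟨φ.symm ⟨v, hv⟩, (φ.symm _).2, ?_⟩
    show g _ = v
    rw [hg, φ.apply_symm_apply]

theorem witt_ext2 (two : (2 : K) = 0) (f : V → V → K) (hf : IsHF (RingHom.id K) 1 f) (ha : Alt f)
    (W W' : Submodule K V) (hW : ∀ v ∈ W, (∀ w ∈ W, f v w = 0) → v = 0) (hI : IsoSp f W W') :
    ∃ g ∈ Isom f, W.map g.toLinearMap = W' := by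
  obtain ⟨φ, hφ⟩ := hI
  have hW' := Z3_nd' W W' hW φ hφ
  have hC := Z3_compl hf W hW
  have hC' := Z3_compl hf W' hW'
  have hP := Z3_resHF hf _ (Z3_perp_nd hf W hW)
  have hP' := Z3_resHF hf _ (Z3_perp_nd hf W' hW')
  have d1 := Submodule.finrank_add_eq_of_isCompl hC
  have d2 := Submodule.finrank_add_eq_of_isCompl hC'
  have d3 := φ.finrank_eq
  obtain ⟨ψ, hψ⟩ := iso_alt2 K (perp (RingHom.id K) 1 f hf W) (perp (RingHom.id K) 1 f hf W') two
    _ _ hP (fun v => ha _) hP' (fun v => ha _) (by omega)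
  obtain ⟨g, hg, hgφ⟩ := Z3_glue hf W W' hW hW' φ hφ ψ hψ
  exact ⟨g, hg, Z3_map φ g hgφ⟩

theorem Z3_qf {f : V → V → K} {Q : V → K} (hQ : IsQF f Q) (W : Submodule K V) :
    IsQF (resF f W) (resQ Q W) :=
  ⟨fun a v => hQ.smul a v, fun v w => hQ.add v w⟩

/-- the number of zeros of an orthogonal sum -/
theorem Z3_nz (two : (2 : K) = 0) {f : V → V → K} (hf : IsHF (RingHom.id K) 1 f) {Q : V → K}
    (hQ : IsQF f Q) (W : Submodule K V) (hW : ∀ v ∈ W, (∀ w ∈ W, f v w = 0) → v = 0) :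
    ((Nat.card K : ℤ) - 1) * ((Nat.card K : ℤ) * nz Q - (Nat.card K : ℤ) ^ finrank K V) =
      ((Nat.card K : ℤ) * nz (resQ Q W) - (Nat.card K : ℤ) ^ finrank K W) *
      ((Nat.card K : ℤ) * nz (resQ Q (perp (RingHom.id K) 1 f hf W)) -
        (Nat.card K : ℤ) ^ finrank K (perp (RingHom.id K) 1 f hf W)) := by
  have hC := Z3_compl hf W hW
  have d1 := Submodule.finrank_add_eq_of_isCompl hC
  let e := Submodule.prodEquivOfIsCompl W (perp (RingHom.id K) 1 f hf W) hC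
  have he : ∀ x, e x = (x.1 : V) + x.2 := fun x => rfl
  have hfinV : Finite V := Module.finite_of_finite K
  have h1 := nz_sum K W (perp (RingHom.id K) 1 f hf W) V two e.symm.toEquiv (resQ Q W)
    (resQ Q (perp (RingHom.id K) 1 f hf W)) Q (fun a v => hQ.smul a v) (fun a v => hQ.smul a v) (by
      intro u
      obtain ⟨x, rfl⟩ := e.surjective u
      have h2 : e.symm.toEquiv (e x) = x := e.symm_apply_apply x
      rw [h2, he, hQ.add, Z3_symm0 hf (x.2.2 _ x.1.2), add_zero]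
      rfl)
  have c1 : Nat.card W = Nat.card K ^ finrank K W := Module.natCard_eq_pow_finrank
  have c2 : Nat.card (perp (RingHom.id K) 1 f hf W) =
      Nat.card K ^ finrank K (perp (RingHom.id K) 1 f hf W) := Module.natCard_eq_pow_finrank
  rw [c1, c2] at h1
  rw [← d1, pow_add]
  push_cast at h1
  exact h1

theorem wittQ (two : (2 : K) = 0) (f : V → V → K) (hf : IsHF (RingHom.id K) 1 f) (ha : Alt f)
    (Q : V → K) (hQ : IsQF f Q) (W W' : Submodule K V)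
    (hW : ∀ v ∈ W, (∀ w ∈ W, f v w = 0) → v = 0) (hI : IsoSpQ f Q W W') :
    ∃ g ∈ OQ f Q, W.map g.toLinearMap = W' := by
  obtain ⟨φ, hφ, hφQ⟩ := hI
  have hW' := Z3_nd' W W' hW φ hφ
  have hC := Z3_compl hf W hW
  have hC' := Z3_compl hf W' hW'
  have hP := Z3_resHF hf _ (Z3_perp_nd hf W hW)
  have hP' := Z3_resHF hf _ (Z3_perp_nd hf W' hW')
  have d1 := Submodule.finrank_add_eq_of_isCompl hC
  have d2 := Submodule.finrank_add_eq_of_isCompl hC'
  have d3 := φ.finrank_eq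
  have dd : finrank K (perp (RingHom.id K) 1 f hf W) = finrank K (perp (RingHom.id K) 1 f hf W') := by
    omega
  have e1 := Z3_nz two hf hQ W hW
  have e2 := Z3_nz two hf hQ W' hW'
  have e3 : nz (resQ Q W) = nz (resQ Q W') := nz_congr φ.toEquiv _ _ (fun v => hφQ v)
  have e4 := nz_sq K W two (resF f W) (Z3_resHF hf W hW) (fun v => ha _) (resQ Q W) (Z3_qf hQ W)
  have hq : 1 < Nat.card K := Finite.one_lt_card
  have hX : (Nat.card K : ℤ) * nz (resQ Q W) - (Nat.card K : ℤ) ^ finrank K W ≠ 0 := by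
    intro h0
    rw [h0] at e4
    have h5 : ((Nat.card K : ℤ) - 1) ≠ 0 := by
      have : (1 : ℤ) < Nat.card K := by exact_mod_cast hq
      omega
    have h6 : (Nat.card K : ℤ) ^ finrank K W ≠ 0 := by
      have : (0 : ℤ) < Nat.card K := by exact_mod_cast (by omega : 0 < Nat.card K)
      positivity
    have h7 : ((Nat.card K : ℤ) - 1) ^ 2 * (Nat.card K : ℤ) ^ finrank K W ≠ 0 :=
      mul_ne_zero (pow_ne_zero 2 h5) h6
    exact h7 (by rw [← e4]; ring)
  have e5 : nz (resQ Q (perp (RingHom.id K) 1 f hf W)) = nz (resQ Q (perp (RingHom.id K) 1 f hf W')) := by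
    rw [e1, ← e3, ← d3, ← dd] at e2
    have e6 := mul_left_cancel₀ hX e2
    have h0 : (Nat.card K : ℤ) ≠ 0 := by
      have : (0 : ℤ) < Nat.card K := by exact_mod_cast (by omega : 0 < Nat.card K)
      omega
    have e7 : (Nat.card K : ℤ) * (nz (resQ Q (perp (RingHom.id K) 1 f hf W)) : ℤ) =
        (Nat.card K : ℤ) * (nz (resQ Q (perp (RingHom.id K) 1 f hf W')) : ℤ) := by linarith
    exact_mod_cast mul_left_cancel₀ h0 e7
  obtain ⟨ψ, hψ, hψQ⟩ := iso_quad2 K (perp (RingHom.id K) 1 f hf W) (perp (RingHom.id K) 1 f hf W') two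
    _ _ hP (fun v => ha _) hP' (fun v => ha _) (resQ Q _) (resQ Q _) (Z3_qf hQ _) (Z3_qf hQ _) dd e5
  obtain ⟨g, hg, hgφ⟩ := Z3_glueQ hf hQ W W' hW hW' φ hφ hφQ ψ hψ hψQ
  exact ⟨g, hg, Z3_map φ g hgφ⟩

/-- a nonzero space with a nondegenerate form contains a nonsingular vector -/
theorem Z3_nonsing {f : V → V → K} {Q : V → K} (hQ : IsQF f Q) (W : Submodule K V)
    (hW : ∀ v ∈ W, (∀ w ∈ W, f v w = 0) → v = 0) (h0 : W ≠ ⊥) : ∃ u ∈ W, Q u ≠ 0 := by
  by_contra hc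
  push Not at hc
  apply h0
  rw [Submodule.eq_bot_iff]
  intro v hv
  apply hW v hv
  intro w hw
  have h1 := hQ.add v w
  rw [hc v hv, hc w hw, hc _ (W.add_mem hv hw)] at h1
  linear_combination -h1

theorem wittEUQ (two : (2 : K) = 0) (h4 : 4 < Nat.card K) (f : V → V → K)
    (hf : IsHF (RingHom.id K) 1 f) (ha : Alt f) (Q : V → K) (hQ : IsQF f Q)
    (hV : 3 ≤ finrank K V) (W W' : Submodule K V)
    (hW : ∀ v ∈ W, (∀ w ∈ W, f v w = 0) → v = 0) (hI : IsoSpQ f Q W W') :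
    ∃ g ∈ EUQ f Q, W.map g.toLinearMap = W' := by
  obtain ⟨g0, hg0, hg0W⟩ := wittQ two f hf ha Q hQ W W' hW hI
  by_cases hd : DickEven g0
  · exact ⟨g0, even_mem two h4 f hf ha Q hQ hV g0 hg0 hd, hg0W⟩
  obtain ⟨φ, hφ, hφQ⟩ := hI
  have hW' := Z3_nd' W W' hW φ hφ
  have hC' := Z3_compl hf W' hW'
  have d2 := Submodule.finrank_add_eq_of_isCompl hC'
  have hu : ∃ u : V, (u ∈ W' ∨ u ∈ perp (RingHom.id K) 1 f hf W') ∧ Q u ≠ 0 := by
    by_cases h0 : W' = ⊥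
    · obtain ⟨u, hu, hu'⟩ := Z3_nonsing hQ _ (Z3_perp_nd hf W' hW') (by
        intro h1
        have e1 : finrank K W' = 0 := by rw [h0]; exact finrank_bot K V
        have e2 : finrank K (perp (RingHom.id K) 1 f hf W') = 0 := by rw [h1]; exact finrank_bot K V
        omega)
      exact ⟨u, Or.inr hu, hu'⟩
    · obtain ⟨u, hu, hu'⟩ := Z3_nonsing hQ _ hW' h0
      exact ⟨u, Or.inl hu, hu'⟩
  obtain ⟨u, hu, hQu⟩ := hu
  obtain ⟨r, hr⟩ := exists_reflQ two f hf ha Q hQ u hQu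
  have hrm := (reflQ_mem two f hf ha Q hQ u r hr).1
  have hrd := (dick_refl two f hf ha Q hQ g0 hg0 u r hr).2 hd
  refine ⟨r * g0, even_mem two h4 f hf ha Q hQ hV _ (mul_mem hrm hg0) hrd, ?_⟩
  have h1 : W.map (r * g0).toLinearMap = W'.map r.toLinearMap := by
    rw [← hg0W, ← Submodule.map_comp]
    rfl
  rw [h1]
  have h2 : W'.map r.toLinearMap ≤ W' := by
    rintro _ ⟨w, hw, rfl⟩
    show r w ∈ W'
    rw [hr.2]
    rcases hu with hu | hu
    · exact W'.add_mem hw (W'.smul_mem _ hu)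
    · have h3 : f w u = 0 := Z3_symm0 hf (hu w hw)
      rw [h3, zero_div, zero_smul, add_zero]
      exact hw
  apply Submodule.eq_of_le_of_finrank_eq h2
  exact LinearEquiv.finrank_map_eq r W'

end Pool.Agent.CTE
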