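import Pool.Agent.CTE.B1
import Pool.Agent.CTE.G5
import Pool.Agent.CTE.Z5
import Pool.Agent.CTO.Pron
import Pool.Agent.CTO.Q1

/-!
# CTE.Z5n: positive cycles of even length, negative direction, characteristic two

Compare `pron_neg2` in `CTO/Z5.lean` (read its proof; `Z5_restrict`, `Z5_facts` can be used). `M = range (e + s)`; `e + s` is a
selfadjoint idempotent of `A`, so `resF f M` is nondegenerate (`restr_isHF`), alternating, and `resQ Q M` is a quadratic form
with this polar form (`adQ_qf`). Let `P` be the set of all `y` such that there are `ν : Kˣ` and `z ∈ OQ f Q` with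
`y v = ν • z v` for all `v`, and `zM : M ≃ M`, the restriction of `z`, with `DickEven zM`. It is a subgroup by `dick_mul` on `M`
(`DickEven 1` by `dick_one`, so `DickEven zM⁻¹` follows).
(1) `T = Γ ⊓ torGL A ≤ P`: `f (t v) (t w) = μ f v w`; `μ = ν²` (`K` finite of characteristic two), `z = ν⁻¹ t ∈ torGL A` is an isometry of
`f`, preserves `Q` (`adQ_sim` with `μ = 1`), commutes with `e + s`, so `z M = M` (`Z5_restrict`), carries `A` to `A`; `dick_norm`.
(2) `g T g⁻¹ ≤ P`: for `t = ν z` as in (1), `g z g⁻¹ ∈ OQ f Q`, its restriction `gM zM gM⁻¹` is even by `dick_mul`.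
Suppose `Γ ⊓ torGL A` is pronormal (`isPronormal_subgroupOf_iff`): `x ∈ T ⊔ g T g⁻¹` with `x T x⁻¹ = g T g⁻¹`. `x ∈ P`: `x = ν z`. As in the
proof of `pron_neg2` (`hcy`) `x⁻¹ g` carries `A` to `A`, so `y = z⁻¹ g` does (it is a scalar multiple), `y ∈ OQ f Q`, `y M = M`, so `y`
is even on `M` (`dick_norm`), and `g = z y` is even on `M` (`dick_mul`): contradiction.
-/

namespace Pool.Agent.CTE

open Module Pool.Agent.CTO

variable {K V : Type} [Field K] [Finite K] [AddCommGroup V] [Module K V] [FiniteDimensional K V]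

omit [AddCommGroup V] [Module K V] [FiniteDimensional K V] in
private lemma Z5n_sqrt (two : (2 : K) = 0) (a : K) : ∃ b : K, b * b = a := by
  have hinj : Function.Injective (fun b : K => b * b) := by
    intro b c hbc
    have h1 : b * b = c * c := hbc
    have h2 : (b - c) * (b - c) = 0 := by
      have : (b - c) * (b - c) = b * b - c * c + 2 * (c * c - b * c) := by ring
      rw [this, h1, two]; ring
    exact sub_eq_zero.1 (mul_self_eq_zero.1 h2)
  exact Finite.surjective_of_injective hinj a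

/-- The elements that are scalar multiples of isometries which are even on `M`. -/
private def Z5n_P (f : V → V → K) (Q : V → K) (M : Submodule K V)
    (hmul : ∀ a b : M ≃ₗ[K] M, a ∈ OQ (resF f M) (resQ Q M) → b ∈ OQ (resF f M) (resQ Q M) →
      (DickEven (a * b) ↔ (DickEven a ↔ DickEven b))) : Subgroup (V ≃ₗ[K] V) where
  carrier := {y | ∃ ν : Kˣ, ∃ z ∈ OQ f Q, (∀ v, y v = (ν : K) • z v) ∧
    ∃ zM : M ≃ₗ[K] M, (∀ v : M, (zM v : V) = z (v : V)) ∧ DickEven zM}
  mul_mem' := by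
    rintro a b ⟨μ, z, hz, h1, zM, h2, h3⟩ ⟨ν, w, hw, h4, wM, h5, h6⟩
    refine ⟨μ * ν, z * w, mul_mem hz hw, fun v => ?_, zM * wM, fun v => ?_, ?_⟩
    · rw [LinearEquiv.mul_apply, LinearEquiv.mul_apply, h1, h4, map_smul, smul_smul, Units.val_mul]
    · rw [LinearEquiv.mul_apply, LinearEquiv.mul_apply, h2, h5]
    · refine (hmul zM wM ⟨fun v w => ?_, fun v => ?_⟩ ⟨fun v w => ?_, fun v => ?_⟩).2
        ⟨fun _ => h6, fun _ => h3⟩
      · show f (zM v : V) (zM w : V) = f (v : V) (w : V)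
        rw [h2, h2]; exact hz.1 _ _
      · show Q (zM v : V) = Q (v : V)
        rw [h2]; exact hz.2 _
      · show f (wM v : V) (wM w : V) = f (v : V) (w : V)
        rw [h5, h5]; exact hw.1 _ _
      · show Q (wM v : V) = Q (v : V)
        rw [h5]; exact hw.2 _
  one_mem' := ⟨1, 1, one_mem _, fun v => by simp, 1, fun v => rfl, dick_one⟩
  inv_mem' := by
    rintro a ⟨μ, z, hz, h1, zM, h2, h3⟩
    have h4 : ∀ u, a (a⁻¹ u) = u := fun u => LinearEquiv.apply_symm_apply a u
    have h5 : ∀ u, zM (zM⁻¹ u) = u := fun u => LinearEquiv.apply_symm_apply zM u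
    have h6 : ∀ u, z (z⁻¹ u) = u := fun u => LinearEquiv.apply_symm_apply z u
    have h7 : ∀ v : M, ((zM⁻¹ v : M) : V) = z⁻¹ (v : V) := by
      intro v
      apply z.injective
      rw [h6, ← h2, h5]
    refine ⟨μ⁻¹, z⁻¹, inv_mem hz, fun v => ?_, zM⁻¹, h7, ?_⟩
    · apply a.injective
      rw [h4, map_smul, h1, h6, smul_smul, Units.inv_mul, one_smul]
    · have h8 : zM ∈ OQ (resF f M) (resQ Q M) := by
        refine ⟨fun v w => ?_, fun v => ?_⟩
        · show f (zM v : V) (zM w : V) = f (v : V) (w : V)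
          rw [h2, h2]; exact hz.1 _ _
        · show Q (zM v : V) = Q (v : V)
          rw [h2]; exact hz.2 _
      have h9 := hmul zM zM⁻¹ h8 (inv_mem h8)
      rw [mul_inv_cancel] at h9
      exact (h9.1 dick_one).1 h3

theorem pron_neg2' (two : (2 : K) = 0) (h4 : 4 < Nat.card K) (f : V → V → K)
    (hf : IsHF (RingHom.id K) 1 f) (ha : Alt f) (A : Subalgebra K (Module.End K V))
    (hA : IsTor2 f A) (Q : V → K) (hQ : AdQ f A Q) (Γ : Subgroup (V ≃ₗ[K] V)) (hΓ : Γ ≤ Sim f)
    (hgen : A ≤ Algebra.adjoin K (EndSet (Γ ⊓ torGL A)))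
    (e s : Module.End K V) (h : IsoIdem f A e s) (hp : IsPrim A e)
    (heven : Even (finrank K (LinearMap.range e))) (g : V ≃ₗ[K] V) (hg : g ∈ Γ)
    (hgQ : g ∈ OQ f Q) (gM : LinearMap.range (e + s) ≃ₗ[K] LinearMap.range (e + s))
    (hgM : ∀ v : LinearMap.range (e + s), (gM v : V) = g (v : V)) (hodd : ¬ DickEven gM) :
    ¬ IsPronormal ((torGL A).subgroupOf Γ) := by
  intro hpr
  rw [isPronormal_subgroupOf_iff] at hpr
  obtain ⟨x, hx, hxe⟩ := hpr g hg
  obtain ⟨hadj, hss, hes⟩ := Z5_facts hf A hA.toIsTor e s h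
  have hhA : e + s ∈ A := A.add_mem h.he h.hs
  have hhadj : IsAdj f (e + s) (e + s) := by
    intro a b
    rw [LinearMap.add_apply, LinearMap.add_apply, hf.add_left, Z5_add_right hf, h.adj, hadj]
    ring
  have hhh : (e + s) * (e + s) = e + s := by
    rw [mul_add, add_mul, add_mul, h.idem, h.orth, hes, hss]; simp
  have hMf := restr_isHF 1 f hf (e + s) hhh hhadj
  have haM : Alt (resF f (LinearMap.range (e + s))) := fun v => ha v
  have hQV : IsQF f Q := adQ_qf two f hf ha A Q hQ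
  have hQM : IsQF (resF f (LinearMap.range (e + s))) (resQ Q (LinearMap.range (e + s))) :=
    ⟨fun a v => hQV.smul a v, fun v w => hQV.add v w⟩
  have hmul : ∀ a b : LinearMap.range (e + s) ≃ₗ[K] LinearMap.range (e + s),
      a ∈ OQ (resF f (LinearMap.range (e + s))) (resQ Q (LinearMap.range (e + s))) →
      b ∈ OQ (resF f (LinearMap.range (e + s))) (resQ Q (LinearMap.range (e + s))) →
      (DickEven (a * b) ↔ (DickEven a ↔ DickEven b)) := fun a b ha' hb' =>
    dick_mul two h4 _ hMf haM _ hQM a b ha' hb'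
  have hres : ∀ (z : V ≃ₗ[K] V) (zM : LinearMap.range (e + s) ≃ₗ[K] LinearMap.range (e + s)),
      z ∈ OQ f Q → (∀ v : LinearMap.range (e + s), (zM v : V) = z (v : V)) →
      zM ∈ OQ (resF f (LinearMap.range (e + s))) (resQ Q (LinearMap.range (e + s))) := by
    intro z zM hz hzM
    refine ⟨fun v w => ?_, fun v => ?_⟩
    · show f (zM v : V) (zM w : V) = f (v : V) (w : V)
      rw [hzM, hzM]; exact hz.1 _ _
    · show Q (zM v : V) = Q (v : V)
      rw [hzM]; exact hz.2 _
  have hgMO := hres g gM hgQ hgM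
  -- the elements of the torus
  have hT : Γ ⊓ torGL A ≤ Z5n_P f Q (LinearMap.range (e + s)) hmul := by
    rintro t ⟨ht1, ht2⟩
    obtain ⟨μ, hμ⟩ := hΓ ht1
    obtain ⟨ν, hν⟩ := Z5n_sqrt two (μ : K)
    have hμ0 : (μ : K) ≠ 0 := μ.ne_zero
    have hν0 : ν ≠ 0 := by
      rintro rfl
      rw [mul_zero] at hν
      exact hμ0 hν.symm
    let z : V ≃ₗ[K] V := LinearEquiv.smulOfNeZero K V ν⁻¹ (inv_ne_zero hν0) * t
    have hz : ∀ v, z v = ν⁻¹ • t v := fun v => rfl
    have hzi : ∀ v, z⁻¹ v = ν • t⁻¹ v := by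
      intro v
      apply z.injective
      have h1 : z (z⁻¹ v) = v := LinearEquiv.apply_symm_apply z v
      have h2 : t (t⁻¹ v) = v := LinearEquiv.apply_symm_apply t v
      rw [h1, hz, map_smul, h2, smul_smul, inv_mul_cancel₀ hν0, one_smul]
    have hzI : z ∈ Isom f := by
      intro v w
      rw [hz, hz, hf.smul_left, Z5_smul_right hf, hμ, ← hν]
      field_simp
    have hzT : z ∈ torGL A := by
      refine ⟨?_, ?_⟩
      · have h1 : z.toLinearMap = ν⁻¹ • t.toLinearMap := by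
          ext v
          exact hz v
        rw [h1]
        exact A.smul_mem ht2.1 _
      · have h1 : (z⁻¹).toLinearMap = ν • (t⁻¹).toLinearMap := by
          ext v
          exact hzi v
        rw [h1]
        exact A.smul_mem ht2.2 _
    have hzQ : z ∈ OQ f Q := by
      refine ⟨hzI, fun v => ?_⟩
      rw [adQ_sim f A hA.toIsTorGL Q hQ z hzT 1 (fun v w => by rw [hzI v w, one_mul]) v, one_mul]
    have hzMs : ∀ a ∈ LinearMap.range (e + s), z a ∈ LinearMap.range (e + s) := by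
      rintro _ ⟨w, rfl⟩
      refine ⟨z w, ?_⟩
      have h1 := hA.comm (e + s) hhA z.toLinearMap hzT.1
      exact congrArg (fun L : Module.End K V => L w) h1
    obtain ⟨zM, hzM⟩ := Z5_restrict z (LinearMap.range (e + s)) hzMs
    refine ⟨Units.mk0 ν hν0, z, hzQ, fun v => ?_, zM, hzM, ?_⟩
    · rw [hz, Units.val_mk0, smul_smul, mul_inv_cancel₀ hν0, one_smul]
    · refine dick_norm two f hf A hA.toIsTor e s h hp heven z hzI ?_ zM hzM
      intro a ha'
      exact A.mul_mem hzT.1 (A.mul_mem ha' hzT.2)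
  have hginv : ∀ u, g (g⁻¹ u) = u := fun u => LinearEquiv.apply_symm_apply g u
  have hT' : conjSub g (Γ ⊓ torGL A) ≤ Z5n_P f Q (LinearMap.range (e + s)) hmul := by
    intro y hy
    rw [mem_conjSub] at hy
    obtain ⟨ν, z, hz, hyz, zM, hzM, hzd⟩ := hT hy
    have h1 : ∀ v, y v = (ν : K) • (g * z * g⁻¹) v := by
      intro v
      have h2 := hyz (g⁻¹ v)
      have h3 : (g⁻¹ * y * g) (g⁻¹ v) = g⁻¹ (y v) := by
        show g⁻¹ (y (g (g⁻¹ v))) = _
        rw [hginv]
      rw [h3] at h2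
      have h5 := congrArg g h2
      rw [hginv, map_smul] at h5
      exact h5
    have h7 : ∀ a : LinearMap.range (e + s), ((gM⁻¹ a : LinearMap.range (e + s)) : V) = g⁻¹ (a : V) := by
      intro a
      have h5 : ∀ u, gM (gM⁻¹ u) = u := fun u => LinearEquiv.apply_symm_apply gM u
      apply g.injective
      rw [hginv, ← hgM, h5]
    refine ⟨ν, g * z * g⁻¹, mul_mem (mul_mem hgQ hz) (inv_mem hgQ), h1, gM * zM * gM⁻¹,
      fun a => ?_, ?_⟩
    · rw [LinearEquiv.mul_apply, LinearEquiv.mul_apply, LinearEquiv.mul_apply, LinearEquiv.mul_apply,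
        hgM, hzM, h7]
    · have hzMO := hres z zM hz hzM
      have e1 := hmul (gM * zM) gM⁻¹ (mul_mem hgMO hzMO) (inv_mem hgMO)
      have e2 := hmul gM zM hgMO hzMO
      have e3 := hmul gM gM⁻¹ hgMO (inv_mem hgMO)
      rw [mul_inv_cancel] at e3
      have e4 := e3.1 dick_one
      rw [e1, e2]
      tauto
  have hx2 := (sup_le hT hT') hx
  obtain ⟨ν, z, hzQ, hxz, zM, hzM, hzd⟩ := hx2
  have hcy : CarriesTo (x⁻¹ * g) A A := by
    have h1 : Algebra.adjoin K (EndSet (Γ ⊓ torGL A)) ≤ pull (x⁻¹ * g) A := by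
      apply Algebra.adjoin_le
      rintro _ ⟨t, ht, rfl⟩
      have h2 : g * t * g⁻¹ ∈ conjSub g (Γ ⊓ torGL A) := by
        rw [mem_conjSub]
        have : g⁻¹ * (g * t * g⁻¹) * g = t := by group
        rw [this]; exact ht
      rw [← hxe, mem_conjSub] at h2
      have h3 : x⁻¹ * (g * t * g⁻¹) * x = (x⁻¹ * g) * t * (x⁻¹ * g)⁻¹ := by group
      rw [h3] at h2
      exact h2.2.1
    intro a ha'
    exact h1 (hgen ha')
  -- `z⁻¹ g` is a scalar multiple of `x⁻¹ g`
  have hxinv : ∀ a, x (x⁻¹ a) = a := fun a => LinearEquiv.apply_symm_apply x a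
  have hzinv : ∀ a, z (z⁻¹ a) = a := fun a => LinearEquiv.apply_symm_apply z a
  have hyx : ∀ v, (z⁻¹ * g) v = (ν : K) • (x⁻¹ * g) v := by
    intro v
    apply z.injective
    have h1 : z ((z⁻¹ * g) v) = g v := by
      show z (z⁻¹ (g v)) = g v
      rw [hzinv]
    have h2 : x ((x⁻¹ * g) v) = g v := by
      show x (x⁻¹ (g v)) = g v
      rw [hxinv]
    rw [h1, map_smul, ← hxz, h2]
  have hyA : CarriesTo (z⁻¹ * g) A A := by
    intro a ha'
    have h1 := hcy a ha'
    have h2 : (z⁻¹ * g).toLinearMap ∘ₗ a ∘ₗ (z⁻¹ * g).symm.toLinearMap =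
        (x⁻¹ * g).toLinearMap ∘ₗ a ∘ₗ (x⁻¹ * g).symm.toLinearMap := by
      ext v
      have h3 : (z⁻¹ * g).symm v = ((ν⁻¹ : Kˣ) : K) • (x⁻¹ * g).symm v := by
        apply (z⁻¹ * g).injective
        rw [LinearEquiv.apply_symm_apply, hyx, map_smul, LinearEquiv.apply_symm_apply, smul_smul,
          Units.mul_inv, one_smul]
      show (z⁻¹ * g) (a ((z⁻¹ * g).symm v)) = (x⁻¹ * g) (a ((x⁻¹ * g).symm v))
      rw [h3, map_smul, hyx, map_smul, smul_smul, Units.mul_inv, one_smul]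
    rw [h2]
    exact h1
  have hyQ : z⁻¹ * g ∈ OQ f Q := mul_mem (inv_mem hzQ) hgQ
  have hyM : ∀ a : LinearMap.range (e + s), ((zM⁻¹ * gM) a : V) = (z⁻¹ * g) (a : V) := by
    intro a
    have h5 : ∀ u, zM (zM⁻¹ u) = u := fun u => LinearEquiv.apply_symm_apply zM u
    apply z.injective
    have h1 : z ((z⁻¹ * g) (a : V)) = g (a : V) := by
      show z (z⁻¹ (g a)) = g a
      rw [hzinv]
    rw [h1, LinearEquiv.mul_apply, ← hzM, h5, hgM]
  have hfin := dick_norm two f hf A hA.toIsTor e s h hp heven (z⁻¹ * g) hyQ.1 hyA (zM⁻¹ * gM) hyM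
  have hzMO := hres z zM hzQ hzM
  have e1 := hmul zM (zM⁻¹ * gM) hzMO (mul_mem (inv_mem hzMO) hgMO)
  rw [mul_inv_cancel_left] at e1
  exact hodd (e1.2 ⟨fun _ => hfin, fun _ => hzd⟩)

end Pool.Agent.CTE
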