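import Pool.Agent.CTE.G6
import Pool.Agent.CTE.G5
import Pool.Agent.CTE.G3
import Pool.Agent.CTE.B2g
import Pool.Agent.CTE.B1
import Pool.Agent.CTE.G4
import Pool.Agent.CTE.Z1
import Pool.Agent.CTE.Z2
import Pool.Agent.CTE.Z3
import Pool.Agent.CTE.Z5n
import Pool.Agent.CTO.Z4
import Pool.Agent.CTO.Z6

/-!
# CTE.Z6: the criterion, abstract form, characteristic two

Compare `absC`, `absBD` in `CTO/Z6.lean`. `q0` from `pron_pos2 N`, `gen_tor2 N`, and `5`.
* `absC2`: `Isom f ≤ Γ ≤ Sim f`. `←`: `pron_pos2` with the form `0` (`Mode f A 0` by definition; `Sim f ≤ SimQ f 0`).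
  `→`: `A ≤ adjoin (EndSet (Γ ⊓ torGL A))` by `gen_tor2` (`sq (tor f A) ≤ Isom f ⊓ torGL A`). If `CritQ f 0 A` fails there are
  selfadjoint idempotents `e, e' ∈ A` with `IsoSpQ f 0 (range e) (range e')`, so `IsoSp f (range e') (range e)`, not `SIso`; `f` is
  nondegenerate on `range e'`, `witt_ext2` gives `g ∈ Isom f ≤ Γ` with `g (range e') = range e`; `pron_neg1` (`ε = 1`). If `OddPos f A`
  fails there is a primitive idempotent `e ∈ A` of even rank with adjoint `s` (commutativity: `s e = 0`), so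
  `IsoIdem f A e s`, `IsPrim A e`. Let `Q` be the form of `A` (`exists_adQ`). `M = range (e + s) ≠ 0` is nondegenerate, so it
  contains `u` with `Q u ≠ 0` (otherwise `f = 0` on `M` by `IsQF.add`). The reflection `g = r_u ∈ OQ f Q ≤ Isom f ≤ Γ`
  (`exists_reflQ`, `reflQ_mem`) preserves `M` and is the reflection in `u` on `M`; it is not even on `M`: the range of
  `gM - 1` is the line of `u` (`f (·, u)` is not zero on `M`). `pron_neg2'`.
* `absD2`: `N ≥ 3`, `EUQ f Q ≤ Γ ≤ SimQ f Q`, `Q` the form of `A`, `¬ SinglePosEven f A` (the definition in `CTO/Z6.lean`).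
  `sq (tor f A) ≤ EUQ f Q`: for `t ∈ tor f A`, `t ∈ OQ f Q` (`adQ_sim`, `mem_tor2`), `t t` is even (`dick_mul`), `even_mem`.
  `←`: `pron_pos2` (`Mode` by `AdQ`). `→`: `CritQ`: as before with `wittEUQ` (`adQ_qf`). `OddPos`: as before; `e + s ≠ 1` (otherwise
  `SinglePosEven`), so `ker (e + s) = range (1 - e - s) ≠ 0`, it is nondegenerate, and contains `v` with `Q v ≠ 0`; `u ∈ M` with
  `Q u ≠ 0`. `g = r_u r_v ∈ EUQ f Q ≤ Γ` (`refl_prod`), and `g = r_u` on `M` (`M` is orthogonal to `v`). `pron_neg2'`.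
-/

namespace Pool.Agent.CTE

open Module Pool.Agent.CTO

section Z6aux

variable {K V : Type} [Field K] [AddCommGroup V] [Module K V]

/-- a nonsingular vector in the range of a nonzero selfadjoint idempotent -/
theorem Z6_nonsing {f : V → V → K} (hf : IsHF (RingHom.id K) 1 f) {Q : V → K} (hQ : IsQF f Q)
    (p : Module.End K V) (hp : p * p = p) (hs : IsAdj f p p) (h0 : p ≠ 0) :
    ∃ v ∈ LinearMap.range p, Q v ≠ 0 := by
  obtain ⟨x, hx⟩ : ∃ x, p x ≠ 0 := by
    by_contra hcon
    push Not at hcon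
    exact h0 (LinearMap.ext hcon)
  by_contra hcon
  push Not at hcon
  apply hx
  refine Z6_nondeg hf p hp hs _ ⟨x, rfl⟩ fun w hw => ?_
  have h1 := hcon _ (Submodule.add_mem _ (LinearMap.mem_range_self p x) hw)
  have h2 := hcon _ (LinearMap.mem_range_self p x)
  have h3 := hcon _ hw
  rw [hQ.add, h2, h3, zero_add, zero_add] at h1
  exact h1

theorem Z6_idem {f : V → V → K} (hf : IsHF (RingHom.id K) 1 f) (e s : Module.End K V)
    (he : e * e = e) (hadj : IsAdj f e s) (hss : s * s = s) (hes : e * s = 0) (hse : s * e = 0) :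
    (e + s) * (e + s) = e + s ∧ IsAdj f (e + s) (e + s) := by
  refine ⟨?_, fun v w => ?_⟩
  · rw [add_mul, mul_add, mul_add, he, hes, hse, hss]
    simp
  · have hadj' : IsAdj f s e := q2_symm hf hadj
    rw [LinearMap.add_apply, LinearMap.add_apply, hf.add_left, Z6_add_right hf, hadj, hadj', add_comm]

/-- the restriction of a reflection is odd -/
theorem Z6_restr [FiniteDimensional K V] {f : V → V → K} (hf : IsHF (RingHom.id K) 1 f) {Q : V → K}
    (hQ : IsQF f Q) (p : Module.End K V) (hp : p * p = p) (hs : IsAdj f p p) (u : V)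
    (hu : u ∈ LinearMap.range p) (hQu : Q u ≠ 0) (r : V ≃ₗ[K] V) (hr : IsReflQ f Q u r)
    (hrr : r * r = 1) :
    ∃ gM : LinearMap.range p ≃ₗ[K] LinearMap.range p,
      (∀ v : LinearMap.range p, (gM v : V) = r (v : V)) ∧ ¬ DickEven gM := by
  have hM : ∀ v ∈ LinearMap.range p, r.toLinearMap v ∈ LinearMap.range p := by
    intro v hv
    have h1 : r.toLinearMap v = v + (f v u / Q u) • u := hr.2 v
    rw [h1]
    exact Submodule.add_mem _ hv (Submodule.smul_mem _ _ hu)
  let L : LinearMap.range p →ₗ[K] LinearMap.range p := r.toLinearMap.restrict hM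
  have hL : ∀ v : LinearMap.range p, (L v : V) = r (v : V) := fun v => rfl
  have hinv : Function.Involutive L := by
    intro v
    apply Subtype.ext
    rw [hL, hL]
    have h2 := LinearEquiv.congr_fun hrr (v : V)
    exact h2
  have hu0 : u ≠ 0 := by
    intro h
    apply hQu
    rw [h]
    have := hQ.smul 0 0
    simpa using this
  refine ⟨LinearEquiv.ofInvolutive L hinv, fun v => rfl, ?_⟩
  have hrange : LinearMap.range ((LinearEquiv.ofInvolutive L hinv).toLinearMap - LinearMap.id)
      = Submodule.span K {(⟨u, hu⟩ : LinearMap.range p)} := by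
    have key : ∀ v : LinearMap.range p,
        ((LinearEquiv.ofInvolutive L hinv).toLinearMap - LinearMap.id : _ →ₗ[K] _) v
          = (f (v : V) u / Q u) • (⟨u, hu⟩ : LinearMap.range p) := by
      intro v
      apply Subtype.ext
      have h3 : (((LinearEquiv.ofInvolutive L hinv).toLinearMap - LinearMap.id :
          LinearMap.range p →ₗ[K] LinearMap.range p) v : V) = r (v : V) - v := rfl
      rw [h3, hr.2]
      simp
    apply le_antisymm
    · rintro _ ⟨v, rfl⟩
      rw [key]
      exact Submodule.smul_mem _ _ (Submodule.mem_span_singleton_self _)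
    · rw [Submodule.span_singleton_le_iff_mem]
      obtain ⟨w, hw, hfw⟩ : ∃ w ∈ LinearMap.range p, f u w ≠ 0 := by
        by_contra hcon
        push Not at hcon
        exact hu0 (Z6_nondeg hf p hp hs u hu hcon)
      have hfw' : f w u ≠ 0 := by
        rw [hf.herm u w, RingHom.id_apply, one_mul]
        exact hfw
      refine ⟨(Q u / f w u) • ⟨w, hw⟩, ?_⟩
      rw [map_smul, key, smul_smul]
      have : Q u / f w u * (f ((⟨w, hw⟩ : LinearMap.range p) : V) u / Q u) = 1 := by
        show Q u / f w u * (f w u / Q u) = 1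
        field_simp
      rw [this, one_smul]
  unfold DickEven
  rw [hrange, finrank_span_singleton]
  · norm_num
  · intro h
    exact hu0 (congrArg Subtype.val h)

end Z6aux

theorem absC2 (N : ℕ) : ∃ q0 : ℕ, ∀ (K V : Type) [Field K] [Finite K] [AddCommGroup V]
    [Module K V] [FiniteDimensional K V] (f : V → V → K) (A : Subalgebra K (Module.End K V))
    (Γ : Subgroup (V ≃ₗ[K] V)), finrank K V = N → q0 ≤ Nat.card K → (2 : K) = 0 →
    IsHF (RingHom.id K) 1 f → Alt f → IsTor2 f A → Isom f ≤ Γ → Γ ≤ Sim f →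
    (IsPronormal ((torGL A).subgroupOf Γ) ↔ CritQ f (fun _ => 0) A ∧ OddPos f A) := by
  obtain ⟨q1, h1⟩ := pron_pos2 N
  obtain ⟨q2, h2⟩ := gen_tor2 N
  refine ⟨max (max q1 q2) 5, ?_⟩
  intro K V _ _ _ _ _ f A Γ hN hq two hf ha hA hI hS
  have h4 : 4 < Nat.card K := (le_max_right _ 5).trans hq
  have hq1 : q1 ≤ Nat.card K := ((le_max_left _ _).trans (le_max_left _ _)).trans hq
  have hq2 : q2 ≤ Nat.card K := ((le_max_right _ _).trans (le_max_left _ _)).trans hq
  have hsq : sq (tor (RingHom.id K) f A) ≤ Γ ⊓ torGL A :=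
    Z6_sq_le fun g hg => hI (mul_mem hg hg)
  have hgen : A ≤ Algebra.adjoin K (EndSet (Γ ⊓ torGL A)) :=
    (h2 K V f A hN hq2 two hf ha hA).trans (Z6_adjoin hsq)
  constructor
  · intro hP
    constructor
    · by_contra hC
      unfold CritQ at hC
      push Not at hC
      obtain ⟨e, he, e', he', hee, hs, hee', hs', hiso, hn⟩ := hC
      have hiso' : IsoSp f (LinearMap.range e) (LinearMap.range e') := by
        obtain ⟨φ, hφ, -⟩ := hiso
        exact ⟨φ, hφ⟩
      obtain ⟨g, hg, hge⟩ := witt_ext2 two f hf ha (LinearMap.range e') (LinearMap.range e)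
        (Z6_nondeg hf e' hee' hs') (Z6_IsoSp_symm hiso')
      exact pron_neg1 1 f hf A hA.toIsTor Γ hS hgen e e' he he' hee hee' hs hs' g (hI hg) hge hn hP
    · by_contra hO
      unfold OddPos at hO
      push Not at hO
      obtain ⟨e, he, s, hs, hee, hadj, hes, h0, hprim, hodd⟩ := hO
      have hse : s * e = 0 := by rw [← hA.comm e he s hs, hes]
      have hiso : IsoIdem f A e s := ⟨he, hs, hee, hadj, hse⟩
      have hp : IsPrim A e := ⟨he, hee, h0, hprim⟩
      have heven : Even (finrank K (LinearMap.range e)) := by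
        rwa [← Nat.not_odd_iff_even]
      obtain ⟨-, -, -, hss, -, -⟩ := isoIdem_p 1 f hf A hA.toIsTor e s hiso
      obtain ⟨Q, hQ⟩ := exists_adQ f A hA
      have hqf : IsQF f Q := adQ_qf two f hf ha A Q hQ
      obtain ⟨hp1, hp2⟩ := Z6_idem hf e s hee hadj hss hes hse
      have hp0 : e + s ≠ 0 := by
        intro h
        apply h0
        have : e * (e + s) = e := by rw [mul_add, hee, hes, add_zero]
        rw [h, mul_zero] at this
        exact this.symm
      obtain ⟨u, hu, hQu⟩ := Z6_nonsing hf hqf (e + s) hp1 hp2 hp0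
      obtain ⟨r, hr⟩ := exists_reflQ two f hf ha Q hqf u hQu
      obtain ⟨hrO, hrr⟩ := reflQ_mem two f hf ha Q hqf u r hr
      obtain ⟨gM, hgM, hod⟩ := Z6_restr hf hqf (e + s) hp1 hp2 u hu hQu r hr hrr
      exact pron_neg2' two h4 f hf ha A hA Q hQ Γ hS hgen e s hiso hp heven r (hI hrO.1) hrO gM
        hgM hod hP
  · rintro ⟨hC, hO⟩
    refine h1 K V f A (fun _ => 0) Γ hN hq1 two hf ha hA (Or.inl fun _ => rfl) hC hO ?_
      (hsq.trans inf_le_left)
    intro g hg
    obtain ⟨μ, hμ⟩ := hS hg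
    exact ⟨μ, hμ, fun v => by simp⟩

theorem absD2 (N : ℕ) (hN : 3 ≤ N) : ∃ q0 : ℕ, ∀ (K V : Type) [Field K] [Finite K]
    [AddCommGroup V] [Module K V] [FiniteDimensional K V] (f : V → V → K)
    (A : Subalgebra K (Module.End K V)) (Q : V → K)
    (Γ : Subgroup (V ≃ₗ[K] V)), finrank K V = N → q0 ≤ Nat.card K → (2 : K) = 0 →
    IsHF (RingHom.id K) 1 f → Alt f → IsTor2 f A → AdQ f A Q → EUQ f Q ≤ Γ → Γ ≤ SimQ f Q →
    ¬ SinglePosEven f A →
    (IsPronormal ((torGL A).subgroupOf Γ) ↔ CritQ f Q A ∧ OddPos f A) := by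
  obtain ⟨q1, h1⟩ := pron_pos2 N
  obtain ⟨q2, h2⟩ := gen_tor2 N
  refine ⟨max (max q1 q2) 5, ?_⟩
  intro K V _ _ _ _ _ f A Q Γ hNV hq two hf ha hA hQ hI hSQ hne
  have h4 : 4 < Nat.card K := (le_max_right _ 5).trans hq
  have hq1 : q1 ≤ Nat.card K := ((le_max_left _ _).trans (le_max_left _ _)).trans hq
  have hq2 : q2 ≤ Nat.card K := ((le_max_right _ _).trans (le_max_left _ _)).trans hq
  have hV : 3 ≤ finrank K V := by rw [hNV]; exact hN
  have hqf : IsQF f Q := adQ_qf two f hf ha A Q hQ
  have hS : Γ ≤ Sim f := by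
    intro g hg
    obtain ⟨μ, hμ, -⟩ := hSQ hg
    exact ⟨μ, hμ⟩
  have hsq : sq (tor (RingHom.id K) f A) ≤ Γ ⊓ torGL A := by
    unfold CTO.sq
    rw [Subgroup.closure_le]
    rintro x ⟨t, ht, rfl⟩
    have h6 := (mem_tor2 two f hf A t).1 ht
    have h7 : t ∈ OQ f Q := by
      refine ⟨h6.2, fun v => ?_⟩
      have h8 := adQ_sim f A hA.toIsTorGL Q hQ t h6.1 1
        (fun v w => by rw [one_mul]; exact h6.2 v w) v
      rwa [one_mul] at h8
    have h9 : DickEven (t * t) := (dick_mul two h4 f hf ha Q hqf t t h7 h7).2 Iff.rfl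
    exact ⟨hI (even_mem two h4 f hf ha Q hqf hV _ (mul_mem h7 h7) h9), mul_mem h6.1 h6.1⟩
  have hgen : A ≤ Algebra.adjoin K (EndSet (Γ ⊓ torGL A)) :=
    (h2 K V f A hNV hq2 two hf ha hA).trans (Z6_adjoin hsq)
  constructor
  · intro hP
    constructor
    · by_contra hC
      unfold CritQ at hC
      push Not at hC
      obtain ⟨e, he, e', he', hee, hs, hee', hs', hiso, hn⟩ := hC
      have hiso' : IsoSpQ f Q (LinearMap.range e') (LinearMap.range e) := by
        obtain ⟨φ, hφ, hφQ⟩ := hiso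
        refine ⟨φ.symm, fun v w => ?_, fun v => ?_⟩
        · have := hφ (φ.symm v) (φ.symm w)
          rw [φ.apply_symm_apply, φ.apply_symm_apply] at this
          exact this.symm
        · have := hφQ (φ.symm v)
          rw [φ.apply_symm_apply] at this
          exact this.symm
      obtain ⟨g, hg, hge⟩ := wittEUQ two h4 f hf ha Q hqf hV (LinearMap.range e')
        (LinearMap.range e) (Z6_nondeg hf e' hee' hs') hiso'
      exact pron_neg1 1 f hf A hA.toIsTor Γ hS hgen e e' he he' hee hee' hs hs' g (hI hg) hge hn hP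
    · by_contra hO
      unfold OddPos at hO
      push Not at hO
      obtain ⟨e, he, s, hs, hee, hadj, hes, h0, hprim, hodd⟩ := hO
      have hse : s * e = 0 := by rw [← hA.comm e he s hs, hes]
      have hiso : IsoIdem f A e s := ⟨he, hs, hee, hadj, hse⟩
      have hp : IsPrim A e := ⟨he, hee, h0, hprim⟩
      have heven : Even (finrank K (LinearMap.range e)) := by
        rwa [← Nat.not_odd_iff_even]
      have hes1 : e + s ≠ 1 := fun h => hne ⟨e, s, hiso, hp, heven, h⟩
      obtain ⟨-, hpp, hpadj, hss, -, -⟩ := isoIdem_p 1 f hf A hA.toIsTor e s hiso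
      obtain ⟨hp1, hp2⟩ := Z6_idem hf e s hee hadj hss hes hse
      have hp0 : e + s ≠ 0 := by
        intro h
        apply h0
        have : e * (e + s) = e := by rw [mul_add, hee, hes, add_zero]
        rw [h, mul_zero] at this
        exact this.symm
      have hq0 : (1 - e - s : Module.End K V) ≠ 0 := by
        intro h
        apply hes1
        have h' : (1 : Module.End K V) - (e + s) = 0 := by rw [← h]; abel
        exact (sub_eq_zero.1 h').symm
      obtain ⟨u, hu, hQu⟩ := Z6_nonsing hf hqf (e + s) hp1 hp2 hp0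
      obtain ⟨v, ⟨v', rfl⟩, hQv⟩ := Z6_nonsing hf hqf (1 - e - s) hpp hpadj hq0
      obtain ⟨r, hr⟩ := exists_reflQ two f hf ha Q hqf u hQu
      obtain ⟨hrO, hrr⟩ := reflQ_mem two f hf ha Q hqf u r hr
      obtain ⟨r', hr'⟩ := exists_reflQ two f hf ha Q hqf _ hQv
      obtain ⟨hrO', -⟩ := reflQ_mem two f hf ha Q hqf _ r' hr'
      obtain ⟨gM, hgM, hod⟩ := Z6_restr hf hqf (e + s) hp1 hp2 u hu hQu r hr hrr
      have hker : (e + s) ((1 - e - s : Module.End K V) v') = 0 := by
        rw [← Module.End.mul_apply]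
        have : (e + s) * (1 - e - s) = 0 := by
          have : (e + s) * (1 - e - s) = (e - e * e - s * e) + (s - s * s - e * s) := by
            noncomm_ring
          rw [this, hee, hss, hes, hse]
          simp
        rw [this, LinearMap.zero_apply]
      have hgM' : ∀ x : LinearMap.range (e + s), (gM x : V) = (r * r') (x : V) := by
        intro x
        have h5 : r' (x : V) = x := by
          rw [hr'.2]
          obtain ⟨y, hy⟩ := x.2
          have h6 : f (x : V) ((1 - e - s : Module.End K V) v') = 0 := by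
            rw [← hy, hp2, hker]
            exact Z6_zero_right hf y
          rw [h6, zero_div, zero_smul, add_zero]
        rw [hgM, LinearEquiv.mul_apply, h5]
      exact pron_neg2' two h4 f hf ha A hA Q hQ Γ hS hgen e s hiso hp heven (r * r')
        (hI (refl_prod two f hf ha Q hqf hV u _ r r' hr hr')) (mul_mem hrO hrO') gM hgM' hod hP
  · rintro ⟨hC, hO⟩
    exact h1 K V f A Q Γ hNV hq1 two hf ha hA (Or.inr hQ) hC hO hSQ (hsq.trans inf_le_left)

end Pool.Agent.CTE
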