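import Pool.Agent.CTE.X3
import Pool.Agent.CTE.X4
import Pool.Agent.CTE.Z6
import Pool.Agent.CTO.X5
import Pool.Agent.CTO.X6

/-!
# CTE.X6: the theorems for the explicit tori, characteristic two

Compare `finalC`, `finalBD` in `CTO/X6.lean` (complete proofs): `isPronormal_map_iff`, `torGL_algA`, `absC2`/`absD2` for `algA`
(`algA_isTor2`), `critC2_iff`/`critD2_iff`, `oddPos_iff`, `singlePosEven_iff` (with `ε = 1`; `ζ` is empty by `empty2`).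
* `adQ_algA`: `Q (a v) = Q v` for all `a` with `starA a * a = 1` implies `AdQ f algA Q` by `adQ_of_inv`: for `t ∈ tor f algA` there is `a` with
  `t v = a v` (`torGL_algA`), and `f (a v) (a w) = f v w` gives `f v (starA a * a * w - w) = 0`, so `starA a * a = 1`.
-/

namespace Pool.Agent.CTE

open Module Pool.Agent.CTO

theorem finalC2 (n : ℕ) : ∃ q0 : ℕ, ∀ (K : Type) [Field K] [Finite K] (ι κ ζ : Type) [Fintype ι]
    [Fintype κ] [Fintype ζ] (P : ι → Type) (L : κ → Type) [∀ i, Field (P i)]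
    [∀ i, Algebra K (P i)]
    [∀ j, Field (L j)] [∀ j, Algebra K (L j)] [∀ i, FiniteDimensional K (P i)]
    [∀ j, FiniteDimensional K (L j)] (τ : ∀ j, L j ≃ₐ[K] L j)
    (f : TorAlg K ζ P L → TorAlg K ζ P L → K)
    (Γ : Subgroup (TorAlg K ζ P L ≃ₗ[K] TorAlg K ζ P L)) (N : Subgroup Γ) [N.Normal],
    finrank K (TorAlg K ζ P L) = n → q0 ≤ Nat.card K → (2 : K) = 0 →
    (∀ j x, τ j (τ j x) = x) → (∀ j, ∃ x, τ j x ≠ x) →
    IsHF (RingHom.id K) 1 f → Alt f → Adapted τ f → Isom f ≤ Γ → Γ ≤ Sim f →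
    N ≤ (torusA K ζ P L).subgroupOf Γ →
    (IsPronormal (torusQA Γ N) ↔ DistinctC K P L ∧ ∀ i, Odd (finrank K (P i))) := by
  obtain ⟨q0, h⟩ := absC2 n
  refine ⟨q0, ?_⟩
  intro K _ _ ι κ ζ _ _ _ P L _ _ _ _ _ _ τ f Γ N _ hn hq two hτ hτ' hf ha had h1 h2 hN
  have hζ : IsEmpty ζ := empty2 f hf ha τ had
  unfold torusQA
  rw [isPronormal_map_iff N _ hN, ← torGL_algA,
    h K (TorAlg K ζ P L) f (algA K ζ P L) Γ hn hq two hf ha
      (algA_isTor2 two f hf ha τ hτ hτ' had) h1 h2,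
    critC2_iff two f hf ha τ hτ hτ' had, oddPos_iff 1 f hf τ had]

theorem adQ_algA (n : ℕ) : ∃ q0 : ℕ, ∀ (K : Type) [Field K] [Finite K] (ι κ ζ : Type) [Fintype ι]
    [Fintype κ] [Fintype ζ] (P : ι → Type) (L : κ → Type) [∀ i, Field (P i)]
    [∀ i, Algebra K (P i)]
    [∀ j, Field (L j)] [∀ j, Algebra K (L j)] [∀ i, FiniteDimensional K (P i)]
    [∀ j, FiniteDimensional K (L j)] (τ : ∀ j, L j ≃ₐ[K] L j)
    (f : TorAlg K ζ P L → TorAlg K ζ P L → K) (Q : TorAlg K ζ P L → K),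
    finrank K (TorAlg K ζ P L) = n → q0 ≤ Nat.card K → (2 : K) = 0 →
    (∀ j x, τ j (τ j x) = x) → (∀ j, ∃ x, τ j x ≠ x) →
    IsHF (RingHom.id K) 1 f → Alt f → Adapted τ f → IsQF f Q →
    (∀ a : TorAlg K ζ P L, starA ζ P τ a * a = 1 → ∀ v, Q (a * v) = Q v) →
    AdQ f (algA K ζ P L) Q := by
  obtain ⟨q0, h⟩ := adQ_of_inv n
  refine ⟨q0, ?_⟩
  intro K _ _ ι κ ζ _ _ _ P L _ _ _ _ _ _ τ f Q hn hq two hτ hτ' hf ha had hQ hinv
  refine h K (TorAlg K ζ P L) f (algA K ζ P L) Q hn hq two hf ha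
    (algA_isTor2 two f hf ha τ hτ hτ' had) hQ ?_
  rintro t ⟨ht1, ht2, -⟩ v
  rw [torGL_algA] at ht1
  obtain ⟨a, hta⟩ := ht1
  have h1 : starA ζ P τ (a : TorAlg K ζ P L) * ((a : TorAlg K ζ P L) * 1) = 1 := by
    apply x1_right 1 f hf
    intro w
    rw [← had, ← hta, ← hta, ht2]
  rw [mul_one] at h1
  rw [hta]
  exact hinv _ h1 v

theorem finalD2 (n : ℕ) (hn : 3 ≤ n) : ∃ q0 : ℕ, ∀ (K : Type) [Field K] [Finite K] (ι κ ζ : Type)
    [Fintype ι] [Fintype κ] [Fintype ζ] (P : ι → Type) (L : κ → Type)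
    [∀ i, Field (P i)] [∀ i, Algebra K (P i)]
    [∀ j, Field (L j)] [∀ j, Algebra K (L j)] [∀ i, FiniteDimensional K (P i)]
    [∀ j, FiniteDimensional K (L j)] (τ : ∀ j, L j ≃ₐ[K] L j)
    (f : TorAlg K ζ P L → TorAlg K ζ P L → K) (Q : TorAlg K ζ P L → K)
    (Γ : Subgroup (TorAlg K ζ P L ≃ₗ[K] TorAlg K ζ P L)) (N : Subgroup Γ) [N.Normal],
    finrank K (TorAlg K ζ P L) = n → q0 ≤ Nat.card K → (2 : K) = 0 →
    (∀ j x, τ j (τ j x) = x) → (∀ j, ∃ x, τ j x ≠ x) →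
    IsHF (RingHom.id K) 1 f → Alt f → Adapted τ f → AdQ f (algA K ζ P L) Q →
    EUQ f Q ≤ Γ → Γ ≤ SimQ f Q →
    N ≤ (torusA K ζ P L).subgroupOf Γ →
    ¬ (IsEmpty κ ∧ IsEmpty ζ ∧ ∃ i0 : ι, (∀ i, i = i0) ∧ Even (finrank K (P i0))) →
    (IsPronormal (torusQA Γ N) ↔ DistinctBD K P L ∧ ∀ i, Odd (finrank K (P i))) := by
  obtain ⟨q0, h⟩ := absD2 n hn
  refine ⟨q0, ?_⟩
  intro K _ _ ι κ ζ _ _ _ P L _ _ _ _ _ _ τ f Q Γ N _ hn hq two hτ hτ' hf ha had hQ h1 h2 hN hns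
  have hζ : IsEmpty ζ := empty2 f hf ha τ had
  unfold torusQA
  rw [isPronormal_map_iff N _ hN, ← torGL_algA,
    h K (TorAlg K ζ P L) f (algA K ζ P L) Q Γ hn hq two hf ha
      (algA_isTor2 two f hf ha τ hτ hτ' had) hQ h1 h2
      (fun hc => hns ((singlePosEven_iff 1 f hf τ had).1 hc)),
    critD2_iff two f hf ha τ hτ hτ' had Q hQ, oddPos_iff 1 f hf τ had]

end Pool.Agent.CTE
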