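import Pool.Agent.CTE.V3
import Pool.Agent.CTE.V4
import Pool.Agent.CTE.X6
import Pool.Agent.CTE.Z2
import Pool.Agent.CTO.V5

/-!
# CTE.V5: the final theorem for the even orthogonal groups in characteristic two

Compare `finalBD'` in `CTO/V5.lean` (complete proof). `q0` from `finalD2 n`, `adQ_algA n`, `pron_single2 n`, `gen_tor2 n`, and `5`.
`ζ` is empty (`empty2`). `AdQ f algA Q` by `adQ_algA`. `EUQ f Q ≤ ⁅OQ, OQ⁆ ≤ Γ` (`EUQ_le_comm`), every element of `Γ` is `c • h` with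
`h ∈ ⁅OQ, OQ⁆`, so `h ∈ OQ f Q` and `DickEven h` (`comm_even`), `c ≠ 0` (`V ≠ 0` as `n ≥ 3`), so `Γ ≤ SimQ f Q` (multiplier `c²`).
If not (`κ`, `ζ` empty, one positive cycle `i`, of even length): `finalD2`; the second alternative of the right side is impossible.
Otherwise (`v5_expl`, `v5_dim`, `x5_rank1` of `CTO/V5.lean`, `CTO/X5.lean` with `ε = 1`) `sq (tor f algA) ≤ EUQ f Q` (`adQ_sim`, `mem_tor2`,
`dick_mul`, `even_mem`), `hgen` from `gen_tor2`; `[P i : K] % 4 = 2`: `pron_single2`; otherwise `4 ∣ [P i : K]`: `pron_neg3'`. The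
first alternative of the right side is false because `[P i : K]` is even.
-/

namespace Pool.Agent.CTE

open Module Pool.Agent.CTO

theorem finalD2' (n : ℕ) (hn : 3 ≤ n) : ∃ q0 : ℕ, ∀ (K : Type) [Field K] [Finite K]
    (ι κ ζ : Type) [Fintype ι] [Fintype κ] [Fintype ζ] (P : ι → Type) (L : κ → Type)
    [∀ i, Field (P i)] [∀ i, Algebra K (P i)]
    [∀ j, Field (L j)] [∀ j, Algebra K (L j)] [∀ i, FiniteDimensional K (P i)]
    [∀ j, FiniteDimensional K (L j)] (τ : ∀ j, L j ≃ₐ[K] L j)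
    (f : TorAlg K ζ P L → TorAlg K ζ P L → K) (Q : TorAlg K ζ P L → K)
    (Γ : Subgroup (TorAlg K ζ P L ≃ₗ[K] TorAlg K ζ P L)) (N : Subgroup Γ) [N.Normal],
    finrank K (TorAlg K ζ P L) = n → q0 ≤ Nat.card K → (2 : K) = 0 →
    (∀ j x, τ j (τ j x) = x) → (∀ j, ∃ x, τ j x ≠ x) →
    IsHF (RingHom.id K) 1 f → Alt f → Adapted τ f → IsQF f Q →
    (∀ a : TorAlg K ζ P L, starA ζ P τ a * a = 1 → ∀ v, Q (a * v) = Q v) →
    ⁅OQ f Q, OQ f Q⁆ ≤ Γ →
    (∀ g ∈ Γ, ∃ c : K, ∃ h ∈ ⁅OQ f Q, OQ f Q⁆, ∀ v, g v = c • h v) →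
    N ≤ (torusA K ζ P L).subgroupOf Γ →
    (IsPronormal (torusQA Γ N) ↔ (DistinctBD K P L ∧ ∀ i, Odd (finrank K (P i))) ∨
      (IsEmpty κ ∧ IsEmpty ζ ∧ ∃ i0 : ι, (∀ i, i = i0) ∧ finrank K (P i0) % 4 = 2)) := by
  obtain ⟨q1, h1⟩ := finalD2 n hn
  obtain ⟨q2, h2⟩ := pron_single2 n
  obtain ⟨q3, h3⟩ := gen_tor2 n
  obtain ⟨q4, h4⟩ := adQ_algA n
  refine ⟨max (max q1 q2) (max q3 (max q4 5)), ?_⟩
  intro K _ _ ι κ ζ _ _ _ P L _ _ _ _ _ _ τ f Q Γ N _ hN hq two hτ hτ' hf ha had hQF hinv hΓ1 hΓ2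
    hNT
  have hq1 : q1 ≤ Nat.card K := (le_trans (le_max_left _ _) (le_max_left _ _)).trans hq
  have hq2 : q2 ≤ Nat.card K := (le_trans (le_max_right _ _) (le_max_left _ _)).trans hq
  have hq3 : q3 ≤ Nat.card K := (le_trans (le_max_left _ _) (le_max_right _ _)).trans hq
  have hq4 : q4 ≤ Nat.card K :=
    (le_trans (le_max_left _ _) (le_trans (le_max_right _ _) (le_max_right _ _))).trans hq
  have hq5 : 5 ≤ Nat.card K :=
    (le_trans (le_max_right _ _) (le_trans (le_max_right _ _) (le_max_right _ _))).trans hq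
  have hc4 : 4 < Nat.card K := hq5
  have hζ : IsEmpty ζ := empty2 f hf ha τ had
  have hA : IsTor2 f (algA K ζ P L) := algA_isTor2 two f hf ha τ hτ hτ' had
  have hQA : AdQ f (algA K ζ P L) Q :=
    h4 K ι κ ζ P L τ f Q hN hq4 two hτ hτ' hf ha had hQF hinv
  have hdim3 : 3 ≤ finrank K (TorAlg K ζ P L) := by rw [hN]; exact hn
  have hEU : EUQ f Q ≤ Γ := (EUQ_le_comm two hc4 f hf ha Q hQF hdim3).trans hΓ1
  have hgΓ : ∀ g ∈ Γ, ∃ (c : Kˣ) (h : TorAlg K ζ P L ≃ₗ[K] TorAlg K ζ P L),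
      h ∈ OQ f Q ∧ DickEven h ∧ ∀ v, g v = (c : K) • h v := by
    intro g hg
    obtain ⟨c, h, hh, hgv⟩ := hΓ2 g hg
    have hc : c ≠ 0 := by
      rintro rfl
      have hnt : Nontrivial (TorAlg K ζ P L) :=
        Module.nontrivial_of_finrank_pos (R := K) (by omega)
      obtain ⟨v, hv⟩ := exists_ne (0 : TorAlg K ζ P L)
      apply hv
      apply g.injective
      rw [hgv, zero_smul, map_zero]
    obtain ⟨h5, h6⟩ := comm_even two hc4 f hf ha Q hQF h hh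
    exact ⟨Units.mk0 c hc, h, h5, h6, hgv⟩
  have hΓQ : Γ ≤ SimQ f Q := by
    intro g hg
    obtain ⟨c, h, ⟨h5, h6⟩, -, hgv⟩ := hgΓ g hg
    have h5' : ∀ v w, f (h v) (h w) = f v w := h5
    refine ⟨c * c, fun v w => ?_, fun v => ?_⟩
    · rw [hgv, hgv, hf.smul_left, W1_smul_right hf, h5', RingHom.id_apply, Units.val_mul]
      ring
    · rw [hgv, hQF.smul, h6, Units.val_mul]
  have hsqEU : sq (tor (RingHom.id K) f (algA K ζ P L)) ≤ EUQ f Q := by
    unfold Pool.Agent.CTO.sq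
    rw [Subgroup.closure_le]
    rintro _ ⟨t, ht, rfl⟩
    have htQ : t ∈ OQ f Q := by
      refine ⟨ht.2.1, fun v => ?_⟩
      have h5 := adQ_sim f (algA K ζ P L) hA.toIsTorGL Q hQA t ht.1 1 (fun v w => by
        rw [ht.2.1, one_mul]) v
      rw [h5, one_mul]
    exact even_mem two hc4 f hf ha Q hQF hdim3 (t * t) (mul_mem htQ htQ)
      ((dick_mul two hc4 f hf ha Q hQF t t htQ htQ).2 Iff.rfl)
  by_cases hs : IsEmpty κ ∧ IsEmpty ζ ∧ ∃ i0 : ι, (∀ i, i = i0) ∧ Even (finrank K (P i0))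
  · obtain ⟨hκ, -, i, hi, heven⟩ := hs
    obtain ⟨hI, hP, hsum⟩ := v5_expl 1 f hf τ had hκ hζ i hi
    have hsqT : sq (tor (RingHom.id K) f (algA K ζ P L)) ≤ torGL (algA K ζ P L) := by
      unfold Pool.Agent.CTO.sq
      rw [Subgroup.closure_le]
      rintro _ ⟨t, ht, rfl⟩
      exact mul_mem ht.1 ht.1
    have hgen : algA K ζ P L ≤
        Algebra.adjoin K (EndSet (Γ ⊓ torGL (algA K ζ P L))) := by
      refine (h3 K (TorAlg K ζ P L) f (algA K ζ P L) hN hq3 two hf ha hA).trans ?_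
      apply Algebra.adjoin_mono
      rintro _ ⟨t, ht, rfl⟩
      exact ⟨t, ⟨hEU (hsqEU ht), hsqT ht⟩, rfl⟩
    have hquot : IsPronormal (torusQA Γ N) ↔
        IsPronormal ((torGL (algA K ζ P L)).subgroupOf Γ) := by
      rw [torGL_algA]
      exact isPronormal_map_iff N _ hNT
    rw [hquot]
    have hr : finrank K (LinearMap.range
        (Algebra.lmul K (TorAlg K ζ P L) (x5s K ζ P L i (1, 0)))) = finrank K (P i) :=
      x5_rank1 i
    by_cases h4 : finrank K (P i) % 4 = 2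
    · refine iff_of_true ?_ (Or.inr ⟨hκ, hζ, i, hi, h4⟩)
      exact h2 K (TorAlg K ζ P L) f (algA K ζ P L) _ _ Q Γ hN hq2 two hf ha hA hQA hI hP hsum
        (by rw [hr]; exact h4) hgΓ (hsqEU.trans hEU)
    · refine iff_of_false ?_ ?_
      · refine pron_neg3' K (TorAlg K ζ P L) two hc4 f hf ha (algA K ζ P L) hA Q hQA Γ hΓQ hEU hgen
          _ _ hI hP hsum ?_
        rw [hr]
        obtain ⟨r, hr'⟩ := heven
        omega
      · rintro (⟨-, h5⟩ | ⟨-, -, i', -, h5⟩)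
        · exact (Nat.not_odd_iff_even.2 heven) (h5 i)
        · rw [hi i'] at h5
          exact h4 h5
  · have h4 := h1 K ι κ ζ P L τ f Q Γ N hN hq1 two hτ hτ' hf ha had hQA hEU hΓQ hNT hs
    rw [h4]
    constructor
    · intro h5
      exact Or.inl h5
    · rintro (h5 | ⟨hκ, hζ, i, hi, h5⟩)
      · exact h5
      · exfalso
        apply hs
        refine ⟨hκ, hζ, i, hi, ?_⟩
        rw [Nat.even_iff]
        omega

end Pool.Agent.CTE
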