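import Pool.Agent.CTE.Base
import Pool.Agent.CTO.X1
import Pool.Agent.CTO.X3

/-!
# CTE.X1: the explicit torus algebra, characteristic two

* `empty2`: as `X3_empty` in `CTO/X3.lean` (with `Alt f`; for `z : ζ` the element `e = (0, 0, δ_z)` satisfies `f e w = w_z f e e = 0`).
* `algA_isTor2`: `IsTor`: copy `algA_isTor` of `CTO/X1.lean` except for the skew element: in characteristic two take the skew
  element `d = 1` (`1 = -1`, because `2 = 0`; its range is everything). `tr`: multiplication by
  `d = ((1, 0)_i, (x_j)_j, 0)` with `x_j + τ_j x_j = 1`: take `y` with `τ_j y ≠ y`, `c = y + τ_j y ≠ 0`, `τ_j c = c`, `x_j = y c⁻¹`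
  (characteristic two). `d + starA d = 1` because `ζ` is empty. Adjoints: `adj_iff` of `CTO/X1.lean`.
-/

namespace Pool.Agent.CTE

open Module Pool.Agent.CTO

variable {K : Type} [Field K] [Finite K] {ι κ : Type} {ζ : Type} [Fintype ι] [Fintype κ]
  [Fintype ζ] {P : ι → Type} {L : κ → Type} [∀ i, Field (P i)] [∀ i, Algebra K (P i)]
  [∀ j, Field (L j)] [∀ j, Algebra K (L j)] [∀ i, FiniteDimensional K (P i)]
  [∀ j, FiniteDimensional K (L j)]

theorem empty2 (f : TorAlg K ζ P L → TorAlg K ζ P L → K)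
    (hf : IsHF (RingHom.id K) 1 f) (ha : Alt f) (τ : ∀ j, L j ≃ₐ[K] L j) (had : Adapted τ f) :
    IsEmpty ζ := by
  classical
  refine ⟨fun z => ?_⟩
  set e : TorAlg K ζ P L := ((0, 0), fun z' => if z' = z then 1 else 0) with he
  have hstar : starA ζ P τ e = e := by
    rw [he, starA]
    refine Prod.ext (Prod.ext ?_ ?_) rfl
    · funext i
      rfl
    · funext j
      exact map_zero (τ j)
  have hee : e * e = e := by
    rw [he]
    refine Prod.ext (Prod.ext ?_ ?_) ?_
    · exact mul_zero _
    · exact mul_zero _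
    · funext z'
      change (if z' = z then (1 : K) else 0) * (if z' = z then (1 : K) else 0) =
        if z' = z then 1 else 0
      split_ifs <;> simp
  have hew : ∀ w : TorAlg K ζ P L, e * w = (w.2 z) • e := by
    intro w
    rw [he]
    refine Prod.ext (Prod.ext ?_ ?_) ?_
    · change (0 : ∀ i, P i × P i) * w.1.1 = w.2 z • (0 : ∀ i, P i × P i)
      rw [zero_mul, smul_zero]
    · change (0 : ∀ j, L j) * w.1.2 = w.2 z • (0 : ∀ j, L j)
      rw [zero_mul, smul_zero]
    · funext z'
      change (if z' = z then (1 : K) else 0) * w.2 z' = w.2 z * (if z' = z then 1 else 0)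
      split_ifs with h
      · rw [h, mul_comm]
      · rw [zero_mul, mul_zero]
  have halt : ∀ v, f v v = 0 := ha
  have h0 : e = 0 := by
    apply hf.nondeg
    intro w
    have h1 : f (e * e) w = f e (starA ζ P τ e * w) := had e e w
    rw [hee, hstar, hew] at h1
    rw [h1, hf.herm, hf.smul_left, halt]
    simp
  have h2 : e.2 z = 1 := by
    rw [he]
    exact if_pos rfl
  rw [h0] at h2
  exact zero_ne_one h2

theorem algA_isTor2 (two : (2 : K) = 0) (f : TorAlg K ζ P L → TorAlg K ζ P L → K)
    (hf : IsHF (RingHom.id K) 1 f) (ha : Alt f) (τ : ∀ j, L j ≃ₐ[K] L j)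
    (hτ : ∀ j x, τ j (τ j x) = x)
    (hτ' : ∀ j, ∃ x, τ j x ≠ x) (had : Adapted τ f) : IsTor2 f (algA K ζ P L) := by
  have hζ : IsEmpty ζ := empty2 f hf ha τ had
  refine ⟨⟨⟨?_, ?_, ?_⟩, ?_, ?_⟩, ?_⟩
  · rintro _ ⟨a, rfl⟩ _ ⟨b, rfl⟩
    change Algebra.lmul K (TorAlg K ζ P L) a * Algebra.lmul K (TorAlg K ζ P L) b =
      Algebra.lmul K (TorAlg K ζ P L) b * Algebra.lmul K (TorAlg K ζ P L) a
    rw [← map_mul, mul_comm, map_mul]
  · rintro _ ⟨a, rfl⟩ h
    have h0 : Algebra.lmul K (TorAlg K ζ P L) (a * a) = Algebra.lmul K (TorAlg K ζ P L) 0 := by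
      rw [map_mul, map_zero]
      exact h
    have h1 : a * a = 0 := x1_inj _ _ h0
    have h2 : a = 0 := by
      refine Prod.ext (Prod.ext ?_ ?_) ?_
      · funext i
        have h3 : a.1.1 i * a.1.1 i = 0 := congrFun (congrArg (fun t => t.1.1) h1) i
        have h4 : (a.1.1 i).1 * (a.1.1 i).1 = 0 := congrArg Prod.fst h3
        have h5 : (a.1.1 i).2 * (a.1.1 i).2 = 0 := congrArg Prod.snd h3
        exact Prod.ext (mul_self_eq_zero.1 h4) (mul_self_eq_zero.1 h5)
      · funext j
        have h3 : a.1.2 j * a.1.2 j = 0 := congrFun (congrArg (fun t => t.1.2) h1) j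
        exact mul_self_eq_zero.1 h3
      · funext z
        have h3 : a.2 z * a.2 z = 0 := congrFun (congrArg (fun t => t.2) h1) z
        exact mul_self_eq_zero.1 h3
    rw [h2, map_zero]
  · have hinj : Function.Injective (Algebra.lmul K (TorAlg K ζ P L)) := fun a b h => x1_inj a b h
    exact (AlgEquiv.ofInjective _ hinj).toLinearEquiv.finrank_eq.symm
  · rintro _ ⟨a, rfl⟩
    exact ⟨_, ⟨starA ζ P τ a, rfl⟩, fun v w => had a v w⟩
  · refine ⟨1, (algA K ζ P L).one_mem, ?_, ?_⟩
    · intro v w
      have h1 : (-(1 : Module.End K (TorAlg K ζ P L))) w = w := by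
        rw [LinearMap.neg_apply]
        change -w = w
        rw [neg_eq_iff_add_eq_zero, ← two_smul K w, two, zero_smul]
      rw [h1]
      rfl
    · have h1 : LinearMap.range (1 : Module.End K (TorAlg K ζ P L)) = ⊤ := LinearMap.range_id
      rw [h1, finrank_top]
      exact Nat.le_succ _
  · have hx : ∀ j, ∃ x : L j, x + τ j x = 1 := by
      intro j
      obtain ⟨y, hy⟩ := hτ' j
      have twoL : (2 : L j) = 0 := by
        have h1 := congrArg (algebraMap K (L j)) two
        rwa [map_ofNat, map_zero] at h1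
      have hc : y + τ j y ≠ 0 := by
        intro h
        apply hy
        have h2 : τ j y - y = 0 := by linear_combination h - y * twoL
        exact sub_eq_zero.1 h2
      have hτc : τ j (y + τ j y) = y + τ j y := by
        rw [map_add, hτ, add_comm]
      refine ⟨y * (y + τ j y)⁻¹, ?_⟩
      rw [map_mul, map_inv₀, hτc, ← add_mul, mul_inv_cancel₀ hc]
    choose x hx using hx
    set c : TorAlg K ζ P L := ((fun _ => (1, 0), fun j => x j), 0) with hc
    refine ⟨Algebra.lmul K (TorAlg K ζ P L) c, ⟨c, rfl⟩,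
      Algebra.lmul K (TorAlg K ζ P L) (starA ζ P τ c), ⟨_, rfl⟩, fun v w => had c v w, ?_⟩
    rw [← map_add]
    have h1 : c + starA ζ P τ c = 1 := by
      refine Prod.ext (Prod.ext ?_ ?_) ?_
      · funext i
        change ((1 : P i), (0 : P i)) + ((0 : P i), (1 : P i)) = 1
        refine Prod.ext ?_ ?_
        · change (1 : P i) + 0 = 1
          rw [add_zero]
        · change (0 : P i) + 1 = 1
          rw [zero_add]
      · funext j
        exact hx j
      · funext z
        exact hζ.elim z
    rw [h1, map_one]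

end Pool.Agent.CTE
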