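import Pool.Agent.CTE.X1
import Pool.Agent.CTE.Y0
import Pool.Agent.CTO.X3

/-!
# CTE.X3: the criterion in the symplectic case, characteristic two

As `critC_iff` in `CTO/X3.lean` (copy the proof), with `empty2`, `iso_alt2` (`Alt (resF f W)` is clear), `X3_res`, `siso_iff`
with `ε = 1`; `IsoSpQ f (fun _ => 0) W W'` is `IsoSp f W W'` with a trivial second condition.
-/

namespace Pool.Agent.CTE

open Module Pool.Agent.CTO

variable {K : Type} [Field K] [Finite K] {ι κ : Type} {ζ : Type} [Fintype ι] [Fintype κ]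
  [Fintype ζ] {P : ι → Type} {L : κ → Type} [∀ i, Field (P i)] [∀ i, Algebra K (P i)]
  [∀ j, Field (L j)] [∀ j, Algebra K (L j)] [∀ i, FiniteDimensional K (P i)]
  [∀ j, FiniteDimensional K (L j)]

theorem critC2_iff (two : (2 : K) = 0) (f : TorAlg K ζ P L → TorAlg K ζ P L → K)
    (hf : IsHF (RingHom.id K) 1 f) (ha : Alt f) (τ : ∀ j, L j ≃ₐ[K] L j)
    (hτ : ∀ j x, τ j (τ j x) = x)
    (hτ' : ∀ j, ∃ x, τ j x ≠ x) (had : Adapted τ f) :
    CritQ f (fun _ => 0) (algA K ζ P L) ↔ DistinctC K P L := by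
  have hζ : IsEmpty ζ := empty2 f hf ha τ had
  have hZ : ∀ Z : Finset ζ, Z = ∅ := fun Z => Finset.eq_empty_of_isEmpty Z
  constructor
  · intro h S S' hSS
    obtain ⟨h1, h2, h3⟩ := mSZ_spec 1 f hf τ had S (∅ : Finset ζ)
    obtain ⟨h1', h2', h3'⟩ := mSZ_spec 1 f hf τ had S' (∅ : Finset ζ)
    have hr := rank_mSZ (K := K) (P := P) (L := L) τ hτ hτ' S (∅ : Finset ζ)
    have hr' := rank_mSZ (K := K) (P := P) (L := L) τ hτ hτ' S' (∅ : Finset ζ)
    have hiso : IsoSpQ f (fun _ => 0) (LinearMap.range (mSZ K P L S (∅ : Finset ζ)))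
        (LinearMap.range (mSZ K P L S' (∅ : Finset ζ))) := by
      obtain ⟨φ, hφ⟩ := iso_alt2 K _ _ two _ _ (X3_res _ _ f hf _ h2 h3) (fun v => ha _)
        (X3_res _ _ f hf _ h2' h3') (fun v => ha _) (by rw [hr, hr', hSS])
      exact ⟨φ, hφ, fun v => rfl⟩
    have hS := h _ h1 _ h1' h2 h3 h2' h3' hiso
    exact ((siso_iff 1 f hf τ hτ hτ' had S S' ∅ ∅).1 hS).2
  · intro h e he e' he' hee hs hee' hs' hiso
    obtain ⟨S, Z, rfl⟩ := selfadj_idem 1 f hf τ had e he hee hs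
    obtain ⟨S', Z', rfl⟩ := selfadj_idem 1 f hf τ had e' he' hee' hs'
    obtain ⟨φ, -⟩ := hiso
    have h1 := φ.finrank_eq
    rw [rank_mSZ τ hτ hτ', rank_mSZ τ hτ hτ', hZ Z, hZ Z'] at h1
    have h2 : ∑ k ∈ S, lenA K P L k = ∑ k ∈ S', lenA K P L k := by omega
    refine (siso_iff 1 f hf τ hτ hτ' had S S' Z Z').2 ⟨?_, h S S' h2⟩
    rw [hZ Z, hZ Z']

end Pool.Agent.CTE
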