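import Pool.Agent.CTE.Y1

/-!
# CTE.X4a: counting zeros on the blocks

`K` finite with `q` elements.
* `pos_count`: `E` a finite extension field of degree `a`, `ψ : E → K` linear and nonzero; the number of `(x1, x2) ∈ E × E` with
  `ψ (x1 x2) = 0`: for `x1 = 0` there are `q^a` values of `x2`; for `x1 ≠ 0` the functional `x2 ↦ ψ (x1 x2)` is nonzero, its kernel
  has `q^(a-1)` elements (`q |ker| = q^a`). So `q nz = q q^a + (q^a - 1) q^a = q^(2a) + (q - 1) q^a`.
* `neg_count`: `E` of degree `2 a` with an involution `τ ≠ id`, `d ∈ E`, `d + τ d = 1`, `ψ : E → K` linear, nonzero, `ψ (τ y) = ψ y`,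
  characteristic two. `E0 = {y | τ y = y}` is a subfield of degree `a` (`|E0| = q^a`). For `N ∈ E0`:
  `ψ N = ψ (d N) + ψ (τ(d) N) = ψ (d N) + ψ (τ (d N)) = 2 ψ (d N) = 0`. The functional `φ N = ψ (d N)` of `E0` is nonzero: otherwise `ψ`
  vanishes on `E0 + d E0 = E` (`y = (y τ(d) + τ(y) d) + (y + τ y) d`). The norm `x ↦ x τ(x)` maps `Eˣ` onto `E0ˣ`, with fibres of
  `q^a + 1` elements (`E / E0` is a quadratic extension of finite fields, the norm is surjective, or: `τ x = x ^ (q^a)`, the kernel
  has at most `q^a + 1` elements and the image at most `q^a - 1`, and the product of the orders is `q^(2a) - 1`).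
  So `nz = 1 + (q^a + 1)(|ker φ| - 1)`, `q |ker φ| = q^a`, and `q nz = q + (q^a + 1)(q^a - q) = q^(2a) - (q - 1) q^a`.
-/

namespace Pool.Agent.CTE

open Module Pool.Agent.CTO

theorem X4a_ker (K W : Type) [Field K] [Finite K] [AddCommGroup W] [Module K W] [Finite W]
    (φ : W →ₗ[K] K) (hφ : φ ≠ 0) : Nat.card K * Nat.card {x : W // φ x = 0} = Nat.card W := by
  have h1 : Nat.card {x : W // φ x = 0} = Nat.card (LinearMap.ker φ) :=
    Nat.card_congr (Equiv.subtypeEquivRight fun x => by rw [LinearMap.mem_ker])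
  rw [h1]
  have : FiniteDimensional K W := inferInstance
  rw [Module.natCard_eq_pow_finrank (K := K) (V := LinearMap.ker φ),
    Module.natCard_eq_pow_finrank (K := K) (V := W)]
  have h2 := LinearMap.finrank_range_add_finrank_ker φ
  have h3 : LinearMap.range φ = ⊤ := LinearMap.range_eq_top.2 (LinearMap.surjective hφ)
  rw [h3, finrank_top, finrank_self] at h2
  rw [← h2, pow_add, pow_one]

theorem X4a_nz {K W : Type} [Field K] [Fintype W] [DecidableEq K] (Q : W → K) :
    nz Q = (Finset.univ.filter fun v => Q v = 0).card := by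
  unfold nz
  rw [Nat.card_eq_fintype_card, Fintype.card_subtype]

theorem pos_count (K E : Type) [Field K] [Finite K] [Field E] [Algebra K E] [FiniteDimensional K E]
    (ψ : E →ₗ[K] K) (hψ : ψ ≠ 0) :
    ((Nat.card K : ℤ) * nz (fun x : E × E => ψ (x.1 * x.2)))
      = (Nat.card K : ℤ) ^ (2 * finrank K E)
        + ((Nat.card K : ℤ) - 1) * (Nat.card K : ℤ) ^ finrank K E := by
  classical
  have : Finite E := Module.finite_of_finite K
  let _ : Fintype E := Fintype.ofFinite E
  have hE : Nat.card E = Nat.card K ^ finrank K E := Module.natCard_eq_pow_finrank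
  have hsum : nz (fun x : E × E => ψ (x.1 * x.2)) = ∑ x : E, Nat.card {y : E // ψ (x * y) = 0} := by
    rw [X4a_nz, Finset.card_filter, Fintype.sum_prod_type]
    refine Finset.sum_congr rfl fun x _ => ?_
    rw [Nat.card_eq_fintype_card, Fintype.card_subtype, Finset.card_filter]
  have hx : ∀ x : E, x ≠ 0 → Nat.card K * Nat.card {y : E // ψ (x * y) = 0} = Nat.card E := by
    intro x hx
    refine X4a_ker K E (ψ ∘ₗ LinearMap.mulLeft K x) ?_
    intro h
    apply hψ
    ext y
    have h1 := LinearMap.congr_fun h (x⁻¹ * y)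
    have h2 : ψ (x * (x⁻¹ * y)) = 0 := h1
    rw [mul_inv_cancel_left₀ hx] at h2
    rw [h2]; rfl
  have h0 : Nat.card {y : E // ψ (0 * y) = 0} = Nat.card E := by
    apply Nat.card_congr
    exact Equiv.subtypeUnivEquiv fun y => by rw [zero_mul, map_zero]
  have h1 : Nat.card K * nz (fun x : E × E => ψ (x.1 * x.2))
      = Nat.card K * Nat.card E + (Nat.card E - 1) * Nat.card E := by
    rw [hsum, Finset.mul_sum, ← Finset.add_sum_erase _ _ (Finset.mem_univ (0 : E)), h0]
    congr 1
    rw [Finset.sum_congr rfl (g := fun _ => Nat.card E) (fun x hx' => hx x (Finset.ne_of_mem_erase hx')),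
      Finset.sum_const, Finset.card_erase_of_mem (Finset.mem_univ _), Finset.card_univ, smul_eq_mul,
      Nat.card_eq_fintype_card]
  have hpos : 1 ≤ Nat.card E := Nat.card_pos
  zify [hpos] at h1
  rw [h1, hE]
  push_cast
  ring

theorem neg_count (K E : Type) [Field K] [Finite K] [Field E] [Algebra K E] [FiniteDimensional K E]
    (two : (2 : K) = 0) (τ : E ≃ₐ[K] E) (hτ : ∀ x, τ (τ x) = x) (hτ' : ∃ x, τ x ≠ x) (d : E)
    (hd : d + τ d = 1) (ψ : E →ₗ[K] K) (hψ : ψ ≠ 0) (hψτ : ∀ y, ψ (τ y) = ψ y) :
    ((Nat.card K : ℤ) * nz (fun x : E => ψ (d * (x * τ x))))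
      = (Nat.card K : ℤ) ^ (2 * (finrank K E / 2))
        - ((Nat.card K : ℤ) - 1) * (Nat.card K : ℤ) ^ (finrank K E / 2) := by
  classical
  have : Finite E := Module.finite_of_finite K
  let _ : Fintype E := Fintype.ofFinite E
  have twoE : (2 : E) = 0 := by
    have := congrArg (algebraMap K E) two
    rwa [map_ofNat, map_zero] at this
  have dbl : ∀ x : E, x + x = 0 := fun x => by rw [← two_mul, twoE, zero_mul]
  let E0 : Submodule K E := LinearMap.ker (τ.toLinearMap - LinearMap.id)
  have mem0 : ∀ x, x ∈ E0 ↔ τ x = x := by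
    intro x
    show x ∈ LinearMap.ker _ ↔ _
    rw [LinearMap.mem_ker]
    exact sub_eq_zero
  -- `E = E0 + E0 d`
  let θ : E0 × E0 → E := fun p => (p.1 : E) + (p.2 : E) * d
  have hθ : Function.Bijective θ := by
    constructor
    · rintro ⟨⟨a, ha⟩, ⟨b, hb⟩⟩ ⟨⟨a', ha'⟩, ⟨b', hb'⟩⟩ hab
      have h1 : a + b * d = a' + b' * d := hab
      rw [mem0] at ha hb ha' hb'
      have h2 := congrArg τ h1
      rw [map_add, map_mul, map_add, map_mul, ha, hb, ha', hb'] at h2
      have h3 : b * (d - τ d) = b' * (d - τ d) := by linear_combination h1 - h2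
      have h4 : d - τ d = 1 := by linear_combination hd - τ d * twoE
      rw [h4, mul_one, mul_one] at h3
      subst h3
      have h5 : a = a' := by linear_combination h1
      subst h5
      rfl
    · intro y
      refine ⟨⟨⟨y * τ d + τ y * d, ?_⟩, ⟨y + τ y, ?_⟩⟩, ?_⟩
      · rw [mem0, map_add, map_mul, map_mul, hτ, hτ]; ring
      · rw [mem0, map_add, hτ]; ring
      · show y * τ d + τ y * d + (y + τ y) * d = y
        linear_combination y * hd + τ y * d * twoE
  have hcE : Nat.card E = Nat.card E0 * Nat.card E0 := by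
    rw [← Nat.card_prod]
    exact (Nat.card_congr (Equiv.ofBijective θ hθ)).symm
  have hK : 1 < Nat.card K := Finite.one_lt_card
  have hfr : finrank K E = 2 * finrank K E0 := by
    rw [Module.natCard_eq_pow_finrank (K := K) (V := E), Module.natCard_eq_pow_finrank (K := K) (V := E0),
      ← pow_add] at hcE
    have := Nat.pow_right_injective hK hcE
    omega
  have hfr2 : finrank K E / 2 = finrank K E0 := by omega
  have hQ : Nat.card E0 = Nat.card K ^ finrank K E0 := Module.natCard_eq_pow_finrank
  -- the functional `φ`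
  let φ : E0 →ₗ[K] K := (ψ ∘ₗ LinearMap.mulLeft K d) ∘ₗ E0.subtype
  have hφa : ∀ x : E0, φ x = ψ (d * x) := fun _ => rfl
  have hφ : φ ≠ 0 := by
    intro h0
    apply hψ
    have h1 : ∀ N ∈ E0, ψ (d * N) = 0 := by
      intro N hN
      have := LinearMap.congr_fun h0 ⟨N, hN⟩
      exact this
    have h2 : ∀ N ∈ E0, ψ N = 0 := by
      intro N hN
      have h3 : N = d * N + τ (d * N) := by
        rw [map_mul, (mem0 N).1 hN]
        linear_combination (-N) * hd
      rw [h3, map_add, hψτ, h1 N hN, add_zero]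
    ext y
    obtain ⟨⟨⟨a, ha⟩, ⟨b, hb⟩⟩, hy⟩ := hθ.2 y
    have h4 : a + b * d = y := hy
    rw [← h4, map_add, h2 a ha, mul_comm b d, h1 b hb, add_zero]
    rfl
  have hkφ := X4a_ker K E0 φ hφ
  -- the fibres of the norm
  have hfib : ∀ c ∈ E0, c ≠ 0 → (Finset.univ.filter fun x : E => x * τ x = c).card
      = (Finset.univ.filter fun x : E => x * τ x = 1).card := by
    intro c hc hc0
    -- `c` is a square in `E0`
    have hsqi : Function.Injective (fun x : E0 => (⟨(x : E) * x, by
        rw [mem0, map_mul, (mem0 _).1 x.2]⟩ : E0)) := by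
      intro a b hab
      have h1 : (a : E) * a = b * b := congrArg Subtype.val hab
      have h2 : ((a : E) + b) * (a + b) = 0 := by linear_combination h1 + ((a : E) * b + b * b) * twoE
      have h3 : (a : E) + b = 0 := mul_self_eq_zero.1 h2
      apply Subtype.ext
      linear_combination h3 - (b : E) * twoE
    obtain ⟨b, hb⟩ := (Finite.surjective_of_injective hsqi) ⟨c, hc⟩
    have hb1 : (b : E) * b = c := congrArg Subtype.val hb
    have hb0 : (b : E) ≠ 0 := by
      intro h; rw [h, mul_zero] at hb1; exact hc0 hb1.symm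
    have hbτ : τ (b : E) = b := (mem0 _).1 b.2
    refine Finset.card_nbij' (fun x => (b : E)⁻¹ * x) (fun x => b * x) ?_ ?_ ?_ ?_
    · intro x hx
      simp only [Finset.coe_filter, Finset.mem_univ, true_and, Set.mem_ofPred_eq] at hx ⊢
      rw [map_mul, map_inv₀, hbτ]
      field_simp
      rw [hx, ← hb1]; ring
    · intro x hx
      simp only [Finset.coe_filter, Finset.mem_univ, true_and, Set.mem_ofPred_eq] at hx ⊢
      rw [map_mul, hbτ]
      linear_combination (b : E) * b * hx + hb1
    · intro x _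
      simp only
      rw [mul_inv_cancel_left₀ hb0]
    · intro x _
      simp only
      rw [inv_mul_cancel_left₀ hb0]
  set k := (Finset.univ.filter fun x : E => x * τ x = 1).card with hk
  -- counting nonzero `x` with norm in a set
  have hcount : ∀ p : E → Prop, (Finset.univ.filter fun x : E => x ≠ 0 ∧ p (x * τ x)).card
      = k * (Finset.univ.filter fun c : E => c ∈ E0 ∧ c ≠ 0 ∧ p c).card := by
    intro p
    rw [Finset.card_eq_sum_card_fiberwise (f := fun x : E => x * τ x)
      (t := Finset.univ.filter fun c : E => c ∈ E0 ∧ c ≠ 0 ∧ p c)]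
    · rw [Finset.sum_congr rfl (g := fun _ => k), Finset.sum_const, smul_eq_mul, mul_comm]
      intro c hc
      simp only [Finset.mem_filter, Finset.mem_univ, true_and] at hc
      rw [← hfib c hc.1 hc.2.1]
      congr 1
      ext x
      simp only [Finset.mem_filter, Finset.mem_univ, true_and]
      constructor
      · rintro ⟨_, h⟩; exact h
      · intro h
        refine ⟨⟨?_, by rw [h]; exact hc.2.2⟩, h⟩
        rintro rfl
        rw [zero_mul] at h
        exact hc.2.1 h.symm
    · intro x hx
      simp only [Finset.coe_filter, Finset.mem_univ, true_and, Set.mem_ofPred_eq] at hx ⊢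
      refine ⟨?_, ?_, hx.2⟩
      · rw [mem0, map_mul, hτ, mul_comm]
      · exact mul_ne_zero hx.1 (by simpa using hx.1)
  have hcE0 : (Finset.univ.filter fun c : E => c ∈ E0 ∧ c ≠ 0).card + 1 = Nat.card E0 := by
    rw [Nat.card_eq_fintype_card, Fintype.card_of_subtype (Finset.univ.filter fun c : E => c ∈ E0)
      (fun x => by simp)]
    rw [← Finset.card_erase_add_one (a := (0 : E)) (s := Finset.univ.filter fun c : E => c ∈ E0)
      (by simp [E0.zero_mem])]
    congr 2
    ext x
    simp only [Finset.mem_filter, Finset.mem_univ, true_and, Finset.mem_erase]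
    tauto
  have hcφ : (Finset.univ.filter fun c : E => c ∈ E0 ∧ c ≠ 0 ∧ ψ (d * c) = 0).card + 1
      = Nat.card {x : E0 // φ x = 0} := by
    have h1 : Nat.card {x : E0 // φ x = 0} = Nat.card {x : E // x ∈ E0 ∧ ψ (d * x) = 0} := by
      apply Nat.card_congr
      exact Equiv.subtypeSubtypeEquivSubtypeInter (fun x => x ∈ E0) (fun x => ψ (d * x) = 0)
    rw [h1, Nat.card_eq_fintype_card, Fintype.card_subtype]
    rw [← Finset.card_erase_add_one (a := (0 : E))
      (s := Finset.univ.filter fun c : E => c ∈ E0 ∧ ψ (d * c) = 0) (by simp [E0.zero_mem])]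
    congr 2
    ext x
    simp only [Finset.mem_filter, Finset.mem_univ, true_and, Finset.mem_erase]
    tauto
  -- `k = |E0| + 1`
  have hkk : k * (Finset.univ.filter fun c : E => c ∈ E0 ∧ c ≠ 0).card + 1 = Nat.card E := by
    have h1 := hcount (fun _ => True)
    simp only [and_true] at h1
    rw [← h1, Nat.card_eq_fintype_card, ← Finset.card_univ,
      ← Finset.card_erase_add_one (Finset.mem_univ (0 : E))]
    congr 2
    ext x
    simp
  have hnz : nz (fun x : E => ψ (d * (x * τ x)))
      = k * (Finset.univ.filter fun c : E => c ∈ E0 ∧ c ≠ 0 ∧ ψ (d * c) = 0).card + 1 := by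
    have h1 := hcount (fun c => ψ (d * c) = 0)
    rw [← h1, X4a_nz,
      ← Finset.card_erase_add_one (a := (0 : E))
        (s := Finset.univ.filter fun x : E => ψ (d * (x * τ x)) = 0) (by simp)]
    congr 2
    ext x
    simp only [Finset.mem_filter, Finset.mem_univ, true_and, Finset.mem_erase]
  have hQ1 : 1 < Nat.card E0 := by
    by_contra hcon
    have h1 : Nat.card E0 ≤ 1 := by omega
    have h2 : 1 < Nat.card E := Finite.one_lt_card
    rw [hcE] at h2
    have := Nat.mul_le_mul h1 h1
    omega
  rw [hfr2]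
  generalize (Finset.univ.filter fun c : E => c ∈ E0 ∧ c ≠ 0).card = u at hcE0 hkk
  generalize (Finset.univ.filter fun c : E => c ∈ E0 ∧ c ≠ 0 ∧ ψ (d * c) = 0).card = w at hcφ hnz
  rw [← hcφ] at hkφ
  rw [hcE, ← hcE0] at hkk
  have hu : 0 < u := by omega
  have hk' : k = u + 2 := by
    have : k * u = (u + 2) * u := by linarith
    exact Nat.eq_of_mul_eq_mul_right hu this
  have hQ' : (Nat.card K : ℤ) ^ finrank K E0 = u + 1 := by
    exact_mod_cast hQ.symm.trans hcE0.symm
  rw [← hcE0] at hkφ
  have hkφ' : (Nat.card K : ℤ) * (w + 1) = u + 1 := by exact_mod_cast hkφ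
  rw [hnz, two_mul, pow_add, hQ', hk']
  push_cast
  linear_combination ((u : ℤ) + 2) * hkφ'

end Pool.Agent.CTE
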