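import Pool.Agent.CTE.X4p

/-!
# CTE.X4b: the number of zeros of the quadratic form on the pieces of the torus algebra

`Q` the form of `algA`: `Q v = f (a v) v`, `a ∈ TorAlg`, `a + starA a = 1` (`adj_iff` of `CTO/X1.lean`).
* `zeros_S`: induction on `S` (see `X4_class`): for `S' = insert k S` the range of `mSZ S' ∅` is the orthogonal sum of the ranges of
  `mSZ {k} ∅` and `mSZ S ∅` (`X4_eSZ_add`, `X4_sumEquiv`), `Q (v + w) = Q v + Q w` on it (`adQ_qf`, `f v w = 0`); `nz_sum`, and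
  `|range (mSZ S ∅)| = q ^ (2 ∑ lenA)` (`rank_mSZ`, `Module.card_eq_pow_finrank`-like), divide by `q - 1 ≠ 0`. `S = ∅`: `nz = 1`.
-/

namespace Pool.Agent.CTE

open Module Pool.Agent.CTO

variable {K : Type} [Field K] [Finite K] {ι κ : Type} {ζ : Type} [Fintype ι] [Fintype κ]
  [Fintype ζ] {P : ι → Type} {L : κ → Type} [∀ i, Field (P i)] [∀ i, Algebra K (P i)]
  [∀ j, Field (L j)] [∀ j, Algebra K (L j)] [∀ i, FiniteDimensional K (P i)]
  [∀ j, FiniteDimensional K (L j)]

/-- The arithmetic of the induction step. -/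
lemma X4b_arith (q n n1 n2 s1 s2 : ℤ) (a b : ℕ) (hq : q - 1 ≠ 0)
    (h : (q - 1) * (q * n - q ^ (2 * a) * q ^ (2 * b)) =
      (q * n1 - q ^ (2 * a)) * (q * n2 - q ^ (2 * b)))
    (h1 : q * n1 = q ^ (2 * a) + s1 * (q - 1) * q ^ a)
    (h2 : q * n2 = q ^ (2 * b) + s2 * (q - 1) * q ^ b) :
    q * n = q ^ (2 * (a + b)) + s1 * s2 * (q - 1) * q ^ (a + b) := by
  have h3 : (q - 1) * (q * n - (q ^ (2 * (a + b)) + s1 * s2 * (q - 1) * q ^ (a + b))) = 0 := by
    rw [h1, h2] at h
    rw [show 2 * (a + b) = 2 * a + 2 * b by ring, pow_add q (2 * a) (2 * b), pow_add q a b]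
    linear_combination h
  have h4 := (mul_eq_zero.1 h3).resolve_left hq
  linear_combination h4

lemma X4b_card (τ : ∀ j, L j ≃ₐ[K] L j) (hτ : ∀ j x, τ j (τ j x) = x)
    (hτ' : ∀ j, ∃ x, τ j x ≠ x) (S : Finset (ι ⊕ κ)) :
    (Nat.card (LinearMap.range (mSZ K P L S (∅ : Finset ζ))) : ℤ) =
      (Nat.card K : ℤ) ^ (2 * ∑ k ∈ S, lenA K P L k) := by
  have h1 := Module.natCard_eq_pow_finrank (K := K)
    (V := LinearMap.range (mSZ K P L S (∅ : Finset ζ)))
  rw [h1, rank_mSZ τ hτ hτ' S (∅ : Finset ζ), Finset.card_empty, add_zero, Nat.cast_pow]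

theorem zeros_S (two : (2 : K) = 0) (f : TorAlg K ζ P L → TorAlg K ζ P L → K)
    (hf : IsHF (RingHom.id K) 1 f) (ha : Alt f) (τ : ∀ j, L j ≃ₐ[K] L j)
    (hτ : ∀ j x, τ j (τ j x) = x) (hτ' : ∀ j, ∃ x, τ j x ≠ x) (had : Adapted τ f)
    (Q : TorAlg K ζ P L → K) (hQ : AdQ f (algA K ζ P L) Q) (S : Finset (ι ⊕ κ)) :
    ((Nat.card K : ℤ) * nz (resQ Q (LinearMap.range (mSZ K P L S (∅ : Finset ζ)))))
      = (Nat.card K : ℤ) ^ (2 * ∑ k ∈ S, lenA K P L k)
        + (-1) ^ (Multiset.card (S.val.filter fun k => k.isRight))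
          * ((Nat.card K : ℤ) - 1) * (Nat.card K : ℤ) ^ (∑ k ∈ S, lenA K P L k) := by
  classical
  have hqf : IsQF f Q := adQ_qf two f hf ha _ Q hQ
  have hsm : ∀ (W : Submodule K (TorAlg K ζ P L)) (c : K) (v : W),
      resQ Q W (c • v) = c * c * resQ Q W v := fun W c v => hqf.smul c v
  have hq1 : (Nat.card K : ℤ) - 1 ≠ 0 := by
    have h1 : 1 < Nat.card K := Finite.one_lt_card
    have h2 : (1 : ℤ) < (Nat.card K : ℤ) := by exact_mod_cast h1
    exact ne_of_gt (sub_pos.2 h2)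
  induction S using Finset.induction_on with
  | empty =>
    have hr : finrank K (LinearMap.range (mSZ K P L ∅ (∅ : Finset ζ))) = 0 := by
      rw [rank_mSZ τ hτ hτ']
      simp
    have hsub : Subsingleton (LinearMap.range (mSZ K P L ∅ (∅ : Finset ζ))) :=
      finrank_zero_iff.1 hr
    have hn : nz (resQ Q (LinearMap.range (mSZ K P L ∅ (∅ : Finset ζ)))) = 1 := by
      unfold nz
      rw [Nat.card_eq_one_iff_unique]
      refine ⟨inferInstance, ⟨⟨0, ?_⟩⟩⟩
      have h1 := hsm (LinearMap.range (mSZ K P L ∅ (∅ : Finset ζ))) 0 0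
      rw [smul_zero, zero_mul, zero_mul] at h1
      exact h1
    rw [hn]
    simp
  | insert k S hk ih =>
    obtain ⟨h1, h2⟩ := X4_eSZ_add (K := K) (P := P) (L := L) S (∅ : Finset ζ) k hk (insert k S)
      (fun l => Finset.mem_insert)
    obtain ⟨-, hee, hea⟩ := mSZ_spec 1 f hf τ had (insert k S) (∅ : Finset ζ)
    obtain ⟨-, hee1, hea1⟩ := mSZ_spec 1 f hf τ had {k} (∅ : Finset ζ)
    obtain ⟨-, hee2, hea2⟩ := mSZ_spec 1 f hf τ had S (∅ : Finset ζ)
    have e1 : mSZ K P L (insert k S) (∅ : Finset ζ) =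
        mSZ K P L {k} (∅ : Finset ζ) + mSZ K P L S (∅ : Finset ζ) := by
      unfold mSZ
      rw [h1, map_add]
    have e2 : mSZ K P L {k} (∅ : Finset ζ) * mSZ K P L S (∅ : Finset ζ) = 0 := by
      unfold mSZ
      rw [← map_mul, h2, map_zero]
    have e3 : mSZ K P L S (∅ : Finset ζ) * mSZ K P L {k} (∅ : Finset ζ) = 0 := by
      unfold mSZ
      rw [← map_mul, mul_comm, h2, map_zero]
    have hfin1 : Finite (LinearMap.range (mSZ K P L {k} (∅ : Finset ζ))) :=
      Module.finite_of_finite K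
    have hfin2 : Finite (LinearMap.range (mSZ K P L S (∅ : Finset ζ))) :=
      Module.finite_of_finite K
    have hsum := nz_sum K _ _ _ two (X4_sumEquiv e1 hee1 hee2 e2 e3).symm.toEquiv
      (resQ Q (LinearMap.range (mSZ K P L {k} (∅ : Finset ζ))))
      (resQ Q (LinearMap.range (mSZ K P L S (∅ : Finset ζ))))
      (resQ Q (LinearMap.range (mSZ K P L (insert k S) (∅ : Finset ζ)))) (hsm _) (hsm _) ?_
    · rw [X4b_card τ hτ hτ', X4b_card τ hτ hτ'] at hsum
      rw [Finset.sum_singleton] at hsum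
      rw [Finset.sum_insert hk, Finset.insert_val, Multiset.ndinsert_of_notMem (by exact hk)]
      cases k with
      | inl i =>
        have hb := block_pos two f hf ha τ had Q hQ i
        rw [Multiset.filter_cons_of_neg _ (by simp)]
        have := X4b_arith (Nat.card K) _ _ _ 1 _ _ _ hq1 hsum (by rw [hb]; ring) ih
        rw [this]
        ring
      | inr j =>
        have hb := block_neg two f hf ha τ hτ hτ' had Q hQ j
        rw [Multiset.filter_cons_of_pos _ (by simp), Multiset.card_cons, pow_succ]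
        have := X4b_arith (Nat.card K) _ _ _ (-1) _ _ _ hq1 hsum (by rw [hb]; ring) ih
        rw [this]
        ring
    · intro u
      obtain ⟨p, rfl⟩ := (X4_sumEquiv e1 hee1 hee2 e2 e3).surjective u
      have h3 : (X4_sumEquiv e1 hee1 hee2 e2 e3).symm.toEquiv
          ((X4_sumEquiv e1 hee1 hee2 e2 e3) p) = p :=
        LinearEquiv.symm_apply_apply _ _
      rw [h3]
      show Q ((p.1 : TorAlg K ζ P L) + p.2) = Q p.1 + Q p.2
      have c1 := (X4_mem_range hee1 _).1 p.1.2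
      have c2 := (X4_mem_range hee2 _).1 p.2.2
      have c3 : mSZ K P L {k} (∅ : Finset ζ) (p.2 : TorAlg K ζ P L) = 0 := by
        rw [← c2]
        exact LinearMap.congr_fun e2 _
      have c4 : f p.1 p.2 = 0 := by
        rw [← c1, hea1, c3, ← X4_bil_apply hf, map_zero]
      rw [hqf.add, c4, add_zero]

end Pool.Agent.CTE
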