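import Pool.Agent.CTE.B1
import Pool.Agent.CTE.X1
import Pool.Agent.CTE.X4a
import Pool.Agent.CTO.X4

/-!
# CTE.X4p: the number of zeros of the quadratic form on the pieces of the torus algebra

`Q` the form of `algA`: `Q v = f (a v) v`, `a ∈ TorAlg`, `a + starA a = 1` (`adj_iff` of `CTO/X1.lean`).
* `block_pos`: `B = P i × P i`, `inc : B → TorAlg` (`X4_incP`), `x ↦ inc x` is a bijection onto the range of `mSZ {inl i} ∅`
  (`X4_incEquiv`; see the proof of `X4_pos`). `ψ y = f (inc 1) (inc y)`; `f (inc u) (inc v) = ψ (u.swap * v)` (`Adapted`),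
  `ψ y.swap = ψ y` (symmetry). With `a_i = (a1, a2)`, `a1 + a2 = 1`: `Q (inc x) = f (inc (a_i x)) (inc x) = ψ ((a2 x1 x2, a1 x1 x2))
  = ψ1 (x1 x2)`, where `ψ1 y = ψ (y, 0) = ψ (0, y)`. `ψ1 ≠ 0` because `f` is nondegenerate (on `B`). `pos_count`, `nz_congr`.
* `block_neg`: `B = L j`, `X4_incL` (see the proof of `X4_neg`), `ψ y = f (inc 1) (inc y)`, `ψ (τ y) = ψ y`, `ψ ≠ 0`,
  `Q (inc x) = ψ (τ (a_j x) x) = ψ (τ(a_j) (x τ x))`; `neg_count` with `d = τ (a_j)`.
-/

namespace Pool.Agent.CTE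

open Module Pool.Agent.CTO

variable {K : Type} [Field K] [Finite K] {ι κ : Type} {ζ : Type} [Fintype ι] [Fintype κ]
  [Fintype ζ] {P : ι → Type} {L : κ → Type} [∀ i, Field (P i)] [∀ i, Algebra K (P i)]
  [∀ j, Field (L j)] [∀ j, Algebra K (L j)] [∀ i, FiniteDimensional K (P i)]
  [∀ j, FiniteDimensional K (L j)]

/-- The functional of a block. -/
noncomputable def X4p_psi {B : Type} [CommRing B] [Algebra K B]
    {f : TorAlg K ζ P L → TorAlg K ζ P L → K} (hf : IsHF (RingHom.id K) 1 f)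
    (inc : B →ₗ[K] TorAlg K ζ P L) : B →ₗ[K] K := (X4_bil hf 1).comp inc

/-- The quadratic form on a block. -/
theorem X4p_gen (f : TorAlg K ζ P L → TorAlg K ζ P L → K)
    (hf : IsHF (RingHom.id K) 1 f) (τ : ∀ j, L j ≃ₐ[K] L j) (had : Adapted τ f)
    (Q : TorAlg K ζ P L → K) (hQ : AdQ f (algA K ζ P L) Q)
    {B : Type} [CommRing B] [Nontrivial B] [Algebra K B]
    (S : Finset (ι ⊕ κ)) (Z : Finset ζ)
    (inc : B →ₗ[K] TorAlg K ζ P L) (proj : TorAlg K ζ P L →ₗ[K] B)
    (h1 : ∀ x, proj (inc x) = x) (h2 : ∀ v, inc (proj v) = mSZ K P L S Z v) (st : B ≃ₐ[K] B)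
    (hm : ∀ x y, inc (x * y) = inc x * inc y) (hst : ∀ x, inc (st x) = starA ζ P τ (inc x))
    (p1 : proj 1 = 1) (pm : ∀ v w, proj (v * w) = proj v * proj w)
    (pst : ∀ v, proj (starA ζ P τ v) = st (proj v)) :
    (∀ x, X4p_psi hf inc (st x) = X4p_psi hf inc x) ∧ X4p_psi hf inc ≠ 0 ∧
      ∃ d : B, d + st d = 1 ∧ ∀ x, Q (inc x) = X4p_psi hf inc (st d * (x * st x)) := by
  obtain ⟨-, hee, hea⟩ := mSZ_spec 1 f hf τ had S Z
  have hpsi : ∀ x y, f (inc x) (inc y) = X4p_psi hf inc (st x * y) := by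
    intro x y
    show f (inc x) (inc y) = f 1 (inc (st x * y))
    rw [hm, hst, ← had, mul_one]
  have hfix : ∀ x, mSZ K P L S Z (inc x) = inc x := by
    intro x
    rw [← h2, h1]
  have hmul : ∀ (a : TorAlg K ζ P L) (x : B), a * inc x = inc (proj a * x) := by
    intro a x
    have e1 : inc (proj (a * inc x)) = a * inc x := by
      rw [h2]
      show eSZ K P L S Z * (a * inc x) = a * inc x
      rw [mul_left_comm]
      congr 1
      exact hfix x
    rw [← e1, pm, h1]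
  refine ⟨?_, ?_, ?_⟩
  · intro u
    show f 1 (inc (st u)) = f 1 (inc u)
    rw [hst]
    have h3 := had (inc u) 1 1
    rw [mul_one, mul_one] at h3
    rw [← h3, X4_symm hf]
  · intro h0
    have h3 : inc (1 : B) = 0 := by
      apply hf.nondeg
      intro w
      rw [← hfix 1, hea (inc 1) w, ← h2, hpsi, h0]
      rfl
    have h4 : (1 : B) = 0 := by
      rw [← h1 1, h3, map_zero]
    exact one_ne_zero h4
  · obtain ⟨D, ⟨a, rfl⟩, D', ⟨b, rfl⟩, hadj, hsum, hQv⟩ := hQ
    have hb : b = starA ζ P τ a := (adj_iff 1 f hf τ had a b).1 hadj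
    have hab : a + starA ζ P τ a = 1 := by
      rw [← hb]
      have h3 := LinearMap.congr_fun hsum 1
      have h4 : (a * 1 + b * 1 : TorAlg K ζ P L) = 1 := h3
      rwa [mul_one, mul_one] at h4
    refine ⟨proj a, ?_, ?_⟩
    · rw [← pst, ← map_add, hab, p1]
    · intro x
      rw [hQv]
      have h3 : (Algebra.lmul K (TorAlg K ζ P L) a) (inc x) = inc (proj a * x) := hmul a x
      have h4 := hpsi (proj a * x) x
      have h5 : st (proj a) * (x * st x) = st (proj a * x) * x := by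
        rw [map_mul st]
        ring
      rw [h5, ← h4]
      exact congrArg (fun t => f t (inc x)) h3

omit [Finite K] [Fintype ι] [Fintype κ] [Fintype ζ] [∀ i, FiniteDimensional K (P i)]
  [∀ j, FiniteDimensional K (L j)] in
theorem X4p_a1 (i : ι) (x : P i × P i) :
    ((LinearMap.proj i).comp ((LinearMap.fst K (∀ i, P i × P i) (∀ j, L j)).comp
      (LinearMap.fst K ((∀ i, P i × P i) × (∀ j, L j)) (ζ → K)))) (X4_incP K ζ P L i x) = x := by
  classical
  show (Pi.single i x : ∀ i, P i × P i) i = x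
  exact Pi.single_eq_same (M := fun i => P i × P i) i x

omit [Finite K] [Fintype ι] [Fintype κ] [Fintype ζ] [∀ i, FiniteDimensional K (P i)]
  [∀ j, FiniteDimensional K (L j)] in
theorem X4p_a2 (i : ι) (v : TorAlg K ζ P L) :
    X4_incP K ζ P L i (((LinearMap.proj i).comp ((LinearMap.fst K (∀ i, P i × P i) (∀ j, L j)).comp
      (LinearMap.fst K ((∀ i, P i × P i) × (∀ j, L j)) (ζ → K)))) v) =
      mSZ K P L {Sum.inl i} (∅ : Finset ζ) v := by
  classical
  show ((Pi.single i (v.1.1 i), 0), 0) = eSZ K P L {Sum.inl i} ∅ * v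
  apply Prod.ext
  · apply Prod.ext
    · funext i'
      show (Pi.single i (v.1.1 i) : ∀ i, P i × P i) i' =
        (if Sum.inl i' ∈ ({Sum.inl i} : Finset (ι ⊕ κ)) then 1 else 0) * v.1.1 i'
      by_cases h1 : i' = i
      · subst h1
        rw [Pi.single_eq_same, if_pos (Finset.mem_singleton_self _), one_mul]
      · rw [Pi.single_eq_of_ne h1, if_neg (by simpa using h1), zero_mul]
    · funext j
      show 0 = (if Sum.inr j ∈ ({Sum.inl i} : Finset (ι ⊕ κ)) then 1 else 0) * v.1.2 j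
      rw [if_neg (by simp), zero_mul]
  · funext z
    show 0 = (if z ∈ (∅ : Finset ζ) then 1 else 0) * v.2 z
    rw [if_neg (Finset.notMem_empty z), zero_mul]

omit [Finite K] [Fintype ι] [Fintype κ] [Fintype ζ] [∀ i, FiniteDimensional K (P i)]
  [∀ j, FiniteDimensional K (L j)] in
theorem X4p_a3 (i : ι) (x y : P i × P i) :
    (X4_incP K ζ P L i (x * y) : TorAlg K ζ P L) = X4_incP K ζ P L i x * X4_incP K ζ P L i y := by
  classical
  apply Prod.ext
  · apply Prod.ext
    · exact Pi.single_mul (α := fun i => P i × P i) i x y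
    · exact (mul_zero _).symm
  · exact (mul_zero _).symm

omit [Finite K] [Fintype ι] [Fintype κ] [Fintype ζ] [∀ i, FiniteDimensional K (P i)]
  [∀ j, FiniteDimensional K (L j)] in
theorem X4p_a4 (τ : ∀ j, L j ≃ₐ[K] L j) (i : ι) (x : P i × P i) :
    (X4_incP K ζ P L i (X4_swap K (P i) x) : TorAlg K ζ P L) =
      starA ζ P τ (X4_incP K ζ P L i x) := by
  classical
  apply Prod.ext
  · apply Prod.ext
    · funext i'
      show (Pi.single i x.swap : ∀ i, P i × P i) i' = ((Pi.single i x : ∀ i, P i × P i) i').swap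
      by_cases h1 : i' = i
      · subst h1
        rw [Pi.single_eq_same, Pi.single_eq_same]
      · rw [Pi.single_eq_of_ne h1, Pi.single_eq_of_ne h1]
        rfl
    · funext j
      show (0 : L j) = τ j 0
      rw [map_zero]
  · rfl

omit [Finite K] [Fintype ι] [Fintype κ] [Fintype ζ] [∀ i, FiniteDimensional K (P i)]
  [∀ j, FiniteDimensional K (L j)] in
theorem X4p_b1 (j : κ) (x : L j) :
    ((LinearMap.proj j).comp ((LinearMap.snd K (∀ i, P i × P i) (∀ j, L j)).comp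
      (LinearMap.fst K ((∀ i, P i × P i) × (∀ j, L j)) (ζ → K)))) (X4_incL K ζ P L j x) = x := by
  classical
  show (Pi.single j x : ∀ j, L j) j = x
  exact Pi.single_eq_same j x

omit [Finite K] [Fintype ι] [Fintype κ] [Fintype ζ] [∀ i, FiniteDimensional K (P i)]
  [∀ j, FiniteDimensional K (L j)] in
theorem X4p_b2 (j : κ) (v : TorAlg K ζ P L) :
    X4_incL K ζ P L j (((LinearMap.proj j).comp ((LinearMap.snd K (∀ i, P i × P i) (∀ j, L j)).comp
      (LinearMap.fst K ((∀ i, P i × P i) × (∀ j, L j)) (ζ → K)))) v) =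
      mSZ K P L {Sum.inr j} (∅ : Finset ζ) v := by
  classical
  show ((0, Pi.single j (v.1.2 j)), 0) = eSZ K P L {Sum.inr j} ∅ * v
  apply Prod.ext
  · apply Prod.ext
    · funext i
      show 0 = (if Sum.inl i ∈ ({Sum.inr j} : Finset (ι ⊕ κ)) then 1 else 0) * v.1.1 i
      rw [if_neg (by simp), zero_mul]
    · funext j'
      show (Pi.single j (v.1.2 j) : ∀ j, L j) j' =
        (if Sum.inr j' ∈ ({Sum.inr j} : Finset (ι ⊕ κ)) then 1 else 0) * v.1.2 j'
      by_cases h1 : j' = j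
      · subst h1
        rw [Pi.single_eq_same, if_pos (Finset.mem_singleton_self _), one_mul]
      · rw [Pi.single_eq_of_ne h1, if_neg (by simpa using h1), zero_mul]
  · funext z
    show 0 = (if z ∈ (∅ : Finset ζ) then 1 else 0) * v.2 z
    rw [if_neg (Finset.notMem_empty z), zero_mul]

omit [Finite K] [Fintype ι] [Fintype κ] [Fintype ζ] [∀ i, FiniteDimensional K (P i)]
  [∀ j, FiniteDimensional K (L j)] in
theorem X4p_b3 (j : κ) (x y : L j) :
    (X4_incL K ζ P L j (x * y) : TorAlg K ζ P L) = X4_incL K ζ P L j x * X4_incL K ζ P L j y := by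
  classical
  apply Prod.ext
  · apply Prod.ext
    · exact (mul_zero _).symm
    · exact Pi.single_mul j x y
  · exact (mul_zero _).symm

omit [Finite K] [Fintype ι] [Fintype κ] [Fintype ζ] [∀ i, FiniteDimensional K (P i)]
  [∀ j, FiniteDimensional K (L j)] in
theorem X4p_b4 (τ : ∀ j, L j ≃ₐ[K] L j) (j : κ) (x : L j) :
    (X4_incL K ζ P L j (τ j x) : TorAlg K ζ P L) = starA ζ P τ (X4_incL K ζ P L j x) := by
  classical
  apply Prod.ext
  · apply Prod.ext
    · rfl
    · funext j'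
      show (Pi.single j (τ j x) : ∀ j, L j) j' = τ j' ((Pi.single j x : ∀ j, L j) j')
      by_cases h1 : j' = j
      · subst h1
        rw [Pi.single_eq_same, Pi.single_eq_same]
      · rw [Pi.single_eq_of_ne h1, Pi.single_eq_of_ne h1, map_zero]
  · rfl

theorem block_pos (two : (2 : K) = 0) (f : TorAlg K ζ P L → TorAlg K ζ P L → K)
    (hf : IsHF (RingHom.id K) 1 f) (ha : Alt f) (τ : ∀ j, L j ≃ₐ[K] L j) (had : Adapted τ f)
    (Q : TorAlg K ζ P L → K) (hQ : AdQ f (algA K ζ P L) Q) (i : ι) :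
    ((Nat.card K : ℤ) * nz (resQ Q (LinearMap.range (mSZ K P L {Sum.inl i} (∅ : Finset ζ)))))
      = (Nat.card K : ℤ) ^ (2 * lenA K P L (Sum.inl i))
        + ((Nat.card K : ℤ) - 1) * (Nat.card K : ℤ) ^ lenA K P L (Sum.inl i) := by
  classical
  obtain ⟨hs, h0, d, hd, hQx⟩ := X4p_gen f hf τ had Q hQ {Sum.inl i} (∅ : Finset ζ)
    (X4_incP K ζ P L i)
    ((LinearMap.proj i).comp ((LinearMap.fst K (∀ i, P i × P i) (∀ j, L j)).comp
      (LinearMap.fst K ((∀ i, P i × P i) × (∀ j, L j)) (ζ → K)))) (X4p_a1 i) (X4p_a2 i)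
      (X4_swap K (P i)) (X4p_a3 i) (X4p_a4 τ i) rfl (fun v w => rfl) (fun v => rfl)
  set ψ := X4p_psi hf (X4_incP K ζ P L i) with hψ
  have hsw : ∀ x : P i, ψ (0, x) = ψ (x, 0) := fun x => hs (x, 0)
  have hadd : ∀ x y : P i, ψ (x, y) = ψ (x, 0) + ψ (y, 0) := by
    intro x y
    rw [← hsw y, ← map_add]
    congr 1
    apply Prod.ext
    · exact (add_zero x).symm
    · exact (zero_add y).symm
  have hd1 : d.1 + d.2 = 1 := congrArg Prod.fst hd
  have hψ1 : ψ.comp (LinearMap.inl K (P i) (P i)) ≠ 0 := by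
    intro h
    apply h0
    ext x
    · exact LinearMap.congr_fun h x
    · show ψ (0, x) = 0
      rw [hsw]
      exact LinearMap.congr_fun h x
  have hval : ∀ x : P i × P i, Q (X4_incP K ζ P L i x) =
      ψ.comp (LinearMap.inl K (P i) (P i)) (x.1 * x.2) := by
    intro x
    rw [hQx x]
    show ψ (d.2 * (x.1 * x.2), d.1 * (x.2 * x.1)) = ψ (x.1 * x.2, 0)
    rw [hadd, ← map_add]
    congr 1
    apply Prod.ext
    · show d.2 * (x.1 * x.2) + d.1 * (x.2 * x.1) = x.1 * x.2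
      linear_combination (x.1 * x.2) * hd1
    · exact add_zero 0
  have hnz : nz (fun x : P i × P i => ψ.comp (LinearMap.inl K (P i) (P i)) (x.1 * x.2)) =
      nz (resQ Q (LinearMap.range (mSZ K P L {Sum.inl i} (∅ : Finset ζ)))) := by
    refine nz_congr (X4_incEquiv (e := mSZ K P L {Sum.inl i} (∅ : Finset ζ)) (X4_incP K ζ P L i)
      ((LinearMap.proj i).comp ((LinearMap.fst K (∀ i, P i × P i) (∀ j, L j)).comp
      (LinearMap.fst K ((∀ i, P i × P i) × (∀ j, L j)) (ζ → K)))) (X4p_a1 i)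
      (X4p_a2 i)).toEquiv _ _ ?_
    intro x
    exact hval x
  have h5 := pos_count K (P i) (ψ.comp (LinearMap.inl K (P i) (P i))) hψ1
  rw [hnz] at h5
  exact h5

theorem block_neg (two : (2 : K) = 0) (f : TorAlg K ζ P L → TorAlg K ζ P L → K)
    (hf : IsHF (RingHom.id K) 1 f) (ha : Alt f) (τ : ∀ j, L j ≃ₐ[K] L j)
    (hτ : ∀ j x, τ j (τ j x) = x) (hτ' : ∀ j, ∃ x, τ j x ≠ x) (had : Adapted τ f)
    (Q : TorAlg K ζ P L → K) (hQ : AdQ f (algA K ζ P L) Q) (j : κ) :
    ((Nat.card K : ℤ) * nz (resQ Q (LinearMap.range (mSZ K P L {Sum.inr j} (∅ : Finset ζ)))))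
      = (Nat.card K : ℤ) ^ (2 * lenA K P L (Sum.inr j))
        - ((Nat.card K : ℤ) - 1) * (Nat.card K : ℤ) ^ lenA K P L (Sum.inr j) := by
  classical
  obtain ⟨hs, h0, d, hd, hQx⟩ := X4p_gen f hf τ had Q hQ {Sum.inr j} (∅ : Finset ζ)
    (X4_incL K ζ P L j)
    ((LinearMap.proj j).comp ((LinearMap.snd K (∀ i, P i × P i) (∀ j, L j)).comp
      (LinearMap.fst K ((∀ i, P i × P i) × (∀ j, L j)) (ζ → K)))) (X4p_b1 j) (X4p_b2 j)
      (τ j) (X4p_b3 j) (X4p_b4 τ j) rfl (fun v w => rfl) (fun v => rfl)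
  have hnz : nz (fun x : L j => X4p_psi hf (X4_incL K ζ P L j) (τ j d * (x * τ j x))) =
      nz (resQ Q (LinearMap.range (mSZ K P L {Sum.inr j} (∅ : Finset ζ)))) := by
    refine nz_congr (X4_incEquiv (e := mSZ K P L {Sum.inr j} (∅ : Finset ζ)) (X4_incL K ζ P L j)
      ((LinearMap.proj j).comp ((LinearMap.snd K (∀ i, P i × P i) (∀ j, L j)).comp
      (LinearMap.fst K ((∀ i, P i × P i) × (∀ j, L j)) (ζ → K)))) (X4p_b1 j)
      (X4p_b2 j)).toEquiv _ _ ?_
    intro x
    exact hQx x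
  have h5 := neg_count K (L j) two (τ j) (hτ j) (hτ' j) (τ j d)
    (by rw [hτ, add_comm]; exact hd) (X4p_psi hf (X4_incL K ζ P L j)) h0 hs
  rw [hnz] at h5
  exact h5

end Pool.Agent.CTE
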